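import Pool.Agent.MP_c434f6_gt.G4.Prim

section

/-! The period equations imply the analytic hypotheses. -/

open Set Filter Topology Metric Complex
open scoped Real ComplexConjugate

set_option linter.unusedSectionVars false

namespace Pool.Agent.MP_c434f6_gt.H30

/-- real differentiability with a formula for the derivative -/
def RD {F : Type} [NormedAddCommGroup F] [NormedSpace ℝ F] (f : ℂ → F) (z : ℂ) (D : ℂ → F) : Prop :=
  ∃ L : ℂ →L[ℝ] F, HasFDerivAt f L z ∧ ∀ v, L v = D v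

section RD

variable {F : Type} [NormedAddCommGroup F] [NormedSpace ℝ F] {f g D D' : ℂ → F} {z : ℂ}

lemma RD.out (h : RD f z D) : DifferentiableAt ℝ f z ∧ ∀ v, fderiv ℝ f z v = D v := by
  obtain ⟨L, h1, h2⟩ := h
  exact ⟨h1.differentiableAt, fun v => by rw [h1.fderiv, h2]⟩

lemma RD.congr (h : RD f z D) (e : ∀ v, D v = D' v) : RD f z D' := by
  obtain ⟨L, h1, h2⟩ := h
  exact ⟨L, h1, fun v => (h2 v).trans (e v)⟩

lemma RD.of_deriv {f : ℂ → ℂ} {f' : ℂ} (h : HasDerivAt f f' z) : RD f z fun v => f' * v :=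
  ⟨_, h.hasFDerivAt.restrictScalars ℝ, fun v => by simp [mul_comm]⟩

lemma RD.add (h : RD f z D) (h' : RD g z D') : RD (fun y => f y + g y) z fun v => D v + D' v := by
  obtain ⟨L, h1, h2⟩ := h
  obtain ⟨L', h3, h4⟩ := h'
  exact ⟨_, h1.add h3, fun v => by simp [h2, h4]⟩

lemma RD.sub (h : RD f z D) (h' : RD g z D') : RD (fun y => f y - g y) z fun v => D v - D' v := by
  obtain ⟨L, h1, h2⟩ := h
  obtain ⟨L', h3, h4⟩ := h'
  exact ⟨_, h1.sub h3, fun v => by simp [h2, h4]⟩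

lemma RD.const (a : F) : RD (fun _ => a) z fun _ => 0 := ⟨0, hasFDerivAt_const _ _, fun _ => rfl⟩

lemma RD.sum {ι : Type} [Fintype ι] {f D : ι → ℂ → F} (h : ∀ l, RD (f l) z (D l)) :
    RD (fun y => ∑ l, f l y) z fun v => ∑ l, D l v := by
  choose L h1 h2 using h
  exact ⟨_, HasFDerivAt.fun_sum fun l _ => h1 l, fun v => by simp [h2]⟩

lemma RD.clm {F' : Type} [NormedAddCommGroup F'] [NormedSpace ℝ F'] (A : F →L[ℝ] F')
    (h : RD f z D) : RD (fun y => A (f y)) z fun v => A (D v) := by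
  obtain ⟨L, h1, h2⟩ := h
  exact ⟨_, A.hasFDerivAt.comp z h1, fun v => by simp [h2]⟩

lemma RD.comp {u : ℂ → ℂ} {u' : ℂ} (h : RD f (u z) D) (hu : HasDerivAt u u' z) :
    RD (fun y => f (u y)) z fun v => D (u' * v) := by
  obtain ⟨L, h1, h2⟩ := h
  obtain ⟨L', h3, h4⟩ := RD.of_deriv hu
  exact ⟨_, h1.comp z h3, fun v => by simp [h2, h4]⟩

lemma RD.log_norm {c : ℂ} (h : z - c ≠ 0) :
    RD (fun y => Real.log ‖y - c‖) z fun v => (v / (z - c)).re := by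
  have h1 : HasDerivAt (fun y => log ((y - c) / (z - c))) (z - c)⁻¹ z := by
    refine ((((hasDerivAt_id z).sub_const c).div_const (z - c)).clog
      (by simp [div_self h])).congr_deriv ?_
    simp [div_self h]
  obtain ⟨L, h2, h3⟩ := ((RD.of_deriv h1).clm reCLM).add (RD.const (Real.log ‖z - c‖))
  refine ⟨L, h2.congr_of_eventuallyEq ?_, fun v => by rw [h3]; simp [div_eq_inv_mul]⟩
  filter_upwards [(isOpen_ne_fun (continuous_id.sub continuous_const) continuous_const).mem_nhds h]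
    with y hy
  have hy' : ‖y - c‖ ≠ 0 := norm_ne_zero_iff.2 hy
  simp [log_re, Real.log_div hy' (norm_ne_zero_iff.2 h)]

lemma const_annulus {c x y : ℂ} {s t : ℝ} (hs : 0 ≤ s)
    (h : ∀ z, s < ‖z - c‖ → ‖z - c‖ < t → RD f z fun _ => 0)
    (hx : s < ‖x - c‖ ∧ ‖x - c‖ < t) (hy : s < ‖y - c‖ ∧ ‖y - c‖ < t) : f x = f y := by
  have hc : Continuous fun z : ℂ => ‖z - c‖ := by fun_prop
  refine IsOpen.is_const_of_fderiv_eq_zero (𝕜 := ℝ) (s := {z | s < ‖z - c‖ ∧ ‖z - c‖ < t})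
    ((isOpen_lt continuous_const hc).inter (isOpen_lt hc continuous_const)) ?_
    (fun z hz => (h z hz.1 hz.2).out.1.differentiableWithinAt)
    (fun z hz => ContinuousLinearMap.ext (h z hz.1 hz.2).out.2) hx hy
  have e : {z : ℂ | s < ‖z - c‖ ∧ ‖z - c‖ < t} =
      (fun p : ℝ × ℝ => circleMap c p.1 p.2) '' (Ioo s t ×ˢ univ) := by
    ext z
    constructor
    · rintro ⟨h1, h2⟩
      exact ⟨(‖z - c‖, arg (z - c)), ⟨⟨h1, h2⟩, trivial⟩, by simp [circleMap]⟩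
    · rintro ⟨⟨ρ, θ⟩, ⟨⟨h1, h2⟩, -⟩, rfl⟩
      simp only [mem_ofPred_eq, circleMap_sub_center, norm_circleMap_zero]
      rw [abs_of_nonneg (hs.trans h1.le)]
      exact ⟨h1, h2⟩
  rw [e]
  refine (isPreconnected_Ioo.prod isPreconnected_univ).image _ (Continuous.continuousOn ?_)
  unfold circleMap
  fun_prop

end RD

lemma conj_aa (j : Bool) : conj (aa j) = -aa j := by
  cases j <;> simp [aa, map_ofNat, neg_div]

lemma conj_bb (i j : Bool) : conj (bb i j) = -bb i j := by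
  rw [bb, map_add, conj_aa, conj_aa]; ring

@[simp] lemma bb_tf : bb true false = 0 := by simp [bb, aa]
@[simp] lemma bb_tt : bb true true = I := by simp [bb, aa]
@[simp] lemma bb_ff : bb false false = -I := by simp only [bb, aa]; ring

@[simp] lemma Eb_zero (z : ℂ) : Eb 0 z = z := by simp [Eb]

lemma Eb_ne {b : ℂ} (h : b ≠ 0) (z : ℂ) : Eb b z = exp (b * z) / b := by simp [Eb, h]

lemma Eb_deriv (b z : ℂ) : HasDerivAt (Eb b) (exp (b * z)) z := by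
  rcases eq_or_ne b 0 with rfl | h
  · simpa [funext Eb_zero] using hasDerivAt_id' z
  · rw [funext (Eb_ne h)]
    refine (((hasDerivAt_id z).const_mul b).cexp.div_const b).congr_deriv ?_
    simp [h]

lemma Eb_conj {b : ℂ} (hb : conj b = -b) (z : ℂ) : Eb b (-conj z) = -conj (Eb b z) := by
  rcases eq_or_ne b 0 with rfl | h
  · simp
  · rw [Eb_ne h, Eb_ne h, Dat.exp_sym hb, map_div₀, hb, div_neg, neg_neg]

namespace Dat2

variable {ι : Type} [Fintype ι] [DecidableEq ι] {d : Dat2 ι}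

variable (d) in
/-- geometry and contraction for both spinors -/
structure Ok : Prop where
  geo : d.Geo2
  con : ∀ j, ∃ w L η₀, d.Con (aa j) w L η₀

variable (d) in
def V2 : Set ℂ := {z | ∀ l, d.ρ l < ‖z - d.c l‖}

lemma isOpen_V2 : IsOpen d.V2 := by
  rw [V2, Set.ofPred_forall]
  exact isOpen_iInter_of_finite fun k => isOpen_lt continuous_const (by fun_prop)

lemma Ok.ρ0 (O : d.Ok) (l : ι) : 0 < d.ρ l := (O.geo.r0 l).trans (O.geo.rρ l)

lemma Ok.V2_V (O : d.Ok) {z : ℂ} (hz : z ∈ d.V2) : z ∈ d.V := fun l => (O.geo.rρ l).trans (hz l)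

lemma Ok.ne (O : d.Ok) {z : ℂ} (hz : z ∈ d.V2) (l : ι) : z - d.c l ≠ 0 :=
  norm_pos_iff.1 ((O.ρ0 l).trans (hz l))

lemma Ok.ρR (O : d.Ok) (l : ι) : d.ρ l < d.R l := (O.geo.ρκ l).trans (O.geo.κR l)

lemma Ok.sphere_V (O : d.Ok) {l : ι} {ζ : ℂ} (h : ζ ∈ sphere (d.c l) (d.ρ l)) : ζ ∈ d.V := by
  rw [mem_sphere, dist_eq_norm] at h
  exact O.geo.mem_V (h ▸ O.geo.rρ l) (h ▸ (O.ρR l).le)

lemma Ok.s_diffAt (O : d.Ok) (j : Bool) {z : ℂ} (hz : z ∈ d.V) :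
    DifferentiableAt ℂ (d.s (aa j)) z := by
  obtain ⟨_, _, _, C⟩ := O.con j
  exact C.s_diffAt hz

lemma Ok.f_tendsto (O : d.Ok) (j : Bool) : Tendsto (d.f (aa j)) (cocompact ℂ) (𝓝 1) := by
  obtain ⟨_, _, _, C⟩ := O.con j
  exact C.f_tendsto

lemma Ok.G_diffAt (O : d.Ok) (i j : Bool) {z : ℂ} (hz : z ∈ d.V) :
    DifferentiableAt ℂ (d.G i j) z := by
  obtain ⟨_, _, _, C⟩ := O.con i
  obtain ⟨_, _, _, C'⟩ := O.con j
  exact (C.f_diffAt hz).fun_mul (C'.f_diffAt hz)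

lemma Ok.G_cont (O : d.Ok) (i j : Bool) (l : ι) :
    ContinuousOn (d.G i j) (sphere (d.c l) (d.ρ l)) := fun _ h =>
  (O.G_diffAt i j (O.sphere_V h)).continuousAt.continuousWithinAt

lemma exp_G (i j : Bool) (z : ℂ) : exp (bb i j * z) * d.G i j z = d.s (aa i) z * d.s (aa j) z := by
  simp only [G, Dat.s, bb, add_mul, exp_add]; ring

lemma Ok.aut (O : d.Ok) (j : Bool) {l : ι} {z : ℂ} (hz : d.r l < ‖z - d.c l‖)
    (hz' : ‖z - d.c l‖ < d.R l) :
    d.s (aa j) z = d.κ l / (z - d.c l) * d.s (aa j) (d.γ l z) := by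
  obtain ⟨_, _, _, C⟩ := O.con j
  exact C.aut O.geo.toGeo hz hz'

theorem Ok.W_deriv (O : d.Ok) (i j : Bool) {z : ℂ} (hz : z ∈ d.V2) :
    HasDerivAt (d.W i j) (d.s (aa i) z * d.s (aa j) z - ∑ l, d.β i j l / (z - d.c l)) z := by
  refine ((Eb_deriv _ z).add (HasDerivAt.fun_sum fun l _ =>
    Ap_deriv (O.ρ0 l).le (O.G_cont i j l) (hz l))).congr_deriv ?_
  have h := multi_PP (G := d.G i j) (g := 1) (ρ := fun l => ‖d.κ l‖) O.ρ0 O.geo.ρκ
    (fun l m hm => by linarith [O.geo.disj l m hm, O.geo.ρκ m])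
    (fun ζ hζ => O.G_diffAt i j fun m => (O.geo.rρ m).trans_le (hζ m))
    (by have := (O.f_tendsto i).mul (O.f_tendsto j); rw [one_mul] at this; exact this) hz
  rw [← exp_G, h, Finset.sum_sub_distrib, ← Finset.mul_sum]
  simp only [β]
  ring

theorem Ok.β_pr (O : d.Ok) (i j : Bool) (l : ι) : d.β i j (d.pr l) = -d.β i j l := by
  have hκ := O.geo.κ0 l
  have h1 := circ_inv (c := d.c l) (c' := d.c (d.pr l)) (pow_ne_zero 2 hκ) (O.ρ0 l)
    fun w => d.s (aa i) w * d.s (aa j) w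
  have h2 : d.ρ (d.pr l) ≤ ‖d.κ l ^ 2‖ / d.ρ l := by
    have := O.geo.ρκ (d.pr l)
    rw [O.geo.nκ] at this
    rw [le_div_iff₀ (O.ρ0 l), norm_pow, sq]
    exact mul_le_mul this.le (O.geo.ρκ l).le (O.ρ0 l).le (norm_nonneg _)
  have h3 : ‖d.κ l ^ 2‖ / d.ρ l ≤ d.R (d.pr l) := by
    rw [O.geo.R_pr, norm_pow]
    exact div_le_div_of_nonneg_left (by positivity) (O.geo.r0 l) (O.geo.rρ l).le
  have hd : ∀ w, d.ρ (d.pr l) ≤ ‖w - d.c (d.pr l)‖ → ‖w - d.c (d.pr l)‖ ≤ ‖d.κ l ^ 2‖ / d.ρ l →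
      DifferentiableAt ℂ (fun w => d.s (aa i) w * d.s (aa j) w) w := fun w h4 h5 =>
    have := O.geo.mem_V ((O.geo.rρ _).trans_le h4) (h5.trans h3)
    (O.s_diffAt i this).fun_mul (O.s_diffAt j this)
  rw [circleIntegral_eq_of_differentiable_on_annulus_off_countable (O.ρ0 _) h2 countable_empty
    (fun ζ hζ => (hd ζ (by simpa [dist_eq_norm] using hζ.2)
      (by simpa [dist_eq_norm] using hζ.1)).continuousAt.continuousWithinAt)
    (fun ζ hζ => hd ζ (le_of_lt (by simpa [dist_eq_norm] using hζ.1.2))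
      (le_of_lt (by simpa [dist_eq_norm] using hζ.1.1)))] at h1
  simp only [β, res, exp_G]
  rw [← mul_neg, neg_eq_iff_eq_neg.1 h1.symm]
  congr 2
  refine circleIntegral.integral_congr (O.ρ0 l).le fun ζ hζ => ?_
  rw [mem_sphere, dist_eq_norm] at hζ
  have e1 := O.aut i (z := ζ) (hζ ▸ O.geo.rρ l) (hζ ▸ O.ρR l)
  have e2 := O.aut j (z := ζ) (hζ ▸ O.geo.rρ l) (hζ ▸ O.ρR l)
  rw [e1, e2, Dat.γ, ← div_pow]
  ring

variable (d) in
/-- the periods round disc `l` vanish -/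
def AEq (l : ι) : Prop :=
  (d.β true false l).im = 0 ∧ conj (d.β false false l) = -d.β true true l

lemma Ok.h3_RD (O : d.Ok) (A : ∀ l, d.AEq l) {z : ℂ} (hz : z ∈ d.V2) :
    RD d.h3 z fun v => (d.s (aa true) z * d.s (aa false) z * v).re := by
  refine (((RD.of_deriv (O.W_deriv true false hz)).clm reCLM).add (RD.sum fun l =>
    (RD.log_norm (O.ne hz l)).clm ((d.β true false l).re • ContinuousLinearMap.id ℝ ℝ))).congr
    fun v => ?_
  simp only [reCLM_apply, sub_mul, Finset.sum_mul, sub_re, re_sum, smul_apply,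
    ContinuousLinearMap.id_apply, smul_eq_mul]
  rw [sub_add, ← Finset.sum_sub_distrib, Finset.sum_eq_zero fun l _ => ?_, sub_zero]
  rw [div_mul_eq_mul_div, mul_div_assoc, mul_re, (A l).1]; ring

lemma Ok.Z0_RD (O : d.Ok) (A : ∀ l, d.AEq l) {z : ℂ} (hz : z ∈ d.V2) :
    RD d.Z0 z fun v => (conj (d.s (aa false) z ^ 2 * v) - d.s (aa true) z ^ 2 * v) / 2 := by
  have h1 := (((RD.of_deriv (O.W_deriv false false hz)).clm conjCLE.toContinuousLinearMap).sub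
    (RD.of_deriv (O.W_deriv true true hz))).clm ((2 : ℝ)⁻¹ • ContinuousLinearMap.id ℝ ℂ)
  have h2 := RD.sum fun l => (RD.log_norm (O.ne hz l)).clm
    (ContinuousLinearMap.toSpanSingleton ℝ (d.β true true l))
  have e : d.Z0 = fun y => ((2 : ℝ)⁻¹ • ContinuousLinearMap.id ℝ ℂ)
      (conjCLE.toContinuousLinearMap (d.W false false y) - d.W true true y) -
      ∑ l, ContinuousLinearMap.toSpanSingleton ℝ (d.β true true l) (Real.log ‖y - d.c l‖) := by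
    ext y
    simp [Z0, div_eq_inv_mul, mul_comm (d.β true true _)]
  rw [e]
  refine (h1.sub h2).congr fun v => ?_
  have h3 : ∑ l, (((v / (z - d.c l)).re : ℝ) : ℂ) * d.β true true l =
      (-conj ((∑ l, d.β false false l / (z - d.c l)) * v) +
        (∑ l, d.β true true l / (z - d.c l)) * v) / 2 := by
    simp only [Finset.sum_mul, map_sum, ← Finset.sum_neg_distrib, ← Finset.sum_add_distrib,
      Finset.sum_div]
    refine Finset.sum_congr rfl fun l _ => ?_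
    rw [div_mul_eq_mul_div, mul_div_assoc, map_mul, (A l).2, re_eq_add_conj]; ring
  simp only [smul_apply, ContinuousLinearMap.id_apply, real_smul,
    ContinuousLinearMap.toSpanSingleton_apply, h3, ContinuousLinearEquiv.coe_coe, conjCLE_apply,
    sub_mul, map_sub]
  push_cast
  ring_nf

lemma Ok.ann_V2 (O : d.Ok) {k : ι} {z : ℂ} (h1 : d.ρ k < ‖z - d.c k‖)
    (h2 : ‖z - d.c k‖ < ‖d.κ k‖ ^ 2 / d.ρ (d.pr k)) : z ∈ d.V2 := fun l => by
  rcases eq_or_ne l k with rfl | h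
  · exact h1
  · have h3 : ‖d.c k - d.c l‖ ≤ ‖z - d.c k‖ + ‖z - d.c l‖ := by
      rw [norm_sub_rev z]; exact norm_sub_le_norm_sub_add_norm_sub _ _ _
    linarith [O.geo.sep2 k l h]

variable (d) in
/-- the annulus about `c k` on which the gluing holds -/
def Ann (k : ι) (z : ℂ) : Prop := d.ρ k < ‖z - d.c k‖ ∧ ‖z - d.c k‖ < ‖d.κ k‖ ^ 2 / d.ρ (d.pr k)

lemma Ok.ann_γ (O : d.Ok) {k : ι} {z : ℂ} (h : d.Ann k z) : d.Ann (d.pr k) (d.γ k z) := by
  have h0 := (O.ρ0 k).trans h.1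
  have hκ : 0 < ‖d.κ k‖ ^ 2 := pow_pos (norm_pos_iff.2 (O.geo.κ0 k)) 2
  rw [Ann, Dat.norm_γ, O.geo.nκ, O.geo.prpr]
  refine ⟨?_, div_lt_div_of_pos_left hκ (O.ρ0 k) h.1⟩
  have := h.2
  rw [lt_div_iff₀ (O.ρ0 _)] at this
  rwa [lt_div_iff₀ h0, mul_comm]

lemma Ok.ann_R (O : d.Ok) {k : ι} {z : ℂ} (h : d.Ann k z) :
    d.r k < ‖z - d.c k‖ ∧ ‖z - d.c k‖ < d.R k :=
  ⟨(O.geo.rρ k).trans h.1, h.2.trans_le
    (div_le_div_of_nonneg_left (by positivity) (O.geo.r0 _) (O.geo.rρ _).le)⟩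

variable (d) in
/-- the periods across neck `k` vanish -/
def BEq (k : ι) : Prop := ∃ z, d.Ann k z ∧ d.h3 (d.γ k z) = d.h3 z ∧ d.Z0 (d.γ k z) = d.Z0 z

lemma Ok.glue (O : d.Ok) (A : ∀ l, d.AEq l) {k : ι} (B : d.BEq k) {z : ℂ} (hz : d.Ann k z) :
    d.h3 (d.γ k z) = d.h3 z ∧ d.Z0 (d.γ k z) = d.Z0 z := by
  obtain ⟨y, hy, b1, b2⟩ := B
  have hγ : ∀ x, d.Ann k x → HasDerivAt (d.γ k) ((d.κ k / (x - d.c k)) ^ 2) x := fun x hx => by
    have h0 := O.ne (O.ann_V2 hx.1 hx.2) k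
    refine (((hasDerivAt_const x (d.κ k ^ 2)).fun_div ((hasDerivAt_id x).sub_const (d.c k)) h0
      ).const_sub _).congr_deriv ?_
    simp only [id]
    field_simp
    ring
  constructor
  · rw [← sub_eq_zero] at b1 ⊢
    rw [← b1]
    refine const_annulus (f := fun x => d.h3 (d.γ k x) - d.h3 x) (O.ρ0 k).le (fun x h1 h2 => ?_)
      hz hy
    have hx : d.Ann k x := ⟨h1, h2⟩
    refine (((O.h3_RD A (O.ann_V2 (O.ann_γ hx).1 (O.ann_γ hx).2)).comp (hγ x hx)).sub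
      (O.h3_RD A (O.ann_V2 h1 h2))).congr fun v => ?_
    rw [O.aut true (O.ann_R hx).1 (O.ann_R hx).2, O.aut false (O.ann_R hx).1 (O.ann_R hx).2,
      sub_eq_zero]
    congr 1; ring
  · rw [← sub_eq_zero] at b2 ⊢
    rw [← b2]
    refine const_annulus (f := fun x => d.Z0 (d.γ k x) - d.Z0 x) (O.ρ0 k).le (fun x h1 h2 => ?_)
      hz hy
    have hx : d.Ann k x := ⟨h1, h2⟩
    refine (((O.Z0_RD A (O.ann_V2 (O.ann_γ hx).1 (O.ann_γ hx).2)).comp (hγ x hx)).sub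
      (O.Z0_RD A (O.ann_V2 h1 h2))).congr fun v => ?_
    rw [O.aut true (O.ann_R hx).1 (O.ann_R hx).2, O.aut false (O.ann_R hx).1 (O.ann_R hx).2,
      sub_eq_zero]
    congr 2
    · congr 1; ring
    · ring

lemma Ok.AEq_pr (O : d.Ok) {l : ι} (h : d.AEq l) : d.AEq (d.pr l) := by
  simp only [AEq, O.β_pr, neg_im, map_neg, h.1, h.2, neg_zero, and_self]

lemma Ok.BEq_pr (O : d.Ok) {l : ι} (h : d.BEq l) : d.BEq (d.pr l) := by
  obtain ⟨z, hz, h1, h2⟩ := h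
  refine ⟨_, O.ann_γ hz, ?_⟩
  rw [O.geo.γγ (O.ne (O.ann_V2 hz.1 hz.2) l)]
  exact ⟨h1.symm, h2.symm⟩

section sym

variable {τ : ι ≃ ι}

lemma Ok.G_sym (O : d.Ok) (S : d.Sym2 τ) (i j : Bool) {z : ℂ} (hz : z ∈ d.V) :
    d.G i j (-conj z) = conj (d.G i j z) := by
  obtain ⟨_, _, _, C⟩ := O.con i
  obtain ⟨_, _, _, C'⟩ := O.con j
  have h1 := exp_G (d := d) i j (-conj z)
  rw [S.toSym.s (conj_aa i) C hz, S.toSym.s (conj_aa j) C' hz, ← map_mul, ← exp_G, map_mul,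
    Dat.exp_sym (conj_bb i j)] at h1
  exact mul_left_cancel₀ (by simp) h1

lemma Ok.G_eqOn (O : d.Ok) (S : d.Sym2 τ) (i j : Bool) (l : ι) :
    EqOn (d.G i j) (fun ζ => conj (d.G i j (-conj ζ))) (sphere (-conj (d.c l)) (d.ρ l)) := by
  intro ζ hζ
  have : -conj ζ ∈ sphere (d.c l) (d.ρ l) := by
    rw [mem_sphere, dist_eq_norm] at hζ ⊢
    rw [show -conj ζ - d.c l = -conj (ζ - -conj (d.c l)) by simp; ring, norm_neg, norm_conj, hζ]
  simp only
  rw [← O.G_sym S i j (O.sphere_V this)]; simp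

lemma Ok.β_sym (O : d.Ok) (S : d.Sym2 τ) (i j : Bool) (l : ι) :
    d.β i j (τ l) = -conj (d.β i j l) := by
  rw [β, β, S.c, S.ρ, ← res_conj (conj_bb i j), res, res,
    circleIntegral.integral_congr (O.ρ0 l).le fun ζ hζ => by rw [O.G_eqOn S i j l hζ]]

lemma Ok.W_sym (O : d.Ok) (S : d.Sym2 τ) (i j : Bool) {z : ℂ} (hz : z ∈ d.V2) :
    d.W i j (-conj z) = -conj (d.W i j z) := by
  rw [W, W, Eb_conj (conj_bb i j), map_add, map_sum, neg_add, ← Finset.sum_neg_distrib,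
    ← τ.sum_comp]
  congr 1
  refine Finset.sum_congr rfl fun l _ => ?_
  rw [S.c, S.ρ, ← Ap_conj (conj_bb i j) (O.ρ0 l).le (hz l), Ap, Ap,
    circleIntegral.integral_congr (O.ρ0 l).le fun ζ hζ => by rw [O.G_eqOn S i j l hζ]]

theorem Ok.h3_sym (O : d.Ok) (S : d.Sym2 τ) {z : ℂ} (hz : z ∈ d.V2) :
    d.h3 (-conj z) = -d.h3 z := by
  rw [h3, h3, O.W_sym S _ _ hz, ← τ.sum_comp]
  simp only [O.β_sym S, S.toSym.norm, neg_re, conj_re, neg_mul, Finset.sum_neg_distrib]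
  ring

theorem Ok.Z0_sym (O : d.Ok) (S : d.Sym2 τ) {z : ℂ} (hz : z ∈ d.V2) :
    d.Z0 (-conj z) = -conj (d.Z0 z) := by
  rw [Z0, Z0, O.W_sym S _ _ hz, O.W_sym S _ _ hz, ← τ.sum_comp]
  simp only [O.β_sym S, S.toSym.norm, neg_mul, Finset.sum_neg_distrib, map_sub, map_div₀, map_sum,
    map_mul, map_neg, conj_conj, conj_ofReal, map_ofNat]
  ring

theorem Ok.h3_zero (O : d.Ok) (S : d.Sym2 τ) (h : (0 : ℂ) ∈ d.V2) : d.h3 0 = 0 := by
  have := O.h3_sym S h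
  simp only [map_zero, neg_zero] at this
  linarith

lemma Ok.AEq_sym (O : d.Ok) (S : d.Sym2 τ) {l : ι} (h : d.AEq l) : d.AEq (τ l) := by
  simp only [AEq, O.β_sym S, neg_im, conj_im, map_neg, h.1, h.2, neg_zero, and_self]

lemma Ok.BEq_sym (O : d.Ok) (S : d.Sym2 τ) {l : ι} (h : d.BEq l) : d.BEq (τ l) := by
  obtain ⟨z, hz, h1, h2⟩ := h
  have v1 := O.ann_V2 hz.1 hz.2
  have v2 := O.ann_V2 (O.ann_γ hz).1 (O.ann_γ hz).2
  refine ⟨-conj z, ?_, ?_⟩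
  · rw [Ann, S.toSym.norm, S.pr, S.ρ, S.ρ, S.κ, norm_neg, norm_conj]; exact hz
  · rw [S.toSym.γ, O.h3_sym S v1, O.h3_sym S v2, O.Z0_sym S v1, O.Z0_sym S v2, h1, h2]
    exact ⟨rfl, rfl⟩

end sym

lemma Neck.v1 (O : d.Ok) {k : ι} (N : d.Neck k) : d.z1 k ∈ d.V2 := fun l => by
  linarith [N.n1 l, O.ρ0 l]

lemma Neck.v2 (O : d.Ok) {k : ι} (N : d.Neck k) : d.z2 k ∈ d.V2 := fun l => by
  linarith [N.n2 l, O.ρ0 l]

lemma γ_z1 (k : ι) : d.γ k (d.z1 k) = d.z2 k := by simp [Dat.γ, z1, z2]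

lemma Neck.ann (O : d.Ok) {k : ι} (N : d.Neck k) : d.Ann k (d.z1 k) := by
  refine ⟨N.v1 O k, ?_⟩
  have h := N.v2 O (d.pr k)
  rw [← γ_z1, Dat.norm_γ, lt_div_iff₀ ((O.ρ0 k).trans (N.v1 O k))] at h
  rwa [lt_div_iff₀ (O.ρ0 _), mul_comm]

lemma Neck.L_re (O : d.Ok) {k : ι} (N : d.Neck k) (l : ι) :
    (d.L k l).re = Real.log ‖d.z2 k - d.c l‖ - Real.log ‖d.z1 k - d.c l‖ := by
  have h1 := norm_ne_zero_iff.2 (O.ne (N.v1 O) l)
  have h2 := norm_ne_zero_iff.2 (O.ne (N.v2 O) l)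
  rw [L, add_re, log_re, norm_mul, norm_div, norm_exp,
    Real.log_mul (div_ne_zero h2 h1) (Real.exp_ne_zero _), Real.log_exp, Real.log_div h2 h1]
  simp

lemma Neck.Ul_eq (O : d.Ok) {k : ι} (N : d.Neck k) (i j : Bool) (l : ι) :
    d.Ul i j k l = Ap (bb i j) (d.c l) (d.ρ l) (d.G i j) (d.z2 k) -
      Ap (bb i j) (d.c l) (d.ρ l) (d.G i j) (d.z1 k) + d.β i j l * d.L k l := by
  have hG := O.G_cont i j l
  have h0 := (O.ρ0 l).le
  have i1 := (hG.fun_mul (J_cont (b := bb i j) (N.v1 O l))).circleIntegrable h0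
  have i2 := (hG.fun_mul (J_cont (b := bb i j) (N.v2 O l))).circleIntegrable h0
  have i3 : CircleIntegrable (fun ζ => d.L k l * (exp (bb i j * ζ) * d.G i j ζ)) (d.c l) (d.ρ l) :=
    (continuousOn_const.fun_mul (ContinuousOn.fun_mul (by fun_prop) hG)).circleIntegrable h0
  have e : (fun ζ => d.G i j ζ * d.Kern (bb i j) k l ζ) = fun ζ =>
      (d.G i j ζ * J (bb i j) (d.c l) (d.z2 k) ζ - d.G i j ζ * J (bb i j) (d.c l) (d.z1 k) ζ) +
        d.L k l * (exp (bb i j * ζ) * d.G i j ζ) := by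
    ext; simp only [Kern]; ring
  rw [Ul, e, circleIntegral.integral_add (i2.fun_sub i1) i3, circleIntegral.integral_sub i2 i1,
    circleIntegral.integral_const_mul, Ap, Ap, β, res]
  ring

lemma Neck.U_eq (O : d.Ok) {k : ι} (N : d.Neck k) (i j : Bool) :
    d.U i j k = d.W i j (d.z2 k) - d.W i j (d.z1 k) + ∑ l, d.β i j l * d.L k l := by
  simp only [U, N.Ul_eq O, W, head, Finset.sum_add_distrib, Finset.sum_sub_distrib]
  ring

lemma AEq_of {k : ι} (h : ∀ m, (d.eqn k m).re = 0) : d.AEq k := by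
  have h0 := h 0
  have h1 := h 1
  have h2 := h 2
  simp [eqn] at h0 h1 h2
  exact ⟨h0, Complex.ext (by simp; linarith) (by simp; linarith)⟩

lemma Neck.BEq_of (O : d.Ok) (A : ∀ l, d.AEq l) {k : ι} (N : d.Neck k)
    (h : ∀ m, (d.eqn k m).re = 0) : d.BEq k := by
  have h3' : (d.U true false k).re = 0 := h 3
  have h6 : conj (d.U false false k) - d.U true true k = 0 := by
    have h4 := h 4
    have h5 := h 5
    simp [eqn] at h4 h5
    exact Complex.ext (by simp; linarith) (by simp; linarith)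
  refine ⟨_, N.ann O, ?_⟩
  rw [γ_z1]
  constructor
  · rw [N.U_eq O, add_re, sub_re, re_sum] at h3'
    simp only [mul_re, (A _).1, N.L_re O, zero_mul, sub_zero, mul_sub,
      Finset.sum_sub_distrib] at h3'
    simp only [h3]
    linarith
  · have e : ∑ l, d.β true true l * (Real.log ‖d.z2 k - d.c l‖ : ℝ) -
        ∑ l, d.β true true l * (Real.log ‖d.z1 k - d.c l‖ : ℝ) =
        (-conj (∑ l, d.β false false l * d.L k l) + ∑ l, d.β true true l * d.L k l) / 2 := by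
      simp only [map_sum, ← Finset.sum_neg_distrib, ← Finset.sum_add_distrib, Finset.sum_div,
        ← Finset.sum_sub_distrib]
      refine Finset.sum_congr rfl fun l _ => ?_
      rw [← mul_sub, ← ofReal_sub, ← N.L_re O, map_mul, (A l).2, re_eq_add_conj]; ring
    rw [N.U_eq O, N.U_eq O, map_add, map_sub] at h6
    simp only [Z0]
    linear_combination h6 / 2 - e

variable (d) in
/-- The period equations hold on a set `N` of representatives. -/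
structure Closed (τ : ι ≃ ι) (N : Set ι) : Prop where
  ok : d.Ok
  sym : d.Sym2 τ
  cover : ∀ l, ∃ k ∈ N, l = k ∨ l = d.pr k ∨ l = τ k ∨ l = τ (d.pr k)
  neck : ∀ k ∈ N, d.Neck k
  eqn : ∀ k ∈ N, ∀ m, (d.eqn k m).re = 0

variable {τ : ι ≃ ι} {N : Set ι}

lemma Closed.A (H : d.Closed τ N) (l : ι) : d.AEq l := by
  obtain ⟨k, hk, h⟩ := H.cover l
  have := AEq_of (H.eqn k hk)
  rcases h with rfl | rfl | rfl | rfl
  exacts [this, H.ok.AEq_pr this, H.ok.AEq_sym H.sym this, H.ok.AEq_sym H.sym (H.ok.AEq_pr this)]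

lemma Closed.B (H : d.Closed τ N) (l : ι) : d.BEq l := by
  obtain ⟨k, hk, h⟩ := H.cover l
  have := (H.neck k hk).BEq_of H.ok H.A (H.eqn k hk)
  rcases h with rfl | rfl | rfl | rfl
  exacts [this, H.ok.BEq_pr this, H.ok.BEq_sym H.sym this, H.ok.BEq_sym H.sym (H.ok.BEq_pr this)]

/-- Gluing on the whole annulus. -/
theorem Closed.glue (H : d.Closed τ N) (z₀ : ℂ) (k : ι) {z : ℂ} (h1 : d.ρ k < ‖z - d.c k‖)
    (h2 : ‖z - d.c k‖ < ‖d.κ k‖ ^ 2 / d.ρ (d.pr k)) :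
    (d.sch z₀).X ((d.sch z₀).γ k z) = (d.sch z₀).X z := by
  obtain ⟨e1, e2⟩ := H.ok.glue H.A (H.B k) ⟨h1, h2⟩
  have : (d.sch z₀).γ k z = d.γ k z := rfl
  simp only [Sch.X, this]
  simp only [sch, e1, e2]

theorem sch_Z_zero (z₀ : ℂ) : (d.sch z₀).Z 0 = z₀ := by simp [sch]

theorem Closed.h3_zero (H : d.Closed τ N) (z₀ : ℂ) (h : ∀ l, d.ρ l < ‖d.c l‖) :
    (d.sch z₀).h3 0 = 0 := H.ok.h3_zero H.sym fun l => by simpa using h l

theorem sch_s (z₀ z : ℂ) : (d.sch z₀).s1 z = exp (I / 2 * z) * d.f (aa true) z ∧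
    (d.sch z₀).s2 z = exp (-(I / 2) * z) * d.f (aa false) z := ⟨rfl, rfl⟩

theorem Closed.ana (H : d.Closed τ N) (z₀ : ℂ) : (d.sch z₀).Ana where
  prpr := H.ok.geo.prpr
  κpr := H.ok.geo.κpr
  κ0 := H.ok.geo.κ0
  disj := fun k l h => H.ok.geo.disj k l h.symm
  opn := isOpen_V2
  sub := fun z hz l => (H.ok.geo.ρκ l).trans_le (hz l)
  d1 := fun z hz => (H.ok.s_diffAt _ (H.ok.V2_V hz)).differentiableWithinAt
  d2 := fun z hz => (H.ok.s_diffAt _ (H.ok.V2_V hz)).differentiableWithinAt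
  dh := fun z hz => (H.ok.h3_RD H.A hz).out
  dZ := fun z hz => ((((H.ok.Z0_RD H.A hz).sub (RD.const (d.Z0 0))).add (RD.const z₀)).congr
    fun v => by simp [sch]).out
  glue := fun k z hz => by
    have hc : Continuous fun z : ℂ => ‖z - d.c k‖ := by fun_prop
    have h1 : d.ρ k < ‖z - d.c k‖ := (H.ok.geo.ρκ k).trans_eq hz.symm
    have h2 : ‖z - d.c k‖ < ‖d.κ k‖ ^ 2 / d.ρ (d.pr k) := by
      have := H.ok.geo.ρκ (d.pr k)
      rw [H.ok.geo.nκ] at this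
      refine hz.trans_lt ?_
      rw [lt_div_iff₀ (H.ok.ρ0 _), sq]
      exact mul_lt_mul_of_pos_left this (norm_pos_iff.2 (H.ok.geo.κ0 k))
    filter_upwards [(isOpen_lt continuous_const hc).mem_nhds h1,
      (isOpen_lt hc continuous_const).mem_nhds h2] with y h3 h4 using H.glue z₀ k h3 h4
  lim1 := (H.ok.f_tendsto true).congr fun z => by
    simp only [Sch.σ1, sch, Dat.s, aa]
    rw [mul_right_comm, ← exp_add, show I / 2 * z + -(I * z / 2) = 0 by ring]; simp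
  lim2 := (H.ok.f_tendsto false).congr fun z => by
    simp only [Sch.σ2, sch, Dat.s, aa]
    rw [mul_right_comm, ← exp_add, show -(I / 2) * z + I * z / 2 = 0 by ring]; simp
  hol := by
    refine ⟨d.W true false, fun l => (d.β true false l).re, fun z hz =>
      (H.ok.W_deriv _ _ hz).differentiableAt.differentiableWithinAt, ?_, ?_, fun z _ => rfl⟩
    · have := tendsto_finsetSum Finset.univ fun l _ =>
        Ap_zero_tendsto (H.ok.ρ0 l).le (H.ok.G_cont true false l)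
      simpa [W] using this
    · have h := Equiv.sum_comp (Function.Involutive.toPerm d.pr H.ok.geo.prpr)
        fun l => (d.β true false l).re
      simp only [Function.Involutive.coe_toPerm, H.ok.β_pr, neg_re, Finset.sum_neg_distrib] at h
      linarith

end Dat2

end Pool.Agent.MP_c434f6_gt.H30

end

section

/-! The period equations depend holomorphically on the parameters. -/

open Set Filter Topology Metric Complex
open scoped Real ComplexConjugate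

set_option linter.unusedSectionVars false

namespace Pool.Agent.MP_c434f6_gt.H30.Dat2

variable {ι : Type} [Fintype ι] [DecidableEq ι]
  {E : Type*} [NormedAddCommGroup E] [NormedSpace ℂ E] [ProperSpace E] {U : Set E}
  {pr : ι → ι} {c κ : E → ι → ℂ} {r ρ : ι → ℝ} {w0 : ι → ℂ} {ℓ : ι → ι → ℂ}
  {w : Bool → ι → ℝ} {L η₀ : Bool → ℝ}

/-- A holomorphic family of data. -/
structure Fam (U : Set E) (pr : ι → ι) (c κ : E → ι → ℂ) (r ρ : ι → ℝ) (w0 : ι → ℂ)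
    (ℓ : ι → ι → ℂ) (w : Bool → ι → ℝ) (L η₀ : Bool → ℝ) : Prop where
  opn : IsOpen U
  hc : ∀ l, DifferentiableOn ℂ (fun x => c x l) U
  hκ : ∀ l, DifferentiableOn ℂ (fun x => κ x l) U
  geo : ∀ x ∈ U, (Dat2.mk (Dat.mk pr (c x) (κ x) r) ρ w0 ℓ).Geo2
  con : ∀ j, ∀ x ∈ U, (Dat.mk pr (c x) (κ x) r).Con (aa j) (w j) (L j) (η₀ j)

lemma Fam.ok (F : Fam U pr c κ r ρ w0 ℓ w L η₀) {x : E} (hx : x ∈ U) :
    (Dat2.mk (Dat.mk pr (c x) (κ x) r) ρ w0 ℓ).Ok :=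
  ⟨F.geo x hx, fun j => ⟨_, _, _, F.con j x hx⟩⟩

lemma Fam.G_par (F : Fam U pr c κ r ρ w0 ℓ w L η₀) (i j : Bool) {x : E} (hx : x ∈ U) {l : ι}
    {ζ : ℂ} (hζ : ζ ∈ sphere (c x l) (ρ l)) : DifferentiableAt ℂ
      (fun p : E × ℂ => (Dat2.mk (Dat.mk pr (c p.1) (κ p.1) r) ρ w0 ℓ).G i j p.2) (x, ζ) := by
  have hV := (F.ok hx).sphere_V (l := l) hζ
  have h : ∀ j, DifferentiableAt ℂ
      (fun p : E × ℂ => (Dat.mk pr (c p.1) (κ p.1) r).f (aa j) p.2) (x, ζ) := fun j =>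
    (DifferentiableAt.fun_sum fun m _ =>
      Dat.Pinf_par F.opn F.hc F.hκ (F.con j) m hx (hV m)).const_add 1
  exact (h i).fun_mul (h j)

lemma Fam.β_par (F : Fam U pr c κ r ρ w0 ℓ w L η₀) (i j : Bool) (l : ι) :
    DifferentiableOn ℂ (fun x => (Dat2.mk (Dat.mk pr (c x) (κ x) r) ρ w0 ℓ).β i j l) U := by
  intro x hx
  have h0 : 0 ≤ ρ l := ((F.ok hx).ρ0 l).le
  exact (circ_diff (cc := fun x => c x l) (K := fun x ζ => exp (bb i j * ζ) *
    (Dat2.mk (Dat.mk pr (c x) (κ x) r) ρ w0 ℓ).G i j ζ) F.opn h0 (F.hc l) fun y hy ζ hζ =>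
      DifferentiableAt.fun_mul (by fun_prop) (F.G_par i j hy hζ)).const_mul _ x hx

lemma Fam.z_par (F : Fam U pr c κ r ρ w0 ℓ w L η₀) (k : ι) {x : E} (hx : x ∈ U) :
    DifferentiableAt ℂ (fun x => (Dat2.mk (Dat.mk pr (c x) (κ x) r) ρ w0 ℓ).z1 k) x ∧
    DifferentiableAt ℂ (fun x => (Dat2.mk (Dat.mk pr (c x) (κ x) r) ρ w0 ℓ).z2 k) x := by
  have h1 := fun l => (F.hc l).differentiableAt (F.opn.mem_nhds hx)
  have h2 := (F.hκ k).differentiableAt (F.opn.mem_nhds hx)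
  refine ⟨(h1 k).add_const _, (h1 (pr k)).fun_sub ?_⟩
  simp only [div_eq_mul_inv]
  exact (h2.fun_pow 2).mul_const _

lemma Fam.U_par (F : Fam U pr c κ r ρ w0 ℓ w L η₀) {k : ι}
    (N : ∀ x ∈ U, (Dat2.mk (Dat.mk pr (c x) (κ x) r) ρ w0 ℓ).Neck k) (i j : Bool) :
    DifferentiableOn ℂ (fun x => (Dat2.mk (Dat.mk pr (c x) (κ x) r) ρ w0 ℓ).U i j k) U := by
  have hE : Differentiable ℂ (Eb (bb i j)) := fun z => (Eb_deriv _ z).differentiableAt
  refine DifferentiableOn.fun_add (fun x hx => (((hE _).comp x (F.z_par k hx).2).fun_sub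
    ((hE _).comp x (F.z_par k hx).1)).differentiableWithinAt) (.fun_sum fun l _ x hx => ?_)
  have h0 : 0 ≤ ρ l := ((F.ok hx).ρ0 l).le
  refine (circ_diff (cc := fun x => c x l) (K := fun x ζ =>
    (Dat2.mk (Dat.mk pr (c x) (κ x) r) ρ w0 ℓ).G i j ζ *
      (Dat2.mk (Dat.mk pr (c x) (κ x) r) ρ w0 ℓ).Kern (bb i j) k l ζ) F.opn h0 (F.hc l)
    fun y hy ζ hζ => DifferentiableAt.fun_mul (F.G_par i j hy hζ) ?_).const_mul _ x hx
  have fs : ∀ {u : E → ℂ}, DifferentiableAt ℂ u y →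
      DifferentiableAt ℂ (fun p : E × ℂ => u p.1) (y, ζ) := fun h =>
    DifferentiableAt.comp (f := Prod.fst) (y, ζ) h differentiableAt_fst
  have hc := (F.hc l).differentiableAt (F.opn.mem_nhds hy)
  have hζ' : ‖ζ - c y l‖ = ρ l := by simpa [dist_eq_norm] using hζ
  have v1 := (N y hy).v1 (F.ok hy) l
  have v2 := (N y hy).v2 (F.ok hy) l
  obtain ⟨d1, d2⟩ := F.z_par k hy
  have n1 := (F.ok hy).ne ((N y hy).v1 (F.ok hy)) l
  have sl := mem_slitPlane_of_norm_lt_one (((N y hy).sl l).trans_lt (by norm_num))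
  rw [add_sub_cancel] at sl
  unfold Kern Dat2.L
  generalize hz1 : (fun x => (Dat2.mk (Dat.mk pr (c x) (κ x) r) ρ w0 ℓ).z1 k) = z1 at d1
  generalize hz2 : (fun x => (Dat2.mk (Dat.mk pr (c x) (κ x) r) ρ w0 ℓ).z2 k) = z2 at d2
  simp only [congrFun hz1, congrFun hz2] at v1 v2 n1 sl ⊢
  have hL : DifferentiableAt ℂ
      (fun x => ℓ k l + log ((z2 x - c x l) / (z1 x - c x l) * exp (-ℓ k l))) y :=
    (((Dat.div_diffAt (d2.fun_sub hc) (d1.fun_sub hc) n1).mul_const _).clog sl).const_add _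
  exact ((J_diffAt (fs hc) (fs d2) differentiableAt_snd (hζ'.trans_lt v2)).fun_sub
    (J_diffAt (fs hc) (fs d1) differentiableAt_snd (hζ'.trans_lt v1))).fun_add
    (DifferentiableAt.fun_mul (by fun_prop) (fs hL))

theorem Fam.eqn_par (F : Fam U pr c κ r ρ w0 ℓ w L η₀) {k : ι}
    (N : ∀ x ∈ U, (Dat2.mk (Dat.mk pr (c x) (κ x) r) ρ w0 ℓ).Neck k) (m : Fin 6) :
    DifferentiableOn ℂ (fun x => (Dat2.mk (Dat.mk pr (c x) (κ x) r) ρ w0 ℓ).eqn k m) U := by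
  fin_cases m
  · exact (F.β_par _ _ k).const_mul I
  · exact (F.β_par _ _ k).fun_add (F.β_par _ _ k)
  · exact ((F.β_par _ _ k).fun_sub (F.β_par _ _ k)).const_mul I
  · exact F.U_par N _ _
  · exact (F.U_par N _ _).fun_sub (F.U_par N _ _)
  · exact ((F.U_par N _ _).fun_add (F.U_par N _ _)).const_mul I

end Pool.Agent.MP_c434f6_gt.H30.Dat2

end

section

/-! Evaluation of the periods from an approximation of the integrand on a circle. -/

open Set Filter Topology Metric Complex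
open scoped Real ComplexConjugate Nat

set_option linter.unusedSectionVars false

namespace Pool.Agent.MP_c434f6_gt.H30

variable {b c z ζ B : ℂ} {t e M : ℝ} {G G' h y y' : ℂ → ℂ}

lemma norm_J_le' (hb : ‖b‖ ≤ 1) (h0 : 0 < ‖z - c‖) (h : 3 * ‖ζ - c‖ ≤ 2 * ‖z - c‖) :
    ‖J b c z ζ‖ ≤ ‖z - ζ‖ * max ‖exp (b * z)‖ ‖exp (b * ζ)‖ + 4 / 3 * ‖exp (b * ζ)‖ := by
  rw [J, mul_add]
  refine (norm_add_le _ _).trans (add_le_add ?_ ?_)
  · rw [norm_mul, mul_comm]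
    refine (mul_le_mul_of_nonneg_right (norm_Ein_le _) (norm_nonneg _)).trans ?_
    rw [norm_mul, mul_assoc, max_mul_of_nonneg _ _ (norm_nonneg _), one_mul, ← norm_exp,
      ← norm_mul (exp _), ← exp_add, show b * (z - ζ) + b * ζ = b * z by ring, max_comm]
    gcongr
    exact mul_le_of_le_one_left (norm_nonneg _) hb
  · rw [norm_mul, mul_comm]
    gcongr
    have h1 : ‖-((ζ - c) / (z - c))‖ ≤ 2 / 3 := by
      rw [norm_neg, norm_div, div_le_iff₀ h0]; linarith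
    have := norm_log_one_add_le (h1.trans_lt (by norm_num))
    rw [← sub_eq_add_neg] at this
    refine this.trans ?_
    have h3 := norm_nonneg (-((ζ - c) / (z - c)))
    generalize ‖-((ζ - c) / (z - c))‖ = u at h1 h3 ⊢
    have h2 : (1 - u)⁻¹ ≤ 3 := by rw [inv_le_comm₀ (by linarith) (by norm_num)]; linarith
    have h4 : u ^ 2 * (1 - u)⁻¹ ≤ (2 / 3) ^ 2 * 3 := by
      have : 0 ≤ (1 - u)⁻¹ := inv_nonneg.2 (by linarith)
      gcongr
    linarith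

lemma Ein_tail' {w : ℂ} {n : ℕ} (h : 2 * ‖w‖ ≤ n + 1) :
    ‖Ein w - ∑ m ∈ Finset.range n, w ^ (m + 1) / ((m + 1) * (m + 1)! : ℂ)‖ ≤
      2 * ‖w‖ ^ (n + 1) / (n + 1)! := by
  refine (Ein_tail (by linarith)).trans ?_
  rw [mul_div_assoc]
  have : (0 : ℝ) < (n + 1)! := by positivity
  gcongr
  nlinarith [(by positivity : (0 : ℝ) ≤ n)]

lemma Ap_add (ht : 0 ≤ t) (hG : ContinuousOn G (sphere c t)) (hG' : ContinuousOn G' (sphere c t))
    (hz : t < ‖z - c‖) : Ap b c t (fun ζ => G ζ + G' ζ) z = Ap b c t G z + Ap b c t G' z := by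
  unfold Ap
  rw [← mul_add, ← circleIntegral.integral_add ((hG.fun_mul (J_cont hz)).circleIntegrable ht)
    ((hG'.fun_mul (J_cont hz)).circleIntegrable ht)]
  simp only [add_mul]

lemma res_add (ht : 0 ≤ t) (hG : ContinuousOn G (sphere c t)) (hG' : ContinuousOn G' (sphere c t)) :
    res b c t (fun ζ => G ζ + G' ζ) = res b c t G + res b c t G' := by
  have h : ContinuousOn (fun ζ => exp (b * ζ)) (sphere c t) := by fun_prop
  unfold res
  rw [← mul_add, ← circleIntegral.integral_add ((h.fun_mul hG).circleIntegrable ht)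
    ((h.fun_mul hG').circleIntegrable ht)]
  simp only [mul_add]

lemma Ap_mul (B : ℂ) : Ap b c t (fun ζ => B * G ζ) z = B * Ap b c t G z := by
  simp only [Ap, mul_assoc B, circleIntegral.integral_const_mul]; ring

lemma res_mul (B : ℂ) : res b c t (fun ζ => B * G ζ) = B * res b c t G := by
  simp only [res, mul_left_comm _ B, circleIntegral.integral_const_mul]

lemma inv_cont (ht : 0 < t) : ContinuousOn (fun ζ : ℂ => (ζ - c)⁻¹) (sphere c t) :=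
  ContinuousOn.inv₀ (by fun_prop) fun ζ hζ => by
    rw [mem_sphere, dist_eq_norm] at hζ
    rw [← norm_pos_iff, hζ]; exact ht

lemma Ap_sum (ht : 0 < t) (hz : t < ‖z - c‖) (g : ℕ → ℂ) (n : ℕ) :
    Ap b c t (fun ζ => ∑ j ∈ Finset.range n, g j * (ζ - c)⁻¹ ^ (j + 1)) z =
      ∑ j ∈ Finset.range n, g j * Ij b c z j := by
  have ci := inv_cont (c := c) ht
  induction n with
  | zero => simp [Ap, circleIntegral]
  | succ n ih =>
    simp only [Finset.sum_range_succ]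
    rw [Ap_add ht.le (by fun_prop) (by fun_prop) hz, ih, Ap_mul, Ap_pow ht hz]

lemma res_sum (ht : 0 < t) (g : ℕ → ℂ) (n : ℕ) :
    res b c t (fun ζ => ∑ j ∈ Finset.range n, g j * (ζ - c)⁻¹ ^ (j + 1)) =
      ∑ j ∈ Finset.range n, g j * (exp (b * c) * b ^ j / j !) := by
  have ci := inv_cont (c := c) ht
  induction n with
  | zero => simp [res, circleIntegral]
  | succ n ih =>
    simp only [Finset.sum_range_succ]
    rw [res_add ht.le (by fun_prop) (by fun_prop), ih, res_mul, res_pow ht]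

lemma res_exact (ht : 0 ≤ t) (hy : ∀ ζ ∈ sphere c t, HasDerivAt y (y' ζ) ζ) :
    res b c t (fun ζ => b * y ζ + y' ζ) = 0 := by
  rw [res, circleIntegral.integral_eq_zero_of_hasDerivWithinAt ht
    (f := fun ζ => exp (b * ζ) * y ζ) fun ζ hζ => HasDerivAt.hasDerivWithinAt ?_, mul_zero]
  refine (((hasDerivAt_id ζ).const_mul b).cexp.fun_mul (hy ζ hζ)).congr_deriv ?_
  simp only [id]; ring

lemma Ap_exact (ht : 0 < t) (hz : t < ‖z - c‖) (hy : ∀ ζ, t ≤ ‖ζ - c‖ → HasDerivAt y (y' ζ) ζ)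
    (hy' : ContinuousOn y' (sphere c t)) (h0 : Tendsto y (cocompact ℂ) (𝓝 0)) :
    Ap b c t (fun ζ => b * y ζ + y' ζ) z = exp (b * z) * y z := by
  have hs : ∀ ζ ∈ sphere c t, ‖ζ - c‖ = t := fun ζ hζ => by simpa [dist_eq_norm] using hζ
  have c0 : ContinuousOn y (sphere c t) := fun ζ hζ =>
    (hy ζ (hs ζ hζ).ge).continuousAt.continuousWithinAt
  have := circleIntegral.integral_eq_zero_of_hasDerivWithinAt ht.le
    (f := fun ζ => y ζ * J b c z ζ)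
    (f' := fun ζ => (b * y ζ + y' ζ) * J b c z ζ - exp (b * z) * (y ζ / (z - ζ))) fun ζ hζ => by
      refine HasDerivAt.hasDerivWithinAt (((hy ζ (hs ζ hζ).ge).fun_mul
        (J_deriv_ζ ((hs ζ hζ).trans_lt hz))).congr_deriv ?_)
      ring
  rw [circleIntegral.integral_sub
    ((((continuousOn_const.fun_mul c0).fun_add hy').fun_mul (J_cont hz)).circleIntegrable ht.le)
    ((continuousOn_const.fun_mul (c0.div₀ (by fun_prop) fun _ hζ =>
      sub_ne_of_sphere hζ hz.ne')).circleIntegrable ht.le),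
    circleIntegral.integral_const_mul, sub_eq_zero] at this
  rw [Ap, this, ← PP_self ht hz (fun ζ hζ => (hy ζ hζ).differentiableAt) h0, PP]
  ring

namespace Dat2

variable {ι : Type} [Fintype ι] [DecidableEq ι] {d : Dat2 ι} {i j : Bool} {k l : ι}

/-- Replace the integrand by an approximation `G'`. -/
theorem Ok.β_approx (O : d.Ok) (hG' : ContinuousOn G' (sphere (d.c l) (d.ρ l)))
    (he : ∀ ζ ∈ sphere (d.c l) (d.ρ l), ‖d.G i j ζ - G' ζ‖ ≤ e)
    (hM : ∀ ζ ∈ sphere (d.c l) (d.ρ l), ‖exp (bb i j * ζ)‖ ≤ M) :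
    ‖d.β i j l - res (bb i j) (d.c l) (d.ρ l) G'‖ ≤ d.ρ l * e * M := by
  rw [β, ← res_sub (O.ρ0 l).le (O.G_cont i j l) hG', mul_assoc, mul_comm e]
  exact norm_res_le (O.ρ0 l).le fun ζ hζ =>
    mul_le_mul (hM ζ hζ) (he ζ hζ) (norm_nonneg _) ((norm_nonneg _).trans (hM ζ hζ))

theorem Neck.Ul_approx (O : d.Ok) (N : d.Neck k) (hG' : ContinuousOn G' (sphere (d.c l) (d.ρ l)))
    (he : ∀ ζ ∈ sphere (d.c l) (d.ρ l), ‖d.G i j ζ - G' ζ‖ ≤ e)
    (hM : ∀ ζ ∈ sphere (d.c l) (d.ρ l), ‖d.Kern (bb i j) k l ζ‖ ≤ M) :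
    ‖d.Ul i j k l - (Ap (bb i j) (d.c l) (d.ρ l) G' (d.z2 k) -
      Ap (bb i j) (d.c l) (d.ρ l) G' (d.z1 k) + res (bb i j) (d.c l) (d.ρ l) G' * d.L k l)‖ ≤
      d.ρ l * e * M := by
  have hG := O.G_cont i j l
  have h0 := (O.ρ0 l).le
  have hD := hG.fun_sub hG'
  have i1 := (hD.fun_mul (J_cont (b := bb i j) (N.v1 O l))).circleIntegrable h0
  have i2 := (hD.fun_mul (J_cont (b := bb i j) (N.v2 O l))).circleIntegrable h0
  have i3 : CircleIntegrable (fun ζ => d.L k l * (exp (bb i j * ζ) * (d.G i j ζ - G' ζ))) (d.c l)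
      (d.ρ l) :=
    (continuousOn_const.fun_mul (ContinuousOn.fun_mul (by fun_prop) hD)).circleIntegrable h0
  have e1 : (fun ζ => (d.G i j ζ - G' ζ) * d.Kern (bb i j) k l ζ) = fun ζ =>
      ((d.G i j ζ - G' ζ) * J (bb i j) (d.c l) (d.z2 k) ζ -
        (d.G i j ζ - G' ζ) * J (bb i j) (d.c l) (d.z1 k) ζ) +
        d.L k l * (exp (bb i j * ζ) * (d.G i j ζ - G' ζ)) := by
    ext; simp only [Kern]; ring
  have e2 : ‖(2 * π * I : ℂ)⁻¹ * ∮ ζ in C(d.c l, d.ρ l), (d.G i j ζ - G' ζ) *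
      d.Kern (bb i j) k l ζ‖ ≤ d.ρ l * (e * M) := norm_circ_le h0 fun ζ hζ => by
      rw [norm_mul]
      exact mul_le_mul (he ζ hζ) (hM ζ hζ) (norm_nonneg _) ((norm_nonneg _).trans (he ζ hζ))
  rw [e1, circleIntegral.integral_add (i2.fun_sub i1) i3, circleIntegral.integral_sub i2 i1,
    circleIntegral.integral_const_mul, ← mul_assoc (d.ρ l)] at e2
  refine le_of_eq_of_le (congrArg _ ?_) e2
  have a1 := Ap_sub (b := bb i j) h0 hG hG' (N.v1 O l)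
  have a2 := Ap_sub (b := bb i j) h0 hG hG' (N.v2 O l)
  have a3 := res_sub (b := bb i j) h0 hG hG'
  rw [N.Ul_eq O, β]
  simp only [Ap, res] at a1 a2 a3 ⊢
  linear_combination a1 - a2 - d.L k l * a3

/-- Laurent form: `G ≈ h + ∑ g_m (ζ - c)^-(m+1)`. -/
theorem Ok.β_laurent (O : d.Ok) (hh : DiffContOnCl ℂ h (ball (d.c l) (d.ρ l))) (g : ℕ → ℂ) (n : ℕ)
    (he : ∀ ζ ∈ sphere (d.c l) (d.ρ l),
      ‖d.G i j ζ - (h ζ + ∑ m ∈ Finset.range n, g m * (ζ - d.c l)⁻¹ ^ (m + 1))‖ ≤ e)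
    (hM : ∀ ζ ∈ sphere (d.c l) (d.ρ l), ‖exp (bb i j * ζ)‖ ≤ M) :
    ‖d.β i j l - ∑ m ∈ Finset.range n, g m * (exp (bb i j * d.c l) * bb i j ^ m / m !)‖ ≤
      d.ρ l * e * M := by
  have ci := inv_cont (c := d.c l) (O.ρ0 l)
  have ch := hh.continuousOn_ball.mono sphere_subset_closedBall
  have := O.β_approx (by fun_prop) he hM
  rwa [res_add (O.ρ0 l).le ch (by fun_prop), res_hol (O.ρ0 l).le hh, zero_add,
    res_sum (O.ρ0 l)] at this

theorem Neck.Ul_laurent (O : d.Ok) (N : d.Neck k) (hh : DiffContOnCl ℂ h (ball (d.c l) (d.ρ l)))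
    (g : ℕ → ℂ) (n : ℕ) (he : ∀ ζ ∈ sphere (d.c l) (d.ρ l),
      ‖d.G i j ζ - (h ζ + ∑ m ∈ Finset.range n, g m * (ζ - d.c l)⁻¹ ^ (m + 1))‖ ≤ e)
    (hM : ∀ ζ ∈ sphere (d.c l) (d.ρ l), ‖d.Kern (bb i j) k l ζ‖ ≤ M) :
    ‖d.Ul i j k l - ∑ m ∈ Finset.range n, g m * (Ij (bb i j) (d.c l) (d.z2 k) m -
      Ij (bb i j) (d.c l) (d.z1 k) m + exp (bb i j * d.c l) * bb i j ^ m / m ! * d.L k l)‖ ≤
      d.ρ l * e * M := by
  have ci := inv_cont (c := d.c l) (O.ρ0 l)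
  have ch := hh.continuousOn_ball.mono sphere_subset_closedBall
  have h0 := (O.ρ0 l).le
  have := N.Ul_approx O (by fun_prop) he hM
  rw [res_add h0 ch (by fun_prop), res_hol h0 hh, zero_add, res_sum (O.ρ0 l),
    Ap_add h0 ch (by fun_prop) (N.v1 O l), Ap_add h0 ch (by fun_prop) (N.v2 O l),
    Ap_hol h0 hh (N.v1 O l), Ap_hol h0 hh (N.v2 O l), zero_add, zero_add,
    Ap_sum (O.ρ0 l) (N.v1 O l), Ap_sum (O.ρ0 l) (N.v2 O l)] at this
  simpa only [mul_add, mul_sub, Finset.sum_add_distrib, Finset.sum_sub_distrib, Finset.sum_mul,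
    mul_assoc] using this

end Dat2

section witness

variable {Y : ℂ → ℂ}

lemma wit_deriv (hY : Differentiable ℂ Y) (h0 : ζ - c ≠ 0) :
    HasDerivAt (fun ζ => t * Y (t / (ζ - c))) (-((t / (ζ - c)) ^ 2 * deriv Y (t / (ζ - c)))) ζ := by
  refine (((hY _).hasDerivAt.comp ζ ((hasDerivAt_const ζ (t : ℂ)).fun_div
    ((hasDerivAt_id ζ).sub_const c) h0)).const_mul (t : ℂ)).congr_deriv ?_
  simp only [id]
  field_simp
  ring

/-- the approximation in witness form -/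
noncomputable def wit (b c : ℂ) (t : ℝ) (h Y : ℂ → ℂ) (B ζ : ℂ) : ℂ :=
  h ((ζ - c) / t) + (b * (t * Y (t / (ζ - c))) + -((t / (ζ - c)) ^ 2 * deriv Y (t / (ζ - c))))
    + t * B * (ζ - c)⁻¹ ^ (0 + 1)

lemma wit_aux (ht : 0 < t) (hY : Differentiable ℂ Y) :
    ContinuousOn (fun ζ => t * Y (t / (ζ - c))) (sphere c t) ∧
    ContinuousOn (fun ζ => -((t / (ζ - c)) ^ 2 * deriv Y (t / (ζ - c)))) (sphere c t) := by
  have ci := inv_cont (c := c) ht
  have h1 := hY.continuous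
  have h2 := hY.deriv.continuous
  simp only [div_eq_mul_inv]
  exact ⟨by fun_prop, by fun_prop⟩

lemma wit_cont (ht : 0 < t) (hh : Differentiable ℂ h) (hY : Differentiable ℂ Y) :
    ContinuousOn (wit b c t h Y B) (sphere c t) := by
  have ci := inv_cont (c := c) ht
  have h1 := hh.continuous
  obtain ⟨h2, h3⟩ := wit_aux (c := c) ht hY
  exact (ContinuousOn.fun_add (by fun_prop) ((continuousOn_const.fun_mul h2).fun_add h3)).fun_add
    (by fun_prop)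

lemma res_wit (ht : 0 < t) (hh : Differentiable ℂ h) (hY : Differentiable ℂ Y) :
    res b c t (wit b c t h Y B) = t * B * exp (b * c) := by
  have ci := inv_cont (c := c) ht
  have h1 := hh.continuous
  obtain ⟨h2, h3⟩ := wit_aux (c := c) ht hY
  have h4 := (continuousOn_const (c := b).fun_mul h2).fun_add h3
  unfold wit
  rw [res_add ht.le (ContinuousOn.fun_add (by fun_prop) h4) (by fun_prop),
    res_add ht.le (by fun_prop) h4, res_hol ht.le (Differentiable.diffContOnCl (by fun_prop)),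
    res_exact ht.le fun ζ hζ => wit_deriv hY ?_, res_mul, res_pow ht]
  · simp
  · rw [mem_sphere, dist_eq_norm] at hζ
    rw [← norm_pos_iff, hζ]; exact ht

lemma Ap_wit (ht : 0 < t) (hz : t < ‖z - c‖) (hh : Differentiable ℂ h) (hY : Differentiable ℂ Y)
    (hY0 : Y 0 = 0) : Ap b c t (wit b c t h Y B) z =
      exp (b * z) * (t * Y (t / (z - c))) + t * B * (exp (b * c) * Ein (b * (z - c))) := by
  have ci := inv_cont (c := c) ht
  have h1 := hh.continuous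
  obtain ⟨h2, h3⟩ := wit_aux (c := c) ht hY
  have h4 := (continuousOn_const (c := b).fun_mul h2).fun_add h3
  unfold wit
  rw [Ap_add ht.le (ContinuousOn.fun_add (by fun_prop) h4) (by fun_prop) hz,
    Ap_add ht.le (by fun_prop) h4 hz, Ap_hol ht.le (Differentiable.diffContOnCl (by fun_prop)) hz,
    Ap_exact ht hz (fun ζ hζ => wit_deriv hY (norm_pos_iff.1 (ht.trans_le hζ))) h3 ?_, Ap_mul,
    Ap_pow ht hz, zero_add, Ij]
  have := ((hY.continuous.tendsto' _ _ (by rw [mul_zero, hY0])).comp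
    ((tendsto_inv_sub c).const_mul (t : ℂ))).const_mul (t : ℂ)
  rw [mul_zero] at this
  exact this

lemma wit_bound (ht : 0 < t) (he : ∀ u : ℂ, ‖u‖ = 1 →
    ‖G (c + t * u) - h u - (b * t * Y (1 / u) - (u ^ 2)⁻¹ * deriv Y (1 / u)) - B / u‖ ≤ e) :
    ∀ ζ ∈ sphere c t, ‖G ζ - wit b c t h Y B ζ‖ ≤ e := by
  intro ζ hζ
  rw [mem_sphere, dist_eq_norm] at hζ
  have ht' : (t : ℂ) ≠ 0 := by exact_mod_cast ht.ne'
  have h0 : ζ - c ≠ 0 := by rw [← norm_pos_iff, hζ]; exact ht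
  have := he ((ζ - c) / t) (by rw [norm_div, hζ]; simp [abs_of_pos ht, ht.ne'])
  rw [mul_div_cancel₀ _ ht', add_sub_cancel, one_div_div] at this
  refine le_of_eq_of_le (congrArg _ ?_) this
  rw [wit, zero_add, pow_one, ← inv_pow, inv_div, div_div_eq_mul_div, div_eq_mul_inv (B * t)]
  ring

namespace Dat2

variable {ι : Type} [Fintype ι] [DecidableEq ι] {d : Dat2 ι} {i j : Bool} {k l : ι}

theorem Ok.β_wit (O : d.Ok) (hh : Differentiable ℂ h) (hY : Differentiable ℂ Y)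
    (he : ∀ u : ℂ, ‖u‖ = 1 → ‖d.G i j (d.c l + d.ρ l * u) - h u -
      (bb i j * d.ρ l * Y (1 / u) - (u ^ 2)⁻¹ * deriv Y (1 / u)) - B / u‖ ≤ e)
    (hM : ∀ ζ ∈ sphere (d.c l) (d.ρ l), ‖exp (bb i j * ζ)‖ ≤ M) :
    ‖d.β i j l - d.ρ l * B * exp (bb i j * d.c l)‖ ≤ d.ρ l * e * M := by
  have := O.β_approx (wit_cont (O.ρ0 l) hh hY) (wit_bound (O.ρ0 l) he) hM
  rwa [res_wit (O.ρ0 l) hh hY] at this

theorem Neck.Ul_wit (O : d.Ok) (N : d.Neck k) (hh : Differentiable ℂ h) (hY : Differentiable ℂ Y)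
    (hY0 : Y 0 = 0) (he : ∀ u : ℂ, ‖u‖ = 1 → ‖d.G i j (d.c l + d.ρ l * u) - h u -
      (bb i j * d.ρ l * Y (1 / u) - (u ^ 2)⁻¹ * deriv Y (1 / u)) - B / u‖ ≤ e)
    (hM : ∀ ζ ∈ sphere (d.c l) (d.ρ l), ‖d.Kern (bb i j) k l ζ‖ ≤ M) :
    ‖d.Ul i j k l - (exp (bb i j * d.z2 k) * (d.ρ l * Y (d.ρ l / (d.z2 k - d.c l)))
      - exp (bb i j * d.z1 k) * (d.ρ l * Y (d.ρ l / (d.z1 k - d.c l)))
      + d.ρ l * B * exp (bb i j * d.c l) * (Ein (bb i j * (d.z2 k - d.c l))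
        - Ein (bb i j * (d.z1 k - d.c l)) + d.L k l))‖ ≤ d.ρ l * e * M := by
  have := N.Ul_approx O (wit_cont (O.ρ0 l) hh hY) (wit_bound (O.ρ0 l) he) hM
  rw [res_wit (O.ρ0 l) hh hY, Ap_wit (O.ρ0 l) (N.v1 O l) hh hY hY0,
    Ap_wit (O.ρ0 l) (N.v2 O l) hh hY hY0] at this
  exact le_of_eq_of_le (congrArg _ (by ring)) this

end Dat2

end witness

end Pool.Agent.MP_c434f6_gt.H30

end

section

/-! Reduction of the checks by the symmetry, and the oracle for `f`. -/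

open Set Filter Topology Metric Complex
open scoped Real ComplexConjugate

set_option linter.unusedSectionVars false

namespace Pool.Agent.MP_c434f6_gt.H30

lemma mem_sphere_conj {c ζ : ℂ} {t : ℝ} (h : ζ ∈ sphere (-conj c) t) : -conj ζ ∈ sphere c t := by
  rw [mem_sphere, dist_eq_norm] at h ⊢
  rw [show -conj ζ - c = -conj (ζ - -conj c) by simp; ring, norm_neg, norm_conj, h]

lemma diffContOnCl_conj {c : ℂ} {t : ℝ} {h : ℂ → ℂ} (ht : 0 < t) (hh : DiffContOnCl ℂ h (ball c t)) :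
    DiffContOnCl ℂ (fun ζ => conj (h (-conj ζ))) (ball (-conj c) t) := by
  have e : ∀ ζ : ℂ, ‖-conj ζ - c‖ = ‖ζ - -conj c‖ := fun ζ => by
    rw [show -conj ζ - c = -conj (ζ - -conj c) by simp; ring, norm_neg, norm_conj]
  constructor
  · intro ζ hζ
    have h1 : -conj ζ ∈ ball c t := by rw [mem_ball, dist_eq_norm] at hζ ⊢; rwa [e]
    have h2 : DifferentiableAt ℂ (fun y => h (-y)) (conj ζ) :=
      (hh.differentiableAt isOpen_ball h1).comp (conj ζ) differentiableAt_id.neg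
    have h3 := h2.conj_conj
    rw [conj_conj] at h3
    exact h3.differentiableWithinAt
  · rw [closure_ball _ ht.ne']
    refine continuous_conj.comp_continuousOn (hh.continuousOn_ball.comp (by fun_prop) fun ζ hζ => ?_)
    rw [mem_closedBall, dist_eq_norm] at hζ ⊢; rwa [e]

namespace Dat

variable {ι : Type} [Fintype ι] [DecidableEq ι] {D : Dat ι} {a : ℂ} {w : ι → ℝ} {L η₀ ε : ℝ}
  {Q : ι → ℂ → ℂ} {τ : ι ≃ ι}

/-- The residual has to be checked only on one disc of each symmetric pair. -/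
theorem Con.apost_sym (C : D.Con a w L η₀) (S : D.Sym τ) (ha : conj a = -a) (hε : 0 ≤ ε)
    (hw : ∀ l, w (τ l) = w l) (hs : ∀ m z, Q (τ m) (-conj z) = conj (Q m z))
    (hQ : ∀ l z, D.r l ≤ ‖z - D.c l‖ → DifferentiableAt ℂ (Q l) z)
    (hQ0 : ∀ l, Tendsto (Q l) (cocompact ℂ) (𝓝 0)) {N : Set ι}
    (hN : ∀ l, ∃ k ∈ N, l = k ∨ l = τ k)
    (hres : ∀ l ∈ N, ∃ h, DiffContOnCl ℂ h (ball (D.c l) (D.r l)) ∧
      ∀ ζ ∈ sphere (D.c l) (D.r l), ‖Q l ζ + h ζ - D.T a Q l ζ‖ ≤ ε * w l) :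
    D.Bd w Q (D.Pinf a) (ε / (1 - L)) := by
  have key : ∀ l, ∃ h, DiffContOnCl ℂ h (ball (D.c l) (D.r l)) ∧
      ∀ ζ ∈ sphere (D.c l) (D.r l), ‖Q l ζ + h ζ - D.T a Q l ζ‖ ≤ ε * w l := by
    intro l
    obtain ⟨k, hk, rfl | rfl⟩ := hN l
    · exact hres _ hk
    obtain ⟨h, h1, h2⟩ := hres k hk
    rw [S.c, S.r, hw]
    refine ⟨_, diffContOnCl_conj (C.r0 k) h1, fun ζ hζ => ?_⟩
    have h3 := h2 _ (mem_sphere_conj hζ)
    have h4 := hs k (-conj ζ)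
    have h5 := S.T ha hs k (-conj ζ)
    simp only [map_neg, conj_conj, neg_neg] at h4 h5
    rw [h4, h5, ← map_add, ← map_sub, norm_conj]
    exact h3
  choose h h1 h2 using key
  exact C.apost_circle hε hQ hQ0 h1 h2

/-- The oracle for `f`. -/
theorem Bd.f_approx (h : D.Bd w Q (D.Pinf a) ε) {z : ℂ} (hz : z ∈ D.V) :
    ‖D.f a z - (1 + ∑ l, Q l z)‖ ≤ ε * ∑ l, w l * D.r l / (‖z - D.c l‖ - D.r l) := by
  rw [f, add_sub_add_left_eq_sub, ← Finset.sum_sub_distrib, Finset.mul_sum]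
  exact norm_sum_le_of_le _ fun l _ => h.symm l z (hz l)

end Dat

namespace Dat2

variable {ι : Type} [Fintype ι] [DecidableEq ι] {d : Dat2 ι} {τ : ι ≃ ι} {i j : Bool} {l : ι}

/-- An approximation of `G` on the circle `l` gives one on the circle `τ l`. -/
theorem Ok.G_approx_sym (O : d.Ok) (S : d.Sym2 τ) {G' : ℂ → ℂ} {e : ℝ}
    (he : ∀ ζ ∈ sphere (d.c l) (d.ρ l), ‖d.G i j ζ - G' ζ‖ ≤ e) :
    ∀ ζ ∈ sphere (d.c (τ l)) (d.ρ (τ l)), ‖d.G i j ζ - conj (G' (-conj ζ))‖ ≤ e := by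
  intro ζ hζ
  rw [S.c, S.ρ] at hζ
  rw [O.G_eqOn S i j l hζ, ← map_sub, norm_conj]
  exact he _ (mem_sphere_conj hζ)

theorem Ok.G_laurent_sym (O : d.Ok) (S : d.Sym2 τ) {h : ℂ → ℂ} {e : ℝ} (g : ℕ → ℂ) (n : ℕ)
    (he : ∀ ζ ∈ sphere (d.c l) (d.ρ l),
      ‖d.G i j ζ - (h ζ + ∑ m ∈ Finset.range n, g m * (ζ - d.c l)⁻¹ ^ (m + 1))‖ ≤ e) :
    ∀ ζ ∈ sphere (d.c (τ l)) (d.ρ (τ l)), ‖d.G i j ζ - (conj (h (-conj ζ)) +
      ∑ m ∈ Finset.range n, ((-1) ^ (m + 1) * conj (g m)) * (ζ - d.c (τ l))⁻¹ ^ (m + 1))‖ ≤ e := by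
  intro ζ hζ
  have := O.G_approx_sym S he ζ hζ
  refine le_of_eq_of_le (congrArg (fun x => ‖d.G i j ζ - x‖) ?_) this
  simp only [map_add, map_sum, map_mul, map_pow, map_inv₀, map_sub, map_neg, conj_conj, S.c]
  congr 1
  refine Finset.sum_congr rfl fun m _ => ?_
  rw [show -ζ - conj (d.c l) = -(ζ - -conj (d.c l)) by ring, inv_neg, neg_pow (ζ - _)⁻¹]
  ring

/-- A bound for the kernel on the circle. -/
theorem Neck.norm_Kern_le (O : d.Ok) {k : ι} (N : d.Neck k) {b ζ : ℂ} (hb : ‖b‖ ≤ 1)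
    (hζ : ζ ∈ sphere (d.c l) (d.ρ l)) {M D Λ : ℝ} (h0 : ‖exp (b * ζ)‖ ≤ M)
    (h1 : ‖exp (b * d.z1 k)‖ ≤ M) (h2 : ‖exp (b * d.z2 k)‖ ≤ M) (h3 : ‖d.z1 k - ζ‖ ≤ D)
    (h4 : ‖d.z2 k - ζ‖ ≤ D) (h5 : ‖d.L k l‖ ≤ Λ) :
    ‖d.Kern b k l ζ‖ ≤ M * (2 * D + 8 / 3 + Λ) := by
  rw [mem_sphere, dist_eq_norm] at hζ
  have hM := (norm_nonneg _).trans h0
  have hD := (norm_nonneg _).trans h3
  have j1 := norm_J_le' (z := d.z1 k) (ζ := ζ) hb ((O.ρ0 l).trans (N.v1 O l)) (hζ ▸ N.n1 l)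
  have j2 := norm_J_le' (z := d.z2 k) (ζ := ζ) hb ((O.ρ0 l).trans (N.v2 O l)) (hζ ▸ N.n2 l)
  have m1 : ‖d.z1 k - ζ‖ * max ‖exp (b * d.z1 k)‖ ‖exp (b * ζ)‖ ≤ D * M :=
    mul_le_mul h3 (max_le h1 h0) (le_max_of_le_left (norm_nonneg _)) hD
  have m2 : ‖d.z2 k - ζ‖ * max ‖exp (b * d.z2 k)‖ ‖exp (b * ζ)‖ ≤ D * M :=
    mul_le_mul h4 (max_le h2 h0) (le_max_of_le_left (norm_nonneg _)) hD
  have m3 : ‖exp (b * ζ) * d.L k l‖ ≤ M * Λ := by
    rw [norm_mul]; exact mul_le_mul h0 h5 (norm_nonneg _) hM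
  refine (norm_add_le_of_le (norm_sub_le _ _) m3).trans ?_
  linarith

end Dat2

end Pool.Agent.MP_c434f6_gt.H30

end
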