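import Pool.Agent.MP_97ada9_an.Pack

section

/-! Integer polynomials packed in one signed number, in base `2 ^ 320`. -/

open Finset

set_option exponentiation.threshold 400

namespace Pool.Agent.MP_c434f6_gt.H16

open Pool.Agent.MP_97ada9_an

/-- sign (`true` is `+`) and magnitude -/
structure SM where
  s : Bool
  m : ℕ

namespace SM

def val (a : SM) : ℤ := bif a.s then (a.m : ℤ) else -(a.m : ℤ)
def neg (a : SM) : SM := ⟨Bool.rec true false a.s, a.m⟩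
def mul (a b : SM) : SM := ⟨Bool.rec (Bool.rec true false b.s) b.s a.s, Nat.mul a.m b.m⟩
def dif (p n : ℕ) : SM := Bool.rec ⟨false, Nat.sub n p⟩ ⟨true, Nat.sub p n⟩ (Nat.ble n p)
def add (a b : SM) : SM :=
  Bool.rec (Bool.rec ⟨false, Nat.add a.m b.m⟩ (dif b.m a.m) b.s)
    (Bool.rec (dif a.m b.m) ⟨true, Nat.add a.m b.m⟩ b.s) a.s
def shl (a : SM) (k : ℕ) : SM := ⟨a.s, Nat.shiftLeft a.m (Nat.mul 320 k)⟩
def off (H : ℕ) (a : SM) : ℕ := Bool.rec (Nat.sub H a.m) (Nat.add H a.m) a.s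

theorem val_neg (a : SM) : a.neg.val = -a.val := by
  obtain ⟨s, m⟩ := a; cases s <;> simp [val, neg]

theorem val_mul (a b : SM) : (a.mul b).val = a.val * b.val := by
  obtain ⟨s, m⟩ := a; obtain ⟨s', m'⟩ := b; cases s <;> cases s' <;> simp [val, mul]

theorem val_dif (p n : ℕ) : (dif p n).val = p - n := by
  unfold dif
  cases h : Nat.ble n p
  · have : ¬ n ≤ p := by rw [← Nat.ble_eq, h]; simp
    simp only [val, cond_false, Nat.sub_eq]; omega
  · have : n ≤ p := Nat.le_of_ble_eq_true h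
    simp only [val, cond_true, Nat.sub_eq]; omega

theorem val_add (a b : SM) : (a.add b).val = a.val + b.val := by
  obtain ⟨s, m⟩ := a; obtain ⟨s', m'⟩ := b
  cases s <;> cases s' <;> simp only [add, val_dif] <;> simp [val] <;> ring

theorem val_shl (a : SM) (k : ℕ) : (a.shl k).val = a.val * (2 ^ 320) ^ k := by
  obtain ⟨s, m⟩ := a
  have : Nat.shiftLeft m (Nat.mul 320 k) = m * (2 ^ 320) ^ k := by
    rw [← pow_mul]; exact Nat.shiftLeft_eq m _
  cases s <;> simp only [val, shl, this] <;> simp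

theorem off_eq (H : ℕ) (a : SM) (h : 0 ≤ (H : ℤ) + a.val) : (off H a : ℤ) = H + a.val := by
  obtain ⟨s, m⟩ := a
  cases s <;> simp only [val, off, cond_false, cond_true, Nat.sub_eq, Nat.add_eq] at h ⊢ <;> omega

theorem abs_val (a : SM) : |a.val| = a.m := by
  obtain ⟨s, m⟩ := a; cases s <;> simp [val]

end SM

/-- `Z` packs the coefficients of the polynomial `φ` of length `L` and `l¹` norm at most `ν` -/
def Pk (L : ℕ) (Z : ℤ) (ν : ℕ) (φ : ℂ → ℂ) : Prop :=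
  ∃ c : ℕ → ℤ, Z = ∑ n ∈ range L, c n * (2 ^ 320) ^ n ∧ ∑ n ∈ range L, |c n| ≤ ν ∧
    ∀ t, φ t = ∑ n ∈ range L, (c n : ℂ) * t ^ n

namespace Pk

variable {L L' ν ν' : ℕ} {Z Z' : ℤ} {φ φ' : ℂ → ℂ}

theorem zero (L : ℕ) : Pk L 0 0 fun _ => 0 := ⟨fun _ => 0, by simp, by simp, by simp⟩

theorem one (a : SM) : Pk 1 a.val a.m fun _ => a.val :=
  ⟨fun _ => a.val, by simp, by simp [a.abs_val], by simp⟩

theorem congr (h : Pk L Z ν φ) (e : ∀ t, φ' t = φ t) : Pk L Z ν φ' := by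
  obtain ⟨c, h1, h2, h3⟩ := h
  exact ⟨c, h1, h2, fun t => (e t).trans (h3 t)⟩

theorem sum_ext {M : Type*} [AddCommMonoid M] (h : L ≤ L') (g : ℕ → M) :
    ∑ n ∈ range L', (if n < L then g n else 0) = ∑ n ∈ range L, g n := by
  rw [← sum_filter]
  congr 1
  ext n; simp only [mem_filter, mem_range]; omega

theorem mono (h : Pk L Z ν φ) (hL : L ≤ L') (hν : ν ≤ ν') : Pk L' Z ν' φ := by
  obtain ⟨c, h1, h2, h3⟩ := h
  refine ⟨fun n => if n < L then c n else 0, ?_, ?_, fun t => ?_⟩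
  · rw [h1, ← sum_ext hL]; exact sum_congr rfl fun n _ => by by_cases h : n < L <;> simp [h]
  · refine le_trans (le_of_eq ?_) (h2.trans (by exact_mod_cast hν))
    rw [← sum_ext hL]; exact sum_congr rfl fun n _ => by by_cases h : n < L <;> simp [h]
  · rw [h3, ← sum_ext hL]; exact sum_congr rfl fun n _ => by by_cases h : n < L <;> simp [h]

theorem neg (h : Pk L Z ν φ) : Pk L (-Z) ν fun t => -φ t := by
  obtain ⟨c, h1, h2, h3⟩ := h
  exact ⟨fun n => -c n, by simp [h1], by simpa using h2, fun t => by simp [h3]⟩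

theorem add (h : Pk L Z ν φ) (h' : Pk L Z' ν' φ') : Pk L (Z + Z') (ν + ν') fun t => φ t + φ' t := by
  obtain ⟨c, h1, h2, h3⟩ := h
  obtain ⟨d, g1, g2, g3⟩ := h'
  refine ⟨fun n => c n + d n, by simp [h1, g1, add_mul, sum_add_distrib], ?_,
    fun t => by simp [h3, g3, add_mul, sum_add_distrib]⟩
  push_cast
  refine le_trans (sum_le_sum fun n _ => abs_add_le _ _) ?_
  rw [sum_add_distrib]; linarith

theorem conv {R : Type*} [CommRing R] (c d : ℕ → R) (x : R) (L L' : ℕ) :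
    ∑ n ∈ range (L + L' - 1), (∑ i ∈ range L, ∑ j ∈ range L', if i + j = n then c i * d j else 0)
      * x ^ n = (∑ i ∈ range L, c i * x ^ i) * ∑ j ∈ range L', d j * x ^ j := by
  simp only [sum_mul, mul_sum]
  rw [sum_comm]
  conv_rhs => rw [sum_comm]
  refine sum_congr rfl fun i hi => ?_
  rw [sum_comm]
  refine sum_congr rfl fun j hj => ?_
  simp only [ite_mul, zero_mul, sum_ite_eq]
  rw [if_pos (by simp only [mem_range] at *; omega)]
  ring

theorem mul (h : Pk L Z ν φ) (h' : Pk L' Z' ν' φ') :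
    Pk (L + L' - 1) (Z * Z') (ν * ν') fun t => φ t * φ' t := by
  obtain ⟨c, h1, h2, h3⟩ := h
  obtain ⟨d, g1, g2, g3⟩ := h'
  refine ⟨fun n => ∑ i ∈ range L, ∑ j ∈ range L', if i + j = n then c i * d j else 0,
    by rw [conv, h1, g1], ?_, fun t => ?_⟩
  · have := conv (fun i => |c i|) (fun j => |d j|) 1 L L'
    simp only [one_pow, mul_one] at this
    push_cast
    refine le_trans (sum_le_sum fun n _ => ?_) (this.le.trans
      (mul_le_mul h2 g2 (sum_nonneg fun _ _ => abs_nonneg _) (by positivity)))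
    refine (abs_sum_le_sum_abs _ _).trans (sum_le_sum fun i _ => (abs_sum_le_sum_abs _ _).trans
      (sum_le_sum fun j _ => ?_))
    split_ifs <;> simp [abs_mul]
  · beta_reduce
    rw [h3, g3, ← conv]
    push_cast [apply_ite (Int.cast : ℤ → ℂ)]
    rfl

theorem shl (h : Pk L Z ν φ) (k : ℕ) : Pk (L + k) (Z * (2 ^ 320) ^ k) ν fun t => φ t * t ^ k := by
  have h0 : Pk (k + 1) ((2 ^ 320) ^ k) 1 fun t => t ^ k :=
    ⟨fun n => if n = k then 1 else 0, by simp, by simp [apply_ite], fun t => by simp [apply_ite]⟩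
  simpa using h.mul h0

theorem norm_le (h : Pk L Z ν φ) {t : ℂ} (ht : ‖t‖ ≤ 1) : ‖φ t‖ ≤ ν := by
  obtain ⟨c, -, h2, h3⟩ := h
  rw [h3]
  refine (norm_sum_le _ _).trans (le_trans (sum_le_sum fun n _ => ?_)
    (show ∑ n ∈ range L, ((|c n| : ℤ) : ℝ) ≤ ν by exact_mod_cast h2))
  rw [norm_mul, norm_pow, Complex.norm_intCast, Int.cast_abs]
  exact mul_le_of_le_one_right (abs_nonneg _) (pow_le_one₀ (norm_nonneg _) ht)

theorem diff (h : Pk L Z ν φ) : Differentiable ℂ φ := by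
  obtain ⟨c, -, -, h3⟩ := h
  rw [show φ = _ from funext h3]
  fun_prop

end Pk

theorem dg_xor (K X Y n : ℕ) : dg K (Nat.xor X Y) n = dg K X n ^^^ dg K Y n := by
  unfold dg
  rw [Nat.xor_eq, ← pow_mul, Nat.xor_div_two_pow, Nat.xor_mod_two_pow]

theorem xor1 {u k : ℕ} (h : u < 2 ^ k) : u ^^^ (2 ^ k - 1) = 2 ^ k - (u + 1) := by
  refine Nat.eq_of_testBit_eq fun i => ?_
  rw [Nat.testBit_xor, Nat.testBit_two_pow_sub_one, Nat.testBit_two_pow_sub_succ h]
  by_cases hi : i < k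
  · simp [hi]
  · have : u.testBit i = false :=
      Nat.testBit_lt_two_pow (h.trans_le (Nat.pow_le_pow_right two_pos (not_lt.1 hi)))
    simp [hi, this]

theorem xor2 {v k : ℕ} (h : v < 2 ^ k) : (2 ^ k + v) ^^^ 2 ^ k = v := by
  have h1 : 2 ^ k + v = 2 ^ k ||| v := by
    simpa using Nat.two_pow_add_eq_or_of_lt h 1
  refine Nat.eq_of_testBit_eq fun i => ?_
  rw [h1, Nat.testBit_xor, Nat.testBit_or, Nat.testBit_two_pow]
  by_cases hi : k = i
  · subst hi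
    simp [Nat.testBit_lt_two_pow h]
  · simp [hi]

theorem dg_shr (K X a n : ℕ) : dg K (Nat.shiftRight X (Nat.mul K a)) n = dg K X (a + n) := by
  have h0 : Nat.shiftRight X (Nat.mul K a) = X / 2 ^ (K * a) := Nat.shiftRight_eq_div_pow X _
  unfold dg
  rw [h0, Nat.div_div_eq_div_mul, pow_mul, ← pow_add]

theorem dg_mod (K X a n : ℕ) (h : n < a) : dg K (X % (2 ^ K) ^ a) n = dg K X n := by
  rw [mod_eq_sum_dg, dg_sum _ _ _ (fun n _ => dg_lt _ _ _), if_pos h]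

/-- the number with `L` digits one -/
def on (L : ℕ) : ℕ :=
  Nat.div (Nat.shiftLeft 1 (Nat.mul 320 L))
    2135987035920910082395021706169552114602704522356652769947041607822219725780640550022962086936575

theorem on_eq (L : ℕ) : on L = ∑ n ∈ range L, 1 * (2 ^ 320) ^ n := by
  have h : Nat.shiftLeft 1 (Nat.mul 320 L) = (2 ^ 320) ^ L := by
    rw [← pow_mul]; simpa using Nat.shiftLeft_eq 1 (320 * L)
  have h2 : (2 ^ 320) ^ L = 1 + (2 ^ 320 - 1) * ∑ n ∈ range L, 1 * (2 ^ 320) ^ n := by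
    induction L with
    | zero => simp
    | succ L ih =>
      rw [sum_range_succ, mul_add, ← add_assoc, ← ih (by
        rw [← pow_mul]; simpa using Nat.shiftLeft_eq 1 (320 * L)), pow_succ]
      generalize (2 ^ 320) ^ L = y
      omega
  unfold on
  rw [h, h2]
  generalize ∑ n ∈ range L, 1 * (2 ^ 320) ^ n = y
  show (1 + (2 ^ 320 - 1) * y) / (2 ^ 320 - 1) = y
  rw [Nat.add_mul_div_left _ _ (by norm_num)]
  norm_num

/-- digitwise absolute values (one too small for the negative digits) -/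
def ab (O Z : ℕ) : ℕ :=
  Nat.xor Z (Nat.add (Nat.sub (Nat.shiftLeft O 318) O) (Nat.land (Nat.shiftRight Z 318) O))

/-- sum of the digits -/
def sd (W : ℕ) : ℕ := Nat.mod W
  2135987035920910082395021706169552114602704522356652769947041607822219725780640550022962086936575

/-- the digits `lo, …, lo + len - 1`, divided by `2 ^ 128` -/
def rnd (O' lo Z : ℕ) : SM :=
  SM.dif (Nat.land (Nat.shiftRight (Nat.shiftRight Z (Nat.mul 320 lo)) 128)
    (Nat.sub (Nat.shiftLeft O' 192) O')) (Nat.shiftLeft O' 190)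

/-- sum of the digits `lo, …, lo + len - 1` -/
def kp (lo len W : ℕ) : ℕ :=
  sd (Nat.mod (Nat.shiftRight W (Nat.mul 320 lo)) (Nat.shiftLeft 1 (Nat.mul 320 len)))

theorem on_mul (L a : ℕ) : Nat.shiftLeft (on L) a = ∑ n ∈ range L, 2 ^ a * (2 ^ 320) ^ n := by
  rw [show Nat.shiftLeft (on L) a = on L * 2 ^ a from Nat.shiftLeft_eq _ _, on_eq, sum_mul]
  exact sum_congr rfl fun n _ => by ring

theorem on_mask (L a : ℕ) : Nat.sub (Nat.shiftLeft (on L) a) (on L) =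
    ∑ n ∈ range L, (2 ^ a - 1) * (2 ^ 320) ^ n := by
  rw [on_mul, on_eq, Nat.sub_eq, Nat.sub_eq_iff_eq_add (sum_le_sum fun n _ =>
    Nat.mul_le_mul_right _ Nat.one_le_two_pow), ← sum_add_distrib]
  refine sum_congr rfl fun n _ => ?_
  rw [← add_mul, Nat.sub_add_cancel Nat.one_le_two_pow]

theorem sd_sum (L : ℕ) (z : ℕ → ℕ) (hz : ∑ n ∈ range L, z n < 2 ^ 318) :
    sd (∑ n ∈ range L, z n * (2 ^ 320) ^ n) = ∑ n ∈ range L, z n :=
  mod_sum (2 ^ 320) L z Nat.one_le_two_pow (hz.trans (by norm_num))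

theorem Pk.nz {L ν lo len : ℕ} {a : SM} {φ : ℂ → ℂ} (h : Pk L a.val ν φ) (hν : ν < 2 ^ 318)
    (hl : lo + len ≤ L) {Z W : ℕ} (hZ : Z = a.off (Nat.shiftLeft (on L) 318))
    (hW : W = ab (on L) Z) :
    ∃ ψ, Pk len (rnd (on len) lo Z).val (kp lo len W / 2 ^ 128 + 2 * len) ψ ∧
      ∀ t : ℂ, ‖t‖ = 1 → ‖φ t - 2 ^ 128 * t ^ lo * ψ t‖ ≤
        ((sd W - kp lo len W + L + len * 2 ^ 128 : ℕ) : ℝ) := by
  obtain ⟨c, h1, h2, h3⟩ := h
  have hc : ∀ n < L, |c n| < 2 ^ 318 := fun n hn =>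
    lt_of_le_of_lt ((single_le_sum (f := fun n => |c n|) (fun _ _ => abs_nonneg _)
      (mem_range.2 hn)).trans h2) (by exact_mod_cast hν)
  obtain ⟨z, hz⟩ : ∃ z : ℕ → ℕ, ∀ n < L, (z n : ℤ) = c n + 2 ^ 318 :=
    ⟨fun n => (c n + 2 ^ 318).toNat, fun n hn => Int.toNat_of_nonneg (by
      have := abs_lt.1 (hc n hn); linarith)⟩
  have hz2 : ∀ n < L, z n < 2 ^ 319 := fun n hn => by
    have := abs_lt.1 (hc n hn); have := hz n hn; omega
  have hz3 : ∀ n < L, z n < 2 ^ 320 := fun n hn => (hz2 n hn).trans (by norm_num)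
  have hZ' : Z = ∑ n ∈ range L, z n * (2 ^ 320) ^ n := by
    have e : ((Nat.shiftLeft (on L) 318 : ℕ) : ℤ) + a.val =
        ((∑ n ∈ range L, z n * (2 ^ 320) ^ n : ℕ) : ℤ) := by
      rw [on_mul, h1]
      push_cast
      rw [← sum_add_distrib]
      refine sum_congr rfl fun n hn => ?_
      rw [hz n (mem_range.1 hn)]; ring
    have := SM.off_eq _ a (e ▸ Int.natCast_nonneg _)
    rw [e, ← hZ] at this
    exact_mod_cast this
  have dZ : ∀ n < L, dg 320 Z n = z n := fun n hn => by rw [hZ', dg_sum _ _ _ hz3, if_pos hn]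
  have hO : ∀ L, on L < (2 ^ 320) ^ L := fun L => by
    rw [on_eq]; exact sum_lt_pow _ _ _ fun _ _ => by norm_num
  have hσ : Nat.land (Nat.shiftRight Z 318) (on L) =
      ∑ n ∈ range L, z n / 2 ^ 318 * (2 ^ 320) ^ n := by
    refine (eq_sum_dg 320 _ L (lt_of_le_of_lt Nat.and_le_right (hO L))).trans ?_
    refine sum_congr rfl fun n hn => ?_
    have hn := mem_range.1 hn
    have h4 := dg_shift 320 Z 318 n (by norm_num)
    rw [dZ n hn] at h4
    rw [← Nat.land_eq, dg_land, on_eq, dg_sum _ _ (fun _ => 1) (fun _ _ => by norm_num), if_pos hn,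
      Nat.and_one_is_mod]
    have := hz2 n hn
    congr 1
    omega
  obtain ⟨w, hw, hW'⟩ : ∃ w : ℕ → ℕ, (∀ n < L, (w n : ℤ) ≤ |c n| ∧ |c n| ≤ w n + 1) ∧
      W = ∑ n ∈ range L, w n * (2 ^ 320) ^ n := by
    have e : Nat.add (Nat.sub (Nat.shiftLeft (on L) 318) (on L))
        (Nat.land (Nat.shiftRight Z 318) (on L)) =
        ∑ n ∈ range L, (2 ^ 318 - 1 + z n / 2 ^ 318) * (2 ^ 320) ^ n := by
      rw [on_mask, hσ, Nat.add_eq, ← sum_add_distrib]
      exact sum_congr rfl fun n _ => by rw [add_mul]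
    have b : ∀ n < L, 2 ^ 318 - 1 + z n / 2 ^ 318 < 2 ^ 320 := fun n hn => by
      have := hz2 n hn; omega
    refine ⟨dg 320 W, fun n hn => ?_, eq_sum_dg 320 W L ?_⟩
    · rw [hW, ab, dg_xor, e, dZ n hn, dg_sum _ _ _ b, if_pos hn]
      have h5 := hz n hn
      have h6 := hz2 n hn
      rcases lt_or_ge (z n) (2 ^ 318) with h7 | h7
      · rw [Nat.div_eq_of_lt h7, add_zero, xor1 h7, abs_of_neg (by omega)]; omega
      · obtain ⟨v, hv⟩ := Nat.exists_eq_add_of_le h7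
        rw [show 2 ^ 318 - 1 + z n / 2 ^ 318 = 2 ^ 318 by omega, hv, xor2 (by omega),
          abs_of_nonneg (by omega)]
        omega
    · rw [hW, ab, e, hZ', ← pow_mul]
      refine Nat.xor_lt_two_pow ?_ ?_ <;> rw [pow_mul]
      exacts [sum_lt_pow _ _ _ hz3, sum_lt_pow _ _ _ b]
  have hws : ∑ n ∈ range L, w n < 2 ^ 318 := by
    have : ((∑ n ∈ range L, w n : ℕ) : ℤ) ≤ ν := by
      push_cast
      exact (sum_le_sum fun n hn => (hw n (mem_range.1 hn)).1).trans h2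
    omega
  have hw3 : ∀ n < L, w n < 2 ^ 320 := fun n hn => lt_of_le_of_lt
    (single_le_sum (f := w) (fun _ _ => Nat.zero_le _) (mem_range.2 hn)) (hws.trans (by norm_num))
  obtain ⟨m, rfl⟩ := Nat.exists_eq_add_of_le hl
  have hsd : sd W = ∑ n ∈ range lo, w n + ∑ n ∈ range len, w (lo + n) +
      ∑ n ∈ range m, w (lo + len + n) := by
    rw [hW', sd_sum _ _ hws, sum_range_add, sum_range_add]
  have hkp : kp lo len W = ∑ n ∈ range len, w (lo + n) := by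
    have e : Nat.shiftLeft 1 (Nat.mul 320 len) = (2 ^ 320) ^ len := by
      rw [← pow_mul]; simpa using Nat.shiftLeft_eq 1 (320 * len)
    rw [kp, e, ← sd_sum len _ (by rw [sum_range_add, sum_range_add] at hws; omega)]
    refine congrArg sd ((mod_eq_sum_dg 320 _ len).trans ?_)
    refine sum_congr rfl fun n hn => ?_
    have hn := mem_range.1 hn
    rw [dg_shr, hW', dg_sum _ _ _ hw3, if_pos (by omega)]
  have hr : (rnd (on len) lo Z).val =
      ∑ n ∈ range len, c (lo + n) / 2 ^ 128 * (2 ^ 320) ^ n := by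
    have b : ∀ n < len, 2 ^ 192 - 1 < 2 ^ 320 := fun _ _ => by norm_num
    rw [rnd, SM.val_dif, on_mul len 190, eq_sum_dg 320 (Nat.land _ _) len
      (lt_of_le_of_lt Nat.and_le_right (by rw [on_mask]; exact sum_lt_pow _ _ _ b)),
      Nat.cast_sum, Nat.cast_sum, ← sum_sub_distrib]
    refine sum_congr rfl fun n hn => ?_
    have hn := mem_range.1 hn
    rw [dg_land, on_mask, dg_sum _ _ _ b, if_pos hn, Nat.and_two_pow_sub_one_eq_mod,
      dg_shift 320 _ 128 n (by norm_num), dg_shr, dZ _ (by omega), Nat.cast_mul, Nat.cast_mul,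
      Nat.cast_pow, Nat.cast_pow _ 320, Nat.cast_ofNat, ← sub_mul]
    congr 1
    have := hz (lo + n) (by omega)
    omega
  refine ⟨fun t => ∑ n ∈ range len, ((c (lo + n) / 2 ^ 128 : ℤ) : ℂ) * t ^ n,
    ⟨fun n => c (lo + n) / 2 ^ 128, hr, ?_, fun _ => rfl⟩, fun t ht => ?_⟩
  · have b : 2 ^ 128 * ∑ n ∈ range len, |c (lo + n) / 2 ^ 128| ≤
        ∑ n ∈ range len, ((w (lo + n) : ℤ) + 2 ^ 128) := by
      rw [mul_sum]
      refine sum_le_sum fun n hn => ?_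
      have := (hw (lo + n) (by have := mem_range.1 hn; omega)).2
      rcases le_total 0 (c (lo + n)) with h8 | h8
      · rw [abs_of_nonneg h8] at this
        rw [abs_of_nonneg (by omega)]; omega
      · rw [abs_of_nonpos h8] at this
        rw [abs_of_nonpos (by omega)]; omega
    rw [sum_add_distrib, sum_const, card_range, ← Nat.cast_sum, ← hkp] at b
    simp only [nsmul_eq_mul] at b
    rcases Nat.eq_zero_or_pos len with rfl | hp
    · rw [sum_range_zero]; exact Int.natCast_nonneg _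
    beta_reduce
    omega
  · have n1 : ∀ (x : ℤ) (k : ℕ), ‖(x : ℂ) * t ^ k‖ = ((|x| : ℤ) : ℝ) := fun x k => by
      rw [norm_mul, norm_pow, ht, one_pow, mul_one, Complex.norm_intCast, Int.cast_abs]
    have e : φ t - 2 ^ 128 * t ^ lo * ∑ n ∈ range len, ((c (lo + n) / 2 ^ 128 : ℤ) : ℂ) * t ^ n =
        ∑ n ∈ range lo, (c n : ℂ) * t ^ n + ∑ n ∈ range m, (c (lo + len + n) : ℂ) * t ^ (lo + len + n)
        + ∑ n ∈ range len, ((c (lo + n) % 2 ^ 128 : ℤ) : ℂ) * t ^ (lo + n) := by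
      rw [h3, sum_range_add, sum_range_add, mul_sum]
      have : ∀ n ∈ range len, ((c (lo + n) % 2 ^ 128 : ℤ) : ℂ) * t ^ (lo + n) =
          (c (lo + n) : ℂ) * t ^ (lo + n) -
            2 ^ 128 * t ^ lo * (((c (lo + n) / 2 ^ 128 : ℤ) : ℂ) * t ^ n) := fun n _ => by
        rw [Int.emod_def]; push_cast; ring
      rw [sum_congr rfl this, sum_sub_distrib]
      ring
    have b : ∑ n ∈ range lo, |c n| + ∑ n ∈ range m, |c (lo + len + n)|
        + ∑ n ∈ range len, |c (lo + n) % 2 ^ 128| ≤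
        ((sd W - kp lo len W + (lo + len + m) + len * 2 ^ 128 : ℕ) : ℤ) := by
      have b1 : ∑ n ∈ range lo, |c n| ≤ ∑ n ∈ range lo, ((w n : ℤ) + 1) :=
        sum_le_sum fun n hn => (hw n (by have := mem_range.1 hn; omega)).2
      have b2 : ∑ n ∈ range m, |c (lo + len + n)| ≤ ∑ n ∈ range m, ((w (lo + len + n) : ℤ) + 1) :=
        sum_le_sum fun n hn => (hw _ (by have := mem_range.1 hn; omega)).2
      have b3 : ∑ n ∈ range len, |c (lo + n) % 2 ^ 128| ≤ ∑ n ∈ range len, (2 ^ 128 : ℤ) :=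
        sum_le_sum fun n _ => by rw [abs_of_nonneg (by omega)]; omega
      rw [sum_add_distrib, ← Nat.cast_sum] at b1 b2
      simp only [sum_const, card_range, nsmul_eq_mul] at b1 b2 b3
      rw [hsd, hkp]
      omega
    beta_reduce
    rw [e]
    refine ((norm_add₃_le).trans (add_le_add_three (norm_sum_le _ _) (norm_sum_le _ _)
      (norm_sum_le _ _))).trans ?_
    simp only [n1]
    exact_mod_cast b

end Pool.Agent.MP_c434f6_gt.H16

end

section

/-! Laurent polynomials on the unit circle, and models that are affine in real parameters. -/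

open Complex

set_option exponentiation.threshold 400

namespace Pool.Agent.MP_c434f6_gt.H16

/-- a Laurent polynomial `t⁻¹ ^ o * ∑ n < L, (re n + i im n) t ^ n` of `l¹` norm at most `ν` -/
structure P where
  re : SM
  im : SM
  o : ℕ
  L : ℕ
  ν : ℕ

def mx (a b : ℕ) : ℕ := Nat.add a (Nat.sub b a)
def mn (a b : ℕ) : ℕ := Nat.sub a (Nat.sub a b)

namespace P

def Rep (p : P) (Φ : ℂ → ℂ) : Prop :=
  ∃ a b φ ψ, Pk p.L p.re.val a φ ∧ Pk p.L p.im.val b ψ ∧ a + b ≤ p.ν ∧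
    ∀ t : ℂ, ‖t‖ = 1 → Φ t = (φ t + I * ψ t) * t⁻¹ ^ p.o

def zero : P := ⟨⟨true, 0⟩, ⟨true, 0⟩, 0, 0, 0⟩
def cst (a b : SM) : P := ⟨a, b, 0, 1, Nat.add a.m b.m⟩
def neg (p : P) : P := ⟨p.re.neg, p.im.neg, p.o, p.L, p.ν⟩
def mulI (p : P) : P := ⟨p.im.neg, p.re, p.o, p.L, p.ν⟩
def mulT (k : ℕ) (p : P) : P := ⟨p.re.shl k, p.im.shl k, p.o, Nat.add p.L k, p.ν⟩
def mulS (k : ℕ) (p : P) : P := ⟨p.re, p.im, Nat.add p.o k, p.L, p.ν⟩
def add2 (p q : P) (d d' : ℕ) : P :=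
  ⟨(p.re.shl d).add (q.re.shl d'), (p.im.shl d).add (q.im.shl d'), Nat.add p.o d,
    mx (Nat.add p.L d) (Nat.add q.L d'), Nat.add p.ν q.ν⟩
def add (p q : P) : P := add2 p q (Nat.sub q.o p.o) (Nat.sub p.o q.o)
def mul (p q : P) : P :=
  ⟨(p.re.mul q.re).add (p.im.mul q.im).neg, (p.re.mul q.im).add (p.im.mul q.re), Nat.add p.o q.o,
    Nat.sub (Nat.add p.L q.L) 1, Nat.mul p.ν q.ν⟩

def nm4 (p : P) (lo len O' Zr Zi Tr Ti Kr Ki : ℕ) : P × ℕ :=
  (⟨rnd O' lo Zr, rnd O' lo Zi, Nat.sub p.o lo, len,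
    Nat.add (Nat.add (Nat.shiftRight Kr 128) (Nat.shiftRight Ki 128)) (Nat.mul 4 len)⟩,
    Nat.add (Nat.add (Nat.sub Tr Kr) (Nat.sub Ti Ki))
      (Nat.mul 2 (Nat.add p.L (Nat.shiftLeft len 128))))
def nm3 (p : P) (lo len Zr Zi Wr Wi : ℕ) : P × ℕ :=
  nm4 p lo len (on len) Zr Zi (sd Wr) (sd Wi) (kp lo len Wr) (kp lo len Wi)
def nm2 (p : P) (lo len O Zr Zi : ℕ) : P × ℕ := nm3 p lo len Zr Zi (ab O Zr) (ab O Zi)
def nm1 (p : P) (lo len O : ℕ) : P × ℕ :=
  nm2 p lo len O (p.re.off (Nat.shiftLeft O 318)) (p.im.off (Nat.shiftLeft O 318))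
def nm0 (p : P) (lo hi : ℕ) : P × ℕ := nm1 p lo (Nat.sub hi lo) (on p.L)
/-- division by `2 ^ 128` and restriction to the powers `-n1 ≤ n < n2`, with the error -/
def norm (n1 n2 : ℕ) (p : P) : P × ℕ :=
  Bool.rec (zero, p.ν) (nm0 p (mn p.L (Nat.sub p.o n1)) (mn p.L (Nat.add p.o n2)))
    (Nat.beq (Nat.shiftRight p.ν 318) 0)

variable {p q : P} {Φ Ψ : ℂ → ℂ}

theorem pow_cancel {t : ℂ} (h : t ≠ 0) (a b : ℕ) : t ^ a * t⁻¹ ^ (a + b) = t⁻¹ ^ b := by
  rw [pow_add, ← mul_assoc, ← mul_pow, mul_inv_cancel₀ h, one_pow, one_mul]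

theorem Rep.congr (h : p.Rep Φ) (e : ∀ t, ‖t‖ = 1 → Ψ t = Φ t) : p.Rep Ψ := by
  obtain ⟨a, b, φ, ψ, h1, h2, h3, h4⟩ := h
  exact ⟨a, b, φ, ψ, h1, h2, h3, fun t ht => (e t ht).trans (h4 t ht)⟩

theorem rep_zero : zero.Rep fun _ => 0 :=
  ⟨0, 0, _, _, Pk.zero 0, Pk.zero 0, le_rfl, by simp⟩

theorem rep_cst (a b : SM) : (cst a b).Rep fun _ => a.val + I * b.val :=
  ⟨_, _, _, _, Pk.one a, Pk.one b, le_rfl, by simp [cst]⟩

theorem Rep.neg (h : p.Rep Φ) : p.neg.Rep fun t => -1 * Φ t := by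
  obtain ⟨a, b, φ, ψ, h1, h2, h3, h4⟩ := h
  exact ⟨a, b, _, _, p.re.val_neg ▸ h1.neg, p.im.val_neg ▸ h2.neg, h3, fun t ht => by
    simp only [h4 t ht, P.neg]; ring⟩

theorem Rep.mulI (h : p.Rep Φ) : p.mulI.Rep fun t => I * Φ t := by
  obtain ⟨a, b, φ, ψ, h1, h2, h3, h4⟩ := h
  exact ⟨b, a, _, _, p.im.val_neg ▸ h2.neg, h1, (add_comm b a).trans_le h3, fun t ht => by
    simp only [h4 t ht, P.mulI]; linear_combination (ψ t * t⁻¹ ^ p.o) * I_mul_I⟩

theorem Rep.mulT (k : ℕ) (h : p.Rep Φ) : (p.mulT k).Rep fun t => t ^ k * Φ t := by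
  obtain ⟨a, b, φ, ψ, h1, h2, h3, h4⟩ := h
  exact ⟨a, b, _, _, p.re.val_shl k ▸ h1.shl k, p.im.val_shl k ▸ h2.shl k, h3, fun t ht => by
    simp only [h4 t ht, P.mulT]; ring⟩

theorem Rep.mulS (k : ℕ) (h : p.Rep Φ) : (p.mulS k).Rep fun t => t⁻¹ ^ k * Φ t := by
  obtain ⟨a, b, φ, ψ, h1, h2, h3, h4⟩ := h
  exact ⟨a, b, _, _, h1, h2, h3, fun t ht => by
    simp only [h4 t ht, P.mulS, Nat.add_eq]; ring⟩

theorem Rep.add (h : p.Rep Φ) (h' : q.Rep Ψ) : (p.add q).Rep fun t => Φ t + Ψ t := by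
  obtain ⟨a, b, φ, ψ, h1, h2, h3, h4⟩ := h
  obtain ⟨a', b', φ', ψ', g1, g2, g3, g4⟩ := h'
  obtain ⟨d, hd⟩ : ∃ d, d = Nat.sub q.o p.o := ⟨_, rfl⟩
  obtain ⟨d', hd'⟩ : ∃ d, d = Nat.sub p.o q.o := ⟨_, rfl⟩
  have e : p.o + d = q.o + d' := by simp only [Nat.sub_eq] at hd hd'; omega
  have l1 : p.L + d ≤ mx (p.L + d) (q.L + d') := Nat.le_add_right _ _
  have l2 : q.L + d' ≤ mx (p.L + d) (q.L + d') := by simp only [mx, Nat.add_eq, Nat.sub_eq]; omega
  rw [P.add, ← hd, ← hd']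
  refine ⟨a + a', b + b', fun t => φ t * t ^ d + φ' t * t ^ d', fun t => ψ t * t ^ d + ψ' t * t ^ d',
    ?_, ?_, by simp only [add2, Nat.add_eq]; omega, fun t ht => ?_⟩
  · simp only [add2, SM.val_add, SM.val_shl]
    exact ((h1.shl d).mono l1 le_rfl).add ((g1.shl d').mono l2 le_rfl)
  · simp only [add2, SM.val_add, SM.val_shl]
    exact ((h2.shl d).mono l1 le_rfl).add ((g2.shl d').mono l2 le_rfl)
  · have h0 : t ≠ 0 := by rintro rfl; simp at ht
    have e1 : t ^ d * t⁻¹ ^ (p.o + d) = t⁻¹ ^ p.o := by rw [add_comm, pow_cancel h0]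
    have e2 : t ^ d' * t⁻¹ ^ (p.o + d) = t⁻¹ ^ q.o := by rw [e, add_comm, pow_cancel h0]
    simp only [h4 t ht, g4 t ht, add2, Nat.add_eq]
    rw [← e1, ← e2]
    ring

theorem Rep.mul (h : p.Rep Φ) (h' : q.Rep Ψ) : (p.mul q).Rep fun t => Φ t * Ψ t := by
  obtain ⟨a, b, φ, ψ, h1, h2, h3, h4⟩ := h
  obtain ⟨a', b', φ', ψ', g1, g2, g3, g4⟩ := h'
  refine ⟨a * a' + b * b', a * b' + b * a', fun t => φ t * φ' t + -(ψ t * ψ' t),
    fun t => φ t * ψ' t + ψ t * φ' t, ?_, ?_, ?_, fun t ht => ?_⟩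
  · simp only [P.mul, SM.val_add, SM.val_mul, SM.val_neg]
    exact (h1.mul g1).add (h2.mul g2).neg
  · simp only [P.mul, SM.val_add, SM.val_mul]
    exact (h1.mul g2).add (h2.mul g1)
  · exact le_trans (le_of_eq (by ring)) (Nat.mul_le_mul h3 g3)
  · simp only [h4 t ht, g4 t ht, P.mul, Nat.add_eq]
    linear_combination (ψ t * ψ' t * t⁻¹ ^ (p.o + q.o)) * I_mul_I

theorem Rep.norm_le (h : p.Rep Φ) {t : ℂ} (ht : ‖t‖ = 1) : ‖Φ t‖ ≤ p.ν := by
  obtain ⟨a, b, φ, ψ, h1, h2, h3, h4⟩ := h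
  rw [h4 t ht, norm_mul, norm_pow, norm_inv, ht, inv_one, one_pow, mul_one]
  refine (norm_add_le _ _).trans ?_
  rw [norm_mul, norm_I, one_mul]
  exact (add_le_add (h1.norm_le ht.le) (h2.norm_le ht.le)).trans (by exact_mod_cast h3)

theorem Rep.ent (h : p.Rep Φ) (ho : p.o = 0) :
    ∃ g, Differentiable ℂ g ∧ ∀ t : ℂ, ‖t‖ = 1 → Φ t = g t := by
  obtain ⟨a, b, φ, ψ, h1, h2, h3, h4⟩ := h
  exact ⟨fun t => φ t + I * ψ t, h1.diff.add (h2.diff.const_mul _), fun t ht => by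
    simp [h4 t ht, ho]⟩

theorem Rep.norm (h : p.Rep Φ) (n1 n2 : ℕ) : ∃ Ψ, (p.norm n1 n2).1.Rep Ψ ∧
    ∀ t : ℂ, ‖t‖ = 1 → ‖Φ t - 2 ^ 128 * Ψ t‖ ≤ (p.norm n1 n2).2 := by
  unfold P.norm
  cases hb : Nat.beq (Nat.shiftRight p.ν 318) 0
  · exact ⟨_, rep_zero, fun t ht => by simpa using h.norm_le ht⟩
  have hν : p.ν < 2 ^ 318 := by
    have h1 := Nat.eq_of_beq_eq_true hb
    rw [show Nat.shiftRight p.ν 318 = p.ν / 2 ^ 318 from Nat.shiftRight_eq_div_pow _ _] at h1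
    omega
  obtain ⟨a, b, φ, ψ, h1, h2, h3, h4⟩ := h
  obtain ⟨lo, hlo⟩ : ∃ d, d = mn p.L (Nat.sub p.o n1) := ⟨_, rfl⟩
  obtain ⟨len, hlen⟩ : ∃ d, d = Nat.sub (mn p.L (Nat.add p.o n2)) lo := ⟨_, rfl⟩
  have l1 : lo + len ≤ p.L := by simp only [mn, Nat.sub_eq, Nat.add_eq] at hlo hlen; omega
  have l2 : lo ≤ p.o := by simp only [mn, Nat.sub_eq] at hlo; omega
  obtain ⟨Zr, hZr⟩ : ∃ d, d = p.re.off (Nat.shiftLeft (on p.L) 318) := ⟨_, rfl⟩
  obtain ⟨Zi, hZi⟩ : ∃ d, d = p.im.off (Nat.shiftLeft (on p.L) 318) := ⟨_, rfl⟩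
  obtain ⟨Wr, hWr⟩ : ∃ d, d = ab (on p.L) Zr := ⟨_, rfl⟩
  obtain ⟨Wi, hWi⟩ : ∃ d, d = ab (on p.L) Zi := ⟨_, rfl⟩
  obtain ⟨φ', f1, f2⟩ := h1.nz (by omega) l1 hZr hWr
  obtain ⟨ψ', g1, g2⟩ := h2.nz (by omega) l1 hZi hWi
  simp only [nm0, ← hlo, ← hlen, nm1, nm2, nm3, ← hZr, ← hZi, ← hWr, ← hWi, nm4]
  generalize rnd (on len) lo Zr = Rr at *
  generalize rnd (on len) lo Zi = Ri at *
  generalize kp lo len Wr = Kr at *
  generalize kp lo len Wi = Ki at *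
  generalize sd Wr = Tr at *
  generalize sd Wi = Ti at *
  refine ⟨fun t => (φ' t + I * ψ' t) * t⁻¹ ^ (p.o - lo), ⟨_, _, φ', ψ', f1, g1, ?_,
    fun _ _ => rfl⟩, fun t ht => ?_⟩
  · simp only [Nat.add_eq, Nat.mul_eq, Nat.shiftRight_eq, Nat.shiftRight_eq_div_pow]
    omega
  · have h0 : t ≠ 0 := by rintro rfl; simp at ht
    obtain ⟨d, hd⟩ := Nat.exists_eq_add_of_le l2
    have e : Φ t - 2 ^ 128 * ((φ' t + I * ψ' t) * t⁻¹ ^ (p.o - lo)) =
        ((φ t - 2 ^ 128 * t ^ lo * φ' t) + I * (ψ t - 2 ^ 128 * t ^ lo * ψ' t)) * t⁻¹ ^ p.o := by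
      have e1 : t⁻¹ ^ (p.o - lo) = t ^ lo * t⁻¹ ^ p.o := by
        rw [hd, Nat.add_sub_cancel_left, pow_cancel h0]
      rw [h4 t ht, e1]; ring
    beta_reduce
    rw [e, norm_mul, norm_pow, norm_inv, ht, inv_one, one_pow, mul_one]
    refine (norm_add_le _ _).trans ?_
    rw [norm_mul, norm_I, one_mul]
    refine (add_le_add (f2 t ht) (g2 t ht)).trans ?_
    rw [← Nat.cast_add, Nat.cast_le]
    simp only [Nat.add_eq, Nat.mul_eq, Nat.sub_eq, Nat.shiftLeft_eq',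
      Nat.shiftLeft_eq]
    omega

end P

/-- the list of the coefficients of `ε 0, ε 1, …` -/
def LRep : List P → (ℕ → ℝ) → (ℂ → ℂ) → Prop
  | [], _, F => ∀ t : ℂ, ‖t‖ = 1 → F t = 0
  | p :: l, ε, F => ∃ Φ G, p.Rep Φ ∧ LRep l (fun n => ε (n + 1)) G ∧
      ∀ t : ℂ, ‖t‖ = 1 → F t = ε 0 * Φ t + G t

noncomputable def lmap (f : P → P) (l : List P) : List P :=
  List.rec [] (fun p _ ih => f p :: ih) l
noncomputable def ladd (l : List P) : List P → List P :=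
  List.rec (motive := fun _ => List P → List P) (fun m => m)
    (fun p l ih m => List.rec (p :: l) (fun q m _ => p.add q :: ih m) m) l
noncomputable def lν (l : List P) : ℕ := List.rec 0 (fun p _ ih => Nat.add p.ν ih) l
noncomputable def lnm (n1 n2 : ℕ) (l : List P) : List P :=
  List.rec [] (fun p _ ih => (p.norm n1 n2).1 :: ih) l
noncomputable def ler (n1 n2 : ℕ) (l : List P) : ℕ :=
  List.rec 0 (fun p _ ih => Nat.add (p.norm n1 n2).2 ih) l
noncomputable def lo0 (l : List P) : ℕ := List.rec 0 (fun p _ ih => Nat.add p.o ih) l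

namespace LRep

variable {l m : List P} {ε : ℕ → ℝ} {F G : ℂ → ℂ}

theorem congr (h : LRep l ε F) (e : ∀ t, ‖t‖ = 1 → G t = F t) : LRep l ε G := by
  cases l with
  | nil => exact fun t ht => (e t ht).trans (h t ht)
  | cons p l =>
    obtain ⟨Φ, H, h1, h2, h3⟩ := h
    exact ⟨Φ, H, h1, h2, fun t ht => (e t ht).trans (h3 t ht)⟩

theorem map {f : P → P} {g : ℂ → ℂ} (hf : ∀ p Φ, P.Rep p Φ → (f p).Rep fun t => g t * Φ t)
    (h : LRep l ε F) : LRep (lmap f l) ε fun t => g t * F t := by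
  induction l generalizing ε F with
  | nil => exact fun t ht => by simp [h t ht]
  | cons p l ih =>
    obtain ⟨Φ, H, h1, h2, h3⟩ := h
    exact ⟨_, _, hf _ _ h1, ih h2, fun t ht => by simp only [h3 t ht]; ring⟩

theorem add (h : LRep l ε F) (h' : LRep m ε G) : LRep (ladd l m) ε fun t => F t + G t := by
  induction l generalizing ε F G m with
  | nil => exact h'.congr fun t ht => by simp [h t ht]
  | cons p l ih =>
    cases m with
    | nil => exact h.congr fun t ht => by simp [h' t ht]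
    | cons q m =>
      obtain ⟨Φ, H, h1, h2, h3⟩ := h
      obtain ⟨Φ', H', g1, g2, g3⟩ := h'
      exact ⟨_, _, h1.add g1, ih h2 g2, fun t ht => by simp only [h3 t ht, g3 t ht]; ring⟩

theorem norm_eps {x : ℝ} (h : |x| ≤ 1) (z : ℂ) : ‖x * z‖ ≤ ‖z‖ := by
  rw [norm_mul, norm_real]
  exact mul_le_of_le_one_left (norm_nonneg _) h

theorem norm_le (hε : ∀ n, |ε n| ≤ 1) (h : LRep l ε F) {t : ℂ} (ht : ‖t‖ = 1) : ‖F t‖ ≤ lν l := by
  induction l generalizing ε F with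
  | nil => simp [h t ht]
  | cons p l ih =>
    obtain ⟨Φ, H, h1, h2, h3⟩ := h
    rw [h3 t ht, show lν (p :: l) = p.ν + lν l from rfl, Nat.cast_add]
    exact norm_add_le_of_le ((norm_eps (hε 0) _).trans (h1.norm_le ht)) (ih (fun n => hε _) h2)

theorem norm (hε : ∀ n, |ε n| ≤ 1) (h : LRep l ε F) (n1 n2 : ℕ) : ∃ G, LRep (lnm n1 n2 l) ε G ∧
    ∀ t : ℂ, ‖t‖ = 1 → ‖F t - 2 ^ 128 * G t‖ ≤ ler n1 n2 l := by
  induction l generalizing ε F with
  | nil => exact ⟨fun _ => 0, fun _ _ => rfl, fun t ht => by simp [h t ht]⟩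
  | cons p l ih =>
    obtain ⟨Φ, H, h1, h2, h3⟩ := h
    obtain ⟨Φ', f1, f2⟩ := h1.norm n1 n2
    obtain ⟨H', g1, g2⟩ := ih (fun n => hε _) h2
    refine ⟨fun t => ε 0 * Φ' t + H' t, ⟨_, _, f1, g1, fun _ _ => rfl⟩, fun t ht => ?_⟩
    rw [h3 t ht, show ler n1 n2 (p :: l) = (p.norm n1 n2).2 + ler n1 n2 l from rfl, Nat.cast_add]
    refine le_trans (le_of_eq (congrArg _ (by ring))) (norm_add_le_of_le
      ((norm_eps (hε 0) _).trans (f2 t ht)) (g2 t ht))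

theorem ent (h : LRep l ε F) (ho : lo0 l = 0) :
    ∃ g, Differentiable ℂ g ∧ ∀ t : ℂ, ‖t‖ = 1 → F t = g t := by
  induction l generalizing ε F with
  | nil => exact ⟨fun _ => 0, by fun_prop, h⟩
  | cons p l ih =>
    obtain ⟨Φ, H, h1, h2, h3⟩ := h
    have : p.o + lo0 l = 0 := ho
    obtain ⟨f, f1, f2⟩ := h1.ent (by omega)
    obtain ⟨g, g1, g2⟩ := ih h2 (by omega)
    exact ⟨fun t => ε 0 * f t + g t, by fun_prop, fun t ht => by rw [h3 t ht, f2 t ht, g2 t ht]⟩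

end LRep

/-- an affine model, in units of `2⁻¹²⁸` -/
structure AM where
  a : P
  l : List P
  e : ℕ
  ok : Bool

/-- windows of powers for the constant lane and for the other lanes -/
structure Win where
  n1 : ℕ
  n2 : ℕ
  m1 : ℕ
  m2 : ℕ

def an (a b : Bool) : Bool := Bool.rec false b a

theorem an_iff {a b : Bool} : an a b = true ↔ a = true ∧ b = true := by
  cases a <;> simp [an]

namespace AM

def Rep (ε : ℕ → ℝ) (A : AM) (f : ℂ → ℂ) : Prop :=
  A.ok = true → ∃ Φ F, A.a.Rep Φ ∧ LRep A.l ε F ∧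
    ∀ t : ℂ, ‖t‖ = 1 → ‖2 ^ 128 * f t - (Φ t + F t)‖ ≤ A.e

noncomputable def nrm (A : AM) : ℕ := Nat.add (Nat.add A.a.ν (lν A.l)) A.e
noncomputable def map (f : P → P) (A : AM) : AM := ⟨f A.a, lmap f A.l, A.e, A.ok⟩
noncomputable def neg (A : AM) : AM := map P.neg A
noncomputable def mulI (A : AM) : AM := map P.mulI A
noncomputable def mulT (k : ℕ) (A : AM) : AM := map (P.mulT k) A
noncomputable def mulS (k : ℕ) (A : AM) : AM := map (P.mulS k) A
noncomputable def add (A B : AM) : AM :=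
  ⟨A.a.add B.a, ladd A.l B.l, Nat.add A.e B.e, an A.ok B.ok⟩
noncomputable def sub (A B : AM) : AM := add A (neg B)
noncomputable def mul2 (W : Win) (A B : AM) (x : P × ℕ) (y : List P) : AM :=
  ⟨x.1, lnm W.m1 W.m2 y, Nat.succ (Nat.shiftRight (Nat.add (Nat.add (Nat.add x.2 (ler W.m1 W.m2 y))
    (Nat.mul (lν A.l) (lν B.l))) (Nat.add (Nat.mul A.e (nrm B))
      (Nat.mul B.e (Nat.add A.a.ν (lν A.l))))) 128), an A.ok B.ok⟩
noncomputable def mul (W : Win) (A B : AM) : AM :=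
  mul2 W A B ((A.a.mul B.a).norm W.n1 W.n2) (ladd (lmap A.a.mul B.l) (lmap B.a.mul A.l))
def wid (A : AM) (e : ℕ) (b : Bool) : AM := ⟨A.a, A.l, Nat.add A.e e, an A.ok b⟩
def strip (A : AM) : AM := ⟨A.a, A.l, 0, A.ok⟩
def ball (e : ℕ) : AM := ⟨P.zero, [], e, true⟩
def cst (a b : SM) : AM := ⟨P.cst a b, [], 0, true⟩
def nat (n : ℕ) : AM := cst ⟨true, n⟩ ⟨true, 0⟩
/-- the rational number `p / q` -/
def rat (p q : ℕ) : AM := wid (nat (Nat.div (Nat.shiftLeft p 128) q)) 1 true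
def one : AM := nat 340282366920938463463374607431768211456
/-- evaluates `A` before it goes on with `k` -/
def fc {α : Type} (A : AM) (k : α) : α := Bool.rec k (Bool.rec k k (Nat.beq A.e 0)) A.ok

theorem fc_eq {α : Type} (A : AM) (k : α) : fc A k = k := by
  unfold fc; cases A.ok <;> cases Nat.beq A.e 0 <;> rfl

variable {ε : ℕ → ℝ} {A B : AM} {f g : ℂ → ℂ}

theorem Rep.congr (h : A.Rep ε f) (e : ∀ t, ‖t‖ = 1 → g t = f t) : A.Rep ε g := fun ok => by
  obtain ⟨Φ, F, h1, h2, h3⟩ := h ok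
  exact ⟨Φ, F, h1, h2, fun t ht => e t ht ▸ h3 t ht⟩

theorem norm_sc (z : ℂ) : ‖2 ^ 128 * z‖ = 2 ^ 128 * ‖z‖ := by simp

theorem Rep.norm_le (hε : ∀ n, |ε n| ≤ 1) (h : A.Rep ε f) (ok : A.ok = true) {t : ℂ}
    (ht : ‖t‖ = 1) : 2 ^ 128 * ‖f t‖ ≤ A.nrm := by
  obtain ⟨Φ, F, h1, h2, h3⟩ := h ok
  rw [← norm_sc, show (2 : ℂ) ^ 128 * f t = Φ t + F t + (2 ^ 128 * f t - (Φ t + F t)) by ring,
    show A.nrm = A.a.ν + lν A.l + A.e from rfl]
  push_cast
  exact norm_add_le_of_le (norm_add_le_of_le (h1.norm_le ht) (h2.norm_le hε ht)) (h3 t ht)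

theorem Rep.map {k : P → P} {u : ℂ → ℂ} (hk : ∀ p Φ, P.Rep p Φ → (k p).Rep fun t => u t * Φ t)
    (hu : ∀ t, ‖t‖ = 1 → ‖u t‖ = 1) (h : A.Rep ε f) : (A.map k).Rep ε fun t => u t * f t :=
  fun ok => by
  obtain ⟨Φ, F, h1, h2, h3⟩ := h ok
  refine ⟨_, _, hk _ _ h1, h2.map hk, fun t ht => ?_⟩
  rw [show 2 ^ 128 * (u t * f t) - (u t * Φ t + u t * F t) = u t * (2 ^ 128 * f t - (Φ t + F t)) by
    ring, norm_mul, hu t ht, one_mul]
  exact h3 t ht

theorem Rep.neg (h : A.Rep ε f) : A.neg.Rep ε fun t => -f t :=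
  (h.map (u := fun _ => -1) (fun _ _ => P.Rep.neg) (by simp)).congr (by simp)

theorem Rep.mulI (h : A.Rep ε f) : A.mulI.Rep ε fun t => I * f t :=
  h.map (u := fun _ => I) (fun _ _ => P.Rep.mulI) (by simp)

theorem Rep.mulT (k : ℕ) (h : A.Rep ε f) : (A.mulT k).Rep ε fun t => t ^ k * f t :=
  h.map (fun _ _ => P.Rep.mulT k) fun t ht => by simp [ht]

theorem Rep.mulS (k : ℕ) (h : A.Rep ε f) : (A.mulS k).Rep ε fun t => t⁻¹ ^ k * f t :=
  h.map (fun _ _ => P.Rep.mulS k) fun t ht => by simp [ht]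

theorem Rep.add (h : A.Rep ε f) (h' : B.Rep ε g) : (A.add B).Rep ε fun t => f t + g t := fun ok => by
  obtain ⟨Φ, F, h1, h2, h3⟩ := h (an_iff.1 ok).1
  obtain ⟨Ψ, G, g1, g2, g3⟩ := h' (an_iff.1 ok).2
  refine ⟨_, _, h1.add g1, h2.add g2, fun t ht => ?_⟩
  rw [show (A.add B).e = A.e + B.e from rfl, Nat.cast_add]
  exact le_trans (le_of_eq (congrArg _ (by ring))) (norm_add_le_of_le (h3 t ht) (g3 t ht))

theorem Rep.sub (h : A.Rep ε f) (h' : B.Rep ε g) : (A.sub B).Rep ε fun t => f t - g t :=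
  (h.add h'.neg).congr fun _ _ => sub_eq_add_neg _ _

theorem le_succ_shr {x : ℝ} {n : ℕ} (h : 2 ^ 128 * x ≤ n) :
    x ≤ (Nat.succ (Nat.shiftRight n 128) : ℕ) := by
  have : n ≤ 2 ^ 128 * Nat.succ (Nat.shiftRight n 128) := by
    rw [show Nat.shiftRight n 128 = n / 2 ^ 128 from Nat.shiftRight_eq_div_pow _ _]; omega
  refine le_of_mul_le_mul_left (h.trans ?_) (show (0 : ℝ) < 2 ^ 128 by positivity)
  exact_mod_cast this

theorem Rep.mul (hε : ∀ n, |ε n| ≤ 1) (W : Win) (h : A.Rep ε f) (h' : B.Rep ε g) :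
    (mul W A B).Rep ε fun t => f t * g t := fun ok => by
  have okB := (an_iff.1 ok).2
  obtain ⟨Φ, F, h1, h2, h3⟩ := h (an_iff.1 ok).1
  obtain ⟨Ψ, G, g1, g2, g3⟩ := h' okB
  obtain ⟨X, x1, x2⟩ := (h1.mul g1).norm W.n1 W.n2
  obtain ⟨Y, y1, y2⟩ := ((g2.map fun _ _ => h1.mul).add (h2.map fun _ _ => g1.mul)).norm hε W.m1 W.m2
  refine ⟨X, Y, x1, y1, fun t ht => le_succ_shr ?_⟩
  have b1 := h'.norm_le hε okB ht
  rw [← norm_sc] at b1 ⊢
  simp only [Nat.add_eq, Nat.mul_eq]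
  push_cast
  refine le_trans (le_of_eq (congrArg _ (by ring))) (norm_add_le_of_le (norm_add_le_of_le
    (norm_add_le_of_le (x2 t ht) (y2 t ht)) (norm_mul_le_of_le (h2.norm_le hε ht) (g2.norm_le hε ht)))
    (norm_add_le_of_le (norm_mul_le_of_le (h3 t ht) b1) (norm_mul_le_of_le (g3 t ht)
      (norm_add_le_of_le (h1.norm_le ht) (h2.norm_le hε ht)))))

theorem Rep.wid {e : ℕ} {b : Bool} (h : A.Rep ε f)
    (hg : A.ok = true → b = true → ∀ t, ‖t‖ = 1 → 2 ^ 128 * ‖g t - f t‖ ≤ e) :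
    (A.wid e b).Rep ε g := fun ok => by
  obtain ⟨Φ, F, h1, h2, h3⟩ := h (an_iff.1 ok).1
  refine ⟨_, _, h1, h2, fun t ht => ?_⟩
  have := hg (an_iff.1 ok).1 (an_iff.1 ok).2 t ht
  rw [← norm_sc] at this
  rw [show (A.wid e b).e = A.e + e from rfl, Nat.cast_add]
  exact le_trans (le_of_eq (congrArg _ (by ring))) (norm_add_le_of_le (h3 t ht) this)

theorem Rep.strip (h : A.Rep ε f) : ∃ g, A.strip.Rep ε g := by
  cases ok : A.ok
  · exact ⟨f, fun h => absurd (ok.symm.trans h) (by simp)⟩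
  obtain ⟨Φ, F, h1, h2, -⟩ := h ok
  exact ⟨fun t => (Φ t + F t) / 2 ^ 128, fun _ => ⟨_, _, h1, h2, fun t _ => by
    rw [mul_div_cancel₀ _ (by norm_num)]; simp⟩⟩

theorem rep_ball {e : ℕ} (h : ∀ t, ‖t‖ = 1 → 2 ^ 128 * ‖f t‖ ≤ e) : (ball e).Rep ε f :=
  fun _ => ⟨_, fun _ => 0, P.rep_zero, fun _ _ => rfl, fun t ht => by
    simpa [ball] using h t ht⟩

theorem rep_cst (a b : SM) : (cst a b).Rep ε fun _ => (a.val + I * b.val) / 2 ^ 128 :=
  fun _ => ⟨_, fun _ => 0, P.rep_cst a b, fun _ _ => rfl, fun t _ => by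
    rw [mul_div_cancel₀ _ (by norm_num)]; simp⟩

theorem rep_nat (n : ℕ) : (nat n).Rep ε fun _ => n / 2 ^ 128 :=
  (rep_cst _ _).congr (by simp [SM.val])

theorem rep_one : one.Rep ε fun _ => 1 := (rep_nat _).congr (by norm_num)

theorem rep_rat (p q : ℕ) : (rat p q).Rep ε fun _ => p / q := by
  refine (rep_nat _).wid fun _ _ t _ => ?_
  rcases Nat.eq_zero_or_pos q with rfl | hq
  · rw [show ∀ x, Nat.div x 0 = 0 from Nat.div_zero]; simp
  have e : Nat.div (Nat.shiftLeft p 128) q = p * 2 ^ 128 / q := by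
    rw [show Nat.shiftLeft p 128 = p * 2 ^ 128 from Nat.shiftLeft_eq _ _]; rfl
  have h1 := Nat.div_add_mod (p * 2 ^ 128) q
  have h2 : ((p * 2 ^ 128 % q : ℕ) : ℝ) ≤ q := by exact_mod_cast (Nat.mod_lt _ hq).le
  have h3 : (q : ℂ) ≠ 0 := by exact_mod_cast hq.ne'
  have h4 : (q : ℂ) * (p * 2 ^ 128 / q : ℕ) + (p * 2 ^ 128 % q : ℕ) = p * 2 ^ 128 := by
    exact_mod_cast congrArg (Nat.cast : ℕ → ℂ) h1
  rw [← norm_sc, e, show (2 : ℂ) ^ 128 * (p / q - (p * 2 ^ 128 / q : ℕ) / 2 ^ 128) =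
    (p * 2 ^ 128 % q : ℕ) / q by field_simp; linear_combination -h4, norm_div, Complex.norm_natCast,
    Complex.norm_natCast, Nat.cast_one]
  exact div_le_one_of_le₀ h2 (by positivity)

theorem Rep.ent (h : A.Rep ε f) (ok : A.ok = true) (ho : Nat.add A.a.o (lo0 A.l) = 0) :
    ∃ g, Differentiable ℂ g ∧ ∀ t : ℂ, ‖t‖ = 1 → 2 ^ 128 * ‖f t - g t‖ ≤ A.e := by
  obtain ⟨Φ, F, h1, h2, h3⟩ := h ok
  rw [Nat.add_eq] at ho
  obtain ⟨u, u1, u2⟩ := h1.ent (by omega)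
  obtain ⟨v, v1, v2⟩ := h2.ent (by omega)
  refine ⟨fun t => (u t + v t) / 2 ^ 128, by fun_prop, fun t ht => ?_⟩
  rw [← norm_sc, mul_sub, mul_div_cancel₀ _ (by norm_num), ← u2 t ht, ← v2 t ht]
  exact h3 t ht

end AM

end Pool.Agent.MP_c434f6_gt.H16

end

section

/-! Polynomials, inverses, `exp`, `Ein`, `log` and data for the affine models: definitions. -/

open Complex

namespace Pool.Agent.MP_c434f6_gt.H16

/-- `z₀ + u (z₁ + u (z₂ + ⋯))` -/
noncomputable def ev : List ℂ → ℂ → ℂ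
  | [], _ => 0
  | z :: l, u => z + u * ev l u

/-- the derivative of `ev` -/
noncomputable def dv : List ℂ → ℂ → ℂ
  | [], _ => 0
  | _ :: l, u => ev l u + u * dv l u

/-- `[f j, f (j + 1), …]`, of length `n` -/
noncomputable def tb {α : Type} (f : ℕ → α) (n : ℕ) : ℕ → List α :=
  Nat.rec (motive := fun _ => ℕ → List α) (fun _ => []) (fun _ ih j => f j :: ih (Nat.succ j)) n

noncomputable def mp {α β : Type} (f : α → β) (l : List α) : List β :=
  List.rec [] (fun a _ ih => f a :: ih) l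

/-- `2 m + 1` stands for `m` and `2 m` for `-m` -/
def dec (n : ℕ) : SM := ⟨Nat.beq (Nat.land n 1) 1, Nat.shiftRight n 1⟩

noncomputable def ofInt (a : ℤ) (k : ℕ) : SM :=
  Int.rec (fun n => ⟨true, Nat.shiftLeft n k⟩) (fun n => ⟨false, Nat.shiftLeft (Nat.succ n) k⟩) a

/-- an affine complex number: the constant term, then the coefficients of `ε 0, ε 1, …` -/
abbrev D := List (ℕ × ℕ)

noncomputable def gv (x : ℕ × ℕ) : ℂ := (dec x.1).val + I * (dec x.2).val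

noncomputable def lv : D → (ℕ → ℝ) → ℂ
  | [], _ => 0
  | x :: l, ε => ε 0 * gv x + lv l fun n => ε (n + 1)

noncomputable def dval (ε : ℕ → ℝ) : D → ℂ
  | [] => 0
  | x :: l => (gv x + lv l ε) / 2 ^ 128

noncomputable def D.ng (d : D) : D := mp (fun x => (Nat.xor x.1 1, Nat.xor x.2 1)) d
noncomputable def D.nc (d : D) : D := mp (fun x => (Nat.xor x.1 1, x.2)) d
noncomputable def D.cj (d : D) : D := mp (fun x => (x.1, Nat.xor x.2 1)) d

noncomputable def lre (l : List P) : ℕ := List.rec 0 (fun p _ ih => Nat.add p.re.m ih) l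
noncomputable def lsc (l : List P) : ℕ :=
  List.rec 0 (fun p _ ih => Nat.add (Nat.add p.o (Nat.pred p.L)) ih) l

namespace AM

def W0 : Win := ⟨0, 1, 0, 1⟩
def scP (x : ℕ × ℕ) : P := P.cst (dec x.1) (dec x.2)
noncomputable def sc (d : D) : AM := List.rec (ball 0) (fun x l _ => ⟨scP x, mp scP l, 0, true⟩) d
/-- the number `(a.1 + a.2 i) 2 ^ k / 2 ^ 128` -/
noncomputable def gi (k : ℕ) (a : ℤ × ℤ) : AM := cst (ofInt a.1 k) (ofInt a.2 k)
/-- the number `σ ε i / 2 ^ 128` -/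
noncomputable def un (i σ : ℕ) : AM :=
  ⟨P.zero, Nat.rec [P.cst ⟨true, σ⟩ ⟨true, 0⟩] (fun _ ih => P.zero :: ih) i, 0, true⟩

/-- the same model, with the norms recomputed -/
noncomputable def tg (A : AM) : AM := mul ⟨999, 999, 999, 999⟩ A one

noncomputable def tl (cs : List AM) : AM := List.rec (ball 0) (fun c _ ih => wid ih c.nrm c.ok) cs
noncomputable def hstep (W : Win) (U c x : AM) : AM := fc x (add c (mul W U x))
noncomputable def hor (W : Win) (U : AM) (cs : List AM) : ℕ → AM :=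
  List.rec (motive := fun _ => ℕ → AM) (fun _ => ball 0)
    (fun c cs ih n => Nat.rec (tl (c :: cs)) (fun n _ => hstep W U c (ih n)) n) cs
noncomputable def le1 (U : AM) : Bool :=
  an U.ok (Nat.ble U.nrm 340282366920938463463374607431768211456)
/-- Horner scheme, cut after `n` terms -/
noncomputable def horn (W : Win) (U : AM) (cs : List AM) (n : ℕ) : AM :=
  fc U (wid (hor W U cs n) 0 (le1 U))
/-- the number of terms that matter -/
noncomputable def pick (u : ℕ) (cs : List AM) : ℕ → ℕ :=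
  List.rec (motive := fun _ => ℕ → ℕ) (fun _ => 0)
    (fun c cs ih x => Bool.rec (Nat.succ (ih (Nat.shiftRight (Nat.mul x u) 128))) 0
      (Nat.beq (Nat.shiftRight (Nat.mul x (tl (c :: cs)).e) 144) 0)) cs
/-- `u * ev cs u` -/
noncomputable def qv (W : Win) (U : AM) (cs : List AM) : AM :=
  mul W U (horn W U cs (pick U.nrm cs U.nrm))
/-- `ev cs t⁻¹` and `dv cs t⁻¹` -/
noncomputable def ser (cs : List AM) : AM × AM :=
  List.rec (ball 0, ball 0) (fun c _ ih => (add c (mulS 1 ih.1), add ih.1 (mulS 1 ih.2))) cs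

def rc2 (p : P) (N : ℕ) : AM := cst ⟨p.re.s, Nat.div (Nat.shiftLeft p.re.m 256) N⟩
  (SM.neg ⟨p.im.s, Nat.div (Nat.shiftLeft p.im.m 256) N⟩)
/-- a guess for the inverse of a number -/
def rcp (A : AM) : AM := rc2 A.a (Nat.add (Nat.mul A.a.re.m A.a.re.m) (Nat.mul A.a.im.m A.a.im.m))
noncomputable def nw2 (Z : AM) : AM := fc Z (strip Z)
noncomputable def nw (W : Win) (X Y : AM) : AM := nw2 (mul W Y (sub (add one one) (mul W X Y)))
noncomputable def inv2 (Y E : AM) : AM :=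
  wid Y (Nat.succ (Nat.shiftRight (Nat.mul Y.nrm E.nrm) 127))
    (an E.ok (Nat.ble E.nrm 170141183460469231731687303715884105728))
noncomputable def inv1 (W : Win) (X Y : AM) : AM := inv2 Y (tg (sub one (mul W X Y)))
/-- the inverse of `X`, by `n` Newton steps from the guess `rcp A` -/
noncomputable def inv (W : Win) (X A : AM) (n : ℕ) : AM :=
  inv1 W X (Nat.rec (rcp A) (fun _ ih => nw W X ih) n)

noncomputable def ps3 (W : Win) (g : ℕ → ℕ) (X : AM) (p n : ℕ) : AM :=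
  wid (horn W (mul W X (rat 8 p))
      (tb (fun j => rat (Nat.pow p j) (Nat.shiftLeft (g j) (Nat.mul 3 j))) n 0) n)
    (Nat.succ (Nat.div (Nat.shiftLeft (Nat.pow p n) 129)
      (Nat.shiftLeft (Nat.factorial n) (Nat.mul 3 n)))) (Nat.ble p (Nat.mul 4 n))
noncomputable def ps2 (W : Win) (g : ℕ → ℕ) (X : AM) (p : ℕ) : AM :=
  ps3 W g X p (Nat.add (Nat.add (Nat.shiftRight p 1) 20) (mn 12 (Nat.mul 2 p)))
/-- `∑ x ^ j / g j`, with the tail `2 ‖x‖ ^ n / n !` -/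
noncomputable def ps1 (W : Win) (g : ℕ → ℕ) (X : AM) : AM :=
  fc X (ps2 W g X (Nat.add (Nat.shiftRight X.nrm 125) 2))
noncomputable def ps (W : Win) (g : ℕ → ℕ) (X : AM) : AM := ps1 W g (tg X)
noncomputable def exp (W : Win) (X : AM) : AM := ps W Nat.factorial X
noncomputable def ein (W : Win) (X : AM) : AM := ps W (fun j => Nat.mul j (Nat.factorial j)) X
noncomputable def lg1 (X : AM) : AM :=
  wid X (Nat.succ (Nat.shiftRight (Nat.mul X.nrm X.nrm) 128))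
    (Nat.ble X.nrm 170141183460469231731687303715884105728)
/-- `log (1 + x)` -/
noncomputable def lg (X : AM) : AM := lg1 (tg X)

noncomputable def sm (f : Fin 8 → AM) : AM :=
  add (add (add (add (add (add (add (f 0) (f 1)) (f 2)) (f 3)) (f 4)) (f 5)) (f 6)) (f 7)

/-- the norm is at most `n / 2 ^ 128` -/
noncomputable def nle (A : AM) (n : ℕ) : Bool := an (tg A).ok (Nat.ble (tg A).nrm n)
/-- `A` is a number with real part at most `n / 2 ^ 128` -/
noncomputable def rle (A : AM) (n : ℕ) : Bool :=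
  an A.ok (an (Nat.beq (lsc (A.a :: A.l)) 0) (Nat.ble (Nat.add (lre (A.a :: A.l)) A.e) n))
noncomputable def ele2 (R : AM) (n : ℕ) : Bool :=
  an R.ok (an (Nat.beq (Nat.add R.a.o (lo0 R.l)) 0) (Nat.ble R.e n))
/-- `A` is within `n / 2 ^ 128` of an entire function -/
noncomputable def ele (A : AM) (n : ℕ) : Bool := ele2 (mul ⟨0, 999, 0, 999⟩ A one) n
/-- distance of `u * ev cs u` to `hq l u` -/
noncomputable def odif (l : List (ℤ × ℤ)) : List AM → AM :=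
  List.rec (motive := fun _ => List AM → AM) (fun cs => tl cs)
    (fun a _ ih cs => List.rec (tl [gi 64 a, ih []])
      (fun c cs _ => tl [tg (sub c (gi 64 a)), ih cs]) cs) l

/-- the models `cs` enclose the numbers `zs` -/
def CR (ε : ℕ → ℝ) (cs : List AM) (zs : List ℂ) : Prop :=
  List.Forall₂ (fun A z => A.Rep ε fun _ => z) cs zs

end AM

end Pool.Agent.MP_c434f6_gt.H16

end
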