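import Pool.Agent.MP_c434f6_gt.G4.Prim
import Pool.Agent.Lib.CupDegree.Basic
import Pool.Agent.MP_c434f6_gt.G4.Ana

section

/-! Rational tables that certify the geometry and the contraction near given centres. -/

open Set Filter Topology Metric Complex
open scoped Real ComplexConjugate

namespace Pool.Agent.MP_c434f6_gt.H30

/-- Gaussian rational as a complex number. -/
def gq (x y : ℚ) : ℂ := ⟨x, y⟩

lemma le_norm_gq {x y t : ℚ} (h : t ^ 2 ≤ x ^ 2 + y ^ 2) : (t : ℝ) ≤ ‖gq x y‖ := by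
  refine le_trans (le_abs_self _) (abs_le_of_sq_le_sq' ?_ (norm_nonneg _)).2 |>.trans le_rfl
  rw [sq_abs, Complex.sq_norm, normSq_apply]
  simp only [gq]
  have : ((t ^ 2 : ℚ) : ℝ) ≤ ((x ^ 2 + y ^ 2 : ℚ) : ℝ) := by exact_mod_cast h
  push_cast at this
  linarith

lemma norm_gq_le {x y t : ℚ} (ht : 0 ≤ t) (h : x ^ 2 + y ^ 2 ≤ t ^ 2) : ‖gq x y‖ ≤ t := by
  refine (abs_le_of_sq_le_sq' ?_ (by exact_mod_cast ht)).2
  rw [Complex.sq_norm, normSq_apply]
  simp only [gq]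
  have : ((x ^ 2 + y ^ 2 : ℚ) : ℝ) ≤ ((t ^ 2 : ℚ) : ℝ) := by exact_mod_cast h
  push_cast at this
  linarith

lemma gq_sub (x y x' y' : ℚ) : gq x y - gq x' y' = gq (x - x') (y - y') := by
  apply Complex.ext <;> simp [gq]

lemma gq_add (x y x' y' : ℚ) : gq x y + gq x' y' = gq (x + x') (y + y') := by
  apply Complex.ext <;> simp [gq]

lemma gq_sq_div (x y u v : ℚ) : gq x y ^ 2 / gq u v =
    gq (((x ^ 2 - y ^ 2) * u + 2 * x * y * v) / (u ^ 2 + v ^ 2))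
      ((2 * x * y * u - (x ^ 2 - y ^ 2) * v) / (u ^ 2 + v ^ 2)) := by
  apply Complex.ext <;> simp [gq, div_re, div_im, normSq_apply, sq] <;> ring

lemma exp_le_inv {x : ℝ} (h : x < 1) : Real.exp x ≤ (1 - x)⁻¹ := by
  rw [le_inv_comm₀ (Real.exp_pos x) (by linarith), ← Real.exp_neg]
  linarith [Real.add_one_le_exp (-x)]

lemma exp_le_pow {x : ℝ} (h : x < 64) : Real.exp x ≤ (1 - x / 64)⁻¹ ^ 64 := by
  have : Real.exp x = Real.exp (x / 64) ^ 64 := by
    rw [← Real.exp_nat_mul]; congr 1; push_cast; ring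
  rw [this]
  exact pow_le_pow_left₀ (Real.exp_pos _).le (exp_le_inv (by linarith)) _

/-- The tables. -/
structure QTab (ι : Type) where
  pr : ι → ι
  cx : ι → ℚ
  cy : ι → ℚ
  kx : ι → ℚ
  ky : ι → ℚ
  μ : ℚ
  r : ι → ℚ
  ρ : ι → ℚ
  ka : ι → ℚ
  kb : ι → ℚ
  D : ι → ι → ℚ
  w : Bool → ι → ℚ
  ch : Bool → ι → ℚ
  L : ℚ
  η : ℚ
  wx : ι → ℚ
  wy : ι → ℚ

namespace QTab

variable {ι : Type} [Fintype ι] [DecidableEq ι] (T : QTab ι)

def Near (c κ : ι → ℂ) : Prop :=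
  ∀ k, ‖c k - gq (T.cx k) (T.cy k)‖ ≤ T.μ ∧ ‖κ k - gq (T.kx k) (T.ky k)‖ ≤ T.μ

def dat (ℓ : ι → ι → ℂ) (c κ : ι → ℂ) : Dat2 ι where
  pr := T.pr
  c := c
  κ := κ
  r := fun k => T.r k
  ρ := fun k => T.ρ k
  w0 := fun k => gq (T.wx k) (T.wy k)
  ℓ := ℓ

def ex (j : Bool) (k : ι) : ℚ :=
  (if j then T.cy k - T.cy (T.pr k) else T.cy (T.pr k) - T.cy k) / 2 + T.μ

def Rb (k : ι) : ℚ := T.kb k ^ 2 / T.r k

def fac (j : Bool) (k : ι) : ℚ :=
  T.kb k / T.r k * T.ch j k * (1 - T.r k / 2)⁻¹ * (1 - T.Rb k / 2)⁻¹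

def Chk : Prop :=
  (0 ≤ T.μ ∧ 0 ≤ T.L ∧ T.L < 1 ∧ 0 ≤ T.η) ∧
  (∀ k, T.pr (T.pr k) = k ∧ 0 < T.r k ∧ T.r k < T.ρ k ∧ T.ρ k < T.ka k ∧ T.μ ≤ T.kb k ∧
    (T.ka k + T.μ) ^ 2 ≤ T.kx k ^ 2 + T.ky k ^ 2 ∧ T.kx k ^ 2 + T.ky k ^ 2 ≤ (T.kb k - T.μ) ^ 2 ∧
    T.r k < 2 ∧ T.Rb k < 2 ∧ T.r (T.pr k) < T.ka k ^ 2 / T.r k) ∧
  (∀ k l, l ≠ k → (T.D k l + 2 * T.μ) ^ 2 ≤ (T.cx k - T.cx l) ^ 2 + (T.cy k - T.cy l) ^ 2 ∧
    T.kb k + T.kb l < T.D k l ∧ T.Rb (T.pr k) + T.ρ l < T.D k l) ∧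
  ∀ j k, 0 < T.w j k ∧ T.ex j k < 64 ∧ (1 - T.ex j k / 64)⁻¹ ^ 64 ≤ T.ch j k ∧
    T.fac j k ≤ T.η * T.w j k ∧
    T.fac j k * (∑ m ∈ Finset.univ.erase (T.pr k),
        T.w j m * T.r m / (T.D (T.pr k) m - T.Rb k - T.r m)
      + T.Rb k / 2 * (T.w j (T.pr k) * T.r (T.pr k) / (T.ka k ^ 2 / T.r k - T.r (T.pr k))))
      ≤ T.L * T.w j k

instance : Decidable T.Chk := by unfold Chk; infer_instance

def ChkN (k : ι) : Prop :=
  4 * T.kb k ≤ 9 * T.ρ k ∧ ∀ l,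
    (3 / 2 * T.ρ l + 2 * T.μ) ^ 2
      ≤ (T.cx k + T.wx k - T.cx l) ^ 2 + (T.cy k + T.wy k - T.cy l) ^ 2 ∧
    (3 / 2 * T.ρ l + 5 * T.μ) ^ 2
      ≤ (T.cx (T.pr k) - ((T.kx k ^ 2 - T.ky k ^ 2) * T.wx k + 2 * T.kx k * T.ky k * T.wy k)
          / (T.wx k ^ 2 + T.wy k ^ 2) - T.cx l) ^ 2
        + (T.cy (T.pr k) - (2 * T.kx k * T.ky k * T.wx k - (T.kx k ^ 2 - T.ky k ^ 2) * T.wy k)
          / (T.wx k ^ 2 + T.wy k ^ 2) - T.cy l) ^ 2

instance (k : ι) : Decidable (T.ChkN k) := by unfold ChkN; infer_instance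

variable {T} {ℓ : ι → ι → ℂ} {c κ : ι → ℂ}

lemma Chk.ka_le (h : T.Chk) (n : T.Near c κ) (k : ι) : (T.ka k : ℝ) ≤ ‖κ k‖ := by
  have h1 := le_norm_gq (h.2.1 k).2.2.2.2.2.1
  have h2 := norm_sub_norm_le (gq (T.kx k) (T.ky k)) (κ k)
  rw [norm_sub_rev] at h2
  have h3 := (n k).2
  push_cast at h1
  linarith

lemma Chk.le_kb (h : T.Chk) (n : T.Near c κ) (k : ι) : ‖κ k‖ ≤ T.kb k := by
  have h1 := norm_gq_le (sub_nonneg.2 (h.2.1 k).2.2.2.2.1) (h.2.1 k).2.2.2.2.2.2.1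
  have h2 := norm_sub_norm_le (κ k) (gq (T.kx k) (T.ky k))
  have h3 := (n k).2
  push_cast at h1
  linarith

lemma Chk.D_le (h : T.Chk) (n : T.Near c κ) {k l : ι} (hl : l ≠ k) :
    (T.D k l : ℝ) ≤ ‖c k - c l‖ := by
  have h1 := le_norm_gq (h.2.2.1 k l hl).1
  rw [← gq_sub] at h1
  have h2 : gq (T.cx k) (T.cy k) - gq (T.cx l) (T.cy l) = (c k - c l)
      - (c k - gq (T.cx k) (T.cy k)) + (c l - gq (T.cx l) (T.cy l)) := by ring
  rw [h2] at h1
  have h3 := norm_add_le ((c k - c l) - (c k - gq (T.cx k) (T.cy k))) (c l - gq (T.cx l) (T.cy l))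
  have h4 := norm_sub_le (c k - c l) (c k - gq (T.cx k) (T.cy k))
  have h5 := (n k).1
  have h6 := (n l).1
  push_cast at h1
  linarith

lemma Chk.ch_le (h : T.Chk) (n : T.Near c κ) (j : Bool) (k : ι) :
    ‖exp (aa j * (c (T.pr k) - c k))‖ ≤ T.ch j k := by
  obtain ⟨-, h1, h2, -⟩ := h.2.2.2 j k
  have h3 := abs_le.1 ((abs_im_le_norm _).trans (n k).1)
  have h4 := abs_le.1 ((abs_im_le_norm _).trans (n (T.pr k)).1)
  simp only [sub_im, gq] at h3 h4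
  have h5 : (aa j * (c (T.pr k) - c k)).re ≤ T.ex j k := by
    cases j <;> simp [aa, ex] <;> linarith [h3.1, h3.2, h4.1, h4.2]
  rw [norm_exp]
  refine (Real.exp_le_exp.2 h5).trans ((exp_le_pow (by exact_mod_cast h1)).trans ?_)
  exact_mod_cast h2

lemma Chk.Rb_le (h : T.Chk) (n : T.Near c κ) (k : ι) : ‖κ k‖ ^ 2 / T.r k ≤ T.Rb k := by
  have h0 : (0 : ℝ) < T.r k := by exact_mod_cast (h.2.1 k).2.1
  have := h.le_kb n k
  simp only [Rb]
  push_cast
  gcongr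

theorem Chk.geo2 (h : T.Chk) (n : T.Near c κ) (hκ : ∀ k, κ (T.pr k) = -κ k) :
    (T.dat ℓ c κ).Geo2 := by
  have r0 : ∀ k, (0 : ℝ) < T.r k := fun k => by exact_mod_cast (h.2.1 k).2.1
  have rρ : ∀ k, (T.r k : ℝ) < T.ρ k := fun k => by exact_mod_cast (h.2.1 k).2.2.1
  have ρκ : ∀ k, (T.ρ k : ℝ) < ‖κ k‖ := fun k =>
    lt_of_lt_of_le (by exact_mod_cast (h.2.1 k).2.2.2.1) (h.ka_le n k)
  have sep : ∀ k l, l ≠ k → ‖κ k‖ ^ 2 / T.r (T.pr k) + T.ρ l < ‖c k - c l‖ := fun k l hl => by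
    have h1 := h.Rb_le n (T.pr k)
    rw [hκ, norm_neg] at h1
    have h2 : (T.Rb (T.pr k) : ℝ) + T.ρ l < T.D k l := by exact_mod_cast (h.2.2.1 k l hl).2.2
    linarith [h.D_le n hl]
  refine ⟨⟨fun k => (h.2.1 k).1, hκ, r0, fun k => (rρ k).trans (ρκ k), fun k l hl => ?_⟩, rρ, ρκ,
    fun k l hl => ?_, fun k l hl => ?_⟩
  · have := sep k l hl
    have := rρ l
    simp only [Dat.R, dat]
    linarith
  · have h2 : (T.kb k : ℝ) + T.kb l < T.D k l := by exact_mod_cast (h.2.2.1 k l hl).2.1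
    simp only [dat]
    linarith [h.D_le n hl, h.le_kb n k, h.le_kb n l]
  · have h1 := sep k l hl
    have h2 : ‖κ k‖ ^ 2 / T.ρ (T.pr k) ≤ ‖κ k‖ ^ 2 / T.r (T.pr k) :=
      div_le_div_of_nonneg_left (by positivity) (r0 _) (rρ _).le
    simp only [dat]
    linarith

lemma norm_aa (j : Bool) : ‖aa j‖ = 1 / 2 := by cases j <;> simp [aa]

lemma norm_exp_aa (j : Bool) {z : ℂ} {t : ℝ} (h : ‖z‖ ≤ t) (ht : t < 2) :
    max 1 (Real.exp (aa j * z).re) ≤ (1 - t / 2)⁻¹ := by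
  have h0 : 0 ≤ t := (norm_nonneg _).trans h
  have h1 : (aa j * z).re ≤ t / 2 := by
    refine (re_le_norm _).trans ?_
    rw [norm_mul, norm_aa]; linarith
  refine le_trans ?_ (exp_le_inv (x := t / 2) (by linarith))
  exact max_le (Real.one_le_exp (by linarith)) (Real.exp_le_exp.2 h1)

theorem Chk.con (h : T.Chk) (n : T.Near c κ) (hκ : ∀ k, κ (T.pr k) = -κ k) (j : Bool) :
    (T.dat ℓ c κ).Con (aa j) (fun k => T.w j k) T.L T.η := by
  have G := h.geo2 (ℓ := ℓ) n hκ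
  have r0 : ∀ k, (0 : ℝ) < T.r k := G.r0
  have w0 : ∀ k, (0 : ℝ) < T.w j k := fun k => by exact_mod_cast (h.2.2.2 j k).1
  have key : ∀ l, ∀ ζ ∈ sphere (c l) (T.r l), ∃ A : ℝ, 0 ≤ A ∧ A * (1 - (T.Rb l : ℝ) / 2)⁻¹ ≤ T.fac j l ∧
      ∀ x : ℂ, ‖κ l / (ζ - c l) * exp (-(aa j * ζ))‖ * ‖exp (aa j * c (T.pr l)) * x‖ ≤ A * ‖x‖ := by
    intro l ζ hζ
    rw [mem_sphere, dist_eq_norm] at hζ
    have h2 : (T.r l : ℝ) < 2 := by exact_mod_cast (h.2.1 l).2.2.2.2.2.2.2.1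
    refine ⟨T.kb l / T.r l * T.ch j l * (1 - (T.r l : ℝ) / 2)⁻¹, ?_, ?_, fun x => ?_⟩
    · have := (norm_nonneg _).trans (h.le_kb n l)
      have := (norm_nonneg _).trans (h.ch_le n j l)
      have := r0 l
      have : 0 < 1 - (T.r l : ℝ) / 2 := by linarith
      positivity
    · simp only [fac]; push_cast; exact le_rfl
    · have e : exp (-(aa j * ζ)) * exp (aa j * c (T.pr l)) =
          exp (aa j * (c (T.pr l) - c l)) * exp (aa j * -(ζ - c l)) := by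
        rw [← exp_add, ← exp_add]; congr 1; ring
      have h3 : ‖exp (aa j * -(ζ - c l))‖ ≤ (1 - (T.r l : ℝ) / 2)⁻¹ := by
        rw [norm_exp]
        exact (le_max_right _ _).trans (norm_exp_aa j (by rw [norm_neg, hζ]) h2)
      calc _ = ‖κ l‖ / T.r l * ‖exp (aa j * (c (T.pr l) - c l))‖ * ‖exp (aa j * -(ζ - c l))‖
            * ‖x‖ := by
            rw [← hζ, ← norm_div, ← norm_mul, ← norm_mul, ← norm_mul, ← norm_mul]
            congr 1
            linear_combination κ l / (ζ - c l) * x * e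
        _ ≤ _ := by
            have := h.le_kb n l
            have := h.ch_le n j l
            have := r0 l
            have := (norm_nonneg _).trans (h.le_kb n l)
            have := (norm_nonneg _).trans (h.ch_le n j l)
            gcongr
  have hγ : ∀ l, ∀ ζ ∈ sphere (c l) (T.r l), ∃ y : ℂ, (T.dat ℓ c κ).γ l ζ = c (T.pr l) + y ∧
      ‖y‖ ≤ T.Rb l ∧ (T.ka l : ℝ) ^ 2 / T.r l ≤ ‖y‖ := by
    intro l ζ hζ
    rw [mem_sphere, dist_eq_norm] at hζ
    refine ⟨-(κ l ^ 2 / (ζ - c l)), by simp [Dat.γ, dat, sub_eq_add_neg], ?_, ?_⟩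
    · rw [norm_neg, norm_div, norm_pow, hζ]; exact h.Rb_le n l
    · rw [norm_neg, norm_div, norm_pow, hζ]
      have h1 := h.ka_le n l
      have h2 : (0 : ℝ) ≤ T.ka l := by
        have := (h.2.1 l).2.1.trans ((h.2.1 l).2.2.1.trans (h.2.1 l).2.2.2.1)
        exact_mod_cast this.le
      have := r0 l
      gcongr
  have hR : ∀ l, (T.Rb l : ℝ) < 2 := fun l => by exact_mod_cast (h.2.1 l).2.2.2.2.2.2.2.2.1
  refine ⟨r0, w0, by exact_mod_cast h.1.2.1, by exact_mod_cast h.1.2.2.1,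
    by exact_mod_cast h.1.2.2.2, G.out, fun l ζ hζ => ?_, fun l ζ hζ => ?_⟩
  · obtain ⟨A, A0, hA, k1⟩ := key l ζ hζ
    obtain ⟨y, hy, y1, y2⟩ := hγ l ζ hζ
    have hm := norm_exp_aa j y1 (hR l)
    have e1 : exp (aa j * (c (T.pr l) + y)) = exp (aa j * c (T.pr l)) * exp (aa j * y) := by
      rw [← exp_add, mul_add]
    have e2 : exp (aa j * (c (T.pr l) + y)) - exp (aa j * c (T.pr l)) =
        exp (aa j * c (T.pr l)) * (exp (aa j * y) - 1) := by rw [e1]; ring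
    have b1 : ‖exp (aa j * y)‖ ≤ (1 - (T.Rb l : ℝ) / 2)⁻¹ := by
      rw [norm_exp]; exact (le_max_right _ _).trans hm
    have R0 : (0 : ℝ) ≤ T.Rb l := (norm_nonneg _).trans y1
    have b2 : ‖exp (aa j * y) - 1‖ ≤ (1 - (T.Rb l : ℝ) / 2)⁻¹ * (T.Rb l / 2) := by
      refine (norm_exp_sub_one_le _).trans ?_
      rw [mul_comm, norm_mul, norm_aa]
      exact mul_le_mul hm (by linarith) (by positivity) (le_trans (by positivity) b1)
    have s1 : ∀ m ∈ Finset.univ.erase (T.pr l),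
        (T.w j m : ℝ) * T.r m / (‖c (T.pr l) + y - c m‖ - T.r m) ≤
          T.w j m * T.r m / (T.D (T.pr l) m - T.Rb l - T.r m) ∧
        (0 : ℝ) < T.D (T.pr l) m - T.Rb l - T.r m := fun m hm => by
      have hm' := Finset.ne_of_mem_erase hm
      have h1 := h.D_le n hm'
      have h2 := (h.2.2.1 _ _ hm').2.2
      rw [(h.2.1 l).1] at h2
      have h3 : (T.Rb l : ℝ) + T.ρ m < T.D (T.pr l) m := by exact_mod_cast h2
      have h4 : (T.r m : ℝ) < T.ρ m := G.rρ m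
      have h5 : ‖c (T.pr l) - c m‖ ≤ ‖c (T.pr l) + y - c m‖ + ‖y‖ := by
        have := norm_sub_le (c (T.pr l) + y - c m) y
        rwa [show c (T.pr l) + y - c m - y = c (T.pr l) - c m by ring] at this
      have := w0 m
      have := r0 m
      refine ⟨div_le_div_of_nonneg_left (by positivity) (by linarith) (by linarith), by linarith⟩
    have p2 : (0 : ℝ) < T.ka l ^ 2 / T.r l - T.r (T.pr l) := by
      have : (T.r (T.pr l) : ℝ) < T.ka l ^ 2 / T.r l := by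
        exact_mod_cast (h.2.1 l).2.2.2.2.2.2.2.2.2
      linarith
    have s2 : (T.w j (T.pr l) : ℝ) * T.r (T.pr l) / (‖y‖ - T.r (T.pr l)) ≤
        T.w j (T.pr l) * T.r (T.pr l) / (T.ka l ^ 2 / T.r l - T.r (T.pr l)) := by
      have := w0 (T.pr l)
      have := r0 (T.pr l)
      exact div_le_div_of_nonneg_left (by positivity) p2 (by linarith)
    have fin := (h.2.2.2 j l).2.2.2.2
    have fin' := (Rat.cast_le (K := ℝ)).2 fin
    push_cast at fin'
    refine le_trans ?_ fin'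
    set S1 : ℝ := ∑ m ∈ Finset.univ.erase (T.pr l),
      (T.w j m : ℝ) * T.r m / (T.D (T.pr l) m - T.Rb l - T.r m) with hS1
    set S2 : ℝ := (T.w j (T.pr l) : ℝ) * T.r (T.pr l) / (T.ka l ^ 2 / T.r l - T.r (T.pr l))
      with hS2
    have S10 : 0 ≤ S1 := Finset.sum_nonneg fun m hm => by
      have := w0 m
      have := r0 m
      have := (s1 m hm).2
      positivity
    have S20 : 0 ≤ S2 := by
      have := w0 (T.pr l)
      have := r0 (T.pr l)
      positivity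
    have t1 := Finset.sum_le_sum fun m hm => (s1 m hm).1
    have i0 : 0 ≤ (1 - (T.Rb l : ℝ) / 2)⁻¹ := (norm_nonneg _).trans b1
    rw [hy]
    simp only [dat, add_sub_cancel_left]
    rw [e2, e1]
    have u1 := k1 (exp (aa j * y))
    have u2 := k1 (exp (aa j * y) - 1)
    calc _ ≤ ‖κ l / (ζ - c l) * exp (-(aa j * ζ))‖ * (‖exp (aa j * c (T.pr l)) * exp (aa j * y)‖ * S1
          + ‖exp (aa j * c (T.pr l)) * (exp (aa j * y) - 1)‖ * S2) := by gcongr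
      _ ≤ A * ‖exp (aa j * y)‖ * S1 + A * ‖exp (aa j * y) - 1‖ * S2 := by
          rw [mul_add, ← mul_assoc, ← mul_assoc]; gcongr
      _ ≤ A * (1 - (T.Rb l : ℝ) / 2)⁻¹ * S1 + A * ((1 - (T.Rb l : ℝ) / 2)⁻¹ * (T.Rb l / 2)) * S2 := by
          gcongr
      _ = A * (1 - (T.Rb l : ℝ) / 2)⁻¹ * (S1 + T.Rb l / 2 * S2) := by ring
      _ ≤ _ := by gcongr
  · obtain ⟨A, A0, hA, k1⟩ := key l ζ hζ
    obtain ⟨y, hy, y1, -⟩ := hγ l ζ hζ
    have b1 : ‖exp (aa j * y)‖ ≤ (1 - (T.Rb l : ℝ) / 2)⁻¹ := by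
      rw [norm_exp]; exact (le_max_right _ _).trans (norm_exp_aa j y1 (hR l))
    have fin' := (Rat.cast_le (K := ℝ)).2 (h.2.2.2 j l).2.2.2.1
    push_cast at fin'
    rw [hy, norm_mul, mul_add, exp_add]
    exact (k1 _).trans ((mul_le_mul_of_nonneg_left b1 A0).trans (hA.trans fin'))

theorem Chk.neck (h : T.Chk) (n : T.Near c κ) {k : ι} (hk : T.ChkN k) (l : ι) :
    3 * (T.dat ℓ c κ).ρ l ≤ 2 * ‖(T.dat ℓ c κ).z1 k - c l‖ ∧
      3 * (T.dat ℓ c κ).ρ l ≤ 2 * ‖(T.dat ℓ c κ).z2 k - c l‖ := by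
  have μ0 : (0 : ℝ) ≤ T.μ := by exact_mod_cast h.1.1
  have ρ0 : (0 : ℝ) < T.ρ k := by exact_mod_cast (h.2.1 k).2.1.trans (h.2.1 k).2.2.1
  have hw : 3 / 2 * (T.ρ k : ℝ) ≤ ‖gq (T.wx k) (T.wy k)‖ := by
    have := le_norm_gq (hk.2 k).1
    rw [add_sub_cancel_left, add_sub_cancel_left] at this
    push_cast at this
    linarith
  have c1 := (n k).1
  have c2 := (n l).1
  have c3 := (n (T.pr k)).1
  constructor
  · have h1 := le_norm_gq (hk.2 l).1
    rw [← gq_sub, ← gq_add] at h1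
    push_cast at h1
    have h2 := norm_add_le (c k + gq (T.wx k) (T.wy k) - c l - (c k - gq (T.cx k) (T.cy k)))
      (c l - gq (T.cx l) (T.cy l))
    have h3 := norm_sub_le (c k + gq (T.wx k) (T.wy k) - c l) (c k - gq (T.cx k) (T.cy k))
    rw [show c k + gq (T.wx k) (T.wy k) - c l - (c k - gq (T.cx k) (T.cy k))
      + (c l - gq (T.cx l) (T.cy l)) =
      gq (T.cx k) (T.cy k) + gq (T.wx k) (T.wy k) - gq (T.cx l) (T.cy l) by ring] at h2
    simp only [Dat2.z1, dat]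
    linarith
  · have h1 := le_norm_gq (hk.2 l).2
    rw [← gq_sub, ← gq_sub, ← gq_sq_div] at h1
    push_cast at h1
    set W := gq (T.wx k) (T.wy k)
    set K := gq (T.kx k) (T.ky k) with hK
    have hb : 4 * (T.kb k : ℝ) ≤ 9 * T.ρ k := by exact_mod_cast hk.1
    have k1 : ‖K‖ ≤ T.kb k := by
      have := norm_gq_le (sub_nonneg.2 (h.2.1 k).2.2.2.2.1) (h.2.1 k).2.2.2.2.2.2.1
      push_cast at this
      linarith
    have k2 : ‖κ k ^ 2 / W - K ^ 2 / W‖ ≤ 3 * T.μ := by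
      rw [← sub_div, sq_sub_sq, norm_div, norm_mul, div_le_iff₀ (by linarith)]
      have := (norm_add_le (κ k) K).trans (add_le_add (h.le_kb n k) k1)
      calc _ ≤ (T.kb k + T.kb k) * (T.μ : ℝ) := by
            have := (n k).2
            have := (norm_nonneg _).trans k1
            gcongr
        _ ≤ _ := by nlinarith
    have e : gq (T.cx (T.pr k)) (T.cy (T.pr k)) - K ^ 2 / W - gq (T.cx l) (T.cy l) =
        (c (T.pr k) - κ k ^ 2 / W - c l) - (c (T.pr k) - gq (T.cx (T.pr k)) (T.cy (T.pr k)))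
          + (c l - gq (T.cx l) (T.cy l)) + (κ k ^ 2 / W - K ^ 2 / W) := by ring
    rw [e] at h1
    have h2 := h1.trans ((norm_add_le _ _).trans (add_le_add_left ((norm_add_le _ _).trans
      (add_le_add_left (norm_sub_le _ _) _)) _))
    simp only [Dat2.z2, dat]
    linarith

end QTab

lemma gz_eq (a : ℤ × ℤ) : gz 48 a = gq (a.1 / 2 ^ 48) (a.2 / 2 ^ 48) := by
  apply Complex.ext <;> simp [gz, gq, ← ofReal_pow, div_ofReal_re, div_ofReal_im,
    show (2 : ℂ) = ((2 : ℝ) : ℂ) from rfl, -ofReal_ofNat]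

namespace Tab

/-- Rational tables from the integer tables and auxiliary bounds in units `2⁻¹⁶`. -/
def q (T : Tab) (ka : Fin 8 → ℕ) (D : Fin 8 → Fin 8 → ℕ) (ch : Bool → Fin 8 → ℕ) :
    QTab (Fin 8) where
  pr := pr8
  cx := fun k => (T.c k).1 / 2 ^ 48
  cy := fun k => (T.c k).2 / 2 ^ 48
  kx := fun k => (T.κ k).1 / 2 ^ 48
  ky := fun k => (T.κ k).2 / 2 ^ 48
  μ := 1 / 2 ^ 30
  r := fun k => T.r k / 2 ^ 16
  ρ := fun k => T.ρ k / 2 ^ 16
  ka := fun k => ka k / 2 ^ 16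
  kb := fun k => (ka k + 2) / 2 ^ 16
  D := fun k l => D k l / 2 ^ 16
  w := fun j k => T.w j k
  ch := fun j k => ch j k / 2 ^ 16
  L := T.L / 8
  η := 64
  wx := fun k => -((T.κ k).1 / 2 ^ 48)
  wy := fun k => -((T.κ k).2 / 2 ^ 48)

theorem rough (T : Tab) {ka : Fin 8 → ℕ} {D : Fin 8 → Fin 8 → ℕ} {ch : Bool → Fin 8 → ℕ}
    (h : (T.q ka D ch).Chk) (h' : ∀ k, (T.q ka D ch).ChkN k) (ℓ : Fin 8 → Fin 8 → ℂ)
    (c κ : Fin 8 → ℂ) (n : T.Near (1 / 2 ^ 30) c κ) (hκ : ∀ k, κ (pr8 k) = -κ k) :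
    T.Rough ℓ c κ := by
  have n' : (T.q ka D ch).Near c κ := fun k => by
    have := n k
    simp only [gz_eq] at this
    simpa [q] using this
  have e : (T.q ka D ch).dat ℓ c κ = T.dat ℓ c κ := by
    simp only [QTab.dat, dat, q, gz_eq]
    congr 1
    · congr 1; ext k; push_cast; rfl
    · ext k; push_cast; rfl
    · ext k; apply Complex.ext <;> simp [gq]
  refine ⟨e ▸ h.geo2 n' hκ, fun j => ?_, fun k l => e ▸ (h.neck n' (h' k) l).1,
    fun k l => e ▸ (h.neck n' (h' k) l).2⟩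
  have := h.con (ℓ := ℓ) n' hκ j
  rw [e] at this
  simpa [q] using this

end Tab

end Pool.Agent.MP_c434f6_gt.H30

end

section

/-! The rough inequalities for the two tables. -/

namespace Pool.Agent.MP_c434f6_gt.H30

theorem roughN (ℓ : Fin 8 → Fin 8 → ℂ) (c κ : Fin 8 → ℂ) (h : tabN.Near (1 / 2 ^ 30) c κ)
    (hk : ∀ k, κ (pr8 k) = -κ k) : tabN.Rough ℓ c κ :=
  tabN.rough (ka := ![9964, 9964, 3395, 3395, 9964, 9964, 3395, 3395])
    (D := ![![0, 269373, 131806, 365987, 390625, 299055, 262504, 233918],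
      ![269373, 0, 235435, 123292, 299055, 43192, 247241, 80253],
      ![131806, 235435, 0, 292261, 262504, 247241, 131930, 242193],
      ![365987, 123292, 292261, 0, 233918, 80253, 242193, 202824],
      ![390625, 299055, 262504, 233918, 0, 269373, 131806, 365987],
      ![299055, 43192, 247241, 80253, 269373, 0, 235435, 123292],
      ![262504, 247241, 131930, 242193, 131806, 235435, 0, 292261],
      ![233918, 80253, 242193, 202824, 365987, 123292, 292261, 0]])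
    (ch := fun j => bif j then ![321470, 13886, 418680, 10809, 321470, 13886, 418680, 10809]
      else ![13886, 321470, 10809, 418680, 13886, 321470, 10809, 418680])
    (by decide +kernel) (by decide +kernel) ℓ c κ h hk

theorem roughH (ℓ : Fin 8 → Fin 8 → ℂ) (c κ : Fin 8 → ℂ) (h : tabH.Near (1 / 2 ^ 30) c κ)
    (hk : ∀ k, κ (pr8 k) = -κ k) : tabH.Rough ℓ c κ :=
  tabH.rough (ka := ![4013, 4013, 212, 212, 4013, 4013, 212, 212])
    (D := ![![0, 281734, 160825, 428125, 167030, 226880, 243346, 387219],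
      ![281734, 0, 428125, 160825, 226880, 167030, 387219, 243346],
      ![160825, 428125, 0, 582184, 243346, 387219, 199679, 546870],
      ![428125, 160825, 582184, 0, 387219, 243346, 546870, 199679],
      ![167030, 226880, 243346, 387219, 0, 281734, 160825, 428125],
      ![226880, 167030, 387219, 243346, 281734, 0, 428125, 160825],
      ![243346, 387219, 199679, 546870, 160825, 428125, 0, 582184],
      ![387219, 243346, 546870, 199679, 428125, 160825, 582184, 0]])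
    (ch := fun j => bif j then ![378950, 11878, 4900555, 1152, 378950, 11878, 4900555, 1152]
      else ![11878, 378950, 1152, 4900555, 11878, 378950, 1152, 4900555])
    (by decide +kernel) (by decide +kernel) ℓ c κ h hk

end Pool.Agent.MP_c434f6_gt.H30

end

section

/-! A zero in the cube from Brouwer's fixed point theorem. -/

namespace Pool.Agent.MP_c434f6_gt.H30

open Filter Topology Metric Set

lemma exists_fixed_of_bdd {U : Type*} [NormedAddCommGroup U] [NormedSpace ℝ U]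
    [FiniteDimensional ℝ U] (F : U → U) (hF : Continuous F) (hb : ∀ u, ‖F u‖ ≤ 1) :
    ∃ u, F u = u := by
  rcases subsingleton_or_nontrivial U with hU | hU
  · exact ⟨0, Subsingleton.elim _ _⟩
  by_contra hne
  push Not at hne
  let s : U → ℝ := fun u => max 0 (min 1 (4 - ‖u‖))
  let t : U → ℝ := fun u => max 0 (min 1 (‖u‖ - 2))
  have hs : Continuous s := by fun_prop
  have ht : Continuous t := by fun_prop
  have hs1 : ∀ u : U, ‖u‖ ≤ 3 → s u = 1 := fun u h => by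
    simp only [s]; rw [min_eq_left (by linarith), max_eq_right (by norm_num)]
  have hs0 : ∀ u : U, 4 ≤ ‖u‖ → s u = 0 := fun u h => by
    simp only [s]; exact max_eq_left ((min_le_right _ _).trans (by linarith))
  have ht1 : ∀ u : U, 3 ≤ ‖u‖ → t u = 1 := fun u h => by
    simp only [t]; rw [min_eq_left (by linarith), max_eq_right (by norm_num)]
  have ht0 : ∀ u : U, ‖u‖ ≤ 2 → t u = 0 := fun u h => by
    simp only [t]; exact max_eq_left ((min_le_right _ _).trans (by linarith))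
  have hid : ∀ u : U, ‖u‖ ≤ 2 → s u • u - t u • F (s u • u) = u := fun u h => by
    rw [hs1 u (by linarith), ht0 u h]; simp
  refine Pool.Agent.Lib.CupDegree.second_zero (fun u => s u • u - t u • F (s u • u))
    (by fun_prop) ?_ ?_ 4 (-F 0) ?_
  · filter_upwards [Metric.closedBall_mem_nhds (0 : U) (by norm_num : (0 : ℝ) < 2)] with u hu
    exact hid u (by simpa using hu)
  · intro u hu
    rcases le_total ‖u‖ 2 with h2 | h2
    · rwa [hid u h2] at hu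
    rcases le_total ‖u‖ 3 with h3 | h3
    · rw [hs1 u h3, one_smul, sub_eq_zero] at hu
      have h4 : ‖t u • F u‖ ≤ 1 := by
        rw [norm_smul, Real.norm_eq_abs, abs_of_nonneg (le_max_left _ _)]
        exact mul_le_one₀ (max_le zero_le_one (min_le_left _ _)) (norm_nonneg _) (hb u)
      rw [← hu] at h4
      linarith
    · rw [ht1 u h3, one_smul, sub_eq_zero] at hu
      exact absurd hu.symm (hne _)
  · intro u hu
    rw [hs0 u hu, ht1 u (by linarith)]; simp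

theorem cube_zero {n : Type} [Fintype n] (F : (n → ℝ) → n → ℝ) {σ : ℝ} (hσ : 0 < σ)
    (hc : ContinuousOn F (closedBall 0 1))
    (h : ∀ ε : n → ℝ, ‖ε‖ ≤ 1 → ∀ i, |F ε i - σ * ε i| ≤ σ) : ∃ ε, ‖ε‖ ≤ 1 ∧ F ε = 0 := by
  let cl : (n → ℝ) → n → ℝ := fun u i => max (-1) (min 1 (u i))
  have hcl : Continuous cl := by fun_prop
  have h1 : ∀ u, ‖cl u‖ ≤ 1 := fun u => (pi_norm_le_iff_of_nonneg zero_le_one).2 fun i =>
    abs_le.2 ⟨le_max_left _ _, max_le (by norm_num) (min_le_left _ _)⟩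
  have h2 : ∀ u, ‖u‖ ≤ 1 → cl u = u := fun u hu => funext fun i => by
    have := abs_le.1 ((norm_le_pi_norm u i).trans hu)
    simp only [cl]
    rw [min_eq_right this.2, max_eq_right this.1]
  have hF : Continuous fun u => F (cl u) :=
    hc.comp_continuous hcl fun u => mem_closedBall_zero_iff.2 (h1 u)
  have hb : ∀ u, ‖cl u - σ⁻¹ • F (cl u)‖ ≤ 1 := fun u =>
    (pi_norm_le_iff_of_nonneg zero_le_one).2 fun i => by
      have := h _ (h1 u) i
      have e : (cl u - σ⁻¹ • F (cl u)) i = -(σ⁻¹ * (F (cl u) i - σ * cl u i)) := by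
        simp only [Pi.sub_apply, Pi.smul_apply, smul_eq_mul]; field_simp; ring
      rw [e, norm_neg, Real.norm_eq_abs, abs_mul, abs_of_pos (inv_pos.2 hσ), inv_mul_le_iff₀ hσ]
      linarith
  obtain ⟨u, hu⟩ := exists_fixed_of_bdd (fun u => cl u - σ⁻¹ • F (cl u))
    (hcl.sub (hF.const_smul σ⁻¹)) hb
  have hu1 : ‖u‖ ≤ 1 := hu ▸ hb u
  refine ⟨u, hu1, ?_⟩
  simp only [h2 u hu1, sub_eq_self, smul_eq_zero, inv_eq_zero, hσ.ne', false_or] at hu
  exact hu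

end Pool.Agent.MP_c434f6_gt.H30

end

section

/-! From the certificate on the cube to a solution of the period problem. -/

open Set Filter Topology Metric Complex

namespace Pool.Agent.MP_c434f6_gt.H30.Tab

lemma pr8_pr8 (k : Fin 8) : pr8 (pr8 k) = k := by revert k; decide

/-- The period functions are continuous near the table. -/
theorem cont_eqn (T : Tab) (ℓ : Fin 8 → Fin 8 → ℂ) {μ : ℝ}
    (rough : ∀ c κ, T.Near μ c κ → (∀ k, κ (pr8 k) = -κ k) → T.Rough ℓ c κ)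
    (hT : ∀ k, gz 48 (T.κ (pr8 k)) = -gz 48 (T.κ k)) (k : Fin 8) (m : Fin 6)
    {X : Type} [TopologicalSpace X] {s : Set X} {c κ : X → Fin 8 → ℂ} (hc : Continuous c)
    (hκ : Continuous κ) {μ' : ℝ} (hμ : μ' < μ) (near : ∀ x ∈ s, T.Near μ' (c x) (κ x))
    (kpr : ∀ x k, κ x (pr8 k) = -κ x k)
    (sl : ∀ x ∈ s, ∀ l, ‖((T.dat ℓ (c x) (κ x)).z2 k - c x l) / ((T.dat ℓ (c x) (κ x)).z1 k - c x l)
      * exp (-ℓ k l) - 1‖ < 2 / 3) :
    ContinuousOn (fun x => (T.dat ℓ (c x) (κ x)).eqn k m) s := by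
  let kk : (Fin 8 → ℂ) × (Fin 8 → ℂ) → Fin 8 → ℂ := fun p k => (p.2 k - p.2 (pr8 k)) / 2
  have kk1 : ∀ p k, kk p (pr8 k) = -kk p k := fun p k => by simp only [kk, pr8_pr8]; ring
  let p0 : (Fin 8 → ℂ) × (Fin 8 → ℂ) := (fun k => gz 48 (T.c k), fun k => gz 48 (T.κ k))
  have hN : ∀ p ∈ ball p0 μ, T.Near μ p.1 (kk p) := fun p hp k => by
    rw [mem_ball, dist_eq_norm] at hp
    have h1 := (norm_le_pi_norm _ k).trans ((norm_fst_le _).trans hp.le)
    have h2 := fun k => (norm_le_pi_norm _ k).trans ((norm_snd_le _).trans hp.le)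
    refine ⟨h1, ?_⟩
    have e : kk p k - gz 48 (T.κ k) = ((p - p0).2 k - (p - p0).2 (pr8 k)) / 2 := by
      simp only [kk, p0, Prod.snd_sub, Pi.sub_apply, hT]; ring
    rw [e, norm_div]
    have := norm_sub_le ((p - p0).2 k) ((p - p0).2 (pr8 k))
    simp only [Complex.norm_ofNat]
    linarith [h2 k, h2 (pr8 k)]
  have R := fun p hp => rough _ _ (hN p hp) (kk1 p)
  let g : Fin 8 → (Fin 8 → ℂ) × (Fin 8 → ℂ) → ℝ := fun l p =>
    ‖((T.dat ℓ p.1 (kk p)).z2 k - p.1 l) / ((T.dat ℓ p.1 (kk p)).z1 k - p.1 l) * exp (-ℓ k l) - 1‖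
  have hg : ∀ l, ContinuousOn (g l) (ball p0 μ) := fun l => by
    refine ((ContinuousOn.div ?_ ?_ fun p hp => ?_).mul continuousOn_const).sub
      continuousOn_const |>.norm
    · simp only [Dat2.z2, dat, kk]; fun_prop
    · simp only [Dat2.z1, dat]; fun_prop
    · have h1 := (R p hp).n1 k l
      have h2 := ((R p hp).geo.r0 l).trans ((R p hp).geo.rρ l)
      exact norm_pos_iff.1 (by linarith)
  let U := ⋂ l, ball p0 μ ∩ g l ⁻¹' Iio (2 / 3)
  have hU : IsOpen U := isOpen_iInter_of_finite fun l =>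
    (hg l).isOpen_inter_preimage isOpen_ball isOpen_Iio
  have hb : ∀ p ∈ U, p ∈ ball p0 μ := fun p hp => (mem_iInter.1 hp 0).1
  have F : Dat2.Fam U pr8 (fun p => p.1) kk (fun k => (T.r k : ℝ) / 2 ^ 16)
      (fun k => (T.ρ k : ℝ) / 2 ^ 16) (fun k => -gz 48 (T.κ k)) ℓ (fun j k => (T.w j k : ℝ))
      (fun _ => (T.L : ℝ) / 8) (fun _ => 64) :=
    ⟨hU, fun l => by fun_prop, fun l => by simp only [kk]; fun_prop,
      fun p hp => (R p (hb p hp)).geo, fun j p hp => (R p (hb p hp)).con j⟩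
  have D := (F.eqn_par (k := k) (fun p hp => ⟨(R p (hb p hp)).n1 k, (R p (hb p hp)).n2 k,
    fun l => le_of_lt (mem_iInter.1 hp l).2⟩) m).continuousOn
  have e : ∀ x, kk (c x, κ x) = κ x := fun x => funext fun k => by simp only [kk, kpr]; ring
  refine (D.comp (hc.prodMk hκ).continuousOn fun x hx => mem_iInter.2 fun l => ⟨?_, ?_⟩).congr
    fun x _ => ?_
  · have μ0 : 0 ≤ μ' := (norm_nonneg _).trans (near x hx 0).1
    rw [mem_ball, dist_eq_norm]
    refine lt_of_le_of_lt (max_le ?_ ?_) hμ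
    · exact (pi_norm_le_iff_of_nonneg μ0).2 fun k => (near x hx k).1
    · exact (pi_norm_le_iff_of_nonneg μ0).2 fun k => (near x hx k).2
  · simp only [mem_preimage, g, e]
    exact sl x hx l
  · simp only [Function.comp, e]
    rfl

/-- The two necks whose periods are unknowns. -/
def nk : Fin 2 → Fin 8 := ![0, 2]

theorem exists_closed (T : Tab) (ℓ : Fin 8 → Fin 8 → ℂ)
    (rough : ∀ c κ, T.Near (1 / 2 ^ 30) c κ → (∀ k, κ (pr8 k) = -κ k) → T.Rough ℓ c κ)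
    (hT : ∀ k, gz 48 (T.κ (pr8 k)) = -gz 48 (T.κ k)) {n : Type} [Fintype n]
    (e : n ≃ Fin 2 × Fin 6) {c κ : (n → ℝ) → Fin 8 → ℂ} (hc : Continuous c) (hκ : Continuous κ)
    (near : ∀ ε, ‖ε‖ ≤ 1 → T.Near (1 / 2 ^ 31) (c ε) (κ ε)) (kpr : ∀ ε k, κ ε (pr8 k) = -κ ε k)
    (sym : ∀ ε, (T.dat ℓ (c ε) (κ ε)).Sym2 tau8)
    (sl : ∀ ε, ‖ε‖ ≤ 1 → ∀ i l, ‖((T.dat ℓ (c ε) (κ ε)).z2 (nk i) - c ε l) /
      ((T.dat ℓ (c ε) (κ ε)).z1 (nk i) - c ε l) * exp (-ℓ (nk i) l) - 1‖ < 2 / 3)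
    {σ : ℝ} (hσ : 0 < σ) (cert : ∀ ε, ‖ε‖ ≤ 1 → ∀ i,
      |((T.dat ℓ (c ε) (κ ε)).eqn (nk (e i).1) (e i).2).re - σ * ε i| ≤ σ) :
    ∃ ε, ‖ε‖ ≤ 1 ∧ (T.dat ℓ (c ε) (κ ε)).Closed tau8 (range nk) := by
  obtain ⟨ε, h1, h2⟩ := cube_zero
    (fun ε i => ((T.dat ℓ (c ε) (κ ε)).eqn (nk (e i).1) (e i).2).re) hσ
    (continuousOn_pi.2 fun i => continuous_re.comp_continuousOn
      (T.cont_eqn ℓ rough hT _ _ hc hκ (by norm_num) (fun x hx => near x (by simpa using hx)) kpr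
        fun x hx => sl x (by simpa using hx) _)) cert
  have R := rough _ _ (fun k => ⟨(near ε h1 k).1.trans (by norm_num),
    (near ε h1 k).2.trans (by norm_num)⟩) (kpr ε)
  refine ⟨ε, h1, ⟨R.geo, fun j => ⟨_, _, _, R.con j⟩⟩, sym ε, fun l => ?_, ?_, ?_⟩
  · have : ∀ l, ∃ i, l = nk i ∨ l = pr8 (nk i) ∨ l = tau8 (nk i) ∨ l = tau8 (pr8 (nk i)) := by
      decide
    obtain ⟨i, hi⟩ := this l
    exact ⟨_, ⟨i, rfl⟩, hi⟩
  · rintro _ ⟨i, rfl⟩
    exact ⟨R.n1 _, R.n2 _, fun l => (sl ε h1 i l).le⟩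
  · rintro _ ⟨i, rfl⟩ m
    simpa using congrFun h2 (e.symm (i, m))

end Pool.Agent.MP_c434f6_gt.H30.Tab

end
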