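import Pool.Agent.MP_c434f6_gt.G4.Pack

section

/-! Taylor models of the Laurent series. -/

open Polynomial Complex Finset

namespace Pool.Agent.MP_c434f6_gt.H30.Emb

def QL.toL : QL → List (ℤ × ℤ)
  | .nil => []
  | .cons r i _ l => ((r : ℤ) - 2 ^ 80, (i : ℤ) - 2 ^ 80) :: l.toL

def QL.A : QL → ℕ
  | .nil => 0
  | .cons _ _ A _ => A

def QL.ok : QL → Bool
  | .nil => true
  | .cons r i A l => decide (dst r (2 ^ 80) + dst i (2 ^ 80) + l.A + 2 ^ 32 ≤ A) &&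
      decide (A ≤ 2 ^ 74) && l.ok

/-- The series of `R / (d + h w)` up to degree seven. -/
noncomputable def Gx (d : ℂ) (R h : ℝ) : ℂ[X] :=
  ∑ k ∈ range 8, monomial k (R / d * (-(h / d)) ^ k)

theorem nrm_Gx {d : ℂ} {R h : ℝ} (hR : 0 < R) (hh : 0 ≤ h) (hd : R + h * (23 / 16) ≤ ‖d‖) :
    nrm (23 / 16) (Gx d R h) ≤ 1 := by
  have h0 : 0 < ‖d‖ := lt_of_lt_of_le (by positivity) hd
  have h1 : nrm (23 / 16) (Gx d R h) ≤
      ∑ k ∈ range 8, R / ‖d‖ * (h * (23 / 16) / ‖d‖) ^ k := by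
    refine (nrm_sum_le (by norm_num) _ _).trans (le_of_eq (sum_congr rfl fun k _ => ?_))
    rw [nrm_monomial, norm_mul, norm_pow, norm_neg, norm_div, norm_div, Complex.norm_real,
      Complex.norm_real, Real.norm_of_nonneg hR.le, Real.norm_of_nonneg hh, mul_assoc, ← mul_pow]
    congr 2
    ring
  rw [← mul_sum] at h1
  have h2 : R / ‖d‖ ≤ 1 - h * (23 / 16) / ‖d‖ := by
    rw [le_sub_iff_add_le, ← add_div, div_le_one h0]; exact hd
  have h3 : 0 ≤ h * (23 / 16) / ‖d‖ := by positivity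
  generalize h * (23 / 16) / ‖d‖ = x at h1 h2 h3
  have h4 := mul_neg_geom_sum x 8
  have h5 : 0 ≤ ∑ k ∈ range 8, x ^ k := sum_nonneg fun k _ => pow_nonneg h3 k
  have h6 := mul_le_mul_of_nonneg_right h2 h5
  have h7 : 0 ≤ x ^ 8 := by positivity
  linarith

private theorem W8_geH : 2 ^ 96 ≤ W8 := by decide +kernel

private theorem U8_ge : 2 ^ 80 ≤ U8 := by decide +kernel

private theorem W8_castH : (W8 : ℤ) = (W : ℤ) ^ 8 := by rw [W8, Nat.cast_pow]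

private theorem qd_spec {c a b N : ℕ} (hN : 0 < N) (h : (c : ℝ) * |(a : ℝ) - b| ≤ N * 2 ^ 65) :
    ∃ x : ℤ, (qd c a b N (N <<< 65) : ℤ) = x + 2 ^ 65 ∧ |(x : ℝ) - c * ((a : ℝ) - b) / N| ≤ 1 ∧
      qd c a b N (N <<< 65) ≤ 2 ^ 66 := by
  have hN' : (0 : ℝ) < N := by exact_mod_cast hN
  have e : qd c a b N (N <<< 65) = (c * a + N * 2 ^ 65 - c * b) / N := by
    rw [← Nat.shiftLeft_eq]; rfl
  have hc : (0 : ℝ) ≤ c := Nat.cast_nonneg c
  have l1 := mul_le_mul_of_nonneg_left (neg_abs_le ((a : ℝ) - b)) hc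
  have l2 := mul_le_mul_of_nonneg_left (le_abs_self ((a : ℝ) - b)) hc
  have h1 : c * b ≤ c * a + N * 2 ^ 65 := by
    have : (c : ℝ) * b ≤ c * a + N * 2 ^ 65 := by linarith
    exact_mod_cast this
  obtain ⟨M, hM⟩ : ∃ M, M = c * a + N * 2 ^ 65 - c * b := ⟨_, rfl⟩
  have hM' : (M : ℝ) = c * a + N * 2 ^ 65 - c * b := by rw [hM, Nat.cast_sub h1]; push_cast; ring
  rw [e, ← hM]
  have d1 : ((M / N : ℕ) : ℝ) * N ≤ M := by exact_mod_cast Nat.div_mul_le_self M N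
  have d2 : (M : ℝ) < N * ((M / N : ℕ) + 1) := by exact_mod_cast Nat.lt_mul_div_succ M hN
  generalize M / N = z at d1 d2
  refine ⟨z - 2 ^ 65, by ring, ?_, ?_⟩
  · push_cast
    rw [abs_le, le_sub_iff_add_le, sub_le_iff_le_add, ← le_sub_iff_add_le', ← sub_le_iff_le_add',
      div_le_iff₀ hN', le_div_iff₀ hN']
    constructor <;> linarith
  · have : (z : ℝ) * N ≤ 2 ^ 66 * N := by linarith
    exact_mod_cast le_of_mul_le_mul_right this hN'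

private theorem dv1 {V : ℕ} {Z : ℤ} (hZ : (V : ℤ) = Z) (hV : 2 ^ 96 ≤ V) {y : ℕ} {x : ℤ}
    (h : (y : ℤ) = x + 2 ^ 65) : Z ∣ x - ((y + (V - 2 ^ 65) : ℕ) : ℤ) := ⟨-1, by omega⟩

private theorem dv2 {V : ℕ} {Z : ℤ} (hZ : (V : ℤ) = Z) (hV : 2 ^ 96 ≤ V) {y : ℕ} (h : y ≤ 2 ^ 66) :
    Z ∣ ((y + (V - 2 ^ 65) : ℕ) : ℤ) + ((V + 2 ^ 65 - y : ℕ) : ℤ) := ⟨2, by omega⟩

private theorem dv3 {V : ℕ} {Z : ℤ} (hZ : (V : ℤ) = Z) (hV : 2 ^ 96 ≤ V) (q : ℕ) :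
    Z ∣ ((q : ℤ) - (2 ^ 80 : ℕ)) - ((V - 2 ^ 80 + q : ℕ) : ℤ) := ⟨-1, by omega⟩

private theorem dv4 {V V' : ℕ} {Z : ℤ} (hZ : (V : ℤ) = Z) (hV : 2 ^ 96 ≤ V) (hV' : 2 ^ 80 ≤ V')
    (r q : ℕ) : Z ∣ ((r + V' + (V - 2 ^ 80 + q) : ℕ) : ℤ) - ((r + (V' - 2 ^ 80) + q : ℕ) : ℤ) :=
  ⟨1, by omega⟩

private theorem K65m_dvd {y : ℕ} {x : ℤ} (h : (y : ℤ) = x + 2 ^ 65) :
    (W : ℤ) ^ 8 ∣ x - ((y + K65m : ℕ) : ℤ) := dv1 W8_castH W8_geH h

private theorem K65_ng {y : ℕ} (h : y ≤ 2 ^ 66) : Ng 8 (y + K65m) (K65p - y) :=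
  dv2 W8_castH W8_geH h

private theorem ap_const {y y' : ℕ} {x x' : ℤ} (h : (y : ℤ) = x + 2 ^ 65)
    (h' : (y' : ℤ) = x' + 2 ^ 65) {z : ℂ} (e : |(x : ℝ) - 2 ^ 64 * z.re| ≤ 1)
    (e' : |(x' : ℝ) - 2 ^ 64 * z.im| ≤ 1) : Ap (y + K65m) (y' + K65m) (C z) 2 := by
  refine ⟨_, RU.const (K65m_dvd h) (K65m_dvd h'), ?_⟩
  rw [← C_mul, ← C_sub, nrm_C]
  refine (norm_le_abs_re_add_abs_im _).trans ?_
  have a1 : ((x : ℂ) + (x' : ℂ) * I - 2 ^ 64 * z).re = x - 2 ^ 64 * z.re := by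
    rw [show (2 : ℂ) ^ 64 = ((2 ^ 64 : ℝ) : ℂ) by push_cast; rfl, sub_re, re_ofReal_mul]; simp
  have a2 : ((x : ℂ) + (x' : ℂ) * I - 2 ^ 64 * z).im = x' - 2 ^ 64 * z.im := by
    rw [show (2 : ℂ) ^ 64 = ((2 ^ 64 : ℝ) : ℂ) by push_cast; rfl, sub_im, im_ofReal_mul]; simp
  rw [a1, a2]
  linarith

private theorem nrm_one_add {q : ℂ} {k : ℕ} (h : ‖q‖ * (23 / 16) ^ k ≤ 1) :
    nrm (23 / 16) (1 + C q * X ^ k) ≤ 2 := by
  refine (nrm_add_le (by norm_num) _ _).trans ?_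
  rw [nrm_mul_X_pow, nrm_C, ← C_1, nrm_C, norm_one]
  linarith

private theorem ser_aux {dr di xr xi xn : ℕ} {α β : ℂ} (h1 : Ap dr di (C α) 2)
    (h2 : Ap xr xi (C β) 2) (h3 : Ng 8 xi xn) (hα : ‖α‖ ≤ 1) (hβ : ‖β‖ * (23 / 16) ≤ 1) :
    Bp (ser2 dr di xr xi xn) (∑ k ∈ range 8, monomial k (α * β ^ k)) (2 ^ 13) := by
  have r0 : (0 : ℝ) ≤ 23 / 16 := by norm_num
  have hβ1 : ‖β‖ ≤ 1 := by nlinarith [norm_nonneg β]
  have hk : ∀ k : ℕ, ‖β ^ k‖ * (23 / 16) ^ k ≤ 1 := fun k => by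
    rw [norm_pow, ← mul_pow]; exact pow_le_one₀ (by positivity) hβ
  have hk' : ∀ k : ℕ, nrm (23 / 16) (C (β ^ k)) ≤ 1 := fun k => by
    rw [nrm_C, norm_pow]; exact pow_le_one₀ (norm_nonneg _) hβ1
  have nα : nrm (23 / 16) (C α) ≤ 1 := by rwa [nrm_C]
  have nβ : nrm (23 / 16) (C β) ≤ 1 := by rwa [nrm_C]
  have n1 : nrm (23 / 16) (1 + C β * X ^ 1) ≤ 2 := nrm_one_add (by simpa using hβ)
  have a1 := Ap.one.add (h2.mulW 1)
  rw [zero_add, pow_one W] at a1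
  have p1 := (h1.cm a1 (h3.mul W) nα n1 (by norm_num) (by norm_num) (by norm_num)
    (by norm_num)).mono (e' := 90) (by norm_num)
  rw [tr_eq_self (Nat.lt_succ_of_le (by compute_degree!))] at p1
  have m1 : nrm (23 / 16) (C α * (1 + C β * X ^ 1)) ≤ 2 :=
    (nrm_mul_le r0 _ _).trans (by nlinarith [nrm_nonneg r0 (C α), nrm_nonneg r0 (1 + C β * X ^ 1)])
  have x2 := (h2.cm h2 h3 nβ nβ (by norm_num) (by norm_num) (by norm_num)
    (by norm_num)).mono (e' := 88) (by norm_num)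
  rw [← C_mul, ← pow_two, tr_eq_self (by simp)] at x2
  have n2 := nrm_one_add (hk 2)
  have p2 := (p1.cm1 x2 2 m1 n2 (by norm_num) (by norm_num) (by norm_num)
    (by norm_num)).mono (e' := 630) (by norm_num)
  rw [tr_eq_self (Nat.lt_succ_of_le (by compute_degree!))] at p2
  have m2 : nrm (23 / 16) (C α * (1 + C β * X ^ 1) * (1 + C (β ^ 2) * X ^ 2)) ≤ 4 :=
    (nrm_mul_le r0 _ _).trans (by
      nlinarith [nrm_nonneg r0 (C α * (1 + C β * X ^ 1)), nrm_nonneg r0 (1 + C (β ^ 2) * X ^ 2)])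
  have x4 := (x2.csq (hk' 2) (by norm_num) (by norm_num)).mono (e' := 260) (by norm_num)
  rw [← C_mul, ← pow_add, tr_eq_self (by simp)] at x4
  have p3 := (p2.cm1 x4 4 m2 (nrm_one_add (hk 4)) (by norm_num) (by norm_num) (by norm_num)
    (by norm_num)).mono (e' := 2 ^ 13) (by norm_num)
  rw [tr_eq_self (Nat.lt_succ_of_le (by compute_degree!)), pow_two W] at p3
  have e : ∑ k ∈ range 8, monomial k (α * β ^ k) =
      C α * (1 + C β * X ^ 1) * (1 + C (β ^ 2) * X ^ 2) * (1 + C (β ^ (2 + 2)) * X ^ 4) := by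
    simp only [sum_range_succ, sum_range_zero, ← C_mul_X_pow_eq_monomial, C_mul, C_pow]
    ring
  rw [e]
  exact p3

private theorem pt48_sub (ax ay cx cy : ℕ) : pt48 ax ay - pt48 cx cy =
    ⟨((ax : ℝ) - cx) / 2 ^ 48, ((ay : ℝ) - cy) / 2 ^ 48⟩ := by
  apply Complex.ext <;> simp only [pt48, sub_re, sub_im] <;> ring

private theorem ssq_dst (ax ay cx cy : ℕ) : (ssq (dst ax cx) (dst ay cy) : ℝ) =
    ((ax : ℝ) - cx) ^ 2 + ((ay : ℝ) - cy) ^ 2 := by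
  rw [ssq_cast, dst_cast, dst_cast, sq_abs, sq_abs]

private theorem norm_pt48 (ax ay cx cy : ℕ) :
    (2 ^ 48 * ‖pt48 ax ay - pt48 cx cy‖) ^ 2 = ssq (dst ax cx) (dst ay cy) := by
  rw [mul_pow, ssq_dst, pt48_sub, Complex.sq_norm, normSq_apply]
  ring

theorem ser_spec {ax ay cx cy R h' : ℕ} (hR : 0 < R)
    (hd : (R : ℝ) / 2 ^ 48 + h' / 2 ^ 112 * (23 / 16) ≤ ‖pt48 ax ay - pt48 cx cy‖) {N : ℕ}
    (hN : N = ssq (dst ax cx) (dst ay cy)) :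
    Bp (ser (qd (R <<< 64) ax cx N (N <<< 65)) (qd (R <<< 64) cy ay N (N <<< 65))
      (qd h' cx ax N (N <<< 65)) (qd h' ay cy N (N <<< 65)))
      (Gx (pt48 ax ay - pt48 cx cy) (R / 2 ^ 48) (h' / 2 ^ 112)) (2 ^ 13) := by
  have hR' : (0 : ℝ) < R := by exact_mod_cast hR
  have hh : (0 : ℝ) ≤ h' := Nat.cast_nonneg _
  have n1 := norm_pt48 ax ay cx cy
  have n2 := ssq_dst ax ay cx cy
  have n3 := pt48_sub ax ay cx cy
  rw [← hN] at n1 n2
  generalize pt48 ax ay - pt48 cx cy = d at *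
  have d0 : 0 < ‖d‖ := lt_of_lt_of_le (by positivity) hd
  obtain ⟨s, hs⟩ : ∃ s, s = 2 ^ 48 * ‖d‖ := ⟨_, rfl⟩
  rw [← hs] at n1
  have s0 : 0 < s := by rw [hs]; positivity
  have N0 : (0 : ℝ) < N := by rw [← n1]; positivity
  have N0' : 0 < N := by exact_mod_cast N0
  have hRs : (R : ℝ) * 2 ^ 64 ≤ s * 2 ^ 65 := by rw [hs]; linarith
  have hhs : (h' : ℝ) ≤ s * 2 ^ 65 := by rw [hs]; linarith
  have hu : |(ax : ℝ) - cx| ≤ s := abs_le_of_sq_le_sq' (by nlinarith) s0.le |> abs_le.2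
  have hv : |(ay : ℝ) - cy| ≤ s := abs_le_of_sq_le_sq' (by nlinarith) s0.le |> abs_le.2
  have key : ∀ c t : ℝ, 0 ≤ t → c ≤ s * 2 ^ 65 → t ≤ s → c * t ≤ N * 2 ^ 65 := by
    intro c t t0 h1 h2
    calc c * t ≤ s * 2 ^ 65 * s := by gcongr
      _ = _ := by rw [← n1]; ring
  have q0 : normSq d = N / 2 ^ 96 := by rw [n3, n2, normSq_apply]; ring
  have q1 : d.re = ((ax : ℝ) - cx) / 2 ^ 48 := by rw [n3]
  have q2 : d.im = ((ay : ℝ) - cy) / 2 ^ 48 := by rw [n3]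
  have re1 : ∀ c : ℝ, ((c : ℂ) / d).re = c * 2 ^ 48 * ((ax : ℝ) - cx) / N := fun c => by
    rw [div_eq_mul_inv, re_ofReal_mul, inv_re, q0, q1]; field_simp
  have im1 : ∀ c : ℝ, ((c : ℂ) / d).im = c * 2 ^ 48 * ((cy : ℝ) - ay) / N := fun c => by
    rw [div_eq_mul_inv, im_ofReal_mul, inv_im, q0, q2]; field_simp; ring
  have p1 : (0 : ℝ) ≤ h' / 2 ^ 112 := by positivity
  have p2 : (0 : ℝ) ≤ R / 2 ^ 48 := by positivity
  have hα : ‖((R / 2 ^ 48 : ℝ) : ℂ) / d‖ ≤ 1 := by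
    rw [norm_div, Complex.norm_real, Real.norm_of_nonneg p2, div_le_one d0]
    linarith
  have hβ : ‖-(((h' / 2 ^ 112 : ℝ) : ℂ) / d)‖ * (23 / 16) ≤ 1 := by
    rw [norm_neg, norm_div, Complex.norm_real, Real.norm_of_nonneg p1, div_mul_eq_mul_div,
      div_le_one d0]
    linarith
  have f1 : 2 ^ 64 * (((R / 2 ^ 48 : ℝ) : ℂ) / d).re = R * 2 ^ 64 * ((ax : ℝ) - cx) / N := by
    rw [re1]; ring
  have f2 : 2 ^ 64 * (((R / 2 ^ 48 : ℝ) : ℂ) / d).im = R * 2 ^ 64 * ((cy : ℝ) - ay) / N := by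
    rw [im1]; ring
  have f3 : 2 ^ 64 * (-(((h' / 2 ^ 112 : ℝ) : ℂ) / d)).re = h' * ((cx : ℝ) - ax) / N := by
    rw [neg_re, re1]; ring
  have f4 : 2 ^ 64 * (-(((h' / 2 ^ 112 : ℝ) : ℂ) / d)).im = h' * ((ay : ℝ) - cy) / N := by
    rw [neg_im, im1]; ring
  have cR : ((R <<< 64 : ℕ) : ℝ) = R * 2 ^ 64 := by
    rw [Nat.shiftLeft_eq, Nat.cast_mul, Nat.cast_pow, Nat.cast_ofNat]
  obtain ⟨x1, a1, b1, -⟩ := qd_spec (c := R <<< 64) (a := ax) (b := cx) N0'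
    (key _ _ (abs_nonneg _) (cR ▸ hRs) hu)
  obtain ⟨x2, a2, b2, -⟩ := qd_spec (c := R <<< 64) (a := cy) (b := ay) N0'
    (key _ _ (abs_nonneg _) (cR ▸ hRs) (by rwa [abs_sub_comm]))
  obtain ⟨x3, a3, b3, -⟩ := qd_spec (c := h') (a := cx) (b := ax) N0'
    (key _ _ (abs_nonneg _) hhs (by rwa [abs_sub_comm]))
  obtain ⟨x4, a4, b4, c4⟩ := qd_spec (c := h') (a := ay) (b := cy) N0'
    (key _ _ (abs_nonneg _) hhs hv)
  rw [cR] at b1 b2
  rw [← f1] at b1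
  rw [← f2] at b2
  rw [← f3] at b3
  rw [← f4] at b4
  exact ser_aux (ap_const a1 a2 b1 b2) (ap_const a3 a4 b3 b4) (K65_ng c4) hα hβ

structure HT.OK (t : HT) (f : ℂ → ℂ) (A : ℝ) : Prop where
  gr : Good t.r
  gi : Good t.i
  n1 : nrm (23 / 16) (cd t.r t.i) ≤ A
  e1 : ∀ w : ℂ, ‖w‖ ≤ 23 / 16 → ‖2 ^ 64 * f w - (cd t.r t.i).eval w‖ ≤ t.e1
  e2 : ∀ w : ℂ, ‖w‖ ≤ 23 / 32 → ‖2 ^ 64 * f w - (cd t.r t.i).eval w‖ ≤ t.e2

private theorem QL.ok_cons {r i A : ℕ} {l : QL} (h : (QL.cons r i A l).ok = true) :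
    dst r (2 ^ 80) + dst i (2 ^ 80) + l.A + 2 ^ 32 ≤ A ∧ A ≤ 2 ^ 74 ∧ l.ok = true := by
  simpa only [QL.ok, Bool.and_eq_true, decide_eq_true_eq, and_assoc] using h

private theorem QL.A_le {l : QL} (h : l.ok = true) : (l.A : ℝ) ≤ 2 ^ 74 := by
  cases l with
  | nil => simp [QL.A]
  | cons r i A l => exact_mod_cast (QL.ok_cons h).2.1

private theorem norm_shift (r i s : ℕ) :
    ‖((((r : ℤ) - s : ℤ) : ℂ) + (((i : ℤ) - s : ℤ) : ℂ) * I)‖ ≤ dst r s + dst i s := by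
  refine (norm_le_abs_re_add_abs_im _).trans (le_of_eq ?_)
  rw [dst_cast, dst_cast]
  simp

private theorem hq_cons (r i A : ℕ) (l : QL) (u : ℂ) : 2 ^ 64 * hq (QL.cons r i A l).toL u =
    u * ((((r : ℤ) - (2 ^ 80 : ℕ) : ℤ) : ℂ) + (((i : ℤ) - (2 ^ 80 : ℕ) : ℤ) : ℂ) * I +
      2 ^ 64 * hq l.toL u) := by
  rw [QL.toL, hq, gz, Nat.cast_pow, Nat.cast_ofNat]
  field_simp

private theorem hq_le {u : ℂ} (hu : ‖u‖ ≤ 1) (l : QL) (hl : l.ok = true) :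
    ‖2 ^ 64 * hq l.toL u‖ ≤ ‖u‖ * l.A := by
  induction l with
  | nil => simp [QL.toL, hq, QL.A]
  | cons r i A l ih =>
    obtain ⟨h1, -, h3⟩ := QL.ok_cons hl
    have h4 : (dst r (2 ^ 80) : ℝ) + dst i (2 ^ 80) + l.A + 2 ^ 32 ≤ A := by exact_mod_cast h1
    have h5 := (ih h3).trans (mul_le_of_le_one_left (Nat.cast_nonneg _) hu)
    rw [hq_cons, norm_mul]
    refine mul_le_mul_of_nonneg_left ((norm_add_le _ _).trans ?_) (norm_nonneg _)
    have := norm_shift r i (2 ^ 80)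
    change _ ≤ (A : ℝ)
    linarith [show (0 : ℝ) ≤ 2 ^ 32 by positivity]

private theorem shr_succ (x : ℕ) : (x : ℝ) / 2 ^ 64 ≤ ((x >>> 64 : ℕ) : ℝ) + 1 := by
  rw [Nat.shiftRight_eq_div_pow, div_le_iff₀ (by positivity)]
  have := Nat.lt_mul_div_succ x (show 0 < 2 ^ 64 by positivity)
  rw [mul_comm] at this
  exact_mod_cast this.le

private theorem lin_tr {d h R : ℂ} (hd : d ≠ 0) {S : ℂ[X]} (hS : S.natDegree < 8) :
    (C d + C h * X) * tr (S * ∑ k ∈ range 8, monomial k (R / d * (-(h / d)) ^ k)) - C R * S =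
      monomial 8 (h * (tr (S * ∑ k ∈ range 8, monomial k (R / d * (-(h / d)) ^ k))).coeff 7) := by
  obtain ⟨β, rfl⟩ : ∃ β, h = -(β * d) := ⟨-(h / d), by field_simp⟩
  obtain ⟨α, rfl⟩ : ∃ α, R = α * d := ⟨R / d, by field_simp⟩
  rw [neg_div, neg_neg, mul_div_cancel_right₀ _ hd, mul_div_cancel_right₀ _ hd]
  have e : (C d + C (-(β * d)) * X) * (S * ∑ k ∈ range 8, monomial k (α * β ^ k)) =
      C (α * d) * S - (C (α * d * β ^ 8) * S) * X ^ 8 := by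
    simp only [sum_range_succ, sum_range_zero, ← C_mul_X_pow_eq_monomial, C_mul, C_pow, C_neg]
    ring
  generalize S * ∑ k ∈ range 8, monomial k (α * β ^ k) = P at e
  have c0 : ∀ Q : ℂ[X], ((C d + C (-(β * d)) * X) * Q).coeff 0 = d * Q.coeff 0 := fun Q => by
    rw [add_mul, coeff_add, coeff_C_mul, mul_assoc, coeff_C_mul, coeff_X_mul_zero, mul_zero,
      add_zero]
  have c1 : ∀ (Q : ℂ[X]) (k : ℕ), ((C d + C (-(β * d)) * X) * Q).coeff (k + 1) =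
      d * Q.coeff (k + 1) + -(β * d) * Q.coeff k := fun Q k => by
    rw [add_mul, coeff_add, coeff_C_mul, mul_assoc, coeff_C_mul, coeff_X_mul]
  have c2 : ∀ k < 8, ((C d + C (-(β * d)) * X) * P).coeff k = α * d * S.coeff k := fun k hk => by
    rw [e, coeff_sub, coeff_mul_X_pow', if_neg (by omega), sub_zero, coeff_C_mul]
  ext k
  rw [coeff_sub, coeff_C_mul, coeff_monomial]
  rcases k with _ | k
  · rw [c0, coeff_tr, if_pos (by omega), ← c0, c2 0 (by omega), if_neg (by omega), sub_self]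
  rw [c1]
  rcases lt_trichotomy k 7 with hk | rfl | hk
  · rw [coeff_tr, coeff_tr, if_pos (by omega), if_pos (by omega), ← c1, c2 _ (by omega),
      if_neg (by omega), sub_self]
  · rw [coeff_tr P (7 + 1), if_neg (by omega), if_pos rfl,
      coeff_eq_zero_of_natDegree_lt (p := S) hS]
    ring
  · rw [coeff_tr, coeff_tr, if_neg (by omega), if_neg (by omega), if_neg (by omega),
      coeff_eq_zero_of_natDegree_lt (p := S) (by omega)]
    ring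

section step

variable {d w : ℂ} {R h ρ : ℝ}

private theorem den_ge (hh : 0 ≤ h) (hw : ‖w‖ ≤ ρ) : ‖d‖ - h * ρ ≤ ‖d + h * w‖ := by
  have h1 : ‖(h : ℂ) * w‖ ≤ h * ρ := by
    rw [norm_mul, Complex.norm_real, Real.norm_of_nonneg hh]; gcongr
  have h2 := norm_sub_le (d + h * w) (h * w)
  rw [add_sub_cancel_right] at h2
  linarith

private theorem quot_le (hh : 0 ≤ h) (hw : ‖w‖ ≤ ρ) (h0 : 0 < ‖d‖ - h * ρ) {z : ℂ} {a : ℝ}
    (ha : 0 ≤ a) (hz : ‖z‖ ≤ a * (‖d‖ - h * ρ)) : ‖z / (d + h * w)‖ ≤ a := by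
  have h1 := den_ge (d := d) hh hw
  rw [norm_div, div_le_iff₀ (h0.trans_le h1)]
  exact hz.trans (mul_le_mul_of_nonneg_left h1 ha)

private theorem u_le (hR : 0 < R) (hh : 0 ≤ h) (hw : ‖w‖ ≤ ρ) (hd : R + h * ρ ≤ ‖d‖) {a : ℕ}
    (ha : 2 ^ 64 * R ≤ a * (‖d‖ - h * ρ)) :
    ‖(R : ℂ) / (d + h * w)‖ ≤ 1 ∧ ‖(R : ℂ) / (d + h * w)‖ ≤ a / 2 ^ 64 := by
  have e : ‖(R : ℂ)‖ = R := by rw [Complex.norm_real, Real.norm_of_nonneg hR.le]
  refine ⟨quot_le hh hw (by linarith) zero_le_one (by linarith),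
    quot_le hh hw (by linarith) (by positivity) ?_⟩
  rw [e, div_mul_eq_mul_div, le_div_iff₀ (by positivity)]
  linarith

private theorem cut_err (hR : 0 < R) (hh : 0 ≤ h) (hw : ‖w‖ ≤ ρ) (hd : R + h * ρ ≤ ‖d‖) {a : ℕ}
    (ha : 2 ^ 64 * R ≤ a * (‖d‖ - h * ρ)) (l : QL) (hl : l.ok = true) :
    ‖2 ^ 64 * hq l.toL (R / (d + h * w)) - (cd cB cB).eval w‖ ≤
      (((l.A * a) >>> 64 + 1 : ℕ) : ℝ) := by
  obtain ⟨u1, u2⟩ := u_le hR hh hw hd ha
  rw [cd_cB, eval_zero, sub_zero]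
  refine (hq_le u1 l hl).trans ((mul_le_mul_of_nonneg_right u2 (Nat.cast_nonneg _)).trans ?_)
  have := shr_succ (l.A * a)
  push_cast at this ⊢
  linarith [show (a : ℝ) / 2 ^ 64 * l.A = l.A * a / 2 ^ 64 by ring]

private theorem step_err (hR : 0 < R) (hh : 0 ≤ h) (hw : ‖w‖ ≤ ρ) (hρ : ρ ≤ 23 / 16)
    (hd : R + h * ρ ≤ ‖d‖) {a b e t : ℕ} (ha : 2 ^ 64 * R ≤ a * (‖d‖ - h * ρ))
    (hb : 2 ^ 64 * (h * ρ ^ 8) ≤ b * (‖d‖ - h * ρ)) {S T : ℂ[X]} (hS : S.natDegree < 8) {y : ℂ}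
    (h1 : ‖y - S.eval w‖ ≤ e) (h2 : nrm (23 / 16) (T - tr (S * Gx d R h)) ≤ 2 ^ 24)
    (h3 : ‖T.coeff 7‖ + 2 ^ 24 ≤ t) :
    ‖R / (d + h * w) * y - T.eval w‖ ≤ herr a b e t := by
  obtain ⟨-, u2⟩ := u_le hR hh hw hd ha
  have ρ0 : 0 ≤ ρ := (norm_nonneg w).trans hw
  have p0 : 0 < ‖d‖ - h * ρ := by linarith
  have d0 : d ≠ 0 := norm_pos_iff.1 (lt_of_lt_of_le (by positivity) hd)
  have d1 : d + h * w ≠ 0 := norm_pos_iff.1 (p0.trans_le (den_ge hh hw))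
  have e1 := congrArg (eval w) (lin_tr (h := h) (R := R) d0 hS)
  rw [← Gx] at e1
  generalize tr (S * Gx d R h) = Q at e1 h2
  simp only [eval_sub, eval_mul, eval_add, eval_C, eval_X, eval_monomial] at e1
  have q7 : ‖Q.coeff 7‖ ≤ t := by
    have a1 := (norm_coeff_le (by norm_num) _ 7).trans h2
    have a2 := norm_sub_le (T.coeff 7) (T.coeff 7 - Q.coeff 7)
    rw [coeff_sub] at a1
    rw [sub_sub_cancel] at a2
    linarith
  have b1 : ‖(h * Q.coeff 7 * w ^ 8 : ℂ) / (d + h * w)‖ ≤ b * t / 2 ^ 64 := by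
    refine quot_le hh hw p0 (by positivity) ?_
    rw [norm_mul, norm_mul, norm_pow, Complex.norm_real, Real.norm_of_nonneg hh]
    calc _ ≤ h * t * ρ ^ 8 := by gcongr
      _ = 2 ^ 64 * (h * ρ ^ 8) * t / 2 ^ 64 := by ring
      _ ≤ b * (‖d‖ - h * ρ) * t / 2 ^ 64 := by gcongr
      _ = _ := by ring
  have b2 : ‖R / (d + h * w) * (y - S.eval w)‖ ≤ a / 2 ^ 64 * e := by
    rw [norm_mul]; gcongr
  have b3 := (norm_eval_le (hw.trans hρ) _).trans h2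
  rw [eval_sub] at b3
  have e2 : R / (d + h * w) * y - T.eval w = R / (d + h * w) * (y - S.eval w) -
      (h * Q.coeff 7 * w ^ 8) / (d + h * w) - (T.eval w - Q.eval w) := by
    rw [← e1]; field_simp; ring
  have b4 := shr_succ (a * e + b * t)
  have e3 : (herr a b e t : ℝ) = ((a * e + b * t) >>> 64 : ℕ) + 16777217 := by
    change (((a * e + b * t) >>> 64 + 16777217 : ℕ) : ℝ) = _
    rw [Nat.cast_add, Nat.cast_ofNat]
  rw [e2, e3]
  refine (norm_sub_le _ _).trans ((add_le_add (norm_sub_le _ _) b3).trans ?_)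
  rw [Nat.cast_add, Nat.cast_mul, Nat.cast_mul] at b4
  linarith [show ((a : ℝ) * e + b * t) / 2 ^ 64 = a / 2 ^ 64 * e + b * t / 2 ^ 64 by ring]

end step

private theorem ru_shift {r i : ℕ} (gr : Good r) (gi : Good i) (qr qi : ℕ) :
    RU 8 (r + K80 + qr) (i + K80 + qi) (cd r i +
      C ((((qr : ℤ) - (2 ^ 80 : ℕ) : ℤ) : ℂ) + (((qi : ℤ) - (2 ^ 80 : ℕ) : ℤ) : ℂ) * I)) :=
  ((gr.ru8 gi).add (RU.const (dv3 W8_castH W8_geH qr) (dv3 W8_castH W8_geH qi))).congr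
    (dv4 W8_castH W8_geH U8_ge r qr) (dv4 W8_castH W8_geH U8_ge i qi)

private theorem hor_cons (g g' n a1 b1 a2 b2 ia qr qi A : ℕ) (l : QL) (t : ℕ) :
    hor g g' n a1 b1 a2 b2 ia (.cons qr qi A l) t =
      @Bool.rec (fun _ => HT)
        (hst1 g g' n a1 b1 a2 b2 (hor g g' n a1 b1 a2 b2 ia l ((t * ia) >>> 64)).e1
          (hor g g' n a1 b1 a2 b2 ia l ((t * ia) >>> 64)).e2
          ((hor g g' n a1 b1 a2 b2 ia l ((t * ia) >>> 64)).r + K80 + qr)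
          ((hor g g' n a1 b1 a2 b2 ia l ((t * ia) >>> 64)).i + K80 + qi))
        ⟨cB, cB, (A * a1) >>> 64 + 1, (A * a2) >>> 64 + 1⟩ (Nat.ble A t) := rfl

theorem hor_spec {d : ℂ} {R h : ℝ} (hR : 0 < R) (hh : 0 ≤ h) (hd : R + h * (23 / 16) ≤ ‖d‖)
    {g g' n a1 b1 a2 b2 ia : ℕ} (hG : Ap g g' (Gx d R h) (2 ^ 13)) (hn : Ng 8 g' n)
    (ha1 : 2 ^ 64 * R ≤ a1 * (‖d‖ - h * (23 / 16)))
    (hb1 : 2 ^ 64 * (h * (23 / 16) ^ 8) ≤ b1 * (‖d‖ - h * (23 / 16)))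
    (ha2 : 2 ^ 64 * R ≤ a2 * (‖d‖ - h * (23 / 32)))
    (hb2 : 2 ^ 64 * (h * (23 / 32) ^ 8) ≤ b2 * (‖d‖ - h * (23 / 32)))
    (l : QL) (hl : l.ok = true) (t : ℕ) :
    (hor g g' n a1 b1 a2 b2 ia l t).OK (fun w => hq l.toL (R / (d + h * w))) l.A := by
  have r0 : (0 : ℝ) ≤ 23 / 16 := by norm_num
  have hd' : R + h * (23 / 32) ≤ ‖d‖ := by linarith
  induction l generalizing t with
  | nil =>
    change HT.OK ⟨cB, cB, 0, 0⟩ _ _
    refine ⟨good_cB, good_cB, ?_, fun w _ => ?_, fun w _ => ?_⟩ <;>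
      simp only [cd_cB, QL.toL, hq, QL.A, nrm_zero, eval_zero, mul_zero, sub_zero, norm_zero,
        Nat.cast_zero, le_refl]
  | cons qr qi A l ih =>
    rw [hor_cons]
    cases Nat.ble A t with
    | true =>
      refine ⟨good_cB, good_cB, ?_, fun w hw => cut_err hR hh hw hd ha1 _ hl,
        fun w hw => cut_err hR hh hw hd' ha2 _ hl⟩
      change nrm _ (cd cB cB) ≤ _
      rw [cd_cB, nrm_zero]
      exact Nat.cast_nonneg _
    | false =>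
      obtain ⟨h1, h2, h3⟩ := QL.ok_cons hl
      have h4 : (dst qr (2 ^ 80) : ℝ) + dst qi (2 ^ 80) + l.A + 2 ^ 32 ≤ A := by exact_mod_cast h1
      have h5 : (A : ℝ) ≤ 2 ^ 74 := by exact_mod_cast h2
      have H := ih h3 ((t * ia) >>> 64)
      dsimp only
      generalize hor g g' n a1 b1 a2 b2 ia l ((t * ia) >>> 64) = T at H
      have u1 := ru_shift H.gr H.gi qr qi
      have u2 := norm_shift qr qi (2 ^ 80)
      have u3 := hq_cons qr qi A l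
      generalize (((qr : ℤ) - (2 ^ 80 : ℕ) : ℤ) : ℂ) + (((qi : ℤ) - (2 ^ 80 : ℕ) : ℤ) : ℂ) * I = c
        at u1 u2 u3
      generalize T.r + K80 + qr = r at u1
      generalize T.i + K80 + qi = i at u1
      have dS : (cd T.r T.i + C c).natDegree < 8 := by
        rw [natDegree_add_C]; exact natDegree_cd _ _
      have nS : nrm (23 / 16) (cd T.r T.i + C c) + 2 ^ 32 ≤ A := by
        have := nrm_add_le r0 (cd T.r T.i) (C c)
        rw [nrm_C] at this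
        linarith [H.n1]
      have eS : ∀ w y : ℂ, c + y - (cd T.r T.i + C c).eval w = y - (cd T.r T.i).eval w :=
        fun w y => by rw [eval_add, eval_C]; ring
      generalize cd T.r T.i + C c = S at u1 dS nS eS
      have e64 : C (2 ^ 64 : ℂ) * C (1 / 2 ^ 64) = 1 := by
        rw [← C_mul, mul_one_div_cancel (pow_ne_zero _ two_ne_zero), C_1]
      have a0 : Ap r i (C (1 / 2 ^ 64) * S) 0 :=
        ⟨S, u1, by rw [← mul_assoc, e64, one_mul, sub_self, nrm_zero]⟩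
      have n0 : nrm (23 / 16) (C (1 / 2 ^ 64) * S) ≤ 2 ^ 10 := by
        rw [nrm_C_mul, norm_div, norm_one, norm_pow, Complex.norm_two]
        linarith
      have nG := nrm_Gx hR hh hd
      obtain ⟨gr, gi, B⟩ := (a0.cm hG hn n0 nG (by norm_num) (by norm_num) (by norm_num)
        (by norm_num)).mono (e' := 2 ^ 24) (by norm_num)
      rw [mul_assoc, tr_C_mul, ← mul_assoc, e64, one_mul] at B
      have eq1 : hst1 g g' n a1 b1 a2 b2 T.e1 T.e2 r i =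
          hst2 a1 b1 a2 b2 T.e1 T.e2 (cm r i g g' n).r (cm r i g g' n).i := rfl
      rw [eq1]
      generalize (cm r i g g' n).r = r' at gr B
      generalize (cm r i g g' n).i = i' at gi B
      obtain ⟨τ, hτ⟩ : ∃ τ, τ = dst (r' >>> 1120) 39614081257132168796771975168 +
          dst (i' >>> 1120) 39614081257132168796771975168 + 16777216 := ⟨_, rfl⟩
      have eq2 : hst2 a1 b1 a2 b2 T.e1 T.e2 r' i' =
          ⟨r', i', herr a1 b1 T.e1 τ, herr a2 b2 T.e2 τ⟩ := by rw [hτ]; rfl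
      have c7 : ‖(cd r' i').coeff 7‖ + 2 ^ 24 ≤ τ := by
        have := norm_le_abs_re_add_abs_im ((cd r' i').coeff 7)
        rw [hτ, Nat.cast_add, Nat.cast_add, dst_cast, dst_cast]
        rw [coeff_cd_seven gr gi] at this ⊢
        norm_num at this ⊢
        linarith
      rw [eq2]
      refine ⟨gr, gi, ?_, fun w hw => ?_, fun w hw => ?_⟩
      · have k1 := nrm_add_le r0 (cd r' i' - tr (S * Gx d R h)) (tr (S * Gx d R h))
        have k2 := (nrm_tr_le r0 _).trans ((nrm_mul_le r0 S (Gx d R h)).trans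
          (mul_le_of_le_one_right (nrm_nonneg r0 S) nG))
        rw [sub_add_cancel] at k1
        change nrm _ (cd r' i') ≤ (A : ℝ)
        linarith
      · rw [u3]
        exact step_err hR hh hw le_rfl hd ha1 hb1 dS (by rw [eS]; exact H.e1 w hw) B c7
      · rw [u3]
        exact step_err hR hh hw (by norm_num) hd' ha2 hb2 dS (by rw [eS]; exact H.e2 w hw) B c7

/-- A sum of models, not shifted; the errors contain the reserve `eps`. -/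
def HT.AU (t : HT) (f : ℂ → ℂ) (A eps : ℝ) : Prop :=
  ∃ p, RU 8 t.r t.i p ∧ p.natDegree < 8 ∧ nrm (23 / 16) p ≤ A ∧
    (∀ w : ℂ, ‖w‖ ≤ 23 / 16 → ‖2 ^ 64 * f w - p.eval w‖ + eps ≤ t.e1) ∧
    ∀ w : ℂ, ‖w‖ ≤ 23 / 32 → ‖2 ^ 64 * f w - p.eval w‖ + eps ≤ t.e2

def Dq.ok (d : Dq) : Prop := 0 < d.R ∧ d.R ≤ d.rh ∧ d.q1.ok = true ∧ d.q2.ok = true

private theorem HT.AU.hadd {a b : HT} {f g : ℂ → ℂ} {A B eps : ℝ} (ha : a.AU f A eps)
    (hb : b.OK g B) : (hadd a b).AU (fun w => f w + g w) (A + B) eps := by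
  obtain ⟨p, h1, h2, h3, h4, h5⟩ := ha
  have e : ∀ w : ℂ, 2 ^ 64 * (f w + g w) - (p + cd b.r b.i).eval w =
      (2 ^ 64 * f w - p.eval w) + (2 ^ 64 * g w - (cd b.r b.i).eval w) := fun w => by
    rw [eval_add]; ring
  refine ⟨p + cd b.r b.i, ?_, ?_, ?_, fun w hw => ?_, fun w hw => ?_⟩
  · have := h1.add (hb.gr.ru8 hb.gi)
    rw [← add_assoc, ← add_assoc] at this
    exact this
  · exact (natDegree_add_le _ _).trans_lt (max_lt h2 (natDegree_cd _ _))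
  · exact (nrm_add_le (by norm_num) _ _).trans (add_le_add h3 hb.n1)
  · change _ ≤ ((a.e1 + b.e1 : ℕ) : ℝ)
    rw [e, Nat.cast_add]
    linarith [norm_add_le (2 ^ 64 * f w - p.eval w) (2 ^ 64 * g w - (cd b.r b.i).eval w),
      h4 w hw, hb.e1 w hw]
  · change _ ≤ ((a.e2 + b.e2 : ℕ) : ℝ)
    rw [e, Nat.cast_add]
    linarith [norm_add_le (2 ^ 64 * f w - p.eval w) (2 ^ 64 * g w - (cd b.r b.i).eval w),
      h5 w hw, hb.e2 w hw]

private theorem HT.AU.mono {a : HT} {f g : ℂ → ℂ} {A B eps : ℝ} (ha : a.AU f A eps)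
    (h : ∀ w, f w = g w) (hB : A ≤ B) : a.AU g B eps := by
  obtain rfl : f = g := funext h
  obtain ⟨p, h1, h2, h3, h4⟩ := ha
  exact ⟨p, h1, h2, h3.trans hB, h4⟩

private theorem div_succ {x t : ℕ} (ht : 0 < t) {y D : ℝ} (hy : y * 2 ^ 48 = x)
    (hD : (t : ℝ) ≤ D * 2 ^ 48) : y ≤ ((x / t + 1 : ℕ) : ℝ) * D := by
  have h1 : (x : ℝ) ≤ ((x / t + 1 : ℕ) : ℝ) * t := by
    have := Nat.lt_mul_div_succ x ht
    rw [mul_comm] at this
    exact_mod_cast this.le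
  have h2 := mul_le_mul_of_nonneg_left hD (Nat.cast_nonneg (α := ℝ) (x / t + 1))
  refine le_of_mul_le_mul_right ?_ (show (0 : ℝ) < 2 ^ 48 by positivity)
  rw [hy, mul_assoc]
  exact h1.trans h2

private theorem disc_step {d : Dq} (hd : d.ok) {tol ax ay p1 p2 h' k1 k2 : ℕ} {A : Acc} {h : ℝ}
    (hh : 0 ≤ h) (e1 : (p1 : ℝ) = h * (23 / 16) * 2 ^ 48) (e2 : (p2 : ℝ) = h * (23 / 32) * 2 ^ 48)
    (e3 : (h' : ℝ) / 2 ^ 112 = h) (e4 : 2 ^ 64 * (h * (23 / 16) ^ 8) * 2 ^ 48 = k1)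
    (e5 : 2 ^ 64 * (h * (23 / 32) ^ 8) * 2 ^ 48 = k2)
    (hok : (disc0 d tol A ax ay p1 p2 h' k1 k2 (dst ax d.cx) (dst ay d.cy)).ok = true) :
    A.ok = true ∧ (d.rh : ℝ) / 2 ^ 48 + h * (23 / 16) ≤ ‖pt48 ax ay - pt48 d.cx d.cy‖ ∧
    ∃ a b : HT, (disc0 d tol A ax ay p1 p2 h' k1 k2 (dst ax d.cx) (dst ay d.cy)).f = hadd A.f a ∧
      (disc0 d tol A ax ay p1 p2 h' k1 k2 (dst ax d.cx) (dst ay d.cy)).g = hadd A.g b ∧
      a.OK (fun w => hq d.q1.toL ((d.R / 2 ^ 48 : ℝ) / (pt48 ax ay - pt48 d.cx d.cy + h * w)))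
        d.q1.A ∧
      b.OK (fun w => hq d.q2.toL ((d.R / 2 ^ 48 : ℝ) / (pt48 ax ay - pt48 d.cx d.cy + h * w)))
        d.q2.A := by
  obtain ⟨hR, hr, o1, o2⟩ := hd
  obtain ⟨N, hN⟩ : ∃ N, N = ssq (dst ax d.cx) (dst ay d.cy) := ⟨_, rfl⟩
  obtain ⟨s, hs⟩ : ∃ s, s = sqL N (dst ax d.cx + dst ay d.cy) := ⟨_, rfl⟩
  obtain ⟨G, hG⟩ : ∃ G, G = ser (qd (d.R <<< 64) ax d.cx N (N <<< 65))
    (qd (d.R <<< 64) d.cy ay N (N <<< 65)) (qd h' d.cx ax N (N <<< 65))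
    (qd h' ay d.cy N (N <<< 65)) := ⟨_, rfl⟩
  have E : disc0 d tol A ax ay p1 p2 h' k1 k2 (dst ax d.cx) (dst ay d.cy) =
      disc4 d.q1 d.q2 tol A (Nat.ble (d.rh + p1) s) (G.r + U8) (G.i + U8) (V8 - G.i)
        (d.R <<< 64 / (s - p1) + 1) (k1 / (s - p1) + 1) (d.R <<< 64 / (s - p2) + 1)
        (k2 / (s - p2) + 1) ((s - p2) <<< 64 / d.R) := by
    rw [hG, hs, hN]; rfl
  rw [E] at hok ⊢
  have h1 : Nat.ble (d.rh + p1) s = true ∧ A.ok = true := by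
    revert hok
    change Bool.rec false A.ok (Nat.ble (d.rh + p1) s) = true → _
    cases Nat.ble (d.rh + p1) s
    · exact fun h => absurd h (by simp)
    · exact fun h => ⟨rfl, h⟩
  have h2 : d.rh + p1 ≤ s := Nat.le_of_ble_eq_true h1.1
  have n1 := norm_pt48 ax ay d.cx d.cy
  have h3 : (s : ℝ) ≤ 2 ^ 48 * ‖pt48 ax ay - pt48 d.cx d.cy‖ := by
    refine le_of_sq_le_sq ?_ (mul_nonneg (pow_nonneg zero_le_two _) (norm_nonneg _))
    rw [n1, ← hN, hs, pow_two]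
    exact_mod_cast sqL_le N _
  have sp := fun H => ser_spec (ax := ax) (ay := ay) (cx := d.cx) (cy := d.cy) (h' := h') hR H hN
  rw [← hG, e3] at sp
  generalize pt48 ax ay - pt48 d.cx d.cy = D at *
  have h4 : (d.rh : ℝ) + p1 ≤ s := by exact_mod_cast h2
  have h5 : (d.R : ℝ) ≤ d.rh := by exact_mod_cast hr
  have h6 : p2 ≤ p1 := by
    have : (p2 : ℝ) ≤ p1 := by rw [e1, e2]; linarith
    exact_mod_cast this
  have h7 : (d.R : ℝ) / 2 ^ 48 + h * (23 / 16) ≤ ‖D‖ := by linarith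
  have B := sp h7
  have t1 : ((s - p1 : ℕ) : ℝ) ≤ (‖D‖ - h * (23 / 16)) * 2 ^ 48 := by
    rw [Nat.cast_sub (by omega)]; linarith
  have t2 : ((s - p2 : ℕ) : ℝ) ≤ (‖D‖ - h * (23 / 32)) * 2 ^ 48 := by
    rw [Nat.cast_sub (by omega)]; linarith
  have cR : 2 ^ 64 * ((d.R : ℝ) / 2 ^ 48) * 2 ^ 48 = ((d.R <<< 64 : ℕ) : ℝ) := by
    rw [Nat.shiftLeft_eq]; push_cast; ring
  have R0 : 0 < (d.R : ℝ) / 2 ^ 48 := div_pos (Nat.cast_pos.2 hR) (pow_pos two_pos _)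
  have H := fun ia => hor_spec (ia := ia) R0 hh h7 B.ap B.ng (div_succ (by omega) cR t1)
    (div_succ (by omega) e4 t1) (div_succ (by omega) cR t2) (div_succ (by omega) e5 t2)
  exact ⟨h1.2, by linarith, _, _, rfl, rfl, H _ _ o1 _, H _ _ o2 _⟩

private theorem shr_castH {c j : ℕ} (hj : j < 16) :
    (((c * 2 ^ 16) >>> j : ℕ) : ℝ) = c * 2 ^ 16 * (1 / 2 ^ j) := by
  obtain ⟨k, hk⟩ : ∃ k, 16 = k + j := ⟨16 - j, by omega⟩
  rw [Nat.shiftRight_eq_div_pow, hk, pow_add, ← mul_assoc, Nat.mul_div_cancel _ (by positivity)]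
  push_cast
  rw [pow_add]
  field_simp

private theorem discs_aux {tol eps ax ay p1 p2 h' k1 k2 : ℕ} {h : ℝ}
    (hh : 0 ≤ h) (e1 : (p1 : ℝ) = h * (23 / 16) * 2 ^ 48) (e2 : (p2 : ℝ) = h * (23 / 32) * 2 ^ 48)
    (e3 : (h' : ℝ) / 2 ^ 112 = h) (e4 : 2 ^ 64 * (h * (23 / 16) ^ 8) * 2 ^ 48 = k1)
    (e5 : 2 ^ 64 * (h * (23 / 32) ^ 8) * 2 ^ 48 = k2) (ds : List Dq) (hds : ∀ d ∈ ds, d.ok)
    (hok : (discs ds tol eps ax ay p1 p2 h' k1 k2).ok = true) :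
    (∀ d ∈ ds, (d.rh : ℝ) / 2 ^ 48 + h * (23 / 16) ≤ ‖pt48 ax ay - pt48 d.cx d.cy‖) ∧
    (discs ds tol eps ax ay p1 p2 h' k1 k2).f.AU (fun w => 1 + (ds.map fun d => hq d.q1.toL
      (((d.R / 2 ^ 48 : ℝ) : ℂ) / (pt48 ax ay + (h : ℂ) * w - pt48 d.cx d.cy))).sum)
      (2 ^ 64 + ds.length * 2 ^ 74) eps ∧
    (discs ds tol eps ax ay p1 p2 h' k1 k2).g.AU (fun w => 1 + (ds.map fun d => hq d.q2.toL
      (((d.R / 2 ^ 48 : ℝ) : ℂ) / (pt48 ax ay + (h : ℂ) * w - pt48 d.cx d.cy))).sum)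
      (2 ^ 64 + ds.length * 2 ^ 74) eps := by
  induction ds with
  | nil =>
    have : HT.AU ⟨18446744073709551616, 0, eps, eps⟩ (fun _ => 1) (2 ^ 64) eps := by
      have c : ((18446744073709551616 : ℕ) : ℂ) = 2 ^ 64 := by norm_num
      refine ⟨_, RU.nat 8 _, by simp, ?_, fun w _ => ?_, fun w _ => ?_⟩
      · rw [nrm_C, c, norm_pow, Complex.norm_two]
      · rw [eval_C, c, mul_one, sub_self, norm_zero, zero_add]
      · rw [eval_C, c, mul_one, sub_self, norm_zero, zero_add]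
    exact ⟨by simp, this.mono (by simp) (by simp), this.mono (by simp) (by simp)⟩
  | cons d ds ih =>
    have E : discs (d :: ds) tol eps ax ay p1 p2 h' k1 k2 =
        disc0 d tol (discs ds tol eps ax ay p1 p2 h' k1 k2) ax ay p1 p2 h' k1 k2 (dst ax d.cx)
          (dst ay d.cy) := rfl
    rw [E] at hok ⊢
    have hd := hds d List.mem_cons_self
    obtain ⟨o, h1, a, b, ea, eb, ha, hb⟩ := disc_step hd hh e1 e2 e3 e4 e5 hok
    obtain ⟨i1, i2, i3⟩ := ih (fun x hx => hds x (List.mem_cons_of_mem _ hx)) o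
    rw [ea, eb]
    refine ⟨fun x hx => ?_, (i2.hadd ha).mono (fun w => ?_) ?_, (i3.hadd hb).mono (fun w => ?_) ?_⟩
    · rcases List.mem_cons.1 hx with rfl | hx
      exacts [h1, i1 x hx]
    · rw [List.map_cons, List.sum_cons, add_sub_right_comm (pt48 ax ay) _ (pt48 d.cx d.cy)]; ring
    · rw [List.length_cons]; push_cast; linarith [QL.A_le hd.2.2.1]
    · rw [List.map_cons, List.sum_cons, add_sub_right_comm (pt48 ax ay) _ (pt48 d.cx d.cy)]; ring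
    · rw [List.length_cons]; push_cast; linarith [QL.A_le hd.2.2.2]

theorem discs_spec {X Y j tol eps : ℕ} (hj : j < 16) (ds : List Dq) (hds : ∀ d ∈ ds, d.ok) {A : Acc}
    (hA : A = discs ds tol eps (X * 16777216) (Y * 16777216) (404620279021568 >>> j)
      (202310139510784 >>> j) (5192296858534827628530496329220096 >>> j)
      (94672172065662086392688526235795456 >>> j) (369813172131492524971439555608576 >>> j))
    (hok : A.ok = true) :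
    (∀ d ∈ ds, (d.rh : ℝ) / 2 ^ 48 + 1 / 2 ^ j * (23 / 16) ≤ ‖pt X Y - pt48 d.cx d.cy‖) ∧
    A.f.AU (fun w => 1 + (ds.map fun d => hq d.q1.toL (((d.R / 2 ^ 48 : ℝ) : ℂ) /
      (pt X Y + ((1 / 2 ^ j : ℝ) : ℂ) * w - pt48 d.cx d.cy))).sum) (2 ^ 64 + ds.length * 2 ^ 74) eps ∧
    A.g.AU (fun w => 1 + (ds.map fun d => hq d.q2.toL (((d.R / 2 ^ 48 : ℝ) : ℂ) /
      (pt X Y + ((1 / 2 ^ j : ℝ) : ℂ) * w - pt48 d.cx d.cy))).sum) (2 ^ 64 + ds.length * 2 ^ 74) eps := by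
  have e1 : ((404620279021568 >>> j : ℕ) : ℝ) = 1 / 2 ^ j * (23 / 16) * 2 ^ 48 := by
    rw [show 404620279021568 = 23 * 2 ^ 28 * 2 ^ 16 by norm_num, shr_castH hj]; push_cast; ring
  have e2 : ((202310139510784 >>> j : ℕ) : ℝ) = 1 / 2 ^ j * (23 / 32) * 2 ^ 48 := by
    rw [show 202310139510784 = 23 * 2 ^ 27 * 2 ^ 16 by norm_num, shr_castH hj]; push_cast; ring
  have e3 : ((5192296858534827628530496329220096 >>> j : ℕ) : ℝ) / 2 ^ 112 = 1 / 2 ^ j := by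
    rw [show 5192296858534827628530496329220096 = 2 ^ 96 * 2 ^ 16 by norm_num, shr_castH hj]
    push_cast; ring
  have e4 : (2 : ℝ) ^ 64 * ((1 : ℝ) / (2 : ℝ) ^ j * (23 / 16 : ℝ) ^ 8) * (2 : ℝ) ^ 48 =
      ((94672172065662086392688526235795456 >>> j : ℕ) : ℝ) := by
    rw [show 94672172065662086392688526235795456 = 23 ^ 8 * 2 ^ 64 * 2 ^ 16 by norm_num,
      shr_castH hj]
    push_cast; ring
  have e5 : (2 : ℝ) ^ 64 * ((1 : ℝ) / (2 : ℝ) ^ j * (23 / 32 : ℝ) ^ 8) * (2 : ℝ) ^ 48 =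
      ((369813172131492524971439555608576 >>> j : ℕ) : ℝ) := by
    rw [show 369813172131492524971439555608576 = 23 ^ 8 * 2 ^ 56 * 2 ^ 16 by norm_num,
      shr_castH hj]
    push_cast; ring
  have ep : pt48 (X * 16777216) (Y * 16777216) = pt X Y := by
    apply Complex.ext <;> simp only [pt48, pt] <;> push_cast <;> ring
  rw [← ep, hA]
  rw [hA] at hok
  exact discs_aux (one_div_nonneg.2 (pow_nonneg zero_le_two _)) e1 e2 e3 e4 e5 ds hds hok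

theorem fT_ok {t : HT} {f g : ℂ → ℂ} {A eps : ℝ} (h : t.AU f A eps) (hA : A ≤ 2 ^ 90)
    (hg : ∀ w : ℂ, ‖w‖ ≤ 23 / 16 → 2 ^ 64 * ‖g w - f w‖ ≤ eps) : (fT t).OK g := by
  obtain ⟨p, h1, h2, h3, h4, h5⟩ := h
  have c : ((2 ^ 64 : ℕ) : ℂ) = 2 ^ 64 := by norm_num
  have a1 := lo_nrm (ρ := 23 / 16) (by norm_num) le_rfl le_rfl (h1.smul (2 ^ 64)) fun k => by
    have := (norm_coeff_le (by norm_num) p k).trans (h3.trans hA)
    rw [coeff_C_mul, c, norm_mul, norm_pow, Complex.norm_two]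
    linarith
  rw [tr_C_mul, tr_eq_self h2, ← mul_assoc, ← C_mul, c, one_div_mul_cancel (pow_ne_zero _ two_ne_zero), C_1,
    one_mul, mul_comm _ t.r, mul_comm _ t.i, ← Nat.shiftLeft_eq, ← Nat.shiftLeft_eq] at a1
  have key : ∀ (w : ℂ) (e : ℕ), ‖w‖ ≤ 23 / 16 → ‖2 ^ 64 * f w - p.eval w‖ + eps ≤ e →
      ‖(2 : ℂ) ^ 64 * g w - (cd (lo (t.r <<< 64 + cH)) (lo (t.i <<< 64 + cH))).eval w‖ ≤
        ((e + 83 : ℕ) : ℝ) := by
    intro w e hw he
    have a2 := (norm_eval_le hw _).trans a1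
    have a3 := hg w hw
    rw [eval_sub] at a2
    generalize (cd (lo (t.r <<< 64 + cH)) (lo (t.i <<< 64 + cH))).eval w = y at a2
    have a4 : ‖2 ^ 64 * (g w - f w)‖ = 2 ^ 64 * ‖g w - f w‖ := by
      rw [norm_mul, norm_pow, Complex.norm_two]
    rw [show 2 ^ 64 * g w - y = 2 ^ 64 * (g w - f w) + (2 ^ 64 * f w - p.eval w) - (y - p.eval w)
      by ring, Nat.cast_add, Nat.cast_ofNat]
    refine (norm_sub_le _ _).trans ((add_le_add (norm_add_le _ _) a2).trans ?_)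
    linarith
  exact mkT_ok (good_lo _) (good_lo _) (fun w hw => key w _ hw (h4 w hw))
    fun w hw => key w _ (hw.trans (by norm_num)) (h5 w hw)

end Pool.Agent.MP_c434f6_gt.H30.Emb

end

section

/-! The patch condition and the increments inside a cell. -/

open Polynomial Complex Finset Metric
open scoped ComplexConjugate

namespace Pool.Agent.MP_c434f6_gt.H30.Emb

private lemma W8_ge : 2 ^ 96 ≤ W8 ∧ K95m + 2 ^ 95 = W8 ∧ K95p = W8 + 2 ^ 95 := by decide +kernel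

private lemma W8_cast : (W : ℤ) ^ 8 = (W8 : ℕ) := by rw [W8, Nat.cast_pow]

private lemma kM (t : ℕ) : (W : ℤ) ^ 8 ∣ ((t : ℤ) - 2 ^ 95) - ((t + K95m : ℕ) : ℤ) := by
  have := W8_ge
  rw [W8_cast]
  generalize W8 = Z, K95m = k, K95p = l at this ⊢
  exact ⟨-1, by omega⟩

private lemma kP {t : ℕ} (ht : t < 2 ^ 96) :
    (W : ℤ) ^ 8 ∣ (-((t : ℤ) - 2 ^ 95)) - ((K95p - t : ℕ) : ℤ) := by
  have := W8_ge
  rw [W8_cast]
  generalize W8 = Z, K95m = k, K95p = l at this ⊢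
  exact ⟨-1, by omega⟩

private lemma kN {t : ℕ} (ht : t < 2 ^ 96) : Ng 8 (t + K95m) (K95p - t) := by
  have := W8_ge
  rw [Ng, W8_cast]
  generalize W8 = Z, K95m = k, K95p = l at this ⊢
  exact ⟨2, by omega⟩

private lemma shr_ge (x s : ℕ) : (x : ℝ) / 2 ^ s < ((x >>> s : ℕ) : ℝ) + 1 := by
  rw [Nat.shiftRight_eq_div_pow, div_lt_iff₀ (by positivity)]
  have := Nat.lt_div_mul_add (a := x) (b := 2 ^ s) (by positivity)
  have h : (x : ℝ) < ((x / 2 ^ s * 2 ^ s + 2 ^ s : ℕ) : ℝ) := by exact_mod_cast this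
  push_cast [Nat.cast_mul, Nat.cast_add] at h
  linarith

private lemma comb {p q : ℂ[X]} {c d : ℂ} {x y : ℕ} (hU : RU 8 x y (p * C c + q * C d))
    (dp : p.natDegree < 8) (dq : q.natDegree < 8) (np : nrm (23 / 16) p ≤ 2 ^ 77)
    (nq : nrm (23 / 16) q ≤ 2 ^ 77) (hc : ‖c‖ ≤ 2 ^ 77) (hd : ‖d‖ ≤ 2 ^ 77) {w : ℂ}
    (hw : ‖w‖ ≤ 23 / 16) :
    ‖(cd (lo (x + cH)) (lo (y + cH))).eval w - (p.eval w * c + q.eval w * d) / 2 ^ 64‖ ≤ 83 := by
  have h0 : (0 : ℝ) ≤ 23 / 16 := by norm_num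
  have h1 : nrm (23 / 16) (p * C c + q * C d) ≤ 2 ^ 77 * 2 ^ 77 + 2 ^ 77 * 2 ^ 77 := by
    refine (nrm_add_le h0 _ _).trans ?_
    rw [mul_comm p, mul_comm q, nrm_C_mul, nrm_C_mul]
    have := nrm_nonneg h0 p
    have := nrm_nonneg h0 q
    gcongr
  have h2 := lo_nrm h0 le_rfl le_rfl hU fun k =>
    ((norm_coeff_le (by norm_num) _ k).trans h1).trans_lt (by norm_num)
  have h3 : (p * C c + q * C d).natDegree < 8 :=
    (natDegree_add_le _ _).trans_lt (max_lt ((natDegree_mul_C_le _ _).trans_lt dp)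
      ((natDegree_mul_C_le _ _).trans_lt dq))
  rw [tr_eq_self h3] at h2
  refine le_of_eq_of_le ?_ ((norm_eval_le hw _).trans h2)
  simp only [eval_sub, eval_mul, eval_add, eval_C]
  congr 1
  ring

private lemma nw_eq (a b : TM) : nw a b = nw2
    (lo ((a.r + U8) * (d0 a.r + K95m) + (a.i + U8) * (d0 a.i + K95m) +
      ((b.r + U8) * (d0 b.r + K95m) + (b.i + U8) * (d0 b.i + K95m)) + cH))
    (lo ((a.r + U8) * (K95p - d0 a.i) + (a.i + U8) * (d0 a.r + K95m) +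
      ((b.r + U8) * (K95p - d0 b.i) + (b.i + U8) * (d0 b.r + K95m)) + cH))
    (lo ((b.r + U8) * (d0 a.r + K95m) + (b.i + U8) * (K95p - d0 a.i) +
      ((a.r + U8) * (K95p - d0 b.r) + (a.i + U8) * (d0 b.i + K95m)) + cH))
    (lo ((b.r + U8) * (d0 a.i + K95m) + (b.i + U8) * (d0 a.r + K95m) +
      ((a.r + U8) * (K95p - d0 b.i) + (a.i + U8) * (K95p - d0 b.r)) + cH))
    (((a.n2 + b.n2) * (a.e1 + b.e1)) >>> 64 + 84) := by
  simp only [nw, nw0, nw1, mac4, Nat.add_eq, Nat.mul_eq, Nat.sub_eq, Nat.shiftRight_eq]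

private lemma nw3_aux (k l : ℕ) (F : ℕ → ℕ → ℕ → Bool) (hF : F = fun u a b : ℕ =>
    (Bool.rec false (Nat.ble (Nat.add (Nat.add a a) l) u) (Nat.ble (Nat.add (Nat.add a b) k) u) :
      Bool)) {u a b : ℕ} (h : F u a b = true) : a + b + k ≤ u ∧ a + a + l ≤ u := by
  subst hF
  obtain ⟨h1, h2⟩ := recF h
  exact ⟨Nat.le_of_ble_eq_true h1, Nat.le_of_ble_eq_true h2⟩

private lemma nw2_le {ur ui vr vi e : ℕ} (h : nw2 ur ui vr vi e = true) :
    dot (cabs ur ui) w1t 36 + dst (d0 ui) 39614081257132168796771975168 + e +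
        (dot (cabs vr vi) w1 36 + e) + 39614081257132168796771975169 ≤ d0 ur ∧
      dot (cabs ur ui) w1t 36 + dst (d0 ui) 39614081257132168796771975168 + e +
        (dot (cabs ur ui) w1t 36 + dst (d0 ui) 39614081257132168796771975168 + e) +
        39614081257132168796771975168 ≤ d0 ur := by
  simp only [nw2, Nat.add_eq] at h
  exact nw3_aux _ _ nw3 rfl h

private lemma err_le {c d x y : ℂ} {n m e f : ℕ} (hc : ‖c‖ ≤ n) (hd : ‖d‖ ≤ m)
    (hx : ‖x‖ ≤ e) (hy : ‖y‖ ≤ f) :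
    ‖(x * c + y * d) / 2 ^ 64‖ ≤ (((n + m) * (e + f)) >>> 64 : ℕ) + 1 := by
  refine le_trans ?_ (shr_ge _ _).le
  rw [norm_div, norm_pow, Complex.norm_ofNat]
  gcongr
  refine (norm_add_le _ _).trans ?_
  rw [norm_mul, norm_mul]
  push_cast
  have h1 : ‖x‖ * ‖c‖ ≤ e * n := by gcongr
  have h2 : ‖y‖ * ‖d‖ ≤ f * m := by gcongr
  have h3 : (0 : ℝ) ≤ n * f := by positivity
  have h4 : (0 : ℝ) ≤ m * e := by positivity
  nlinarith

theorem nw_ok {a b : TM} {f g : ℂ → ℂ} (ha : a.OK f) (hb : b.OK g) (h1 : a.n1 ≤ 2 ^ 77)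
    (h2 : b.n1 ≤ 2 ^ 77) (h : nw a b = true) :
    ∃ (α β : ℂ) (σ d₁ d₂ : ℝ), (∀ w : ℂ, ‖w‖ ≤ 23 / 16 → ‖α * f w + β * g w - σ‖ ≤ d₁) ∧
      (∀ w : ℂ, ‖w‖ ≤ 23 / 16 → ‖conj α * g w - conj β * f w‖ ≤ d₂) ∧ d₁ + d₂ < σ ∧ 2 * d₁ ≤ σ := by
  rw [nw_eq] at h
  have na : nrm (23 / 16) (cd a.r a.i) ≤ 2 ^ 77 := ha.n1.trans (by exact_mod_cast h1)
  have nb : nrm (23 / 16) (cd b.r b.i) ≤ 2 ^ 77 := hb.n1.trans (by exact_mod_cast h2)
  have ra := ha.gr.ru8 ha.gi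
  have rb := hb.gr.ru8 hb.gi
  have a1 := ha.gr.d0_lt
  have a2 := ha.gi.d0_lt
  have b1 := hb.gr.d0_lt
  have b2 := hb.gi.d0_lt
  obtain ⟨a0, ea⟩ : ∃ a0, a0 = (cd a.r a.i).coeff 0 := ⟨_, rfl⟩
  obtain ⟨b0, eb⟩ : ∃ b0, b0 = (cd b.r b.i).coeff 0 := ⟨_, rfl⟩
  have ma : ‖a0‖ ≤ 2 ^ 77 := ea ▸ (norm_coeff_le (by norm_num) _ 0).trans na
  have mb : ‖b0‖ ≤ 2 ^ 77 := eb ▸ (norm_coeff_le (by norm_num) _ 0).trans nb
  have ma' : ‖a0‖ ≤ a.n2 := by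
    simpa [ea] using (norm_coeff_mul_le (by norm_num) _ 0).trans ha.n2
  have mb' : ‖b0‖ ≤ b.n2 := by
    simpa [eb] using (norm_coeff_mul_le (by norm_num) _ 0).trans hb.n2
  have e0 : ∀ r i : ℕ, (cd r i).coeff 0 = (((d0 r : ℤ) - 2 ^ 95 : ℤ) : ℂ) +
      (((d0 i : ℤ) - 2 ^ 95 : ℤ) : ℂ) * I := fun r i => by
    rw [coeff_cd_zero, mk_eq_add_mul_I]; push_cast; ring
  rw [e0] at ea eb
  have c1 : RU 8 (d0 a.r + K95m) (K95p - d0 a.i) (C (conj a0)) := by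
    refine (congrArg (fun z => RU 8 _ _ (C z)) ?_).mp (RU.const (kM _) (kP a2))
    rw [ea, map_add, map_mul, map_intCast, map_intCast, conj_I, Int.cast_neg]; ring
  have c2 : RU 8 (d0 b.r + K95m) (K95p - d0 b.i) (C (conj b0)) := by
    refine (congrArg (fun z => RU 8 _ _ (C z)) ?_).mp (RU.const (kM _) (kP b2))
    rw [eb, map_add, map_mul, map_intCast, map_intCast, conj_I, Int.cast_neg]; ring
  have c3 : RU 8 (d0 a.r + K95m) (d0 a.i + K95m) (C a0) := ea ▸ RU.const (kM _) (kM _)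
  have c4 : RU 8 (K95p - d0 b.r) (K95p - d0 b.i) (C (-b0)) := by
    refine (congrArg (fun z => RU 8 _ _ (C z)) ?_).mp (RU.const (kP b1) (kP b2))
    rw [eb, Int.cast_neg, Int.cast_neg]; ring
  have u := fun w => comb (w := w) ((ra.mul c1 (kN a2).symm).add (rb.mul c2 (kN b2).symm))
    (natDegree_cd _ _) (natDegree_cd _ _) na nb (by rwa [norm_conj]) (by rwa [norm_conj])
  have v := fun w => comb (w := w) ((rb.mul c3 (kN a2)).add (ra.mul c4 (kN b2).symm))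
    (natDegree_cd _ _) (natDegree_cd _ _) nb na ma (by rwa [norm_neg])
  obtain ⟨k1, k2⟩ := nw2_le h
  clear h
  generalize hur : lo ((a.r + U8) * (d0 a.r + K95m) + _ + _ + cH) = ur at u k1 k2
  generalize hui : lo ((a.r + U8) * (K95p - d0 a.i) + _ + _ + cH) = ui at u k1 k2
  generalize hvr : lo ((b.r + U8) * (d0 a.r + K95m) + _ + _ + cH) = vr at v k1
  generalize hvi : lo ((b.r + U8) * (d0 a.i + K95m) + _ + _ + cH) = vi at v k1
  have t1 := nrm_le_dot1t (r := ur) (i := ui) (hur ▸ good_lo _) (hui ▸ good_lo _)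
  have t2 := nrm_le_dot1 (r := vr) (i := vi) (hvr ▸ good_lo _) (hvi ▸ good_lo _)
  have t3 := dst_cast (d0 ui) 39614081257132168796771975168
  clear hur hui hvr hvi c1 c2 c3 c4 ra rb ea eb
  generalize dot (cabs ur ui) w1t 36 = p1 at t1 k1 k2
  generalize dot (cabs vr vi) w1 36 = p2 at t2 k1
  generalize dst (d0 ui) 39614081257132168796771975168 = p3 at t3 k1 k2
  have e1 := fun w hw => err_le (c := conj a0) (d := conj b0) (by rwa [norm_conj])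
    (by rwa [norm_conj]) (ha.e1 w hw) (hb.e1 w hw)
  have e2 := fun w hw => err_le (c := -b0) (d := a0) (by rwa [norm_neg]) ma' (ha.e1 w hw)
    (hb.e1 w hw)
  rw [add_comm b.n2] at e2
  generalize ((a.n2 + b.n2) * (a.e1 + b.e1)) >>> 64 = E at e1 e2 k1 k2
  have k3 := (Nat.cast_le (α := ℝ)).2 k1
  have k4 := (Nat.cast_le (α := ℝ)).2 k2
  push_cast at k3 k4 t3
  have n64 : ∀ (z : ℂ) (r : ℝ), ‖z‖ ≤ r → ‖z / 2 ^ 64‖ ≤ r / 2 ^ 64 := fun z r hz => by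
    rw [norm_div, norm_pow, Complex.norm_ofNat]
    gcongr
  refine ⟨conj a0 / 2 ^ 64, conj b0 / 2 ^ 64, ((d0 ur : ℝ) - 2 ^ 95) / 2 ^ 64,
    (p1 + p3 + (E + 84)) / 2 ^ 64, (p2 + (E + 84)) / 2 ^ 64, fun w hw => ?_, fun w hw => ?_,
    by linarith, by linarith⟩
  · have q1 := (norm_eval_le hw _).trans t1
    rw [eval_sub, eval_C, coeff_cd_zero] at q1
    have q2 : ‖(⟨(d0 ur : ℝ) - 2 ^ 95, (d0 ui : ℝ) - 2 ^ 95⟩ : ℂ) -
        (((d0 ur : ℝ) - 2 ^ 95 : ℝ) : ℂ)‖ ≤ p3 := by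
      refine (norm_le_abs_re_add_abs_im _).trans_eq ?_
      rw [sub_re, sub_im, ofReal_re, ofReal_im, sub_self, abs_zero, zero_add, sub_zero, t3]
      norm_num
    have q3 := norm_sub_le_of_le (norm_add_le_of_le (norm_add_le_of_le q1 q2) (e1 w hw)) (u w hw)
    refine le_of_eq_of_le (congrArg _ ?_) ((n64 _ _ q3).trans_eq (by ring))
    generalize ((d0 ur : ℝ) - 2 ^ 95 : ℝ) = s
    push_cast
    ring
  · have q1 := (norm_eval_le hw _).trans t2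
    have q3 := norm_sub_le_of_le (norm_add_le_of_le q1 (e2 w hw)) (v w hw)
    refine le_of_eq_of_le (congrArg _ ?_) ((n64 _ _ q3).trans_eq (by ring))
    simp only [map_div₀, map_pow, map_ofNat, conj_conj]
    ring

/-- The point with coordinates in units `1 / 256`, shifted by `1`. -/
noncomputable def wp (x y : ℕ) : ℂ := ⟨x / 256 - 1, y / 256 - 1⟩

theorem wp_le {x y : ℕ} (h : pvOK x y = true) : ‖wp x y‖ ≤ 23 / 32 := by
  have h1 : (ssq (dst x 256) (dst y 256) : ℝ) ≤ (33856 : ℕ) :=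
    Nat.cast_le.2 (Nat.le_of_ble_eq_true h)
  rw [ssq_cast, dst_cast, dst_cast, sq_abs, sq_abs] at h1
  refine (abs_le_of_sq_le_sq' ?_ (by norm_num)).2
  rw [Complex.sq_norm, normSq_apply, wp]
  push_cast at h1
  dsimp only
  nlinarith

noncomputable def Vp (w : ℂ) : ℂ[X] :=
  ∑ k ∈ range 8, monomial (7 - k) (840 * 2 ^ 64 * (w ^ (k + 1) / (k + 1)))

private lemma pv1_spec {a b n : ℕ} {q : ℂ[X]} (h1 : RU 8 a b q) (h2 : Ng 8 b n)
    (l : List (ℕ × ℕ)) : RU 8 (pv1 a b n l).r (pv1 a b n l).i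
      (l.foldr (fun c p => (p + C (c.1 : ℂ) * X ^ c.2) * q) 0) ∧ (pv1 a b n l).i ≤ W8 := by
  induction l with
  | nil =>
    have h3 := RU.nat 8 0
    rw [Nat.cast_zero, C_0] at h3
    exact ⟨h3, Nat.zero_le _⟩
  | cons c l ih =>
    have e : pv1 a b n (c :: l) =
        ⟨(((pv1 a b n l).r + c.1 * W ^ c.2) * a + (pv1 a b n l).i * n) % W8,
          (((pv1 a b n l).r + c.1 * W ^ c.2) * b + (pv1 a b n l).i * a) % W8⟩ := rfl
    rw [e]
    have h3 := ih.1.add ((RU.nat 8 c.1).mulW c.2)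
    rw [zero_mul, add_zero] at h3
    exact ⟨(h3.mul h1 h2).mod, (Nat.mod_lt _ (lt_of_lt_of_le (by positivity) W8_ge.1)).le⟩

theorem pv_spec (x y : ℕ) (hy : y ≤ 512) :
    RU 8 (pv x y).r (pv x y).i (Vp (wp x y)) ∧ Ng 8 (pv x y).i (pv x y).n := by
  have e : pv x y = ⟨(pv1 (x + W8 - 256) (y + W8 - 256) (W8 + 256 - y) gs).r,
      (pv1 (x + W8 - 256) (y + W8 - 256) (W8 + 256 - y) gs).i,
      W8 - (pv1 (x + W8 - 256) (y + W8 - 256) (W8 + 256 - y) gs).i⟩ := by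
    simp only [pv, Nat.add_eq, Nat.sub_eq]
  have hW := W8_ge.1
  have h1 : ∀ t : ℕ, (W : ℤ) ^ 8 ∣ ((t : ℤ) - 256) - ((t + W8 - 256 : ℕ) : ℤ) := fun t => by
    rw [W8_cast]
    generalize W8 = Z at hW ⊢
    exact ⟨-1, by omega⟩
  have h2 : Ng 8 (y + W8 - 256) (W8 + 256 - y) := by
    rw [Ng, W8_cast]
    generalize W8 = Z at hW ⊢
    exact ⟨2, by omega⟩
  obtain ⟨h3, h4⟩ := pv1_spec (RU.const (h1 x) (h1 y)) h2 gs
  rw [e]
  generalize pv1 (x + W8 - 256) (y + W8 - 256) (W8 + 256 - y) gs = P at h3 h4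
  refine ⟨(congrArg (RU 8 _ _) ?_).mp h3, ?_⟩
  · have e1 : ((((x : ℤ) - 256 : ℤ) : ℂ) + (((y : ℤ) - 256 : ℤ) : ℂ) * I) = 256 * wp x y := by
      apply Complex.ext <;> simp [wp] <;> ring
    rw [e1]
    refine Polynomial.funext fun z => ?_
    simp only [gs, List.foldr, Vp, sum_range_succ, sum_range_zero, eval_add, eval_mul, eval_C,
      eval_pow, eval_X, eval_zero, eval_monomial]
    push_cast
    ring
  · rw [Ng, W8_cast]
    generalize W8 = Z at h4 ⊢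
    exact ⟨1, by dsimp only; omega⟩

/-- The primitive that vanishes at `0`. -/
noncomputable def prim (p : ℂ[X]) (w : ℂ) : ℂ := ∑ k ∈ range 8, p.coeff k * (w ^ (k + 1) / (k + 1))

theorem hasDerivAt_prim {p : ℂ[X]} (h : p.natDegree < 8) (w : ℂ) :
    HasDerivAt (prim p) (p.eval w) w := by
  rw [eval_eq_sum_range' h]
  refine HasDerivAt.fun_sum fun k _ => HasDerivAt.const_mul _ ?_
  have h1 : (k : ℂ) + 1 ≠ 0 := Nat.cast_add_one_ne_zero k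
  refine ((hasDerivAt_pow (k + 1) w).div_const ((k : ℂ) + 1)).congr_deriv ?_
  rw [Nat.add_sub_cancel]
  push_cast
  field_simp

theorem coeff_mul_Vp (p : ℂ[X]) (w : ℂ) : (p * Vp w).coeff 7 = 840 * 2 ^ 64 * prim p w := by
  rw [Vp, prim, mul_sum, mul_sum, finsetSum_coeff]
  refine sum_congr rfl fun k hk => ?_
  have h1 : k + (7 - k) = 7 := by have := mem_range.1 hk; omega
  have h2 := coeff_mul_monomial p (7 - k) k (840 * 2 ^ 64 * (w ^ (k + 1) / (k + 1)))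
  rw [h1] at h2
  rw [h2]
  ring

theorem nrm_Vp {w : ℂ} (h : ‖w‖ ≤ 1) : nrm 1 (Vp w) ≤ 2 ^ 77 := by
  refine (nrm_sum_le zero_le_one _ _).trans ((sum_le_card_nsmul _ _ (840 * 2 ^ 64) fun k _ => ?_).trans
    (by rw [card_range]; norm_num))
  rw [nrm_monomial, one_pow, mul_one, norm_mul, norm_mul, norm_pow, Complex.norm_ofNat,
    Complex.norm_ofNat, norm_div, norm_pow]
  refine mul_le_of_le_one_right (by positivity) ?_
  have h1 : ‖(k : ℂ) + 1‖ = k + 1 := by exact_mod_cast Complex.norm_natCast (k + 1)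
  rw [h1]
  refine div_le_one_of_le₀ ((pow_le_one₀ (norm_nonneg _) h).trans ?_) (by positivity)
  linarith [(Nat.cast_nonneg k : (0 : ℝ) ≤ k)]

private lemma coeff_lt {p : ℂ[X]} (hp : nrm (23 / 16) p ≤ 2 ^ 77) {w : ℂ} (hw : ‖w‖ ≤ 1) (k : ℕ) :
    ‖(p * Vp w).coeff k‖ < 2 ^ 158 := by
  have h1 := (nrm_mono zero_le_one (by norm_num) p).trans hp
  refine ((norm_coeff_le le_rfl _ k).trans ((nrm_mul_le zero_le_one _ _).trans
    (mul_le_mul h1 (nrm_Vp hw) (nrm_nonneg zero_le_one _) (by positivity)))).trans_lt (by norm_num)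

private lemma scale {x y : ℂ} {e : ℝ} (h : ‖2 ^ 64 * x - y‖ ≤ e) :
    ‖x - y / 2 ^ 64‖ ≤ e / 2 ^ 64 := by
  rw [show x - y / 2 ^ 64 = (2 ^ 64 * x - y) / 2 ^ 64 by ring, norm_div, norm_pow,
    Complex.norm_ofNat]
  gcongr

private lemma inc_fin {T n c t h E F : ℝ} (_h0 : 0 < h)
    (i : |n - (c + 1680 * 2 ^ 148) / (1680 * 2 ^ 64 / h)| ≤ 1) (k : |T - t| ≤ E)
    (hc : c * h = 1680 * 2 ^ 128 * t) (hF : 2 ^ 64 * E + 1 ≤ F) :
    |2 ^ 64 * T + 2 ^ 84 * h - n| ≤ F := by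
  have e : (c + 1680 * 2 ^ 148) / (1680 * 2 ^ 64 / h) = 2 ^ 64 * t + 2 ^ 84 * h := by
    field_simp
    linear_combination hc
  rw [e] at i
  obtain ⟨i1, i2⟩ := abs_le.1 i
  obtain ⟨k1, k2⟩ := abs_le.1 k
  exact abs_le.2 ⟨by linarith, by linarith⟩

/-- `D` gives the increments of `X` from the point `a`, up to `e`. -/
def ID.OK (D : ID) (S : Sch (Fin 8)) (a : ℂ) (h e : ℝ) : Prop :=
  ∀ x y, pvOK x y = true →
    |2 ^ 64 * (S.Z (a + h * wp x y) - S.Z a).re + D.b - inc0 D (pv x y)| ≤ e ∧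
    |2 ^ 64 * (S.Z (a + h * wp x y) - S.Z a).im + D.b - inc1 D (pv x y)| ≤ e ∧
    |2 ^ 64 * (S.h3 (a + h * wp x y) - S.h3 a) + D.b - inc2 D (pv x y)| ≤ e

theorem id_ok {S : Sch (Fin 8)} (An : S.Ana) {a : ℂ} {j : ℕ} (hj : j < 16) {h : ℝ}
    (hh : h = 1 / 2 ^ j) (hV : closedBall a (h * (23 / 32)) ⊆ S.V) {A B C : TM}
    (hA : A.OK fun w => S.s1 (a + h * w) * S.s1 (a + h * w))
    (hB : B.OK fun w => S.s2 (a + h * w) * S.s2 (a + h * w))
    (hC : C.OK fun w => S.s1 (a + h * w) * S.s2 (a + h * w))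
    (hn : A.n1 + B.n1 + 2 * C.n1 ≤ 2 ^ 77) :
    ID.OK ⟨B.r + U8 + (V8 - A.r), B.i + U8 + (V8 - A.i), V8 - B.r + (V8 - A.r),
        V8 - B.i + (V8 - A.i), 2 * (C.r + U8), 2 * (C.i + U8), 1680 <<< (64 + j),
        19342813113834066795298816 >>> j⟩ S a h
      (((23 * (A.e2 + B.e2 + 2 * C.e2)) >>> (j + 6) + 2 : ℕ) : ℝ) := by
  intro x y hxy
  have hw := wp_le hxy
  have hy : y ≤ 512 := by
    have h1 := (abs_le.1 ((abs_im_le_norm _).trans hw)).2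
    have h2 : (y : ℝ) ≤ (512 : ℕ) := by
      rw [wp] at h1
      push_cast
      dsimp only at h1
      linarith
    exact Nat.cast_le.1 h2
  obtain ⟨v1, v2⟩ := pv_spec x y hy
  generalize pv x y = v at v1 v2
  generalize wp x y = w at v1 hw
  have h0 : 0 < h := by rw [hh]; positivity
  have r0 : (0 : ℝ) ≤ 23 / 16 := by norm_num
  have hn' : (A.n1 : ℝ) + B.n1 + 2 * C.n1 ≤ 2 ^ 77 := by exact_mod_cast hn
  have nA := hA.n1
  have nB := hB.n1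
  have nC := hC.n1
  have zA := nrm_nonneg r0 (cd A.r A.i)
  have zB := nrm_nonneg r0 (cd B.r B.i)
  have zC := nrm_nonneg r0 (cd C.r C.i)
  have rA := hA.gr.ru8 hA.gi
  have rB := hB.gr.ru8 hB.gi
  have rA' := rA.neg hA.gr.ng8 hA.gi.ng8
  have rB' := rB.neg hB.gr.ng8 hB.gi.ng8
  have hw1 : ‖w‖ ≤ 1 := hw.trans (by norm_num)
  have hq : 0 < 1680 <<< (64 + j) := by rw [Nat.shiftLeft_eq]; positivity
  have i0 := inc_re ((rB.add rA').mul v1 v2) (coeff_lt ((nrm_add_le r0 _ _).trans (by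
    rw [nrm_neg]; linarith)) hw1) hq
  have i1 := inc_im ((rB'.add rA').mul v1 v2) (coeff_lt ((nrm_add_le r0 _ _).trans (by
    rw [nrm_neg, nrm_neg]; linarith)) hw1) hq
  have i2 := inc_re (((hC.gr.ru8 hC.gi).smul 2).mul v1 v2) (coeff_lt (by
    rw [nrm_C_mul, Complex.norm_natCast]; push_cast; linarith) hw1) hq
  obtain ⟨k1, k2⟩ := An.incr h0 hV
    (fun w => (hasDerivAt_prim (natDegree_cd A.r A.i) w).div_const (2 ^ 64))
    (fun w => (hasDerivAt_prim (natDegree_cd B.r B.i) w).div_const (2 ^ 64))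
    (fun w => (hasDerivAt_prim (natDegree_cd C.r C.i) w).div_const (2 ^ 64))
    (by simp [prim]) (by simp [prim]) (by simp [prim]) (fun w hw => scale (hA.e2 w hw))
    (fun w hw => scale (hB.e2 w hw)) (fun w hw => scale (hC.e2 w hw)) hw
  have k3 := (abs_re_le_norm _).trans k1
  have k4 := (abs_im_le_norm _).trans k1
  have k6 := shr_ge (23 * (A.e2 + B.e2 + 2 * C.e2)) (j + 6)
  have eq : ((1680 <<< (64 + j) : ℕ) : ℝ) = 1680 * 2 ^ 64 / h := by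
    rw [Nat.shiftLeft_eq, hh]; push_cast; field_simp; ring
  have eb : ((19342813113834066795298816 >>> j : ℕ) : ℝ) = 2 ^ 84 * h := by
    rw [Nat.shiftRight_eq_div_pow, hh, Nat.cast_div (by
      exact (pow_dvd_pow 2 (by omega : j ≤ 84)).trans (by norm_num)) (by positivity)]
    push_cast; ring
  have ej : (2 : ℝ) ^ (j + 6) = 64 / h := by rw [hh]; field_simp; ring
  simp only [add_mul, neg_mul, mul_assoc, coeff_add, coeff_neg, coeff_C_mul, coeff_mul_Vp, eq]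
    at i0 i1 i2
  rw [ej] at k6
  simp only [inc0, inc1, inc2, eb]
  generalize prim (cd A.r A.i) w = PA at i0 i1 k3 k4
  generalize prim (cd B.r B.i) w = PB at i0 i1 k3 k4
  generalize prim (cd C.r C.i) w = PC at i2 k2
  have f1 : h * (conj (PB / 2 ^ 64) - PA / 2 ^ 64) / 2 = ((h / 2 ^ 65 : ℝ) : ℂ) * (conj PB - PA) := by
    simp only [map_div₀, map_pow, map_ofNat]; push_cast; ring
  have f2 : 840 * (2 ^ 64 * PB) + -(840 * (2 ^ 64 * PA)) = ((840 * 2 ^ 64 : ℝ) : ℂ) * (PB - PA) := by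
    push_cast; ring
  have f3 : -(840 * (2 ^ 64 * PB)) + -(840 * (2 ^ 64 * PA)) =
      ((840 * 2 ^ 64 : ℝ) : ℂ) * (-PB - PA) := by
    push_cast; ring
  have f4 : ((2 : ℕ) : ℂ) * (840 * (2 ^ 64 * PC)) = ((1680 * 2 ^ 64 : ℝ) : ℂ) * PC := by
    push_cast; ring
  have f5 : PC / 2 ^ 64 = ((1 / 2 ^ 64 : ℝ) : ℂ) * PC := by push_cast; ring
  rw [f1, sub_re, re_ofReal_mul, sub_re (conj PB), conj_re] at k3
  rw [f1, sub_im, im_ofReal_mul, sub_im (conj PB), conj_im] at k4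
  rw [f2, re_ofReal_mul, sub_re] at i0
  rw [f3, im_ofReal_mul, sub_im, neg_im] at i1
  rw [f4, re_ofReal_mul] at i2
  rw [f5, re_ofReal_mul] at k2
  rw [div_div_eq_mul_div] at k6
  rw [Nat.cast_add, Nat.cast_ofNat]
  generalize (((23 * (A.e2 + B.e2 + 2 * C.e2)) >>> (j + 6) : ℕ) : ℝ) = F at k6
  push_cast at k6
  have g1 : 0 ≤ A.e2 * h := by positivity
  have g2 : 0 ≤ B.e2 * h := by positivity
  have g3 : 0 ≤ C.e2 * h := by positivity
  exact ⟨inc_fin h0 i0 k3 (by ring) (by linarith), inc_fin h0 i1 k4 (by ring) (by linarith),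
    inc_fin h0 i2 k2 (by ring) (by linarith)⟩

private lemma rad_ok {r x d s e : ℕ} (h : rad r x d s (e + 35184372088833) = true) :
    (16 * x + 23 * d : ℝ) / 2 ^ s + e + 2 ^ 45 ≤ r * 2 ^ 44 := by
  rw [rad.eq_1] at h
  have h1 := Nat.le_of_ble_eq_true h
  simp only [Nat.add_eq, Nat.mul_eq, Nat.shiftRight_eq, Nat.shiftLeft_eq'] at h1
  rw [Nat.shiftLeft_eq] at h1
  have h2 := shr_ge (16 * x + 23 * d) s
  generalize (16 * x + 23 * d) >>> s = F at h1 h2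
  have h3 := (Nat.cast_le (α := ℝ)).2 h1
  push_cast at h2 h3
  linarith

private lemma cst {t : TM} {f : ℂ → ℂ} {a : ℂ} {h : ℝ} (h0 : 0 < h)
    (ht : t.OK fun w => f (a + h * w)) (z : ℂ) (hz : z ∈ closedBall a (h * (23 / 32))) :
    ‖f z - (cd t.r t.i).coeff 0 / 2 ^ 64‖ ≤ (t.t2 + t.e2 : ℝ) / 2 ^ 64 := by
  have h1 : (h : ℂ) ≠ 0 := ofReal_ne_zero.2 h0.ne'
  have hw : ‖(z - a) / h‖ ≤ 23 / 32 := by
    rw [norm_div, norm_real, Real.norm_of_nonneg h0.le, div_le_iff₀ h0, mul_comm]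
    rwa [mem_closedBall, dist_eq_norm] at hz
  have h2 := ht.e2 _ hw
  have h3 := (norm_eval_le hw _).trans ht.t2
  rw [eval_sub, eval_C] at h3
  rw [show a + h * ((z - a) / h) = z by field_simp; ring] at h2
  refine scale (le_of_eq_of_le (congrArg _ ?_) (norm_add_le_of_le h3 h2))
  ring

/-- Variation of `X` on a leaf of half side `2 ^ (-j - n - 1)` inside the cell. -/
theorem rads_ok {S : Sch (Fin 8)} (An : S.Ana) {a : ℂ} {j : ℕ} {h : ℝ}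
    (hh : h = 1 / 2 ^ j) (hV : closedBall a (h * (23 / 32)) ⊆ S.V) {A B C : TM}
    (hA : A.OK fun w => S.s1 (a + h * w) * S.s1 (a + h * w))
    (hB : B.OK fun w => S.s2 (a + h * w) * S.s2 (a + h * w))
    (hC : C.OK fun w => S.s1 (a + h * w) * S.s2 (a + h * w)) {m n e : ℕ}
    (hr : rads m (d0 A.r) (d0 A.i) (d0 B.r) (d0 B.i) (d0 C.r) (d0 C.i)
      (A.t2 + A.e2 + (B.t2 + B.e2)) (C.t2 + C.e2) (j + n + 6) (e + 35184372088833) = true)
    {z z₀ : ℂ} (hz : z ∈ closedBall a (h * (23 / 32))) (hz₀ : z₀ ∈ closedBall a (h * (23 / 32)))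
    (hre : |z.re - z₀.re| ≤ 1 / 2 ^ (j + n + 1)) (him : |z.im - z₀.im| ≤ 1 / 2 ^ (j + n + 1)) :
    2 ^ 64 * |(S.Z z).re - (S.Z z₀).re| + e + 2 ^ 45 ≤ mR0 m * 2 ^ 44 ∧
    2 ^ 64 * |(S.Z z).im - (S.Z z₀).im| + e + 2 ^ 45 ≤ mR1 m * 2 ^ 44 ∧
    2 ^ 64 * |S.h3 z - S.h3 z₀| + e + 2 ^ 45 ≤ mR2 m * 2 ^ 44 := by
  have h0 : 0 < h := by rw [hh]; positivity
  obtain ⟨k1, k2, k3⟩ := An.vary (convex_closedBall _ _) hV
    (cst (f := fun z => S.s1 z * S.s1 z) h0 hA) (cst (f := fun z => S.s2 z * S.s2 z) h0 hB)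
    (cst (f := fun z => S.s1 z * S.s2 z) h0 hC) hz hz₀ hre him
  rw [rads.eq_1] at hr
  obtain ⟨r1, r2, r3, -⟩ := and4_ok hr
  replace r1 := rad_ok r1
  replace r2 := rad_ok r2
  replace r3 := rad_ok r3
  have c64 : (2 : ℂ) ^ 64 = ((2 ^ 64 : ℝ) : ℂ) := by push_cast; rfl
  simp only [coeff_cd_zero, c64, div_ofReal_re, div_ofReal_im, ← sub_div, ← add_div, abs_div,
    sub_sub_sub_cancel_right, abs_of_pos (show (0 : ℝ) < 2 ^ 64 by positivity)] at k1 k2 k3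
  simp only [Nat.add_eq, Nat.mul_eq, Nat.cast_add, Nat.cast_mul, dst_cast, Nat.cast_ofNat] at r1 r2 r3
  have e1 : ∀ x y : ℝ, x - 2 ^ 95 + (y - 2 ^ 95) = x + y - 79228162514264337593543950336 :=
    fun x y => by ring
  have e2 : (2 : ℝ) ^ 95 = 39614081257132168796771975168 := by norm_num
  have e3 : ∀ x : ℝ, x / 2 ^ (j + n + 6) = 1 / 2 ^ (j + n + 1) * (x / 32) := fun x => by
    field_simp; ring
  rw [e1, e1] at k2
  rw [e2] at k3
  rw [e3] at r1 r2 r3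
  generalize (1 : ℝ) / 2 ^ (j + n + 1) = s at *
  exact ⟨by linarith, by linarith, by linarith⟩

end Pool.Agent.MP_c434f6_gt.H30.Emb

end

section

/-! Soundness of the check of a list of cells. -/

open Complex Metric Set

namespace Pool.Agent.MP_c434f6_gt.H30.Emb

variable {S : Sch (Fin 8)} {T : Tab} {q : Bool → Fin 8 → List (ℤ × ℤ)} {ε : ℝ}

/-- `z0, z1, z2` are the values of `2 ^ 64 (X z - X 0) + c` up to `e`. -/
def At (S : Sch (Fin 8)) (z : ℂ) (c z0 z1 z2 e : ℝ) : Prop :=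
  |2 ^ 64 * (S.Z z - S.Z 0).re + c - z0| ≤ e ∧ |2 ^ 64 * (S.Z z - S.Z 0).im + c - z1| ≤ e ∧
    |2 ^ 64 * (S.h3 z - S.h3 0) + c - z2| ≤ e

def Cl.OK (S : Sch (Fin 8)) (c : Cl) : Prop := At S (pt c.x c.y) (2 ^ 90) c.z0 c.z1 c.z2 c.e

/-- The claim at the origin. -/
theorem cl0_ok (S : Sch (Fin 8)) : Cl.OK S ⟨2 ^ 27, 2 ^ 27, 2 ^ 90, 2 ^ 90, 2 ^ 90, 0⟩ := by
  have : pt (2 ^ 27) (2 ^ 27) = 0 := by
    apply Complex.ext <;> simp only [pt] <;> norm_num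
  simp only [Cl.OK, At]
  rw [this]
  norm_num

/-- The discs `d` are those of the table. -/
def DqChk (T : Tab) (q : Bool → Fin 8 → List (ℤ × ℤ)) (d : Fin 8 → Dq) : Prop :=
  ∀ l, 0 < (d l).R ∧ (d l).R ≤ (d l).rh ∧ (d l).q1.ok = true ∧ (d l).q2.ok = true ∧
    ((d l).cx : ℤ) = (T.c l).1 + 2 ^ 51 ∧ ((d l).cy : ℤ) = (T.c l).2 + 2 ^ 51 ∧
    (d l).R = T.r l * 2 ^ 32 ∧ (T.ρ l + 1) * 2 ^ 32 ≤ (d l).rh ∧
    (d l).q1.toL = q true l ∧ (d l).q2.toL = q false l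

instance (T : Tab) (q : Bool → Fin 8 → List (ℤ × ℤ)) (d : Fin 8 → Dq) :
    Decidable (DqChk T q d) := by
  unfold DqChk; infer_instance

lemma frc_eq {α : Type} (x : ℕ) (k : ℕ → α) : frc x k = k x := by cases x <;> rfl

lemma abs3 {a b c e f : ℝ} (h1 : |a| ≤ e) (h2 : |b| ≤ f) (h : c = a + b ∨ c = a - b) :
    |c| ≤ e + f := by
  rw [abs_le] at *
  rcases h with rfl | rfl <;> exact ⟨by linarith [h1.1, h2.1, h2.2], by linarith [h1.2, h2.1, h2.2]⟩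

/-- Every admissible point of the cell has its values. -/
def Pts (S : Sch (Fin 8)) (D : ID) (x y u z0 z1 z2 e : ℕ) : Prop :=
  ∀ a b, pvOK a b = true → (mkCl D (x + a * u) (y + b * u) z0 z1 z2 e (pv a b)).OK S

lemma push_ok {D : ID} {x y u z0 z1 z2 e : ℕ} (H : Pts S D x y u z0 z1 z2 e) {k : List Cl → Bool}
    (n : ℕ) : ∀ r st, (∀ c ∈ st, Cl.OK S c) → push D x y u z0 z1 z2 e k n r st = true →
    ∃ st, (∀ c ∈ st, Cl.OK S c) ∧ k st = true := by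
  induction n with
  | zero => exact fun _ st h1 h2 => ⟨st, h1, h2⟩
  | succ n ih =>
    intro r st h1 h2
    change frc (bits r 0 512) (fun a => frc (bits r 9 512) fun b => Bool.rec false
      (push D x y u z0 z1 z2 e k n (r >>> 18) (mkCl D (x + a * u) (y + b * u) z0 z1 z2 e (pv a b)
        :: st)) (pvOK a b)) = true at h2
    rw [frc_eq, frc_eq] at h2
    generalize bits r 0 512 = a at h2
    generalize bits r 9 512 = b at h2
    cases e : pvOK a b <;> rw [e] at h2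
    · exact absurd h2 Bool.false_ne_true
    · exact ih _ _ (List.forall_mem_cons.2 ⟨H a b e, h1⟩) h2

lemma leaves_ok {D : ID} {z0 z1 z2 r0 r1 r2 X Y u t : ℕ}
    (H : ∀ x y v, 128 + t ≤ x → x + t ≤ 384 → 128 + t ≤ y → y + t ≤ 384 →
      leaf1 D z0 z1 z2 v (pv x y) = true → SubOK S r0 r1 r2 0 (X + x * u) (Y + y * u) (t * u) v)
    (n : ℕ) : ∀ x y s v, s = 2 ^ n * t → 128 + s ≤ x → x + s ≤ 384 → 128 + s ≤ y → y + s ≤ 384 →
    leaves D z0 z1 z2 n x y s v = true →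
    SubOK S r0 r1 r2 n (X + x * u) (Y + y * u) (s * u) v := by
  induction n with
  | zero =>
    intro x y s v hs
    rw [pow_zero, one_mul] at hs
    subst hs
    exact H x y v
  | succ n ih =>
    intro x y s v hs x1 x2 y1 y2 h
    obtain ⟨p, rfl, hp⟩ : ∃ p, s = p + p ∧ p = 2 ^ n * t := ⟨_, by rw [hs]; ring, rfl⟩
    have e2 : Nat.shiftRight (p + p) 1 = p := by
      change (p + p) >>> 1 = p
      rw [Nat.shiftRight_eq_div_pow]
      omega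
    change (fun p' w => and4 (leaves D z0 z1 z2 n (x - p') (y - p') p' v)
      (leaves D z0 z1 z2 n (x + p') (y - p') p' (v >>> w))
      (leaves D z0 z1 z2 n (x - p') (y + p') p' (v >>> (2 * w)))
      (leaves D z0 z1 z2 n (x + p') (y + p') p' (v >>> (3 * w))))
      (Nat.shiftRight (p + p) 1) (wid n) = true at h
    rw [e2] at h
    obtain ⟨h1, h2, h3, h4⟩ := and4_ok h
    have e3 : (p + p) * u / 2 = p * u := by rw [add_mul]; omega
    have e4 : ∀ X x, p ≤ x → X + x * u - p * u = X + (x - p) * u := fun X x h => by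
      rw [Nat.sub_mul, Nat.add_sub_assoc (Nat.mul_le_mul_right _ h)]
    have e5 : ∀ X x, X + x * u + p * u = X + (x + p) * u := fun X x => by ring
    simp only [SubOK, e3, e5, e4 X x (by omega), e4 Y y (by omega)]
    exact ⟨ih _ _ _ _ hp (by omega) (by omega) (by omega) (by omega) h1,
      ih _ _ _ _ hp (by omega) (by omega) (by omega) (by omega) h2,
      ih _ _ _ _ hp (by omega) (by omega) (by omega) (by omega) h3,
      ih _ _ _ _ hp (by omega) (by omega) (by omega) (by omega) h4⟩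

lemma near_cast (c z : ℕ) : (near c z : ℝ) = |2 ^ 64 * vl c + 2 ^ 90 - z| := by
  rw [near, dst_cast, vl, Nat.add_eq, show Nat.shiftLeft c 44 = c * 2 ^ 44 from Nat.shiftLeft_eq _ _]
  congr 1
  push_cast
  ring

lemma leaf_val {a b c r e z n : ℝ} (h1 : 2 ^ 64 * |a - b| + e + 2 ^ 45 ≤ r * 2 ^ 44)
    {o : ℝ} (h2 : |2 ^ 64 * (b - o) + 2 ^ 90 - z| ≤ e) (h3 : n = |2 ^ 64 * c + 2 ^ 90 - z|)
    (h4 : n ≤ 2 ^ 45) : |a - o - c| ≤ r / 2 ^ 20 := by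
  rw [h3] at h4
  rw [abs_le] at *
  exact ⟨by linarith [h2.1, h4.2, neg_abs_le (a - b)], by linarith [h2.2, h4.1, le_abs_self (a - b)]⟩

lemma pvOK_of {x y : ℕ} (x1 : 128 ≤ x) (x2 : x ≤ 384) (y1 : 128 ≤ y) (y2 : y ≤ 384) :
    pvOK x y = true := by
  refine Nat.ble_eq_true_of_le ?_
  have h1 : dst x 256 ≤ 128 := by change x - 256 + (256 - x) ≤ _; omega
  have h2 : dst y 256 ≤ 128 := by change y - 256 + (256 - y) ≤ _; omega
  exact (add_le_add (Nat.mul_le_mul h1 h1) (Nat.mul_le_mul h2 h2)).trans (by norm_num)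

lemma sq_sub {x y s x' y' s' : ℕ} (h1 : x + s ≤ x' + s') (h2 : x' + s ≤ x + s')
    (h3 : y + s ≤ y' + s') (h4 : y' + s ≤ y + s') : sq x y s ⊆ sq x' y' s' := by
  have k : ∀ {x x' : ℕ} {u : ℝ}, x + s ≤ x' + s' → x' + s ≤ x + s' →
      |u - (x / 2 ^ 24 - 8)| ≤ (s : ℝ) / 2 ^ 24 → |u - (x' / 2 ^ 24 - 8)| ≤ (s' : ℝ) / 2 ^ 24 :=
    fun {x x' u} h1 h2 h => by
      have h1' : (x : ℝ) + s ≤ x' + s' := by exact_mod_cast h1
      have h2' : (x' : ℝ) + s ≤ x + s' := by exact_mod_cast h2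
      rw [abs_le] at *
      exact ⟨by linarith [h.1], by linarith [h.2]⟩
  exact fun z hz => ⟨k h1 h2 hz.1, k h3 h4 hz.2⟩

lemma pt_mem (x y s : ℕ) : pt x y ∈ sq x y s := by
  constructor <;> simp only [sub_self, abs_zero] <;> positivity

lemma rng_mul {a t u x : ℕ} (a1 : 128 + t ≤ a) (a2 : a + t ≤ 384) :
    x + a * u + t * u ≤ x + 256 * u + 128 * u ∧ x + 256 * u + t * u ≤ x + a * u + 128 * u := by
  have h1 := Nat.mul_le_mul_right u a1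
  have h2 := Nat.mul_le_mul_right u a2
  rw [add_mul] at h1 h2
  omega

lemma le45 {a b c : ℕ} (h : Nat.ble (Nat.add (Nat.add a b) c) 35184372088832 = true) :
    (a : ℝ) ≤ 2 ^ 45 ∧ (b : ℝ) ≤ 2 ^ 45 ∧ (c : ℝ) ≤ 2 ^ 45 := by
  have h1 : a + b + c ≤ 2 ^ 45 := Nat.le_of_ble_eq_true h
  refine ⟨?_, ?_, ?_⟩ <;> norm_cast <;> omega

/-- The variation on the leaves. -/
def Var (S : Sch (Fin 8)) (m : ℕ) (a : ℂ) (ρ s e : ℝ) : Prop :=
  ∀ z ∈ closedBall a ρ, ∀ z₀ ∈ closedBall a ρ, |z.re - z₀.re| ≤ s → |z.im - z₀.im| ≤ s →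
    2 ^ 64 * |(S.Z z).re - (S.Z z₀).re| + e + 2 ^ 45 ≤ mR0 m * 2 ^ 44 ∧
    2 ^ 64 * |(S.Z z).im - (S.Z z₀).im| + e + 2 ^ 45 ≤ mR1 m * 2 ^ 44 ∧
    2 ^ 64 * |S.h3 z - S.h3 z₀| + e + 2 ^ 45 ≤ mR2 m * 2 ^ 44

lemma sub_of {D : ID} {m x y u z0 z1 z2 e t n v : ℕ} {ρ s : ℝ} (H : Pts S D x y u z0 z1 z2 e)
    (V : Var S m (pt (x + 256 * u) (y + 256 * u)) ρ s e) (ht : 128 = 2 ^ n * t)
    (hρ : 23 / 16 * (((128 * u : ℕ) : ℝ) / 2 ^ 24) ≤ ρ) (hs : ((t * u : ℕ) : ℝ) / 2 ^ 24 ≤ s)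
    (h : leaves D z0 z1 z2 n 256 256 128 v = true) :
    SubOK S (mR0 m) (mR1 m) (mR2 m) n (x + 256 * u) (y + 256 * u) (128 * u) v := by
  refine leaves_ok (fun a b v a1 a2 b1 b2 h z hz => ?_) n _ _ _ _ ht (by norm_num) (by norm_num)
    (by norm_num) (by norm_num) h
  have hb : sq (x + a * u) (y + b * u) (t * u) ⊆ closedBall (pt (x + 256 * u) (y + 256 * u)) ρ :=
    fun z hz => mem_closedBall_iff_norm.2 ((norm_sq_le (sq_sub (rng_mul a1 a2).1 (rng_mul a1 a2).2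
      (rng_mul b1 b2).1 (rng_mul b1 b2).2 hz)).trans hρ)
  obtain ⟨v0, v1, v2⟩ := V z (hb hz) _ (hb (pt_mem _ _ _)) (hz.1.trans hs) (hz.2.trans hs)
  obtain ⟨c0, c1, c2⟩ := H a b (pvOK_of (by omega) (by omega) (by omega) (by omega))
  unfold leaf1 at h
  obtain ⟨n0, n1, n2⟩ := le45 h
  simp only [sub_re, sub_im] at c0 c1 ⊢
  exact ⟨leaf_val v0 c0 (near_cast _ _) n0, leaf_val v1 c1 (near_cast _ _) n1,
    leaf_val v2 c2 (near_cast _ _) n2⟩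

lemma shift_val {v w o z e f : ℝ} {c z0 b p : ℕ} (h0 : z0 = c + b - p) (h1 : b < z0)
    (hc : |2 ^ 64 * (v - o) + 2 ^ 90 - c| ≤ e) (hp : |2 ^ 64 * (v - z) + b - p| ≤ f)
    {p' : ℕ} (hp' : |2 ^ 64 * (w - z) + b - p'| ≤ f) :
    |2 ^ 64 * (w - o) + 2 ^ 90 - (z0 - b + p' : ℕ)| ≤ e + 2 * f := by
  have h2 : (z0 : ℝ) + p = c + b := by exact_mod_cast (by omega : z0 + p = c + b)
  rw [Nat.cast_add, Nat.cast_sub h1.le]
  rw [abs_le] at *
  exact ⟨by linarith [hc.1, hp.2, hp'.1], by linarith [hc.2, hp.1, hp'.2]⟩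

lemma pt_wp {x y u a b : ℕ} {h : ℝ} (hu : (u : ℝ) = 2 ^ 16 * h) :
    pt (x + a * u) (y + b * u) = pt (x + 256 * u) (y + 256 * u) + h * wp a b := by
  apply Complex.ext <;>
    simp only [pt, wp, add_re, add_im, re_ofReal_mul, im_ofReal_mul] <;> push_cast <;> rw [hu] <;>
    ring

lemma cell5_ok {D : ID} {m r x y u e f a b t : ℕ} {c : Cl} {st : List Cl} {k : List Cl → Bool}
    {h ρ s : ℝ} (hc : c.OK S) (hst : ∀ c ∈ st, Cl.OK S c) (hu : (u : ℝ) = 2 ^ 16 * h)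
    (hD : D.OK S (pt (x + 256 * u) (y + 256 * u)) h f) (hb : D.b ≤ 2 ^ 84) (he : e = c.e + 2 * f)
    (V : Var S m (pt (x + 256 * u) (y + 256 * u)) ρ s e) (ht : 128 = 2 ^ mN m * t)
    (hρ : 23 / 16 * (((128 * u : ℕ) : ℝ) / 2 ^ 24) ≤ ρ) (hs : ((t * u : ℕ) : ℝ) / 2 ^ 24 ≤ s)
    (H : cell5 m r c st k D x y u e a b (pv a b) = true) :
    SubOK S (mR0 m) (mR1 m) (mR2 m) (mN m) (x + 256 * u) (y + 256 * u) (128 * u) (mV m) ∧
      ∃ st, (∀ c ∈ st, Cl.OK S c) ∧ k st = true := by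
  obtain ⟨h1, h2, h3, h4⟩ := and4_ok H
  have h2' : c.x = x + a * u := Nat.eq_of_beq_eq_true h2
  have h3' : c.y = y + b * u := Nat.eq_of_beq_eq_true h3
  obtain ⟨z0, e0⟩ : ∃ z, z = c.z0 + D.b - inc0 D (pv a b) := ⟨_, rfl⟩
  obtain ⟨z1, e1⟩ : ∃ z, z = c.z1 + D.b - inc1 D (pv a b) := ⟨_, rfl⟩
  obtain ⟨z2, e2⟩ : ∃ z, z = c.z2 + D.b - inc2 D (pv a b) := ⟨_, rfl⟩
  simp only [Nat.add_eq, Nat.sub_eq, ← e0, ← e1, ← e2] at h4
  obtain ⟨h5, h6, -, h7⟩ := and4_ok h4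
  obtain ⟨k0, k1, k2, -⟩ := and4_ok h5
  replace k0 := Nat.le_of_ble_eq_true k0
  replace k1 := Nat.le_of_ble_eq_true k1
  replace k2 := Nat.le_of_ble_eq_true k2
  have P : Pts S D x y u (z0 - D.b) (z1 - D.b) (z2 - D.b) e := fun a' b' h' => by
    obtain ⟨c0, c1, c2⟩ := hc
    obtain ⟨p0, p1, p2⟩ := hD a b h1
    obtain ⟨q0, q1, q2⟩ := hD a' b' h'
    rw [h2', h3', pt_wp hu] at c0 c1 c2
    have he' : (e : ℝ) = c.e + 2 * f := by exact_mod_cast he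
    change At S (pt (x + a' * u) (y + b' * u)) _ (z0 - D.b + inc0 D (pv a' b') : ℕ)
      (z1 - D.b + inc1 D (pv a' b') : ℕ) (z2 - D.b + inc2 D (pv a' b') : ℕ) e
    rw [pt_wp hu, he', At]
    simp only [sub_re, sub_im] at c0 c1 p0 p1 q0 q1 ⊢
    exact ⟨shift_val e0 (by omega) c0 p0 q0,
      shift_val e1 (by omega) c1 p1 q1,
      shift_val e2 (by omega) c2 p2 q2⟩
  exact ⟨sub_of P V ht hρ hs h6, push_ok P _ _ _ hst h7⟩

lemma shr_cast {c k j : ℕ} (h : j ≤ k) : (((c * 2 ^ k) >>> j : ℕ) : ℝ) = c * 2 ^ k * (1 / 2 ^ j) := by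
  obtain ⟨i, rfl⟩ := Nat.exists_eq_add_of_le h
  rw [Nat.shiftRight_eq_div_pow, pow_add, mul_left_comm, Nat.mul_div_cancel_left _ (by positivity)]
  push_cast
  rw [pow_add]
  field_simp

/-- What a cell gives, apart from the patch. -/
def Out (S : Sch (Fin 8)) (m : ℕ) (k : List Cl → Bool) : Prop :=
  SubOK S (mR0 m) (mR1 m) (mR2 m) (mN m) (mX m) (mY m) (mS m) (mV m) ∧
    ∃ st, (∀ c ∈ st, Cl.OK S c) ∧ k st = true

lemma cell4_ok (An : S.Ana) {D : ID} {m r j u e f : ℕ} {c : Cl} {st : List Cl}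
    {k : List Cl → Bool} {h : ℝ} {A B C : TM} (hc : c.OK S) (hst : ∀ c ∈ st, Cl.OK S c)
    (hh : h = 1 / 2 ^ j) (hV : closedBall (pt (mX m) (mY m)) (h * (23 / 32)) ⊆ S.V)
    (hA : A.OK fun w => S.s1 (pt (mX m) (mY m) + h * w) * S.s1 (pt (mX m) (mY m) + h * w))
    (hB : B.OK fun w => S.s2 (pt (mX m) (mY m) + h * w) * S.s2 (pt (mX m) (mY m) + h * w))
    (hC : C.OK fun w => S.s1 (pt (mX m) (mY m) + h * w) * S.s2 (pt (mX m) (mY m) + h * w))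
    (hu : (u : ℝ) = 2 ^ 16 * h) (hS : mS m = 128 * u) (hD : D.OK S (pt (mX m) (mY m)) h f)
    (hb : D.b ≤ 2 ^ 84) (he : e = c.e + 2 * f)
    (H : cell4 m r j c st k A B C D u e = true) : Out S m k := by
  obtain ⟨h1, h2, h3, h4⟩ := and4_ok H
  rw [frc_eq, frc_eq] at h4
  have e1 : Nat.sub (mX m) (Nat.mul 256 u) + 256 * u = mX m :=
    Nat.sub_add_cancel (Nat.le_of_ble_eq_true h1)
  have e2 : Nat.sub (mY m) (Nat.mul 256 u) + 256 * u = mY m :=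
    Nat.sub_add_cancel (Nat.le_of_ble_eq_true h2)
  have k5 : mN m < 4 := Nat.mod_lt _ (by decide)
  have := cell5_ok (t := 2 ^ (7 - mN m)) (ρ := h * (23 / 32)) (s := 1 / 2 ^ (j + mN m + 1))
    hc hst hu (by rwa [e1, e2]) hb he (by
      rw [e1, e2]
      exact fun z hz z₀ hz₀ => rads_ok An hh hV hA hB hC h3 hz hz₀)
    (by rw [← pow_add, Nat.add_sub_cancel' (by omega)]; norm_num)
    (by push_cast; rw [hu]; linarith) (by
      obtain ⟨i, hi⟩ : ∃ i, 7 = mN m + i := ⟨7 - mN m, by omega⟩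
      have h5 : (2 : ℝ) ^ mN m * 2 ^ i = 128 := by rw [← pow_add, ← hi]; norm_num
      rw [show 7 - mN m = i by omega, pow_succ, pow_add]
      push_cast
      rw [hu, hh]
      apply le_of_eq
      field_simp
      rw [pow_add]
      linear_combination 2 ^ j * h5) h4
  rwa [e1, e2, ← hS] at this

lemma cell3_ok (An : S.Ana) {m r j n : ℕ} {c : Cl} {st : List Cl}
    {k : List Cl → Bool} {h : ℝ} {A B C : TM} (hc : c.OK S) (hst : ∀ c ∈ st, Cl.OK S c)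
    (hj : j < 16) (hm : mJ m = j) (hh : h = 1 / 2 ^ j)
    (hV : closedBall (pt (mX m) (mY m)) (h * (23 / 32)) ⊆ S.V)
    (H : cell3 m r j c st k n A B C = true) : n ≤ 2 ^ 77 ∧
    ((A.OK fun w => S.s1 (pt (mX m) (mY m) + h * w) * S.s1 (pt (mX m) (mY m) + h * w)) →
      (B.OK fun w => S.s2 (pt (mX m) (mY m) + h * w) * S.s2 (pt (mX m) (mY m) + h * w)) →
      (C.OK fun w => S.s1 (pt (mX m) (mY m) + h * w) * S.s2 (pt (mX m) (mY m) + h * w)) →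
      Out S m k) := by
  obtain ⟨h1, h2⟩ := recF H
  have h3 : n + (A.n1 + B.n1) + 2 * C.n1 ≤ 2 ^ 77 := Nat.le_of_ble_eq_true h1
  refine ⟨by omega, fun hA hB hC => cell4_ok An hc hst hh hV hA hB hC ?_ ?_
    (id_ok An hj hh hV hA hB hC (by omega)) (Nat.shiftRight_le _ _) rfl h2⟩
  · rw [hh]
    simpa using shr_cast (c := 1) (k := 16) hj.le
  · rw [mS, hm]
    clear * - hj
    revert j
    decide

/-- `cell2` with the test as a parameter. -/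
noncomputable def cell2G (P : TM → TM → Bool) (M : TM → TM → TM) (m r j : ℕ) (c : Cl)
    (st : List Cl) (k : List Cl → Bool) (n : ℕ) (a b : TM) : Bool :=
  Bool.rec false (cell3 m r j c st k (Nat.add n (Nat.add a.n1 b.n1)) (M a a) (M b b)
    (M a b)) (P a b)

lemma cell2_eq : cell2 = cell2G nw tmul := by eq_refl

lemma cell2G_ok {P : TM → TM → Bool} {M : TM → TM → TM} {m r j n : ℕ} {c : Cl} {st : List Cl}
    {k : List Cl → Bool} {a b : TM} (H : cell2G P M m r j c st k n a b = true) :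
    P a b = true ∧ cell3 m r j c st k (n + (a.n1 + b.n1)) (M a a) (M b b) (M a b) = true := recF H

lemma cell2_ok (An : S.Ana) {m r j n : ℕ} {c : Cl} {st : List Cl}
    {k : List Cl → Bool} {h : ℝ} {a b : TM} (hc : c.OK S) (hst : ∀ c ∈ st, Cl.OK S c)
    (hj : j < 16) (hm : mJ m = j) (hh : h = 1 / 2 ^ j)
    (hV : closedBall (pt (mX m) (mY m)) (h * (23 / 16)) ⊆ S.V)
    (H : cell2 m r j c st k n a b = true) : n ≤ 2 ^ 77 ∧
    ((a.OK fun w => S.s1 (pt (mX m) (mY m) + h * w)) →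
      (b.OK fun w => S.s2 (pt (mX m) (mY m) + h * w)) → Out S m k ∧
      InjOn S.X (closedBall (pt (mX m) (mY m)) (h * (23 / 16))) ∧
      ∀ z ∈ closedBall (pt (mX m) (mY m)) (h * (23 / 16)), S.s1 z ≠ 0 ∨ S.s2 z ≠ 0) := by
  have h0 : 0 < h := by rw [hh]; positivity
  rw [cell2_eq] at H
  obtain ⟨h1, h2⟩ := cell2G_ok H
  obtain ⟨h3, h4⟩ := cell3_ok An hc hst hj hm hh
    ((closedBall_subset_closedBall (by linarith)).trans hV) h2
  refine ⟨by omega, fun ha hb => ?_⟩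
  have na : a.n1 ≤ 2 ^ 77 := by omega
  have nb : b.n1 ≤ 2 ^ 77 := by omega
  refine ⟨h4 (tmul_ok ha ha na na) (tmul_ok hb hb nb nb) (tmul_ok ha hb na nb), ?_⟩
  obtain ⟨α, β, σ, d₁, d₂, k1, k2, k3, k4⟩ := nw_ok ha hb na nb h1
  have k5 : ∀ z ∈ closedBall (pt (mX m) (mY m)) (h * (23 / 16)),
      ∃ w : ℂ, ‖w‖ ≤ 23 / 16 ∧ z = pt (mX m) (mY m) + h * w := fun z hz =>
    ⟨(z - pt (mX m) (mY m)) / h, by
      rw [norm_div, norm_real, Real.norm_of_nonneg h0.le, div_le_iff₀' h0]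
      exact mem_closedBall_iff_norm.1 hz,
      by rw [mul_div_cancel₀ _ (by exact_mod_cast h0.ne'), add_sub_cancel]⟩
  refine An.nw (convex_closedBall _ _) hV α β (fun z hz => ?_) (fun z hz => ?_) k3 k4 <;>
    obtain ⟨w, hw, rfl⟩ := k5 z hz
  exacts [k1 w hw, k2 w hw]

lemma DqChk.c {d : Fin 8 → Dq} (hd : DqChk T q d) (l : Fin 8) :
    pt48 (d l).cx (d l).cy = gz 48 (T.c l) := by
  obtain ⟨-, -, -, -, h1, h2, -⟩ := hd l
  have e1 : ((d l).cx : ℝ) = (T.c l).1 + 2 ^ 51 := by exact_mod_cast h1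
  have e2 : ((d l).cy : ℝ) = (T.c l).2 + 2 ^ 51 := by exact_mod_cast h2
  rw [pt48, e1, e2, gz, eq_div_iff (by norm_num)]
  apply Complex.ext <;> simp [show (2 : ℂ) ^ 48 = ((2 ^ 48 : ℝ) : ℂ) by push_cast; rfl,
    -ofReal_pow] <;> ring

lemma DqChk.R {d : Fin 8 → Dq} (hd : DqChk T q d) (l : Fin 8) :
    ((((d l).R : ℝ) / 2 ^ 48 : ℝ) : ℂ) = (T.r l : ℂ) / 2 ^ 16 := by
  rw [(hd l).2.2.2.2.2.2.1]
  push_cast
  ring

lemma cell_ok (An : S.Ana) (O : OrcH S T q ε) {d : Fin 8 → Dq} (hd : DqChk T q d)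
    {tol eps m r : ℕ} (hε : 2 ^ 64 * ε ≤ eps) {c : Cl} {st : List Cl} {k : List Cl → Bool}
    (hc : c.OK S) (hst : ∀ c ∈ st, Cl.OK S c)
    (H : cell (List.ofFn d) tol eps m r c st k = true) :
    MacOK S T m ∧ ∃ st, (∀ c ∈ st, Cl.OK S c) ∧ k st = true := by
  rw [cell, frc_eq] at H
  have hj : mJ m < 16 := Nat.mod_lt _ (by decide)
  have hX : mX m < 2 ^ 28 := Nat.mod_lt _ (by decide)
  have hY : mY m < 2 ^ 28 := Nat.mod_lt _ (by decide)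
  have hP : (mP m : ℝ) / 2 ^ 24 = 1 / 2 ^ mJ m * (23 / 16) := by
    have := shr_cast (c := 23) (k := 20) (j := mJ m) (by omega)
    rw [div_eq_iff (by positivity)]
    refine this.trans ?_
    push_cast
    ring
  obtain ⟨A, hA⟩ : ∃ A, A = discs (List.ofFn d) tol eps (mX m * 16777216) (mY m * 16777216)
      (404620279021568 >>> mJ m) (202310139510784 >>> mJ m)
      (5192296858534827628530496329220096 >>> mJ m)
      (94672172065662086392688526235795456 >>> mJ m)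
      (369813172131492524971439555608576 >>> mJ m) := ⟨_, rfl⟩
  simp only [Nat.add_eq, Nat.mul_eq, Nat.sub_eq, Nat.shiftRight_eq, ← hA] at H
  obtain ⟨h1, h2, -, h3⟩ := and4_ok H
  obtain ⟨g1, g2, g3⟩ := discs_spec hj _ (List.forall_mem_ofFn_iff.2 fun l =>
    ⟨(hd l).1, (hd l).2.1, (hd l).2.2.1, (hd l).2.2.2.1⟩) hA h1
  have hV : closedBall (pt (mX m) (mY m)) (1 / 2 ^ mJ m * (23 / 16)) ⊆ T.Vh := fun z hz l => by
    have k1 := List.forall_mem_ofFn_iff.1 g1 l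
    have k2 : ((T.ρ l : ℝ) + 1) * 2 ^ 32 ≤ (d l).rh := by exact_mod_cast (hd l).2.2.2.2.2.2.2.1
    have k3 := norm_sub_le_norm_sub_add_norm_sub (pt (mX m) (mY m)) z (gz 48 (T.c l))
    rw [hd.c] at k1
    rw [norm_sub_rev _ z] at k3
    linarith [mem_closedBall_iff_norm.1 hz]
  have hw : ∀ w : ℂ, ‖w‖ ≤ 23 / 16 → pt (mX m) (mY m) + ((1 / 2 ^ mJ m : ℝ) : ℂ) * w ∈ T.Vh :=
    fun w hw => hV <| by
      rw [mem_closedBall_iff_norm, add_sub_cancel_left, norm_mul, norm_real,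
        Real.norm_of_nonneg (by positivity)]
      gcongr
  have hl : (2 : ℝ) ^ 64 + (List.ofFn d).length * 2 ^ 74 ≤ 2 ^ 90 := by
    rw [List.length_ofFn]; norm_num
  have hf := fT_ok (g := fun w => S.σ1 (pt (mX m) (mY m) + ((1 / 2 ^ mJ m : ℝ) : ℂ) * w)) g2 hl
    fun w h => by
      refine le_trans (mul_le_mul_of_nonneg_left ((O.f1 _ (hw w h)).trans_eq' ?_)
        (by positivity)) hε
      simp only [List.map_ofFn, List.sum_ofFn, Function.comp, hd.c, hd.R,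
        fun l => (hd l).2.2.2.2.2.2.2.2.1]
  have hg := fT_ok (g := fun w => S.σ2 (pt (mX m) (mY m) + ((1 / 2 ^ mJ m : ℝ) : ℂ) * w)) g3 hl
    fun w h => by
      refine le_trans (mul_le_mul_of_nonneg_left ((O.f2 _ (hw w h)).trans_eq' ?_)
        (by positivity)) hε
      simp only [List.map_ofFn, List.sum_ofFn, Function.comp, hd.c, hd.R,
        fun l => (hd l).2.2.2.2.2.2.2.2.2]
  have hE := eF_okP hX hY (Nat.le_of_ble_eq_true h2) hj
  have hF := eF_okM hX hY (Nat.le_of_ble_eq_true h2) hj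
  generalize eF (xpo (K60p - _) _ _) _ _ = E at h3 hE
  generalize eF _ _ _ = F at h3 hF
  generalize fT A.f = f at h3 hf
  generalize fT A.g = g at h3 hg
  unfold cell1 at h3
  obtain ⟨k1, k2⟩ := cell2_ok An hc hst hj rfl rfl (hV.trans O.hV) h3
  simp only [Nat.add_eq] at k1
  have ha := tmul_ok hE hf (by omega) (by omega)
  have hb := tmul_ok hF hg (by omega) (by omega)
  simp only [Sch.σ1, mul_left_comm (exp _), ← exp_add, add_neg_cancel, exp_zero, mul_one] at ha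
  simp only [Sch.σ2, mul_left_comm (exp _), ← exp_add, neg_add_cancel, exp_zero, mul_one] at hb
  obtain ⟨⟨k3, k4⟩, k5, k6⟩ := k2 ha hb
  exact ⟨⟨hP ▸ hV, hP ▸ k5, hP ▸ k6, k3⟩, k4⟩

lemma stEq_ok : ∀ a b : List Cl, stEq a b = true → a = b
  | [], [], _ => rfl
  | [], _ :: _, h => absurd h Bool.false_ne_true
  | _ :: _, [], h => absurd h Bool.false_ne_true
  | ⟨_, _, _, _, _, _⟩ :: a, ⟨_, _, _, _, _, _⟩ :: b, h => by
    obtain ⟨h1, h2, h3, h4⟩ := and4_ok h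
    obtain ⟨h5, h6, h7, h8⟩ := and4_ok h1
    rw [stEq_ok a b h4]
    simp only [Nat.beq_eq] at h2 h3 h5 h6 h7 h8
    simp only [h2, h3, h5, h6, h7, h8]

theorem chkA_sound (An : S.Ana) (O : OrcH S T q ε) {d : Fin 8 → Dq} (hd : DqChk T q d)
    {tol eps : ℕ} (hε : 2 ^ 64 * ε ≤ eps) {out : List Cl} (ms : List ℕ) : ∀ (rs : List ℕ)
    (st : List Cl), (∀ c ∈ st, Cl.OK S c) → chkA (List.ofFn d) tol eps out ms rs st = true →
    (∀ m ∈ ms, MacOK S T m) ∧ ∀ c ∈ out, Cl.OK S c := by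
  induction ms with
  | nil => exact fun _ st h1 h2 => ⟨fun _ h => (List.not_mem_nil h).elim, stEq_ok st out h2 ▸ h1⟩
  | cons m ms ih =>
    rintro (_ | ⟨r, rs⟩) (_ | ⟨c, st⟩) h1 h2
    iterate 3 exact absurd h2 Bool.false_ne_true
    change cell (List.ofFn d) tol eps m r c st (chkA (List.ofFn d) tol eps out ms rs) = true at h2
    obtain ⟨h3, h4⟩ := List.forall_mem_cons.1 h1
    obtain ⟨k1, st', k2, k3⟩ := cell_ok An O hd hε h3 h4 h2
    obtain ⟨k4, k5⟩ := ih rs st' k2 k3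
    exact ⟨List.forall_mem_cons.2 ⟨k1, k4⟩, k5⟩

end Pool.Agent.MP_c434f6_gt.H30.Emb

end
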