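import Pool.Agent.MP_c434f6_gt.G4.Defs

/-! Spinor data on a plane domain with paired circles. -/

open Set Filter Topology Metric Complex
open scoped ContDiff RealInnerProductSpace ComplexConjugate

namespace Pool.Agent.MP_c434f6_gt.H30

/-- Discs indexed by `ι`, paired by `pr`, with centres `c` and radii `‖κ k‖`; spinors `s1, s2`,
height `h3` and horizontal coordinate `Z`, all defined on the open set `V`. -/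
structure Sch (ι : Type) where
  pr : ι → ι
  c : ι → ℂ
  κ : ι → ℂ
  V : Set ℂ
  s1 : ℂ → ℂ
  s2 : ℂ → ℂ
  h3 : ℂ → ℝ
  Z : ℂ → ℂ

namespace Sch

variable {ι : Type} (S : Sch ι)

noncomputable def γ (k : ι) (z : ℂ) : ℂ := S.c (S.pr k) - S.κ k ^ 2 / (z - S.c k)

def F : Set ℂ := {z | ∀ k, ‖S.κ k‖ ≤ ‖z - S.c k‖}

noncomputable def X (z : ℂ) : E3 := !₂[(S.Z z).re, (S.Z z).im, S.h3 z]

def M : Set E3 := S.X '' S.F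

noncomputable def σ1 (z : ℂ) : ℂ := S.s1 z * exp (-(I * z / 2))

noncomputable def σ2 (z : ℂ) : ℂ := S.s2 z * exp (I * z / 2)

noncomputable def ξ (z : ℂ) : ℝ := (S.Z z * (I * exp (-(I * S.h3 z)))).re

/-- Heights of the points with horizontal tangent plane. -/
def Crit : Set ℝ := S.h3 '' {z ∈ S.F | S.s1 z * S.s2 z = 0}

/-- The analytic hypotheses (no inequalities to be checked numerically, except `disj`). -/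
structure Ana [Fintype ι] : Prop where
  prpr : ∀ k, S.pr (S.pr k) = k
  κpr : ∀ k, S.κ (S.pr k) = -S.κ k
  κ0 : ∀ k, S.κ k ≠ 0
  disj : Pairwise fun k k' => ‖S.κ k‖ + ‖S.κ k'‖ < ‖S.c k - S.c k'‖
  opn : IsOpen S.V
  sub : S.F ⊆ S.V
  d1 : DifferentiableOn ℂ S.s1 S.V
  d2 : DifferentiableOn ℂ S.s2 S.V
  dh : ∀ z ∈ S.V, DifferentiableAt ℝ S.h3 z ∧ ∀ v, fderiv ℝ S.h3 z v = (S.s1 z * S.s2 z * v).re
  dZ : ∀ z ∈ S.V, DifferentiableAt ℝ S.Z z ∧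
    ∀ v, fderiv ℝ S.Z z v = (conj (S.s2 z ^ 2 * v) - S.s1 z ^ 2 * v) / 2
  glue : ∀ k z, ‖z - S.c k‖ = ‖S.κ k‖ → ∀ᶠ w in 𝓝 z, S.X (S.γ k w) = S.X w
  lim1 : Tendsto S.σ1 (cocompact ℂ) (𝓝 1)
  lim2 : Tendsto S.σ2 (cocompact ℂ) (𝓝 1)
  hol : ∃ (H : ℂ → ℂ) (ρ : ι → ℝ), DifferentiableOn ℂ H S.V ∧
    Tendsto (fun z => H z - z) (cocompact ℂ) (𝓝 0) ∧ ∑ k, ρ k = 0 ∧
    ∀ z ∈ S.V, S.h3 z = (H z).re + ∑ k, ρ k * Real.log ‖z - S.c k‖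

/-- Immersion and injectivity modulo the gluing on the part of `F` in `K`. -/
def Emb (K : Set ℂ) : Prop :=
  ∀ z ∈ S.F ∩ K, (S.s1 z ≠ 0 ∨ S.s2 z ≠ 0) ∧
    ∀ w ∈ S.F ∩ K, S.X z = S.X w → w = z ∨ ∃ k, w = S.γ k z

/-- The closed rectangle `[-a, a] × [-b, b]`. -/
def box (a b : ℝ) : Set ℂ := {z | |z.re| ≤ a ∧ |z.im| ≤ b}

/-- The inequalities on compact sets that control the end. -/
structure Far (a₁ b₁ a₂ b₂ δ T B B' : ℝ) : Prop where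
  hb : b₁ ≤ b₂
  ha : T + δ ≤ a₂
  ins : ∀ k, |(S.c k).re| + ‖S.κ k‖ < a₁ ∧ |(S.c k).im| + ‖S.κ k‖ < b₁
  pos : 0 < a₁ ∧ 0 < b₁ ∧ 0 < δ
  bd : ∀ z ∈ box a₁ b₁, |z.re| = a₁ ∨ |z.im| = b₁ → 0 < (S.s1 z * S.s2 z).re ∧
    0 < (S.s1 z * conj (S.s2 z) * exp (-(I * S.h3 z))).re ∧ |S.h3 z - z.re| ≤ δ
  mid : ∀ z ∈ S.F ∩ box a₁ b₁, |S.h3 z| < T
  midZ : ∀ z ∈ S.F ∩ box a₂ b₁, -B' ≤ S.ξ z ∧ S.ξ z ≤ B
  top : ∀ x : ℝ, |x| ≤ a₂ → B ≤ S.ξ (x + b₂ * I) ∧ S.ξ (x - b₂ * I) ≤ -B'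

end Sch

end Pool.Agent.MP_c434f6_gt.H30
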