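import Mathlib

section

open Metric Set Filter Topology Asymptotics MeasureTheory

namespace H45Par

variable {E G : Type*} [NormedAddCommGroup E] [NormedSpace ℂ E] [NormedAddCommGroup G]
  [NormedSpace ℂ G]

lemma fderiv_bound {F : E → G} {c : E} {R M : ℝ} (hR : 0 < R)
    (hF : DifferentiableOn ℂ F (ball c R)) (hM : ∀ x ∈ ball c R, ‖F x‖ ≤ M) :
    ‖fderiv ℂ F c‖ ≤ 2 * M / R := by
  refine Complex.norm_fderiv_le_div_of_mapsTo_ball hF (fun y hy => ?_) hR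
  rw [mem_closedBall, dist_eq_norm]
  calc ‖F y - F c‖ ≤ ‖F y‖ + ‖F c‖ := norm_sub_le _ _
    _ ≤ 2 * M := by linarith [hM y hy, hM c (mem_ball_self hR)]

/-- second order Schwarz bound -/
lemma rem_bound {F : E → G} {c : E} {R M : ℝ} (hR : 0 < R)
    (hF : DifferentiableOn ℂ F (ball c R)) (hM : ∀ x ∈ ball c R, ‖F x‖ ≤ M)
    {x : E} (hx : x ∈ ball c R) :
    ‖F x - F c - fderiv ℂ F c (x - c)‖ ≤ 4 * M * (‖x - c‖ / R) ^ 2 := by
  have hc : c ∈ ball c R := mem_ball_self hR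
  have hM0 : 0 ≤ M := (norm_nonneg _).trans (hM c hc)
  have hD := fderiv_bound hR hF hM
  set H : E → G := fun y => F y - F c - fderiv ℂ F c (y - c) with hH
  have hHc : H c = 0 := by simp [hH]
  have hHd : DifferentiableOn ℂ H (ball c R) := by
    refine (hF.sub_const _).sub ?_
    exact ((fderiv ℂ F c).differentiable.comp (differentiable_id.sub_const c)).differentiableOn
  have hHm : MapsTo H (ball c R) (closedBall (H c) (4 * M)) := by
    intro y hy
    rw [mem_closedBall, hHc, dist_zero_right]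
    have h3 : ‖F y - F c‖ ≤ 2 * M := (norm_sub_le _ _).trans (by linarith [hM y hy, hM c hc])
    have h4 : ‖fderiv ℂ F c (y - c)‖ ≤ 2 * M := by
      have hy' : ‖y - c‖ ≤ R := by simpa [dist_eq_norm] using (mem_ball.1 hy).le
      calc ‖fderiv ℂ F c (y - c)‖ ≤ ‖fderiv ℂ F c‖ * ‖y - c‖ := ContinuousLinearMap.le_opNorm _ _
        _ ≤ (2 * M / R) * R := by gcongr
        _ = 2 * M := by field_simp
    calc ‖H y‖ ≤ ‖F y - F c‖ + ‖fderiv ℂ F c (y - c)‖ := norm_sub_le _ _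
      _ ≤ 4 * M := by linarith
  have hn : (fun y => H y - H c) =o[𝓝 c] (fun w => ‖w - c‖ ^ 1) := by
    have hd : HasFDerivAt F (fderiv ℂ F c) c :=
      (hF.differentiableAt (ball_mem_nhds c hR)).hasFDerivAt
    have := hasFDerivAt_iff_isLittleO.1 hd
    simpa [hHc, hH] using this.norm_right
  have := Complex.dist_le_mul_div_pow_of_mapsTo_ball_of_isLittleO hHd hHm hn hx
  rw [hHc, dist_zero_right, dist_eq_norm] at this
  exact this

/-- Weierstrass' theorem in several variables: a uniform limit of holomorphic maps. -/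
theorem differentiableOn_of_tendstoUniformlyOn [CompleteSpace G] {F : ℕ → E → G} {f : E → G}
    {U : Set E} (hU : IsOpen U) (hF : ∀ n, DifferentiableOn ℂ (F n) U)
    (h : TendstoUniformlyOn F f atTop U) : DifferentiableOn ℂ f U := by
  intro x hx
  obtain ⟨R, hR, hRU⟩ := Metric.isOpen_iff.1 hU x hx
  have hsub : ∀ y ∈ ball x (R / 2), ball y (R / 2) ⊆ U := fun y hy z hz => hRU <| by
    rw [mem_ball] at *
    linarith [dist_triangle z y x]
  have hyU : ∀ y ∈ ball x (R / 2), y ∈ U := fun y hy => hsub y hy (mem_ball_self (by linarith))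
  have hc : UniformCauchySeqOn (fun n y => fderiv ℂ (F n) y) atTop (ball x (R / 2)) := by
    rw [Metric.uniformCauchySeqOn_iff]
    intro ε hε
    obtain ⟨N, hN⟩ := Metric.uniformCauchySeqOn_iff.1 h.uniformCauchySeqOn (ε * R / 8)
      (by positivity)
    refine ⟨N, fun m hm n hn y hy => ?_⟩
    have hd : DifferentiableOn ℂ (fun z => F m z - F n z) (ball y (R / 2)) :=
      ((hF m).sub (hF n)).mono (hsub y hy)
    have h1 := fderiv_bound (M := ε * R / 8) (by linarith) hd fun z hz => by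
      rw [← dist_eq_norm]; exact (hN m hm n hn z (hsub y hy hz)).le
    have hy' : U ∈ 𝓝 y := hU.mem_nhds (hyU y hy)
    rw [fderiv_fun_sub ((hF m).differentiableAt hy') ((hF n).differentiableAt hy')] at h1
    rw [dist_eq_norm]
    refine h1.trans_lt ?_
    have : 2 * (ε * R / 8) / (R / 2) = ε / 2 := by field_simp; ring
    rw [this]; linarith
  have hlim : ∀ y ∈ ball x (R / 2), Tendsto (fun n => fderiv ℂ (F n) y) atTop
      (𝓝 (limUnder atTop fun n => fderiv ℂ (F n) y)) := fun y hy =>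
    (hc.cauchySeq hy).tendsto_limUnder
  have := hasFDerivAt_of_tendstoUniformlyOn isOpen_ball (hc.tendstoUniformlyOn_of_tendsto hlim)
    (fun n y hy => ((hF n).differentiableAt (hU.mem_nhds (hyU y hy))).hasFDerivAt)
    (fun y hy => h.tendsto_at (hyU y hy)) (mem_ball_self (by linarith))
  exact this.differentiableAt.differentiableWithinAt

/-- Holomorphic dependence of an integral on parameters, bounded integrand on a ball. -/
theorem differentiableAt_integral [CompleteSpace G] {K : E → ℝ → G} {a b : ℝ} {c : E} {R M : ℝ}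
    (hR : 0 < R) (hK : ∀ θ ∈ uIcc a b, DifferentiableOn ℂ (fun x => K x θ) (ball c R))
    (hc : ∀ x ∈ ball c R, ContinuousOn (K x) (uIcc a b))
    (hM : ∀ x ∈ ball c R, ∀ θ ∈ uIcc a b, ‖K x θ‖ ≤ M) :
    DifferentiableAt ℂ (fun x => ∫ θ in a..b, K x θ) c := by
  have hM0 : 0 ≤ M := (norm_nonneg _).trans (hM c (mem_ball_self hR) a left_mem_uIcc)
  set D : ℝ → E →L[ℂ] G := fun θ => fderiv ℂ (fun x => K x θ) c with hD
  have hrem : ∀ θ ∈ uIcc a b, ∀ x ∈ ball c R,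
      ‖K x θ - K c θ - D θ (x - c)‖ ≤ 4 * M * (‖x - c‖ / R) ^ 2 := fun θ hθ x hx =>
    rem_bound hR (hK θ hθ) (fun y hy => hM y hy θ hθ) hx
  have hDb : ∀ θ ∈ uIcc a b, ‖D θ‖ ≤ 2 * M / R := fun θ hθ =>
    fderiv_bound hR (hK θ hθ) (fun y hy => hM y hy θ hθ)
  -- continuity of `θ ↦ D θ v`
  have hcont : ∀ v, ContinuousOn (fun θ => D θ v) (uIcc a b) := by
    intro v
    refine continuousOn_of_uniform_approx_of_continuousOn fun u hu => ?_
    obtain ⟨ε, hε, hu⟩ := Metric.mem_uniformity_dist.1 hu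
    obtain ⟨t, ht0, ht1, ht2⟩ : ∃ t : ℝ, 0 < t ∧ t * ‖v‖ < R ∧ 4 * M * t * (‖v‖ / R) ^ 2 < ε := by
      have h1 : ∀ᶠ t : ℝ in 𝓝 0, t * ‖v‖ < R :=
        (by fun_prop : ContinuousAt (fun t : ℝ => t * ‖v‖) 0).eventually_lt continuousAt_const
          (by simpa using hR)
      have h2 : ∀ᶠ t : ℝ in 𝓝 0, 4 * M * t * (‖v‖ / R) ^ 2 < ε :=
        (by fun_prop : ContinuousAt (fun t : ℝ => 4 * M * t * (‖v‖ / R) ^ 2) 0).eventually_lt
          continuousAt_const (by simpa using hε)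
      obtain ⟨t, ⟨h3, h4⟩, h5⟩ :=
        (((h1.and h2).filter_mono nhdsWithin_le_nhds).and
          (self_mem_nhdsWithin (s := Ioi (0 : ℝ)) (a := 0))).exists
      exact ⟨t, h5, h3, h4⟩
    have hn : ‖(t : ℂ) • v‖ = t * ‖v‖ := by rw [norm_smul]; simp [abs_of_pos ht0]
    have hx : c + (t : ℂ) • v ∈ ball c R := by
      rw [mem_ball, dist_eq_norm, add_sub_cancel_left, hn]; exact ht1
    refine ⟨fun θ => (t : ℂ)⁻¹ • (K (c + (t : ℂ) • v) θ - K c θ),
      ((hc _ hx).sub (hc _ (mem_ball_self hR))).const_smul _, fun θ hθ => hu ?_⟩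
    have h1 := hrem θ hθ _ hx
    rw [add_sub_cancel_left, hn, map_smul] at h1
    have ht : (t : ℂ) ≠ 0 := by exact_mod_cast ht0.ne'
    have e : D θ v - (t : ℂ)⁻¹ • (K (c + (t : ℂ) • v) θ - K c θ) =
        -((t : ℂ)⁻¹ • (K (c + (t : ℂ) • v) θ - K c θ - (t : ℂ) • D θ v)) := by
      rw [smul_sub (t : ℂ)⁻¹ _ ((t : ℂ) • D θ v), smul_smul, inv_mul_cancel₀ ht, one_smul]; abel
    rw [dist_eq_norm, e, norm_neg, norm_smul, norm_inv, Complex.norm_real, Real.norm_eq_abs,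
      abs_of_pos ht0]
    refine lt_of_le_of_lt ?_ ht2
    rw [inv_mul_le_iff₀ ht0]
    refine h1.trans_eq ?_
    ring
  have hint : ∀ v, IntervalIntegrable (fun θ => D θ v) volume a b := fun v =>
    (hcont v).intervalIntegrable
  let L : E →ₗ[ℂ] G :=
    { toFun := fun v => ∫ θ in a..b, D θ v
      map_add' := fun v w => by
        simp only [map_add]; exact intervalIntegral.integral_add (hint v) (hint w)
      map_smul' := fun s v => by
        simp only [map_smul, RingHom.id_apply]; exact intervalIntegral.integral_smul _ _ }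
  have hL : ∀ v, ‖L v‖ ≤ (2 * M / R * |b - a|) * ‖v‖ := fun v => by
    have := intervalIntegral.norm_integral_le_of_norm_le_const (a := a) (b := b)
      (f := fun θ => D θ v) (C := 2 * M / R * ‖v‖) fun θ hθ =>
        ((D θ).le_opNorm v).trans (by gcongr; exact hDb θ (uIoc_subset_uIcc hθ))
    exact this.trans_eq (by ring)
  refine HasFDerivAt.differentiableAt (f' := L.mkContinuous _ hL) ?_
  rw [hasFDerivAt_iff_isLittleO]
  have hO : (fun x => (∫ θ in a..b, K x θ) - (∫ θ in a..b, K c θ) - L.mkContinuous _ hL (x - c))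
      =O[𝓝 c] fun x => ‖x - c‖ ^ 2 := by
    refine IsBigO.of_bound (4 * M / R ^ 2 * |b - a|) ?_
    filter_upwards [ball_mem_nhds c hR] with x hx
    have i1 := (hc x hx).intervalIntegrable (μ := volume)
    have i2 := (hc c (mem_ball_self hR)).intervalIntegrable (μ := volume)
    have e : (∫ θ in a..b, K x θ) - (∫ θ in a..b, K c θ) - L.mkContinuous _ hL (x - c) =
        ∫ θ in a..b, (K x θ - K c θ - D θ (x - c)) := by
      rw [intervalIntegral.integral_sub (i1.sub i2) (hint _), intervalIntegral.integral_sub i1 i2]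
      rfl
    rw [e]
    refine (intervalIntegral.norm_integral_le_of_norm_le_const fun θ hθ =>
      hrem θ (uIoc_subset_uIcc hθ) x hx).trans_eq ?_
    rw [norm_pow, norm_norm]; ring
  exact hO.trans_isLittleO (isLittleO_pow_sub_sub c one_lt_two)

/-- Holomorphic dependence of an integral on parameters in a finite-dimensional space. -/
theorem differentiableOn_integral [CompleteSpace G] [ProperSpace E] {K : E → ℝ → G} {a b : ℝ}
    {U : Set E} (hU : IsOpen U)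
    (hK : ∀ θ ∈ uIcc a b, DifferentiableOn ℂ (fun x => K x θ) U)
    (hc : ContinuousOn (fun p : E × ℝ => K p.1 p.2) (U ×ˢ uIcc a b)) :
    DifferentiableOn ℂ (fun x => ∫ θ in a..b, K x θ) U := by
  intro c hcU
  obtain ⟨R, hR, hRU⟩ := Metric.nhds_basis_closedBall.mem_iff.1 (hU.mem_nhds hcU)
  obtain ⟨M, hM⟩ := ((isCompact_closedBall c R).prod isCompact_uIcc).exists_bound_of_continuousOn
    (hc.mono (prod_mono hRU subset_rfl))
  have hb : ball c R ⊆ U := ball_subset_closedBall.trans hRU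
  refine (differentiableAt_integral (M := M) hR (fun θ hθ => (hK θ hθ).mono hb) (fun x hx => ?_)
    fun x hx θ hθ => hM (x, θ) ⟨ball_subset_closedBall hx, hθ⟩).differentiableWithinAt
  exact hc.comp (by fun_prop : Continuous fun θ : ℝ => (x, θ)).continuousOn
    fun θ hθ => ⟨hb hx, hθ⟩

end H45Par

end

section

/-! Principal parts as Cauchy integrals. -/

open Set Filter Topology Metric Complex
open scoped Real ComplexConjugate

namespace Pool.Agent.MP_c434f6_gt.H30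

/-- The principal part at the disc `C(c, r)` of a function on the circle. -/
noncomputable def PP (c : ℂ) (r : ℝ) (φ : ℂ → ℂ) (z : ℂ) : ℂ :=
  (2 * π * I : ℂ)⁻¹ * ∮ ζ in C(c, r), φ ζ / (z - ζ)

/-- The regular part (Cauchy integral). -/
noncomputable def RP (c : ℂ) (r : ℝ) (φ : ℂ → ℂ) (z : ℂ) : ℂ :=
  (2 * π * I : ℂ)⁻¹ * ∮ ζ in C(c, r), φ ζ / (ζ - z)

lemma two_pi_I_ne : (2 * π * I : ℂ) ≠ 0 := by simp [Real.pi_ne_zero]

variable {c z : ℂ} {r ρ B : ℝ} {φ ψ : ℂ → ℂ}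

lemma le_norm_sub_of_sphere {ζ : ℂ} (hζ : ζ ∈ sphere c r) : ‖z - c‖ - r ≤ ‖z - ζ‖ := by
  rw [mem_sphere, dist_eq_norm] at hζ
  have : ‖z - c‖ ≤ ‖z - ζ‖ + ‖ζ - c‖ := by
    simpa using norm_add_le (z - ζ) (ζ - c)
  linarith

lemma le_norm_sub_of_sphere' {ζ : ℂ} (hζ : ζ ∈ sphere c r) : r - ‖z - c‖ ≤ ‖ζ - z‖ := by
  rw [mem_sphere, dist_eq_norm] at hζ
  have : ‖ζ - c‖ ≤ ‖ζ - z‖ + ‖z - c‖ := by
    simpa using norm_add_le (ζ - z) (z - c)
  linarith

lemma sub_ne_of_sphere {ζ : ℂ} (hζ : ζ ∈ sphere c r) (hz : ‖z - c‖ ≠ r) : z - ζ ≠ 0 := by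
  rw [mem_sphere, dist_eq_norm] at hζ
  intro h
  rw [sub_eq_zero] at h
  exact hz (h ▸ hζ)

lemma norm_circ_le (hr : 0 ≤ r) (h : ∀ ζ ∈ sphere c r, ‖φ ζ‖ ≤ B) :
    ‖(2 * π * I : ℂ)⁻¹ * ∮ ζ in C(c, r), φ ζ‖ ≤ r * B :=
  circleIntegral.norm_two_pi_i_inv_smul_integral_le_of_norm_le_const hr h

lemma PP_bound (hr : 0 ≤ r) (h : ∀ ζ ∈ sphere c r, ‖φ ζ‖ ≤ B) (hz : r < ‖z - c‖) :
    ‖PP c r φ z‖ ≤ B * r / (‖z - c‖ - r) := by
  have h0 : 0 < ‖z - c‖ - r := sub_pos.2 hz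
  refine (norm_circ_le (B := B / (‖z - c‖ - r)) hr fun ζ hζ => ?_).trans_eq (by ring)
  rw [norm_div]
  have := le_norm_sub_of_sphere (z := z) hζ
  have hB := (norm_nonneg _).trans (h ζ hζ)
  exact div_le_div₀ hB (h ζ hζ) h0 this

lemma RP_bound (hr : 0 ≤ r) (h : ∀ ζ ∈ sphere c r, ‖φ ζ‖ ≤ B) (hz : ‖z - c‖ < r) :
    ‖RP c r φ z‖ ≤ B * r / (r - ‖z - c‖) := by
  have h0 : 0 < r - ‖z - c‖ := sub_pos.2 hz
  refine (norm_circ_le (B := B / (r - ‖z - c‖)) hr fun ζ hζ => ?_).trans_eq (by ring)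
  rw [norm_div]
  have := le_norm_sub_of_sphere' (z := z) hζ
  have hB := (norm_nonneg _).trans (h ζ hζ)
  exact div_le_div₀ hB (h ζ hζ) h0 this

lemma circInt_div (hr : 0 ≤ r) (h : ContinuousOn φ (sphere c r)) (hz : ‖z - c‖ ≠ r) :
    CircleIntegrable (fun ζ => φ ζ / (z - ζ)) c r :=
  (h.div (by fun_prop) fun _ hζ => sub_ne_of_sphere hζ hz).circleIntegrable hr

lemma PP_congr (hr : 0 ≤ r) (h : EqOn φ ψ (sphere c r)) : PP c r φ z = PP c r ψ z := by
  unfold PP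
  rw [circleIntegral.integral_congr hr fun ζ hζ => by rw [h hζ]]

lemma PP_add (hr : 0 ≤ r) (h : ContinuousOn φ (sphere c r)) (h' : ContinuousOn ψ (sphere c r))
    (hz : ‖z - c‖ ≠ r) : PP c r (fun ζ => φ ζ + ψ ζ) z = PP c r φ z + PP c r ψ z := by
  unfold PP
  rw [← mul_add, ← circleIntegral.integral_add (circInt_div hr h hz) (circInt_div hr h' hz)]
  simp only [add_div]

lemma PP_sub (hr : 0 ≤ r) (h : ContinuousOn φ (sphere c r)) (h' : ContinuousOn ψ (sphere c r))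
    (hz : ‖z - c‖ ≠ r) : PP c r (fun ζ => φ ζ - ψ ζ) z = PP c r φ z - PP c r ψ z := by
  unfold PP
  rw [← mul_sub, ← circleIntegral.integral_sub (circInt_div hr h hz) (circInt_div hr h' hz)]
  simp only [sub_div]

lemma RP_eq_neg : RP c r φ z = -PP c r φ z := by
  unfold RP PP
  have : (fun ζ => φ ζ / (ζ - z)) = fun ζ => -1 * (φ ζ / (z - ζ)) := by
    ext ζ
    rw [← neg_sub z ζ, div_neg]; ring
  rw [this, circleIntegral.integral_const_mul]; ring

/-- A circle integral with a holomorphic parameter. -/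
lemma circ_diff {E : Type*} [NormedAddCommGroup E] [NormedSpace ℂ E] [ProperSpace E] {U : Set E}
    (hU : IsOpen U) (hr : 0 ≤ r) {cc : E → ℂ} {K : E → ℂ → ℂ} (hc : DifferentiableOn ℂ cc U)
    (hK : ∀ x ∈ U, ∀ ζ ∈ sphere (cc x) r,
      DifferentiableAt ℂ (fun p : E × ℂ => K p.1 p.2) (x, ζ)) :
    DifferentiableOn ℂ (fun x => ∮ ζ in C(cc x, r), K x ζ) U := by
  unfold circleIntegral
  simp only [deriv_circleMap]
  refine H45Par.differentiableOn_integral hU (fun θ _ x hx => ?_) fun p hp => ?_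
  · have h1 : DifferentiableAt ℂ (fun x => (x, circleMap (cc x) r θ)) x := by
      have := hc.differentiableAt (hU.mem_nhds hx)
      unfold circleMap
      fun_prop
    exact (((hK x hx _ (circleMap_mem_sphere _ hr θ)).comp x h1).const_smul
      (circleMap 0 r θ * I)).differentiableWithinAt
  · have h0 := (hc.differentiableAt (hU.mem_nhds hp.1)).continuousAt
    have h1 : ContinuousAt (fun p : E × ℝ => (p.1, circleMap (cc p.1) r p.2)) p := by
      have h2 : ContinuousAt (fun p : E × ℝ => cc p.1) p := h0.comp continuousAt_fst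
      unfold circleMap
      fun_prop
    have h3 := (hK p.1 hp.1 _ (circleMap_mem_sphere _ hr p.2)).continuousAt.comp_of_eq h1 rfl
    have h4 : ContinuousAt (fun p : E × ℝ => circleMap 0 r p.2 * I) p := by fun_prop
    exact (h4.smul h3).continuousWithinAt

lemma PP_diff (hr : 0 ≤ r) (h : ContinuousOn φ (sphere c r)) :
    DifferentiableOn ℂ (PP c r φ) {z | ‖z - c‖ ≠ r} := by
  have hU : IsOpen {z : ℂ | ‖z - c‖ ≠ r} := isOpen_ne_fun (by fun_prop) continuous_const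
  unfold PP circleIntegral
  simp only [deriv_circleMap]
  refine DifferentiableOn.const_mul ?_ _
  refine H45Par.differentiableOn_integral hU (fun θ _ z hz => ?_) ?_
  · have := sub_ne_of_sphere (circleMap_mem_sphere c hr θ) hz
    refine DifferentiableAt.differentiableWithinAt ?_
    fun_prop (disch := assumption)
  · have h4 : Continuous (fun p : ℂ × ℝ => circleMap 0 r p.2 * I) := by fun_prop
    have h5 : Continuous (fun p : ℂ × ℝ => p.1 - circleMap c r p.2) := by fun_prop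
    refine h4.continuousOn.smul (ContinuousOn.div ?_ h5.continuousOn fun p hp => ?_)
    · exact h.comp (by fun_prop) fun p _ => circleMap_mem_sphere c hr p.2
    · exact sub_ne_of_sphere (circleMap_mem_sphere c hr p.2) hp.1

lemma PP_diffAt (hr : 0 ≤ r) (h : ContinuousOn φ (sphere c r)) (hz : ‖z - c‖ ≠ r) :
    DifferentiableAt ℂ (PP c r φ) z :=
  (PP_diff hr h).differentiableAt
    ((isOpen_ne_fun (by fun_prop) continuous_const).mem_nhds hz)

lemma RP_diffAt (hr : 0 ≤ r) (h : ContinuousOn φ (sphere c r)) (hz : ‖z - c‖ ≠ r) :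
    DifferentiableAt ℂ (RP c r φ) z := by
  have : RP c r φ = fun z => -PP c r φ z := funext fun _ => RP_eq_neg
  rw [this]; exact (PP_diffAt hr h hz).neg

/-- joint holomorphy in a parameter and the point -/
lemma PP_diff_par {E : Type*} [NormedAddCommGroup E] [NormedSpace ℂ E] [ProperSpace E] {U : Set E}
    (hU : IsOpen U) (hr : 0 ≤ r) {cc : E → ℂ} {Φ : E → ℂ → ℂ} (hc : DifferentiableOn ℂ cc U)
    (hΦ : ∀ x ∈ U, ∀ ζ ∈ sphere (cc x) r,
      DifferentiableAt ℂ (fun p : E × ℂ => Φ p.1 p.2) (x, ζ)) :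
    DifferentiableOn ℂ (fun p : E × ℂ => PP (cc p.1) r (Φ p.1) p.2)
      {p | p.1 ∈ U ∧ r < ‖p.2 - cc p.1‖} := by
  have hO : IsOpen {p : E × ℂ | p.1 ∈ U ∧ r < ‖p.2 - cc p.1‖} := by
    have h1 : ContinuousOn (fun p : E × ℂ => ‖p.2 - cc p.1‖) (Prod.fst ⁻¹' U) :=
      (continuousOn_snd.sub (hc.continuousOn.comp continuousOn_fst fun _ h => h)).norm
    exact h1.isOpen_inter_preimage (hU.preimage continuous_fst) isOpen_Ioi
  unfold PP
  refine DifferentiableOn.const_mul ?_ _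
  refine circ_diff (cc := fun p : E × ℂ => cc p.1) (K := fun p ζ => Φ p.1 ζ / (p.2 - ζ)) hO hr
    (hc.comp differentiableOn_fst fun _ h => h.1) fun p hp ζ hζ => ?_
  have h1 : DifferentiableAt ℂ (fun q : (E × ℂ) × ℂ => Φ q.1.1 q.2) (p, ζ) :=
    DifferentiableAt.comp (f := fun q : (E × ℂ) × ℂ => (q.1.1, q.2)) (p, ζ)
      (hΦ p.1 hp.1 ζ hζ) (by fun_prop)
  have h2 : DifferentiableAt ℂ (fun q : (E × ℂ) × ℂ => (q.1.2 - q.2)⁻¹) (p, ζ) :=
    DifferentiableAt.inv (by fun_prop) (sub_ne_of_sphere hζ hp.2.ne')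
  simp only [div_eq_mul_inv]
  exact h1.mul h2

lemma PP_zero (hr : 0 ≤ r) (h : DiffContOnCl ℂ φ (ball c r)) (hz : r < ‖z - c‖) :
    PP c r φ z = 0 := by
  have hne : ∀ ζ ∈ closure (ball c r), z - ζ ≠ 0 := fun ζ hζ h0 => by
    have := closure_ball_subset_closedBall hζ
    rw [mem_closedBall, dist_eq_norm, ← sub_eq_zero.1 h0] at this
    linarith
  have : DiffContOnCl ℂ (fun ζ => φ ζ / (z - ζ)) (ball c r) :=
    ⟨h.differentiableOn.div (by fun_prop) fun ζ hζ => hne ζ (subset_closure hζ),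
      h.continuousOn.div (by fun_prop) hne⟩
  unfold PP
  rw [this.circleIntegral_eq_zero hr, mul_zero]

/-- Laurent decomposition in an annulus. -/
lemma annulus (hr : 0 < r) (hz : r < ‖z - c‖) (hz' : ‖z - c‖ < ρ)
    (h : ∀ ζ, r ≤ ‖ζ - c‖ → ‖ζ - c‖ ≤ ρ → DifferentiableAt ℂ φ ζ) :
    φ z = RP c ρ φ z + PP c r φ z := by
  have hrρ : r ≤ ρ := (hz.trans hz').le
  have hρ : 0 ≤ ρ := hr.le.trans hrρ
  have hd : ∀ ζ, r ≤ ‖ζ - c‖ → ‖ζ - c‖ ≤ ρ → DifferentiableAt ℂ (dslope φ z) ζ := by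
    intro ζ h1 h2
    rcases eq_or_ne ζ z with rfl | hne
    · have hn : {w : ℂ | r < ‖w - c‖ ∧ ‖w - c‖ < ρ} ∈ 𝓝 ζ :=
        ((isOpen_lt continuous_const (continuous_id.sub continuous_const).norm).inter
          (isOpen_lt (continuous_id.sub continuous_const).norm continuous_const)).mem_nhds
          ⟨hz, hz'⟩
      exact ((differentiableOn_dslope hn).2 fun w hw =>
        (h w hw.1.le hw.2.le).differentiableWithinAt).differentiableAt hn
    · exact (differentiableAt_dslope_of_ne hne).2 (h ζ h1 h2)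
  have key := circleIntegral_eq_of_differentiable_on_annulus_off_countable (c := c) hr hrρ
    (f := dslope φ z) countable_empty (fun ζ hζ => by
      have h1 : ‖ζ - c‖ ≤ ρ := by simpa [dist_eq_norm] using hζ.1
      have h2 : r ≤ ‖ζ - c‖ := by simpa [dist_eq_norm] using hζ.2
      exact (hd ζ h2 h1).continuousAt.continuousWithinAt) (fun ζ hζ => by
      have h1 : ‖ζ - c‖ < ρ := by simpa [dist_eq_norm] using hζ.1.1
      have h2 : r < ‖ζ - c‖ := by simpa [dist_eq_norm] using hζ.1.2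
      exact hd ζ h2.le h1.le)
  have sp : ∀ t : ℝ, r ≤ t → t ≤ ρ → ‖z - c‖ ≠ t → (2 * π * I : ℂ)⁻¹ * ∮ ζ in C(c, t), dslope φ z ζ
      = PP c t (fun _ => φ z) z - PP c t φ z := by
    intro t h1 h2 h3
    have ht : 0 ≤ t := hr.le.trans h1
    rw [← PP_sub ht continuousOn_const (fun ζ hζ => by
      have : ‖ζ - c‖ = t := by simpa [dist_eq_norm] using hζ
      exact (h ζ (this ▸ h1) (this ▸ h2)).continuousAt.continuousWithinAt) h3]
    unfold PP
    rw [circleIntegral.integral_congr ht fun ζ hζ => ?_]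
    have h4 := sub_ne_of_sphere hζ h3
    have h5 : ζ - z ≠ 0 := fun h => h4 (by rw [← neg_sub, h, neg_zero])
    rw [dslope_of_ne _ (sub_ne_zero.1 h5), slope_def_field]
    field_simp
    ring
  have e1 := sp r le_rfl hrρ hz.ne'
  have e2 := sp ρ hrρ le_rfl hz'.ne
  rw [PP_zero hr.le diffContOnCl_const hz] at e1
  have e3 : PP c ρ (fun _ => φ z) z = -φ z := by
    rw [← neg_inj, ← RP_eq_neg, neg_neg]
    have := (diffContOnCl_const (c := φ z) (s := ball c ρ) (𝕜 := ℂ)).circleIntegral_sub_inv_smul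
      (w := z) (by simpa [dist_eq_norm] using hz')
    unfold RP
    simp only [smul_eq_mul] at this
    simp only [div_eq_inv_mul, this]
    rw [← mul_assoc, inv_mul_cancel₀ two_pi_I_ne, one_mul]
  rw [key, e1, e3] at e2
  rw [RP_eq_neg]
  linear_combination e2

/-- A function holomorphic outside the disc and vanishing at infinity is its own principal part. -/
lemma PP_self (hr : 0 < r) (hz : r < ‖z - c‖) (h : ∀ ζ, r ≤ ‖ζ - c‖ → DifferentiableAt ℂ φ ζ)
    (h0 : Tendsto φ (cocompact ℂ) (𝓝 0)) : PP c r φ z = φ z := by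
  refine eq_of_forall_dist_le fun ε hε => ?_
  have h1 := (Metric.tendsto_nhds.1 h0) (ε / 2) (by positivity)
  rw [← Metric.cobounded_eq_cocompact] at h1
  obtain ⟨R, -, hR⟩ := (Metric.hasBasis_cobounded_compl_closedBall c).eventually_iff.1 h1
  set ρ := max R (2 * ‖z - c‖) + 1 with hρ
  have h2 : 2 * ‖z - c‖ < ρ := by linarith [le_max_right R (2 * ‖z - c‖)]
  have h3 : R < ρ := by linarith [le_max_left R (2 * ‖z - c‖)]
  have h4 : ‖z - c‖ < ρ := by linarith [norm_nonneg (z - c)]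
  rw [annulus hr hz h4 fun ζ h5 _ => h ζ h5, dist_comm, dist_eq_norm, add_sub_cancel_right]
  refine (RP_bound (B := ε / 2) (by linarith [norm_nonneg (z - c)]) (fun ζ hζ => ?_) h4).trans ?_
  · have : ζ ∈ (closedBall c R)ᶜ := by
      rw [mem_sphere] at hζ
      simp [hζ, h3]
    simpa using (hR this).le
  · rw [div_le_iff₀ (by linarith)]
    nlinarith

/-- behaviour under `z ↦ -conj z` -/
lemma circ_conj (c : ℂ) (r : ℝ) (φ : ℂ → ℂ) :
    (∮ ζ in C(-conj c, r), conj (φ (-conj ζ))) = conj (∮ ζ in C(c, r), φ ζ) := by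
  unfold circleIntegral
  simp only [deriv_circleMap]
  set g : ℝ → ℂ := fun θ => (circleMap 0 r θ * I) • φ (circleMap c r θ) with hg
  have hp : Function.Periodic g (2 * π) := fun θ => by
    simp only [hg, periodic_circleMap _ _ θ]
  have e : ∀ θ : ℝ, (circleMap 0 r θ * I) • conj (φ (-conj (circleMap (-conj c) r θ))) =
      conj (g (π - θ)) := by
    intro θ
    have h1 : exp (((π - θ : ℝ) : ℂ) * I) = -conj (exp (θ * I)) := by
      rw [← exp_conj]
      push_cast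
      rw [sub_mul, sub_eq_add_neg, exp_add, exp_pi_mul_I]
      simp
    have h2 : -conj (circleMap (-conj c) r θ) = circleMap c r (π - θ) := by
      simp only [circleMap, h1]; simp; ring
    simp only [hg, h2, smul_eq_mul, map_mul]
    congr 1
    simp only [circleMap, h1]; simp
  simp only [e]
  rw [intervalIntegral.integral_comp_sub_left (fun θ => conj (g θ)) π]
  have h3 := hp.intervalIntegral_add_eq (π - 2 * π) 0
  rw [show π - 2 * π + 2 * π = π - 0 by ring, zero_add] at h3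
  rw [← h3]
  unfold intervalIntegral
  rw [map_sub, ← integral_conj, ← integral_conj]

lemma PP_conj (c : ℂ) (r : ℝ) (φ : ℂ → ℂ) (z : ℂ) :
    PP (-conj c) r (fun ζ => conj (φ (-conj ζ))) (-conj z) = conj (PP c r φ z) := by
  unfold PP
  have : (fun ζ => conj (φ (-conj ζ)) / (-conj z - ζ)) =
      fun ζ => -1 * conj (φ (-conj ζ) / (z - -conj ζ)) := by
    ext ζ
    simp only [map_div₀, map_sub, map_neg, conj_conj]
    rw [show -conj z - ζ = -(conj z - -ζ) by ring, div_neg]; ring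
  rw [this, circleIntegral.integral_const_mul, circ_conj c r fun ζ => φ ζ / (z - ζ), map_mul,
    ← mul_assoc]
  congr 1
  simp [map_ofNat]

end Pool.Agent.MP_c434f6_gt.H30

end

section

/-! The linear fixed point problem for the spinors. -/

open Set Filter Topology Metric Complex
open scoped Real ComplexConjugate

set_option linter.unusedSectionVars false
set_option linter.unusedVariables false

namespace Pool.Agent.MP_c434f6_gt.H30

/-- Centres, multipliers, pairing and the radii of the integration circles. -/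
structure Dat (ι : Type) where
  pr : ι → ι
  c : ι → ℂ
  κ : ι → ℂ
  r : ι → ℝ

namespace Dat

variable {ι : Type} [Fintype ι] [DecidableEq ι] (D : Dat ι)

noncomputable def γ (k : ι) (z : ℂ) : ℂ := D.c (D.pr k) - D.κ k ^ 2 / (z - D.c k)

def V : Set ℂ := {z | ∀ k, D.r k < ‖z - D.c k‖}

noncomputable def T (a : ℂ) (P : ι → ℂ → ℂ) (l : ι) (ζ : ℂ) : ℂ :=
  D.κ l / (ζ - D.c l) * exp (-(a * ζ)) * (exp (a * D.γ l ζ) * (1 + ∑ m, P m (D.γ l ζ))
    - exp (a * D.c (D.pr l)) * P (D.pr l) (D.γ l ζ))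

noncomputable def step (a : ℂ) (P : ι → ℂ → ℂ) (l : ι) : ℂ → ℂ := PP (D.c l) (D.r l) (D.T a P l)

noncomputable def iter (a : ℂ) : ℕ → ι → ℂ → ℂ
  | 0 => fun _ _ => 0
  | n + 1 => D.step a (iter a n)

noncomputable def Pinf (a : ℂ) (l : ι) (z : ℂ) : ℂ := limUnder atTop fun n => D.iter a n l z

def Hol (P : ι → ℂ → ℂ) : Prop := ∀ l z, D.r l < ‖z - D.c l‖ → DifferentiableAt ℂ (P l) z

/-- `P` and `Q` differ by at most `η` in the weighted norm. -/
def Bd (w : ι → ℝ) (P Q : ι → ℂ → ℂ) (η : ℝ) : Prop :=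
  ∀ l z, D.r l < ‖z - D.c l‖ → ‖P l z - Q l z‖ ≤ η * (w l * D.r l / (‖z - D.c l‖ - D.r l))

/-- The contraction hypotheses: inequalities on the circles. -/
structure Con (a : ℂ) (w : ι → ℝ) (L η₀ : ℝ) : Prop where
  r0 : ∀ l, 0 < D.r l
  w0 : ∀ l, 0 < w l
  L0 : 0 ≤ L
  L1 : L < 1
  η0 : 0 ≤ η₀
  out : ∀ l, ∀ ζ ∈ sphere (D.c l) (D.r l), D.γ l ζ ∈ D.V
  lin : ∀ l, ∀ ζ ∈ sphere (D.c l) (D.r l), ‖D.κ l / (ζ - D.c l) * exp (-(a * ζ))‖ *
    (‖exp (a * D.γ l ζ)‖ * ∑ m ∈ Finset.univ.erase (D.pr l),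
        w m * D.r m / (‖D.γ l ζ - D.c m‖ - D.r m)
      + ‖exp (a * D.γ l ζ) - exp (a * D.c (D.pr l))‖ *
        (w (D.pr l) * D.r (D.pr l) / (‖D.γ l ζ - D.c (D.pr l)‖ - D.r (D.pr l)))) ≤ L * w l
  cst : ∀ l, ∀ ζ ∈ sphere (D.c l) (D.r l),
    ‖D.κ l / (ζ - D.c l) * exp (-(a * ζ)) * exp (a * D.γ l ζ)‖ ≤ η₀ * w l

variable {D} {a : ℂ} {w : ι → ℝ} {L η₀ η ε : ℝ} {P Q R : ι → ℂ → ℂ}

lemma isOpen_V : IsOpen D.V := by
  have : D.V = ⋂ k, {z | D.r k < ‖z - D.c k‖} := by ext; simp [V]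
  rw [this]
  exact isOpen_iInter_of_finite fun k => isOpen_lt continuous_const (by fun_prop)

lemma γ_diffAt {l : ι} {ζ : ℂ} (h : ζ - D.c l ≠ 0) : DifferentiableAt ℂ (D.γ l) ζ := by
  unfold γ
  fun_prop (disch := assumption)

lemma T_diffAt (hP : D.Hol P) {l : ι} {ζ : ℂ} (h : ζ - D.c l ≠ 0) (hV : D.γ l ζ ∈ D.V) :
    DifferentiableAt ℂ (D.T a P l) ζ := by
  have h1 := γ_diffAt h
  have h2 : ∀ m, DifferentiableAt ℂ (fun ζ => P m (D.γ l ζ)) ζ := fun m =>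
    (hP m _ (hV m)).comp ζ h1
  have h3 : DifferentiableAt ℂ (fun ζ => ∑ m, P m (D.γ l ζ)) ζ :=
    DifferentiableAt.fun_sum fun m _ => h2 m
  have h5 : DifferentiableAt ℂ (fun ζ => D.κ l / (ζ - D.c l) * exp (-(a * ζ))) ζ := by
    fun_prop (disch := assumption)
  exact h5.mul (((h1.const_mul a).cexp.mul (h3.const_add 1)).sub ((h2 (D.pr l)).const_mul _))

lemma Con.ne (C : D.Con a w L η₀) {l : ι} {ζ : ℂ} (h : ζ ∈ sphere (D.c l) (D.r l)) :
    ζ - D.c l ≠ 0 := by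
  rw [mem_sphere, dist_eq_norm] at h
  rw [← norm_pos_iff, h]; exact C.r0 l

lemma Con.T_cont (C : D.Con a w L η₀) (hP : D.Hol P) (l : ι) :
    ContinuousOn (D.T a P l) (sphere (D.c l) (D.r l)) := fun ζ hζ =>
  (T_diffAt hP (C.ne hζ) (C.out l ζ hζ)).continuousAt.continuousWithinAt

lemma Con.step_hol (C : D.Con a w L η₀) (hP : D.Hol P) : D.Hol (D.step a P) := fun l _ hz =>
  PP_diffAt (C.r0 l).le (C.T_cont hP l) hz.ne'

lemma Con.wt_pos (C : D.Con a w L η₀) {l : ι} {z : ℂ} (hz : D.r l < ‖z - D.c l‖) :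
    0 < w l * D.r l / (‖z - D.c l‖ - D.r l) :=
  div_pos (mul_pos (C.w0 l) (C.r0 l)) (sub_pos.2 hz)

lemma Con.mono (C : D.Con a w L η₀) (h : D.Bd w P Q η) (h' : η ≤ ε) : D.Bd w P Q ε :=
  fun l z hz => (h l z hz).trans (mul_le_mul_of_nonneg_right h' (C.wt_pos hz).le)

lemma Bd.symm (h : D.Bd w P Q η) : D.Bd w Q P η := fun l z hz => by
  rw [norm_sub_rev]; exact h l z hz

lemma Bd.trans (h : D.Bd w P Q η) (h' : D.Bd w Q R ε) : D.Bd w P R (η + ε) := fun l z hz => by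
  rw [add_mul]
  exact (norm_sub_le_norm_sub_add_norm_sub _ (Q l z) _).trans (add_le_add (h l z hz) (h' l z hz))

lemma Con.bd_PP (C : D.Con a w L η₀) {φ ψ : ι → ℂ → ℂ}
    (hφ : ∀ l, ContinuousOn (φ l) (sphere (D.c l) (D.r l)))
    (hψ : ∀ l, ContinuousOn (ψ l) (sphere (D.c l) (D.r l)))
    (h : ∀ l, ∀ ζ ∈ sphere (D.c l) (D.r l), ‖φ l ζ - ψ l ζ‖ ≤ η * w l) :
    D.Bd w (fun l => PP (D.c l) (D.r l) (φ l)) (fun l => PP (D.c l) (D.r l) (ψ l)) η := by
  intro l z hz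
  simp only
  rw [← PP_sub (C.r0 l).le (hφ l) (hψ l) hz.ne']
  exact (PP_bound (C.r0 l).le (h l) hz).trans_eq (by ring)

lemma Con.T_sub (C : D.Con a w L η₀) (h : D.Bd w P Q η) (hη : 0 ≤ η) (l : ι) (ζ : ℂ)
    (hζ : ζ ∈ sphere (D.c l) (D.r l)) : ‖D.T a P l ζ - D.T a Q l ζ‖ ≤ L * η * w l := by
  set g := D.γ l ζ with hg
  have hV : g ∈ D.V := C.out l ζ hζ
  have e : D.T a P l ζ - D.T a Q l ζ = D.κ l / (ζ - D.c l) * exp (-(a * ζ)) *
      (exp (a * g) * ∑ m ∈ Finset.univ.erase (D.pr l), (P m g - Q m g)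
        + (exp (a * g) - exp (a * D.c (D.pr l))) * (P (D.pr l) g - Q (D.pr l) g)) := by
    simp only [T, ← hg, ← Finset.add_sum_erase _ _ (Finset.mem_univ (D.pr l)),
      Finset.sum_sub_distrib]
    ring
  have h1 : ‖∑ m ∈ Finset.univ.erase (D.pr l), (P m g - Q m g)‖ ≤
      η * ∑ m ∈ Finset.univ.erase (D.pr l), w m * D.r m / (‖g - D.c m‖ - D.r m) := by
    rw [Finset.mul_sum]
    exact norm_sum_le_of_le _ fun m _ => h m g (hV m)
  have h2 := h _ g (hV (D.pr l))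
  rw [e, norm_mul, mul_right_comm, mul_comm _ η]
  refine le_trans ?_ (mul_le_mul_of_nonneg_left (C.lin l ζ hζ) hη)
  rw [mul_left_comm]
  refine mul_le_mul_of_nonneg_left ((norm_add_le _ _).trans ?_) (norm_nonneg _)
  rw [norm_mul, norm_mul, mul_add, mul_left_comm η, mul_left_comm η]
  gcongr

lemma Con.step_sub (C : D.Con a w L η₀) (hP : D.Hol P) (hQ : D.Hol Q) (h : D.Bd w P Q η)
    (hη : 0 ≤ η) : D.Bd w (D.step a P) (D.step a Q) (L * η) :=
  C.bd_PP (C.T_cont hP) (C.T_cont hQ) (C.T_sub h hη)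

lemma Con.iter_hol (C : D.Con a w L η₀) : ∀ n, D.Hol (D.iter a n)
  | 0 => fun _ _ _ => differentiableAt_const _
  | n + 1 => C.step_hol (C.iter_hol n)

lemma Con.iter_bd (C : D.Con a w L η₀) : ∀ n, D.Bd w (D.iter a n) (D.iter a (n + 1)) (η₀ * L ^ n)
  | 0 => fun l z hz => by
    have := PP_bound (φ := D.T a (fun _ _ => 0) l) (C.r0 l).le (B := η₀ * w l) (fun ζ hζ => by
      simpa [T] using C.cst l ζ hζ) hz
    simp only [iter, step, zero_sub, norm_neg, pow_zero, mul_one]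
    exact this.trans_eq (by ring)
  | n + 1 => C.mono (C.step_sub (C.iter_hol n) (C.iter_hol (n + 1)) (C.iter_bd n)
      (mul_nonneg C.η0 (pow_nonneg C.L0 n))) (by rw [pow_succ]; exact le_of_eq (by ring))

lemma Con.tendsto_iter (C : D.Con a w L η₀) {l : ι} {z : ℂ} (hz : D.r l < ‖z - D.c l‖) :
    Tendsto (fun n => D.iter a n l z) atTop (𝓝 (D.Pinf a l z)) :=
  (cauchySeq_of_le_geometric L (η₀ * (w l * D.r l / (‖z - D.c l‖ - D.r l))) C.L1 fun n => by
    rw [dist_eq_norm]; exact (C.iter_bd n l z hz).trans_eq (by ring)).tendsto_limUnder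

lemma Con.iter_Pinf (C : D.Con a w L η₀) (n : ℕ) :
    D.Bd w (D.iter a n) (D.Pinf a) (η₀ / (1 - L) * L ^ n) := fun l z hz => by
  have := dist_le_of_le_geometric_of_tendsto L (η₀ * (w l * D.r l / (‖z - D.c l‖ - D.r l))) C.L1
    (fun n => by rw [dist_eq_norm]; exact (C.iter_bd n l z hz).trans_eq (by ring))
    (C.tendsto_iter hz) n
  rw [dist_eq_norm] at this
  exact this.trans_eq (by ring)

/-- a priori bound -/
theorem Con.Pinf_bd (C : D.Con a w L η₀) : D.Bd w (D.Pinf a) (fun _ _ => 0) (η₀ / (1 - L)) := by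
  have := (C.iter_Pinf 0).symm
  rwa [pow_zero, mul_one] at this

lemma Con.le_of_geom (C : D.Con a w L η₀) {K : ℝ} (h : ∀ n : ℕ, D.Bd w P Q (ε + K * L ^ n)) :
    D.Bd w P Q ε := fun l z hz => by
  have h1 : Tendsto (fun n : ℕ => (ε + K * L ^ n) * (w l * D.r l / (‖z - D.c l‖ - D.r l))) atTop
      (𝓝 ((ε + K * 0) * (w l * D.r l / (‖z - D.c l‖ - D.r l)))) :=
    (((tendsto_pow_atTop_nhds_zero_of_lt_one C.L0 C.L1).const_mul K).const_add ε).mul_const _
  rw [mul_zero, add_zero] at h1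
  exact ge_of_tendsto' h1 fun n => h n l z hz

lemma unif_of_geom {E : Type*} {F : ℕ → E → ℂ} {f : E → ℂ} {U : Set E} {K L : ℝ} (h0 : 0 ≤ L)
    (h1 : L < 1) (h : ∀ n, ∀ x ∈ U, ‖F n x - f x‖ ≤ K * L ^ n) :
    TendstoUniformlyOn F f atTop U := by
  rw [Metric.tendstoUniformlyOn_iff]
  intro ε hε
  have h2 := (tendsto_pow_atTop_nhds_zero_of_lt_one h0 h1).const_mul K
  rw [mul_zero] at h2
  filter_upwards [h2.eventually_lt_const hε] with n hn x hx
  rw [dist_comm, dist_eq_norm]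
  exact (h n x hx).trans_lt hn

lemma Con.bd_far (C : D.Con a w L η₀) (h : D.Bd w P Q η) (hη : 0 ≤ η) {l : ι} {z : ℂ} {t : ℝ}
    (ht : 0 < t) (hz : D.r l + t ≤ ‖z - D.c l‖) :
    ‖P l z - Q l z‖ ≤ η * (w l * D.r l / t) := by
  refine (h l z (by linarith)).trans ?_
  have := C.w0 l
  have := C.r0 l
  gcongr
  linarith

lemma Con.k0 (C : D.Con a w L η₀) : 0 ≤ η₀ / (1 - L) := div_nonneg C.η0 (sub_pos.2 C.L1).le

theorem Con.Pinf_hol (C : D.Con a w L η₀) : D.Hol (D.Pinf a) := by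
  intro l z hz
  obtain ⟨t, ht, hz'⟩ : ∃ t, 0 < t ∧ D.r l + t < ‖z - D.c l‖ :=
    ⟨(‖z - D.c l‖ - D.r l) / 2, by linarith, by linarith⟩
  have hU : IsOpen {z : ℂ | D.r l + t < ‖z - D.c l‖} := isOpen_lt continuous_const (by fun_prop)
  refine (H45Par.differentiableOn_of_tendstoUniformlyOn (F := fun n => D.iter a n l) hU
    (fun n y hy => (C.iter_hol n l y ?_).differentiableWithinAt)
    (unif_of_geom (K := η₀ / (1 - L) * (w l * D.r l / t)) C.L0 C.L1 fun n y hy => ?_)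
    ).differentiableAt (hU.mem_nhds hz')
  · exact (lt_add_of_pos_right _ ht).trans hy
  · exact (C.bd_far (C.iter_Pinf n) (mul_nonneg C.k0 (pow_nonneg C.L0 n)) ht (le_of_lt hy)
      ).trans_eq (by ring)

/-- `Pinf` is a fixed point. -/
theorem Con.step_Pinf (C : D.Con a w L η₀) {l : ι} {z : ℂ} (hz : D.r l < ‖z - D.c l‖) :
    D.step a (D.Pinf a) l z = D.Pinf a l z := by
  have h : D.Bd w (D.step a (D.Pinf a)) (D.Pinf a) 0 := by
    refine C.le_of_geom (K := 2 * L * (η₀ / (1 - L))) fun n => ?_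
    have h1 := C.step_sub C.Pinf_hol (C.iter_hol n) (C.iter_Pinf n).symm
      (mul_nonneg C.k0 (pow_nonneg C.L0 n))
    exact C.mono (h1.trans (C.iter_Pinf (n + 1))) (le_of_eq (by ring))
  have := h l z hz
  rwa [zero_mul, norm_le_zero_iff, sub_eq_zero] at this

lemma Con.Pinf_step (C : D.Con a w L η₀) : D.Bd w (D.step a (D.Pinf a)) (D.Pinf a) 0 :=
  fun l z hz => by simp [C.step_Pinf hz]

/-- a posteriori bound -/
theorem Con.apost (C : D.Con a w L η₀) (hQ : D.Hol Q) (hε : 0 ≤ ε)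
    (h : D.Bd w Q (D.step a Q) ε) : D.Bd w Q (D.Pinf a) (ε / (1 - L)) := by
  have hL : 0 < 1 - L := sub_pos.2 C.L1
  obtain ⟨K, hK0, hK⟩ : ∃ K, 0 ≤ K ∧ D.Bd w (D.step a Q) (D.step a (D.Pinf a)) K := by
    have : ∀ l, ∃ K, ∀ ζ ∈ sphere (D.c l) (D.r l),
        ‖(D.T a Q l ζ - D.T a (D.Pinf a) l ζ) / w l‖ ≤ K := fun l =>
      (isCompact_sphere _ _).exists_bound_of_continuousOn
        (((C.T_cont hQ l).sub (C.T_cont C.Pinf_hol l)).div_const _)
    choose K hK using this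
    refine ⟨∑ l, |K l|, Finset.sum_nonneg fun _ _ => abs_nonneg _,
      C.bd_PP (C.T_cont hQ) (C.T_cont C.Pinf_hol) fun l ζ hζ => ?_⟩
    have h1 := hK l ζ hζ
    rw [norm_div, norm_real, Real.norm_of_nonneg (C.w0 l).le, div_le_iff₀ (C.w0 l)] at h1
    refine h1.trans (mul_le_mul_of_nonneg_right ((le_abs_self _).trans ?_) (C.w0 l).le)
    exact Finset.single_le_sum (f := fun l => |K l|) (fun _ _ => abs_nonneg _) (Finset.mem_univ l)
  have h0 : 0 ≤ ε / (1 - L) := by positivity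
  refine C.le_of_geom (K := ε + K) fun n => ?_
  induction n with
  | zero => exact C.mono ((h.trans hK).trans C.Pinf_step) (by simp only [pow_zero]; linarith)
  | succ n ih =>
    have h1 := C.step_sub hQ C.Pinf_hol ih (by have := C.L0; positivity)
    refine C.mono ((h.trans h1).trans C.Pinf_step) (le_of_eq ?_)
    field_simp
    ring

/-- a posteriori bound from a residual on the circles: `Q l` is holomorphic outside the open disc
and vanishes at infinity, `h l` is holomorphic in the disc. -/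
theorem Con.apost_circle (C : D.Con a w L η₀) (hε : 0 ≤ ε) {h : ι → ℂ → ℂ}
    (hQ : ∀ l z, D.r l ≤ ‖z - D.c l‖ → DifferentiableAt ℂ (Q l) z)
    (hQ0 : ∀ l, Tendsto (Q l) (cocompact ℂ) (𝓝 0))
    (hh : ∀ l, DiffContOnCl ℂ (h l) (ball (D.c l) (D.r l)))
    (hres : ∀ l, ∀ ζ ∈ sphere (D.c l) (D.r l), ‖Q l ζ + h l ζ - D.T a Q l ζ‖ ≤ ε * w l) :
    D.Bd w Q (D.Pinf a) (ε / (1 - L)) := by
  have hQ' : D.Hol Q := fun l z hz => hQ l z hz.le
  have c1 : ∀ l, ContinuousOn (Q l) (sphere (D.c l) (D.r l)) := fun l ζ hζ =>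
    (hQ l ζ (by rw [mem_sphere, dist_eq_norm] at hζ; exact hζ.ge)).continuousAt.continuousWithinAt
  have c2 : ∀ l, ContinuousOn (h l) (sphere (D.c l) (D.r l)) := fun l =>
    (hh l).continuousOn_ball.mono sphere_subset_closedBall
  refine C.apost hQ' hε fun l z hz => ?_
  have := C.bd_PP (φ := fun l ζ => Q l ζ + h l ζ) (fun l => (c1 l).add (c2 l)) (C.T_cont hQ') hres
    l z hz
  simp only at this
  rwa [PP_add (C.r0 l).le (c1 l) (c2 l) hz.ne', PP_zero (C.r0 l).le (hh l) hz, add_zero,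
    PP_self (C.r0 l) hz (hQ l) (hQ0 l)] at this

lemma Con.tendsto_zero (C : D.Con a w L η₀) (h : D.Bd w P (fun _ _ => 0) η) (l : ι) :
    Tendsto (P l) (cocompact ℂ) (𝓝 0) := by
  have h1 : Tendsto (fun z : ℂ => ‖z - D.c l‖) (cocompact ℂ) atTop := by
    simpa [dist_eq_norm] using tendsto_dist_right_cocompact_atTop (D.c l)
  have h2 : Tendsto (fun z : ℂ => η * (w l * D.r l / (‖z - D.c l‖ - D.r l))) (cocompact ℂ)
      (𝓝 (η * 0)) :=
    ((tendsto_atTop_add_const_right _ (-D.r l) h1).const_div_atTop _).const_mul η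
  rw [mul_zero] at h2
  refine squeeze_zero_norm' ?_ h2
  filter_upwards [h1.eventually_gt_atTop (D.r l)] with z hz
  simpa using h l z hz

theorem Con.Pinf_tendsto (C : D.Con a w L η₀) (l : ι) :
    Tendsto (D.Pinf a l) (cocompact ℂ) (𝓝 0) := C.tendsto_zero C.Pinf_bd l

/-! ### The symmetry `z ↦ -conj z` -/

/-- The data are symmetric under `z ↦ -conj z`. -/
structure Sym (D : Dat ι) (τ : ι ≃ ι) : Prop where
  pr : ∀ k, D.pr (τ k) = τ (D.pr k)
  c : ∀ k, D.c (τ k) = -conj (D.c k)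
  κ : ∀ k, D.κ (τ k) = -conj (D.κ k)
  r : ∀ k, D.r (τ k) = D.r k

lemma Sym.γ {τ : ι ≃ ι} (S : D.Sym τ) (k : ι) (z : ℂ) :
    D.γ (τ k) (-conj z) = -conj (D.γ k z) := by
  simp only [Dat.γ, S.pr, S.c, S.κ, map_sub, map_div₀, map_pow]
  rw [show -conj z - -conj (D.c k) = -(conj z - conj (D.c k)) by ring, div_neg]
  ring

lemma exp_sym (ha : conj a = -a) (z : ℂ) : exp (a * -conj z) = conj (exp (a * z)) := by
  rw [← exp_conj, map_mul, ha]; ring_nf

lemma Sym.T {τ : ι ≃ ι} (S : D.Sym τ) (ha : conj a = -a)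
    (hP : ∀ m z, P (τ m) (-conj z) = conj (P m z)) (l : ι) (ζ : ℂ) :
    D.T a P (τ l) (-conj ζ) = conj (D.T a P l ζ) := by
  have h1 : exp (-(a * -conj ζ)) = conj (exp (-(a * ζ))) := by
    rw [← exp_conj, map_neg, map_mul, ha]; ring_nf
  have h2 : ∀ g, ∑ m, P m (-conj g) = conj (∑ m, P m g) := fun g => by
    rw [← τ.sum_comp fun m => P m _, map_sum]; simp only [hP]
  simp only [Dat.T, S.γ, S.pr, S.c, S.κ, h1, exp_sym ha, hP, h2,
    map_mul, map_sub, map_add, map_one, map_div₀]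
  rw [show -conj ζ - -conj (D.c l) = -(conj ζ - conj (D.c l)) by ring, neg_div_neg_eq]

lemma Sym.iter {τ : ι ≃ ι} (S : D.Sym τ) (ha : conj a = -a) :
    ∀ n m z, D.iter a n (τ m) (-conj z) = conj (D.iter a n m z)
  | 0 => fun _ _ => by simp [Dat.iter]
  | n + 1 => fun m z => by
    simp only [Dat.iter, step, S.c, S.r]
    rw [← PP_conj]
    congr 1
    ext ζ
    rw [← S.T ha (S.iter ha n)]
    simp

lemma Sym.norm {τ : ι ≃ ι} (S : D.Sym τ) (k : ι) (z : ℂ) :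
    ‖-conj z - D.c (τ k)‖ = ‖z - D.c k‖ := by
  rw [S.c, show -conj z - -conj (D.c k) = -conj (z - D.c k) by simp; ring, norm_neg, norm_conj]

theorem Sym.Pinf {τ : ι ≃ ι} (S : D.Sym τ) (ha : conj a = -a) (C : D.Con a w L η₀) {m : ι} {z : ℂ}
    (hz : D.r m < ‖z - D.c m‖) : D.Pinf a (τ m) (-conj z) = conj (D.Pinf a m z) := by
  refine tendsto_nhds_unique (C.tendsto_iter (by rwa [S.r, S.norm])) ?_
  simp only [S.iter ha]
  exact (continuous_conj.tendsto _).comp (C.tendsto_iter hz)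

/-! ### Holomorphic dependence on parameters -/

section par

variable {E : Type*} [NormedAddCommGroup E] [NormedSpace ℂ E] [ProperSpace E] {U : Set E}
  {pr : ι → ι} {c κ : E → ι → ℂ} {r : ι → ℝ}

lemma isOpen_par (hU : IsOpen U) {cc : E → ℂ} (hc : DifferentiableOn ℂ cc U) (t : ℝ) :
    IsOpen {p : E × ℂ | p.1 ∈ U ∧ t < ‖p.2 - cc p.1‖} := by
  have h1 : ContinuousOn (fun p : E × ℂ => ‖p.2 - cc p.1‖) (Prod.fst ⁻¹' U) :=
    (continuousOn_snd.sub (hc.continuousOn.comp continuousOn_fst fun _ h => h)).norm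
  exact h1.isOpen_inter_preimage (hU.preimage continuous_fst) isOpen_Ioi

lemma div_diffAt {E : Type*} [NormedAddCommGroup E] [NormedSpace ℂ E] {f g : E → ℂ} {x : E}
    (hf : DifferentiableAt ℂ f x) (hg : DifferentiableAt ℂ g x) (h : g x ≠ 0) :
    DifferentiableAt ℂ (fun y => f y / g y) x := by
  simp only [div_eq_mul_inv]
  exact hf.mul (hg.inv h)

lemma step_par (hU : IsOpen U) (hc : ∀ l, DifferentiableOn ℂ (fun x => c x l) U)
    (hκ : ∀ l, DifferentiableOn ℂ (fun x => κ x l) U)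
    (C : ∀ x ∈ U, (Dat.mk pr (c x) (κ x) r).Con a w L η₀) {P : E → ι → ℂ → ℂ}
    (hP : ∀ l, DifferentiableOn ℂ (fun p : E × ℂ => P p.1 l p.2)
      {p | p.1 ∈ U ∧ r l < ‖p.2 - c p.1 l‖}) (l : ι) :
    DifferentiableOn ℂ (fun p : E × ℂ => (Dat.mk pr (c p.1) (κ p.1) r).step a (P p.1) l p.2)
      {p | p.1 ∈ U ∧ r l < ‖p.2 - c p.1 l‖} := by
  by_cases hne : U.Nonempty
  swap
  · exact fun p hp => absurd ⟨_, hp.1⟩ hne
  obtain ⟨x₀, hx₀⟩ := hne
  have hr : 0 ≤ r l := ((C x₀ hx₀).r0 l).le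
  refine PP_diff_par (cc := fun x => c x l) (r := r l)
    (Φ := fun x => (Dat.mk pr (c x) (κ x) r).T a (P x) l) hU hr (hc l) fun x hx ζ hζ => ?_
  have h0 : ζ - c x l ≠ 0 := (C x hx).ne hζ
  have hc' : ∀ m, DifferentiableAt ℂ (fun p : E × ℂ => c p.1 m) (x, ζ) := fun m =>
    DifferentiableAt.comp (f := Prod.fst) (g := fun x => c x m) (x, ζ)
      ((hc m).differentiableAt (hU.mem_nhds hx)) differentiableAt_fst
  have hκ' : DifferentiableAt ℂ (fun p : E × ℂ => κ p.1 l) (x, ζ) :=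
    DifferentiableAt.comp (f := Prod.fst) (g := fun x => κ x l) (x, ζ)
      ((hκ l).differentiableAt (hU.mem_nhds hx)) differentiableAt_fst
  have hd : DifferentiableAt ℂ (fun p : E × ℂ => p.2 - c p.1 l) (x, ζ) :=
    differentiableAt_snd.sub (hc' l)
  obtain ⟨g, hg⟩ : ∃ g : E × ℂ → ℂ, g = fun p => c p.1 (pr l) - κ p.1 l ^ 2 / (p.2 - c p.1 l) :=
    ⟨_, rfl⟩
  have hγ : DifferentiableAt ℂ g (x, ζ) := by
    rw [hg]; exact (hc' (pr l)).fun_sub (div_diffAt (hκ'.fun_pow 2) hd h0)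
  have hgV : ∀ m, r m < ‖g (x, ζ) - c x m‖ := fun m => by
    rw [hg]; exact (C x hx).out l ζ hζ m
  have hQ : ∀ m, DifferentiableAt ℂ (fun p : E × ℂ => P p.1 m (g p)) (x, ζ) := fun m =>
    DifferentiableAt.comp (f := fun p : E × ℂ => (p.1, g p)) (g := fun p : E × ℂ => P p.1 m p.2)
      (x, ζ) ((hP m).differentiableAt ((isOpen_par hU (hc m) (r m)).mem_nhds
        (show (x, g (x, ζ)) ∈ {p : E × ℂ | p.1 ∈ U ∧ r m < ‖p.2 - c p.1 m‖} from ⟨hx, hgV m⟩)))
      (differentiableAt_fst.prodMk hγ)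
  have e : (fun p : E × ℂ => (Dat.mk pr (c p.1) (κ p.1) r).T a (P p.1) l p.2) =
      fun p : E × ℂ => κ p.1 l / (p.2 - c p.1 l) * exp (-(a * p.2)) * (exp (a * g p) *
        (1 + ∑ m, P p.1 m (g p)) - exp (a * c p.1 (pr l)) * P p.1 (pr l) (g p)) := by
    rw [hg]; rfl
  rw [e]
  have h1 := div_diffAt hκ' hd h0
  have h2 : DifferentiableAt ℂ (fun p : E × ℂ => ∑ m, P p.1 m (g p)) (x, ζ) :=
    DifferentiableAt.fun_sum fun m _ => hQ m
  have h3 : DifferentiableAt ℂ (fun p : E × ℂ => exp (-(a * p.2))) (x, ζ) := by fun_prop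
  exact (h1.fun_mul h3).fun_mul (((hγ.const_mul a).cexp.fun_mul (h2.const_add 1)).fun_sub
    (((hc' (pr l)).const_mul a).cexp.fun_mul (hQ (pr l))))

lemma iter_par (hU : IsOpen U) (hc : ∀ l, DifferentiableOn ℂ (fun x => c x l) U)
    (hκ : ∀ l, DifferentiableOn ℂ (fun x => κ x l) U)
    (C : ∀ x ∈ U, (Dat.mk pr (c x) (κ x) r).Con a w L η₀) (n : ℕ) : ∀ l,
    DifferentiableOn ℂ (fun p : E × ℂ => (Dat.mk pr (c p.1) (κ p.1) r).iter a n l p.2)
      {p | p.1 ∈ U ∧ r l < ‖p.2 - c p.1 l‖} := by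
  induction n with
  | zero => exact fun _ => differentiableOn_const _
  | succ n ih =>
    exact step_par (P := fun x => (Dat.mk pr (c x) (κ x) r).iter a n) hU hc hκ C ih

theorem Pinf_par (hU : IsOpen U) (hc : ∀ l, DifferentiableOn ℂ (fun x => c x l) U)
    (hκ : ∀ l, DifferentiableOn ℂ (fun x => κ x l) U)
    (C : ∀ x ∈ U, (Dat.mk pr (c x) (κ x) r).Con a w L η₀) (l : ι) {x : E} {z : ℂ} (hx : x ∈ U)
    (hz : r l < ‖z - c x l‖) :
    DifferentiableAt ℂ (fun p : E × ℂ => (Dat.mk pr (c p.1) (κ p.1) r).Pinf a l p.2) (x, z) := by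
  obtain ⟨t, ht, hz'⟩ : ∃ t, 0 < t ∧ r l + t < ‖z - c x l‖ :=
    ⟨(‖z - c x l‖ - r l) / 2, by linarith, by linarith⟩
  have hO := isOpen_par hU (hc l) (r l + t)
  refine (H45Par.differentiableOn_of_tendstoUniformlyOn
    (F := fun n (p : E × ℂ) => (Dat.mk pr (c p.1) (κ p.1) r).iter a n l p.2) hO
    (fun n => (iter_par hU hc hκ C n l).mono fun p hp =>
      ⟨hp.1, (lt_add_of_pos_right _ ht).trans hp.2⟩)
    (unif_of_geom (K := η₀ / (1 - L) * (w l * r l / t)) (C x hx).L0 (C x hx).L1 fun n p hp => ?_)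
    ).differentiableAt (hO.mem_nhds ⟨hx, hz'⟩)
  have C' := C p.1 hp.1
  exact (C'.bd_far (C'.iter_Pinf n) (mul_nonneg C'.k0 (pow_nonneg C'.L0 n)) ht hp.2.le).trans_eq
    (by ring)

end par

end Dat

end Pool.Agent.MP_c434f6_gt.H30

end

section

/-! Automorphy of the spinors, by Liouville's theorem. -/

open Set Filter Topology Metric Complex
open scoped Real ComplexConjugate

set_option linter.unusedSectionVars false

namespace Pool.Agent.MP_c434f6_gt.H30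

lemma PP_zero_of_bdd {c z : ℂ} {r B : ℝ} {u : ℂ → ℂ} (hr : 0 < r) (hz : r < ‖z - c‖)
    (hd : ∀ ζ, 0 < ‖ζ - c‖ → ‖ζ - c‖ ≤ r → DifferentiableAt ℂ u ζ)
    (hB : ∀ ζ, 0 < ‖ζ - c‖ → ‖ζ - c‖ ≤ r → ‖u ζ‖ ≤ B) : PP c r u z = 0 := by
  have key : ∀ t, 0 < t → t ≤ r → ‖PP c r u z‖ ≤ B * t / (‖z - c‖ - t) := by
    intro t ht htr
    have hd' : ∀ ζ, t ≤ ‖ζ - c‖ → ‖ζ - c‖ ≤ r → DifferentiableAt ℂ (fun ζ => u ζ / (z - ζ)) ζ :=
      fun ζ h1 h2 => (hd ζ (ht.trans_le h1) h2).div (by fun_prop) fun h0 => by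
        rw [← sub_eq_zero.1 h0] at h2; linarith
    have : PP c r u z = PP c t u z := by
      unfold PP
      rw [circleIntegral_eq_of_differentiable_on_annulus_off_countable ht htr countable_empty
        (fun ζ hζ => ?_) fun ζ hζ => ?_]
      · exact (hd' ζ (by simpa [dist_eq_norm] using hζ.2)
          (by simpa [dist_eq_norm] using hζ.1)).continuousAt.continuousWithinAt
      · exact hd' ζ (le_of_lt (by simpa [dist_eq_norm] using hζ.1.2))
          (le_of_lt (by simpa [dist_eq_norm] using hζ.1.1))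
    rw [this]
    refine PP_bound ht.le (fun ζ hζ => ?_) (htr.trans_lt hz)
    rw [mem_sphere, dist_eq_norm] at hζ
    exact hB ζ (hζ ▸ ht) (hζ ▸ htr)
  have h1 : ContinuousAt (fun t : ℝ => B * t / (‖z - c‖ - t)) 0 :=
    ContinuousAt.div (by fun_prop) (by fun_prop) (by simpa using (hr.trans hz).ne')
  have h2 : Tendsto (fun t : ℝ => B * t / (‖z - c‖ - t)) (𝓝[>] 0) (𝓝 0) := by
    simpa using h1.tendsto.mono_left nhdsWithin_le_nhds
  rw [← norm_le_zero_iff]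
  refine ge_of_tendsto h2 ?_
  filter_upwards [Ioc_mem_nhdsGT hr] with t ht using key t ht.1 ht.2

lemma liouville_glue {c : ℂ} {t ρ : ℝ} {A B : ℂ → ℂ} (h : t < ρ)
    (hA : ∀ z, ‖z - c‖ < ρ → DifferentiableAt ℂ A z)
    (hB : ∀ z, t < ‖z - c‖ → DifferentiableAt ℂ B z)
    (hAB : ∀ z, t < ‖z - c‖ → ‖z - c‖ < ρ → A z = B z) (h0 : Tendsto B (cocompact ℂ) (𝓝 0))
    {z : ℂ} (hz : ‖z - c‖ < ρ) : A z = 0 := by
  classical
  set Ψ : ℂ → ℂ := fun z => if ‖z - c‖ < ρ then A z else B z with hΨ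
  have e : ∀ z, t < ‖z - c‖ → Ψ z = B z := fun z hz => by
    simp only [hΨ]
    split_ifs with h1
    exacts [hAB z hz h1, rfl]
  have hc : Continuous fun z : ℂ => ‖z - c‖ := by fun_prop
  have hd : Differentiable ℂ Ψ := fun z => by
    by_cases h1 : ‖z - c‖ < ρ
    · refine (hA z h1).congr_of_eventuallyEq ?_
      filter_upwards [(isOpen_lt hc continuous_const).mem_nhds h1] with y hy using if_pos hy
    · have h2 : t < ‖z - c‖ := h.trans_le (not_lt.1 h1)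
      refine (hB z h2).congr_of_eventuallyEq ?_
      filter_upwards [(isOpen_lt continuous_const hc).mem_nhds h2] with y hy using e y hy
  have h1 : Tendsto (fun z : ℂ => ‖z - c‖) (cocompact ℂ) atTop := by
    simpa [dist_eq_norm] using tendsto_dist_right_cocompact_atTop c
  have := hd.apply_eq_of_tendsto_cocompact z (h0.congr' (by
    filter_upwards [h1.eventually_gt_atTop t] with y hy using (e y hy).symm))
  simpa [hΨ, hz] using this

namespace Dat

variable {ι : Type} [Fintype ι] [DecidableEq ι] (D : Dat ι)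

/-- outer radius of the annulus about `c l` -/
noncomputable def R (l : ι) : ℝ := ‖D.κ l‖ ^ 2 / D.r (D.pr l)

noncomputable def f (a z : ℂ) : ℂ := 1 + ∑ m, D.Pinf a m z

/-- the spinor -/
noncomputable def s (a z : ℂ) : ℂ := exp (a * z) * D.f a z

/-- Geometry of the discs. -/
structure Geo : Prop where
  prpr : ∀ k, D.pr (D.pr k) = k
  κpr : ∀ k, D.κ (D.pr k) = -D.κ k
  r0 : ∀ k, 0 < D.r k
  rκ : ∀ k, D.r k < ‖D.κ k‖
  sep : ∀ l m, m ≠ l → D.R l + D.r m < ‖D.c l - D.c m‖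

variable {D} {a : ℂ} {w : ι → ℝ} {L η₀ : ℝ}

lemma Geo.κ0 (G : D.Geo) (k : ι) : D.κ k ≠ 0 := norm_pos_iff.1 ((G.r0 k).trans (G.rκ k))

lemma Geo.nκ (G : D.Geo) (k : ι) : ‖D.κ (D.pr k)‖ = ‖D.κ k‖ := by rw [G.κpr, norm_neg]

lemma Geo.R_pr (G : D.Geo) (k : ι) : D.R (D.pr k) = ‖D.κ k‖ ^ 2 / D.r k := by
  rw [R, G.nκ, G.prpr]

lemma Geo.κR (G : D.Geo) (k : ι) : ‖D.κ k‖ < D.R k := by
  have h1 := G.rκ (D.pr k)
  rw [G.nκ] at h1
  rw [R, lt_div_iff₀ (G.r0 _), sq]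
  exact mul_lt_mul_of_pos_left h1 (norm_pos_iff.2 (G.κ0 k))

lemma norm_γ (k : ι) (z : ℂ) : ‖D.γ k z - D.c (D.pr k)‖ = ‖D.κ k‖ ^ 2 / ‖z - D.c k‖ := by
  simp [γ]

lemma Geo.far (G : D.Geo) {l m : ι} (h : m ≠ l) {z : ℂ} (hz : ‖z - D.c l‖ ≤ D.R l) :
    D.r m < ‖z - D.c m‖ := by
  have h1 := G.sep l m h
  have h2 : ‖D.c l - D.c m‖ ≤ ‖z - D.c l‖ + ‖z - D.c m‖ := by
    rw [norm_sub_rev z]; exact norm_sub_le_norm_sub_add_norm_sub _ _ _
  linarith

lemma Geo.mem_V (G : D.Geo) {l : ι} {z : ℂ} (h1 : D.r l < ‖z - D.c l‖)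
    (h2 : ‖z - D.c l‖ ≤ D.R l) : z ∈ D.V := fun m => by
  rcases eq_or_ne m l with rfl | h
  exacts [h1, G.far h h2]

lemma Geo.γ_out (G : D.Geo) {l : ι} {z : ℂ} (h1 : 0 < ‖z - D.c l‖) (h2 : ‖z - D.c l‖ < D.R l) :
    D.r (D.pr l) < ‖D.γ l z - D.c (D.pr l)‖ := by
  rw [norm_γ, lt_div_iff₀ h1]
  rwa [R, lt_div_iff₀ (G.r0 _), mul_comm] at h2

lemma Geo.γ_in (G : D.Geo) {l : ι} {z : ℂ} (h1 : D.r l ≤ ‖z - D.c l‖) :
    ‖D.γ l z - D.c (D.pr l)‖ ≤ D.R (D.pr l) := by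
  rw [norm_γ, G.R_pr]
  exact div_le_div_of_nonneg_left (by positivity) (G.r0 l) h1

lemma Geo.γ_mem_V (G : D.Geo) {l : ι} {z : ℂ} (h1 : D.r l ≤ ‖z - D.c l‖)
    (h2 : ‖z - D.c l‖ < D.R l) : D.γ l z ∈ D.V :=
  G.mem_V (G.γ_out ((G.r0 l).trans_le h1) h2) (G.γ_in h1)

/-- the hypothesis `out` of `Con` -/
lemma Geo.out (G : D.Geo) (l : ι) : ∀ ζ ∈ sphere (D.c l) (D.r l), D.γ l ζ ∈ D.V := fun ζ hζ => by
  rw [mem_sphere, dist_eq_norm] at hζ
  exact G.γ_mem_V hζ.ge (hζ ▸ (G.rκ l).trans (G.κR l))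

lemma Geo.γγ (G : D.Geo) {l : ι} {z : ℂ} (h : z - D.c l ≠ 0) : D.γ (D.pr l) (D.γ l z) = z := by
  have := G.κ0 l
  simp only [γ, G.prpr, G.κpr, sub_sub_cancel_left]
  field_simp
  ring

lemma Con.f_diffAt (C : D.Con a w L η₀) {z : ℂ} (hz : z ∈ D.V) : DifferentiableAt ℂ (D.f a) z :=
  (DifferentiableAt.fun_sum fun m _ => C.Pinf_hol m z (hz m)).const_add 1

theorem Con.s_diffAt (C : D.Con a w L η₀) {z : ℂ} (hz : z ∈ D.V) :
    DifferentiableAt ℂ (D.s a) z :=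
  DifferentiableAt.fun_mul (by fun_prop) (C.f_diffAt hz)

theorem Con.f_tendsto (C : D.Con a w L η₀) : Tendsto (D.f a) (cocompact ℂ) (𝓝 1) := by
  have := (tendsto_finsetSum Finset.univ fun m _ => C.Pinf_tendsto m).const_add 1
  rw [Finset.sum_const_zero, add_zero] at this
  exact this

variable (D) in
/-- the full transfer operator applied to the fixed point -/
noncomputable def Tf (a : ℂ) (l : ι) (ζ : ℂ) : ℂ :=
  D.κ l / (ζ - D.c l) * exp (-(a * ζ)) * D.s a (D.γ l ζ)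

lemma Con.Tf_diffAt (C : D.Con a w L η₀) (G : D.Geo) {l : ι} {z : ℂ} (h1 : D.r l ≤ ‖z - D.c l‖)
    (h2 : ‖z - D.c l‖ < D.R l) : DifferentiableAt ℂ (D.Tf a l) z := by
  have h0 : z - D.c l ≠ 0 := norm_pos_iff.1 ((G.r0 l).trans_le h1)
  have h5 : DifferentiableAt ℂ (fun ζ => D.κ l / (ζ - D.c l) * exp (-(a * ζ))) z := by
    fun_prop (disch := assumption)
  exact h5.fun_mul ((C.s_diffAt (G.γ_mem_V h1 h2)).comp z (γ_diffAt h0))

lemma Con.PP_Tf (C : D.Con a w L η₀) (G : D.Geo) {l : ι} {z : ℂ} (hz : D.r l < ‖z - D.c l‖) :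
    PP (D.c l) (D.r l) (D.Tf a l) z = D.Pinf a l z := by
  set u : ℂ → ℂ := fun ζ => D.κ l / (ζ - D.c l) * exp (-(a * ζ)) *
    (exp (a * D.c (D.pr l)) * D.Pinf a (D.pr l) (D.γ l ζ)) with hu
  have hrR : D.r l < D.R l := (G.rκ l).trans (G.κR l)
  have hd : ∀ ζ, 0 < ‖ζ - D.c l‖ → ‖ζ - D.c l‖ ≤ D.r l → DifferentiableAt ℂ u ζ := by
    intro ζ h1 h2
    have h0 : ζ - D.c l ≠ 0 := norm_pos_iff.1 h1
    have h5 : DifferentiableAt ℂ (fun ζ => D.κ l / (ζ - D.c l) * exp (-(a * ζ))) ζ := by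
      fun_prop (disch := assumption)
    exact h5.fun_mul (((C.Pinf_hol _ _ (G.γ_out h1 (h2.trans_lt hrR))).comp ζ
      (γ_diffAt h0)).const_mul _)
  have e : D.Tf a l = fun ζ => D.T a (D.Pinf a) l ζ + u ζ := by
    ext ζ; simp only [Tf, T, hu, s, f]; ring
  have hr' := G.r0 (D.pr l)
  have hK : 0 < ‖D.κ l‖ ^ 2 - D.r (D.pr l) * D.r l := by
    rw [R, lt_div_iff₀ hr'] at hrR; linarith
  obtain ⟨B, hB⟩ := (isCompact_closedBall (D.c l) (D.r l)).exists_bound_of_continuousOn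
    (f := fun ζ => exp (-(a * ζ))) (by fun_prop)
  rw [e, PP_add (G.r0 l).le (C.T_cont C.Pinf_hol l) (fun ζ hζ => ?_) hz.ne',
    PP_zero_of_bdd (G.r0 l) hz hd (B := ‖D.κ l‖ * B * ‖exp (a * D.c (D.pr l))‖ * (η₀ / (1 - L)) *
      (w (D.pr l) * D.r (D.pr l) / (‖D.κ l‖ ^ 2 - D.r (D.pr l) * D.r l))) fun ζ h1 h2 => ?_,
    add_zero]
  · exact C.step_Pinf hz
  · have h3 := C.Pinf_bd _ _ (G.γ_out h1 (h2.trans_lt hrR))
    rw [sub_zero, norm_γ] at h3
    have h4 := hB ζ (by rwa [mem_closedBall, dist_eq_norm])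
    have hB0 := (norm_nonneg _).trans h4
    have h5 : 0 < ‖D.κ l‖ ^ 2 - D.r (D.pr l) * ‖ζ - D.c l‖ := by nlinarith
    have hw := C.w0 (D.pr l)
    have hk := C.k0
    have h6 : w (D.pr l) * D.r (D.pr l) / (‖D.κ l‖ ^ 2 / ‖ζ - D.c l‖ - D.r (D.pr l)) =
        ‖ζ - D.c l‖ * (w (D.pr l) * D.r (D.pr l) / (‖D.κ l‖ ^ 2 - D.r (D.pr l) * ‖ζ - D.c l‖)) := by
      field_simp
    have h7 : w (D.pr l) * D.r (D.pr l) / (‖D.κ l‖ ^ 2 - D.r (D.pr l) * ‖ζ - D.c l‖) ≤
        w (D.pr l) * D.r (D.pr l) / (‖D.κ l‖ ^ 2 - D.r (D.pr l) * D.r l) := by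
      gcongr
    simp only [hu, norm_mul, norm_div]
    calc ‖D.κ l‖ / ‖ζ - D.c l‖ * ‖exp (-(a * ζ))‖ *
          (‖exp (a * D.c (D.pr l))‖ * ‖D.Pinf a (D.pr l) (D.γ l ζ)‖)
        ≤ ‖D.κ l‖ / ‖ζ - D.c l‖ * B * (‖exp (a * D.c (D.pr l))‖ * (η₀ / (1 - L) * (‖ζ - D.c l‖ *
          (w (D.pr l) * D.r (D.pr l) / (‖D.κ l‖ ^ 2 - D.r (D.pr l) * D.r l))))) := by
          gcongr
          refine h3.trans ?_
          rw [h6]
          gcongr
      _ = _ := by field_simp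
  · rw [mem_sphere, dist_eq_norm] at hζ
    exact (hd ζ (hζ ▸ G.r0 l) hζ.le).continuousAt.continuousWithinAt

variable (D) in
/-- the holomorphic extension of the defect of automorphy into the disc -/
noncomputable def hx (a : ℂ) (l : ι) (ρ : ℝ) (ζ : ℂ) : ℂ := exp (a * ζ) *
  (1 + ∑ m ∈ Finset.univ.erase l, D.Pinf a m ζ - RP (D.c l) ρ (D.Tf a l) ζ)

lemma Con.hx_diffAt (C : D.Con a w L η₀) (G : D.Geo) {l : ι} {ρ : ℝ} (h1 : D.r l ≤ ρ)
    (h2 : ρ < D.R l) {z : ℂ} (hz : ‖z - D.c l‖ < ρ) : DifferentiableAt ℂ (D.hx a l ρ) z := by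
  refine DifferentiableAt.fun_mul (by fun_prop) (DifferentiableAt.fun_sub
    ((DifferentiableAt.fun_sum fun m hm => C.Pinf_hol m z
      (G.far (Finset.ne_of_mem_erase hm) (hz.trans h2).le)).const_add 1)
    (RP_diffAt ((G.r0 l).le.trans h1) (fun ζ hζ => ?_) hz.ne))
  rw [mem_sphere, dist_eq_norm] at hζ
  exact (C.Tf_diffAt G (hζ ▸ h1) (hζ ▸ h2)).continuousAt.continuousWithinAt

lemma Con.hx_eq (C : D.Con a w L η₀) (G : D.Geo) {l : ι} {ρ : ℝ} (h2 : ρ < D.R l) {z : ℂ}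
    (hz : D.r l < ‖z - D.c l‖) (hz' : ‖z - D.c l‖ < ρ) :
    D.hx a l ρ z = D.s a z - D.κ l / (z - D.c l) * D.s a (D.γ l z) := by
  have h1 := annulus (G.r0 l) hz hz' fun ζ h3 h4 => C.Tf_diffAt G h3 (h4.trans_lt h2)
  rw [C.PP_Tf G hz] at h1
  have h3 : exp (a * z) * exp (-(a * z)) = 1 := by rw [← exp_add]; simp
  have h4 : D.s a z = exp (a * z) *
      (1 + (D.Pinf a l z + ∑ m ∈ Finset.univ.erase l, D.Pinf a m z)) := by
    rw [Finset.add_sum_erase _ (fun m => D.Pinf a m z) (Finset.mem_univ l)]; rfl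
  rw [h4, hx, show RP (D.c l) ρ (D.Tf a l) z = D.Tf a l z - D.Pinf a l z by rw [h1]; ring, Tf]
  linear_combination (-(D.κ l / (z - D.c l) * D.s a (D.γ l z))) * h3

/-- **Automorphy.** -/
theorem Con.aut (C : D.Con a w L η₀) (G : D.Geo) {l : ι} {z : ℂ} (hz : D.r l < ‖z - D.c l‖)
    (hz' : ‖z - D.c l‖ < D.R l) : D.s a z = D.κ l / (z - D.c l) * D.s a (D.γ l z) := by
  have hz0 := (G.r0 l).trans hz
  have hκ : 0 < ‖D.κ l‖ ^ 2 := pow_pos (norm_pos_iff.2 (G.κ0 l)) 2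
  obtain ⟨ρ, hρ1, hρ2⟩ := exists_between hz'
  obtain ⟨ρ', hρ3, hρ4⟩ : ∃ ρ', ‖D.κ l‖ ^ 2 / ‖z - D.c l‖ < ρ' ∧ ρ' < D.R (D.pr l) :=
    exists_between (by rw [G.R_pr]; exact div_lt_div_of_pos_left hκ (G.r0 l) hz)
  have hρ0 : 0 < ρ' := (div_pos hκ hz0).trans hρ3
  have ht : ‖D.κ l‖ ^ 2 / ρ' < ‖z - D.c l‖ := by
    rw [div_lt_iff₀ hρ0, mul_comm]; rwa [div_lt_iff₀ hz0] at hρ3
  have ht0 : D.r l < ‖D.κ l‖ ^ 2 / ρ' := by
    rw [G.R_pr, lt_div_iff₀ (G.r0 l)] at hρ4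
    rwa [lt_div_iff₀ hρ0, mul_comm]
  have hr' : D.r (D.pr l) ≤ ρ' := by
    have := G.γ_out hz0 hz'
    rw [norm_γ] at this
    linarith
  have hin : ∀ y, ‖D.κ l‖ ^ 2 / ρ' < ‖y - D.c l‖ → ‖D.γ l y - D.c (D.pr l)‖ < ρ' := fun y hy => by
    rw [norm_γ, div_lt_iff₀ (((G.r0 l).trans ht0).trans hy), mul_comm]
    rwa [div_lt_iff₀ hρ0] at hy
  rw [← sub_eq_zero, ← C.hx_eq G hρ2 hz hρ1]
  refine liouville_glue (c := D.c l) (ht.trans hρ1)
    (B := fun y => -(D.κ l / (y - D.c l)) * D.hx a (D.pr l) ρ' (D.γ l y))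
    (fun y hy => C.hx_diffAt G (hz.trans hρ1).le hρ2 hy) (fun y hy => ?_) (fun y hy hy' => ?_) ?_ hρ1
  · have h0 : y - D.c l ≠ 0 := norm_pos_iff.1 (((G.r0 l).trans ht0).trans hy)
    exact DifferentiableAt.fun_mul (by fun_prop (disch := assumption))
      ((C.hx_diffAt G hr' hρ4 (hin y hy)).comp y (γ_diffAt h0))
  · have hy0 := ((G.r0 l).trans ht0).trans hy
    have h0 : y - D.c l ≠ 0 := norm_pos_iff.1 hy0
    have h1 := G.κ0 l
    rw [C.hx_eq G hρ2 (ht0.trans hy) hy',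
      C.hx_eq G hρ4 (G.γ_out hy0 (hy'.trans hρ2)) (hin y hy), G.γγ h0, G.κpr,
      show D.γ l y - D.c (D.pr l) = -(D.κ l ^ 2 / (y - D.c l)) by simp [γ]]
    field_simp
    ring
  · have h1 : Tendsto (fun y : ℂ => (y - D.c l)⁻¹) (cocompact ℂ) (𝓝 0) := by
      refine tendsto_inv₀_cobounded.comp ?_
      rw [← tendsto_norm_atTop_iff_cobounded]
      simpa [dist_eq_norm] using tendsto_dist_right_cocompact_atTop (D.c l)
    have h2 : Tendsto (D.γ l) (cocompact ℂ) (𝓝 (D.c (D.pr l))) := by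
      have := (h1.const_mul (D.κ l ^ 2)).const_sub (D.c (D.pr l))
      rw [mul_zero, sub_zero] at this
      exact this
    have h3 := (C.hx_diffAt G hr' hρ4 (z := D.c (D.pr l)) (by simpa using hρ0)
      ).continuousAt.tendsto.comp h2
    have := (h1.const_mul (D.κ l)).neg.mul h3
    simpa [div_eq_mul_inv] using this

theorem Sym.s {τ : ι ≃ ι} (S : D.Sym τ) (ha : conj a = -a) (C : D.Con a w L η₀) {z : ℂ}
    (hz : z ∈ D.V) : D.s a (-conj z) = conj (D.s a z) := by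
  simp only [Dat.s, f, exp_sym ha, map_mul, map_add, map_one, map_sum]
  rw [← τ.sum_comp fun m => D.Pinf a m _]
  simp only [fun m => S.Pinf ha C (hz m)]

end Dat

end Pool.Agent.MP_c434f6_gt.H30

end
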