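import Mathlib
import Pool.Agent.MP_c434f6_gt.G4.Spin
import Pool.Agent.MP_c434f6_gt.G4.Sch

section

/-! The entire exponential integral. -/

open Set Filter Topology Metric Complex
open scoped Nat ComplexConjugate

namespace Pool.Agent.MP_c434f6_gt.H30

/-- `Ein t = ∑ t^i / (i i!)`, `i ≥ 1`. -/
noncomputable def Ein (t : ℂ) : ℂ := ∑' i : ℕ, t ^ (i + 1) / ((i + 1) * (i + 1)!)

/-- `(exp t - 1) / t` -/
noncomputable def Ein' (t : ℂ) : ℂ := deriv Ein t

lemma norm_Ein_term (t : ℂ) (i : ℕ) :
    ‖t ^ (i + 1) / ((i + 1) * (i + 1)! : ℂ)‖ = ‖t‖ ^ (i + 1) / ((i + 1) * (i + 1)!) := by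
  rw [norm_div, norm_pow, norm_mul, Complex.norm_natCast]
  norm_cast

lemma Ein_term_le {t : ℂ} {R : ℝ} (h : ‖t‖ ≤ R) (i : ℕ) :
    ‖t ^ (i + 1) / ((i + 1) * (i + 1)! : ℂ)‖ ≤ R ^ (i + 1) / (i + 1)! := by
  rw [norm_Ein_term]
  have h0 : 0 ≤ R := (norm_nonneg t).trans h
  have h1 : (0 : ℝ) < (i + 1)! := by positivity
  refine div_le_div₀ (by positivity) (by gcongr) h1 ?_
  have : (0 : ℝ) ≤ i := by positivity
  nlinarith

lemma summable_fact (R : ℝ) : Summable fun i : ℕ => R ^ (i + 1) / (i + 1)! :=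
  (summable_nat_add_iff 1).2 (Real.summable_pow_div_factorial R)

lemma summable_Ein (t : ℂ) : Summable fun i : ℕ => t ^ (i + 1) / ((i + 1) * (i + 1)! : ℂ) :=
  .of_norm_bounded (summable_fact ‖t‖) (Ein_term_le le_rfl)

lemma differentiable_Ein : Differentiable ℂ Ein := fun t =>
  (differentiableOn_tsum_of_summable_norm (U := ball 0 (‖t‖ + 1)) (summable_fact (‖t‖ + 1))
    (fun i => by fun_prop) isOpen_ball fun i w hw => Ein_term_le (mem_ball_zero_iff.1 hw).le i
    ).differentiableAt (isOpen_ball.mem_nhds (by simp))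

lemma hasDerivAt_Ein (t : ℂ) : HasDerivAt Ein (Ein' t) t := (differentiable_Ein t).hasDerivAt

lemma continuous_Ein : Continuous Ein := differentiable_Ein.continuous

lemma hasSum_Ein' (t : ℂ) : HasSum (fun i : ℕ => t ^ i / (i + 1)!) (Ein' t) := by
  have := hasSum_deriv_of_summable_norm (U := ball 0 (‖t‖ + 1)) (z := t)
    (F := fun (i : ℕ) (t : ℂ) => t ^ (i + 1) / ((i + 1) * (i + 1)! : ℂ)) (summable_fact (‖t‖ + 1))
    (fun i => by fun_prop) isOpen_ball (fun i w hw => Ein_term_le (mem_ball_zero_iff.1 hw).le i)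
    (by simp)
  have e : ∀ i : ℕ, deriv (fun t : ℂ => t ^ (i + 1) / ((i + 1) * (i + 1)! : ℂ)) t =
      t ^ i / (i + 1)! := fun i => by
    rw [((hasDerivAt_pow (i + 1) t).div_const _).deriv]
    have h1 : ((i : ℂ) + 1) ≠ 0 := by exact_mod_cast i.succ_ne_zero
    have h2 : ((i + 1)! : ℂ) ≠ 0 := by exact_mod_cast (i + 1).factorial_ne_zero
    push_cast
    field_simp
  simp only [e] at this
  exact this

lemma mul_Ein' (t : ℂ) : t * Ein' t = exp t - 1 := by
  have h1 : HasSum (fun n : ℕ => t ^ n / n !) (exp t) := by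
    rw [Complex.exp_eq_exp_ℂ]; exact NormedSpace.expSeries_div_hasSum_exp t
  have h2 := (hasSum_nat_add_iff' 1).2 h1
  simp only [Finset.range_one, Finset.sum_singleton, pow_zero, Nat.factorial_zero, Nat.cast_one,
    div_one] at h2
  refine ((hasSum_Ein' t).mul_left t).unique ?_
  simpa only [pow_succ', mul_div_assoc] using h2

@[simp] lemma Ein_zero : Ein 0 = 0 := by simp [Ein]

lemma Ein_conj (t : ℂ) : Ein (conj t) = conj (Ein t) := by
  simp [Ein, Complex.conj_tsum]

/-- Tail of the series. -/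
lemma Ein_tail {t : ℂ} {n : ℕ} (h : 2 * ‖t‖ ≤ n + 2) :
    ‖Ein t - ∑ i ∈ Finset.range n, t ^ (i + 1) / ((i + 1) * (i + 1)! : ℂ)‖ ≤
      2 * (‖t‖ ^ (n + 1) / ((n + 1) * (n + 1)!)) := by
  have e : Ein t - ∑ i ∈ Finset.range n, t ^ (i + 1) / ((i + 1) * (i + 1)! : ℂ) =
      ∑' i : ℕ, t ^ (i + n + 1) / (((i + n : ℕ) + 1) * (i + n + 1)! : ℂ) := by
    rw [Ein, ← (summable_Ein t).sum_add_tsum_nat_add n]; ring
  have hb : ∀ i : ℕ, ‖t ^ (i + n + 1) / (((i + n : ℕ) + 1) * (i + n + 1)! : ℂ)‖ ≤
      ‖t‖ ^ (n + 1) / ((n + 1) * (n + 1)!) * (1 / 2) ^ i := by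
    intro i
    rw [norm_Ein_term]
    induction i with
    | zero => simp
    | succ i ih =>
      have h1 : (0 : ℝ) < (i + n + 1)! := by positivity
      have h2 : (0 : ℝ) ≤ i := by positivity
      have h3 : (0 : ℝ) ≤ n := by positivity
      rw [pow_succ (1 / 2 : ℝ), ← mul_assoc]
      refine le_trans ?_ (mul_le_mul_of_nonneg_right ih (by norm_num))
      rw [show i + 1 + n + 1 = (i + n + 1) + 1 by ring, Nat.factorial_succ (i + n + 1), pow_succ,
        div_mul_eq_mul_div, div_le_div_iff₀ (by positivity) (by positivity)]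
      push_cast
      have h4 : ‖t‖ * (i + n + 1) ≤ 1 / 2 * ((i + 1 + n + 1) * (i + n + 1 + 1)) := by
        nlinarith [norm_nonneg t]
      have h5 : 0 ≤ ‖t‖ ^ (i + n + 1) * (i + n + 1)! := by positivity
      nlinarith [mul_le_mul_of_nonneg_left h4 h5]
  rw [e]
  refine (tsum_of_norm_bounded (hasSum_geometric_two.mul_left _) hb).trans_eq ?_
  ring

lemma norm_exp_sub_one_le (t : ℂ) : ‖exp t - 1‖ ≤ ‖t‖ * max 1 (Real.exp t.re) := by
  have hd : ∀ s : ℝ, HasDerivAt (fun s : ℝ => exp (s * t)) (exp (s * t) * t) s := fun s => by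
    simpa using ((hasDerivAt_id (s : ℂ)).mul_const t).cexp.comp_ofReal
  have := norm_image_sub_le_of_norm_deriv_le_segment_01' (f := fun s : ℝ => exp (s * t))
    (C := ‖t‖ * max 1 (Real.exp t.re)) (fun s _ => (hd s).hasDerivWithinAt) fun s hs => by
      rw [norm_mul, mul_comm, norm_exp, re_ofReal_mul]
      gcongr
      rcases le_total t.re 0 with h | h
      · exact le_max_of_le_left (Real.exp_le_one_iff.2 (mul_nonpos_of_nonneg_of_nonpos hs.1 h))
      · exact le_max_of_le_right (Real.exp_le_exp.2 (by nlinarith [hs.2]))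
  simpa using this

lemma norm_Ein'_le (t : ℂ) : ‖Ein' t‖ ≤ max 1 (Real.exp t.re) := by
  rcases eq_or_ne t 0 with rfl | h
  · have := (hasSum_Ein' 0).unique (hasSum_single 0 fun i hi => by simp [hi])
    simp [this]
  · have := norm_exp_sub_one_le t
    rw [← mul_Ein', norm_mul] at this
    exact le_of_mul_le_mul_left this (norm_pos_iff.2 h)

lemma norm_Ein_le (t : ℂ) : ‖Ein t‖ ≤ ‖t‖ * max 1 (Real.exp t.re) := by
  have hd : ∀ s : ℝ, HasDerivAt (fun s : ℝ => Ein (s * t)) (Ein' (s * t) * t) s := fun s => by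
    simpa using ((hasDerivAt_Ein _).comp (s : ℂ) ((hasDerivAt_id (s : ℂ)).mul_const t)).comp_ofReal
  have := norm_image_sub_le_of_norm_deriv_le_segment_01' (f := fun s : ℝ => Ein (s * t))
    (C := ‖t‖ * max 1 (Real.exp t.re)) (fun s _ => (hd s).hasDerivWithinAt) fun s hs => by
      rw [norm_mul, mul_comm]
      gcongr
      refine (norm_Ein'_le _).trans (max_le (le_max_left _ _) ?_)
      rw [re_ofReal_mul]
      rcases le_total t.re 0 with h | h
      · exact le_max_of_le_left (Real.exp_le_one_iff.2 (mul_nonpos_of_nonneg_of_nonpos hs.1 h))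
      · exact le_max_of_le_right (Real.exp_le_exp.2 (by nlinarith [hs.2]))
  simpa using this

end Pool.Agent.MP_c434f6_gt.H30

end

section

/-! Primitives of `exp (b z) G z` outside discs. -/

open Set Filter Topology Metric Complex MeasureTheory
open scoped Real ComplexConjugate Nat

namespace Pool.Agent.MP_c434f6_gt.H30

/-- A primitive in `z` of `exp (b z) / (z - ζ) - exp (b ζ) / (z - c)`. -/
noncomputable def J (b c z ζ : ℂ) : ℂ :=
  exp (b * ζ) * (Ein (b * (z - ζ)) + log (1 - (ζ - c) / (z - c)))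

noncomputable def Ap (b c : ℂ) (t : ℝ) (G : ℂ → ℂ) (z : ℂ) : ℂ :=
  (2 * π * I : ℂ)⁻¹ * ∮ ζ in C(c, t), G ζ * J b c z ζ

noncomputable def res (b c : ℂ) (t : ℝ) (G : ℂ → ℂ) : ℂ :=
  (2 * π * I : ℂ)⁻¹ * ∮ ζ in C(c, t), exp (b * ζ) * G ζ

variable {b c z ζ : ℂ} {t B : ℝ} {G G' : ℂ → ℂ}

lemma slit_J (h : ‖ζ - c‖ < ‖z - c‖) : 1 - (ζ - c) / (z - c) ∈ slitPlane := by
  rw [sub_eq_add_neg]
  refine mem_slitPlane_of_norm_lt_one ?_
  rwa [norm_neg, norm_div, div_lt_one ((norm_nonneg _).trans_lt h)]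

lemma ne_J (h : ‖ζ - c‖ < ‖z - c‖) : z - c ≠ 0 ∧ z - ζ ≠ 0 :=
  ⟨norm_pos_iff.1 ((norm_nonneg _).trans_lt h), fun h0 => by
    rw [sub_eq_zero.1 h0] at h; exact lt_irrefl _ h⟩

lemma J_diffAt {E : Type*} [NormedAddCommGroup E] [NormedSpace ℂ E] {cc zz ζζ : E → ℂ} {x : E}
    (hc : DifferentiableAt ℂ cc x) (hz : DifferentiableAt ℂ zz x) (hζ : DifferentiableAt ℂ ζζ x)
    (h : ‖ζζ x - cc x‖ < ‖zz x - cc x‖) :
    DifferentiableAt ℂ (fun y => J b (cc y) (zz y) (ζζ y)) x :=
  (hζ.const_mul b).cexp.fun_mul (((differentiable_Ein _).comp x ((hz.fun_sub hζ).const_mul b)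
    ).fun_add (((Dat.div_diffAt (hζ.fun_sub hc) (hz.fun_sub hc) (ne_J h).1).const_sub 1).clog
      (slit_J h)))

lemma J_deriv_z (h : ‖ζ - c‖ < ‖z - c‖) :
    HasDerivAt (fun z => J b c z ζ) (exp (b * z) / (z - ζ) - exp (b * ζ) / (z - c)) z := by
  obtain ⟨h1, h2⟩ := ne_J h
  have d1 := (hasDerivAt_Ein (b * (z - ζ))).comp z (((hasDerivAt_id z).sub_const ζ).const_mul b)
  have d2 := (((hasDerivAt_const z (ζ - c)).fun_div ((hasDerivAt_id z).sub_const c) h1
    ).const_sub 1).clog (slit_J h)
  have h3 := mul_Ein' (b * (z - ζ))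
  have h4 : exp (b * z) = exp (b * ζ) * exp (b * (z - ζ)) := by rw [← exp_add]; ring_nf
  have h5 : z - c - (ζ - c) ≠ 0 := by rwa [sub_sub_sub_cancel_right]
  refine ((d1.add d2).const_mul (exp (b * ζ))).congr_deriv ?_
  rw [h4, show exp (b * (z - ζ)) = b * (z - ζ) * Ein' (b * (z - ζ)) + 1 by rw [h3]; ring]
  simp only [id]
  field_simp
  ring

lemma J_deriv_ζ (h : ‖ζ - c‖ < ‖z - c‖) :
    HasDerivAt (J b c z) (b * J b c z ζ - exp (b * z) / (z - ζ)) ζ := by
  obtain ⟨h1, h2⟩ := ne_J h
  have d0 := ((hasDerivAt_id ζ).const_mul b).cexp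
  have d1 := (hasDerivAt_Ein (b * (z - ζ))).comp ζ (((hasDerivAt_id ζ).const_sub z).const_mul b)
  have d2 := ((((hasDerivAt_id ζ).sub_const c).div_const (z - c)).const_sub 1).clog (slit_J h)
  have h3 := mul_Ein' (b * (z - ζ))
  have h4 : exp (b * z) = exp (b * ζ) * exp (b * (z - ζ)) := by rw [← exp_add]; ring_nf
  have h5 : z - c - (ζ - c) ≠ 0 := by rwa [sub_sub_sub_cancel_right]
  refine (d0.mul (d1.add d2)).congr_deriv ?_
  rw [h4, show exp (b * (z - ζ)) = b * (z - ζ) * Ein' (b * (z - ζ)) + 1 by rw [h3]; ring]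
  simp only [id, J, Function.comp, Pi.add_apply]
  field_simp
  ring

lemma J_cont (ht : t < ‖z - c‖) : ContinuousOn (J b c z) (sphere c t) := fun ζ hζ => by
  rw [mem_sphere, dist_eq_norm] at hζ
  exact (J_deriv_ζ (hζ ▸ ht)).continuousAt.continuousWithinAt

lemma norm_J_le (h : ‖ζ - c‖ < ‖z - c‖) : ‖J b c z ζ‖ ≤
    ‖b‖ * ‖z - ζ‖ * max ‖exp (b * ζ)‖ ‖exp (b * z)‖ +
      ‖exp (b * ζ)‖ * (‖ζ - c‖ / (‖z - c‖ - ‖ζ - c‖)) := by
  have h0 : 0 < ‖z - c‖ := (norm_nonneg _).trans_lt h
  rw [J, mul_add]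
  refine (norm_add_le _ _).trans (add_le_add ?_ ?_)
  · rw [norm_mul, mul_comm]
    refine (mul_le_mul_of_nonneg_right (norm_Ein_le _) (norm_nonneg _)).trans_eq ?_
    rw [norm_mul, mul_assoc, max_mul_of_nonneg _ _ (norm_nonneg _), one_mul, ← norm_exp,
      ← norm_mul (exp _), ← exp_add]
    congr 4; ring
  · rw [norm_mul]
    gcongr
    have h1 : ‖-((ζ - c) / (z - c))‖ = ‖ζ - c‖ / ‖z - c‖ := by rw [norm_neg, norm_div]
    have h2 : ‖ζ - c‖ / ‖z - c‖ < 1 := (div_lt_one h0).2 h
    have := norm_log_one_add_le (z := -((ζ - c) / (z - c))) (h1 ▸ h2)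
    rw [h1, ← sub_eq_add_neg] at this
    refine this.trans ?_
    rw [show ‖ζ - c‖ / (‖z - c‖ - ‖ζ - c‖) = (‖ζ - c‖ / ‖z - c‖) ^ 2 * (1 - ‖ζ - c‖ / ‖z - c‖)⁻¹
      + ‖ζ - c‖ / ‖z - c‖ by
        have := (sub_pos.2 h).ne'
        field_simp; ring]
    have : 0 ≤ (‖ζ - c‖ / ‖z - c‖) ^ 2 * (1 - ‖ζ - c‖ / ‖z - c‖)⁻¹ :=
      mul_nonneg (sq_nonneg _) (inv_nonneg.2 (sub_pos.2 h2).le)
    linarith

lemma hasDerivAt_circ {K K' : ℂ → ℂ → ℂ} {U : Set ℂ} (hU : IsOpen U) (ht : 0 ≤ t)
    (hK : ∀ z ∈ U, ContinuousOn (K z) (sphere c t))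
    (hK' : ContinuousOn (fun p : ℂ × ℂ => K' p.1 p.2) (U ×ˢ sphere c t))
    (hd : ∀ z ∈ U, ∀ ζ ∈ sphere c t, HasDerivAt (fun z => K z ζ) (K' z ζ) z) (hz : z ∈ U) :
    HasDerivAt (fun z => ∮ ζ in C(c, t), K z ζ) (∮ ζ in C(c, t), K' z ζ) z := by
  obtain ⟨R, hR, hRU⟩ := Metric.nhds_basis_closedBall.mem_iff.1 (hU.mem_nhds hz)
  obtain ⟨M, hM⟩ := ((isCompact_closedBall z R).prod (isCompact_sphere c t)
    ).exists_bound_of_continuousOn (hK'.mono (prod_mono hRU subset_rfl))
  have hm := circleMap_mem_sphere c ht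
  have c1 : ∀ {u : ℂ → ℂ}, ContinuousOn u (sphere c t) →
      Continuous fun θ => deriv (circleMap c t) θ • u (circleMap c t θ) := fun h => by
    simp only [deriv_circleMap]
    have h4 : Continuous fun θ : ℝ => circleMap 0 t θ * I := by fun_prop
    exact h4.smul (h.comp_continuous (continuous_circleMap c t) hm)
  have c2 : ContinuousOn (K' z) (sphere c t) :=
    hK'.comp (by fun_prop : Continuous fun ζ : ℂ => (z, ζ)).continuousOn fun ζ hζ => ⟨hz, hζ⟩
  refine (intervalIntegral.hasDerivAt_integral_of_dominated_loc_of_deriv_le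
    (F := fun z θ => deriv (circleMap c t) θ • K z (circleMap c t θ))
    (F' := fun z θ => deriv (circleMap c t) θ • K' z (circleMap c t θ))
    (bound := fun _ => t * M) (closedBall_mem_nhds z hR) ?_ ((c1 (hK z hz)).intervalIntegrable _ _)
    (c1 c2).aestronglyMeasurable (.of_forall fun θ _ y hy => ?_) intervalIntegrable_const
    (.of_forall fun θ _ y hy => (hd y (hRU hy) _ (hm θ)).const_mul _)).2
  · filter_upwards [hU.mem_nhds hz] with y hy using (c1 (hK y hy)).aestronglyMeasurable
  · rw [norm_smul, deriv_circleMap, norm_mul, norm_I, mul_one, norm_circleMap_zero,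
      abs_of_nonneg ht]
    exact mul_le_mul_of_nonneg_left (hM (y, _) ⟨hy, hm θ⟩) ht

theorem Ap_deriv (ht : 0 ≤ t) (hG : ContinuousOn G (sphere c t)) (hz : t < ‖z - c‖) :
    HasDerivAt (Ap b c t G) (exp (b * z) * PP c t G z - res b c t G / (z - c)) z := by
  have hU : IsOpen {z : ℂ | t < ‖z - c‖} := isOpen_lt continuous_const (by fun_prop)
  have hs : ∀ z ∈ {z : ℂ | t < ‖z - c‖}, ∀ ζ ∈ sphere c t, ‖ζ - c‖ < ‖z - c‖ := fun z hz ζ hζ => by
    rw [mem_sphere, dist_eq_norm] at hζ; exact hζ ▸ hz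
  have := (hasDerivAt_circ (K := fun z ζ => G ζ * J b c z ζ)
    (K' := fun z ζ => G ζ * (exp (b * z) / (z - ζ) - exp (b * ζ) / (z - c))) hU ht
    (fun z hz => hG.mul (J_cont hz)) ?_
    (fun z hz ζ hζ => (J_deriv_z (hs z hz ζ hζ)).const_mul _) hz).const_mul (2 * π * I : ℂ)⁻¹
  · refine this.congr_deriv ?_
    have i1 : CircleIntegrable (fun ζ => exp (b * z) * (G ζ / (z - ζ))) c t :=
      (continuousOn_const.mul (hG.div (by fun_prop) fun _ hζ => sub_ne_of_sphere hζ hz.ne')
        ).circleIntegrable ht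
    have i2 : CircleIntegrable (fun ζ => (z - c)⁻¹ * (exp (b * ζ) * G ζ)) c t :=
      (continuousOn_const.mul (ContinuousOn.mul (by fun_prop) hG)).circleIntegrable ht
    have e : (fun ζ => G ζ * (exp (b * z) / (z - ζ) - exp (b * ζ) / (z - c))) =
        fun ζ => exp (b * z) * (G ζ / (z - ζ)) - (z - c)⁻¹ * (exp (b * ζ) * G ζ) := by
      ext; ring
    rw [e, circleIntegral.integral_sub i1 i2, circleIntegral.integral_const_mul,
      circleIntegral.integral_const_mul, PP, res]
    ring
  · refine (hG.comp continuousOn_snd fun p hp => hp.2).mul (ContinuousOn.sub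
      (ContinuousOn.div (by fun_prop) (by fun_prop) fun p hp => (ne_J (hs _ hp.1 _ hp.2)).2)
      (ContinuousOn.div (by fun_prop) (by fun_prop) fun p hp => (ne_J (hs _ hp.1 _ hp.2)).1))

lemma Ap_sub (ht : 0 ≤ t) (hG : ContinuousOn G (sphere c t)) (hG' : ContinuousOn G' (sphere c t))
    (hz : t < ‖z - c‖) : Ap b c t (fun ζ => G ζ - G' ζ) z = Ap b c t G z - Ap b c t G' z := by
  unfold Ap
  rw [← mul_sub, ← circleIntegral.integral_sub ((hG.fun_mul (J_cont hz)).circleIntegrable ht)
    ((hG'.fun_mul (J_cont hz)).circleIntegrable ht)]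
  simp only [sub_mul]

lemma res_sub (ht : 0 ≤ t) (hG : ContinuousOn G (sphere c t)) (hG' : ContinuousOn G' (sphere c t)) :
    res b c t (fun ζ => G ζ - G' ζ) = res b c t G - res b c t G' := by
  have h : ContinuousOn (fun ζ => exp (b * ζ)) (sphere c t) := by fun_prop
  unfold res
  rw [← mul_sub, ← circleIntegral.integral_sub ((h.fun_mul hG).circleIntegrable ht)
    ((h.fun_mul hG').circleIntegrable ht)]
  simp only [mul_sub]

lemma norm_Ap_le (ht : 0 ≤ t) (h : ∀ ζ ∈ sphere c t, ‖G ζ‖ * ‖J b c z ζ‖ ≤ B) :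
    ‖Ap b c t G z‖ ≤ t * B := norm_circ_le ht fun ζ hζ => by rw [norm_mul]; exact h ζ hζ

lemma norm_res_le (ht : 0 ≤ t) (h : ∀ ζ ∈ sphere c t, ‖exp (b * ζ)‖ * ‖G ζ‖ ≤ B) :
    ‖res b c t G‖ ≤ t * B := norm_circ_le ht fun ζ hζ => by rw [norm_mul]; exact h ζ hζ

lemma Ap_hol (ht : 0 ≤ t) (hG : DiffContOnCl ℂ G (ball c t)) (hz : t < ‖z - c‖) :
    Ap b c t G z = 0 := by
  have : DiffContOnCl ℂ (J b c z) (ball c t) := DifferentiableOn.diffContOnCl fun ζ hζ =>
    (J_deriv_ζ (lt_of_le_of_lt (by simpa [dist_eq_norm] using closure_ball_subset_closedBall hζ)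
      hz)).differentiableAt.differentiableWithinAt
  have h2 : DiffContOnCl ℂ (fun ζ => G ζ * J b c z ζ) (ball c t) :=
    ⟨hG.1.mul this.1, hG.2.mul this.2⟩
  rw [Ap, h2.circleIntegral_eq_zero ht, mul_zero]

lemma res_hol (ht : 0 ≤ t) (hG : DiffContOnCl ℂ G (ball c t)) : res b c t G = 0 := by
  have h2 : DiffContOnCl ℂ (fun ζ => exp (b * ζ) * G ζ) (ball c t) :=
    ⟨DifferentiableOn.mul (by fun_prop) hG.1, ContinuousOn.mul (by fun_prop) hG.2⟩
  rw [res, h2.circleIntegral_eq_zero ht, mul_zero]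

/-- `Ij b c z j` is `Ap` of `(ζ - c)⁻¹ ^ (j + 1)`. -/
noncomputable def Ij (b c z : ℂ) : ℕ → ℂ
  | 0 => exp (b * c) * Ein (b * (z - c))
  | j + 1 => (b * Ij b c z j - exp (b * z) * (z - c)⁻¹ ^ (j + 1)) / (j + 1)

lemma tendsto_inv_sub (c : ℂ) : Tendsto (fun y : ℂ => (y - c)⁻¹) (cocompact ℂ) (𝓝 0) := by
  refine tendsto_inv₀_cobounded.comp ?_
  rw [← tendsto_norm_atTop_iff_cobounded]
  simpa [dist_eq_norm] using tendsto_dist_right_cocompact_atTop c

lemma cauchy_center {u : ℂ → ℂ} (ht : 0 < t) (h : DifferentiableOn ℂ u (closedBall c t)) :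
    (2 * π * I : ℂ)⁻¹ * ∮ ζ in C(c, t), (ζ - c)⁻¹ * u ζ = u c := by
  have := h.circleIntegral_sub_inv_smul (mem_ball_self ht)
  simp only [smul_eq_mul] at this
  rw [this, ← mul_assoc, inv_mul_cancel₀ two_pi_I_ne, one_mul]

/-- integration by parts against a negative power -/
lemma circ_parts {u u' : ℂ → ℂ} (ht : 0 < t) (h : ∀ ζ ∈ sphere c t, HasDerivAt u (u' ζ) ζ)
    (h' : ContinuousOn u' (sphere c t)) (j : ℕ) :
    ((j : ℂ) + 1) * ∮ ζ in C(c, t), (ζ - c)⁻¹ ^ (j + 2) * u ζ =
      ∮ ζ in C(c, t), (ζ - c)⁻¹ ^ (j + 1) * u' ζ := by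
  have h0 : ∀ ζ ∈ sphere c t, ζ - c ≠ 0 := fun ζ hζ => by
    rw [mem_sphere, dist_eq_norm] at hζ
    rw [← norm_pos_iff, hζ]; exact ht
  have ci : ContinuousOn (fun ζ => (ζ - c)⁻¹) (sphere c t) := ContinuousOn.inv₀ (by fun_prop) h0
  have c0 : ContinuousOn u (sphere c t) := fun ζ hζ => (h ζ hζ).continuousAt.continuousWithinAt
  have := circleIntegral.integral_eq_zero_of_hasDerivWithinAt ht.le
    (f := fun ζ => (ζ - c)⁻¹ ^ (j + 1) * u ζ)
    (f' := fun ζ => (ζ - c)⁻¹ ^ (j + 1) * u' ζ - ((j : ℂ) + 1) * ((ζ - c)⁻¹ ^ (j + 2) * u ζ))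
    fun ζ hζ => by
      refine HasDerivAt.hasDerivWithinAt ?_
      refine (((((hasDerivAt_id ζ).sub_const c).fun_inv (h0 ζ hζ)).fun_pow (j + 1)).fun_mul
        (h ζ hζ)).congr_deriv ?_
      simp only [id, Nat.add_sub_cancel, ← inv_pow, div_eq_mul_inv]
      push_cast
      ring
  rw [circleIntegral.integral_sub (((ci.fun_pow _).fun_mul h').circleIntegrable ht.le)
    ((continuousOn_const.fun_mul ((ci.fun_pow _).fun_mul c0)).circleIntegrable ht.le),
    circleIntegral.integral_const_mul] at this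
  exact (sub_eq_zero.1 this).symm

lemma PP_pow (ht : 0 < t) (hz : t < ‖z - c‖) (j : ℕ) :
    PP c t (fun ζ => (ζ - c)⁻¹ ^ (j + 1)) z = (z - c)⁻¹ ^ (j + 1) := by
  refine PP_self ht hz (fun ζ hζ => ?_) (by simpa using (tendsto_inv_sub c).pow (j + 1))
  have : ζ - c ≠ 0 := norm_pos_iff.1 (ht.trans_le hζ)
  fun_prop (disch := assumption)

theorem Ap_pow (ht : 0 < t) (hz : t < ‖z - c‖) (j : ℕ) :
    Ap b c t (fun ζ => (ζ - c)⁻¹ ^ (j + 1)) z = Ij b c z j := by
  have hs : ∀ ζ ∈ closedBall c t, ‖ζ - c‖ < ‖z - c‖ := fun ζ hζ =>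
    lt_of_le_of_lt (by simpa [dist_eq_norm] using hζ) hz
  have h0 : ∀ ζ ∈ sphere c t, ζ - c ≠ 0 := fun ζ hζ => by
    rw [mem_sphere, dist_eq_norm] at hζ
    rw [← norm_pos_iff, hζ]; exact ht
  have ci : ContinuousOn (fun ζ => (ζ - c)⁻¹) (sphere c t) := ContinuousOn.inv₀ (by fun_prop) h0
  induction j with
  | zero =>
    simp only [Ap, zero_add, pow_one]
    rw [cauchy_center ht fun ζ hζ => (J_deriv_ζ (hs ζ hζ)).differentiableAt.differentiableWithinAt]
    simp [J, Ij]
  | succ j ih =>
    have c1 : ContinuousOn (fun ζ => exp (b * z) / (z - ζ)) (sphere c t) :=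
      continuousOn_const.div (by fun_prop) fun _ hζ => sub_ne_of_sphere hζ hz.ne'
    have h1 := circ_parts ht (fun ζ hζ => J_deriv_ζ (b := b) (hs ζ (sphere_subset_closedBall hζ)))
      ((continuousOn_const.mul (J_cont hz)).sub c1) j
    have e : (fun ζ => (ζ - c)⁻¹ ^ (j + 1) * (b * J b c z ζ - exp (b * z) / (z - ζ))) =
        fun ζ => b * ((ζ - c)⁻¹ ^ (j + 1) * J b c z ζ) -
          exp (b * z) * ((ζ - c)⁻¹ ^ (j + 1) / (z - ζ)) := by ext; ring
    rw [e, circleIntegral.integral_sub
      ((continuousOn_const.fun_mul ((ci.fun_pow _).fun_mul (J_cont hz))).circleIntegrable ht.le)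
      ((continuousOn_const.fun_mul ((ci.fun_pow _).div₀ (by fun_prop) fun _ hζ =>
        sub_ne_of_sphere hζ hz.ne')).circleIntegrable ht.le),
      circleIntegral.integral_const_mul, circleIntegral.integral_const_mul] at h1
    have hj : (j : ℂ) + 1 ≠ 0 := by exact_mod_cast j.succ_ne_zero
    rw [Ij, ← ih, ← PP_pow ht hz j, eq_div_iff hj]
    simp only [Ap, PP]
    linear_combination (2 * π * I : ℂ)⁻¹ * h1

theorem res_pow (ht : 0 < t) (j : ℕ) :
    res b c t (fun ζ => (ζ - c)⁻¹ ^ (j + 1)) = exp (b * c) * b ^ j / j ! := by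
  simp only [res, mul_comm (exp (b * _)) ((_ - c)⁻¹ ^ _)]
  induction j with
  | zero =>
    simp only [zero_add, pow_one]
    rw [cauchy_center ht (by fun_prop)]
    simp
  | succ j ih =>
    have h1 := circ_parts (c := c) ht (u := fun ζ => exp (b * ζ)) (u' := fun ζ => exp (b * ζ) * b)
      (fun ζ _ => by simpa using ((hasDerivAt_id ζ).const_mul b).cexp) (by fun_prop) j
    have e : (fun ζ => (ζ - c)⁻¹ ^ (j + 1) * (exp (b * ζ) * b)) =
        fun ζ => b * ((ζ - c)⁻¹ ^ (j + 1) * exp (b * ζ)) := by ext; ring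
    rw [e, circleIntegral.integral_const_mul] at h1
    have hj : (j : ℂ) + 1 ≠ 0 := by exact_mod_cast j.succ_ne_zero
    have hf : (j ! : ℂ) ≠ 0 := by exact_mod_cast j.factorial_ne_zero
    rw [eq_div_iff hf] at ih
    rw [Nat.factorial_succ]
    push_cast
    rw [eq_div_iff (mul_ne_zero hj hf)]
    linear_combination (2 * π * I : ℂ)⁻¹ * j ! * h1 + b * ih

lemma Ap_conj (hb : conj b = -b) (ht : 0 ≤ t) (hz : t < ‖z - c‖) :
    Ap b (-conj c) t (fun ζ => conj (G (-conj ζ))) (-conj z) = -conj (Ap b c t G z) := by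
  unfold Ap
  rw [map_mul, ← circ_conj, ← neg_mul]
  congr 1
  · simp [map_ofNat]
  · refine circleIntegral.integral_congr ht fun ζ hζ => ?_
    have h1 : ‖-conj ζ - c‖ < ‖z - c‖ := by
      rw [mem_sphere, dist_eq_norm] at hζ
      rw [show -conj ζ - c = -conj (ζ - -conj c) by simp; ring, norm_neg, norm_conj, hζ]
      exact hz
    simp only [map_mul, J, map_add]
    rw [← exp_conj, ← Ein_conj, ← log_conj _ (slitPlane_arg_ne_pi (slit_J h1))]
    simp only [map_mul, map_sub, map_neg, conj_conj, hb, map_div₀, map_one]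
    rw [show -conj z - -conj c = -(conj z - conj c) by ring, div_neg, ← neg_div,
      show -b * -ζ = b * ζ by ring, show -b * (conj z - -ζ) = b * (-conj z - ζ) by ring,
      show -(ζ - -conj c) = -ζ - conj c by ring]

lemma res_conj (hb : conj b = -b) :
    res b (-conj c) t (fun ζ => conj (G (-conj ζ))) = -conj (res b c t G) := by
  unfold res
  rw [map_mul, ← circ_conj, ← neg_mul]
  congr 1
  · simp [map_ofNat]
  · congr 1
    ext ζ
    rw [map_mul, ← exp_conj]
    simp [hb]

lemma Ap_zero_tendsto (ht : 0 ≤ t) (hG : ContinuousOn G (sphere c t)) :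
    Tendsto (Ap 0 c t G) (cocompact ℂ) (𝓝 0) := by
  obtain ⟨B, hB⟩ := (isCompact_sphere c t).exists_bound_of_continuousOn hG
  have h1 : Tendsto (fun z : ℂ => ‖z - c‖) (cocompact ℂ) atTop := by
    simpa [dist_eq_norm] using tendsto_dist_right_cocompact_atTop c
  have h2 : Tendsto (fun z : ℂ => t * (B * (t / (‖z - c‖ - t)))) (cocompact ℂ) (𝓝 (t * (B * 0))) :=
    (((tendsto_atTop_add_const_right _ (-t) h1).const_div_atTop _).const_mul B).const_mul t
  rw [mul_zero, mul_zero] at h2
  refine squeeze_zero_norm' ?_ h2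
  filter_upwards [h1.eventually_gt_atTop t] with z hz
  refine norm_Ap_le ht fun ζ hζ => ?_
  have h3 : ‖ζ - c‖ = t := by simpa [dist_eq_norm] using hζ
  have := norm_J_le (b := 0) (h3 ▸ hz : ‖ζ - c‖ < ‖z - c‖)
  simp only [norm_zero, zero_mul, exp_zero, norm_one, one_mul, zero_add, h3] at this
  exact mul_le_mul (hB ζ hζ) this (norm_nonneg _) ((norm_nonneg _).trans (hB ζ hζ))

/-- change of variables in a circle integral under an inversion -/
lemma circ_inv {c' k : ℂ} (hk : k ≠ 0) (ht : 0 < t) (u : ℂ → ℂ) :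
    (∮ ζ in C(c, t), k / (ζ - c) ^ 2 * u (c' - k / (ζ - c))) = -∮ w in C(c', ‖k‖ / t), u w := by
  unfold circleIntegral
  simp only [deriv_circleMap]
  set g : ℝ → ℂ := fun θ => (circleMap 0 (‖k‖ / t) θ * I) • u (circleMap c' (‖k‖ / t) θ) with hg
  have hp : Function.Periodic g (2 * π) := fun θ => by
    simp only [hg, periodic_circleMap _ _ θ]
  have e : ∀ θ : ℝ, (circleMap 0 t θ * I) • (k / (circleMap c t θ - c) ^ 2 *
      u (c' - k / (circleMap c t θ - c))) = -g (arg (-k) - θ) := by
    intro θ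
    have ht' : (t : ℂ) ≠ 0 := by exact_mod_cast ht.ne'
    have h1 : circleMap 0 (‖k‖ / t) (arg (-k) - θ) = -(k / circleMap 0 t θ) := by
      have h2 := norm_mul_exp_arg_mul_I (-k)
      rw [norm_neg] at h2
      simp only [circleMap, zero_add]
      push_cast
      rw [sub_mul, exp_sub]
      have := exp_ne_zero (θ * I)
      field_simp
      linear_combination h2
    have h3 : circleMap c' (‖k‖ / t) (arg (-k) - θ) = c' - k / circleMap 0 t θ := by
      rw [sub_eq_add_neg c', ← h1]; simp [circleMap]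
    have h4 : circleMap 0 t θ ≠ 0 := circleMap_ne_center ht.ne'
    simp only [hg, h1, h3, circleMap_sub_center, smul_eq_mul]
    field_simp
  simp only [e]
  rw [intervalIntegral.integral_neg, intervalIntegral.integral_comp_sub_left g (arg (-k))]
  have h3 := hp.intervalIntegral_add_eq (arg (-k) - 2 * π) 0
  rw [show arg (-k) - 2 * π + 2 * π = arg (-k) - 0 by ring, zero_add] at h3
  rw [h3]

/-- Partial fraction decomposition outside finitely many discs. -/
theorem multi_PP {ι : Type} [Fintype ι] {c : ι → ℂ} {t ρ : ι → ℝ} {g : ℂ} (ht : ∀ l, 0 < t l)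
    (hρ : ∀ l, t l < ρ l) (hsep : ∀ l m, m ≠ l → ρ l + t m < ‖c l - c m‖)
    (hG : ∀ ζ, (∀ m, t m ≤ ‖ζ - c m‖) → DifferentiableAt ℂ G ζ)
    (hg : Tendsto G (cocompact ℂ) (𝓝 g)) (hz : ∀ m, t m < ‖z - c m‖) :
    G z = g + ∑ l, PP (c l) (t l) G z := by
  classical
  have far : ∀ l m, m ≠ l → ∀ y, ‖y - c l‖ ≤ ρ l → t m < ‖y - c m‖ := fun l m h y hy => by
    have h2 : ‖c l - c m‖ ≤ ‖y - c l‖ + ‖y - c m‖ := by
      rw [norm_sub_rev y]; exact norm_sub_le_norm_sub_add_norm_sub _ _ _
    linarith [hsep l m h]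
  have hd : ∀ l y, t l ≤ ‖y - c l‖ → ‖y - c l‖ ≤ ρ l → DifferentiableAt ℂ G y := fun l y h1 h2 =>
    hG y fun m => by
      rcases eq_or_ne m l with rfl | h
      exacts [h1, (far l m h y h2).le]
  have hc : ∀ l s, t l ≤ s → s ≤ ρ l → ContinuousOn G (sphere (c l) s) := fun l s h1 h2 y hy => by
    rw [mem_sphere, dist_eq_norm] at hy
    exact (hd l y (hy ▸ h1) (hy ▸ h2)).continuousAt.continuousWithinAt
  set A : ι → ℂ → ℂ := fun l y => RP (c l) (ρ l) G y -
    ∑ m ∈ Finset.univ.erase l, PP (c m) (t m) G y with hA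
  set Bf : ℂ → ℂ := fun y => G y - ∑ m, PP (c m) (t m) G y with hB
  set Ψ : ℂ → ℂ := fun y => if h : ∃ l, ‖y - c l‖ ≤ t l then A h.choose y else Bf y with hΨ
  have e1 : ∀ y, (∀ m, t m < ‖y - c m‖) → Ψ y = Bf y := fun y hy =>
    dif_neg fun ⟨l, hl⟩ => (hy l).not_ge hl
  have e2 : ∀ l y, ‖y - c l‖ < ρ l → Ψ y = A l y := fun l y hy => by
    by_cases h : ∃ l, ‖y - c l‖ ≤ t l
    · have : h.choose = l := by_contra fun hne => (far l _ hne y hy.le).not_ge h.choose_spec
      simp only [hΨ, dif_pos h, this]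
    · have h' : ∀ m, t m < ‖y - c m‖ := fun m => not_le.1 fun hm => h ⟨m, hm⟩
      rw [e1 y h']
      simp only [hA, hB, ← Finset.add_sum_erase _ _ (Finset.mem_univ l)]
      rw [annulus (ht l) (h' l) hy (hd l)]
      ring
  have cn : ∀ l, Continuous fun y : ℂ => ‖y - c l‖ := fun l => by fun_prop
  have hV : IsOpen {y : ℂ | ∀ m, t m < ‖y - c m‖} := by
    rw [Set.ofPred_forall]
    exact isOpen_iInter_of_finite fun k => isOpen_lt continuous_const (cn k)
  have hΨd : Differentiable ℂ Ψ := fun y => by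
    by_cases h : ∃ l, ‖y - c l‖ < ρ l
    · obtain ⟨l, hl⟩ := h
      refine DifferentiableAt.congr_of_eventuallyEq (f := A l) ?_ ?_
      · exact (RP_diffAt ((ht l).trans (hρ l)).le (hc l _ (hρ l).le le_rfl) hl.ne).fun_sub
          (DifferentiableAt.fun_sum fun m hm => PP_diffAt (ht m).le (hc m _ le_rfl (hρ m).le)
            (far l m (Finset.ne_of_mem_erase hm) y hl.le).ne')
      · filter_upwards [(isOpen_lt (cn l) continuous_const).mem_nhds hl] with y' hy'
          using e2 l y' hy'
    · have h' : ∀ m, t m < ‖y - c m‖ := fun m => (hρ m).trans_le (not_lt.1 fun hm => h ⟨m, hm⟩)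
      refine DifferentiableAt.congr_of_eventuallyEq (f := Bf) ?_ ?_
      · exact (hG y fun m => (h' m).le).fun_sub (DifferentiableAt.fun_sum fun m _ =>
          PP_diffAt (ht m).le (hc m _ le_rfl (hρ m).le) (h' m).ne')
      · filter_upwards [hV.mem_nhds h'] with y' hy' using e1 y' hy'
  have h1 : ∀ l, Tendsto (fun y : ℂ => ‖y - c l‖) (cocompact ℂ) atTop := fun l => by
    simpa [dist_eq_norm] using tendsto_dist_right_cocompact_atTop (c l)
  have h2 : ∀ l, Tendsto (PP (c l) (t l) G) (cocompact ℂ) (𝓝 0) := fun l => by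
    obtain ⟨B, hB⟩ := (isCompact_sphere (c l) (t l)).exists_bound_of_continuousOn
      (hc l _ le_rfl (hρ l).le)
    refine squeeze_zero_norm' ?_
      ((tendsto_atTop_add_const_right _ (-t l) (h1 l)).const_div_atTop (B * t l))
    filter_upwards [(h1 l).eventually_gt_atTop (t l)] with y hy using PP_bound (ht l).le hB hy
  have h3 : Tendsto Ψ (cocompact ℂ) (𝓝 g) := by
    have := hg.sub (tendsto_finsetSum Finset.univ fun m _ => h2 m)
    rw [Finset.sum_const_zero, sub_zero] at this
    refine this.congr' ?_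
    filter_upwards [eventually_all.2 fun m => (h1 m).eventually_gt_atTop (t m)] with y hy
      using (e1 y hy).symm
  have := hΨd.apply_eq_of_tendsto_cocompact z h3
  rw [e1 z hz] at this
  rw [← this]; simp [hB]

end Pool.Agent.MP_c434f6_gt.H30

end

section

/-! The surface data and the period equations. -/

open Set Filter Topology Metric Complex
open scoped Real ComplexConjugate

namespace Pool.Agent.MP_c434f6_gt.H30

/-- The exponents `± i / 2`. -/
noncomputable def aa : Bool → ℂ
  | true => I / 2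
  | false => -(I / 2)

/-- The exponent of a product of two spinors. -/
noncomputable def bb (i j : Bool) : ℂ := aa i + aa j

open Classical in
/-- A primitive of `exp (b z)`. -/
noncomputable def Eb (b z : ℂ) : ℂ := if b = 0 then z else exp (b * z) / b

/-- `Dat` with a second family of radii, base points and reference logarithms. -/
structure Dat2 (ι : Type) extends Dat ι where
  ρ : ι → ℝ
  w0 : ι → ℂ
  ℓ : ι → ι → ℂ

namespace Dat2

variable {ι : Type} [Fintype ι] [DecidableEq ι] (d : Dat2 ι)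

noncomputable def G (i j : Bool) (z : ℂ) : ℂ := d.f (aa i) z * d.f (aa j) z

noncomputable def β (i j : Bool) (l : ι) : ℂ := res (bb i j) (d.c l) (d.ρ l) (d.G i j)

noncomputable def W (i j : Bool) (z : ℂ) : ℂ :=
  Eb (bb i j) z + ∑ l, Ap (bb i j) (d.c l) (d.ρ l) (d.G i j) z

noncomputable def h3 (z : ℂ) : ℝ :=
  (d.W true false z).re + ∑ l, (d.β true false l).re * Real.log ‖z - d.c l‖

noncomputable def Z0 (z : ℂ) : ℂ :=
  (conj (d.W false false z) - d.W true true z) / 2 - ∑ l, d.β true true l * Real.log ‖z - d.c l‖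

/-- The surface data, normalised by `Z 0 = z₀`. -/
noncomputable def sch (z₀ : ℂ) : Sch ι where
  pr := d.pr
  c := d.c
  κ := d.κ
  V := {z | ∀ l, d.ρ l < ‖z - d.c l‖}
  s1 := d.s (aa true)
  s2 := d.s (aa false)
  h3 := d.h3
  Z := fun z => d.Z0 z - d.Z0 0 + z₀

noncomputable def z1 (k : ι) : ℂ := d.c k + d.w0 k

noncomputable def z2 (k : ι) : ℂ := d.c (d.pr k) - d.κ k ^ 2 / d.w0 k

noncomputable def L (k l : ι) : ℂ :=
  d.ℓ k l + log ((d.z2 k - d.c l) / (d.z1 k - d.c l) * exp (-d.ℓ k l))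

noncomputable def Kern (b : ℂ) (k l : ι) (ζ : ℂ) : ℂ :=
  J b (d.c l) (d.z2 k) ζ - J b (d.c l) (d.z1 k) ζ + exp (b * ζ) * d.L k l

noncomputable def head (b : ℂ) (k : ι) : ℂ := Eb b (d.z2 k) - Eb b (d.z1 k)

/-- The share of disc `l` in the period across neck `k`. -/
noncomputable def Ul (i j : Bool) (k l : ι) : ℂ :=
  (2 * π * I : ℂ)⁻¹ * ∮ ζ in C(d.c l, d.ρ l), d.G i j ζ * d.Kern (bb i j) k l ζ

noncomputable def U (i j : Bool) (k : ι) : ℂ := d.head (bb i j) k + ∑ l, d.Ul i j k l

/-- The six functions whose real parts must vanish at neck `k`. -/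
noncomputable def eqn (k : ι) : Fin 6 → ℂ :=
  ![I * d.β true false k,
    d.β true true k + d.β false false k,
    I * (d.β true true k - d.β false false k),
    d.U true false k,
    d.U false false k - d.U true true k,
    I * (d.U true true k + d.U false false k)]

/-- The two base points of neck `k` are well inside the domain. -/
structure Neck (k : ι) : Prop where
  n1 : ∀ l, 3 * d.ρ l ≤ 2 * ‖d.z1 k - d.c l‖
  n2 : ∀ l, 3 * d.ρ l ≤ 2 * ‖d.z2 k - d.c l‖
  sl : ∀ l, ‖(d.z2 k - d.c l) / (d.z1 k - d.c l) * exp (-d.ℓ k l) - 1‖ ≤ 2 / 3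

/-- Geometry of the discs with the second radii. -/
structure Geo2 : Prop extends d.Geo where
  rρ : ∀ k, d.r k < d.ρ k
  ρκ : ∀ k, d.ρ k < ‖d.κ k‖
  disj : ∀ k l, l ≠ k → ‖d.κ k‖ + ‖d.κ l‖ < ‖d.c k - d.c l‖
  sep2 : ∀ k l, l ≠ k → ‖d.κ k‖ ^ 2 / d.ρ (d.pr k) + d.ρ l ≤ ‖d.c k - d.c l‖

/-- Symmetry under `z ↦ -conj z`. -/
structure Sym2 (τ : ι ≃ ι) : Prop extends d.Sym τ where
  ρ : ∀ k, d.ρ (τ k) = d.ρ k

end Dat2

end Pool.Agent.MP_c434f6_gt.H30

end

section

/-! The numerical tables of the two surfaces of genus four. -/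

open Complex

namespace Pool.Agent.MP_c434f6_gt.H30

/-- The Gaussian dyadic number `(a + b i) / 2 ^ s`. -/
noncomputable def gz (s : ℕ) (a : ℤ × ℤ) : ℂ := (a.1 + a.2 * I) / 2 ^ s

def pr8 : Fin 8 → Fin 8 := ![1, 0, 3, 2, 5, 4, 7, 6]

def tau8 : Fin 8 ≃ Fin 8 := ⟨![4, 5, 6, 7, 0, 1, 2, 3], ![4, 5, 6, 7, 0, 1, 2, 3], by decide, by decide⟩

/-- Centres and multipliers in units `2⁻⁴⁸`, radii in units `2⁻¹⁶`, weights, and the contraction
constant in units `1 / 8`. -/
structure Tab where
  c : Fin 8 → ℤ × ℤ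
  κ : Fin 8 → ℤ × ℤ
  r : Fin 8 → ℕ
  ρ : Fin 8 → ℕ
  w : Bool → Fin 8 → ℕ
  L : ℕ

namespace Tab

variable (T : Tab)

noncomputable def dat (ℓ : Fin 8 → Fin 8 → ℂ) (c κ : Fin 8 → ℂ) : Dat2 (Fin 8) where
  pr := pr8
  c := c
  κ := κ
  r := fun k => (T.r k : ℝ) / 2 ^ 16
  ρ := fun k => (T.ρ k : ℝ) / 2 ^ 16
  w0 := fun k => -gz 48 (T.κ k)
  ℓ := ℓ

/-- `c, κ` are within `μ` of the table. -/
def Near (μ : ℝ) (c κ : Fin 8 → ℂ) : Prop :=
  ∀ k, ‖c k - gz 48 (T.c k)‖ ≤ μ ∧ ‖κ k - gz 48 (T.κ k)‖ ≤ μ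

/-- The rough inequalities. -/
structure Rough (ℓ : Fin 8 → Fin 8 → ℂ) (c κ : Fin 8 → ℂ) : Prop where
  geo : (T.dat ℓ c κ).Geo2
  con : ∀ j, (T.dat ℓ c κ).Con (aa j) (fun k => (T.w j k : ℝ)) ((T.L : ℝ) / 8) 64
  n1 : ∀ k l, 3 * (T.dat ℓ c κ).ρ l ≤ 2 * ‖(T.dat ℓ c κ).z1 k - c l‖
  n2 : ∀ k l, 3 * (T.dat ℓ c κ).ρ l ≤ 2 * ‖(T.dat ℓ c κ).z2 k - c l‖

end Tab

def tabN : Tab where
  c := ![(-838861710394478, 322695121706285), (-92754958436053, -561534581713292), (-283318693768087, 431535142108593), (435562710837291, -597478502830318), (838861710394478, 322695121706285), (92754958436053, -561534581713292), (283318693768087, 431535142108593), (-435562710837291, -597478502830318)]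
  κ := ![(-12193542245753, 41022496273203), (12193542245753, -41022496273203), (-2565533490587, 14357842729360), (2565533490587, -14357842729360), (12193542245753, 41022496273203), (-12193542245753, -41022496273203), (2565533490587, 14357842729360), (-2565533490587, -14357842729360)]
  r := ![4982, 4982, 1698, 1698, 4982, 4982, 1698, 1698]
  ρ := ![5779, 5779, 1970, 1970, 5779, 5779, 1970, 1970]
  w := fun j => bif j then ![511, 29, 451, 23, 511, 29, 451, 23] else ![48, 193, 16, 238, 48, 193, 16, 238]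
  L := 7

def tabH : Tab where
  c := ![(-358695827755580, 487223136472624), (358695827755580, -487223136472624), (-428808149398988, 1174394809983483), (428808149398988, -1174394809983483), (358695827755580, 487223136472624), (-358695827755580, -487223136472624), (428808149398988, 1174394809983483), (-428808149398988, -1174394809983483)]
  κ := ![(-3762440377904, 16822443447728), (3762440377904, -16822443447728), (-22090115140, 911942176497), (22090115140, -911942176497), (3762440377904, 16822443447728), (-3762440377904, -16822443447728), (22090115140, 911942176497), (-22090115140, -911942176497)]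
  r := ![2007, 2007, 106, 106, 2007, 2007, 106, 106]
  ρ := ![2328, 2328, 123, 123, 2328, 2328, 123, 123]
  w := fun j => bif j then ![23, 5, 129, 4, 23, 5, 129, 4] else ![5, 23, 4, 129, 5, 23, 4, 129]
  L := 4

end Pool.Agent.MP_c434f6_gt.H30

end

section

/-! What the numerical checks on compact sets know about a surface. -/

open Complex Metric Set

namespace Pool.Agent.MP_c434f6_gt.H30

/-- `x (a₁ + x (a₂ + ⋯))`, the coefficients in units `2⁻⁶⁴`. -/
noncomputable def hq : List (ℤ × ℤ) → ℂ → ℂ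
  | [], _ => 0
  | a :: l, x => x * (gz 64 a + hq l x)

/-- The region in which the models are used. -/
def Tab.Vh (T : Tab) : Set ℂ := {z | ∀ l, ((T.ρ l : ℝ) + 1) / 2 ^ 16 ≤ ‖z - gz 48 (T.c l)‖}

/-- The oracle, with the true centres. -/
structure Orc (S : Sch (Fin 8)) (T : Tab) (q : Bool → Fin 8 → List (ℤ × ℤ)) (ε : ℝ) : Prop where
  pr : S.pr = pr8
  near : T.Near (1 / 2 ^ 40) S.c S.κ
  hV : ∀ z, (∀ l, (T.ρ l : ℝ) / 2 ^ 16 < ‖z - S.c l‖) → z ∈ S.V
  f1 : ∀ z, (∀ l, (T.ρ l : ℝ) / 2 ^ 16 < ‖z - S.c l‖) →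
    ‖S.σ1 z - (1 + ∑ l, hq (q true l) ((T.r l : ℂ) / 2 ^ 16 / (z - S.c l)))‖ ≤ ε
  f2 : ∀ z, (∀ l, (T.ρ l : ℝ) / 2 ^ 16 < ‖z - S.c l‖) →
    ‖S.σ2 z - (1 + ∑ l, hq (q false l) ((T.r l : ℂ) / 2 ^ 16 / (z - S.c l)))‖ ≤ ε
  glue : ∀ k z, (T.ρ k : ℝ) / 2 ^ 16 < ‖z - S.c k‖ →
    (T.ρ (pr8 k) : ℝ) / 2 ^ 16 * ‖z - S.c k‖ < ‖S.κ k‖ ^ 2 → S.X (S.γ k z) = S.X z

/-- The oracle, with the centres of the table. -/
structure OrcH (S : Sch (Fin 8)) (T : Tab) (q : Bool → Fin 8 → List (ℤ × ℤ)) (ε : ℝ) : Prop where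
  pr : S.pr = pr8
  near : T.Near (1 / 2 ^ 40) S.c S.κ
  hV : T.Vh ⊆ S.V
  f1 : ∀ z ∈ T.Vh,
    ‖S.σ1 z - (1 + ∑ l, hq (q true l) ((T.r l : ℂ) / 2 ^ 16 / (z - gz 48 (T.c l))))‖ ≤ ε
  f2 : ∀ z ∈ T.Vh,
    ‖S.σ2 z - (1 + ∑ l, hq (q false l) ((T.r l : ℂ) / 2 ^ 16 / (z - gz 48 (T.c l))))‖ ≤ ε
  glue : ∀ k, ∀ z ∈ S.F, S.γ k z ∈ T.Vh → S.X (S.γ k z) = S.X z

/-- `(∑ |aᵢ|, ∑ i |aᵢ|)` in units `2⁻⁶⁴`, with `|a| ≤ |re a| + |im a|`. -/
def lipz : List (ℤ × ℤ) → ℕ × ℕ
  | [] => (0, 0)
  | a :: l =>
    let p := lipz l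
    let m := a.1.natAbs + a.2.natAbs + p.1
    (m, m + p.2)

/-- The cost, in units `2⁻⁶⁴`, of moving centre `l` by `2⁻⁴⁰`. -/
def hatCost (T : Tab) (q : Fin 8 → List (ℤ × ℤ)) (l : Fin 8) : ℕ :=
  (lipz (q l)).2 * T.r l / (2 ^ 24 * (T.ρ l * (T.ρ l + 1))) + 1

def hatSum (T : Tab) (q : Fin 8 → List (ℤ × ℤ)) : ℕ :=
  hatCost T q 0 + hatCost T q 1 + hatCost T q 2 + hatCost T q 3 + hatCost T q 4 + hatCost T q 5 +
    hatCost T q 6 + hatCost T q 7

def hatRad (T : Tab) (l : Fin 8) : Bool :=
  decide (0 < T.ρ l) && decide (T.r l ≤ T.ρ l) &&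
    decide ((T.ρ l + 1) ^ 2 * 2 ^ 64 ≤ (T.κ l).1.natAbs ^ 2 + (T.κ l).2.natAbs ^ 2)

/-- `0 < ρ l`, `r l ≤ ρ l`, `ρ l < |κ l|` with room, and the shift of the centres costs at most
`n / 2 ^ 64`. -/
def hatOK (T : Tab) (q : Bool → Fin 8 → List (ℤ × ℤ)) (n : ℕ) : Bool :=
  (List.finRange 8).all (hatRad T) && decide (hatSum T (q true) ≤ n) &&
    decide (hatSum T (q false) ≤ n)

theorem norm_gz_le (s : ℕ) (a : ℤ × ℤ) :
    ‖gz s a‖ ≤ ((a.1.natAbs + a.2.natAbs : ℕ) : ℝ) / 2 ^ s := by
  unfold gz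
  rw [norm_div, norm_pow, Complex.norm_two]
  gcongr
  refine (norm_add_le _ _).trans (le_of_eq ?_)
  simp [Nat.cast_natAbs]

theorem norm_gz_sq (s : ℕ) (a : ℤ × ℤ) :
    ‖gz s a‖ ^ 2 = ((a.1.natAbs ^ 2 + a.2.natAbs ^ 2 : ℕ) : ℝ) / (2 ^ s) ^ 2 := by
  unfold gz
  rw [norm_div, norm_pow, Complex.norm_two, div_pow]
  congr 1
  rw [Complex.sq_norm, Complex.normSq_apply]
  simp [Nat.cast_natAbs, sq]

theorem norm_hq_le (l : List (ℤ × ℤ)) {x : ℂ} (hx : ‖x‖ ≤ 1) :
    ‖hq l x‖ ≤ ((lipz l).1 : ℝ) / 2 ^ 64 := by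
  induction l with
  | nil => simp [hq, lipz]
  | cons a l ih =>
    have h1 := norm_gz_le 64 a
    have h2 : ‖gz 64 a + hq l x‖ ≤ ((lipz (a :: l)).1 : ℝ) / 2 ^ 64 := by
      refine (norm_add_le _ _).trans ((add_le_add h1 ih).trans (le_of_eq ?_))
      simp only [lipz]; push_cast; ring
    rw [hq, norm_mul]
    calc _ ≤ 1 * ‖gz 64 a + hq l x‖ := by gcongr
      _ ≤ _ := by rw [one_mul]; exact h2

theorem norm_hq_sub_le (l : List (ℤ × ℤ)) {x y : ℂ} (hx : ‖x‖ ≤ 1) (hy : ‖y‖ ≤ 1) :
    ‖hq l x - hq l y‖ ≤ ((lipz l).2 : ℝ) / 2 ^ 64 * ‖x - y‖ := by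
  induction l with
  | nil => simp [hq, lipz]
  | cons a l ih =>
    have h1 := norm_gz_le 64 a
    have h2 : ‖gz 64 a + hq l x‖ ≤ ((lipz (a :: l)).1 : ℝ) / 2 ^ 64 := by
      refine (norm_add_le _ _).trans ((add_le_add h1 (norm_hq_le l hx)).trans (le_of_eq ?_))
      simp only [lipz]; push_cast; ring
    have e : hq (a :: l) x - hq (a :: l) y =
        (x - y) * (gz 64 a + hq l x) + y * (hq l x - hq l y) := by
      simp only [hq]; ring
    have e2 : ((lipz (a :: l)).2 : ℝ) = (lipz (a :: l)).1 + (lipz l).2 := by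
      simp only [lipz]; push_cast; ring
    rw [e, e2]
    refine (norm_add_le _ _).trans ?_
    rw [norm_mul, norm_mul]
    have h3 : ‖y‖ * ‖hq l x - hq l y‖ ≤ 1 * (((lipz l).2 : ℝ) / 2 ^ 64 * ‖x - y‖) := by gcongr
    have h4 : ‖x - y‖ * ‖gz 64 a + hq l x‖ ≤ ‖x - y‖ * (((lipz (a :: l)).1 : ℝ) / 2 ^ 64) := by
      gcongr
    refine (add_le_add h4 h3).trans (le_of_eq ?_)
    ring

/-- A point of `Vh` is outside the true discs of radius `ρ`. -/
theorem Tab.Vh_lt {T : Tab} {c κ : Fin 8 → ℂ} (hn : T.Near (1 / 2 ^ 40) c κ) {z : ℂ}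
    (hz : z ∈ T.Vh) (l : Fin 8) : (T.ρ l : ℝ) / 2 ^ 16 < ‖z - c l‖ := by
  have h1 := hz l
  have h2 := (hn l).1
  have h3 : ‖z - gz 48 (T.c l)‖ ≤ ‖z - c l‖ + ‖c l - gz 48 (T.c l)‖ := norm_sub_le_norm_sub_add_norm_sub _ _ _
  rw [add_div] at h1
  norm_num at h1 h2 ⊢
  linarith

theorem hat_one {r ρ : ℕ} (hρ : 0 < ρ) (hr : r ≤ ρ) (a : List (ℤ × ℤ)) {z c c' : ℂ}
    (h1 : (ρ : ℝ) / 2 ^ 16 < ‖z - c‖) (h2 : ((ρ : ℝ) + 1) / 2 ^ 16 ≤ ‖z - c'‖)
    (h3 : ‖c - c'‖ ≤ 1 / 2 ^ 40) :
    ‖hq a ((r : ℂ) / 2 ^ 16 / (z - c)) - hq a ((r : ℂ) / 2 ^ 16 / (z - c'))‖ ≤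
      (((lipz a).2 * r / (2 ^ 24 * (ρ * (ρ + 1))) + 1 : ℕ) : ℝ) / 2 ^ 64 := by
  have hρ' : (0 : ℝ) < ρ := by exact_mod_cast hρ
  have hr' : (r : ℝ) ≤ ρ := by exact_mod_cast hr
  have hr0 : (0 : ℝ) ≤ r := Nat.cast_nonneg r
  have p1 : 0 < ‖z - c‖ := lt_trans (by positivity) h1
  have p2 : 0 < ‖z - c'‖ := lt_of_lt_of_le (by positivity) h2
  have n1 : z - c ≠ 0 := norm_pos_iff.1 p1
  have n2 : z - c' ≠ 0 := norm_pos_iff.1 p2
  have nr : ‖(r : ℂ) / 2 ^ 16‖ = (r : ℝ) / 2 ^ 16 := by simp
  have hx : ‖(r : ℂ) / 2 ^ 16 / (z - c)‖ ≤ 1 := by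
    rw [norm_div, nr, div_le_one p1]
    exact le_trans (by gcongr) h1.le
  have hy : ‖(r : ℂ) / 2 ^ 16 / (z - c')‖ ≤ 1 := by
    rw [norm_div, nr, div_le_one p2]
    exact le_trans (by gcongr; linarith) h2
  have e : (r : ℂ) / 2 ^ 16 / (z - c) - (r : ℂ) / 2 ^ 16 / (z - c') =
      (r : ℂ) / 2 ^ 16 * (c - c') / ((z - c) * (z - c')) := by
    field_simp; ring
  have hd : ‖(r : ℂ) / 2 ^ 16 / (z - c) - (r : ℂ) / 2 ^ 16 / (z - c')‖ ≤
      (r : ℝ) / (2 ^ 24 * (ρ * (ρ + 1))) := by
    rw [e, norm_div, norm_mul, norm_mul, nr]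
    calc _ ≤ (r : ℝ) / 2 ^ 16 * (1 / 2 ^ 40) / ((ρ : ℝ) / 2 ^ 16 * ((ρ + 1) / 2 ^ 16)) := by
          gcongr
      _ = _ := by field_simp
  refine (norm_hq_sub_le a hx hy).trans ?_
  have hN : (0 : ℕ) < 2 ^ 24 * (ρ * (ρ + 1)) := by positivity
  have hq' : (((lipz a).2 * r : ℕ) : ℝ) / ((2 ^ 24 * (ρ * (ρ + 1)) : ℕ) : ℝ) ≤
      (((lipz a).2 * r / (2 ^ 24 * (ρ * (ρ + 1))) + 1 : ℕ) : ℝ) := by
    rw [div_le_iff₀ (by exact_mod_cast hN)]
    have := Nat.lt_mul_div_succ ((lipz a).2 * r) hN
    rw [mul_comm (2 ^ 24 * (ρ * (ρ + 1)))] at this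
    exact_mod_cast this.le
  calc _ ≤ ((lipz a).2 : ℝ) / 2 ^ 64 * ((r : ℝ) / (2 ^ 24 * (ρ * (ρ + 1)))) := by gcongr
    _ = (((lipz a).2 * r : ℕ) : ℝ) / ((2 ^ 24 * (ρ * (ρ + 1)) : ℕ) : ℝ) / 2 ^ 64 := by
        push_cast; ring
    _ ≤ _ := by gcongr

theorem hat_sum {T : Tab} (hR : ∀ l, hatRad T l = true) {c κ : Fin 8 → ℂ}
    (hn : T.Near (1 / 2 ^ 40) c κ) (q : Fin 8 → List (ℤ × ℤ)) {n : ℕ} (hs : hatSum T q ≤ n)
    {z σ : ℂ} (hz : z ∈ T.Vh) {ε : ℝ}
    (h : ‖σ - (1 + ∑ l, hq (q l) ((T.r l : ℂ) / 2 ^ 16 / (z - c l)))‖ ≤ ε) :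
    ‖σ - (1 + ∑ l, hq (q l) ((T.r l : ℂ) / 2 ^ 16 / (z - gz 48 (T.c l))))‖ ≤ ε + n / 2 ^ 64 := by
  have h1 : ∀ l, ‖hq (q l) ((T.r l : ℂ) / 2 ^ 16 / (z - c l)) -
      hq (q l) ((T.r l : ℂ) / 2 ^ 16 / (z - gz 48 (T.c l)))‖ ≤ (hatCost T q l : ℝ) / 2 ^ 64 := by
    intro l
    have := hR l
    simp only [hatRad, Bool.and_eq_true, decide_eq_true_eq] at this
    exact hat_one this.1.1 this.1.2 (q l) (Tab.Vh_lt hn hz l) (hz l) (hn l).1
  have h2 : ∑ l, (hatCost T q l : ℝ) / 2 ^ 64 ≤ (n : ℝ) / 2 ^ 64 := by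
    rw [← Finset.sum_div]
    gcongr
    rw [Fin.sum_univ_eight]
    unfold hatSum at hs
    exact_mod_cast hs
  refine (norm_sub_le_norm_sub_add_norm_sub _
    (1 + ∑ l, hq (q l) ((T.r l : ℂ) / 2 ^ 16 / (z - c l))) _).trans (add_le_add h ?_)
  rw [add_sub_add_left_eq_sub, ← Finset.sum_sub_distrib]
  exact (norm_sum_le _ _).trans ((Finset.sum_le_sum fun l _ => h1 l).trans h2)

theorem hat_rad {T : Tab} {k : Fin 8} (hR : hatRad T k = true) {c κ : Fin 8 → ℂ}
    (hn : T.Near (1 / 2 ^ 40) c κ) : 0 < T.ρ k ∧ (T.ρ k : ℝ) / 2 ^ 16 < ‖κ k‖ := by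
  simp only [hatRad, Bool.and_eq_true, decide_eq_true_eq] at hR
  refine ⟨hR.1.1, ?_⟩
  have h1 : ((T.ρ k : ℝ) + 1) / 2 ^ 16 ≤ ‖gz 48 (T.κ k)‖ := by
    refine le_of_sq_le_sq ?_ (norm_nonneg _)
    rw [norm_gz_sq, div_pow, div_le_div_iff₀ (by positivity) (by positivity)]
    have h2 : (((T.ρ k + 1) ^ 2 * 2 ^ 64 : ℕ) : ℝ) ≤
        (((T.κ k).1.natAbs ^ 2 + (T.κ k).2.natAbs ^ 2 : ℕ) : ℝ) := by exact_mod_cast hR.2
    calc _ = (((T.ρ k + 1) ^ 2 * 2 ^ 64 : ℕ) : ℝ) * (2 ^ 16) ^ 2 := by push_cast; ring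
      _ ≤ _ := by gcongr
  have h2 := (hn k).2
  have h3 : ‖gz 48 (T.κ k)‖ ≤ ‖κ k‖ + ‖κ k - gz 48 (T.κ k)‖ := by
    simpa using norm_sub_le (κ k) (κ k - gz 48 (T.κ k))
  rw [add_div] at h1
  norm_num at h1 h2 ⊢
  linarith

theorem Orc.hat {S : Sch (Fin 8)} {T : Tab} {q : Bool → Fin 8 → List (ℤ × ℤ)} {ε : ℝ} {n : ℕ}
    (O : Orc S T q ε) (h : hatOK T q n = true) : OrcH S T q (ε + n / 2 ^ 64) := by
  simp only [hatOK, Bool.and_eq_true, decide_eq_true_eq, List.all_eq_true] at h
  obtain ⟨⟨hR, h1⟩, h2⟩ := h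
  have hR' : ∀ l, hatRad T l = true := fun l => hR l (List.mem_finRange l)
  refine ⟨O.pr, O.near, fun z hz => O.hV z (Tab.Vh_lt O.near hz), fun z hz => ?_, fun z hz => ?_,
    fun k z hz hγ => ?_⟩
  · exact hat_sum hR' O.near _ h1 hz (O.f1 z (Tab.Vh_lt O.near hz))
  · exact hat_sum hR' O.near _ h2 hz (O.f2 z (Tab.Vh_lt O.near hz))
  · have h3 := (hat_rad (hR' k) O.near).2.trans_le (hz k)
    have p : 0 < ‖z - S.c k‖ := lt_of_le_of_lt (by positivity) h3
    refine O.glue k z h3 ?_
    have h4 := Tab.Vh_lt O.near hγ (pr8 k)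
    rw [Sch.γ, O.pr, sub_sub_cancel_left, norm_neg, norm_div, norm_pow, lt_div_iff₀ p] at h4
    exact h4

end Pool.Agent.MP_c434f6_gt.H30

end

section

/-! The oracle lists of the two surfaces (units `2⁻⁶⁴`). -/

namespace Pool.Agent.MP_c434f6_gt.H16

def oN : Bool → Fin 8 → List (ℤ × ℤ) := fun j => bif j then
  ![[(-133766836752001334514, -1171387609975450279), (18198132995353367467, -18561391784119627725), (1289784776488876782, 3528836037839202342), (-272244055150868033, 787037101957078098), (-265255903331430718, 260862555788587733), (-167832831683725034, 38027244370257365), (-73941355413650337, -26721950546648783), (-22120580919831103, -28319333123418432), (-1611491699409339, -16350329289549312), (3362165773586313, -6715305589626079), (2939891918733292, -1774845182462874), (1569847325563519, 30629896427548), (599733617793640, 394924933623489), (135709249842502, 299060641352035), (-20425944556998, 148828400202032), (-44196310152153, 52624844368273), (-29941716094197, 9598061118956),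 (-13934611123485, -3582296561762), (-4524312085015, -4784135452384), (-586934020153, -2956228796050), (492940708683, -1288699110157), (505095894929, -379448995972), (288301419460, -24071097902), (117685030504, 60899204973), (30823411460, 52295103000), (-776121655, 27802904688), (-7073208561, 10603982879), (-5329307976, 2394937569), (-2653359980, -367682303)],
    [(-7581496953226665144, -1906961332892788983), (861297523995131778, -700797797270033019), (-230231011593938, 63566519853819802), (-1117958288410806, -4847385282375165), (595507102579206, -195370650887411), (67181532986369, 10505671594794), (9139851011781, 4604062096007), (1026286545492, 1181518865201), (76403559748, 223802320447), (-1981391493, 35714164345), (-2303550697, 4894165940)],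
    [(-195671513710732808569, 946754778995268986), (2982958030511005380, -11091895529012496161), (212840613599257796, 164957043220136552), (-1838338405734649, 4456508420849882), (-161324379298039, -286814367801169), (2808626316338, 23410330668373), (740502578291, -1889759257069), (-130856501751, 118180596481), (14619476893, -4043075848)],
    [(-2658046499556818230, -691357189712704688), (60526218434242065, -88736079744466418), (5759075352315554, 6381005959116487), (-489924123456100, 105793483578353), (8532658116542, -993141890015), (-968965770969, -118578608205), (20504712713, 3574059511)],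
    [(133766836752001334514, -1171387609975450279), (18198132995353367467, 18561391784119627725), (-1289784776488876782, 3528836037839202342), (-272244055150868033, -787037101957078098), (265255903331430718, 260862555788587733), (-167832831683725034, -38027244370257365), (73941355413650337, -26721950546648783), (-22120580919831103, 28319333123418432), (1611491699409339, -16350329289549312), (3362165773586313, 6715305589626079), (-2939891918733292, -1774845182462874), (1569847325563519, -30629896427548), (-599733617793640, 394924933623489), (135709249842502, -299060641352035), (20425944556998, 148828400202032), (-44196310152153, -52624844368273), (29941716094197, 9598061118956), (-13934611123485, 3582296561762), (4524312085015, -4784135452384), (-586934020153, 2956228796050), (-492940708683, -1288699110157), (505095894929, 379448995972), (-288301419460, -24071097902), (117685030504, -60899204973), (-30823411460, 52295103000), (-776121655, -27802904688), (7073208561, 10603982879),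 (-5329307976, -2394937569), (2653359980, -367682303)],
    [(7581496953226665144, -1906961332892788983), (861297523995131778, 700797797270033019), (230231011593938, 63566519853819802), (-1117958288410806, 4847385282375165), (-595507102579206, -195370650887411), (67181532986369, -10505671594794), (-9139851011781, 4604062096007), (1026286545492, -1181518865201), (-76403559748, 223802320447), (-1981391493, -35714164345), (2303550697, 4894165940)],
    [(195671513710732808569, 946754778995268986), (2982958030511005380, 11091895529012496161), (-212840613599257796, 164957043220136552), (-1838338405734649, -4456508420849882), (161324379298039, -286814367801169), (2808626316338, -23410330668373), (-740502578291, -1889759257069), (-130856501751, -118180596481), (-14619476893, -4043075848)],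
    [(2658046499556818230, -691357189712704688), (60526218434242065, 88736079744466418), (-5759075352315554, 6381005959116487), (-489924123456100, -105793483578353), (-8532658116542, -993141890015), (-968965770969, 118578608205), (-20504712713, 3574059511)]]
  else
  ![[(12718079034181156605, 4255319940195359215), (3636588974324704925, 2751141888755786936), (398320256574317962, 1600204555861833026), (-366918225964978119, 802035993874189841), (-329600617857684288, 217636613093893791), (-188904141114710796, -3620411476378127), (-71349454187178896, -49480117422656915), (-14799899679442747, -38000563578354796), (4126598462427076, -18468160169425398), (6408048690505300, -6086847948480776), (4055681658599965, -688801012723487), (1749412419731431, 786955354280167), (472393392218977, 758642865385105), (-14103285643717, 416331396661520), (-113535673264626, 157469781102357), (-84824475650498, 31494320990963), (-41012141232562, -9820397586808), (-13331732600005, -14443689732918), (-1415274207339,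 -9051613295295), (1799764780122, -3872494744273), (1701365354750, -1033058247931), (926876169138, 41029011594), (348406074942, 256198093721), (68561141343, 189566028295), (-22569005221, 91213941716), (-32381843248, 29493581106), (-20189514741, 3038458003), (-8611019672, -4052798713), (-2287448761, -3801072062), (97833062, -2065604876)],
    [(178841778222618110258, 7334320532031714613), (15452219374203379993, -22205504365413819280), (-762081713941669113, -1942254708146655201), (-102294049026983964, -21429040272071691), (-3129880980003990, 2798329548272304), (-18415913316471, 67989309011471), (2415886377099, -7853272386059), (439706406022, -1054116524074), (87863897475, -127791769683), (20049364448, -14776347211), (3812659108, -875555787)],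
    [(4041153172708620461, 895825430154662519), (245399267631752083, -10082297644279578), (4049185041519576, -26144932217156661), (-1571972549075039, 1236196309549654), (163581440326964, -37455169726679), (-14423869631584, -3310111229786), (996195116734, 810581546136), (-46298388468, -100000553872), (-171446199, 9396269216)],
    [(232484317344534041030, -26123693219240356265), (2705999240081364142, -12025420081014232541), (-252137945986641876, -158436469713917135), (-4405309630055964, 2273922391438314), (24703449285631, 100766345210908), (1576791917467, -1704822493574), (-33833838132, 106520583749), (3072350377, -4372050551)],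
    [(-12718079034181156605, 4255319940195359215), (3636588974324704925, -2751141888755786936), (-398320256574317962, 1600204555861833026), (-366918225964978119, -802035993874189841), (329600617857684288, 217636613093893791), (-188904141114710796, 3620411476378127), (71349454187178896, -49480117422656915), (-14799899679442747, 38000563578354796), (-4126598462427076, -18468160169425398), (6408048690505300, 6086847948480776), (-4055681658599965, -688801012723487), (1749412419731431, -786955354280167), (-472393392218977, 758642865385105), (-14103285643717, -416331396661520), (113535673264626, 157469781102357), (-84824475650498, -31494320990963), (41012141232562, -9820397586808), (-13331732600005, 14443689732918), (1415274207339, -9051613295295), (1799764780122, 3872494744273), (-1701365354750, -1033058247931), (926876169138, -41029011594), (-348406074942, 256198093721), (68561141343, -189566028295), (22569005221, 91213941716), (-32381843248, -29493581106), (20189514741, 3038458003),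 (-8611019672, 4052798713), (2287448761, -3801072062), (97833062, 2065604876)],
    [(-178841778222618110258, 7334320532031714613), (15452219374203379993, 22205504365413819280), (762081713941669113, -1942254708146655201), (-102294049026983964, 21429040272071691), (3129880980003990, 2798329548272304), (-18415913316471, -67989309011471), (-2415886377099, -7853272386059), (439706406022, 1054116524074), (-87863897475, -127791769683), (20049364448, 14776347211), (-3812659108, -875555787)],
    [(-4041153172708620461, 895825430154662519), (245399267631752083, 10082297644279578), (-4049185041519576, -26144932217156661), (-1571972549075039, -1236196309549654), (-163581440326964, -37455169726679), (-14423869631584, 3310111229786), (-996195116734, 810581546136), (-46298388468, 100000553872), (171446199, 9396269216)],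
    [(-232484317344534041030, -26123693219240356265), (2705999240081364142, 12025420081014232541), (252137945986641876, -158436469713917135), (-4405309630055964, -2273922391438314), (-24703449285631, 100766345210908), (1576791917467, 1704822493574), (33833838132, 106520583749), (3072350377, 4372050551)]]

def oH : Bool → Fin 8 → List (ℤ × ℤ) := fun j => bif j then
  ![[(-195633429460781696900, 7433129959705544426), (4345786836164496809, -11768583122904974784), (259823870893412671, 283599237270659515), (-7294512363799520, 2679187988967396), (15994064703385, -121772205652812), (1477111658586, 725154148890), (-21003357276, -4093224152)],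
    [(-5327090967665340509, -1415234338794564469), (289339776165731486, -186257531927838865), (871631747891127, 12365638154943562), (-332804785829155, -79003607890236), (-2531016170644, -4941305267051), (-125703577136, -80036579863), (-998939062, -8089297116)],
    [(-2329427286416984982445, 26958737621670175282), (220773969087476813, -7663837261807305821), (12454808905915372, 941320291468246), (-1701454388179, 13476365345422), (-10836319999, -1786155453)],
    [(-505008247029026437, -18083264165993738), (509121390621385, -1551026105010459), (2480471745510, 2101563643097), (-5616525656, 3059812023)],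
    [(195633429460781696900, 7433129959705544426), (4345786836164496809, 11768583122904974784), (-259823870893412671, 283599237270659515), (-7294512363799520, -2679187988967396), (-15994064703385, -121772205652812), (1477111658586, -725154148890), (21003357276, -4093224152)],
    [(5327090967665340509, -1415234338794564469), (289339776165731486, 186257531927838865), (-871631747891127, 12365638154943562), (-332804785829155, 79003607890236), (2531016170644, -4941305267051), (-125703577136, 80036579863), (998939062, -8089297116)],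
    [(2329427286416984982445, 26958737621670175282), (220773969087476813, 7663837261807305821), (-12454808905915372, 941320291468246), (-1701454388179, -13476365345422), (10836319999, -1786155453)],
    [(505008247029026437, -18083264165993738), (509121390621385, 1551026105010459), (-2480471745510, 2101563643097), (-5616525656, -3059812023)]]
  else
  ![[(5327090967665340509, 1415234338794564469), (289339776165731486, -186257531927838865), (-871631747891127, -12365638154943562), (-332804785829155, -79003607890236), (2531016170644, 4941305267051), (-125703577136, -80036579863), (998939062, 8089297116)],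
    [(195633429460781696900, -7433129959705544426), (4345786836164496809, -11768583122904974784), (-259823870893412671, -283599237270659515), (-7294512363799520, 2679187988967396), (-15994064703385, 121772205652812), (1477111658586, 725154148890), (21003357276, 4093224152)],
    [(505008247029026437, 18083264165993738), (509121390621385, -1551026105010459), (-2480471745510, -2101563643097), (-5616525656, 3059812023)],
    [(2329427286416984982445, -26958737621670175282), (220773969087476813, -7663837261807305821), (-12454808905915372, -941320291468246), (-1701454388179, 13476365345422), (10836319999, 1786155453)],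
    [(-5327090967665340509, 1415234338794564469), (289339776165731486, 186257531927838865), (871631747891127, -12365638154943562), (-332804785829155, 79003607890236), (-2531016170644, 4941305267051), (-125703577136, 80036579863), (-998939062, 8089297116)],
    [(-195633429460781696900, -7433129959705544426), (4345786836164496809, 11768583122904974784), (259823870893412671, -283599237270659515), (-7294512363799520, -2679187988967396), (15994064703385, 121772205652812), (1477111658586, -725154148890), (-21003357276, 4093224152)],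
    [(-505008247029026437, 18083264165993738), (509121390621385, 1551026105010459), (2480471745510, -2101563643097), (-5616525656, -3059812023)],
    [(-2329427286416984982445, -26958737621670175282), (220773969087476813, 7663837261807305821), (12454808905915372, -941320291468246), (-1701454388179, -13476365345422), (-10836319999, 1786155453)]]

end Pool.Agent.MP_c434f6_gt.H16

end
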