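import Pool.Agent.MP_c434f6_gt.G4.Arith
import Pool.Agent.MP_c434f6_gt.G4.Prim

/-! The existence certificate: data and checks. -/

open Complex

namespace Pool.Agent.MP_c434f6_gt.H16

open H30 AM

noncomputable def nth {α : Type} (d : α) (l : List α) : ℕ → α :=
  List.rec (motive := fun _ => ℕ → α) (fun _ => d) (fun a _ ih n => Nat.rec a (fun n _ => ih n) n) l

def sn (f : Fin 8 → ℕ) : ℕ :=
  Nat.add (Nat.add (Nat.add (Nat.add (Nat.add (Nat.add (Nat.add (f 0) (f 1)) (f 2)) (f 3)) (f 4))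
    (f 5)) (f 6)) (f 7)

def al (f : Fin 8 → Bool) : Bool :=
  an (f 0) (an (f 1) (an (f 2) (an (f 3) (an (f 4) (an (f 5) (an (f 6) (f 7)))))))

/-- the product by `aa j` -/
noncomputable def mula (j : Bool) (W : Win) (X : AM) : AM :=
  mul W (rat 1 2) (Bool.rec X.mulI.neg X.mulI j)
/-- the product by `bb i j` -/
noncomputable def mulb (i j : Bool) (X : AM) : AM :=
  Bool.rec (Bool.rec X.mulI.neg (ball 0) j) (Bool.rec (ball 0) X.mulI j) i
/-- `exp (bb i j * x)` -/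
noncomputable def exb (i j : Bool) (X : AM) : AM := AM.exp W0 (mulb i j X)
/-- `Eb (bb i j) x` -/
noncomputable def ebM (i j : Bool) (X : AM) : AM :=
  Bool.rec (Bool.rec (exb i j X).mulI X j) (Bool.rec X (exb i j X).mulI.neg j) i

structure Cert where
  T : Tab
  c0 : D
  c1 : D
  c2 : D
  c3 : D
  k0 : D
  k2 : D
  q : Bool → Fin 8 → List D
  Y : Bool → Bool → Fin 8 → List D
  B : Bool → Bool → Fin 8 → D
  y : Fin 8 → Fin 8 → ℤ × ℤ
  W1 : Fin 8 → Win
  W2 : Fin 8 → Win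
  n1 : Fin 8 → ℕ
  n2 : Fin 8 → ℕ
  η : Bool → ℕ
  eG : Fin 8 → ℕ
  σ : ℕ
  o : Bool → Fin 8 → List (ℤ × ℤ)
  eo : ℕ

namespace Cert

variable (C : Cert)

noncomputable def cD (k : Fin 8) : D :=
  nth [] [C.c0, C.c1, C.c2, C.c3, C.c0.nc, C.c1.nc, C.c2.nc, C.c3.nc] k.val
noncomputable def kD (k : Fin 8) : D :=
  nth [] [C.k0, C.k0.ng, C.k2, C.k2.ng, C.k0.nc, C.k0.nc.ng, C.k2.nc, C.k2.nc.ng] k.val
noncomputable def cF (ε : ℕ → ℝ) (k : Fin 8) : ℂ := dval ε (C.cD k)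
noncomputable def kF (ε : ℕ → ℝ) (k : Fin 8) : ℂ := dval ε (C.kD k)
noncomputable def ℓ (k l : Fin 8) : ℂ := gz 128 (C.y k l)
noncomputable def dat (ε : ℕ → ℝ) : Dat2 (Fin 8) := C.T.dat C.ℓ (C.cF ε) (C.kF ε)
/-- the approximate principal parts -/
noncomputable def Q (ε : ℕ → ℝ) (j : Bool) (l : Fin 8) (z : ℂ) : ℂ :=
  (C.dat ε).r l / (z - C.cF ε l) * ev ((C.q j l).map (dval ε)) ((C.dat ε).r l / (z - C.cF ε l))

noncomputable def cM (k : Fin 8) : AM := sc (C.cD k)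
noncomputable def kM (k : Fin 8) : AM := sc (C.kD k)
def rM (k : Fin 8) : AM := rat (C.T.r k) 65536
def ρM (k : Fin 8) : AM := rat (C.T.ρ k) 65536
noncomputable def qM (j : Bool) (l : Fin 8) : List AM := mp sc (C.q j l)
/-- `r m / (d + x)` -/
noncomputable def uM (W : Win) (n : ℕ) (m : Fin 8) (d x : AM) : AM :=
  mul W (C.rM m) (inv W (add d x) d n)

/-! The residual on the circle `ζ = c l + r l * t`; there `γ l ζ = c (pr l) + lam * t⁻¹`. -/

noncomputable def lam (l : Fin 8) : AM :=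
  neg (mul W0 (mul W0 (C.kM l) (C.kM l)) (rat 65536 (C.T.r l)))
/-- `Q j (pr l) (γ l ζ)` -/
noncomputable def own (j : Bool) (l : Fin 8) : AM :=
  qv (C.W1 l) (mulT 1 (mul W0 (C.rM (pr8 l)) (inv W0 (C.lam l) (C.lam l) 1))) (C.qM j (pr8 l))
/-- `∑ m, Q j m (γ l ζ)` -/
noncomputable def sumT (j : Bool) (l : Fin 8) : AM := sm fun m =>
  Bool.rec (qv (C.W1 l) (C.uM (C.W1 l) (C.n1 l) m (sub (C.cM (pr8 l)) (C.cM m)) (mulS 1 (C.lam l)))
    (C.qM j m)) (C.own j l) (Nat.beq m.val (pr8 l).val)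
/-- `T (aa j) (Q j) l ζ` -/
noncomputable def tM (j : Bool) (l : Fin 8) : AM :=
  mul (C.W1 l) (AM.exp (C.W1 l) (neg (mulT 1 (mula j W0 (C.rM l)))))
    (mul (C.W1 l) (mulS 1 (mul W0 (AM.exp W0 (mula j W0 (sub (C.cM (pr8 l)) (C.cM l))))
        (mul W0 (C.kM l) (rat 65536 (C.T.r l)))))
      (sub (mul (C.W1 l) (AM.exp (C.W1 l) (mulS 1 (mula j W0 (C.lam l)))) (add one (C.sumT j l)))
        (C.own j l)))
noncomputable def res1 (j : Bool) (l : Fin 8) : Bool :=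
  ele (sub (mulS 1 (ser (C.qM j l)).1) (C.tM j l)) (Nat.mul (C.η j) (C.T.w j l))
noncomputable def resOK (l : Fin 8) : Bool := an (C.res1 true l) (C.res1 false l)

/-! The products of two spinors on the circle `ζ = c k + ρ k * t`. -/

/-- bound for `f - (1 + ∑ Q)` outside the discs of radii `ρ` -/
def dl (j : Bool) : ℕ := sn fun m => Nat.succ (Nat.div
  (Nat.mul (Nat.mul 8 (C.η j)) (Nat.mul (C.T.w j m) (C.T.r m)))
  (Nat.mul (Nat.sub 8 C.T.L) (Nat.sub (C.T.ρ m) (C.T.r m))))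
/-- `1 + ∑ m, Q j m ζ` -/
noncomputable def fM0 (j : Bool) (k : Fin 8) : AM := add one (sm fun m =>
  Bool.rec (qv (C.W2 k) (C.uM (C.W2 k) (C.n2 k) m (sub (C.cM k) (C.cM m)) (mulT 1 (C.ρM k)))
    (C.qM j m)) (qv (C.W2 k) (mulS 1 (rat (C.T.r k) (C.T.ρ k))) (C.qM j k)) (Nat.beq m.val k.val))
/-- `f (aa j) ζ` -/
noncomputable def fM (j : Bool) (k : Fin 8) : AM := wid (C.fM0 j k) (C.dl j) true
noncomputable def YM (i j : Bool) (l : Fin 8) : List AM := mp sc (C.Y i j l)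
noncomputable def g2 (i j : Bool) (k : Fin 8) (S : AM × AM) : Bool :=
  ele (sub (sub (mul (C.W2 k) (C.fM i k) (C.fM j k))
    (sub (mulb i j (mul (C.W2 k) (C.ρM k) S.1)) (mulS 2 S.2))) (mulS 1 (sc (C.B i j k)))) (C.eG k)
/-- the witness is `Y x = x * ev (C.Y i j k) x` -/
noncomputable def g1 (i j : Bool) (k : Fin 8) : Bool := C.g2 i j k (ser (ball 0 :: C.YM i j k))
noncomputable def gOK (k : Fin 8) : Bool :=
  an (C.g1 true false k) (an (C.g1 true true k) (C.g1 false false k))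

/-! The periods. -/

noncomputable def w0M (k : Fin 8) : AM := neg (gi 80 (C.T.κ k))
noncomputable def z1M (k : Fin 8) : AM := add (C.cM k) (C.w0M k)
noncomputable def z2M (k : Fin 8) : AM :=
  sub (C.cM (pr8 k)) (mul W0 (mul W0 (C.kM k) (C.kM k)) (inv W0 (C.w0M k) (C.w0M k) 1))
noncomputable def a1 (k l : Fin 8) : AM := sub (C.z1M k) (C.cM l)
noncomputable def a2 (k l : Fin 8) : AM := sub (C.z2M k) (C.cM l)
noncomputable def i0 (A : AM) : AM := inv W0 A A 1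
/-- `(z2 - c l) / (z1 - c l) * exp (-ℓ) - 1` -/
noncomputable def xM (k l : Fin 8) : AM :=
  sub (mul W0 (mul W0 (C.a2 k l) (i0 (C.a1 k l))) (AM.exp W0 (neg (gi 0 (C.y k l))))) one
noncomputable def LM (k l : Fin 8) : AM := add (gi 0 (C.y k l)) (lg (C.xM k l))
/-- `exp (b z) * (ρ * Y (ρ / (z - c l)))` -/
noncomputable def yM (i j : Bool) (l : Fin 8) (Z A : AM) : AM :=
  mul W0 (exb i j Z) (mul W0 (C.ρM l) (qv W0 (mul W0 (C.ρM l) (i0 A)) (C.YM i j l)))
/-- `ρ * B * exp (b c)` -/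
noncomputable def b0 (i j : Bool) (l : Fin 8) : AM :=
  mul W0 (mul W0 (C.ρM l) (sc (C.B i j l))) (exb i j (C.cM l))
noncomputable def βM (i j : Bool) (l : Fin 8) : AM :=
  wid (C.b0 i j l) (Nat.succ (Nat.shiftRight (Nat.mul (Nat.mul (C.T.ρ l) (C.eG l))
    (Nat.mul 2 (exb i j (C.cM l)).nrm)) 144)) (an (exb i j (C.cM l)).ok (Nat.ble (C.T.ρ l) 32768))
/-- `2 ^ 256` times a bound of the kernel -/
noncomputable def kn (Ec E1 E2 A1 A2 R L : AM) : ℕ :=
  Nat.mul (Nat.add (Nat.add (Nat.mul 2 Ec.nrm) E1.nrm) E2.nrm)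
    (Nat.add (Nat.add (Nat.mul 2 (Nat.add (Nat.add A1.nrm A2.nrm) R.nrm))
      1020847100762815390390123822295304634368) L.nrm)
noncomputable def ulM (i j : Bool) (k l : Fin 8) : AM :=
  wid (add (sub (C.yM i j l (C.z2M k) (C.a2 k l)) (C.yM i j l (C.z1M k) (C.a1 k l)))
      (mul W0 (C.b0 i j l) (add (sub (ein W0 (mulb i j (C.a2 k l))) (ein W0 (mulb i j (C.a1 k l))))
        (C.LM k l))))
    (Nat.succ (Nat.shiftRight (Nat.mul (Nat.mul (C.T.ρ l) (C.eG l))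
      (kn (exb i j (C.cM l)) (exb i j (C.z1M k)) (exb i j (C.z2M k)) (C.a1 k l) (C.a2 k l) (C.ρM l)
        (C.LM k l))) 272))
    (an (an (an (exb i j (C.cM l)).ok (exb i j (C.z1M k)).ok) (an (exb i j (C.z2M k)).ok
      (C.LM k l).ok)) (an (an (C.a1 k l).ok (C.a2 k l).ok) (Nat.ble (C.T.ρ l) 32768)))
noncomputable def UM (i j : Bool) (k : Fin 8) : AM :=
  add (sub (ebM i j (C.z2M k)) (ebM i j (C.z1M k))) (sm (C.ulM i j k))
noncomputable def e1 (A : AM) (n : ℕ) : Bool := rle (sub A (un n C.σ)) C.σ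
/-- the six equations at the neck `k`, with the numbers `n, …, n + 5` -/
noncomputable def eqOK (k : Fin 8) (n : ℕ) : Bool :=
  an (an (C.e1 (C.βM true false k).mulI n)
      (an (C.e1 (add (C.βM true true k) (C.βM false false k)) (Nat.add n 1))
        (C.e1 (sub (C.βM true true k) (C.βM false false k)).mulI (Nat.add n 2))))
    (an (C.e1 (C.UM true false k) (Nat.add n 3))
      (an (C.e1 (sub (C.UM false false k) (C.UM true true k)) (Nat.add n 4))
        (C.e1 (add (C.UM true true k) (C.UM false false k)).mulI (Nat.add n 5))))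
noncomputable def slOK (k : Fin 8) : Bool :=
  al fun l => nle (C.xM k l) 170141183460469231731687303715884105728
noncomputable def nearOK : Bool := al fun k =>
  an (nle (sub (C.cM k) (gi 80 (C.T.c k))) 309485009821345068724781056)
    (nle (sub (C.kM k) (gi 80 (C.T.κ k))) 309485009821345068724781056)
noncomputable def orc1 (j : Bool) : Bool :=
  nle (wid (sm fun l => odif (C.o j l) (C.qM j l)) (C.dl j) true) C.eo
/-- the cheap checks -/
noncomputable def smallOK : Bool :=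
  an (an (C.slOK 0) (C.slOK 2)) (an C.nearOK (an (an (C.orc1 true) (C.orc1 false))
    (an (Nat.ble 1 C.σ) (al fun k => an (Nat.beq (C.T.r (tau8 k)) (C.T.r k))
      (Nat.beq (C.T.ρ (tau8 k)) (C.T.ρ k))))))

end Cert

end Pool.Agent.MP_c434f6_gt.H16
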