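import Pool.Agent.MP_c434f6_gt.G4.Arith
import Pool.Agent.MP_c434f6_gt.G4.Prim
import Pool.Agent.MP_c434f6_gt.G4.Ana
import Pool.Agent.MP_c434f6_gt.G4.CertD
import Pool.Agent.MP_c434f6_gt.G4.Asm

section

/-! Soundness of the Horner schemes and of the comparisons of affine models. -/

open Complex

set_option exponentiation.threshold 400

namespace Pool.Agent.MP_c434f6_gt.H16

open H30

theorem norm_ev_le (zs : List ℂ) {u : ℂ} (hu : ‖u‖ ≤ 1) : ‖ev zs u‖ ≤ (zs.map norm).sum := by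
  induction zs with
  | nil => simp [ev]
  | cons z l ih =>
    rw [ev, List.map_cons, List.sum_cons]
    exact norm_add_le_of_le le_rfl ((norm_mul_le_of_le hu ih).trans_eq (one_mul _))

theorem Pk.const {L ν : ℕ} {Z : ℤ} {φ : ℂ → ℂ} (h : Pk L Z ν φ) (hL : L ≤ 1) (t : ℂ) : φ t = Z := by
  obtain ⟨c, h1, -, h3⟩ := h
  obtain rfl | rfl : L = 0 ∨ L = 1 := by omega
  all_goals simp [h1, h3]

theorem P.Rep.re_le {p : P} {Φ : ℂ → ℂ} (h : p.Rep Φ) (ho : p.o + Nat.pred p.L = 0) {t : ℂ}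
    (ht : ‖t‖ = 1) : |(Φ t).re| ≤ p.re.m := by
  obtain ⟨a, b, φ, ψ, h1, h2, -, h4⟩ := h
  rw [Nat.pred_eq_sub_one] at ho
  rw [h4 t ht, h1.const (by omega), h2.const (by omega), show p.o = 0 by omega]
  simpa using (show ((|p.re.val| : ℤ) : ℝ) = p.re.m by rw [SM.abs_val]; simp).le

theorem LRep.re_le {l : List P} {ε : ℕ → ℝ} {F : ℂ → ℂ} (hε : ∀ n, |ε n| ≤ 1) (h : LRep l ε F)
    (ho : lsc l = 0) {t : ℂ} (ht : ‖t‖ = 1) : |(F t).re| ≤ lre l := by
  induction l generalizing ε F with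
  | nil => simp [h t ht]
  | cons p l ih =>
    obtain ⟨Φ, H, h1, h2, h3⟩ := h
    have e : p.o + Nat.pred p.L + lsc l = 0 := ho
    rw [h3 t ht, show lre (p :: l) = p.re.m + lre l from rfl, Nat.cast_add, add_re, re_ofReal_mul]
    refine (abs_add_le _ _).trans (add_le_add ?_ (ih (fun n => hε _) h2 (by omega)))
    rw [abs_mul]
    exact (mul_le_of_le_one_left (abs_nonneg _) (hε 0)).trans (h1.re_le (by omega) ht)

theorem val_ofInt30 (a : ℤ) (k : ℕ) : (ofInt a k).val = a * 2 ^ k := by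
  cases a with
  | ofNat n =>
    show ((Nat.shiftLeft n k : ℕ) : ℤ) = _
    rw [show Nat.shiftLeft n k = n * 2 ^ k from Nat.shiftLeft_eq _ _]
    simp
  | negSucc n =>
    show -((Nat.shiftLeft (n + 1) k : ℕ) : ℤ) = _
    rw [show Nat.shiftLeft (n + 1) k = (n + 1) * 2 ^ k from Nat.shiftLeft_eq _ _, Int.negSucc_eq]
    push_cast
    ring

namespace AM

variable {ε : ℕ → ℝ} {A U X : AM} {f u x : ℂ → ℂ} {cs : List AM} {zs : List ℂ} {n : ℕ}

theorem rep_gi64 (a : ℤ × ℤ) : (gi 64 a).Rep ε fun _ => gz 64 a :=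
  (rep_cst _ _).congr fun _ _ => by
    rw [val_ofInt30, val_ofInt30, gz]
    push_cast
    field_simp
    norm_num

theorem Rep.tg (hε : ∀ n, |ε n| ≤ 1) (h : A.Rep ε f) : (tg A).Rep ε f :=
  (h.mul hε _ rep_one).congr fun _ _ => (mul_one _).symm

theorem CR.tl_le (hε : ∀ n, |ε n| ≤ 1) (hc : CR ε cs zs) (ok : (tl cs).ok = true) :
    (tl cs).a = P.zero ∧ (tl cs).l = [] ∧ 2 ^ 128 * (zs.map norm).sum ≤ (tl cs).e := by
  induction hc with
  | nil => exact ⟨rfl, rfl, by simp⟩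
  | @cons c z cs zs h _ ih =>
    obtain ⟨o1, o2⟩ := an_iff.1 (show an (tl cs).ok c.ok = true from ok)
    obtain ⟨h1, h2, h3⟩ := ih o1
    refine ⟨h1, h2, ?_⟩
    rw [show (tl (c :: cs)).e = (tl cs).e + c.nrm from rfl, List.map_cons, List.sum_cons,
      Nat.cast_add, mul_add, add_comm]
    exact add_le_add h3 (h.norm_le hε o2 (t := 1) norm_one)

theorem CR.tl (hε : ∀ n, |ε n| ≤ 1) (hc : CR ε cs zs)
    (hf : ∀ t, ‖t‖ = 1 → ‖f t‖ ≤ (zs.map norm).sum) : (tl cs).Rep ε f := fun ok => by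
  obtain ⟨h1, h2, h3⟩ := hc.tl_le hε ok
  refine ⟨_, fun _ => 0, h1 ▸ P.rep_zero, h2 ▸ fun _ _ => rfl, fun t ht => ?_⟩
  rw [add_zero, sub_zero, norm_sc]
  exact (mul_le_mul_of_nonneg_left (hf t ht) (by positivity)).trans h3

theorem Rep.hor (hε : ∀ n, |ε n| ≤ 1) (W : Win) (h : U.Rep ε u) (hu : ∀ t, ‖t‖ = 1 → ‖u t‖ ≤ 1)
    (hc : CR ε cs zs) (n : ℕ) : (hor W U cs n).Rep ε fun t => ev zs (u t) := by
  induction hc generalizing n with
  | nil => exact rep_ball fun _ _ => by simp [ev]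
  | @cons c z cs zs h1 h2 ih =>
    cases n with
    | zero => exact CR.tl hε (List.Forall₂.cons h1 h2) fun t ht => norm_ev_le _ (hu t ht)
    | succ n =>
      rw [show AM.hor W U (c :: cs) (n + 1) = hstep W U c (AM.hor W U cs n) from rfl, hstep, fc_eq]
      exact h1.add (h.mul hε W (ih n))

theorem Rep.horn (hε : ∀ n, |ε n| ≤ 1) (W : Win) (h : U.Rep ε u) (hc : CR ε cs zs) (n : ℕ) :
    (horn W U cs n).Rep ε fun t => ev zs (u t) := by
  rw [AM.horn, fc_eq]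
  intro ok
  have o2 := (an_iff.1 ok).2
  rw [le1, an_iff, Nat.ble_eq] at o2
  refine (h.hor hε W (fun t ht => ?_) hc n).wid (fun _ _ _ _ => by simp) ok
  have h1 := h.norm_le hε o2.1 ht
  have h2 : (U.nrm : ℝ) ≤ 2 ^ 128 := by exact_mod_cast o2.2
  exact le_of_mul_le_mul_left (h1.trans (h2.trans_eq (mul_one _).symm)) (by positivity)

theorem Rep.qv (hε : ∀ n, |ε n| ≤ 1) (W : Win) (h : U.Rep ε u) (hc : CR ε cs zs) :
    (qv W U cs).Rep ε fun t => u t * ev zs (u t) := h.mul hε W (h.horn hε W hc _)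

theorem CR.ser (hc : CR ε cs zs) :
    (ser cs).1.Rep ε (fun t => ev zs t⁻¹) ∧ (ser cs).2.Rep ε fun t => dv zs t⁻¹ := by
  induction hc with
  | nil => exact ⟨rep_ball fun _ _ => by simp [ev], rep_ball fun _ _ => by simp [dv]⟩
  | @cons c z cs zs h1 _ ih =>
    exact ⟨(h1.add (ih.1.mulS 1)).congr fun _ _ => by rw [ev, pow_one],
      (ih.1.add (ih.2.mulS 1)).congr fun _ _ => by rw [dv, pow_one]⟩

theorem Rep.nle (hε : ∀ n, |ε n| ≤ 1) (h : A.Rep ε f) (hn : nle A n = true) {t : ℂ}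
    (ht : ‖t‖ = 1) : 2 ^ 128 * ‖f t‖ ≤ n := by
  rw [AM.nle, an_iff, Nat.ble_eq] at hn
  exact ((h.tg hε).norm_le hε hn.1 ht).trans (by exact_mod_cast hn.2)

theorem Rep.rle (hε : ∀ n, |ε n| ≤ 1) {z : ℂ} (h : A.Rep ε fun _ => z) (hn : rle A n = true) :
    2 ^ 128 * |z.re| ≤ n := by
  rw [AM.rle, an_iff, an_iff, Nat.ble_eq, Nat.beq_eq] at hn
  obtain ⟨ok, h0, hn⟩ := hn
  obtain ⟨Φ, F, h1, h2, h3⟩ := h ok
  have e : A.a.o + Nat.pred A.a.L + lsc A.l = 0 := h0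
  have b : ((A.a.re.m + lre A.l + A.e : ℕ) : ℝ) ≤ n := by exact_mod_cast hn
  have b1 := h1.re_le (by omega) (t := 1) norm_one
  have b2 := h2.re_le hε (by omega) (t := 1) norm_one
  have b3 := (abs_re_le_norm _).trans (h3 1 norm_one)
  have e2 : (2 ^ 128 * z - (Φ 1 + F 1)).re = 2 ^ 128 * z.re - ((Φ 1).re + (F 1).re) := by
    rw [show (2 : ℂ) ^ 128 = ((2 ^ 128 : ℝ) : ℂ) by push_cast; rfl, sub_re, re_ofReal_mul, add_re]
  rw [e2] at b3
  push_cast at b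
  rw [← abs_of_pos (show (0 : ℝ) < 2 ^ 128 by positivity), ← abs_mul]
  rw [abs_le] at b1 b2 b3 ⊢
  constructor <;> linarith [b1.1, b1.2, b2.1, b2.2, b3.1, b3.2]

theorem Rep.ele (hε : ∀ n, |ε n| ≤ 1) (h : A.Rep ε f) (hn : ele A n = true) :
    ∃ g, Differentiable ℂ g ∧ ∀ t : ℂ, ‖t‖ = 1 → 2 ^ 128 * ‖f t - g t‖ ≤ n := by
  rw [AM.ele, ele2, an_iff, an_iff, Nat.ble_eq, Nat.beq_eq] at hn
  obtain ⟨g, g1, g2⟩ := (h.mul hε _ rep_one).ent hn.1 hn.2.1
  exact ⟨g, g1, fun t ht => by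
    simpa only [mul_one] using (g2 t ht).trans (by exact_mod_cast hn.2.2)⟩

theorem CR.odif (hε : ∀ n, |ε n| ≤ 1) (hc : CR ε cs zs) (l : List (ℤ × ℤ)) {v : ℂ} (hv : ‖v‖ ≤ 1) :
    (odif l cs).Rep ε fun _ => v * ev zs v - hq l v := by
  induction l generalizing cs zs with
  | nil =>
    refine hc.tl hε fun _ _ => ?_
    rw [hq, sub_zero]
    exact (norm_mul_le_of_le hv (norm_ev_le _ hv)).trans_eq (one_mul _)
  | cons a l ih =>
    cases hc with
    | nil =>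
      refine CR.tl hε (.cons (rep_gi64 a) (.cons (ih .nil) .nil)) fun _ _ => ?_
      simp only [ev, hq, mul_zero, zero_sub, norm_neg, List.map_cons, List.sum_cons, List.map_nil,
        List.sum_nil, add_zero]
      exact (norm_mul_le_of_le hv (norm_add_le _ _)).trans_eq (one_mul _)
    | @cons c z cs zs h1 h2 =>
      refine CR.tl hε (.cons ((h1.sub (rep_gi64 a)).tg hε) (.cons (ih h2) .nil)) fun _ _ => ?_
      simp only [List.map_cons, List.sum_cons, List.map_nil, List.sum_nil, add_zero]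
      rw [ev, hq, show v * (z + v * ev zs v) - v * (gz 64 a + hq l v) =
        v * ((z - gz 64 a) + (v * ev zs v - hq l v)) by ring]
      exact (norm_mul_le_of_le hv (norm_add_le _ _)).trans_eq (one_mul _)

end AM

end Pool.Agent.MP_c434f6_gt.H16

end

section

/-! Soundness of the data of the affine models. -/

open Complex
open scoped ComplexConjugate

set_option exponentiation.threshold 400

namespace Pool.Agent.MP_c434f6_gt.H16

open H30

theorem hasDerivAt_ev (zs : List ℂ) (u : ℂ) : HasDerivAt (ev zs) (dv zs u) u := by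
  induction zs with
  | nil => exact hasDerivAt_const u 0
  | cons z l ih =>
    exact (((hasDerivAt_id u).fun_mul ih).const_add z).congr_deriv (by simp [dv])

theorem dec_xor (n : ℕ) : (dec (n ^^^ 1)).val = -(dec n).val := by
  have e : ∀ n, (dec n).val = bif Nat.beq (n % 2) 1 then ((n / 2 : ℕ) : ℤ) else -((n / 2 : ℕ) : ℤ) :=
    fun n => by rw [← Nat.and_one_is_mod, ← Nat.shiftRight_one]; rfl
  have h1 : (n ^^^ 1) / 2 = n / 2 := by simp [Nat.xor_div_two]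
  have h2 : (n ^^^ 1) % 2 = (n + 1) % 2 := Nat.xor_mod_two_eq
  rw [e, e, h1, h2]
  rcases Nat.mod_two_eq_zero_or_one n with h | h
  · rw [h, show (n + 1) % 2 = 1 by omega]; exact (neg_neg _).symm
  · rw [h, show (n + 1) % 2 = 0 by omega]; rfl

theorem lv_mp {g : ℕ × ℕ → ℕ × ℕ} {φ : ℂ →+ ℂ} (h : ∀ x, gv (g x) = φ (gv x))
    (h' : ∀ (r : ℝ) z, φ (r * z) = r * φ z) (l : D) (ε : ℕ → ℝ) : lv (mp g l) ε = φ (lv l ε) := by
  induction l generalizing ε with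
  | nil => exact φ.map_zero.symm
  | cons x l ih =>
    show ε 0 * gv (g x) + lv (mp g l) _ = φ (ε 0 * gv x + lv l _)
    rw [ih, h, φ.map_add, h']

theorem dval_mp {g : ℕ × ℕ → ℕ × ℕ} {φ : ℂ →+ ℂ} (h : ∀ x, gv (g x) = φ (gv x))
    (h' : ∀ (r : ℝ) z, φ (r * z) = r * φ z) (ε : ℕ → ℝ) (d : D) :
    dval ε (mp g d) = φ (dval ε d) := by
  cases d with
  | nil => exact φ.map_zero.symm
  | cons x l =>
    show (gv (g x) + lv (mp g l) ε) / 2 ^ 128 = φ ((gv x + lv l ε) / 2 ^ 128)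
    have e : ∀ z : ℂ, z / 2 ^ 128 = ((2 ^ 128 : ℝ)⁻¹ : ℝ) * z := fun z => by push_cast; ring
    rw [lv_mp h h', h, e, e, h', φ.map_add]

theorem dval_ng (ε : ℕ → ℝ) (d : D) : dval ε d.ng = -dval ε d :=
  dval_mp (φ := -AddMonoidHom.id ℂ) (fun x => by simp [gv, dec_xor]; ring) (fun r z => by simp) ε d

theorem dval_nc (ε : ℕ → ℝ) (d : D) : dval ε d.nc = -conj (dval ε d) :=
  dval_mp (φ := -(starRingEnd ℂ : ℂ →+ ℂ)) (fun x => by simp [gv, dec_xor]; ring)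
    (fun r z => by simp) ε d

theorem lv_cont {X : Type} [TopologicalSpace X] (l : D) {e : X → ℕ → ℝ}
    (he : ∀ n, Continuous (e · n)) : Continuous fun x => lv l (e x) := by
  induction l generalizing e with
  | nil => exact continuous_const
  | cons y l ih =>
    exact ((continuous_ofReal.comp (he 0)).mul continuous_const).add
      (ih (e := fun x n => e x (n + 1)) fun n => he (n + 1))

theorem dval_cont {X : Type} [TopologicalSpace X] {e : X → ℕ → ℝ} (he : ∀ n, Continuous (e · n))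
    (d : D) : Continuous fun x => dval (e x) d := by
  cases d with
  | nil => exact continuous_const
  | cons y l => exact (continuous_const.add (lv_cont l he)).div_const _

theorem ofInt_val (a : ℤ) (k : ℕ) : (ofInt a k).val = a * 2 ^ k := by
  cases a with
  | ofNat n =>
    show ((n <<< k : ℕ) : ℤ) = _
    rw [Nat.shiftLeft_eq]; simp
  | negSucc n =>
    show -(((n + 1) <<< k : ℕ) : ℤ) = _
    rw [Nat.shiftLeft_eq, Int.negSucc_eq]; push_cast; ring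

namespace AM

variable {ε : ℕ → ℝ} {A U X : AM} {f u x : ℂ → ℂ} {cs : List AM} {zs : List ℂ} {n : ℕ}

theorem lrep_sc (l : D) (ε : ℕ → ℝ) : LRep (mp scP l) ε fun _ => lv l ε := by
  induction l generalizing ε with
  | nil => exact fun _ _ => rfl
  | cons y l ih => exact ⟨_, _, P.rep_cst _ _, ih _, fun _ _ => rfl⟩

theorem rep_sc (d : D) : (sc d).Rep ε fun _ => dval ε d := by
  cases d with
  | nil => exact rep_ball fun _ _ => by simp [dval]
  | cons y l =>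
    refine fun _ => ⟨_, _, P.rep_cst _ _, lrep_sc l ε, fun _ _ => ?_⟩
    show ‖2 ^ 128 * ((gv y + lv l ε) / 2 ^ 128) - (gv y + lv l ε)‖ ≤ ((0 : ℕ) : ℝ)
    rw [mul_div_cancel₀ _ (by norm_num)]; simp

theorem cr_sc (l : List D) : CR ε (mp sc l) (l.map (dval ε)) := by
  induction l with
  | nil => exact List.Forall₂.nil
  | cons d l ih => exact List.Forall₂.cons (rep_sc d) ih

theorem rep_gi {k s : ℕ} (h : k + s = 128) (a : ℤ × ℤ) : (gi k a).Rep ε fun _ => gz s a :=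
  (rep_cst _ _).congr fun _ _ => by
    rw [ofInt_val, ofInt_val, gz, ← h, pow_add]
    push_cast
    field_simp

theorem lrep_un (i σ : ℕ) (ε : ℕ → ℝ) : LRep (un i σ).l ε fun _ => σ * ε i := by
  induction i generalizing ε with
  | zero => exact ⟨_, fun _ => 0, P.rep_cst _ _, fun _ _ => rfl, fun _ _ => by simp [SM.val]; ring⟩
  | succ i ih => exact ⟨_, _, P.rep_zero, ih _, fun _ _ => by simp⟩

theorem rep_un (i σ : ℕ) : (un i σ).Rep ε fun _ => σ * ε i / 2 ^ 128 :=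
  fun _ => ⟨_, _, P.rep_zero, lrep_un i σ ε, fun _ _ => by
    rw [mul_div_cancel₀ _ (by norm_num)]; simp⟩

theorem rep_sm {F : Fin 8 → AM} {g : Fin 8 → ℂ → ℂ} (h : ∀ l, (F l).Rep ε (g l)) :
    (sm F).Rep ε fun t => ∑ l, g l t :=
  ((((((((h 0).add (h 1)).add (h 2)).add (h 3)).add (h 4)).add (h 5)).add (h 6)).add (h 7)).congr
    fun _ _ => Fin.sum_univ_eight _

end AM

end Pool.Agent.MP_c434f6_gt.H16

end

section

/-! Soundness of the inverse, `exp`, `Ein` and `log` on affine models. -/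

open Complex
open scoped Nat

set_option exponentiation.threshold 400

namespace Pool.Agent.MP_c434f6_gt.H16

open H30

namespace F45

open AM

variable {ε : ℕ → ℝ} {X Y E : AM} {x y : ℂ → ℂ}

lemma le_shr {x : ℝ} {n : ℕ} (k : ℕ) (h : 2 ^ k * x ≤ n) :
    x ≤ (Nat.succ (Nat.shiftRight n k) : ℕ) := by
  have h1 : n < 2 ^ k * (n / 2 ^ k + 1) := Nat.lt_mul_div_succ n (by positivity)
  have h2 : (n : ℝ) ≤ 2 ^ k * ((n / 2 ^ k + 1 : ℕ) : ℝ) := by exact_mod_cast h1.le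
  rw [show Nat.shiftRight n k = n / 2 ^ k from Nat.shiftRight_eq_div_pow _ _]
  exact le_of_mul_le_mul_left (h.trans h2) (by positivity)

lemma le_div {a b : ℕ} (hb : 0 < b) : (a : ℝ) / b ≤ (Nat.succ (Nat.div a b) : ℕ) := by
  rw [div_le_iff₀ (by exact_mod_cast hb), mul_comm]
  exact_mod_cast (Nat.lt_mul_div_succ a hb).le

lemma tg_rep (hε : ∀ n, |ε n| ≤ 1) (h : X.Rep ε x) : (tg X).Rep ε x :=
  (h.mul hε _ rep_one).congr fun _ _ => (mul_one _).symm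

lemma half (hε : ∀ n, |ε n| ≤ 1) (h : X.Rep ε x) (ok : X.ok = true)
    (hb : Nat.ble X.nrm 170141183460469231731687303715884105728 = true) {t : ℂ} (ht : ‖t‖ = 1) :
    ‖x t‖ ≤ 1 / 2 := by
  have h1 := h.norm_le hε ok ht
  have h2 : (X.nrm : ℝ) ≤ 170141183460469231731687303715884105728 := by
    exact_mod_cast Nat.le_of_ble_eq_true hb
  linarith

lemma inv2_rep (hε : ∀ n, |ε n| ≤ 1) (hY : Y.Rep ε y) (hE : E.Rep ε fun t => 1 - x t * y t) :
    (inv2 Y E).Rep ε fun t => (x t)⁻¹ := by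
  refine hY.wid fun ok hb t ht => le_shr 127 ?_
  obtain ⟨o1, o2⟩ := an_iff.1 hb
  have h1 := half hε hE o1 o2 ht
  have h2 := hE.norm_le hε o1 ht
  have h3 := hY.norm_le hε ok ht
  generalize x t = a at *
  generalize y t = b at *
  have h0 : a ≠ 0 := by
    rintro rfl
    norm_num at h1
  have e1 : a⁻¹ - b = a⁻¹ * (1 - a * b) := by field_simp
  have h4 : ‖a⁻¹‖ ≤ 2 * ‖b‖ := by
    have := norm_sub_norm_le a⁻¹ b
    rw [e1, norm_mul] at this
    nlinarith [norm_nonneg a⁻¹]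
  have h5 := mul_le_mul h3 h2 (by positivity) (Nat.cast_nonneg _)
  rw [Nat.mul_eq, Nat.cast_mul, e1, norm_mul]
  nlinarith [norm_nonneg (1 - a * b)]

lemma cr_tb {f : ℕ → AM} {z : ℕ → ℂ} (h : ∀ j, (f j).Rep ε fun _ => z j) (n : ℕ) :
    ∀ j, CR ε (tb f n j) (tb z n j) := by
  induction n with
  | zero => exact fun _ => List.Forall₂.nil
  | succ n ih => exact fun j => List.Forall₂.cons (h j) (ih _)

lemma ev_tb (z : ℕ → ℂ) (u : ℂ) (n : ℕ) :
    ∀ j, ev (tb z n j) u = ∑ i ∈ Finset.range n, z (j + i) * u ^ i := by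
  induction n with
  | zero => exact fun _ => rfl
  | succ n ih =>
    intro j
    change z j + u * ev (tb z n (j + 1)) u = _
    rw [ih, Finset.sum_range_succ', Finset.mul_sum, add_comm, pow_zero, mul_one, add_zero]
    congr 1
    exact Finset.sum_congr rfl fun i _ => by rw [add_right_comm j 1 i, add_assoc]; ring

lemma ps3_rep (hε : ∀ n, |ε n| ≤ 1) (W : Win) {g : ℕ → ℕ} {F : ℂ → ℂ}
    (H : ∀ (w : ℂ) (n : ℕ), 0 < n → 2 * ‖w‖ ≤ n →
      ‖F w - ∑ j ∈ Finset.range n, w ^ j / g j‖ ≤ 2 * ‖w‖ ^ n / n !)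
    (h : X.Rep ε x) {p : ℕ} (hp : 0 < p) (n : ℕ) : (ps3 W g X p n).Rep ε fun t => F (x t) := by
  have hU := h.mul hε W (rep_rat 8 p)
  refine (hU.horn hε W (cr_tb (fun j => rep_rat _ _) n 0) n).wid fun ok hb t ht => ?_
  have p0 : (0 : ℝ) < p := by exact_mod_cast hp
  have p1 : (p : ℂ) ≠ 0 := by exact_mod_cast hp.ne'
  have hb' : p ≤ 4 * n := Nat.le_of_ble_eq_true hb
  have hb2 : (p : ℝ) ≤ 4 * n := by exact_mod_cast hb'
  rw [horn, fc_eq] at ok
  obtain ⟨o1, o2⟩ := an_iff.1 (an_iff.1 ok).2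
  have h1 := hU.norm_le hε o1 ht
  have h2 : (((mul W X (rat 8 p)).nrm : ℕ) : ℝ) ≤ 340282366920938463463374607431768211456 := by
    exact_mod_cast Nat.le_of_ble_eq_true o2
  have h3 : ‖x t‖ ≤ p / 8 := by
    have h4 : ‖x t * ((8 : ℕ) / p)‖ ≤ 1 := by linarith
    rw [norm_mul, norm_div, Complex.norm_natCast, Complex.norm_natCast, ← mul_div_assoc,
      div_le_one p0] at h4
    push_cast at h4
    linarith
  have e : ∀ a k : ℕ, Nat.shiftLeft a k = a * 2 ^ k := fun a k => Nat.shiftLeft_eq a k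
  have h5 : ev (tb (fun j => ((Nat.pow p j : ℕ) : ℂ) / (Nat.shiftLeft (g j) (Nat.mul 3 j) : ℕ)) n 0)
      (x t * ((8 : ℕ) / p)) = ∑ j ∈ Finset.range n, x t ^ j / g j := by
    rw [ev_tb]
    refine Finset.sum_congr rfl fun j _ => ?_
    rw [zero_add, e, Nat.pow_eq, Nat.mul_eq, pow_mul, mul_pow, div_pow]
    push_cast
    rw [div_eq_mul_inv (x t ^ j), div_eq_mul_inv _ (_ * _), mul_inv]
    generalize ((g j : ℂ))⁻¹ = c
    field_simp
  rw [h5]
  refine le_trans ?_ (le_div (by rw [e]; positivity))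
  refine (mul_le_mul_of_nonneg_left ((H _ n (by omega) (by linarith)).trans
    (b := 2 * ‖x t‖ ^ n / n !) (c := 2 * (p / 8) ^ n / n !) (by gcongr)) (by positivity)).trans_eq ?_
  rw [e, e, Nat.pow_eq, Nat.mul_eq, pow_mul, div_pow]
  push_cast
  field_simp
  norm_num

lemma ps_rep (hε : ∀ n, |ε n| ≤ 1) (W : Win) {g : ℕ → ℕ} {F : ℂ → ℂ}
    (H : ∀ (w : ℂ) (n : ℕ), 0 < n → 2 * ‖w‖ ≤ n →
      ‖F w - ∑ j ∈ Finset.range n, w ^ j / g j‖ ≤ 2 * ‖w‖ ^ n / n !)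
    (h : X.Rep ε x) : (ps W g X).Rep ε fun t => F (x t) := by
  rw [ps, ps1, fc_eq]
  exact ps3_rep hε W H (tg_rep hε h) (Nat.succ_pos _) _

end F45

namespace AM

open F45

variable {ε : ℕ → ℝ} {X : AM} {x : ℂ → ℂ}

theorem Rep.inv (hε : ∀ n, |ε n| ≤ 1) (W : Win) (h : X.Rep ε x) (A : AM) (n : ℕ) :
    (inv W X A n).Rep ε fun t => (x t)⁻¹ := by
  obtain ⟨y, hy⟩ : ∃ y, AM.Rep ε (Nat.rec (rcp A) (fun _ ih => nw W X ih) n) y := by
    induction n with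
    | zero => exact ⟨_, rep_cst _ _⟩
    | succ n ih =>
      obtain ⟨y, hy⟩ := ih
      change ∃ y, AM.Rep ε (nw2 _) y
      rw [nw2, fc_eq]
      exact (hy.mul hε W ((rep_one.add rep_one).sub (h.mul hε W hy))).strip
  exact inv2_rep hε hy (tg_rep hε (rep_one.sub (h.mul hε W hy)))

theorem Rep.exp (hε : ∀ n, |ε n| ≤ 1) (W : Win) (h : X.Rep ε x) :
    (exp W X).Rep ε fun t => Complex.exp (x t) := by
  refine ps_rep hε W (fun w n _ hw => (exp_bound' ?_).trans_eq (by ring)) h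
  rw [div_le_iff₀ (by positivity)]
  push_cast
  linarith

theorem Rep.ein (hε : ∀ n, |ε n| ≤ 1) (W : Win) (h : X.Rep ε x) :
    (ein W X).Rep ε fun t => Ein (x t) := by
  refine ps_rep hε W (fun w n hn hw => ?_) h
  obtain ⟨n, rfl⟩ := Nat.exists_eq_succ_of_ne_zero hn.ne'
  have := Ein_tail' (w := w) (n := n) (by exact_mod_cast hw)
  rw [Finset.sum_range_succ']
  simpa using this

theorem Rep.lg (hε : ∀ n, |ε n| ≤ 1) (h : X.Rep ε x) :
    (lg X).Rep ε fun t => log (1 + x t) := by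
  have h0 := tg_rep hε h
  refine h0.wid fun ok hb t ht => le_shr 128 ?_
  have h1 := half hε h0 ok hb ht
  have h2 := h0.norm_le hε ok ht
  have h3 := norm_log_one_add_sub_self_le (z := x t) (by linarith)
  have h4 : (1 - ‖x t‖)⁻¹ ≤ 2 := by
    rw [inv_le_comm₀ (by linarith) (by norm_num)]
    linarith
  have h5 := mul_le_mul h2 h2 (by positivity) (Nat.cast_nonneg _)
  rw [Nat.mul_eq, Nat.cast_mul]
  nlinarith [mul_le_mul_of_nonneg_left h4 (sq_nonneg ‖x t‖)]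

end AM

end Pool.Agent.MP_c434f6_gt.H16

end

section

/-! Soundness of the functions on affine models: see the imported files. -/

end

section

/-! Soundness of the existence certificate: the fixed point, the residues and the periods. -/

open Complex Metric Set Filter Topology

set_option exponentiation.threshold 400

namespace Pool.Agent.MP_c434f6_gt.H16.Cert

open H30 AM

variable {C : Cert} {ε : ℕ → ℝ}

namespace A45

variable {X D : AM} {x y : ℂ → ℂ}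

lemma le_shr {x : ℝ} {n : ℕ} (k : ℕ) (h : 2 ^ k * x ≤ n) :
    x ≤ (Nat.succ (Nat.shiftRight n k) : ℕ) := by
  have h1 : n < 2 ^ k * (n / 2 ^ k + 1) := Nat.lt_mul_div_succ n (by positivity)
  have h2 : (n : ℝ) ≤ 2 ^ k * ((n / 2 ^ k + 1 : ℕ) : ℝ) := by exact_mod_cast h1.le
  rw [show Nat.shiftRight n k = n / 2 ^ k from Nat.shiftRight_eq_div_pow _ _]
  exact le_of_mul_le_mul_left (h.trans h2) (by positivity)

lemma le_div {a b : ℕ} (hb : 0 < b) : (a : ℝ) / b ≤ (Nat.succ (Nat.div a b) : ℕ) := by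
  rw [div_le_iff₀ (by exact_mod_cast hb), mul_comm]
  exact_mod_cast (Nat.lt_mul_div_succ a hb).le

lemma sn_cast (f : Fin 8 → ℕ) : (sn f : ℝ) = ∑ l, (f l : ℝ) := by
  rw [Fin.sum_univ_eight]
  simp only [sn, Nat.add_eq, Nat.cast_add]

lemma al_ok {f : Fin 8 → Bool} (h : al f = true) (l : Fin 8) : f l = true := by
  simp only [al, an_iff] at h
  fin_cases l <;> tauto

lemma mula_rep (hε : ∀ n, |ε n| ≤ 1) (j : Bool) (W : Win) (h : X.Rep ε x) :
    (mula j W X).Rep ε fun t => aa j * x t := by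
  cases j
  · exact ((rep_rat 1 2).mul hε W h.mulI.neg).congr fun t _ => by simp only [aa]; push_cast; ring
  · exact ((rep_rat 1 2).mul hε W h.mulI).congr fun t _ => by simp only [aa]; push_cast; ring

lemma mulb_rep (i j : Bool) (h : X.Rep ε x) : (mulb i j X).Rep ε fun t => bb i j * x t := by
  cases i <;> cases j
  · exact h.mulI.neg.congr fun t _ => by simp only [bb, aa]; ring
  · exact rep_ball fun t _ => by simp [bb, aa]
  · exact rep_ball fun t _ => by simp [bb, aa]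
  · exact h.mulI.congr fun t _ => by simp only [bb, aa]; ring

lemma exb_rep (hε : ∀ n, |ε n| ≤ 1) (i j : Bool) (h : X.Rep ε x) :
    (exb i j X).Rep ε fun t => cexp (bb i j * x t) := (mulb_rep i j h).exp hε W0

lemma ebM_rep (hε : ∀ n, |ε n| ≤ 1) (i j : Bool) (h : X.Rep ε x) :
    (ebM i j X).Rep ε fun t => Eb (bb i j) (x t) := by
  have e1 : bb false false = -I := by simp only [bb, aa]; ring
  have e2 : bb true true = I := by simp only [bb, aa]; ring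
  cases i <;> cases j
  · exact (exb_rep hε false false h).mulI.congr fun t _ => by
      rw [Eb, if_neg (by simp [e1]), e1, div_neg, div_I]; ring
  · exact h.congr fun t _ => by simp [Eb, bb, aa]
  · exact h.congr fun t _ => by simp [Eb, bb, aa]
  · exact (exb_rep hε true true h).mulI.neg.congr fun t _ => by
      rw [Eb, if_neg (by simp [e2]), e2, div_I]; ring

lemma norm_bb (i j : Bool) : ‖bb i j‖ ≤ 1 := by
  refine (norm_add_le _ _).trans ?_
  cases i <;> cases j <;> simp [aa] <;> norm_num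

lemma cM_rep (k : Fin 8) : (C.cM k).Rep ε fun _ => (C.dat ε).c k := rep_sc _

lemma kM_rep (k : Fin 8) : (C.kM k).Rep ε fun _ => (C.dat ε).κ k := rep_sc _

lemma rM_rep (k : Fin 8) : (C.rM k).Rep ε fun _ => (C.dat ε).r k :=
  (rep_rat _ _).congr fun _ _ => by simp only [dat, Tab.dat]; push_cast; ring

lemma ρM_rep (k : Fin 8) : (C.ρM k).Rep ε fun _ => (C.dat ε).ρ k :=
  (rep_rat _ _).congr fun _ _ => by simp only [dat, Tab.dat]; push_cast; ring

lemma ri_rep (k : Fin 8) : (rat 65536 (C.T.r k)).Rep ε fun _ => ((C.dat ε).r k : ℂ)⁻¹ :=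
  (rep_rat _ _).congr fun _ _ => by simp only [dat, Tab.dat]; push_cast; rw [inv_div]; norm_num

/-- a model of `r m / (z - c m)` gives a model of `Q j m z` -/
lemma Q_rep (hε : ∀ n, |ε n| ≤ 1) (W : Win) (j : Bool) (m : Fin 8) {z : ℂ → ℂ} (h : X.Rep ε x)
    (e : ∀ t, ‖t‖ = 1 → (C.dat ε).r m / (z t - (C.dat ε).c m) = x t) :
    (qv W X (C.qM j m)).Rep ε fun t => C.Q ε j m (z t) :=
  (h.qv hε W (cr_sc (C.q j m))).congr fun t ht => by rw [← e t ht]; rfl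

lemma uM_rep (hε : ∀ n, |ε n| ≤ 1) (W : Win) (n : ℕ) (m : Fin 8) (hD : D.Rep ε y)
    (h : X.Rep ε x) : (C.uM W n m D X).Rep ε fun t => (C.dat ε).r m * (y t + x t)⁻¹ :=
  (rM_rep m).mul hε W ((hD.add h).inv hε W D n)

/-- the number `-κ² / r` -/
noncomputable def lamF (d : Dat2 (Fin 8)) (l : Fin 8) : ℂ := -(d.κ l * d.κ l * (d.r l : ℂ)⁻¹)

lemma lam_rep (hε : ∀ n, |ε n| ≤ 1) (l : Fin 8) : (C.lam l).Rep ε fun _ => lamF (C.dat ε) l :=
  (((kM_rep l).mul hε W0 (kM_rep l)).mul hε W0 (ri_rep l)).neg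

lemma γ_eq (d : Dat2 (Fin 8)) (l : Fin 8) (t : ℂ) :
    d.γ l (d.c l + d.r l * t) = d.c (d.pr l) + t⁻¹ * lamF d l := by
  rw [Dat.γ, lamF, add_sub_cancel_left, div_eq_mul_inv, mul_inv]
  ring

lemma own_rep (hε : ∀ n, |ε n| ≤ 1) (j : Bool) (l : Fin 8) : (C.own j l).Rep ε fun t =>
    C.Q ε j (pr8 l) ((C.dat ε).γ l ((C.dat ε).c l + (C.dat ε).r l * t)) :=
  Q_rep hε _ j _ (((rM_rep _).mul hε W0 ((lam_rep hε l).inv hε W0 _ 1)).mulT 1) fun t _ => by
    rw [γ_eq]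
    change _ / (_ + _ - (C.dat ε).c ((C.dat ε).pr l)) = _
    rw [add_sub_cancel_left, div_eq_mul_inv, mul_inv, inv_inv]
    ring

lemma sumT_rep (hε : ∀ n, |ε n| ≤ 1) (j : Bool) (l : Fin 8) : (C.sumT j l).Rep ε fun t =>
    ∑ m, C.Q ε j m ((C.dat ε).γ l ((C.dat ε).c l + (C.dat ε).r l * t)) := by
  refine rep_sm (g := fun m t => C.Q ε j m _) fun m => ?_
  cases e : Nat.beq m.val (pr8 l).val
  · refine Q_rep hε _ j m (uM_rep hε _ _ m ((cM_rep _).sub (cM_rep m)) ((lam_rep hε l).mulS 1))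
      fun t _ => ?_
    rw [γ_eq, div_eq_mul_inv, pow_one, add_sub_right_comm]
    rfl
  · obtain rfl : m = pr8 l := Fin.ext (Nat.eq_of_beq_eq_true e)
    exact own_rep hε j l

lemma tM_rep (hε : ∀ n, |ε n| ≤ 1) (j : Bool) (l : Fin 8) : (C.tM j l).Rep ε fun t =>
    (C.dat ε).T (aa j) (C.Q ε j) l ((C.dat ε).c l + (C.dat ε).r l * t) := by
  refine ((((mula_rep hε j W0 (rM_rep l)).mulT 1).neg.exp hε _).mul hε _
    (((((mula_rep hε j W0 ((cM_rep (pr8 l)).sub (cM_rep l))).exp hε W0).mul hε W0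
      ((kM_rep l).mul hε W0 (ri_rep l))).mulS 1).mul hε _
      ((((((mula_rep hε j W0 (lam_rep hε l)).mulS 1).exp hε _).mul hε _
        (rep_one.add (sumT_rep hε j l)))).sub (own_rep hε j l)))).congr fun t _ => ?_
  have e1 : cexp (-(aa j * ((C.dat ε).c l + (C.dat ε).r l * t))) * cexp (aa j * (C.dat ε).c (pr8 l))
      = cexp (-(t ^ 1 * (aa j * (C.dat ε).r l))) *
        cexp (aa j * ((C.dat ε).c (pr8 l) - (C.dat ε).c l)) := by
    rw [← exp_add, ← exp_add]; congr 1; ring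
  have e2 : cexp (aa j * (C.dat ε).γ l ((C.dat ε).c l + (C.dat ε).r l * t)) =
      cexp (aa j * (C.dat ε).c (pr8 l)) * cexp (t⁻¹ ^ 1 * (aa j * lamF (C.dat ε) l)) := by
    rw [← exp_add, γ_eq]; congr 1
    change _ * ((C.dat ε).c (pr8 l) + _) = _
    ring
  rw [Dat.T, e2, add_sub_cancel_left, div_eq_mul_inv, mul_inv]
  change _ * (_ - cexp (aa j * (C.dat ε).c (pr8 l)) * C.Q ε j (pr8 l) _) = _
  linear_combination ((C.dat ε).κ l * (((C.dat ε).r l : ℂ)⁻¹ * t⁻¹) *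
    (cexp (t⁻¹ ^ 1 * (aa j * lamF (C.dat ε) l)) *
      (1 + ∑ m, C.Q ε j m ((C.dat ε).γ l ((C.dat ε).c l + (C.dat ε).r l * t))) -
      C.Q ε j (pr8 l) ((C.dat ε).γ l ((C.dat ε).c l + (C.dat ε).r l * t)))) * e1

lemma diff_ev (zs : List ℂ) : Differentiable ℂ (ev zs) := fun u =>
  (hasDerivAt_ev zs u).differentiableAt

lemma circ {c ζ : ℂ} {r : ℝ} (hr : 0 < r) (h : ζ ∈ sphere c r) :
    ‖(ζ - c) / r‖ = 1 ∧ c + r * ((ζ - c) / r) = ζ := by
  rw [mem_sphere, dist_eq_norm] at h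
  have : (r : ℂ) ≠ 0 := by exact_mod_cast hr.ne'
  exact ⟨by rw [norm_div, h, norm_real, Real.norm_of_nonneg hr.le, div_self hr.ne'],
    by rw [mul_div_cancel₀ _ this, add_sub_cancel]⟩

lemma bd (hε : ∀ n, |ε n| ≤ 1) (R : C.T.Rough C.ℓ (C.cF ε) (C.kF ε))
    (h : ∀ l, C.resOK l = true) (j : Bool) : (C.dat ε).Bd (fun k => (C.T.w j k : ℝ)) (C.Q ε j)
      ((C.dat ε).Pinf (aa j)) ((C.η j : ℝ) / 2 ^ 128 / (1 - (C.T.L : ℝ) / 8)) := by
  have K : (C.dat ε).Con (aa j) (fun k => (C.T.w j k : ℝ)) ((C.T.L : ℝ) / 8) 64 := R.con j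
  have h1 : ∀ l, C.res1 j l = true := fun l => by
    cases j
    exacts [(an_iff.1 (h l)).2, (an_iff.1 (h l)).1]
  choose g g1 g2 using fun l =>
    (((cr_sc (C.q j l)).ser.1.mulS 1).sub (tM_rep hε j l)).ele hε (h1 l)
  refine K.apost_circle (by positivity) (h := fun l ζ => -g l ((ζ - (C.dat ε).c l) / (C.dat ε).r l))
    (fun l z hz => ?_) (fun l => ?_) (fun l => Differentiable.diffContOnCl ?_) fun l ζ hζ => ?_
  · have h0 : z - C.cF ε l ≠ 0 := norm_pos_iff.1 ((K.r0 l).trans_le hz)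
    have h2 : DifferentiableAt ℂ (fun z => ((C.dat ε).r l : ℂ) / (z - C.cF ε l)) z := by
      fun_prop (disch := assumption)
    exact h2.mul ((diff_ev _ _).comp z h2)
  · have h2 : Tendsto (fun z => ((C.dat ε).r l : ℂ) / (z - C.cF ε l)) (cocompact ℂ) (𝓝 0) := by
      rw [tendsto_zero_iff_norm_tendsto_zero]
      simp only [norm_div]
      exact Tendsto.const_div_atTop
        (by simpa [dist_eq_norm] using tendsto_dist_right_cocompact_atTop (C.cF ε l)) _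
    have h3 := h2.mul (((diff_ev ((C.q j l).map (dval ε))).continuous.tendsto 0).comp h2)
    rwa [zero_mul] at h3
  · have := g1 l
    fun_prop
  · obtain ⟨c1, c2⟩ := circ (K.r0 l) hζ
    have h2 := g2 l _ c1
    rw [c2, inv_div, pow_one] at h2
    rw [div_mul_eq_mul_div, le_div_iff₀' (by positivity)]
    refine le_of_eq_of_le ?_ (h2.trans_eq (Nat.cast_mul _ _))
    congr 2
    change _ + _ - _ = C.Q ε j l ζ - _ - _
    ring

end A45

open A45

/-- the fixed point is close to the approximation -/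
theorem f_near (hε : ∀ n, |ε n| ≤ 1) (R : C.T.Rough C.ℓ (C.cF ε) (C.kF ε))
    (h : ∀ l, C.resOK l = true) (j : Bool) {z : ℂ} (hz : ∀ l, (C.dat ε).ρ l ≤ ‖z - C.cF ε l‖) :
    2 ^ 128 * ‖(C.dat ε).f (aa j) z - (1 + ∑ l, C.Q ε j l z)‖ ≤ C.dl j := by
  have K : (C.dat ε).Con (aa j) (fun k => (C.T.w j k : ℝ)) ((C.T.L : ℝ) / 8) 64 := R.con j
  have G : (C.dat ε).Geo2 := R.geo
  have h1 := (bd hε R h j).f_approx (z := z) fun l => (G.rρ l).trans_le (hz l)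
  refine (mul_le_mul_of_nonneg_left h1 (by positivity)).trans ?_
  rw [dl, sn_cast, ← mul_assoc, Finset.mul_sum]
  refine Finset.sum_le_sum fun l _ => ?_
  have hL : C.T.L < 8 := by
    have := K.L1
    rw [div_lt_one (by norm_num)] at this
    exact_mod_cast this
  have hr : C.T.r l < C.T.ρ l := by
    have : (C.T.r l : ℝ) / 2 ^ 16 < C.T.ρ l / 2 ^ 16 := G.rρ l
    rw [div_lt_div_iff_of_pos_right (by positivity)] at this
    exact_mod_cast this
  refine le_trans ?_ (le_div (Nat.mul_pos (Nat.sub_pos_of_lt hL) (Nat.sub_pos_of_lt hr)))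
  have k1 : (0 : ℝ) < 8 - C.T.L := sub_pos.2 (by exact_mod_cast hL)
  have k2 : (0 : ℝ) < C.T.ρ l - C.T.r l := sub_pos.2 (by exact_mod_cast hr)
  have k3 : (C.T.w j l : ℝ) * (C.dat ε).r l / (‖z - (C.dat ε).c l‖ - (C.dat ε).r l) ≤
      C.T.w j l * (C.dat ε).r l / ((C.dat ε).ρ l - (C.dat ε).r l) :=
    div_le_div_of_nonneg_left (mul_pos (K.w0 l) (K.r0 l)).le (sub_pos.2 (G.rρ l))
      (sub_le_sub_right (hz l) _)
  refine (mul_le_mul_of_nonneg_left k3 (mul_nonneg (by positivity)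
    (div_nonneg (by positivity) (sub_pos.2 K.L1).le))).trans_eq ?_
  simp only [Nat.mul_eq, Nat.sub_eq, dat, Tab.dat]
  rw [Nat.cast_mul _ (_ - _), Nat.cast_sub hL.le, Nat.cast_sub hr.le, ← sub_div,
    show (1 : ℝ) - C.T.L / 8 = (8 - C.T.L) / 8 by ring]
  push_cast
  field_simp

namespace A45

lemma ok (R : C.T.Rough C.ℓ (C.cF ε) (C.kF ε)) : (C.dat ε).Ok := ⟨R.geo, fun j => ⟨_, _, _, R.con j⟩⟩

lemma fM_rep (hε : ∀ n, |ε n| ≤ 1) (R : C.T.Rough C.ℓ (C.cF ε) (C.kF ε))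
    (h : ∀ l, C.resOK l = true) (j : Bool) (k : Fin 8) : (C.fM j k).Rep ε fun t =>
    (C.dat ε).f (aa j) ((C.dat ε).c k + (C.dat ε).ρ k * t) := by
  have G : (C.dat ε).Geo2 := R.geo
  have h0 := (ok R).ρ0 k
  have h1 : (C.fM0 j k).Rep ε fun t => 1 + ∑ m, C.Q ε j m ((C.dat ε).c k + (C.dat ε).ρ k * t) := by
    refine rep_one.add (rep_sm (g := fun m t => C.Q ε j m _) fun m => ?_)
    cases e : Nat.beq m.val k.val
    · refine Q_rep hε _ j m (uM_rep hε _ _ m ((cM_rep _).sub (cM_rep m)) ((ρM_rep k).mulT 1))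
        fun t _ => ?_
      rw [div_eq_mul_inv, pow_one, add_sub_right_comm, mul_comm t]
    · obtain rfl : m = k := Fin.ext (Nat.eq_of_beq_eq_true e)
      refine Q_rep hε _ j m ((rep_rat _ _).mulS 1) fun t _ => ?_
      rw [add_sub_cancel_left, ← div_div, div_eq_mul_inv _ t, pow_one, mul_comm]
      simp only [dat, Tab.dat]
      push_cast
      rw [div_div_div_cancel_right₀ (by norm_num)]
  refine h1.wid fun _ _ t ht => f_near hε R h j fun l => ?_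
  have h2 : ‖((C.dat ε).ρ k : ℂ) * t‖ = (C.dat ε).ρ k := by
    rw [norm_mul, ht, mul_one, norm_real, Real.norm_of_nonneg h0.le]
  change _ ≤ ‖_ - (C.dat ε).c l‖
  by_cases e : l = k
  · rw [e, add_sub_cancel_left, h2]
  · have h3 := norm_sub_le ((C.dat ε).c k + (C.dat ε).ρ k * t - (C.dat ε).c l) ((C.dat ε).ρ k * t)
    rw [h2, sub_right_comm, add_sub_cancel_right] at h3
    linarith [G.disj k l e, G.ρκ k, G.ρκ l]

/-- the witness -/
noncomputable def YF (C : Cert) (ε : ℕ → ℝ) (i j : Bool) (l : Fin 8) : ℂ → ℂ :=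
  ev (0 :: (C.Y i j l).map (dval ε))

lemma wit (hε : ∀ n, |ε n| ≤ 1) (R : C.T.Rough C.ℓ (C.cF ε) (C.kF ε))
    (h : ∀ l, C.resOK l = true) {i j : Bool} {l : Fin 8} (g : C.g1 i j l = true) :
    ∃ g, Differentiable ℂ g ∧ ∀ u : ℂ, ‖u‖ = 1 →
      ‖(C.dat ε).G i j ((C.dat ε).c l + (C.dat ε).ρ l * u) - g u - (bb i j * (C.dat ε).ρ l *
        YF C ε i j l (1 / u) - (u ^ 2)⁻¹ * deriv (YF C ε i j l) (1 / u)) -
        dval ε (C.B i j l) / u‖ ≤ (C.eG l : ℝ) / 2 ^ 128 := by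
  have hc : CR ε (ball 0 :: C.YM i j l) (0 :: (C.Y i j l).map (dval ε)) :=
    List.Forall₂.cons (rep_ball fun _ _ => by simp) (cr_sc _)
  obtain ⟨g, g1, g2⟩ := ((((fM_rep hε R h i l).mul hε _ (fM_rep hε R h j l)).sub
    ((mulb_rep i j ((ρM_rep l).mul hε _ hc.ser.1)).sub (hc.ser.2.mulS 2))).sub
    ((rep_sc (C.B i j l)).mulS 1)).ele hε g
  refine ⟨g, g1, fun u hu => ?_⟩
  rw [le_div_iff₀' (by positivity)]
  refine le_of_eq_of_le ?_ (g2 u hu)
  rw [YF, (hasDerivAt_ev _ _).deriv, Dat2.G, one_div, ← inv_pow]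
  congr 2
  ring

lemma exp_le (R : C.T.Rough C.ℓ (C.cF ε) (C.kF ε)) {l : Fin 8} (h : Nat.ble (C.T.ρ l) 32768 = true)
    (i j : Bool) {ζ : ℂ} (hζ : ζ ∈ sphere ((C.dat ε).c l) ((C.dat ε).ρ l)) :
    ‖cexp (bb i j * ζ)‖ ≤ 2 * ‖cexp (bb i j * (C.dat ε).c l)‖ := by
  rw [mem_sphere, dist_eq_norm] at hζ
  have h1 : (C.T.ρ l : ℝ) ≤ 32768 := by exact_mod_cast Nat.le_of_ble_eq_true h
  have h2 : ‖bb i j * (ζ - (C.dat ε).c l)‖ ≤ 1 / 2 := by
    rw [norm_mul, hζ]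
    refine (mul_le_of_le_one_left ((ok R).ρ0 l).le (norm_bb i j)).trans ?_
    change (C.T.ρ l : ℝ) / 2 ^ 16 ≤ _
    linarith
  have h3 := norm_exp_sub_one_le (h2.trans (by norm_num))
  have h4 := norm_sub_norm_le (cexp (bb i j * (ζ - (C.dat ε).c l))) 1
  rw [show bb i j * ζ = bb i j * (ζ - (C.dat ε).c l) + bb i j * (C.dat ε).c l by ring, exp_add,
    norm_mul]
  rw [norm_one] at h4
  gcongr
  linarith

lemma b0_rep (hε : ∀ n, |ε n| ≤ 1) (i j : Bool) (l : Fin 8) : (C.b0 i j l).Rep ε fun _ =>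
    (C.dat ε).ρ l * dval ε (C.B i j l) * cexp (bb i j * (C.dat ε).c l) :=
  ((ρM_rep l).mul hε W0 (rep_sc _)).mul hε W0 (exb_rep hε i j (cM_rep l))

end A45

theorem rep_β (hε : ∀ n, |ε n| ≤ 1) (R : C.T.Rough C.ℓ (C.cF ε) (C.kF ε))
    (h : ∀ l, C.resOK l = true) {i j : Bool} {l : Fin 8} (g : C.g1 i j l = true) :
    (C.βM i j l).Rep ε fun _ => (C.dat ε).β i j l := by
  obtain ⟨g, g1, g2⟩ := wit hε R h g
  refine (b0_rep hε i j l).wid fun _ hb t ht => le_shr 144 ?_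
  obtain ⟨o1, o2⟩ := an_iff.1 hb
  have h1 := (exb_rep hε i j (cM_rep l)).norm_le hε o1 ht
  have h2 := (ok R).β_wit g1 (diff_ev _) g2 fun ζ hζ => exp_le R o2 i j hζ
  have h3 : (0 : ℝ) ≤ C.T.ρ l * C.eG l := by positivity
  simp only [Nat.mul_eq]
  push_cast
  change _ ≤ (C.T.ρ l : ℝ) / 2 ^ 16 * _ * _ at h2
  nlinarith [mul_le_mul_of_nonneg_left h1 h3]

namespace A45

lemma z1_rep (k : Fin 8) : (C.z1M k).Rep ε fun _ => (C.dat ε).z1 k :=
  (cM_rep k).add (rep_gi (s := 48) rfl _).neg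

lemma z2_rep (hε : ∀ n, |ε n| ≤ 1) (k : Fin 8) : (C.z2M k).Rep ε fun _ => (C.dat ε).z2 k :=
  ((cM_rep (pr8 k)).sub (((kM_rep k).mul hε W0 (kM_rep k)).mul hε W0
    ((rep_gi (s := 48) rfl (C.T.κ k)).neg.inv hε W0 _ 1))).congr fun _ _ => by
    rw [Dat2.z2, pow_two, div_eq_mul_inv]; rfl

lemma a1_rep (k l : Fin 8) : (C.a1 k l).Rep ε fun _ => (C.dat ε).z1 k - (C.dat ε).c l :=
  (z1_rep k).sub (cM_rep l)

lemma a2_rep (hε : ∀ n, |ε n| ≤ 1) (k l : Fin 8) :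
    (C.a2 k l).Rep ε fun _ => (C.dat ε).z2 k - (C.dat ε).c l := (z2_rep hε k).sub (cM_rep l)

lemma xM_rep (hε : ∀ n, |ε n| ≤ 1) (k l : Fin 8) : (C.xM k l).Rep ε fun _ =>
    ((C.dat ε).z2 k - (C.dat ε).c l) / ((C.dat ε).z1 k - (C.dat ε).c l) * cexp (-C.ℓ k l) - 1 :=
  ((((a2_rep hε k l).mul hε W0 ((a1_rep k l).inv hε W0 _ 1)).mul hε W0
    ((rep_gi (s := 128) rfl (C.y k l)).neg.exp hε W0)).sub rep_one).congr fun _ _ => by
    rw [div_eq_mul_inv]; rfl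

lemma LM_rep (hε : ∀ n, |ε n| ≤ 1) (k l : Fin 8) : (C.LM k l).Rep ε fun _ => (C.dat ε).L k l :=
  ((rep_gi (s := 128) rfl (C.y k l)).add ((xM_rep hε k l).lg hε)).congr fun _ _ => by
    rw [add_sub_cancel]; rfl

lemma neck (hε : ∀ n, |ε n| ≤ 1) (R : C.T.Rough C.ℓ (C.cF ε) (C.kF ε)) {k : Fin 8}
    (s : C.slOK k = true) : (C.dat ε).Neck k := by
  refine ⟨R.n1 k, R.n2 k, fun l => ?_⟩
  have := (xM_rep hε k l).nle hε (al_ok s l) (t := 1) norm_one
  push_cast at this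
  change ‖_ / _ * cexp (-C.ℓ k l) - 1‖ ≤ _
  linarith

lemma yM_rep (hε : ∀ n, |ε n| ≤ 1) (i j : Bool) (l : Fin 8) {Z A : AM} {z a : ℂ}
    (hZ : Z.Rep ε fun _ => z) (hA : A.Rep ε fun _ => a) : (C.yM i j l Z A).Rep ε fun _ =>
    cexp (bb i j * z) * ((C.dat ε).ρ l * YF C ε i j l ((C.dat ε).ρ l / a)) :=
  ((exb_rep hε i j hZ).mul hε W0 ((ρM_rep l).mul hε W0 (((ρM_rep l).mul hε W0
    (hA.inv hε W0 A 1)).qv hε W0 (cr_sc (C.Y i j l))))).congr fun _ _ => by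
    rw [YF, ev, zero_add, div_eq_mul_inv]

lemma kn_cast (a b c d e f g : AM) : (kn a b c d e f g : ℝ) =
    (2 * a.nrm + b.nrm + c.nrm) * (2 * (d.nrm + e.nrm + f.nrm) + 3 * 2 ^ 128 + g.nrm) := by
  simp only [kn, Nat.mul_eq, Nat.add_eq]
  push_cast
  norm_num

lemma ul_rep (hε : ∀ n, |ε n| ≤ 1) (R : C.T.Rough C.ℓ (C.cF ε) (C.kF ε))
    (h : ∀ l, C.resOK l = true) {i j : Bool} {l : Fin 8} (g : C.g1 i j l = true) {k : Fin 8}
    (s : C.slOK k = true) : (C.ulM i j k l).Rep ε fun _ => (C.dat ε).Ul i j k l := by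
  obtain ⟨g, g1, g2⟩ := wit hε R h g
  refine (((yM_rep hε i j l (z2_rep hε k) (a2_rep hε k l)).sub
    (yM_rep hε i j l (z1_rep k) (a1_rep k l))).add ((b0_rep hε i j l).mul hε W0
    ((((mulb_rep i j (a2_rep hε k l)).ein hε W0).sub ((mulb_rep i j (a1_rep k l)).ein hε W0)).add
      (LM_rep hε k l)))).wid fun _ hb t ht => le_shr 272 ?_
  simp only [an_iff] at hb
  obtain ⟨⟨⟨o1, o2⟩, o3, o4⟩, ⟨o5, o6⟩, o7⟩ := hb
  have n1 := (exb_rep hε i j (cM_rep l)).norm_le hε o1 ht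
  have n2 := (exb_rep hε i j (z1_rep k)).norm_le hε o2 ht
  have n3 := (exb_rep hε i j (z2_rep hε k)).norm_le hε o3 ht
  have n4 := (LM_rep hε k l).norm_le hε o4 ht
  have n5 := (a1_rep k l).norm_le hε o5 ht
  have n6 := (a2_rep hε k l).norm_le hε o6 ht
  have n7 := (ρM_rep (C := C) l).norm_le hε rfl ht
  rw [norm_real, Real.norm_of_nonneg ((ok R).ρ0 l).le] at n7
  rw [Nat.mul_eq, Nat.mul_eq, Nat.cast_mul, Nat.cast_mul, kn_cast]
  generalize (exb i j (C.cM l)).nrm = e0 at *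
  generalize (exb i j (C.z1M k)).nrm = e1 at *
  generalize (exb i j (C.z2M k)).nrm = e2 at *
  generalize (C.LM k l).nrm = e3 at *
  generalize (C.a1 k l).nrm = e4 at *
  generalize (C.a2 k l).nrm = e5 at *
  generalize (C.ρM l).nrm = e6 at *
  have p0 := e0.cast_nonneg (α := ℝ)
  have p1 := e1.cast_nonneg (α := ℝ)
  have p2 := e2.cast_nonneg (α := ℝ)
  have p4 := e4.cast_nonneg (α := ℝ)
  have p5 := e5.cast_nonneg (α := ℝ)
  have h2 := (neck hε R s).Ul_wit (ok R) g1 (diff_ev _) (by simp [ev]) g2 fun ζ hζ =>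
    (neck hε R s).norm_Kern_le (ok R) (norm_bb i j) hζ (M := (2 * e0 + e1 + e2) / 2 ^ 128)
      (D := (e4 + e5 + e6) / 2 ^ 128) (Λ := e3 / 2 ^ 128)
      (by linarith [exp_le R o7 i j hζ]) (by linarith) (by linarith)
      (by
        have := norm_sub_le_norm_sub_add_norm_sub ((C.dat ε).z1 k) ((C.dat ε).c l) ζ
        rw [norm_sub_rev ((C.dat ε).c l), mem_sphere_iff_norm.1 hζ] at this
        linarith)
      (by
        have := norm_sub_le_norm_sub_add_norm_sub ((C.dat ε).z2 k) ((C.dat ε).c l) ζ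
        rw [norm_sub_rev ((C.dat ε).c l), mem_sphere_iff_norm.1 hζ] at this
        linarith)
      (by linarith)
  refine (mul_le_mul_of_nonneg_left (mul_le_mul_of_nonneg_left h2 (by positivity))
    (by positivity)).trans ?_
  change _ * (_ * ((C.T.ρ l : ℝ) / 2 ^ 16 * _ * _)) ≤ _
  have h3 : (0 : ℝ) ≤ C.T.ρ l * C.eG l * (2 * e0 + e1 + e2) := by positivity
  nlinarith

end A45

theorem rep_U (hε : ∀ n, |ε n| ≤ 1) (R : C.T.Rough C.ℓ (C.cF ε) (C.kF ε))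
    (h : ∀ l, C.resOK l = true) {i j : Bool} (g : ∀ l, C.g1 i j l = true) {k : Fin 8}
    (s : C.slOK k = true) : (C.UM i j k).Rep ε fun _ => (C.dat ε).U i j k :=
  ((ebM_rep hε i j (z2_rep hε k)).sub (ebM_rep hε i j (z1_rep k))).add
    (rep_sm fun l => ul_rep hε R h (g l) s)

end Pool.Agent.MP_c434f6_gt.H16.Cert

end

section

/-! Soundness of the existence certificate. -/

open Complex Metric Set
open scoped ComplexConjugate

set_option exponentiation.threshold 400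

namespace Pool.Agent.MP_c434f6_gt.H16.Cert

open H30 AM

variable {C : Cert} {ε : ℕ → ℝ}

theorem al_iff {f : Fin 8 → Bool} : al f = true ↔ ∀ k, f k = true := by
  simp only [al, an_iff, Fin.forall_fin_succ, IsEmpty.forall_iff, and_true]
  rfl

theorem cF_eq (k : Fin 8) : C.cF ε k = ![dval ε C.c0, dval ε C.c1, dval ε C.c2, dval ε C.c3,
    dval ε C.c0.nc, dval ε C.c1.nc, dval ε C.c2.nc, dval ε C.c3.nc] k := by
  fin_cases k <;> rfl

theorem kF_eq (k : Fin 8) : C.kF ε k = ![dval ε C.k0, dval ε C.k0.ng, dval ε C.k2, dval ε C.k2.ng,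
    dval ε C.k0.nc, dval ε C.k0.nc.ng, dval ε C.k2.nc, dval ε C.k2.nc.ng] k := by
  fin_cases k <;> rfl

theorem kpr (k : Fin 8) : C.kF ε (pr8 k) = -C.kF ε k := by
  simp only [kF_eq, dval_ng]
  fin_cases k <;> simp [pr8]

theorem small_iff : C.smallOK = true ↔ (C.slOK 0 = true ∧ C.slOK 2 = true) ∧ C.nearOK = true ∧
    (C.orc1 true = true ∧ C.orc1 false = true) ∧ 1 ≤ C.σ ∧
      ∀ k, C.T.r (tau8 k) = C.T.r k ∧ C.T.ρ (tau8 k) = C.T.ρ k := by
  simp only [smallOK, an_iff, al_iff, Nat.ble_eq, Nat.beq_eq]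

theorem sym (h : C.smallOK = true) : (C.dat ε).Sym2 tau8 := by
  have h1 := (small_iff.1 h).2.2.2.2
  refine ⟨⟨?_, fun k => ?_, fun k => ?_, fun k => ?_⟩, fun k => ?_⟩
  · show ∀ k, pr8 (tau8 k) = tau8 (pr8 k)
    decide
  · show C.cF ε (tau8 k) = -conj (C.cF ε k)
    simp only [cF_eq, dval_nc]
    fin_cases k <;> simp [tau8]
  · show C.kF ε (tau8 k) = -conj (C.kF ε k)
    simp only [kF_eq, dval_nc, dval_ng]
    fin_cases k <;> simp [tau8]
  · show (C.T.r (tau8 k) : ℝ) / 2 ^ 16 = (C.T.r k : ℝ) / 2 ^ 16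
    rw [(h1 k).1]
  · show (C.T.ρ (tau8 k) : ℝ) / 2 ^ 16 = (C.T.ρ k : ℝ) / 2 ^ 16
    rw [(h1 k).2]

theorem rep_cM (k : Fin 8) : (C.cM k).Rep ε fun _ => C.cF ε k := rep_sc _

theorem rep_kM (k : Fin 8) : (C.kM k).Rep ε fun _ => C.kF ε k := rep_sc _

theorem near (hε : ∀ n, |ε n| ≤ 1) (h : C.smallOK = true) :
    C.T.Near (1 / 2 ^ 40) (C.cF ε) (C.kF ε) := fun k => by
  have h1 := an_iff.1 (al_iff.1 (small_iff.1 h).2.1 k)
  have h2 := ((rep_cM k).sub (rep_gi (s := 48) rfl _)).nle hε h1.1 (t := 1) norm_one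
  have h3 := ((rep_kM k).sub (rep_gi (s := 48) rfl _)).nle hε h1.2 (t := 1) norm_one
  norm_num at h2 h3 ⊢
  constructor <;> linarith

theorem rep_w0M (k : Fin 8) : (C.w0M k).Rep ε fun _ => (C.dat ε).w0 k :=
  (rep_gi (s := 48) rfl _).neg

theorem rep_z1M (k : Fin 8) : (C.z1M k).Rep ε fun _ => (C.dat ε).z1 k :=
  (rep_cM k).add (rep_w0M k)

theorem rep_z2M (hε : ∀ n, |ε n| ≤ 1) (k : Fin 8) : (C.z2M k).Rep ε fun _ => (C.dat ε).z2 k :=
  ((rep_cM _).sub (((rep_kM k).mul hε _ (rep_kM k)).mul hε _ ((rep_w0M k).inv hε _ _ _))).congr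
    fun _ _ => by
      show C.cF ε (pr8 k) - C.kF ε k ^ 2 / (C.dat ε).w0 k = _
      rw [div_eq_mul_inv, sq]

theorem rep_a1 (k l : Fin 8) : (C.a1 k l).Rep ε fun _ => (C.dat ε).z1 k - C.cF ε l :=
  (rep_z1M k).sub (rep_cM l)

theorem rep_a2 (hε : ∀ n, |ε n| ≤ 1) (k l : Fin 8) :
    (C.a2 k l).Rep ε fun _ => (C.dat ε).z2 k - C.cF ε l :=
  (rep_z2M hε k).sub (rep_cM l)

theorem rep_ℓ (k l : Fin 8) : (gi 0 (C.y k l)).Rep ε fun _ => C.ℓ k l := rep_gi (s := 128) rfl _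

theorem rep_xM (hε : ∀ n, |ε n| ≤ 1) (k l : Fin 8) : (C.xM k l).Rep ε fun _ =>
    ((C.dat ε).z2 k - C.cF ε l) / ((C.dat ε).z1 k - C.cF ε l) * exp (-C.ℓ k l) - 1 :=
  (((((rep_a2 hε k l).mul hε _ ((rep_a1 k l).inv hε _ _ _)).mul hε _
    ((rep_ℓ k l).neg.exp hε _))).sub rep_one).congr fun _ _ => by rw [div_eq_mul_inv]

theorem sl (hε : ∀ n, |ε n| ≤ 1) {k : Fin 8} (h : C.slOK k = true) (l : Fin 8) :
    ‖((C.dat ε).z2 k - C.cF ε l) / ((C.dat ε).z1 k - C.cF ε l) * exp (-C.ℓ k l) - 1‖ ≤ 1 / 2 := by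
  have h2 := (rep_xM hε k l).nle hε (al_iff.1 h l) (t := 1) norm_one
  norm_num at h2 ⊢
  linarith

theorem e1_le (hε : ∀ n, |ε n| ≤ 1) {A : AM} {z : ℂ} (h : A.Rep ε fun _ => z) {n : ℕ}
    (e : C.e1 A n = true) : |z.re - (C.σ : ℝ) / 2 ^ 128 * ε n| ≤ (C.σ : ℝ) / 2 ^ 128 := by
  have h1 := (h.sub (rep_un n C.σ)).rle hε e
  have e1 : (z - C.σ * ε n / 2 ^ 128).re = z.re - (C.σ : ℝ) / 2 ^ 128 * ε n := by
    have : (C.σ * ε n / 2 ^ 128 : ℂ) = ((C.σ / 2 ^ 128 * ε n : ℝ) : ℂ) := by push_cast; ring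
    rw [this, sub_re, ofReal_re]
  rw [e1] at h1
  rw [le_div_iff₀ (by positivity), mul_comm]
  exact h1

theorem cert (hε : ∀ n, |ε n| ≤ 1) (R : C.T.Rough C.ℓ (C.cF ε) (C.kF ε))
    (h : ∀ l, C.resOK l = true) (g : ∀ l, C.gOK l = true) {k : Fin 8} (s : C.slOK k = true) {n : ℕ}
    (e : C.eqOK k n = true) (m : Fin 6) :
    |((C.dat ε).eqn k m).re - (C.σ : ℝ) / 2 ^ 128 * ε (n + m)| ≤ (C.σ : ℝ) / 2 ^ 128 := by
  have g' := fun l => (an_iff.1 (g l)).imp_right an_iff.1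
  have b1 := rep_β hε R h (g' k).1
  have b2 := rep_β hε R h (g' k).2.1
  have b3 := rep_β hε R h (g' k).2.2
  have u1 := rep_U hε R h (fun l => (g' l).1) s
  have u2 := rep_U hε R h (fun l => (g' l).2.1) s
  have u3 := rep_U hε R h (fun l => (g' l).2.2) s
  simp only [eqOK, an_iff] at e
  obtain ⟨⟨e0, e1, e2⟩, e3, e4, e5⟩ := e
  fin_cases m
  exacts [e1_le hε b1.mulI e0, e1_le hε (b2.add b3) e1, e1_le hε (b2.sub b3).mulI e2,
    e1_le hε u1 e3, e1_le hε (u3.sub u2) e4, e1_le hε (u2.add u3).mulI e5]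

/-- the extension by zero -/
noncomputable def ext (ε : Fin 12 → ℝ) (n : ℕ) : ℝ := if h : n < 12 then ε ⟨n, h⟩ else 0

theorem ext_le {ε : Fin 12 → ℝ} (h : ‖ε‖ ≤ 1) (n : ℕ) : |ext ε n| ≤ 1 := by
  unfold ext
  split_ifs
  · exact (norm_le_pi_norm ε _).trans h
  · simp

theorem ext_cont (n : ℕ) : Continuous (ext · n) := by
  unfold ext
  split_ifs <;> fun_prop

theorem orc (hε : ∀ n, |ε n| ≤ 1) (R : C.T.Rough C.ℓ (C.cF ε) (C.kF ε))
    (h : ∀ l, C.resOK l = true) {j : Bool} (ho : C.orc1 j = true) {z : ℂ}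
    (hz : ∀ l, (C.T.ρ l : ℝ) / 2 ^ 16 < ‖z - C.cF ε l‖) : ‖(C.dat ε).f (aa j) z -
      (1 + ∑ l, hq (C.o j l) ((C.T.r l : ℂ) / 2 ^ 16 / (z - C.cF ε l)))‖ ≤ (C.eo : ℝ) / 2 ^ 128 := by
  have h1 := f_near hε R h j fun l => (hz l).le
  have er : ∀ l, (((C.dat ε).r l : ℝ) : ℂ) = (C.T.r l : ℂ) / 2 ^ 16 := fun l => by
    show (((C.T.r l : ℝ) / 2 ^ 16 : ℝ) : ℂ) = _
    push_cast; rfl
  have hv : ∀ l, ‖(C.T.r l : ℂ) / 2 ^ 16 / (z - C.cF ε l)‖ ≤ 1 := fun l => by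
    have h2 : (C.dat ε).r l < ‖z - C.cF ε l‖ := (R.geo.rρ l).trans (hz l)
    have h3 : 0 < (C.dat ε).r l := R.geo.r0 l
    rw [← er, norm_div, norm_real, Real.norm_of_nonneg h3.le, div_le_one (h3.trans h2)]
    exact h2.le
  have h2 := rep_sm fun l => (cr_sc (ε := ε) (C.q j l)).odif hε (C.o j l) (hv l)
  have h3 := (h2.wid (e := C.dl j) (b := true) (g := fun _ => (C.dat ε).f (aa j) z -
      (1 + ∑ l, hq (C.o j l) ((C.T.r l : ℂ) / 2 ^ 16 / (z - C.cF ε l)))) fun _ _ t _ => by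
    refine le_of_eq_of_le ?_ h1
    simp only [Q, er, Finset.sum_sub_distrib]
    congr 2
    ring).nle hε ho (t := 1) norm_one
  rw [le_div_iff₀ (by positivity), mul_comm]
  exact h3

/-- The certificate gives a solution of the period problem and the oracle. -/
theorem main (C : Cert)
    (rough : ∀ c κ, C.T.Near (1 / 2 ^ 30) c κ → (∀ k, κ (pr8 k) = -κ k) → C.T.Rough C.ℓ c κ)
    (hT : ∀ k, gz 48 (C.T.κ (pr8 k)) = -gz 48 (C.T.κ k)) (hs : C.smallOK = true)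
    (h : ∀ l, C.resOK l = true) (g : ∀ l, C.gOK l = true) (e0 : C.eqOK 0 0 = true)
    (e2 : C.eqOK 2 6 = true) :
    ∃ c κ, (C.T.dat C.ℓ c κ).Closed tau8 (range Tab.nk) ∧ C.T.Near (1 / 2 ^ 40) c κ ∧
      ∀ j z, (∀ l, (C.T.ρ l : ℝ) / 2 ^ 16 < ‖z - c l‖) → ‖(C.T.dat C.ℓ c κ).f (aa j) z -
        (1 + ∑ l, hq (C.o j l) ((C.T.r l : ℂ) / 2 ^ 16 / (z - c l)))‖ ≤ (C.eo : ℝ) / 2 ^ 128 := by
  have S := small_iff.1 hs
  have N := fun ε hε => near (ε := ext ε) (ext_le hε) hs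
  have R : ∀ ε, ‖ε‖ ≤ 1 → C.T.Rough C.ℓ (C.cF (ext ε)) (C.kF (ext ε)) := fun ε hε =>
    rough _ _ (fun k => ⟨(N ε hε k).1.trans (by norm_num), (N ε hε k).2.trans (by norm_num)⟩) kpr
  have sk : ∀ i, C.slOK (Tab.nk i) = true := fun i => by
    fin_cases i
    exacts [S.1.1, S.1.2]
  have ek : ∀ i : Fin 2, C.eqOK (Tab.nk i) (6 * i) = true := fun i => by
    fin_cases i
    exacts [e0, e2]
  have σ0 : (0 : ℝ) < (C.σ : ℝ) / 2 ^ 128 := by
    have : 0 < C.σ := S.2.2.2.1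
    positivity
  obtain ⟨ε, hε, H⟩ := C.T.exists_closed C.ℓ rough hT (n := Fin 12)
    (finProdFinEquiv (m := 2) (n := 6)).symm (c := fun ε => C.cF (ext ε))
    (κ := fun ε => C.kF (ext ε)) (continuous_pi fun k => dval_cont ext_cont _)
    (continuous_pi fun k => dval_cont ext_cont _)
    (fun ε hε k => ⟨(N ε hε k).1.trans (by norm_num), (N ε hε k).2.trans (by norm_num)⟩)
    (fun _ => kpr) (fun _ => sym hs)
    (fun ε hε i l => (sl (ext_le hε) (sk i) l).trans_lt (by norm_num)) σ0 fun ε hε i => by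
      have h1 := cert (ext_le hε) (R ε hε) h g (sk _)
        (ek ((finProdFinEquiv (m := 2) (n := 6)).symm i).1)
        ((finProdFinEquiv (m := 2) (n := 6)).symm i).2
      have e : ∀ i : Fin 12, 6 * (((finProdFinEquiv (m := 2) (n := 6)).symm i).1 : ℕ) +
          (((finProdFinEquiv (m := 2) (n := 6)).symm i).2 : ℕ) = i := by decide
      rw [e, ext, dif_pos i.2] at h1
      exact h1
  refine ⟨_, _, H, N ε hε, fun j z hz => orc (ext_le hε) (R ε hε) h ?_ hz⟩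
  cases j
  exacts [S.2.2.1.2, S.2.2.1.1]

end Pool.Agent.MP_c434f6_gt.H16.Cert

end
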