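import Pool.Agent.MP_c434f6_gt.G4.DatH

section

/-! Kernel checks of the certificate. -/

namespace Pool.Agent.MP_c434f6_gt.H16

theorem chkH_r0 : certH.resOK 0 = true := by decide +kernel

theorem chkH_r4 : certH.resOK 4 = true := by decide +kernel

theorem chkH_r2 : certH.resOK 2 = true := by decide +kernel

theorem chkH_r6 : certH.resOK 6 = true := by decide +kernel

end Pool.Agent.MP_c434f6_gt.H16

end

section

/-! Kernel checks of the certificate. -/

namespace Pool.Agent.MP_c434f6_gt.H16

theorem chkH_g0 : certH.gOK 0 = true := by decide +kernel

theorem chkH_g4 : certH.gOK 4 = true := by decide +kernel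

theorem chkH_g2 : certH.gOK 2 = true := by decide +kernel

theorem chkH_g6 : certH.gOK 6 = true := by decide +kernel

end Pool.Agent.MP_c434f6_gt.H16

end
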