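import Pool.Agent.MP_c434f6_gt.G4.DatH

/-! Kernel checks of the certificate. -/

namespace Pool.Agent.MP_c434f6_gt.H16

theorem chkH_e2 : certH.eqOK 2 6 = true := by decide +kernel

end Pool.Agent.MP_c434f6_gt.H16
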