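import Pool.Agent.MP_c434f6_gt.G4.DatN

section

/-! Kernel checks of the certificate. -/

namespace Pool.Agent.MP_c434f6_gt.H16

theorem chkN_r0 : certN.resOK 0 = true := by decide +kernel

theorem chkN_r4 : certN.resOK 4 = true := by decide +kernel

theorem chkN_r2 : certN.resOK 2 = true := by decide +kernel

theorem chkN_r6 : certN.resOK 6 = true := by decide +kernel

end Pool.Agent.MP_c434f6_gt.H16

end

section

/-! Kernel checks of the certificate. -/

namespace Pool.Agent.MP_c434f6_gt.H16

theorem chkN_g0 : certN.gOK 0 = true := by decide +kernel

theorem chkN_g4 : certN.gOK 4 = true := by decide +kernel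

theorem chkN_g2 : certN.gOK 2 = true := by decide +kernel

theorem chkN_g6 : certN.gOK 6 = true := by decide +kernel

end Pool.Agent.MP_c434f6_gt.H16

end
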