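import Pool.Agent.MP_c434f6_gt.G4.DatN

section

/-! Kernel checks of the certificate. -/

namespace Pool.Agent.MP_c434f6_gt.H16

theorem chkN_r1 : certN.resOK 1 = true := by decide +kernel

theorem chkN_r5 : certN.resOK 5 = true := by decide +kernel

theorem chkN_r3 : certN.resOK 3 = true := by decide +kernel

theorem chkN_r7 : certN.resOK 7 = true := by decide +kernel

theorem chkN_s : certN.smallOK = true := by decide +kernel

end Pool.Agent.MP_c434f6_gt.H16

end

section

/-! Kernel checks of the certificate. -/

namespace Pool.Agent.MP_c434f6_gt.H16

theorem chkN_g1 : certN.gOK 1 = true := by decide +kernel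

theorem chkN_g5 : certN.gOK 5 = true := by decide +kernel

theorem chkN_g3 : certN.gOK 3 = true := by decide +kernel

theorem chkN_g7 : certN.gOK 7 = true := by decide +kernel

end Pool.Agent.MP_c434f6_gt.H16

end
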