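import Mathlib

/-! Complete embedded minimal surfaces in Euclidean 3-space, as subsets. -/

open Set Filter Topology Metric
open scoped ContDiff RealInnerProductSpace ENNReal

namespace Pool.Agent.MP_c434f6_gt.H30

/-- Euclidean 3-space. -/
abbrev E3 := EuclideanSpace ℝ (Fin 3)

/-- `φ`, a map from the plane `ℂ = ℝ²` with coordinates `u + i v`, is an immersion at `z` with zero
mean curvature there: `G L - 2 F M + E N = 0` for the two fundamental forms `E, F, G` and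
`L, M, N`, the latter taken along a normal vector `n`. -/
def MinimalAt (φ : ℂ → E3) (z : ℂ) : Prop :=
  Function.Injective (fderiv ℝ φ z) ∧ ∀ n : E3, (∀ v, ⟪n, fderiv ℝ φ z v⟫ = 0) →
    ⟪fderiv ℝ φ z .I, fderiv ℝ φ z .I⟫ * ⟪n, fderiv ℝ (fderiv ℝ φ) z 1 1⟫
      - 2 * ⟪fderiv ℝ φ z 1, fderiv ℝ φ z .I⟫ * ⟪n, fderiv ℝ (fderiv ℝ φ) z 1 .I⟫
      + ⟪fderiv ℝ φ z 1, fderiv ℝ φ z 1⟫ * ⟪n, fderiv ℝ (fderiv ℝ φ) z .I .I⟫ = 0

/-- `M` is a smooth embedded surface without boundary and with zero mean curvature: near each of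
its points it is the image of an open plane set under a smooth minimal immersion that is a
topological embedding. -/
def IsMinimalSurface (M : Set E3) : Prop :=
  ∀ p ∈ M, ∃ (U : Set ℂ) (W : Set E3) (φ : ℂ → E3), IsOpen U ∧ IsOpen W ∧ p ∈ W ∧
    φ '' U = M ∩ W ∧ ContDiffOn ℝ ∞ φ U ∧ IsEmbedding (fun z : U => φ z) ∧ ∀ z ∈ U, MinimalAt φ z

/-- The intrinsic distance of `M`: the infimum of the lengths of paths in `M` from `p` to `q`. -/
noncomputable def idist (M : Set E3) (p q : E3) : ℝ≥0∞ :=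
  ⨅ (γ : ℝ → E3) (_ : ContinuousOn γ (Icc 0 1) ∧ MapsTo γ (Icc 0 1) M ∧ γ 0 = p ∧ γ 1 = q),
    eVariationOn γ (Icc 0 1)

/-- Every Cauchy sequence for the intrinsic distance of `M` converges for it. -/
def IsIntrinsicallyComplete (M : Set E3) : Prop :=
  ∀ x : ℕ → E3, (∀ n, x n ∈ M) → (∀ ε > 0, ∃ N, ∀ m ≥ N, ∀ n ≥ N, idist M (x m) (x n) < ε) →
    ∃ p ∈ M, Tendsto (fun n => idist M (x n) p) atTop (𝓝 0)

/-- `M` is homeomorphic to a sphere with `g` handles with one point removed: from the plane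
(the sphere without `∞`) remove `g` pairs of round discs, all disjoint, and glue the two circles
of each pair, of centres `a, b`, by the map `z ↦ w` with `(z - a) (w - b)` constant. -/
def GenusOneEnd (g : ℕ) (M : Set E3) : Prop :=
  ∃ (c : Fin g × Bool → ℂ) (ρ : Fin g → ℝ) (l : Fin g → ℂ), (∀ j, 0 < ρ j ∧ ‖l j‖ = ρ j ^ 2) ∧
    (Pairwise fun k k' => Disjoint (closedBall (c k) (ρ k.1)) (closedBall (c k') (ρ k'.1))) ∧
    Nonempty (M ≃ₜ Quot fun z w : {z : ℂ // ∀ k, z ∉ ball (c k) (ρ k.1)} =>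
      ∃ j, z.1 ∈ sphere (c (j, false)) (ρ j) ∧ (z.1 - c (j, false)) * (w.1 - c (j, true)) = l j)

/-- `M` is a connected, properly embedded (closed), minimal, complete surface of genus `g` with one
end that lies in no plane. -/
def OneEnded (g : ℕ) (M : Set E3) : Prop :=
  IsConnected M ∧ IsClosed M ∧ IsMinimalSurface M ∧ IsIntrinsicallyComplete M ∧
    GenusOneEnd g M ∧ ¬ ∃ (n : E3) (t : ℝ), n ≠ 0 ∧ ∀ p ∈ M, ⟪n, p⟫ = t

/-- A map `x ↦ l A x + b` with `l > 0` and `A` orthogonal carries `M₁` onto `M₂`. -/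
def Similar (M₁ M₂ : Set E3) : Prop :=
  ∃ (l : ℝ) (A : E3 ≃ₗᵢ[ℝ] E3) (b : E3), 0 < l ∧ (fun x => l • A x + b) '' M₁ = M₂

end Pool.Agent.MP_c434f6_gt.H30
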