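import Pool.Agent.MP_c434f6_gt.G4.Cell
import Pool.Agent.MP_c434f6_gt.G4.Prim
import Pool.Agent.MP_c434f6_gt.G4.EmbNa
import Pool.Agent.MP_c434f6_gt.G4.EmbNb
import Pool.Agent.MP_c434f6_gt.G4.EmbHa
import Pool.Agent.MP_c434f6_gt.G4.EmbHb

section

/-! The compact part of the surface is embedded. -/

namespace Pool.Agent.MP_c434f6_gt.H30.Emb

open H16

theorem dqN_ok : DqChk tabN oN ![dqN0, dqN1, dqN2, dqN3, dqN4, dqN5, dqN6, dqN7] := by
  decide +kernel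

theorem dsN_eq : dsN = List.ofFn ![dqN0, dqN1, dqN2, dqN3, dqN4, dqN5, dqN6, dqN7] := by
  simp [dsN, List.ofFn_succ]

theorem riN_ok : dkChk tabN riN := by
  decide +kernel

theorem dkN0_eq : dkN0 = dkOf tabN riN 0 := by
  unfold dkN0 dkOf
  rw [Dk.mk.injEq]
  decide +kernel

theorem dkN1_eq : dkN1 = dkOf tabN riN 1 := by
  unfold dkN1 dkOf
  rw [Dk.mk.injEq]
  decide +kernel

theorem dkN2_eq : dkN2 = dkOf tabN riN 2 := by
  unfold dkN2 dkOf
  rw [Dk.mk.injEq]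
  decide +kernel

theorem dkN3_eq : dkN3 = dkOf tabN riN 3 := by
  unfold dkN3 dkOf
  rw [Dk.mk.injEq]
  decide +kernel

theorem dkN4_eq : dkN4 = dkOf tabN riN 4 := by
  unfold dkN4 dkOf
  rw [Dk.mk.injEq]
  decide +kernel

theorem dkN5_eq : dkN5 = dkOf tabN riN 5 := by
  unfold dkN5 dkOf
  rw [Dk.mk.injEq]
  decide +kernel

theorem dkN6_eq : dkN6 = dkOf tabN riN 6 := by
  unfold dkN6 dkOf
  rw [Dk.mk.injEq]
  decide +kernel

theorem dkN7_eq : dkN7 = dkOf tabN riN 7 := by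
  unfold dkN7 dkOf
  rw [Dk.mk.injEq]
  decide +kernel

theorem embN (S : Sch (Fin 8)) (A : S.Ana) (O : OrcH S tabN oN (1 / 2 ^ 28)) :
    S.Emb (Sch.box 5 3.8) := by
  have he : (2 : ℝ) ^ 64 * (1 / 2 ^ 28) ≤ (68719476736 : ℕ) := by norm_num
  have K := fun {out : List Cl} {ms rs : List ℕ} {st : List Cl}
      (h : chkA dsN 184467440737095 68719476736 out ms rs st = true) (hst : ∀ c ∈ st, Cl.OK S c) =>
    chkA_sound A O dqN_ok he ms rs st hst (dsN_eq ▸ h)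
  have h0 := K aN0 (fun c hc => by
    rw [List.mem_singleton.1 hc]
    simpa using cl0_ok S)
  have h1 := K aN1 h0.2
  have h2 := K aN2 h1.2
  have h3 := K aN3 h2.2
  have h4 := K aN4 h3.2
  have h5 := K aN5 h4.2
  have h6 := K aN6 h5.2
  have h7 := K aN7 h6.2
  have h8 := K aN8 h7.2
  have h9 := K aN9 h8.2
  have h10 := K aN10 h9.2
  have h11 := K aN11 h10.2
  have h12 := K aN12 h11.2
  have h13 := K aN13 h12.2
  have h14 := K aN14 h13.2
  have h15 := K aN15 h14.2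
  have h16 := K aN16 h15.2
  have h17 := K aN17 h16.2
  have h18 := K aN18 h17.2
  refine chkB_sound A O (dkN0_eq ▸ dkOf_ok O riN_ok 0) ?_ ?_ bN (by norm_num) (by norm_num)
    (by norm_num) (by norm_num)
  · simp only [dksN, List.forall_mem_cons]
    exact ⟨dkN0_eq ▸ dkOf_ok O riN_ok 0,
      dkN1_eq ▸ dkOf_ok O riN_ok 1,
      dkN2_eq ▸ dkOf_ok O riN_ok 2,
      dkN3_eq ▸ dkOf_ok O riN_ok 3,
      dkN4_eq ▸ dkOf_ok O riN_ok 4,
      dkN5_eq ▸ dkOf_ok O riN_ok 5,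
      dkN6_eq ▸ dkOf_ok O riN_ok 6,
      dkN7_eq ▸ dkOf_ok O riN_ok 7, fun _ h => (List.not_mem_nil h).elim⟩
  · simp only [List.forall_mem_cons]
    exact ⟨h0.1, h1.1, h2.1, h3.1, h4.1, h5.1, h6.1, h7.1, h8.1, h9.1, h10.1, h11.1, h12.1, h13.1, h14.1, h15.1, h16.1, h17.1, h18.1,
      fun _ h => (List.not_mem_nil h).elim⟩

end Pool.Agent.MP_c434f6_gt.H30.Emb

end

section

/-! The compact part of the surface is embedded. -/

namespace Pool.Agent.MP_c434f6_gt.H30.Emb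

open H16

theorem dqH_ok : DqChk tabH oH ![dqH0, dqH1, dqH2, dqH3, dqH4, dqH5, dqH6, dqH7] := by
  decide +kernel

theorem dsH_eq : dsH = List.ofFn ![dqH0, dqH1, dqH2, dqH3, dqH4, dqH5, dqH6, dqH7] := by
  simp [dsH, List.ofFn_succ]

theorem riH_ok : dkChk tabH riH := by
  decide +kernel

theorem dkH0_eq : dkH0 = dkOf tabH riH 0 := by
  unfold dkH0 dkOf
  rw [Dk.mk.injEq]
  decide +kernel

theorem dkH1_eq : dkH1 = dkOf tabH riH 1 := by
  unfold dkH1 dkOf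
  rw [Dk.mk.injEq]
  decide +kernel

theorem dkH2_eq : dkH2 = dkOf tabH riH 2 := by
  unfold dkH2 dkOf
  rw [Dk.mk.injEq]
  decide +kernel

theorem dkH3_eq : dkH3 = dkOf tabH riH 3 := by
  unfold dkH3 dkOf
  rw [Dk.mk.injEq]
  decide +kernel

theorem dkH4_eq : dkH4 = dkOf tabH riH 4 := by
  unfold dkH4 dkOf
  rw [Dk.mk.injEq]
  decide +kernel

theorem dkH5_eq : dkH5 = dkOf tabH riH 5 := by
  unfold dkH5 dkOf
  rw [Dk.mk.injEq]
  decide +kernel

theorem dkH6_eq : dkH6 = dkOf tabH riH 6 := by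
  unfold dkH6 dkOf
  rw [Dk.mk.injEq]
  decide +kernel

theorem dkH7_eq : dkH7 = dkOf tabH riH 7 := by
  unfold dkH7 dkOf
  rw [Dk.mk.injEq]
  decide +kernel

theorem embH (S : Sch (Fin 8)) (A : S.Ana) (O : OrcH S tabH oH (1 / 2 ^ 23)) :
    S.Emb (Sch.box 3.25 4.8) := by
  have he : (2 : ℝ) ^ 64 * (1 / 2 ^ 23) ≤ (2199023255552 : ℕ) := by norm_num
  have K := fun {out : List Cl} {ms rs : List ℕ} {st : List Cl}
      (h : chkA dsH 55340232221128 2199023255552 out ms rs st = true) (hst : ∀ c ∈ st, Cl.OK S c) =>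
    chkA_sound A O dqH_ok he ms rs st hst (dsH_eq ▸ h)
  have h0 := K aH0 (fun c hc => by
    rw [List.mem_singleton.1 hc]
    simpa using cl0_ok S)
  have h1 := K aH1 h0.2
  have h2 := K aH2 h1.2
  have h3 := K aH3 h2.2
  have h4 := K aH4 h3.2
  have h5 := K aH5 h4.2
  have h6 := K aH6 h5.2
  have h7 := K aH7 h6.2
  have h8 := K aH8 h7.2
  have h9 := K aH9 h8.2
  have h10 := K aH10 h9.2
  have h11 := K aH11 h10.2
  have h12 := K aH12 h11.2
  have h13 := K aH13 h12.2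
  have h14 := K aH14 h13.2
  have h15 := K aH15 h14.2
  have h16 := K aH16 h15.2
  have h17 := K aH17 h16.2
  have h18 := K aH18 h17.2
  have h19 := K aH19 h18.2
  have h20 := K aH20 h19.2
  have h21 := K aH21 h20.2
  refine chkB_sound A O (dkH0_eq ▸ dkOf_ok O riH_ok 0) ?_ ?_ bH (by norm_num) (by norm_num)
    (by norm_num) (by norm_num)
  · simp only [dksH, List.forall_mem_cons]
    exact ⟨dkH0_eq ▸ dkOf_ok O riH_ok 0,
      dkH1_eq ▸ dkOf_ok O riH_ok 1,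
      dkH2_eq ▸ dkOf_ok O riH_ok 2,
      dkH3_eq ▸ dkOf_ok O riH_ok 3,
      dkH4_eq ▸ dkOf_ok O riH_ok 4,
      dkH5_eq ▸ dkOf_ok O riH_ok 5,
      dkH6_eq ▸ dkOf_ok O riH_ok 6,
      dkH7_eq ▸ dkOf_ok O riH_ok 7, fun _ h => (List.not_mem_nil h).elim⟩
  · simp only [List.forall_mem_cons]
    exact ⟨h0.1, h1.1, h2.1, h3.1, h4.1, h5.1, h6.1, h7.1, h8.1, h9.1, h10.1, h11.1, h12.1, h13.1, h14.1, h15.1, h16.1, h17.1, h18.1, h19.1, h20.1, h21.1,
      fun _ h => (List.not_mem_nil h).elim⟩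

end Pool.Agent.MP_c434f6_gt.H30.Emb

end
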