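import Pool.Agent.MP_c434f6_gt.G4.Sch

section

/-! Local geometry of the Weierstrass map. -/

open Set Filter Topology Metric Complex
open scoped ContDiff RealInnerProductSpace ComplexConjugate

namespace Pool.Agent.MP_c434f6_gt.H30

noncomputable def LL : (Fin 3 → ℂ) →L[ℝ] ℂ →L[ℝ] E3 :=
  LinearMap.toContinuousLinearMap (LinearMap.toContinuousLinearMap.toLinearMap ∘ₗ
    LinearMap.mk₂ ℝ (fun (φ : Fin 3 → ℂ) (v : ℂ) => (WithLp.toLp 2 fun j => (φ j * v).re : E3))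
      (fun _ _ _ => by ext j; simp [add_mul]) (fun _ _ _ => by ext j; simp; ring)
      (fun _ _ _ => by ext j; simp [mul_add]) (fun _ _ _ => by ext j; simp; ring))

@[simp] lemma LL_apply (φ : Fin 3 → ℂ) (v : ℂ) (j) : LL φ v j = (φ j * v).re := rfl

lemma inner_LL (n : E3) (φ : Fin 3 → ℂ) (v : ℂ) :
    ⟪n, LL φ v⟫ = ((∑ j, n j * φ j) * v).re := by
  simp [PiLp.inner_apply, Fin.sum_univ_three]; ring

namespace Sch

variable {ι : Type} [Fintype ι] {S : Sch ι}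

noncomputable def φ (S : Sch ι) (z : ℂ) : Fin 3 → ℂ :=
  ![(S.s2 z ^ 2 - S.s1 z ^ 2) / 2, I * (S.s1 z ^ 2 + S.s2 z ^ 2) / 2, S.s1 z * S.s2 z]

lemma Ana.hasFD (A : S.Ana) {z} (hz : z ∈ S.V) : HasFDerivAt S.X (LL (S.φ z)) z := by
  obtain ⟨h1, h2⟩ := A.dh z hz
  obtain ⟨h3, h4⟩ := A.dZ z hz
  rw [← hasFDerivWithinAt_univ, hasFDerivWithinAt_piLp]
  intro j
  rw [hasFDerivWithinAt_univ]
  fin_cases j
  · refine (reCLM.hasFDerivAt.comp z h3.hasFDerivAt).congr_fderiv ?_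
    ext1 v; simp [h4, φ, sq]; ring
  · refine (imCLM.hasFDerivAt.comp z h3.hasFDerivAt).congr_fderiv ?_
    ext1 v; simp [h4, φ, sq]; ring
  · refine h1.hasFDerivAt.congr_fderiv ?_
    ext1 v; simp [h2, φ]

lemma Ana.dφ (A : S.Ana) : DifferentiableOn ℂ S.φ S.V := by
  have := A.d1
  have := A.d2
  refine differentiableOn_pi.2 fun j => ?_
  fin_cases j <;> simp [φ] <;> fun_prop

lemma Ana.smooth (A : S.Ana) : ContDiffOn ℝ ∞ S.X S.V := by
  refine (contDiffOn_infty_iff_fderiv_of_isOpen A.opn).2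
    ⟨fun z hz => (A.hasFD hz).differentiableAt.differentiableWithinAt, ?_⟩
  exact (LL.contDiff.comp_contDiffOn ((A.dφ.contDiffOn A.opn).restrict_scalars ℝ)).congr
    fun z hz => (A.hasFD hz).fderiv

lemma Ana.cont (A : S.Ana) : ContinuousOn S.X S.V := A.smooth.continuousOn

omit [Fintype ι] in
lemma inj_LL {z} (h : S.s1 z ≠ 0 ∨ S.s2 z ≠ 0) : Function.Injective (LL (S.φ z)) := by
  refine (injective_iff_map_eq_zero _).2 fun v hv => ?_
  have h0 : (S.φ z 0 * v).re = 0 := congr($hv 0)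
  have h1 : (S.φ z 1 * v).re = 0 := congr($hv 1)
  have h2 : (S.φ z 2 * v).re = 0 := congr($hv 2)
  simp only [φ, Matrix.cons_val] at h0 h1 h2
  generalize S.s1 z = a at *
  generalize S.s2 z = b at *
  have e1 : conj (b ^ 2 * v) = a ^ 2 * v := by
    apply Complex.ext <;> simp [sq] at h0 h1 ⊢ <;> linarith
  have e2 : conj (a * b * v) = -(a * b * v) := by
    apply Complex.ext <;> simp at h2 ⊢ <;> linarith
  simp only [map_mul, map_pow] at e1 e2
  by_contra hv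
  have k : (normSq a + normSq b : ℝ) ≠ 0 := by
    have := normSq_nonneg a
    have := normSq_nonneg b
    rcases h with h | h <;> have := normSq_pos.2 h <;> positivity
  have c0 : conj v ≠ 0 := by simpa
  have k1 : a * v * (normSq a + normSq b : ℝ) = 0 := by
    push_cast
    rw [normSq_eq_conj_mul_self, normSq_eq_conj_mul_self]
    linear_combination (conj b) * e2 - conj a * e1
  have k2 : conj b * conj v * (normSq a + normSq b : ℝ) = 0 := by
    push_cast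
    rw [normSq_eq_conj_mul_self, normSq_eq_conj_mul_self]
    linear_combination a * e2 + b * e1
  simp only [mul_eq_zero, ofReal_eq_zero, k, hv, c0, or_false, map_eq_zero] at k1 k2
  tauto

lemma Ana.minimalAt (A : S.Ana) {z} (hz : z ∈ S.V) (h : S.s1 z ≠ 0 ∨ S.s2 z ≠ 0) :
    MinimalAt S.X z := by
  have e : fderiv ℝ S.X =ᶠ[𝓝 z] fun w => LL (S.φ w) := by
    filter_upwards [A.opn.mem_nhds hz] with w hw using (A.hasFD hw).fderiv
  have d := ((A.dφ.differentiableAt (A.opn.mem_nhds hz)).hasDerivAt.hasFDerivAt.restrictScalars ℝ)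
  have e2 (a b) : fderiv ℝ (fderiv ℝ S.X) z a b = LL (a • deriv S.φ z) b := by
    rw [e.fderiv_eq]; exact congr($((LL.hasFDerivAt.comp z d).fderiv) a b)
  have q : S.φ z 0 ^ 2 + S.φ z 1 ^ 2 + S.φ z 2 ^ 2 = 0 := by
    simp only [φ, Matrix.cons_val]; linear_combination (S.s1 z ^ 2 + S.s2 z ^ 2) ^ 2 / 4 * I_mul_I
  rw [MinimalAt, (A.hasFD hz).fderiv]
  refine ⟨inj_LL h, fun n _ => ?_⟩
  have q1 := congr(re $q)
  have q2 := congr(im $q)
  have r : ⟪n, LL (I • deriv S.φ z) I⟫ = -⟪n, LL ((1 : ℂ) • deriv S.φ z) 1⟫ := by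
    simp [PiLp.inner_apply, Fin.sum_univ_three]
  have r1 : ⟪LL (S.φ z) I, LL (S.φ z) I⟫ = ⟪LL (S.φ z) 1, LL (S.φ z) 1⟫ := by
    simp [PiLp.inner_apply, Fin.sum_univ_three, sq, -inner_self_eq_norm_sq_to_K] at q1 ⊢; linarith
  have r2 : ⟪LL (S.φ z) 1, LL (S.φ z) I⟫ = 0 := by
    simp [PiLp.inner_apply, Fin.sum_univ_three, sq] at q2 ⊢; linarith
  rw [e2, e2, e2, r, r1, r2]; ring

end Sch

end Pool.Agent.MP_c434f6_gt.H30

end

section

/-! Properness. -/

open Set Filter Topology Metric Complex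
open scoped ComplexConjugate

namespace Pool.Agent.MP_c434f6_gt.H30.Sch

variable {ι : Type} [Fintype ι] {S : Sch ι}

lemma ev_norm (R : ℝ) : ∀ᶠ z : ℂ in cocompact ℂ, R ≤ ‖z‖ :=
  tendsto_norm_cocompact_atTop (mem_atTop R)

lemma of_ev {p : ℂ → Prop} (h : ∀ᶠ z in cocompact ℂ, p z) : ∃ R > 0, ∀ z, R ≤ ‖z‖ → p z := by
  rw [← cobounded_eq_cocompact, ← comap_norm_atTop, eventually_comap, eventually_atTop] at h
  obtain ⟨R, h⟩ := h
  exact ⟨max R 1, by positivity, fun z hz => h _ (le_of_max_le_left hz) z rfl⟩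

omit [Fintype ι] in
lemma closed_F : IsClosed S.F := by
  simp only [F, ofPred_forall]
  exact isClosed_iInter fun k => isClosed_le continuous_const (by fun_prop)

lemma ev_F : ∀ᶠ z in cocompact ℂ, z ∈ S.F := by
  refine eventually_all.2 fun k => (ev_norm (‖S.κ k‖ + ‖S.c k‖)).mono fun z hz => ?_
  linarith [norm_sub_norm_le z (S.c k)]

lemma lim_inv (c : ℂ) : Tendsto (fun z : ℂ => 1 - c / z) (cocompact ℂ) (𝓝 1) := by
  have := (tendsto_inv₀_cobounded (α := ℂ)).const_mul c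
  rw [cobounded_eq_cocompact] at this
  simpa [div_eq_mul_inv] using this.const_sub 1

lemma sum_log {ρ : ι → ℝ} (h : ∑ k, ρ k = 0) {z : ℂ} (hz : z ≠ 0) (hc : ∀ k, z ≠ S.c k) :
    ∑ k, ρ k * Real.log ‖z - S.c k‖ = (∑ k, ρ k * log (1 - S.c k / z)).re := by
  have e (k) : Real.log ‖z - S.c k‖ = Real.log ‖z‖ + (log (1 - S.c k / z)).re := by
    have : z - S.c k = z * (1 - S.c k / z) := by field_simp
    have h1 : 1 - S.c k / z ≠ 0 := fun e => hc k (by rw [e, mul_zero] at this; exact sub_eq_zero.1 this)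
    rw [this, norm_mul, Real.log_mul (by simpa) (by simpa), log_re]
  simp [e, mul_add, Finset.sum_add_distrib, ← Finset.sum_mul, h]

lemma lim_log (ρ : ι → ℝ) :
    Tendsto (fun z => ∑ k, ρ k * log (1 - S.c k / z)) (cocompact ℂ) (𝓝 0) := by
  have := tendsto_finsetSum Finset.univ fun k _ =>
    ((lim_inv (S.c k)).clog one_mem_slitPlane).const_mul (ρ k : ℂ)
  simpa using this

lemma Ana.ne_c (A : S.Ana) {z} (hz : z ∈ S.F) (k) : z ≠ S.c k := fun e => by
  have := hz k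
  simp [e, A.κ0] at this

lemma Ana.limh (A : S.Ana) : Tendsto (fun z => S.h3 z - z.re) (cocompact ℂ) (𝓝 0) := by
  obtain ⟨H, ρ, -, h1, h2, h3⟩ := A.hol
  have := (continuous_re.tendsto _).comp (h1.add (lim_log (S := S) ρ))
  simp only [add_zero, zero_re] at this
  refine this.congr' ?_
  filter_upwards [ev_F (S := S), ev_norm 1] with z hz h
  rw [h3 z (A.sub hz), sum_log h2 (norm_pos_iff.1 (by linarith)) (A.ne_c hz)]
  simp only [Function.comp, add_re, sub_re]; ring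

omit [Fintype ι] in
lemma key (z : ℂ) : ((conj (S.s2 z ^ 2 * I) - S.s1 z ^ 2 * I) / 2 * (I * exp (-(I * z.re)))).re =
    (Real.exp z.im * (S.σ2 z ^ 2).re + Real.exp (-z.im) * (S.σ1 z ^ 2).re) / 2 := by
  have e1 : (Real.exp (-z.im) : ℂ) * S.σ1 z ^ 2 = S.s1 z ^ 2 * exp (-(I * z.re)) := by
    rw [σ1, mul_pow, ← exp_nat_mul, ofReal_exp, mul_left_comm, ← exp_add]
    congr 2; apply Complex.ext <;> simp <;> ring
  have e2 : (Real.exp z.im : ℂ) * S.σ2 z ^ 2 = S.s2 z ^ 2 * conj (exp (-(I * z.re))) := by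
    rw [σ2, mul_pow, ← exp_nat_mul, ofReal_exp, mul_left_comm, ← exp_add, ← exp_conj]
    congr 2; apply Complex.ext <;> simp <;> ring
  rw [← re_ofReal_mul, ← re_ofReal_mul, e1, e2]
  generalize exp _ = u
  generalize S.s1 z ^ 2 = a
  generalize S.s2 z ^ 2 = b
  simp; ring

lemma Ana.proper (A : S.Ana) : Tendsto (fun z => ‖S.X z‖) (cocompact ℂ) atTop := by
  have l {σ : ℂ → ℂ} (h : Tendsto σ (cocompact ℂ) (𝓝 1)) :
      ∀ᶠ z in cocompact ℂ, 1 / 2 ≤ (σ z ^ 2).re :=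
    ((continuous_re.tendsto _).comp (h.pow 2)).eventually_const_le (by norm_num)
  obtain ⟨R, R0, hR⟩ := of_ev ((ev_F (S := S)).and ((l A.lim1).and ((l A.lim2).and
    (A.limh.abs.eventually_le_const (show _ < (1 : ℝ) by simp)))))
  have cZ : ContinuousOn S.Z S.V := fun z hz => (A.dZ z hz).1.continuousAt.continuousWithinAt
  refine tendsto_atTop.2 fun B => ?_
  obtain ⟨C, hC⟩ := ((isCompact_closedBall (0 : ℂ) (B + 1 + R)).inter_right
    closed_F).exists_bound_of_continuousOn (cZ.mono (inter_subset_right.trans A.sub))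
  filter_upwards [ev_norm R, ev_norm (B + 1 + R + 2 * (2 * B + C) + 1)] with z h0 h1
  by_contra hB
  have b (j) : |S.X z j| ≤ B := (PiLp.norm_apply_le (S.X z) j).trans (not_le.1 hB).le
  have b0 : |(S.Z z).re| ≤ B := b 0
  have b1 : |(S.Z z).im| ≤ B := b 1
  have b2 : |S.h3 z| ≤ B := b 2
  have bx : |z.re| ≤ B + 1 := by
    have := (hR z h0).2.2.2
    rw [abs_le] at *; constructor <;> linarith
  have n (y : ℝ) : |y| ≤ ‖(z.re + y * I : ℂ)‖ := by simpa using abs_im_le_norm (z.re + y * I)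
  set η := fun y : ℝ => (S.Z (z.re + y * I) * (I * exp (-(I * z.re)))).re
  have d (y : ℝ) (hy : R ≤ |y|) : ∃ e, HasDerivAt η e y ∧ 1 / 2 ≤ e := by
    obtain ⟨g0, g1, g2, -⟩ := hR _ (hy.trans (n y))
    obtain ⟨g3, g4⟩ := A.dZ _ (A.sub g0)
    have p : HasDerivAt (fun y : ℝ => (z.re + y * I : ℂ)) I y := by
      simpa using ((hasDerivAt_id (y : ℂ)).mul_const I).comp_ofReal.const_add (z.re : ℂ)
    refine ⟨_, reCLM.hasFDerivAt.comp_hasDerivAt y ((g3.hasFDerivAt.comp_hasDerivAt y p).mul_const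
      (I * exp (-(I * z.re)))), ?_⟩
    have := key (S := S) (z.re + y * I)
    simp only [add_re, ofReal_re, mul_I_re, ofReal_im, neg_zero, add_zero, add_im, mul_I_im,
      zero_add] at this
    rw [reCLM_apply, g4, this]
    nlinarith [Real.add_one_le_exp y, Real.add_one_le_exp (-y), Real.exp_pos y, Real.exp_pos (-y)]
  have m {s : Set ℝ} (hs : Convex ℝ s) (h : ∀ y ∈ s, R ≤ |y|) :=
    hs.mul_sub_le_image_sub_of_le_deriv (f := η) (C := 1 / 2)
      (fun y hy => (d y (h y hy)).choose_spec.1.continuousAt.continuousWithinAt)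
      (fun y hy => (d y (h y (interior_subset hy))).choose_spec.1.differentiableAt.differentiableWithinAt)
      fun y hy => by
        obtain ⟨e, h1, h2⟩ := d y (h y (interior_subset hy))
        rwa [h1.deriv]
  have nη (y) : |η y| ≤ ‖S.Z (z.re + y * I)‖ := (abs_re_le_norm _).trans (by simp [norm_exp])
  have c1 (y) (hy : |y| = R) : |η y| ≤ C := (nη y).trans (hC _ ⟨by
    rw [mem_closedBall_zero_iff]
    exact (norm_le_abs_re_add_abs_im _).trans (by simp [hy, bx]), (hR _ (hy ▸ n y)).1⟩)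
  have c2 : |η z.im| ≤ 2 * B := (nη _).trans (by
    rw [re_add_im]; linarith [norm_le_abs_re_add_abs_im (S.Z z)])
  have c3 := norm_le_abs_re_add_abs_im z
  have c4 := abs_le.1 (c1 R (abs_of_pos R0))
  have c5 := abs_le.1 (c1 (-R) (by simp [R0.le]))
  have c6 := abs_le.1 c2
  have B0 := (abs_nonneg _).trans b0
  rcases le_total 0 z.im with h | h
  · rw [abs_of_nonneg h] at c3
    have := m (convex_Ici R) (fun y hy => le_abs.2 (.inl hy)) R self_mem_Ici z.im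
      (show R ≤ _ by linarith) (by linarith)
    linarith
  · rw [abs_of_nonpos h] at c3
    have := m (convex_Iic (-R)) (fun y hy => le_abs.2 (.inr (le_neg.1 hy))) z.im
      (show _ ≤ -R by linarith) (-R) self_mem_Iic (by linarith)
    linarith

end Pool.Agent.MP_c434f6_gt.H30.Sch

end

section

/-! The image of the fundamental domain is a complete embedded minimal surface. -/

open Set Filter Topology Metric Complex
open scoped ComplexConjugate NNReal ENNReal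

namespace Pool.Agent.MP_c434f6_gt.H30.Sch

variable {ι : Type} [Fintype ι] {S : Sch ι}

omit [Fintype ι] in
lemma norm_γ (k z) : ‖S.γ k z - S.c (S.pr k)‖ = ‖S.κ k‖ ^ 2 / ‖z - S.c k‖ := by simp [γ]

lemma Ana.γγ (A : S.Ana) (k z) : S.γ (S.pr k) (S.γ k z) = z := by
  have := A.κ0 k
  simp only [γ, A.prpr, A.κpr, sub_sub_cancel_left, div_neg, div_div_eq_mul_div]
  field_simp; ring

lemma Ana.other (A : S.Ana) {k k' z} (h : ‖z - S.c k‖ ≤ ‖S.κ k‖) (hk : k' ≠ k) :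
    ‖S.κ k'‖ < ‖z - S.c k'‖ := by
  have := A.disj hk
  linarith [norm_sub_le_norm_sub_add_norm_sub (S.c k') z (S.c k), norm_sub_rev (S.c k') z]

lemma Ana.circ_F (A : S.Ana) {k z} (h : ‖z - S.c k‖ = ‖S.κ k‖) : z ∈ S.F := fun k' => by
  rcases eq_or_ne k' k with rfl | hk
  exacts [h.ge, (A.other h.le hk).le]

lemma Ana.circ_γ (A : S.Ana) {k z} (h : ‖z - S.c k‖ = ‖S.κ k‖) :
    ‖S.γ k z - S.c (S.pr k)‖ = ‖S.κ (S.pr k)‖ := by
  have := norm_ne_zero_iff.2 (A.κ0 k)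
  rw [norm_γ, h, A.κpr, norm_neg]; field_simp

lemma Ana.circ (A : S.Ana) {k z} (hz : z ∈ S.F) (hw : S.γ k z ∈ S.F) :
    ‖z - S.c k‖ = ‖S.κ k‖ := by
  have h0 := norm_pos_iff.2 (A.κ0 k)
  have h := hw (S.pr k)
  rw [norm_γ, A.κpr, norm_neg, le_div_iff₀ (h0.trans_le (hz k))] at h
  exact le_antisymm (by nlinarith) (hz k)

lemma Ana.cont_γ (A : S.Ana) {k z} (hz : z ∈ S.F) : ContinuousAt (S.γ k) z := by
  have := sub_ne_zero.2 (A.ne_c hz k)
  unfold γ; fun_prop (disch := assumption)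

lemma Ana.ev_W (A : S.Ana) {z₀} (hz : z₀ ∈ S.F) {W : Set ℂ} (hW : IsOpen W) (h0 : z₀ ∈ W)
    (hc : ∀ k z, ‖z - S.c k‖ = ‖S.κ k‖ → z ∈ W) : ∀ᶠ z in 𝓝 z₀, S.X z ∈ S.X '' (S.F ∩ W) := by
  have o {z₀ k} (h : ‖S.κ k‖ < ‖z₀ - S.c k‖) : ∀ᶠ z in 𝓝 z₀, ‖S.κ k‖ ≤ ‖z - S.c k‖ :=
    (ContinuousAt.tendsto (by fun_prop)).eventually_const_le h
  have o' {z₀ k} (h : ‖z₀ - S.c k‖ = ‖S.κ k‖) :
      ∀ᶠ z in 𝓝 z₀, ‖S.κ k‖ ≤ ‖z - S.c k‖ → z ∈ S.F ∩ W := by
    have : ∀ᶠ z in 𝓝 z₀, ∀ k', k' ≠ k → ‖S.κ k'‖ ≤ ‖z - S.c k'‖ :=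
      eventually_all.2 fun k' => eventually_imp_distrib_left.2 fun hk => o (A.other h.le hk)
    filter_upwards [this, hW.mem_nhds (hc k z₀ h)] with z h1 h3 h2
    refine ⟨fun k' => ?_, h3⟩
    rcases eq_or_ne k' k with rfl | hk
    exacts [h2, h1 k' hk]
  by_cases h : ∃ k, ‖z₀ - S.c k‖ = ‖S.κ k‖
  · obtain ⟨k, h⟩ := h
    filter_upwards [o' h, (A.cont_γ hz).eventually (o' (A.circ_γ h)), A.glue k z₀ h,
      eventually_ne_nhds (A.ne_c hz k)] with z h1 h2 h3 h4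
    rcases le_total ‖S.κ k‖ ‖z - S.c k‖ with h5 | h5
    · exact ⟨z, h1 h5, rfl⟩
    · refine ⟨_, h2 ?_, h3⟩
      rw [norm_γ, A.κpr, norm_neg, le_div_iff₀ (norm_pos_iff.2 (sub_ne_zero.2 h4))]
      nlinarith [norm_nonneg (S.κ k)]
  · filter_upwards [eventually_all.2 fun k => o ((hz k).lt_of_ne fun e => h ⟨k, e.symm⟩),
      hW.mem_nhds h0] with z h1 h2
    exact ⟨z, ⟨h1, h2⟩, rfl⟩

lemma Ana.ev_M (A : S.Ana) {z₀} (hz : z₀ ∈ S.F) : ∀ᶠ z in 𝓝 z₀, S.X z ∈ S.M := by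
  simpa only [inter_univ, M] using A.ev_W hz isOpen_univ trivial fun _ _ _ => trivial

lemma Ana.properMap (A : S.Ana) : IsProperMap fun z : S.F => S.X z :=
  isProperMap_iff_tendsto_cocompact.2 ⟨(A.cont.mono A.sub).domRestrict, by
    have := tendsto_norm_atTop_iff_cobounded.1 A.proper
    rw [cobounded_eq_cocompact] at this
    exact this.comp closed_F.isClosedEmbedding_subtypeVal.tendsto_cocompact⟩

lemma Ana.closed_M (A : S.Ana) : IsClosed S.M := by
  rw [M, image_eq_range]; exact A.properMap.isClosedMap.isClosed_range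

lemma Ana.map_nhds (A : S.Ana) (E : S.Emb univ) {z₀} (hz : z₀ ∈ S.F) :
    map S.X (𝓝 z₀) = 𝓝[S.M] (S.X z₀) := by
  refine le_antisymm (tendsto_nhdsWithin_iff.2 ⟨A.cont.continuousAt (A.opn.mem_nhds (A.sub hz)),
    A.ev_M hz⟩) (le_map fun D hD => ?_)
  have := A.properMap.isClosedMap.eventually_nhds_fiber (p := fun w => S.X w ∈ S.X '' D) (S.X z₀)
    fun w hw => by
      refine (continuous_subtype_val.tendsto w).eventually (p := fun w => S.X w ∈ S.X '' D) ?_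
      rcases (E z₀ ⟨hz, trivial⟩).2 w ⟨w.2, trivial⟩ (Eq.symm hw) with e | ⟨k, e⟩
      · filter_upwards [e ▸ hD] with z h using ⟨z, h, rfl⟩
      · have h1 := A.circ_γ (A.circ hz (e ▸ w.2))
        have h2 := (A.cont_γ (k := S.pr k) w.2).tendsto
        rw [e] at h2 ⊢
        rw [A.γγ] at h2
        filter_upwards [A.glue _ _ h1, h2 hD] with z h3 h4 using ⟨_, h4, h3⟩
  refine eventually_nhdsWithin_iff.2 (this.mono ?_)
  rintro _ h ⟨w, hw, rfl⟩
  exact h ⟨w, hw⟩ rfl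

lemma Ana.rev (A : S.Ana) (E : S.Emb univ) {z₀} (hz : z₀ ∈ S.F) :
    (fun x : ℂ × ℂ => x.1 - x.2) =O[𝓝 (z₀, z₀)] fun x => S.X x.1 - S.X x.2 := by
  have hV := A.opn.mem_nhds (A.sub hz)
  have := (A.smooth.contDiffAt hV).hasStrictFDerivAt (by simp)
  rw [(A.hasFD (A.sub hz)).fderiv] at this
  exact (this.isTheta_sub (LinearMap.isClosedEmbedding_of_injective (f := (LL (S.φ z₀)).toLinearMap)
    (LinearMap.ker_eq_bot.2 (inj_LL (E z₀ ⟨hz, trivial⟩).1))).isInducing).symm.isBigO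

lemma Ana.minimal (A : S.Ana) (E : S.Emb univ) : IsMinimalSurface S.M := by
  rintro _ ⟨z₀, hz, rfl⟩
  have hV := A.opn.mem_nhds (A.sub hz)
  obtain ⟨K, K0, hK⟩ := (A.rev E hz).exists_pos
  have h1 := hK.bound
  rw [nhds_prod_eq] at h1
  obtain ⟨D, hD, h1⟩ := (eventually_prod_self_iff
    (r := fun a b => ‖a - b‖ ≤ K * ‖S.X a - S.X b‖)).1 h1
  have h2 : ∀ᶠ z in 𝓝 z₀, S.s1 z ≠ 0 ∨ S.s2 z ≠ 0 := by
    rcases (E z₀ ⟨hz, trivial⟩).1 with h | h
    · exact ((A.d1.differentiableAt hV).continuousAt.eventually_ne h).mono fun _ => .inl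
    · exact ((A.d2.differentiableAt hV).continuousAt.eventually_ne h).mono fun _ => .inr
  obtain ⟨U, hU, o, m⟩ := _root_.eventually_nhds_iff.1
    ((A.ev_M hz).and (h2.and (Filter.Eventually.and hD hV)))
  obtain ⟨W, oW, mW, hW⟩ := mem_nhdsWithin.1 (A.map_nhds E hz ▸ image_mem_map (o.mem_nhds m))
  have sV : U ∩ S.X ⁻¹' W ⊆ S.V := fun z h => (hU z h.1).2.2.2
  refine ⟨U ∩ S.X ⁻¹' W, W, S.X, (A.cont.mono fun z h => (hU z h).2.2.2).isOpen_inter_preimage o oW,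
    oW, mW, ?_, A.smooth.mono sV, ?_, fun z h => A.minimalAt (sV h) (hU z h.1).2.1⟩
  · rw [image_inter_preimage]
    refine subset_antisymm (inter_subset_inter_left _ ?_) fun p h => ⟨hW h.symm, h.2⟩
    rintro _ ⟨z, h, rfl⟩
    exact (hU z h).1
  · refine (AntilipschitzWith.of_le_mul_dist (K := ⟨K, K0.le⟩) fun x y => ?_).isEmbedding
      (A.cont.mono sV).domRestrict
    rw [Subtype.dist_eq, dist_eq_norm, dist_eq_norm]
    exact h1 _ (hU _ x.2.1).2.2.1 _ (hU _ y.2.1).2.2.1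

lemma Ana.complete (A : S.Ana) (E : S.Emb univ) : IsIntrinsicallyComplete S.M := by
  intro x hx h
  have c : CauchySeq x := EMetric.cauchySeq_iff.2 fun ε h0 => (h ε h0).imp fun N hN m hm n hn =>
    lt_of_le_of_lt (le_iInf₂ fun γ ⟨_, _, h1, h2⟩ => h1 ▸ h2 ▸ eVariationOn.edist_le γ
      (by simp) (by simp)) (hN m hm n hn)
  obtain ⟨p, hp⟩ := cauchySeq_tendsto_of_complete c
  obtain ⟨z₀, hz, rfl⟩ := A.closed_M.mem_of_tendsto hp (.of_forall hx)
  refine ⟨_, ⟨z₀, hz, rfl⟩, ?_⟩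
  have hV := A.opn.mem_nhds (A.sub hz)
  obtain ⟨K, D, hD, hK⟩ := ((A.smooth.contDiffAt hV).of_le
    (show (1 : WithTop ℕ∞) ≤ _ by simp)).exists_lipschitzOnWith
  obtain ⟨r, r0, hr⟩ := Metric.eventually_nhds_iff_ball.1 ((A.ev_M hz).and hD)
  have b (z) (h : z ∈ ball z₀ r) : idist S.M (S.X z) (S.X z₀) ≤ K * ‖z - z₀‖₊ := by
    have m : MapsTo (AffineMap.lineMap z z₀ : ℝ → ℂ) (Icc 0 1) (ball z₀ r) := fun t ht =>
      (convex_ball z₀ r).lineMap_mem h (mem_ball_self r0) ht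
    have m' := m.mono_right fun w hw => (hr w hw).2
    have l := lipschitzWith_lineMap (𝕜 := ℝ) z z₀
    refine (iInf₂_le (S.X ∘ AffineMap.lineMap z z₀) ⟨hK.continuousOn.comp
      l.continuous.continuousOn m', fun t ht => (hr _ (m ht)).1, by simp, by simp⟩).trans
      ((hK.comp_eVariationOn_le m').trans ?_)
    have := (l.lipschitzOnWith (s := univ)).comp_eVariationOn_le (g := id) (s := Icc 0 1)
      (mapsTo_univ _ _)
    gcongr
    simpa [nndist_eq_nnnorm] using this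
  have t : Tendsto (fun p => idist S.M p (S.X z₀)) (𝓝[S.M] (S.X z₀)) (𝓝 0) := by
    rw [← A.map_nhds E hz, tendsto_map'_iff]
    refine tendsto_of_tendsto_of_tendsto_of_le_of_le' tendsto_const_nhds ?_
      (.of_forall fun _ => zero_le) (eventually_of_mem (ball_mem_nhds z₀ r0) b)
    have : Continuous fun z : ℂ => ((K * ‖z - z₀‖₊ : ℝ≥0) : ℝ≥0∞) := by fun_prop
    simpa using this.tendsto z₀
  exact t.comp (tendsto_nhdsWithin_iff.2 ⟨hp, .of_forall hx⟩)

end Pool.Agent.MP_c434f6_gt.H30.Sch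

end

section

/-! Connectedness, topological type, non-planarity. -/

open Set Filter Topology Metric Complex
open scoped ComplexConjugate RealInnerProductSpace Real

namespace Pool.Agent.MP_c434f6_gt.H30.Sch

variable {ι : Type} [Fintype ι] {S : Sch ι}

lemma Ana.conn_F (A : S.Ana) : IsConnected S.F := by
  set r := fun z : ℂ => z + ∑ k, max 0 (‖S.κ k‖ / ‖z - S.c k‖ - 1) • (z - S.c k)
  have z0 {z k} (h : ‖S.κ k‖ ≤ ‖z - S.c k‖) : max 0 (‖S.κ k‖ / ‖z - S.c k‖ - 1) = 0 :=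
    max_eq_left (sub_nonpos.2 (div_le_one_of_le₀ h (norm_nonneg _)))
  have c : ContinuousOn r (range S.c)ᶜ := by
    refine continuousOn_id.add (continuousOn_finsetSum _ fun k _ => ?_)
    have : ∀ z ∈ (range S.c)ᶜ, ‖z - S.c k‖ ≠ 0 := fun z hz e =>
      hz ⟨k, (sub_eq_zero.1 (norm_eq_zero.1 e)).symm⟩
    fun_prop (disch := assumption)
  convert ((countable_range S.c).isConnected_compl_of_one_lt_rank (by simp)).image r c
  refine subset_antisymm (fun z hz => ⟨z, fun ⟨k, e⟩ => A.ne_c hz k e.symm, by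
    simp only [r, z0 (hz _), zero_smul, Finset.sum_const_zero, add_zero]⟩) ?_
  rintro _ ⟨z, hz, rfl⟩
  by_cases h : z ∈ S.F
  · simpa only [r, z0 (h _), zero_smul, Finset.sum_const_zero, add_zero]
  obtain ⟨k, h⟩ := not_forall.1 h
  have n : 0 < ‖z - S.c k‖ := norm_pos_iff.2 (sub_ne_zero.2 fun e => hz ⟨k, e.symm⟩)
  refine A.circ_F (k := k) ?_
  have : r z - S.c k = (‖S.κ k‖ / ‖z - S.c k‖) • (z - S.c k) := by
    simp only [r]
    rw [Finset.sum_eq_single k (fun k' _ hk => by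
      rw [z0 (A.other (not_le.1 h).le hk).le, zero_smul]) (by simp),
      max_eq_right (sub_nonneg.2 ((one_le_div n).2 (not_le.1 h).le)), sub_smul, one_smul]
    abel
  rw [this, norm_smul, Real.norm_of_nonneg (by positivity), div_mul_cancel₀ _ n.ne']

lemma Ana.genus (A : S.Ana) (E : S.Emb univ) {g : ℕ} (e : Fin g × Bool ≃ ι)
    (he : ∀ j, S.pr (e (j, false)) = e (j, true)) : GenusOneEnd g S.M := by
  have n (k : Fin g × Bool) : ‖S.κ (e (k.1, false))‖ = ‖S.κ (e k)‖ := by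
    obtain ⟨j, _ | _⟩ := k
    · rfl
    · rw [← he, A.κpr, norm_neg]
  have f (z) : (∀ k : Fin g × Bool, z ∉ ball ((S.c ∘ e) k) ‖S.κ (e (k.1, false))‖) ↔ z ∈ S.F := by
    simp only [n, mem_ball_iff_norm, not_lt]
    exact e.forall_congr fun _ => Iff.rfl
  have q {z w j} (hz : z ∈ S.F) : (z - S.c (e (j, false))) * (w - S.c (e (j, true))) =
      -S.κ (e (j, false)) ^ 2 ↔ w = S.γ (e (j, false)) z := by
    have := sub_ne_zero.2 (A.ne_c hz (e (j, false)))
    rw [γ, eq_sub_iff_add_eq, ← eq_sub_iff_add_eq', div_eq_iff this, he]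
    constructor <;> intro h <;> linear_combination h
  refine ⟨S.c ∘ e, fun j => ‖S.κ (e (j, false))‖, fun j => -S.κ (e (j, false)) ^ 2,
    fun j => ⟨norm_pos_iff.2 (A.κ0 _), by simp⟩, fun k k' h => closedBall_disjoint_closedBall (by
      simp only [n, dist_eq_norm]; exact A.disj (e.injective.ne h)), ⟨Homeomorph.symm ?_⟩⟩
  let x : {z // ∀ k : Fin g × Bool, z ∉ ball ((S.c ∘ e) k) ‖S.κ (e (k.1, false))‖} → S.M :=
    fun z => ⟨S.X z, z, (f z).1 z.2, rfl⟩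
  have p : IsProperMap x := by
    refine isProperMap_of_comp_of_inj (g := Subtype.val) ?_ continuous_subtype_val ?_
      Subtype.val_injective
    · exact ((A.cont.mono fun z hz => A.sub ((f z).1 hz)).domRestrict).subtype_mk _
    · exact A.properMap.comp (Homeomorph.setCongr (Set.ext f)).isProperMap
  refine (Equiv.ofBijective (Quot.lift x ?_) ⟨?_, ?_⟩).toHomeomorphOfContinuousClosed
    (continuous_quot_lift _ p.continuous) (.of_comp_surjective Quot.mk_surjective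
      continuous_quot_mk p.isClosedMap)
  · rintro z w ⟨j, h1, h2⟩
    exact Subtype.ext ((q ((f z).1 z.2)).1 h2 ▸ (A.glue _ _ (mem_sphere_iff_norm.1 h1)).self_of_nhds).symm
  · rintro ⟨z⟩ ⟨w⟩ h
    have hz := (f z).1 z.2
    have hw := (f w).1 w.2
    rcases (E z ⟨hz, trivial⟩).2 w ⟨hw, trivial⟩ congr($h.1) with h | ⟨k, h⟩
    · rw [Subtype.ext h]
    · obtain ⟨⟨j, _ | _⟩, rfl⟩ := e.surjective k
      · exact Quot.sound ⟨j, mem_sphere_iff_norm.2 (A.circ hz (h ▸ hw)), (q hz).2 h⟩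
      · have h' : z.1 = S.γ (e (j, false)) w := by rw [h, ← A.prpr (e (j, false)), he, A.γγ]
        exact (Quot.sound ⟨j, mem_sphere_iff_norm.2 (A.circ hw (h' ▸ hz)), (q hw).2 h'⟩).symm
  · rintro ⟨_, z, hz, rfl⟩
    exact ⟨Quot.mk _ ⟨z, (f z).2 hz⟩, rfl⟩

lemma shift (w : ℂ) : Tendsto (fun n : ℕ => w + n * (4 * π)) atTop (cocompact ℂ) := by
  rw [← cobounded_eq_cocompact, ← tendsto_norm_atTop_iff_cobounded]
  refine tendsto_atTop_mono (fun n => ?_) (tendsto_atTop_add_const_left _ w.re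
    (tendsto_natCast_atTop_atTop.atTop_mul_const (r := 4 * π) (by positivity)))
  simpa using re_le_norm (w + n * (4 * π))

omit [Fintype ι] in
lemma s1_eq (w : ℂ) (n : ℕ) : S.s1 (w + n * (4 * π)) = S.σ1 (w + n * (4 * π)) * exp (I * w / 2) := by
  rw [σ1, mul_assoc, ← exp_add, show -(I * (w + n * (4 * π)) / 2) + I * w / 2 =
    (-n : ℤ) * (2 * π * I) by push_cast; ring, exp_int_mul_two_pi_mul_I, mul_one]

omit [Fintype ι] in
lemma s2_eq (w : ℂ) (n : ℕ) :
    S.s2 (w + n * (4 * π)) = S.σ2 (w + n * (4 * π)) * exp (-(I * w / 2)) := by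
  rw [σ2, mul_assoc, ← exp_add, show I * (w + n * (4 * π)) / 2 + -(I * w / 2) =
    n * (2 * π * I) by ring, exp_nat_mul_two_pi_mul_I, mul_one]

lemma dot_zero {n : E3} {a : Fin 3 → ℂ} (h : ∀ v, ⟪n, LL a v⟫ = 0) : ∑ j, n j * a j = 0 := by
  have h1 := h 1
  have h2 := h I
  rw [inner_LL] at h1 h2
  generalize ∑ j, n j * a j = u at *
  apply Complex.ext <;> simp_all

lemma Ana.dot_ne (A : S.Ana) {n : E3} (h1 : ∀ z ∈ S.F, ∑ j, n j * S.φ z j = 0) : n = 0 := by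
  have h2 (u : ℂ) (hu : u ≠ 0) :
      n 0 * ((u⁻¹ ^ 2 - u ^ 2) / 2) + n 1 * (I * (u ^ 2 + u⁻¹ ^ 2) / 2) + n 2 * (u * u⁻¹) = 0 := by
    set w := -(2 * I * log u)
    have e : exp (I * w / 2) = u := by
      rw [← exp_log hu]; congr 1; linear_combination -log u * I_mul_I
    have t1 := (A.lim1.comp (shift w)).mul_const u
    have t2 := (A.lim2.comp (shift w)).mul_const u⁻¹
    rw [one_mul] at t1 t2
    refine tendsto_nhds_unique_of_eventuallyEq (((((t2.pow 2).sub (t1.pow 2)).div_const 2).const_mul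
      _).add ((((t1.pow 2).add (t2.pow 2)).const_mul I).div_const 2 |>.const_mul _) |>.add
      ((t1.mul t2).const_mul _)) tendsto_const_nhds ?_
    filter_upwards [(shift w).eventually (ev_F (S := S))] with m hm
    have := h1 _ hm
    simp only [Fin.sum_univ_three, φ, Matrix.cons_val, s1_eq, s2_eq, exp_neg, e] at this
    exact this
  have a := h2 1 one_ne_zero
  have c := h2 2 two_ne_zero
  simp [Complex.ext_iff, sq] at a c
  ext j; fin_cases j <;> simp [a.1, a.2]; linarith [c.1, a.1]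

lemma Ana.nonplanar (A : S.Ana) : ¬ ∃ (n : E3) (t : ℝ), n ≠ 0 ∧ ∀ p ∈ S.M, ⟪n, p⟫ = t := by
  rintro ⟨n, t, n0, h⟩
  refine n0 (A.dot_ne fun z hz => dot_zero fun v => ?_)
  have d := (innerSL ℝ n).hasFDerivAt.comp z (A.hasFD (A.sub hz))
  have := d.unique ((hasFDerivAt_const t z).congr_of_eventuallyEq
    ((A.ev_M hz).mono fun w hw => h _ hw))
  exact congr($this v)

theorem oneEnded (A : S.Ana) (E : S.Emb univ) {g : ℕ} (e : Fin g × Bool ≃ ι)
    (he : ∀ j, S.pr (e (j, false)) = e (j, true)) : OneEnded g S.M :=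
  ⟨A.conn_F.image _ (A.cont.mono A.sub), A.closed_M, A.minimal E, A.complete E, A.genus E e he,
    A.nonplanar⟩

end Pool.Agent.MP_c434f6_gt.H30.Sch

end

section

/-! A similarity preserves the vertical direction and the critical heights. -/

open Set Filter Topology Metric Complex Asymptotics
open scoped ComplexConjugate RealInnerProductSpace Real

namespace Pool.Agent.MP_c434f6_gt.H30

def Nrm (M : Set E3) (v : E3) : Set E3 :=
  {p ∈ M | (fun q => ⟪v, q - p⟫) =o[𝓝[M] p] fun q => q - p}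

lemma nrm_sim {l : ℝ} (A : E3 ≃ₗᵢ[ℝ] E3) (b : E3) (hl : 0 < l) (M : Set E3) (v : E3) :
    (fun x => l • A x + b) '' Nrm M v = Nrm ((fun x => l • A x + b) '' M) (A v) := by
  have e : IsEmbedding fun x => l • A x + b := ((A.toHomeomorph.trans
    (Homeomorph.smulOfNeZero l hl.ne')).trans (Homeomorph.addRight b)).isEmbedding
  have k (p) : (fun q => ⟪v, q - p⟫) =o[𝓝[M] p] (fun q => q - p) ↔ (fun q => ⟪A v, q - (l • A p + b)⟫)
      =o[𝓝[(fun x => l • A x + b) '' M] (l • A p + b)] fun q => q - (l • A p + b) := by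
    rw [← e.map_nhdsWithin_eq, isLittleO_map, ← isLittleO_norm_right,
      ← isLittleO_norm_right (g' := _ ∘ _), ← isLittleO_const_mul_left_iff hl.ne',
      ← isLittleO_const_mul_right_iff hl.ne']
    congr! 2 with q q
    · simp [← smul_sub, ← map_sub, inner_smul_right]
    · simp [← smul_sub, ← map_sub, norm_smul, abs_of_pos hl]
  ext q
  constructor
  · rintro ⟨p, ⟨h1, h2⟩, rfl⟩
    exact ⟨⟨p, h1, rfl⟩, (k p).1 h2⟩
  · rintro ⟨⟨p, h1, rfl⟩, h2⟩
    exact ⟨p, ⟨h1, (k p).2 h2⟩, rfl⟩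

namespace Sch

/-- Minimum modulus: a zero in a disc. -/
theorem exists_zero {f : ℂ → ℂ} {z : ℂ} {r : ℝ} (hr : 0 < r) (hf : DiffContOnCl ℂ f (ball z r))
    (h : ∀ w ∈ sphere z r, ‖f z‖ < ‖f w‖) : ∃ w ∈ ball z r, f w = 0 := by
  by_contra! c
  have c' (w) (hw : w ∈ closure (ball z r)) : f w ≠ 0 := by
    rw [closure_ball z hr.ne', ← ball_union_sphere] at hw
    exact hw.elim (c w) fun hw => norm_pos_iff.1 ((norm_nonneg _).trans_lt (h w hw))
  obtain ⟨w, hw, m⟩ := exists_mem_frontier_isMaxOn_norm isBounded_ball ⟨z, mem_ball_self hr⟩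
    (hf.inv c')
  rw [frontier_ball z hr.ne'] at hw
  have := m (subset_closure (mem_ball_self hr))
  simp only [Function.comp, Pi.inv_apply, norm_inv, mem_ofPred_eq] at this
  exact absurd (inv_strictAnti₀ (norm_pos_iff.2 (c z (mem_ball_self hr))) (h w hw)) (not_lt.2 this)

variable {ι : Type} [Fintype ι] {S S' : Sch ι}

lemma Ana.nrm (A : S.Ana) (E : S.Emb univ) (v : E3) :
    Nrm S.M v = S.X '' {z ∈ S.F | ∑ j, v j * S.φ z j = 0} := by
  have k (z) (hz : z ∈ S.F) : S.X z ∈ Nrm S.M v ↔ ∑ j, v j * S.φ z j = 0 := by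
    have d := A.hasFD (A.sub hz)
    have d' := (innerSL ℝ v).hasFDerivAt.comp z d
    have r : (fun w => w - z) =O[𝓝 z] fun w => S.X w - S.X z :=
      (A.rev E hz).comp_tendsto (k := fun w => (w, z)) (Continuous.tendsto (by fun_prop) z)
    rw [Nrm, mem_ofPred_eq, and_iff_right ⟨z, hz, rfl⟩, ← A.map_nhds E hz, isLittleO_map]
    constructor
    · intro h
      have : HasFDerivAt (innerSL ℝ v ∘ S.X) (0 : ℂ →L[ℝ] ℝ) z := by
        rw [hasFDerivAt_iff_isLittleO]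
        simpa [inner_sub_right, Function.comp_def] using h.trans_isBigO d.isBigO_sub
      exact dot_zero fun u => congr($(d'.unique this) u)
    · intro h
      have e : (innerSL ℝ v).comp (LL (S.φ z)) = 0 := by
        ext1 u; exact (inner_LL _ _ _).trans (by rw [h]; simp)
      rw [e, hasFDerivAt_iff_isLittleO] at d'
      simpa [inner_sub_right, Function.comp_def] using d'.trans_isBigO r
  ext p
  constructor
  · intro h
    obtain ⟨z, hz, rfl⟩ := h.1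
    exact ⟨z, ⟨hz, (k z hz).1 h⟩, rfl⟩
  · rintro ⟨z, ⟨hz, h⟩, rfl⟩
    exact (k z hz).2 h

lemma Ana.zeros (A : S.Ana) {g : ℂ} (hg : g ≠ 0) {r : ℝ} (r0 : 0 < r) (r1 : r ≤ 1 / 2) :
    ∀ᶠ n : ℕ in atTop, ∃ w ∈ ball (-(I * log g) + n * (4 * π)) r, w ∈ S.F ∧ S.s1 w = g * S.s2 w := by
  have l {σ : ℂ → ℂ} (h : Tendsto σ (cocompact ℂ) (𝓝 1)) :
      ∀ᶠ z in cocompact ℂ, ‖σ z - 1‖ ≤ r / 12 :=
    (tendsto_iff_norm_sub_tendsto_zero.1 h).eventually_le_const (by positivity)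
  obtain ⟨R, -, hR⟩ := of_ev ((ev_F (S := S)).and ((l A.lim1).and (l A.lim2)))
  filter_upwards [(shift (-(I * log g))).eventually (ev_norm (R + 1))] with n hn
  set z := -(I * log g) + n * (4 * π)
  have b (w) (hw : w ∈ closedBall z r) : R ≤ ‖w‖ := by
    have := mem_closedBall_iff_norm'.1 hw
    linarith [norm_sub_norm_le z w]
  have e (w) : exp (I * (w - z)) * S.σ1 w - S.σ2 w = (S.s1 w - g * S.s2 w) * (exp (I * w / 2) / g) := by
    have : exp (I * (w - z)) * exp (-(I * w / 2)) = exp (I * w / 2) / g := by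
      rw [← exp_log hg, ← exp_sub, ← exp_add, exp_eq_exp_iff_exists_int]
      refine ⟨-2 * n, ?_⟩
      simp only [z]; push_cast; linear_combination log g * I_mul_I
    rw [σ1, σ2, mul_left_comm, this]; field_simp
  obtain ⟨w, hw, h0⟩ := exists_zero (f := fun w => exp (I * (w - z)) * S.σ1 w - S.σ2 w) (z := z)
    r0 (by
      refine DifferentiableOn.diffContOnCl ?_
      rw [closure_ball z r0.ne']
      have s : closedBall z r ⊆ S.V := fun w hw => A.sub (hR w (b w hw)).1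
      have := A.d1.mono s
      have := A.d2.mono s
      unfold σ1 σ2; fun_prop) fun w hw => by
      obtain ⟨-, h1, h2⟩ := hR w (b w (sphere_subset_closedBall hw))
      obtain ⟨-, h3, h4⟩ := hR z (b z (mem_closedBall_self r0.le))
      have n1 : ‖I * (w - z)‖ = r := by simpa using mem_sphere_iff_norm.1 hw
      have h5 := norm_exp_sub_one_sub_id_le (x := I * (w - z)) (by linarith)
      simp only [sub_self, mul_zero, exp_zero, one_mul]
      generalize I * (w - z) = u at *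
      generalize exp u = a at *
      rw [n1] at h5
      have h6 : ‖a‖ ≤ 2 := by
        have := norm_add₃_le (a := a - 1 - u) (b := 1) (c := u)
        rw [show _ + _ + _ = a by ring, norm_one] at this; nlinarith
      have h7 := norm_add₃_le (a := a * S.σ1 w - S.σ2 w) (b := -(a * (S.σ1 w - 1)) + (S.σ2 w - 1))
        (c := -(a - 1 - u))
      have h8 := norm_add_le (-(a * (S.σ1 w - 1))) (S.σ2 w - 1)
      have h9 := norm_sub_le (S.σ1 z - 1) (S.σ2 z - 1)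
      rw [norm_neg, norm_mul] at h8
      rw [norm_neg, show _ + _ + _ = u by ring] at h7
      rw [sub_sub_sub_cancel_right] at h9
      nlinarith [norm_nonneg (S.σ1 w - 1), norm_nonneg a]
  refine ⟨w, hw, (hR w (b w (ball_subset_closedBall hw))).1, ?_⟩
  simpa only [e, mul_eq_zero, div_eq_zero_iff, exp_ne_zero, hg, or_false, sub_eq_zero] using h0

lemma far_ball (w : ℂ) (R : ℝ) :
    ∀ᶠ n : ℕ in atTop, ∀ r ≤ 1, ∀ z ∈ ball (w + n * (4 * π)) r, R ≤ ‖z‖ :=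
  ((shift w).eventually (ev_norm (R + 1))).mono fun n h r hr z hz => by
    linarith [norm_sub_norm_le (w + n * (4 * π)) z, mem_ball_iff_norm'.1 hz]

lemma Ana.le_map (A : S.Ana) {N : Set ℂ} (hN : N ⊆ S.F) :
    cocompact E3 ⊓ 𝓟 (S.X '' N) ≤ map S.X (cocompact ℂ ⊓ 𝓟 N) := Filter.le_map fun s hs => by
  obtain ⟨R, -, hR⟩ := of_ev (mem_inf_principal.1 hs)
  filter_upwards [mem_inf_of_left (((isCompact_closedBall (0 : ℂ) R).inter_right
    closed_F).image_of_continuousOn (A.cont.mono (inter_subset_right.trans A.sub))).compl_mem_cocompact,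
    mem_inf_of_right (mem_principal_self _)]
  rintro _ h ⟨z, hz, rfl⟩
  exact ⟨z, hR z (not_le.1 fun g => h ⟨z, ⟨mem_closedBall_zero_iff.2 g, hN hz⟩, rfl⟩).le hz, rfl⟩

lemma Ana.properX (A : S.Ana) : Tendsto S.X (cocompact ℂ) (cocompact E3) := by
  have := tendsto_norm_atTop_iff_cobounded.1 A.proper
  rwa [cobounded_eq_cocompact] at this

lemma Ana.vertical (A : S.Ana) (E : S.Emb univ) {v : E3} (h : ∀ᶠ p in cocompact E3, p ∉ Nrm S.M v) :
    v 0 = 0 ∧ v 1 = 0 := by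
  by_contra c
  have n : (v 0 + v 1 * I : ℂ) ≠ 0 := fun e => c (by simpa [Complex.ext_iff] using e)
  have n' : (v 0 - v 1 * I : ℂ) ≠ 0 := fun e => c (by simpa [Complex.ext_iff] using e)
  obtain ⟨s, hs⟩ := IsAlgClosed.exists_eq_mul_self ((v 2 : ℂ) ^ 2 + (v 0 - v 1 * I) * (v 0 + v 1 * I))
  set g := (v 2 + s) / (v 0 - v 1 * I)
  have e : (v 0 - v 1 * I) * g ^ 2 = 2 * v 2 * g + (v 0 + v 1 * I) := by
    simp only [g]; field_simp; linear_combination -hs
  obtain ⟨R, -, hR⟩ := of_ev (A.properX.eventually h)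
  obtain ⟨m, ⟨z, h0, hz, h1⟩, h2⟩ := ((A.zeros (g := g) (fun e0 => n (by simpa [e0] using e.symm))
    one_half_pos le_rfl).and (far_ball _ R)).exists
  refine hR z (h2 _ (by norm_num) z h0) (A.nrm E v ▸ ⟨z, ⟨hz, ?_⟩, rfl⟩)
  simp only [Fin.sum_univ_three, φ, Matrix.cons_val, h1]
  linear_combination -S.s2 z ^ 2 / 2 * e

lemma Ana.horizontal (A : S.Ana) (E : S.Emb univ) {v : E3} (h : v 2 = 0) (h0 : v ≠ 0) :
    ∃ ω ≠ 0, Tendsto (fun p : E3 => exp (2 * I * p 2)) (cocompact E3 ⊓ 𝓟 (Nrm S.M v)) (𝓝 ω) := by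
  have c : ¬(v 0 = 0 ∧ v 1 = 0) := fun c => h0 (by ext j; fin_cases j; exacts [c.1, c.2, h])
  have n : (v 0 + v 1 * I : ℂ) ≠ 0 := fun e => c (by simpa [Complex.ext_iff] using e)
  have n' : (v 0 - v 1 * I : ℂ) ≠ 0 := fun e => c (by simpa [Complex.ext_iff] using e)
  set u : ℂ := (v 0 + v 1 * I) / (v 0 - v 1 * I)
  have u0 : u ≠ 0 := div_ne_zero n n'
  have u1 : (‖u‖ : ℂ) ≠ 0 := by simpa
  refine ⟨u / ‖u‖, div_ne_zero u0 u1, ?_⟩
  rw [A.nrm E]
  refine Tendsto.mono_left (tendsto_map'_iff.2 ?_) (A.le_map fun _ h => h.1)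
  have t1 : Tendsto (fun z => exp (2 * I * z)) (cocompact ℂ ⊓ 𝓟 {z ∈ S.F | ∑ j, v j * S.φ z j = 0})
      (𝓝 u) := by
    have := ((A.lim2.div A.lim1 one_ne_zero).pow 2).const_mul u
    rw [div_one, one_pow, mul_one] at this
    refine (this.mono_left inf_le_left).congr' ?_
    filter_upwards [mem_inf_of_left (A.lim1.eventually_ne one_ne_zero),
      mem_inf_of_right (mem_principal_self _)] with z h1 ⟨_, h2⟩
    simp only [Fin.sum_univ_three, φ, Matrix.cons_val, h, ofReal_zero] at h2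
    have e : exp (2 * I * z) = exp (I * z / 2) ^ 4 := by
      rw [← exp_nat_mul]; congr 1; push_cast; ring
    have h3 : S.s1 z ≠ 0 := left_ne_zero_of_mul h1
    simp only [u, Pi.div_apply, σ1, σ2, exp_neg, e]
    field_simp
    linear_combination 2 * h2
  have t2 := ((((continuous_ofReal.tendsto _).comp A.limh).const_mul (2 * I)).cexp.mono_left
    inf_le_left).mul (t1.div ((continuous_ofReal.tendsto _).comp t1.norm) u1)
  simp only [ofReal_zero, mul_zero, exp_zero, one_mul] at t2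
  refine t2.congr fun z => ?_
  simp only [Function.comp, Pi.div_apply, norm_exp, ofReal_exp, ← exp_sub, ← exp_add]
  congr 1
  apply Complex.ext <;> simp [X]; ring

lemma Ana.pitch (A : S.Ana) (E : S.Emb univ) : ∃ p q : ℕ → E3,
    Tendsto p atTop (cocompact E3 ⊓ 𝓟 (Nrm S.M (EuclideanSpace.single 0 1))) ∧
    Tendsto q atTop (cocompact E3 ⊓ 𝓟 (Nrm S.M (EuclideanSpace.single 0 1))) ∧
    Tendsto (fun m => q m 2 - p m 2) atTop (𝓝 π) := by
  have k (m : ℕ) := ((A.zeros one_ne_zero (r := 1 / (m + 1) / 2) (by positivity) (by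
    gcongr; rw [div_le_one (by positivity)]; simp)).and ((A.zeros (neg_ne_zero.2 one_ne_zero)
    (r := 1 / (m + 1) / 2) (by positivity) (by
    gcongr; rw [div_le_one (by positivity)]; simp)).and ((far_ball (-(I * log 1)) m).and
    (far_ball (-(I * log (-1))) m)))).exists
  choose n h1 h2 h3 h4 using k
  choose z z1 z2 z3 using h1
  choose w w1 w2 w3 using h2
  have r (m : ℕ) : 1 / ((m : ℝ) + 1) / 2 ≤ 1 := by
    rw [div_div, div_le_one (by positivity)]; nlinarith [m.cast_nonneg (α := ℝ)]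
  have t {z : ℕ → ℂ} (h : ∀ m : ℕ, m ≤ ‖z m‖) : Tendsto z atTop (cocompact ℂ) := by
    rw [← cobounded_eq_cocompact, ← tendsto_norm_atTop_iff_cobounded]
    exact tendsto_atTop_mono h tendsto_natCast_atTop_atTop
  have tz := t fun m => h3 m _ (r m) _ (z1 m)
  have tw := t fun m => h4 m _ (r m) _ (w1 m)
  refine ⟨S.X ∘ z, S.X ∘ w, tendsto_inf.2 ⟨A.properX.comp tz, tendsto_principal.2 (.of_forall
    fun m => A.nrm E _ ▸ ⟨z m, ⟨z2 m, by simp [Fin.sum_univ_three, φ, z3]⟩, rfl⟩)⟩,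
    tendsto_inf.2 ⟨A.properX.comp tw, tendsto_principal.2 (.of_forall
    fun m => A.nrm E _ ▸ ⟨w m, ⟨w2 m, by simp [Fin.sum_univ_three, φ, w3]⟩, rfl⟩)⟩, ?_⟩
  have d : Tendsto (fun m => (w m).re - (z m).re - π) atTop (𝓝 0) := by
    refine squeeze_zero_norm (fun m => ?_) tendsto_one_div_add_atTop_nhds_zero_nat
    have a := (abs_re_le_norm _).trans (mem_ball_iff_norm.1 (z1 m)).le
    have b := (abs_re_le_norm _).trans (mem_ball_iff_norm.1 (w1 m)).le
    simp [log_neg_one] at a b ⊢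
    rw [abs_le] at *
    constructor <;> linarith [a.1, a.2, b.1, b.2]
  have := (((A.limh.comp tw).sub (A.limh.comp tz)).add d).add_const π
  simp only [sub_zero, zero_add] at this
  exact this.congr fun m => by simp [X]; ring

lemma crit_of_similar (A : S.Ana) (E : S.Emb univ) (A' : S'.Ana) (E' : S'.Emb univ)
    (h : Similar S.M S'.M) : ∃ a b : ℝ, 1 ≤ |a| ∧ (fun t => a * t + b) '' S.Crit = S'.Crit := by
  obtain ⟨l, B, b, l0, hM⟩ := h
  have pf : Tendsto (fun x => l • B x + b) (cocompact E3) (cocompact E3) := ((B.toHomeomorph.trans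
    (Homeomorph.smulOfNeZero l l0.ne')).trans
    (Homeomorph.addRight b)).isClosedEmbedding.tendsto_cocompact
  set v := B.symm (EuclideanSpace.single 2 1)
  have k := nrm_sim B b l0 S.M v
  rw [hM, LinearIsometryEquiv.apply_symm_apply, A'.nrm E'] at k
  simp only [Fin.sum_univ_three, φ, Matrix.cons_val, PiLp.single_apply] at k
  simp only [Fin.reduceEq, if_false, if_true, ofReal_zero, zero_mul, ofReal_one, one_mul,
    zero_add] at k
  obtain ⟨v0, v1⟩ := A.vertical E (v := v) (by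
    have : ∀ᶠ p in map S'.X (cocompact ℂ ⊓ 𝓟 {z ∈ S'.F | S'.s1 z * S'.s2 z = 0}), False := by
      rw [eventually_map]
      filter_upwards [mem_inf_of_left ((A'.lim1.mul A'.lim2).eventually_ne (b₂ := 0) (by simp)),
        mem_inf_of_right (mem_principal_self _)] with z h1 h2
      exact h1 (by rw [σ1, σ2, mul_mul_mul_comm, h2.2, zero_mul])
    exact (pf.eventually (eventually_inf_principal.1 (A'.le_map (fun _ h => h.1) this))).mono
      fun p h1 h2 => h1 (k.subset ⟨p, h2, rfl⟩))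
  have v2 : v 2 ≠ 0 := fun e => by
    have : v = 0 := by ext j; fin_cases j <;> assumption
    simpa [v] using congr(B $this 2)
  have t' (p : E3) : B p 2 = v 2 * p 2 := by
    have : ⟪B v, B p⟫ = ⟪v, p⟫ := B.inner_map_map v p
    rw [LinearIsometryEquiv.apply_symm_apply] at this
    simp [PiLp.inner_apply, Fin.sum_univ_three, v0, v1] at this
    rw [this, mul_comm]
  have t (p : E3) : (l • B p + b) 2 = l * v 2 * p 2 + b 2 := by simp [t', mul_assoc]
  refine ⟨l * v 2, b 2, ?_, ?_⟩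
  · obtain ⟨p, q, h1, h2, h3⟩ := A.pitch E
    obtain ⟨ω, h4, h5⟩ := A'.horizontal E' (v := B (EuclideanSpace.single 0 1)) (by simp [t'])
      (by simp)
    have h6 : Tendsto (fun x => l • B x + b) (cocompact E3 ⊓ 𝓟 (Nrm S.M _))
        (cocompact E3 ⊓ 𝓟 (Nrm S'.M (B (EuclideanSpace.single 0 1)))) :=
      pf.inf (tendsto_principal_principal.2 fun x hx => hM ▸ (nrm_sim B b l0 _ _).subset ⟨x, hx, rfl⟩)
    have h7 := ((h5.comp h6).comp h2).div ((h5.comp h6).comp h1) h4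
    have h8 := (((continuous_ofReal.tendsto _).comp h3).const_mul (2 * I * (l * v 2 : ℝ))).cexp
    obtain ⟨n, hn⟩ := exp_eq_one_iff.1 ((tendsto_nhds_unique h8 (h7.congr fun m => by
      simp only [Function.comp, Pi.div_apply, t, ← exp_sub]; push_cast; ring_nf)).trans (div_self h4))
    have h9 : l * v 2 = n := by
      exact_mod_cast mul_right_cancel₀ two_pi_I_ne_zero
        (show ((l * v 2 : ℝ) : ℂ) * _ = n * _ by linear_combination hn)
    rw [h9]
    exact_mod_cast Int.one_le_abs (by rintro rfl; simp [v2, l0.ne'] at h9)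
  have := congr((fun p : E3 => p 2) '' $k)
  rw [A.nrm E] at this
  simp only [image_image, t, Fin.sum_univ_three, v0, v1, ofReal_zero, zero_mul, zero_add,
    mul_eq_zero (a := (v 2 : ℂ)), ofReal_eq_zero, v2, false_or] at this
  rw [Crit, image_image]
  exact this

theorem not_similar (A : S.Ana) (E : S.Emb univ) (A' : S'.Ana) (E' : S'.Emb univ) {r t₁ t₂ : ℝ}
    (h₁ : t₁ ∈ S.Crit) (h₂ : t₂ ∈ S.Crit) (h : 2 * r < t₁ - t₂) (h' : ∀ t ∈ S'.Crit, |t| ≤ r) :
    ¬ Similar S.M S'.M := fun hs => by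
  obtain ⟨a, b, h1, h2⟩ := crit_of_similar A E A' E' hs
  have k1 := abs_le.1 (h' _ (h2.subset ⟨_, h₁, rfl⟩))
  have k2 := abs_le.1 (h' _ (h2.subset ⟨_, h₂, rfl⟩))
  rcases le_abs.1 h1 with h3 | h3 <;> nlinarith [k1.1, k1.2, k2.1, k2.2]

end Sch

end Pool.Agent.MP_c434f6_gt.H30

end

section

/-! The end: injectivity outside a rectangle. -/

open Set Filter Topology Metric Complex Asymptotics
open scoped ComplexConjugate

namespace Pool.Agent.MP_c434f6_gt.H30.Sch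

def out (a b : ℝ) : Set ℂ := {z | a ≤ |z.re| ∨ b ≤ |z.im|}

lemma closed_out {a b : ℝ} : IsClosed (out a b) :=
  (isClosed_le continuous_const continuous_re.abs).union
    (isClosed_le continuous_const continuous_im.abs)

lemma closed_box {a b : ℝ} : IsClosed (box a b) :=
  (isClosed_le continuous_re.abs continuous_const).inter
    (isClosed_le continuous_im.abs continuous_const)

lemma compact_box {a b : ℝ} : IsCompact (box a b) :=
  (isCompact_closedBall (0 : ℂ) (a + b)).of_isClosed_subset closed_box fun z h =>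
    mem_closedBall_zero_iff.2 ((norm_le_abs_re_add_abs_im z).trans (add_le_add h.1 h.2))

lemma out_of {a b : ℝ} {z : ℂ} (h : z ∉ box a b) : z ∈ out a b :=
  (not_and_or.1 h).imp (fun h => (not_le.1 h).le) fun h => (not_le.1 h).le

lemma minExt' {K O : Set ℂ} (hK : IsClosed K) (hO : IsClosed O) (hc : Kᶜ ⊆ O) {m : ℝ} {f : ℂ → ℂ}
    (hf : DifferentiableOn ℂ f O) (h1 : ∀ z ∈ K ∩ O, m ≤ (f z).re)
    (h2 : ∀ᶠ z in cocompact ℂ, m ≤ (f z).re) : ∀ z ∈ O, m ≤ (f z).re := fun z hz => by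
  obtain ⟨R, -, hR⟩ := of_ev h2
  by_cases h : z ∈ K
  · exact h1 z ⟨h, hz⟩
  rcases le_or_gt R ‖z‖ with h3 | h3
  · exact hR z h3
  have o : IsOpen (ball (0 : ℂ) R \ K) := isOpen_ball.sdiff hK
  have c : closure (ball 0 R \ K) ⊆ O := closure_minimal (fun w h => hc h.2) hO
  have := norm_le_of_forall_mem_frontier_norm_le (f := fun z => exp (-f z)) (C := Real.exp (-m))
    (isBounded_ball.subset sdiff_subset) (hf.mono c).neg.cexp.diffContOnCl (fun w hw => by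
      rw [o.frontier_eq] at hw
      rw [norm_exp, Real.exp_le_exp, neg_re, neg_le_neg_iff]
      by_cases h4 : w ∈ K
      · exact h1 w ⟨h4, c hw.1⟩
      · exact hR w (not_lt.1 fun h5 => hw.2 ⟨mem_ball_zero_iff.2 h5, h4⟩))
    (subset_closure ⟨mem_ball_zero_iff.2 h3, h⟩)
  rwa [norm_exp, Real.exp_le_exp, neg_re, neg_le_neg_iff] at this

lemma posExt' {K O : Set ℂ} (hK : IsCompact K) (hO : IsClosed O) (hc : Kᶜ ⊆ O) {f : ℂ → ℂ}
    (hf : DifferentiableOn ℂ f O) (h1 : ∀ z ∈ K ∩ O, 0 < (f z).re)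
    (h2 : Tendsto f (cocompact ℂ) (𝓝 1)) : ∀ z ∈ O, 0 < (f z).re := fun z hz => by
  obtain ⟨m, m0, hm⟩ := (hK.inter_right hO).exists_forall_le'
    (continuous_re.comp_continuousOn (hf.continuousOn.mono inter_subset_right)) h1
  exact (lt_min m0 one_half_pos).trans_le (minExt' hK.isClosed hO hc hf
    (fun z h => (min_le_left _ _).trans (hm z h)) (((continuous_re.tendsto _).comp
      h2).eventually_const_le ((min_le_right _ _).trans_lt (by norm_num))) z hz)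

lemma minExt {a b m : ℝ} {f : ℂ → ℂ} (hf : DifferentiableOn ℂ f (out a b))
    (h1 : ∀ z ∈ box a b ∩ out a b, m ≤ (f z).re) (h2 : ∀ᶠ z in cocompact ℂ, m ≤ (f z).re) :
    ∀ z ∈ out a b, m ≤ (f z).re := minExt' closed_box closed_out (fun _ => out_of) hf h1 h2

lemma posExt {a b : ℝ} {f : ℂ → ℂ} (hf : DifferentiableOn ℂ f (out a b))
    (h1 : ∀ z ∈ box a b ∩ out a b, 0 < (f z).re) (h2 : Tendsto f (cocompact ℂ) (𝓝 1)) :
    ∀ z ∈ out a b, 0 < (f z).re := posExt' compact_box closed_out (fun _ => out_of) hf h1 h2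

variable {ι : Type} [Fintype ι] {S : Sch ι} {a₁ b₁ a₂ b₂ δ T B B' : ℝ}

omit [Fintype ι] in
lemma Far.out_F (h : S.Far a₁ b₁ a₂ b₂ δ T B B') : out a₁ b₁ ⊆ S.F := fun z hz k => by
  obtain ⟨h1, h2⟩ := h.ins k
  have h3 := abs_re_le_norm (z - S.c k)
  have h4 := abs_im_le_norm (z - S.c k)
  rw [sub_re] at h3
  rw [sub_im] at h4
  rcases hz with hz | hz
  · linarith [abs_sub_abs_le_abs_sub z.re (S.c k).re]
  · linarith [abs_sub_abs_le_abs_sub z.im (S.c k).im]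

lemma Far.ineq (A : S.Ana) (h : S.Far a₁ b₁ a₂ b₂ δ T B B') {z} (hz : z ∈ out a₁ b₁) :
    0 < (S.s1 z * S.s2 z).re ∧ 0 < (S.s1 z * conj (S.s2 z) * exp (-(I * S.h3 z))).re ∧
      |S.h3 z - z.re| ≤ δ := by
  obtain ⟨H, ρ, dH, lH, sρ, eH⟩ := A.hol
  obtain ⟨a0, b0, δ0⟩ := h.pos
  have sV := h.out_F.trans A.sub
  have d1 := A.d1.mono sV
  have d2 := A.d2.mono sV
  have bd (z) (hz : z ∈ box a₁ b₁ ∩ out a₁ b₁) := h.bd z hz.1
    (hz.2.imp hz.1.1.antisymm hz.1.2.antisymm)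
  have z0 (z) (hz : z ∈ out a₁ b₁) : z ≠ 0 := by
    rintro rfl; rcases hz with hz | hz <;> simp at hz <;> linarith
  have p1 := posExt (d1.mul d2) (fun z hz => (bd z hz).1) (by
    simpa [σ1, σ2, mul_mul_mul_comm _ (exp _), ← exp_add, Pi.mul_def] using A.lim1.mul A.lim2)
  set g := fun z => H z + ∑ k, ρ k * log (1 - S.c k / z) - z
  have dg : DifferentiableOn ℂ g (out a₁ b₁) := by
    refine ((dH.mono sV).add (.fun_sum fun k _ => .const_mul (.clog ?_ fun z hz => ?_) _)).sub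
      differentiableOn_id
    · fun_prop (disch := assumption)
    · by_contra c
      simp only [mem_slitPlane_iff, not_or, not_lt, not_not, sub_re, sub_im, one_re, one_im,
        zero_sub, neg_eq_zero, sub_nonpos] at c
      have e : S.c k = (S.c k / z).re * z := by
        rw [← div_eq_iff (z0 z hz)]; exact Complex.ext rfl (by simp [c.2])
      obtain ⟨h1, h2⟩ := h.ins k
      have := norm_nonneg (S.κ k)
      rw [e] at h1 h2
      simp only [re_ofReal_mul, im_ofReal_mul, abs_mul, abs_of_pos (one_pos.trans_le c.1)] at h1 h2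
      rcases hz with hz | hz <;> nlinarith [c.1]
  have lg : Tendsto g (cocompact ℂ) (𝓝 0) := by
    simpa [g, add_sub_right_comm] using lH.add (lim_log (S := S) ρ)
  have eg (z) (hz : z ∈ out a₁ b₁) : (g z).re = S.h3 z - z.re := by
    rw [eH z (sV hz), sum_log sρ (z0 z hz) (A.ne_c (h.out_F hz))]; rfl
  have n2 (z) (hz : z ∈ out a₁ b₁) : S.s2 z ≠ 0 := fun e => by simpa [e] using p1 z hz
  have eq (z) (hz : z ∈ out a₁ b₁) : 0 < (S.σ1 z / S.σ2 z * exp (-(I * g z))).re ↔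
      0 < (S.s1 z * conj (S.s2 z) * exp (-(I * S.h3 z))).re := by
    have n := normSq_pos.2 (n2 z hz)
    have : S.σ1 z / S.σ2 z * exp (-(I * g z)) = (Real.exp ((g z).im + z.im) / normSq (S.s2 z) : ℝ) *
        (S.s1 z * conj (S.s2 z) * exp (-(I * S.h3 z))) := by
      have e : exp (-(I * z / 2)) * exp (-(I * g z)) =
          exp (I * z / 2) * (exp ((g z).im + z.im : ℝ) * exp (-(I * S.h3 z))) := by
        simp only [← exp_add]
        congr 1; apply Complex.ext <;> simp [eg z hz] <;> ring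
      have := n2 z hz
      have : conj (S.s2 z) ≠ 0 := by simpa
      rw [σ1, σ2, ofReal_div, ofReal_exp, normSq_eq_conj_mul_self]
      field_simp
      linear_combination S.s1 z * e
    rw [this, re_ofReal_mul, mul_pos_iff_of_pos_left (by positivity)]
  have lδ (s : ℂ) : ∀ᶠ z in cocompact ℂ, -δ ≤ (s * g z).re :=
    ((continuous_re.tendsto _).comp (lg.const_mul s)).eventually_const_le (by simpa)
  refine ⟨p1 z hz, (eq z hz).1 (posExt (f := fun z => S.σ1 z / S.σ2 z * exp (-(I * g z))) ?_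
    (fun z hz => (eq z hz.2).2 (bd z hz).2.1) ?_ z hz), abs_le.2 ⟨?_, ?_⟩⟩
  · have : ∀ z ∈ out a₁ b₁, S.s2 z * exp (I * z / 2) ≠ 0 := fun z hz =>
      mul_ne_zero (n2 z hz) (exp_ne_zero _)
    unfold σ1 σ2; fun_prop (disch := assumption)
  · simpa using (A.lim1.div A.lim2 one_ne_zero).mul (lg.const_mul I).neg.cexp
  · simpa [eg z hz] using minExt (dg.const_mul 1) (fun z hz => by
      simpa [eg z hz.2] using (abs_le.1 (bd z hz).2.2).1) (lδ 1) z hz
  · simpa [eg z hz, add_comm δ] using minExt (dg.const_mul (-1)) (fun z hz => by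
      simpa [eg z hz.2, add_comm δ] using (abs_le.1 (bd z hz).2.2).2) (lδ (-1)) z hz

lemma Far.mono (A : S.Ana) (h : S.Far a₁ b₁ a₂ b₂ δ T B B') {y : ℝ} {s : Set ℝ} (hs : Convex ℝ s)
    (ho : ∀ x ∈ s, (x + y * I : ℂ) ∈ out a₁ b₁) : ContinuousOn (fun x : ℝ => S.h3 (x + y * I)) s ∧
      StrictMonoOn (fun x : ℝ => S.h3 (x + y * I)) s := by
  have d (x) (hx : x ∈ s) : HasDerivAt (fun x : ℝ => S.h3 (x + y * I))
      (S.s1 (x + y * I) * S.s2 (x + y * I)).re x := by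
    obtain ⟨g1, g2⟩ := A.dh _ (A.sub (h.out_F (ho x hx)))
    have p : HasDerivAt (fun x : ℝ => (x + y * I : ℂ)) 1 x := by
      simpa using (hasDerivAt_id (x : ℂ)).comp_ofReal.add_const (y * I : ℂ)
    exact (g1.hasFDerivAt.comp_hasDerivAt x p).congr_deriv (by rw [g2, mul_one])
  have c : ContinuousOn (fun x : ℝ => S.h3 (x + y * I)) s :=
    fun x hx => (d x hx).continuousAt.continuousWithinAt
  refine ⟨c, strictMonoOn_of_deriv_pos hs c fun x hx => ?_⟩
  rw [(d x (interior_subset hx)).deriv]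
  exact (h.ineq A (ho x (interior_subset hx))).1

lemma Far.exu (A : S.Ana) (h : S.Far a₁ b₁ a₂ b₂ δ T B B') {t y : ℝ} (H : b₁ ≤ |y| ∨ T ≤ |t|) :
    ∃! z, (z ∈ out a₁ b₁ ∧ S.h3 z = t) ∧ z.im = y := by
  obtain ⟨a0, b0, δ0⟩ := h.pos
  have near (x : ℝ) (hx : (x + y * I : ℂ) ∈ out a₁ b₁) : |S.h3 (x + y * I) - x| ≤ δ := by
    simpa using (h.ineq A hx).2.2
  have oI (x : ℝ) (hx : x ∈ Ici a₁) : (x + y * I : ℂ) ∈ out a₁ b₁ :=
    .inl (by simpa using le_abs.2 (.inl hx))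
  have oJ (x : ℝ) (hx : x ∈ Iic (-a₁)) : (x + y * I : ℂ) ∈ out a₁ b₁ :=
    .inl (by simpa using le_abs.2 (.inr (le_neg.1 hx)))
  obtain ⟨s, hs, h1, h2, ⟨u, hu, h3⟩, v, hv, h4⟩ : ∃ s : Set ℝ, Convex ℝ s ∧
      (∀ x ∈ s, (x + y * I : ℂ) ∈ out a₁ b₁) ∧
      (∀ x : ℝ, (x + y * I : ℂ) ∈ out a₁ b₁ → S.h3 (x + y * I) = t → x ∈ s) ∧
      (∃ x ∈ s, S.h3 (x + y * I) ≤ t) ∧ ∃ x ∈ s, t ≤ S.h3 (x + y * I) := by
    rcases le_or_gt b₁ |y| with hy | hy
    · have o (x : ℝ) : (x + y * I : ℂ) ∈ out a₁ b₁ := .inr (by simpa)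
      exact ⟨univ, convex_univ, fun x _ => o x, fun _ _ _ => trivial,
        ⟨t - δ, trivial, by linarith [abs_le.1 (near _ (o (t - δ)))]⟩,
        ⟨t + δ, trivial, by linarith [abs_le.1 (near _ (o (t + δ)))]⟩⟩
    have m1 := abs_lt.1 (h.mid _ ⟨h.out_F (oI a₁ self_mem_Ici), by simp [abs_of_pos a0],
      by simpa using hy.le⟩)
    have m2 := abs_lt.1 (h.mid _ ⟨h.out_F (oJ (-a₁) self_mem_Iic), by simp [abs_of_pos a0],
      by simpa using hy.le⟩)
    have side (x : ℝ) (hx : (x + y * I : ℂ) ∈ out a₁ b₁) : x ∈ Ici a₁ ∨ x ∈ Iic (-a₁) :=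
      (le_abs.1 (by simpa [out, hy.not_ge] using hx)).imp_right le_neg.1
    rcases le_abs.1 (H.resolve_left hy.not_ge) with ht | ht
    · refine ⟨_, convex_Ici a₁, oI, fun x hx e => (side x hx).resolve_right fun hx' => ?_,
        ⟨a₁, self_mem_Ici, by linarith⟩, max a₁ (t + δ), mem_Ici.2 (le_max_left _ _), ?_⟩
      · linarith [(h.mono A (convex_Iic _) oJ).2.monotoneOn hx' self_mem_Iic hx']
      · linarith [abs_le.1 (near _ (oI _ (le_max_left a₁ (t + δ)))), le_max_right a₁ (t + δ)]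
    · refine ⟨_, convex_Iic (-a₁), oJ, fun x hx e => (side x hx).resolve_left fun hx' => ?_,
        ⟨min (-a₁) (t - δ), mem_Iic.2 (min_le_left _ _), ?_⟩, -a₁, self_mem_Iic, by linarith⟩
      · linarith [(h.mono A (convex_Ici _) oI).2.monotoneOn self_mem_Ici hx' hx']
      · linarith [abs_le.1 (near _ (oJ _ (min_le_left (-a₁) (t - δ)))), min_le_right (-a₁) (t - δ)]
  obtain ⟨c, m⟩ := h.mono A hs h1
  obtain ⟨x, hx, e⟩ := hs.isPreconnected.intermediate_value hu hv c ⟨h3, h4⟩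
  refine ⟨x + y * I, ⟨⟨h1 x hx, e⟩, by simp⟩, ?_⟩
  rintro z ⟨⟨g1, g2⟩, rfl⟩
  rw [← m.injOn (h2 z.re (by rwa [re_add_im]) (by rwa [re_add_im])) hx
    (by simp only [re_add_im, g2, e]), re_add_im]

lemma Far.level (A : S.Ana) (h : S.Far a₁ b₁ a₂ b₂ δ T B B') {z w : ℂ} (hz : z ∈ out a₁ b₁)
    (hw : w ∈ out a₁ b₁) (e : S.h3 z = S.h3 w) (lt : z.im < w.im)
    (H : ∀ y ∈ Icc z.im w.im, b₁ ≤ |y| ∨ T ≤ |S.h3 w|) : S.ξ z < S.ξ w := by
  set t := S.h3 w
  choose! ζ h1 h2 using fun y hy => h.exu A (H y hy)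
  have sV := h.out_F.trans A.sub
  have ch : ContinuousOn S.h3 (out a₁ b₁) := fun z hz =>
    (A.dh z (sV hz)).1.continuousAt.continuousWithinAt
  have c : ContinuousOn ζ (Icc z.im w.im) := continuousOn_iff_isClosed.2 fun C hC => by
    refine ⟨im '' (box (|t| + δ) (|z.im| + |w.im|) ∩ (out a₁ b₁ ∩ S.h3 ⁻¹' {t} ∩ C)),
      ((compact_box.inter_right ((ch.preimage_isClosed_of_isClosed closed_out
        isClosed_singleton).inter hC)).image continuous_im).isClosed, ?_⟩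
    ext y
    refine ⟨fun ⟨g1, g2⟩ => ⟨⟨ζ y, ⟨⟨?_, ?_⟩, (h1 y g2).1, g1⟩, (h1 y g2).2⟩, g2⟩, ?_⟩
    · have := (h.ineq A (h1 y g2).1.1).2.2
      rw [(h1 y g2).1.2, abs_sub_comm] at this
      linarith [abs_sub_abs_le_abs_sub (ζ y).re t]
    · rw [(h1 y g2).2, abs_le]
      constructor <;> linarith [g2.1, g2.2, neg_abs_le z.im, le_abs_self w.im, abs_nonneg z.im,
        abs_nonneg w.im]
    · rintro ⟨⟨u, ⟨-, g1, g2⟩, g3⟩, g4⟩
      exact ⟨show ζ y ∈ C from h2 y g4 u ⟨g1, g3⟩ ▸ g2, g4⟩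
  set η := fun y => (S.Z (ζ y) * (I * exp (-(I * t)))).re
  have d (y) (hy : y ∈ Ioo z.im w.im) : 0 < deriv η y := by
    have hn := Icc_mem_nhds hy.1 hy.2
    obtain ⟨⟨g1, g2⟩, g3⟩ := h1 y (Ioo_subset_Icc_self hy)
    obtain ⟨p1, p2, -⟩ := h.ineq A g1
    obtain ⟨d1, d2⟩ := A.dh _ (sV g1)
    obtain ⟨d3, d4⟩ := A.dZ _ (sV g1)
    rw [g2] at p2
    generalize S.s1 (ζ y) = a at *
    generalize S.s2 (ζ y) = b at *
    obtain ⟨u, u1, u2⟩ : ∃ u : ℂ, u.re = (a * b).im / (a * b).re ∧ u.im = 1 := ⟨⟨_, _⟩, rfl, rfl⟩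
    have l1 : (fun x => ζ x - ζ y - (x - y) • u) =o[𝓝 y] fun x => ζ x - ζ y := by
      have := ((d1.hasFDerivAt.isLittleO.comp_tendsto (c.continuousAt hn)).const_mul_left
        (-((a * b).re)⁻¹))
      refine (isLittleO_ofReal_left.2 this).congr' ?_ .rfl
      filter_upwards [hn] with x hx
      apply Complex.ext
      · simp only [Function.comp, (h1 x hx).1.2, g2, d2, ofReal_re]
        rw [mul_re (a * b)]
        simp only [sub_re, sub_im, (h1 x hx).2, g3, smul_re, u1, smul_eq_mul]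
        field_simp; ring
      · simp [(h1 x hx).2, g3, u2]
    have dζ : HasDerivAt ζ u y := by
      refine hasDerivAt_iff_isLittleO.2 (l1.trans_isBigO (l1.right_isBigO_sub.trans ?_))
      simp only [sub_sub_cancel]
      exact .of_bound ‖u‖ (.of_forall fun x => by rw [norm_smul, mul_comm])
    have := reCLM.hasFDerivAt.comp_hasDerivAt y ((d3.hasFDerivAt.comp_hasDerivAt y dζ).mul_const
      (I * exp (-(I * t))))
    rw [show deriv η y = _ from this.deriv, reCLM_apply, d4]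
    have e : (conj (b ^ 2 * u) - a ^ 2 * u) / 2 * (I * exp (-(I * t))) =
        ((normSq a + normSq b) / (2 * (a * b).re) : ℝ) * (a * conj b * exp (-(I * t))) := by
      have e1 : ((a * b).re : ℂ) * u = I * conj (a * b) := by
        generalize a * b = p at *
        apply Complex.ext <;> simp [u1, u2]; field_simp
      have e2 := congr(conj $e1)
      have n := ofReal_ne_zero.2 p1.ne'
      simp only [map_mul, conj_ofReal, conj_I, conj_conj, map_pow] at e1 e2 ⊢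
      rw [ofReal_div, ofReal_add, ofReal_mul, normSq_eq_conj_mul_self, normSq_eq_conj_mul_self]
      field_simp
      push_cast
      linear_combination 2 * I * conj b ^ 2 * e2 - 2 * I * a ^ 2 * e1 -
        2 * a * conj b * (conj a * a + conj b * b) * I_mul_I
    have := normSq_nonneg b
    have : 0 < normSq a := normSq_pos.2 fun e => by simp [e] at p1
    rw [e, re_ofReal_mul]; positivity
  have l : z.im ∈ Icc z.im w.im := left_mem_Icc.2 lt.le
  have r : w.im ∈ Icc z.im w.im := right_mem_Icc.2 lt.le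
  have := strictMonoOn_of_deriv_pos (convex_Icc _ _) (f := η) (continuous_re.comp_continuousOn
    ((ContinuousOn.comp (fun z hz => (A.dZ z (sV hz)).1.continuousAt.continuousWithinAt) c
      fun y hy => (h1 y hy).1.1).mul continuousOn_const)) (by rwa [interior_Icc]) l r lt
  simp only [η, ← h2 _ l z ⟨⟨hz, e⟩, rfl⟩, ← h2 _ r w ⟨⟨hw, rfl⟩, rfl⟩] at this
  rwa [ξ, ξ, e]

theorem emb_univ (A : S.Ana) (h : S.Far a₁ b₁ a₂ b₂ δ T B B') (E : S.Emb (box a₂ b₂)) :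
    S.Emb univ := by
  obtain ⟨a0, b0, δ0⟩ := h.pos
  have hb := h.hb
  have re (z) (hz : z ∈ out a₁ b₁) (ht : |S.h3 z| < T) : |z.re| ≤ a₂ := by
    have := (h.ineq A hz).2.2
    rw [abs_sub_comm] at this
    linarith [abs_sub_abs_le_abs_sub z.re (S.h3 z), h.ha]
  have aa : a₁ ≤ a₂ := by
    have o : (a₁ : ℂ) ∈ out a₁ b₁ := .inl (by simp [abs_of_pos a0])
    simpa [abs_of_pos a0] using re _ o (h.mid _ ⟨h.out_F o, by simp [abs_of_pos a0], by simp [b0.le]⟩)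
  have o2 (z) (hz : z ∉ box a₂ b₂) : z ∈ out a₁ b₁ :=
    (out_of hz).imp aa.trans hb.trans
  have edge (t y : ℝ) (ht : |t| < T) (hy : b₁ ≤ |y|) :
      ∃ u ∈ out a₁ b₁, S.h3 u = t ∧ u.im = y ∧ |u.re| ≤ a₂ := by
    obtain ⟨u, ⟨⟨g1, g2⟩, g3⟩, -⟩ := h.exu A (t := t) (.inl hy)
    exact ⟨u, g1, g2, g3, re u g1 (g2 ▸ ht)⟩
  have le {z w} (hz : z ∈ out a₁ b₁) (hw : w ∈ out a₁ b₁) (e : S.h3 z = S.h3 w) (l : z.im ≤ w.im)
      (H : ∀ y ∈ Icc z.im w.im, b₁ ≤ |y| ∨ T ≤ |S.h3 w|) : z = w ∨ S.ξ z < S.ξ w :=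
    l.eq_or_lt.imp (fun l => (h.exu A (H w.im ⟨l.le, le_rfl⟩)).unique ⟨⟨hz, e⟩, l⟩ ⟨⟨hw, rfl⟩, rfl⟩)
      fun l => h.level A hz hw e l H
  have eq {z w} (hz : z ∈ out a₁ b₁) (hw : w ∈ out a₁ b₁) (e : S.h3 z = S.h3 w)
      (e' : S.ξ z = S.ξ w) (H : ∀ y ∈ uIcc z.im w.im, b₁ ≤ |y| ∨ T ≤ |S.h3 w|) : w = z := by
    rcases le_total z.im w.im with l | l
    · exact ((le hz hw e l (uIcc_of_le l ▸ H)).resolve_right e'.not_lt).symm
    · exact (le hw hz e.symm l (e ▸ uIcc_of_ge l ▸ H)).resolve_right e'.not_gt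
  have up {y : ℝ} (hy : b₁ ≤ y) : b₁ ≤ |y| := le_abs.2 (.inl hy)
  have dn {y : ℝ} (hy : y ≤ -b₁) : b₁ ≤ |y| := le_abs.2 (.inr (le_neg.1 hy))
  have U (w) (hw : w ∈ S.F) (ht : |S.h3 w| < T) : (w.im ≤ b₁ → S.ξ w ≤ B) ∧
      (-b₁ ≤ w.im → -B' ≤ S.ξ w) := by
    have m (g : |w.im| ≤ b₁) := h.midZ w ⟨hw, by
      by_cases g' : w ∈ box a₁ b₁
      exacts [g'.1.trans aa, re w (out_of g') ht], g⟩
    constructor <;> intro g
    · rcases le_total (-b₁) w.im with g' | g'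
      · exact (m (abs_le.2 ⟨g', g⟩)).2
      obtain ⟨u, g1, g2, g3, g4⟩ := edge _ (-b₁) ht (dn le_rfl)
      have := (h.midZ u ⟨h.out_F g1, g4, by simp [g3, abs_of_pos b0]⟩).2
      rcases le (.inr (dn g')) g1 g2.symm (g3 ▸ g') fun y hy => .inl (dn (g3 ▸ hy.2)) with e | e
      exacts [e ▸ this, e.le.trans this]
    · rcases le_total w.im b₁ with g' | g'
      · exact (m (abs_le.2 ⟨g, g'⟩)).1
      obtain ⟨u, g1, g2, g3, g4⟩ := edge _ b₁ ht (up le_rfl)
      have := (h.midZ u ⟨h.out_F g1, g4, by simp [g3, abs_of_pos b0]⟩).1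
      rcases le g1 (.inr (up g')) g2 (g3 ▸ g') fun y hy => .inl (up (g3 ▸ hy.1)) with e | e
      exacts [e ▸ this, this.trans e.le]
  have far (z) (hz : z ∉ box a₂ b₂) (w) (hw : w ∈ S.F) (e : S.X z = S.X w) : w = z := by
    have e3 : S.h3 z = S.h3 w := congr($e 2)
    have eξ : S.ξ z = S.ξ w := by
      rw [ξ, ξ, e3, show S.Z z = S.Z w from Complex.ext congr($e 0) congr($e 1)]
    have oz := o2 z hz
    rcases le_or_gt T |S.h3 w| with ht | ht
    · exact eq oz (out_of fun g => (h.mid w ⟨hw, g⟩).not_ge ht) e3 eξ fun _ _ => .inr ht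
    rcases lt_abs.1 (not_le.1 fun g => hz ⟨re z oz (e3 ▸ ht), g⟩) with g | g
    · obtain ⟨u, g1, g2, g3, g4⟩ := edge _ b₂ ht (up hb)
      have k := (h.top u.re g4).1
      rw [← g3, re_add_im] at k
      have := h.level A g1 oz (g2.trans e3.symm) (g3 ▸ g) fun y hy => .inl (up (hb.trans (g3 ▸ hy.1)))
      have g5 : b₁ ≤ w.im := (not_le.1 fun g5 => by linarith [(U w hw ht).1 g5]).le
      exact eq oz (.inr (up g5)) e3 eξ fun y hy => .inl (up ((le_min (by linarith) g5).trans hy.1))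
    · obtain ⟨u, g1, g2, g3, g4⟩ := edge _ (-b₂) ht (dn (neg_le_neg hb))
      have k := (h.top u.re g4).2
      rw [sub_eq_add_neg, ← neg_mul, ← ofReal_neg, ← g3, re_add_im] at k
      have := h.level A oz g1 (e3.trans g2.symm) (by linarith)
        fun y hy => .inl (dn (by linarith [hy.2]))
      have g5 : w.im ≤ -b₁ := (not_le.1 fun g5 => by linarith [(U w hw ht).2 g5]).le
      exact eq oz (.inr (dn g5)) e3 eξ fun y hy => .inl (dn (hy.2.trans (max_le (by linarith) g5)))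
  intro z ⟨hz, _⟩
  by_cases g : z ∈ box a₂ b₂
  · refine ⟨(E z ⟨hz, g⟩).1, fun w ⟨hw, _⟩ e => ?_⟩
    by_cases g' : w ∈ box a₂ b₂
    exacts [(E z ⟨hz, g⟩).2 w ⟨hw, g'⟩ e, .inl (far w g' z hz e.symm).symm]
  · exact ⟨.inl fun e => by simpa [e] using (h.ineq A (o2 z g)).1,
      fun w ⟨hw, _⟩ e => .inl (far z g w hw e)⟩

end Pool.Agent.MP_c434f6_gt.H30.Sch

end

section

/-! Assembly of the geometric part. -/

open Set

namespace Pool.Agent.MP_c434f6_gt.H30.Sch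

theorem final {ι : Type} [Fintype ι] {S S' : Sch ι} {g : ℕ} (e : Fin g × Bool ≃ ι)
    (he : ∀ j, S.pr (e (j, false)) = e (j, true)) (he' : ∀ j, S'.pr (e (j, false)) = e (j, true))
    (A : S.Ana) (A' : S'.Ana) {a₁ b₁ a₂ b₂ δ T B B' a₁' b₁' a₂' b₂' δ' T' C C' r t₁ t₂ : ℝ}
    (H : S.Far a₁ b₁ a₂ b₂ δ T B B') (H' : S'.Far a₁' b₁' a₂' b₂' δ' T' C C')
    (E : S.Emb (box a₂ b₂)) (E' : S'.Emb (box a₂' b₂'))
    (h₁ : t₁ ∈ S.Crit) (h₂ : t₂ ∈ S.Crit) (h : 2 * r < t₁ - t₂)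
    (h' : ∀ z ∈ S'.F ∩ box a₁' b₁', S'.s1 z * S'.s2 z = 0 → |S'.h3 z| ≤ r) :
    ∃ M₁ M₂, OneEnded g M₁ ∧ OneEnded g M₂ ∧ ¬ Similar M₁ M₂ :=
  ⟨_, _, oneEnded A (emb_univ A H E) e he, oneEnded A' (emb_univ A' H' E') e he',
    not_similar A (emb_univ A H E) A' (emb_univ A' H' E') h₁ h₂ h (by
      rintro _ ⟨z, ⟨hz, h0⟩, rfl⟩
      exact h' z ⟨hz, by_contra fun c => by simpa [h0] using (H'.ineq A' (out_of c)).1⟩ h0)⟩

end Pool.Agent.MP_c434f6_gt.H30.Sch

end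

section

/-! Maximum principle on the glued surface; reduction of `Far` to the sides of rectangles. -/

open Set Filter Topology Metric Complex
open scoped ComplexConjugate RealInnerProductSpace

namespace Pool.Agent.MP_c434f6_gt.H30.Sch

variable {ι : Type} [Fintype ι] {S : Sch ι}

lemma Ana.maxP (A : S.Ana) {K O : Set ℂ} (hK : IsCompact K) (hO : IsClosed O) (hc : Kᶜ ⊆ O)
    (ho : ∀ z ∈ O, ∀ k, ‖S.κ k‖ < ‖z - S.c k‖) {n : E3} (hn : n ≠ 0) {z} (hz : z ∈ S.F ∩ K) :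
    ∃ w ∈ K ∩ O, ⟪n, S.X z⟫ ≤ ⟪n, S.X w⟫ := by
  obtain ⟨w, hw, m⟩ := (hK.inter_left closed_F).exists_isMaxOn ⟨z, hz⟩
    ((innerSL ℝ n).continuous.comp_continuousOn (A.cont.mono (inter_subset_left.trans A.sub)))
  refine ⟨w, ⟨hw.2, by_contra fun h => hn (A.dot_ne ?_)⟩, m hz⟩
  set ψ := fun z => ∑ j, n j * S.φ z j
  have dψ : DifferentiableOn ℂ ψ S.V :=
    .fun_sum fun j _ => (differentiableOn_pi.1 A.dφ j).const_mul _
  obtain ⟨r, r0, hr⟩ := Metric.isOpen_iff.1 A.opn w (A.sub hw.1)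
  obtain ⟨Ψ, hΨ⟩ := (dψ.mono hr).isExactOn_ball
  have d (z) (hz : z ∈ ball w r) :
      HasFDerivAt (fun z => (Ψ z).re - ⟪n, S.X z⟫) (0 : ℂ →L[ℝ] ℝ) z := by
    refine ((reCLM.hasFDerivAt.comp z ((hΨ z hz).hasFDerivAt.restrictScalars ℝ)).sub
      ((innerSL ℝ n).hasFDerivAt.comp z (A.hasFD (hr hz)))).congr_fderiv ?_
    ext1 v
    exact sub_eq_zero.2 ((inner_LL _ _ v).trans (by simp [ψ, mul_comm])).symm
  have e (z) (hz : z ∈ ball w r) := isOpen_ball.is_const_of_fderiv_eq_zero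
    (convex_ball w r).isPreconnected (fun z hz => (d z hz).differentiableAt.differentiableWithinAt)
    (fun z hz => (d z hz).fderiv) hz (mem_ball_self r0)
  have b := isOpen_ball.eventually_mem (mem_ball_self r0 : w ∈ _)
  have l := eventually_eq_of_isLocalMax_norm (f := fun z => exp (Ψ z)) (c := w)
    (b.mono fun z hz => (hΨ z hz).differentiableAt.cexp) (by
      filter_upwards [b, A.ev_W hw.1 hO.isOpen_compl h fun k z e h => (ho z h k).ne' e] with z h1 h2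
      obtain ⟨u, hu, h3⟩ := h2
      have := m ⟨hu.1, by_contra fun c => hu.2 (hc c)⟩
      simp only [mem_ofPred_eq, Function.comp, innerSL_apply_apply, h3] at this
      simp only [Function.comp, norm_exp, Real.exp_le_exp]
      linarith [e z h1])
  refine AnalyticOnNhd.eqOn_zero_of_preconnected_of_eventuallyEq_zero
    ((dψ.analyticOnNhd A.opn).mono A.sub) A.conn_F.isPreconnected hw.1 ?_
  filter_upwards [b, l.eventually_nhds] with z h1 h2
  have := (hΨ z h1).cexp.unique ((hasDerivAt_const z _).congr_of_eventuallyEq h2)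
  simpa using this

lemma Ana.h3_le (A : S.Ana) {K O : Set ℂ} (hK : IsCompact K) (hO : IsClosed O) (hc : Kᶜ ⊆ O)
    (ho : ∀ z ∈ O, ∀ k, ‖S.κ k‖ < ‖z - S.c k‖) {z} (hz : z ∈ S.F ∩ K) :
    ∃ w ∈ K ∩ O, |S.h3 z| ≤ |S.h3 w| := by
  rcases le_total 0 (S.h3 z) with h | h
  · obtain ⟨w, hw, h1⟩ := A.maxP hK hO hc ho (n := EuclideanSpace.single 2 1) (by simp) hz
    simp [EuclideanSpace.inner_single_left, X] at h1
    exact ⟨w, hw, abs_le_abs_of_nonneg h h1⟩
  · obtain ⟨w, hw, h1⟩ := A.maxP hK hO hc ho (n := EuclideanSpace.single 2 (-1)) (by simp) hz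
    simp [EuclideanSpace.inner_single_left, X] at h1
    exact ⟨w, hw, abs_le_abs_of_nonpos h h1⟩

lemma Ana.Z_le (A : S.Ana) {K O : Set ℂ} (hK : IsCompact K) (hO : IsClosed O) (hc : Kᶜ ⊆ O)
    (ho : ∀ z ∈ O, ∀ k, ‖S.κ k‖ < ‖z - S.c k‖) {z} (hz : z ∈ S.F ∩ K) {u : ℂ} (hu : ‖u‖ = 1) :
    ∃ w ∈ K ∩ O, (S.Z z * u).re ≤ ‖S.Z w‖ := by
  obtain ⟨w, hw, h1⟩ := A.maxP hK hO hc ho (n := !₂[u.re, -u.im, 0]) (fun e => by
    have : u = 0 := Complex.ext congr($e 0) (neg_eq_zero.1 congr($e 1))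
    simp [this] at hu) hz
  refine ⟨w, hw, le_trans ?_ ((re_le_norm (S.Z w * u)).trans (by simp [hu]))⟩
  simp [PiLp.inner_apply, Fin.sum_univ_three, X] at h1 ⊢
  linarith

theorem Ana.crit_le (A : S.Ana) {K O : Set ℂ} (hK : IsCompact K) (hO : IsClosed O) (hc : Kᶜ ⊆ O)
    (ho : ∀ z ∈ O, ∀ k, ‖S.κ k‖ < ‖z - S.c k‖) {r : ℝ}
    (h : ∀ z ∈ K ∩ O, 0 < (S.s1 z * S.s2 z).re ∧ |S.h3 z| ≤ r) {z} (hz : z ∈ S.F)
    (h0 : S.s1 z * S.s2 z = 0) : |S.h3 z| ≤ r := by
  have sV : O ⊆ S.V := fun z hz => A.sub fun k => (ho z hz k).le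
  have p := posExt' hK hO hc ((A.d1.mono sV).mul (A.d2.mono sV)) (fun z hz => (h z hz).1) (by
    simpa [σ1, σ2, mul_mul_mul_comm _ (exp _), ← exp_add, Pi.mul_def] using A.lim1.mul A.lim2)
  obtain ⟨w, hw, h1⟩ := A.h3_le hK hO hc ho ⟨hz, by_contra fun c => by simpa [h0] using p z (hc c)⟩
  exact h1.trans (h w hw).2

omit [Fintype ι] in
lemma out_lt {a b : ℝ} (h : ∀ k, |(S.c k).re| + ‖S.κ k‖ < a ∧ |(S.c k).im| + ‖S.κ k‖ < b) :
    ∀ z ∈ out a b, ∀ k, ‖S.κ k‖ < ‖z - S.c k‖ := fun z hz k => by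
  obtain ⟨h1, h2⟩ := h k
  have h3 := abs_re_le_norm (z - S.c k)
  have h4 := abs_im_le_norm (z - S.c k)
  rw [sub_re] at h3
  rw [sub_im] at h4
  rcases hz with hz | hz
  · linarith [abs_sub_abs_le_abs_sub z.re (S.c k).re]
  · linarith [abs_sub_abs_le_abs_sub z.im (S.c k).im]

theorem Ana.far (A : S.Ana) {a₁ b₁ a₂ b₂ δ T B : ℝ} (hb : b₁ ≤ b₂) (ha : T + δ ≤ a₂) (haa : a₁ ≤ a₂)
    (ins : ∀ k, |(S.c k).re| + ‖S.κ k‖ < a₁ ∧ |(S.c k).im| + ‖S.κ k‖ < b₁)
    (pos : 0 < a₁ ∧ 0 < b₁ ∧ 0 < δ)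
    (bd : ∀ z ∈ box a₁ b₁ ∩ out a₁ b₁, (0 < (S.s1 z * S.s2 z).re ∧
      0 < (S.s1 z * conj (S.s2 z) * exp (-(I * S.h3 z))).re ∧ |S.h3 z - z.re| ≤ δ) ∧ |S.h3 z| < T)
    (bZ : ∀ z ∈ box a₂ b₁ ∩ out a₂ b₁, ‖S.Z z‖ ≤ B)
    (top : ∀ x : ℝ, |x| ≤ a₂ → B ≤ S.ξ (x + b₂ * I) ∧ S.ξ (x - b₂ * I) ≤ -B) :
    S.Far a₁ b₁ a₂ b₂ δ T B B := by
  refine ⟨hb, ha, ins, pos, fun z hz h => (bd z ⟨hz, h.imp Eq.ge Eq.ge⟩).1, fun z hz => ?_,
    fun z hz => ?_, top⟩
  · obtain ⟨w, hw, h⟩ := A.h3_le compact_box closed_out (fun _ => out_of) (out_lt ins) hz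
    exact h.trans_lt (bd w hw).2
  · have k {u : ℂ} (hu : ‖u‖ = 1) : (S.Z z * u).re ≤ B := by
      obtain ⟨w, hw, h⟩ := A.Z_le compact_box closed_out (fun _ => out_of)
        (out_lt fun k => ⟨(ins k).1.trans_le haa, (ins k).2⟩) hz hu
      exact h.trans (bZ w hw)
    have n : ‖I * exp (-(I * S.h3 z))‖ = 1 := by simp [norm_exp]
    exact ⟨neg_le.1 (by simpa only [mul_neg, neg_re, ξ] using k (u := -_) ((norm_neg _).trans n)), k n⟩

/-- Symmetry under `z ↦ -conj z`. -/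
structure Tau (S : Sch ι) : Prop where
  F : ∀ z ∈ S.F, -conj z ∈ S.F
  s1 : ∀ z ∈ S.F, S.s1 (-conj z) = conj (S.s1 z)
  s2 : ∀ z ∈ S.F, S.s2 (-conj z) = conj (S.s2 z)
  h3 : ∀ z ∈ S.F, S.h3 (-conj z) = -S.h3 z
  Z : ∀ z ∈ S.F, S.Z (-conj z) = -conj (S.Z z)

end Pool.Agent.MP_c434f6_gt.H30.Sch

end
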