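import Pool.Agent.MP_c434f6_gt.G4.Surf
import Pool.Agent.MP_c434f6_gt.G4.Emb
import Pool.Agent.MP_c434f6_gt.G4.Stmt

/-! Translation to the definitions of the statement. -/

namespace Pool.Agent.MP_c434f6_gt.Stmt

theorem oneEnded {g : ℕ} {M : Set (EuclideanSpace ℝ (Fin 3))} (h : H30.OneEnded g M) :
    OneEnded g M :=
  ⟨h.1, h.2.1, ⟨fun p hp =>
    let ⟨U, W, φ, h1, h2, h3, h4, h5, h6, h7⟩ := h.2.2.1 p hp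
    ⟨U, W, φ, h1, h2, h3, h4, h5, h6, fun z hz => ⟨(h7 z hz).1, (h7 z hz).2⟩⟩⟩,
    ⟨h.2.2.2.1⟩, ⟨h.2.2.2.2.1⟩, h.2.2.2.2.2⟩

theorem main :
    ∃ M₁ M₂ : Set (EuclideanSpace ℝ (Fin 3)), OneEnded 4 M₁ ∧ OneEnded 4 M₂ ∧ ¬ Similar M₁ M₂ :=
  let ⟨M₁, M₂, h₁, h₂, h⟩ := H16.final_of_emb H30.Emb.embN H30.Emb.embH
  ⟨M₁, M₂, oneEnded h₁, oneEnded h₂, fun s => h s.map⟩

end Pool.Agent.MP_c434f6_gt.Stmt
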