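import Pool.Agent.MP_c434f6_gt.G4.Tree

section

/-! Weighted norms of polynomials; natural numbers that represent polynomials. -/

open Polynomial Complex Finset

namespace Pool.Agent.MP_c434f6_gt.H30.Emb

/-- The weighted sum of the moduli of the coefficients. -/
noncomputable def nrm (ρ : ℝ) (p : ℂ[X]) : ℝ := p.sum fun k a => ‖a‖ * ρ ^ k

/-- Truncation to degree seven. -/
noncomputable def tr (p : ℂ[X]) : ℂ[X] := ∑ k ∈ range 8, monomial k (p.coeff k)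

section nrm

variable {ρ ρ' : ℝ} {p q : ℂ[X]}

theorem nrm_eq_of_subset {s : Finset ℕ} (h : p.support ⊆ s) :
    nrm ρ p = ∑ k ∈ s, ‖p.coeff k‖ * ρ ^ k :=
  Finset.sum_subset h fun k _ hk => by rw [Polynomial.notMem_support_iff.1 hk]; simp

theorem nrm_eq_sum {n : ℕ} (h : p.natDegree < n) :
    nrm ρ p = ∑ k ∈ range n, ‖p.coeff k‖ * ρ ^ k :=
  nrm_eq_of_subset (Polynomial.supp_subset_range h)

theorem nrm_nonneg (h : 0 ≤ ρ) (p : ℂ[X]) : 0 ≤ nrm ρ p :=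
  Finset.sum_nonneg fun _ _ => mul_nonneg (norm_nonneg _) (pow_nonneg h _)

@[simp] theorem nrm_zero : nrm ρ 0 = 0 := by simp [nrm]

@[simp] theorem nrm_neg : nrm ρ (-p) = nrm ρ p := by
  simp [nrm, Polynomial.sum_def]

theorem nrm_add_le (h : 0 ≤ ρ) (p q : ℂ[X]) : nrm ρ (p + q) ≤ nrm ρ p + nrm ρ q := by
  rw [nrm_eq_of_subset (Polynomial.support_add (p := p) (q := q)),
    nrm_eq_of_subset (p := p) (subset_union_left (s₂ := q.support)),
    nrm_eq_of_subset (p := q) (subset_union_right (s₁ := p.support)), ← Finset.sum_add_distrib]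
  refine Finset.sum_le_sum fun k _ => ?_
  rw [← add_mul, coeff_add]
  exact mul_le_mul_of_nonneg_right (norm_add_le _ _) (pow_nonneg h _)

theorem nrm_sub_le (h : 0 ≤ ρ) (p q : ℂ[X]) : nrm ρ (p - q) ≤ nrm ρ p + nrm ρ q := by
  rw [sub_eq_add_neg, ← nrm_neg (p := q)]
  exact nrm_add_le h _ _

theorem nrm_sum_le (h : 0 ≤ ρ) {ι : Type} (s : Finset ι) (f : ι → ℂ[X]) :
    nrm ρ (∑ k ∈ s, f k) ≤ ∑ k ∈ s, nrm ρ (f k) :=
  Finset.le_sum_of_subadditive (nrm ρ) nrm_zero.le (nrm_add_le h) s f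

@[simp] theorem nrm_monomial (k : ℕ) (a : ℂ) : nrm ρ (monomial k a) = ‖a‖ * ρ ^ k :=
  Polynomial.sum_monomial_index a _ (by simp)

@[simp] theorem nrm_C (a : ℂ) : nrm ρ (C a) = ‖a‖ := by
  rw [← monomial_zero_left, nrm_monomial, pow_zero, mul_one]

theorem nrm_C_mul (a : ℂ) (p : ℂ[X]) : nrm ρ (C a * p) = ‖a‖ * nrm ρ p := by
  rw [nrm_eq_of_subset (s := p.support) fun k hk => by
      rw [mem_support_iff] at hk ⊢
      rw [coeff_C_mul] at hk
      exact right_ne_zero_of_mul hk,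
    nrm_eq_of_subset (p := p) subset_rfl, Finset.mul_sum]
  exact Finset.sum_congr rfl fun k _ => by rw [coeff_C_mul, norm_mul, mul_assoc]

theorem nrm_mul_X_pow (p : ℂ[X]) (k : ℕ) : nrm ρ (p * X ^ k) = nrm ρ p * ρ ^ k := by
  rw [nrm_eq_of_subset (s := p.support.map (addRightEmbedding k)) fun n hn => by
      rw [mem_support_iff, coeff_mul_X_pow'] at hn
      split_ifs at hn with h
      · exact Finset.mem_map.2 ⟨n - k, mem_support_iff.2 hn, Nat.sub_add_cancel h⟩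
      · exact absurd rfl hn,
    nrm_eq_of_subset (p := p) subset_rfl, Finset.sum_map, Finset.sum_mul]
  exact Finset.sum_congr rfl fun n _ => by
    rw [addRightEmbedding_apply, coeff_mul_X_pow, pow_add, mul_assoc]

theorem nrm_mul_le (h : 0 ≤ ρ) (p q : ℂ[X]) : nrm ρ (p * q) ≤ nrm ρ p * nrm ρ q := by
  conv_lhs => rw [q.as_sum_support_C_mul_X_pow, Finset.mul_sum]
  rw [nrm_eq_of_subset (p := q) subset_rfl, Finset.mul_sum]
  refine (nrm_sum_le h _ _).trans (Finset.sum_le_sum fun k _ => le_of_eq ?_)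
  rw [mul_left_comm, nrm_C_mul, nrm_mul_X_pow, mul_left_comm]

theorem nrm_mono (h : 0 ≤ ρ) (h' : ρ ≤ ρ') (p : ℂ[X]) : nrm ρ p ≤ nrm ρ' p :=
  Finset.sum_le_sum fun k _ =>
    mul_le_mul_of_nonneg_left (pow_le_pow_left₀ h h' k) (norm_nonneg _)

theorem norm_eval_le {w : ℂ} (h : ‖w‖ ≤ ρ) (p : ℂ[X]) : ‖p.eval w‖ ≤ nrm ρ p := by
  rw [eval_eq_sum, Polynomial.sum_def, nrm_eq_of_subset (p := p) subset_rfl]
  refine (norm_sum_le _ _).trans (Finset.sum_le_sum fun k _ => ?_)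
  rw [norm_mul, norm_pow]
  exact mul_le_mul_of_nonneg_left (pow_le_pow_left₀ (norm_nonneg _) h k) (norm_nonneg _)

theorem norm_coeff_mul_le (h : 0 ≤ ρ) (p : ℂ[X]) (k : ℕ) : ‖p.coeff k‖ * ρ ^ k ≤ nrm ρ p := by
  rw [nrm_eq_of_subset (p := p) (Finset.subset_insert k _)]
  exact Finset.single_le_sum (f := fun k => ‖p.coeff k‖ * ρ ^ k)
    (fun _ _ => mul_nonneg (norm_nonneg _) (pow_nonneg h _)) (Finset.mem_insert_self _ _)

theorem norm_coeff_le (h : 1 ≤ ρ) (p : ℂ[X]) (k : ℕ) : ‖p.coeff k‖ ≤ nrm ρ p :=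
  (le_mul_of_one_le_right (norm_nonneg _) (one_le_pow₀ h)).trans
    (norm_coeff_mul_le (zero_le_one.trans h) p k)

theorem coeff_tr (p : ℂ[X]) (k : ℕ) : (tr p).coeff k = if k < 8 then p.coeff k else 0 := by
  simp only [tr, finsetSum_coeff, coeff_monomial, Finset.sum_ite_eq', mem_range]

theorem natDegree_tr (p : ℂ[X]) : (tr p).natDegree < 8 :=
  Nat.lt_succ_of_le (natDegree_le_iff_coeff_eq_zero.2 fun k hk => by
    rw [coeff_tr, if_neg (by omega)])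

theorem tr_eq_self (h : p.natDegree < 8) : tr p = p := by
  ext k
  rw [coeff_tr]
  split_ifs with hk
  · rfl
  · exact (coeff_eq_zero_of_natDegree_lt (by omega)).symm

theorem tr_sub (p q : ℂ[X]) : tr (p - q) = tr p - tr q := by
  ext k
  simp only [coeff_tr, coeff_sub]
  split_ifs <;> simp

theorem tr_add (p q : ℂ[X]) : tr (p + q) = tr p + tr q := by
  ext k
  simp only [coeff_tr, coeff_add]
  split_ifs <;> simp

theorem tr_C_mul (a : ℂ) (p : ℂ[X]) : tr (C a * p) = C a * tr p := by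
  ext k
  simp only [coeff_tr, coeff_C_mul]
  split_ifs <;> simp

theorem nrm_tr_le (h : 0 ≤ ρ) (p : ℂ[X]) : nrm ρ (tr p) ≤ nrm ρ p := by
  rw [nrm_eq_of_subset (p := tr p) (subset_union_left (s₂ := p.support)),
    nrm_eq_of_subset (p := p) (subset_union_right (s₁ := (tr p).support))]
  refine Finset.sum_le_sum fun k _ => mul_le_mul_of_nonneg_right ?_ (pow_nonneg h _)
  rw [coeff_tr]
  split_ifs <;> simp

/-- Eight coefficients of modulus at most `2`. -/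
theorem nrm_le_83 (h : 0 ≤ ρ) (h' : ρ ≤ 23 / 16) (hd : p.natDegree < 8)
    (hc : ∀ k < 8, ‖p.coeff k‖ ≤ 2) : nrm ρ p ≤ 83 := by
  rw [nrm_eq_sum hd]
  calc ∑ k ∈ range 8, ‖p.coeff k‖ * ρ ^ k ≤ ∑ k ∈ range 8, 2 * (23 / 16 : ℝ) ^ k :=
        Finset.sum_le_sum fun k hk => mul_le_mul (hc k (mem_range.1 hk))
          (pow_le_pow_left₀ h h' k) (pow_nonneg h k) zero_le_two
    _ ≤ 83 := by norm_num [Finset.sum_range_succ]

/-- Splitting of a polynomial of degree below sixteen. -/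
theorem eq_tr_add (h : p.natDegree < 16) :
    p = tr p + (∑ k ∈ range 8, monomial k (p.coeff (k + 8))) * X ^ 8 := by
  ext k
  rw [coeff_add, coeff_tr, coeff_mul_X_pow']
  simp only [finsetSum_coeff, coeff_monomial, Finset.sum_ite_eq', mem_range]
  by_cases h1 : k < 8
  · rw [if_pos h1, if_neg (by omega), add_zero]
  · rw [if_neg h1, if_pos (by omega), zero_add]
    split_ifs with h2
    · rw [Nat.sub_add_cancel (by omega)]
    · exact coeff_eq_zero_of_natDegree_lt (by omega)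

end nrm

noncomputable def cx (p q : ℤ[X]) : ℂ[X] :=
  p.map (Int.castRingHom ℂ) + C I * q.map (Int.castRingHom ℂ)

/-- `a` is the value of `p` at `W`, modulo `W ^ N`. -/
def U (N a : ℕ) (p : ℤ[X]) : Prop := (W : ℤ) ^ N ∣ p.eval (W : ℤ) - a

def RU (N a b : ℕ) (p : ℂ[X]) : Prop := ∃ pr pi, p = cx pr pi ∧ U N a pr ∧ U N b pi

def Ng (N b n : ℕ) : Prop := (W : ℤ) ^ N ∣ (b : ℤ) + n

theorem coeff_cx (p q : ℤ[X]) (k : ℕ) :
    (cx p q).coeff k = ((p.coeff k : ℤ) : ℂ) + ((q.coeff k : ℤ) : ℂ) * I := by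
  simp [cx, mul_comm]

theorem dvd_of_eq_pk {m x y : ℤ} (h : m ∣ x) (e : x = y) : m ∣ y := e ▸ h

section RU

variable {N a b g h n a' b' : ℕ} {p q : ℂ[X]}

theorem RU.mul (h1 : RU N a b p) (h2 : RU N g h q) (h3 : Ng N h n) :
    RU N (a * g + b * n) (a * h + b * g) (p * q) := by
  obtain ⟨pr, pi, rfl, ⟨u1, e1⟩, u2, e2⟩ := h1
  obtain ⟨qr, qi, rfl, ⟨u3, e3⟩, u4, e4⟩ := h2
  obtain ⟨u5, e5⟩ := h3
  refine ⟨pr * qr - pi * qi, pr * qi + pi * qr, ?_,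
    ⟨u1 * qr.eval (W : ℤ) + a * u3 - u2 * qi.eval (W : ℤ) - b * u4 - b * u5, ?_⟩,
    ⟨u1 * qi.eval (W : ℤ) + a * u4 + u2 * qr.eval (W : ℤ) + b * u3, ?_⟩⟩
  · have hI : (C I : ℂ[X]) * C I = -1 := by rw [← C_mul, I_mul_I, C_neg, C_1]
    simp only [cx, Polynomial.map_sub, Polynomial.map_add, Polynomial.map_mul]
    linear_combination (pi.map (Int.castRingHom ℂ) * qi.map (Int.castRingHom ℂ)) * hI
  · rw [eval_sub, eval_mul, eval_mul]
    push_cast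
    linear_combination qr.eval (W : ℤ) * e1 + a * e3 - qi.eval (W : ℤ) * e2 - b * e4 - b * e5
  · rw [eval_add, eval_mul, eval_mul]
    push_cast
    linear_combination qi.eval (W : ℤ) * e1 + a * e4 + qr.eval (W : ℤ) * e2 + b * e3

theorem RU.add (h1 : RU N a b p) (h2 : RU N g h q) : RU N (a + g) (b + h) (p + q) := by
  obtain ⟨pr, pi, rfl, e1, e2⟩ := h1
  obtain ⟨qr, qi, rfl, e3, e4⟩ := h2
  refine ⟨pr + qr, pi + qi, ?_, ?_, ?_⟩
  · simp only [cx, Polynomial.map_add]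
    ring
  · have := dvd_add e1 e3
    rw [U, eval_add]
    push_cast
    exact dvd_of_eq_pk this (by ring)
  · have := dvd_add e2 e4
    rw [U, eval_add]
    push_cast
    exact dvd_of_eq_pk this (by ring)

theorem RU.neg (h1 : RU N a b p) (h2 : Ng N a a') (h3 : Ng N b b') : RU N a' b' (-p) := by
  obtain ⟨pr, pi, rfl, e1, e2⟩ := h1
  refine ⟨-pr, -pi, ?_, ?_, ?_⟩
  · simp only [cx, Polynomial.map_neg]
    ring
  · have := (dvd_add e1 h2).neg_right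
    rw [U, eval_neg]
    exact dvd_of_eq_pk this (by ring)
  · have := (dvd_add e2 h3).neg_right
    rw [U, eval_neg]
    exact dvd_of_eq_pk this (by ring)

theorem RU.smul (h1 : RU N a b p) (c : ℕ) : RU N (c * a) (c * b) (C (c : ℂ) * p) := by
  obtain ⟨pr, pi, rfl, e1, e2⟩ := h1
  refine ⟨C (c : ℤ) * pr, C (c : ℤ) * pi, ?_, ?_, ?_⟩
  · rw [cx, cx, Polynomial.map_mul, Polynomial.map_mul, Polynomial.map_C, eq_intCast,
      Int.cast_natCast]
    ring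
  · have := e1.mul_left (c : ℤ)
    rw [U, eval_mul, eval_C]
    push_cast
    exact dvd_of_eq_pk this (by ring)
  · have := e2.mul_left (c : ℤ)
    rw [U, eval_mul, eval_C]
    push_cast
    exact dvd_of_eq_pk this (by ring)

theorem RU.mulW (h1 : RU N a b p) (k : ℕ) : RU N (a * W ^ k) (b * W ^ k) (p * X ^ k) := by
  obtain ⟨pr, pi, rfl, e1, e2⟩ := h1
  refine ⟨pr * X ^ k, pi * X ^ k, ?_, ?_, ?_⟩
  · simp only [cx, Polynomial.map_mul, Polynomial.map_pow, Polynomial.map_X]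
    ring
  · have := e1.mul_right ((W : ℤ) ^ k)
    rw [U, eval_mul, eval_pow, eval_X]
    push_cast
    exact dvd_of_eq_pk this (by ring)
  · have := e2.mul_right ((W : ℤ) ^ k)
    rw [U, eval_mul, eval_pow, eval_X]
    push_cast
    exact dvd_of_eq_pk this (by ring)

theorem RU.mod (h1 : RU 8 a b p) : RU 8 (a % W8) (b % W8) p := by
  obtain ⟨pr, pi, rfl, e1, e2⟩ := h1
  have key : ∀ (c : ℕ) (r : ℤ[X]), U 8 c r → U 8 (c % W8) r := fun c r e => by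
    have h2 : (W : ℤ) ^ 8 ∣ (c : ℤ) - (c % W8 : ℕ) := by
      rw [← Nat.cast_pow]
      exact (Nat.modEq_iff_dvd.1 (Nat.mod_modEq c (W ^ 8)))
    have := dvd_add e h2
    rwa [sub_add_sub_cancel] at this
  exact ⟨pr, pi, rfl, key a pr e1, key b pi e2⟩

theorem RU.const {x y : ℤ} (hx : (W : ℤ) ^ N ∣ x - a) (hy : (W : ℤ) ^ N ∣ y - b) :
    RU N a b (C ((x : ℂ) + (y : ℂ) * I)) :=
  ⟨C x, C y, by
    rw [cx, Polynomial.map_C, Polynomial.map_C, eq_intCast, eq_intCast, C_add, C_mul, mul_comm],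
    by rwa [U, eval_C], by rwa [U, eval_C]⟩

theorem RU.nat (N c : ℕ) : RU N c 0 (C (c : ℂ)) := by
  have := RU.const (N := N) (a := c) (b := 0) (x := c) (y := 0) (by simp) (by simp)
  simpa only [Int.cast_natCast, Int.cast_zero, zero_mul, add_zero] using this

theorem RU.congr (h1 : RU N a b p) (ha : (W : ℤ) ^ N ∣ (a : ℤ) - a') (hb : (W : ℤ) ^ N ∣ (b : ℤ) - b') :
    RU N a' b' p := by
  obtain ⟨pr, pi, rfl, e1, e2⟩ := h1
  exact ⟨pr, pi, rfl, dvd_of_eq_pk (dvd_add e1 ha) (sub_add_sub_cancel _ _ _),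
    dvd_of_eq_pk (dvd_add e2 hb) (sub_add_sub_cancel _ _ _)⟩

theorem Ng.mul (h1 : Ng N b n) (c : ℕ) : Ng N (b * c) (n * c) := by
  have := Dvd.dvd.mul_right h1 (c : ℤ)
  rw [Ng]
  push_cast
  rwa [← add_mul]

theorem Ng.symm (h1 : Ng N b n) : Ng N n b := by
  rw [Ng, add_comm]
  exact h1

end RU

end Pool.Agent.MP_c434f6_gt.H30.Emb

end

section

/-! Digits: rounding, moduli and weighted sums of packed polynomials. -/

open Polynomial Complex Finset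

namespace Pool.Agent.MP_c434f6_gt.H30.Emb

def dig (y k : ℕ) : ℕ := y / W ^ k % W

def Good (y : ℕ) : Prop := y < W ^ 8 ∧ ∀ k < 8, dig y k < 2 ^ 96

noncomputable def dec (y : ℕ) : ℤ[X] := ∑ k ∈ range 8, monomial k ((dig y k : ℤ) - 2 ^ 95)

/-- The polynomial with the shifted digits of `r, i` as coefficients. -/
noncomputable def cd (r i : ℕ) : ℂ[X] := cx (dec r) (dec i)

variable {N a b c d g h n r i q x y : ℕ} {p : ℂ[X]}

namespace Bit

theorem bit_W : W = 2 ^ 160 := by decide +kernel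

theorem bit_W_pos : 0 < W := bit_W ▸ Nat.two_pow_pos _

theorem bit_W_pow (k : ℕ) : W ^ k = 2 ^ (160 * k) := by rw [bit_W, ← pow_mul]

/-- The number with the digits `f`. -/
def pk (f : ℕ → ℕ) (n : ℕ) : ℕ := ∑ k ∈ range n, f k * W ^ k

theorem pk_succ (f : ℕ → ℕ) (n : ℕ) : pk f (n + 1) = pk f n + f n * W ^ n := sum_range_succ _ _

theorem pk_congr {f g : ℕ → ℕ} (h : ∀ k < n, f k = g k) : pk f n = pk g n :=
  sum_congr rfl fun k hk => by rw [h k (mem_range.1 hk)]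

theorem pk_add (f g : ℕ → ℕ) (n : ℕ) : pk f n + pk g n = pk (fun k => f k + g k) n := by
  simp only [pk, add_mul, sum_add_distrib]

theorem pk_mul (c : ℕ) (f : ℕ → ℕ) (n : ℕ) : c * pk f n = pk (fun k => c * f k) n := by
  simp only [pk, mul_sum, mul_assoc]

theorem pk_sub {f g : ℕ → ℕ} (h : ∀ k < n, g k ≤ f k) :
    pk f n - pk g n = pk (fun k => f k - g k) n := by
  rw [Nat.sub_eq_of_eq_add]
  rw [pk_add]
  exact pk_congr fun k hk => (Nat.sub_add_cancel (h k hk)).symm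

theorem pk_lt {f : ℕ → ℕ} (h : ∀ k < n, f k < W) : pk f n < W ^ n := by
  induction n with
  | zero => simp [pk]
  | succ n ih =>
    have h1 := ih fun k hk => h k (by omega)
    have h2 := Nat.mul_le_mul_right (W ^ n) (Nat.succ_le_of_lt (h n (by omega)))
    rw [pk_succ, pow_succ']
    rw [Nat.succ_mul] at h2
    omega

theorem pk_dig (y n : ℕ) : pk (dig y) n = y % W ^ n := by
  induction n with
  | zero => simp [pk, Nat.mod_one]
  | succ n ih => rw [pk_succ, ih, Nat.mod_pow_succ, dig, mul_comm]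

theorem pk_dig' (h : y < W ^ n) : pk (dig y) n = y := by rw [pk_dig, Nat.mod_eq_of_lt h]

theorem rep_eq (d n : ℕ) : rep d n = pk (fun _ => d) n := by
  induction n with
  | zero => rfl
  | succ n ih =>
    rw [rep, ih, pk, pk, sum_range_succ', mul_sum, pow_zero, mul_one, add_comm]
    congr 1
    exact sum_congr rfl fun k _ => by ring

theorem dig_lt (y k : ℕ) : dig y k < W := Nat.mod_lt _ bit_W_pos

theorem dig_mod {k : ℕ} (y : ℕ) (hk : k < n) : dig (y % W ^ n) k = dig y k := by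
  obtain ⟨j, rfl⟩ := Nat.exists_eq_add_of_lt hk
  rw [dig, dig, add_assoc, pow_add, Nat.mod_mul_right_div_self,
    Nat.mod_mod_of_dvd _ (dvd_pow_self W (by omega))]

theorem dig_pk {f : ℕ → ℕ} (h : ∀ k < n, f k < W) {k : ℕ} (hk : k < n) : dig (pk f n) k = f k := by
  induction n with
  | zero => omega
  | succ n ih =>
    have h1 : pk f n < W ^ n := pk_lt fun k hk => h k (by omega)
    rw [pk_succ]
    rcases Nat.lt_succ_iff_lt_or_eq.1 hk with hk | rfl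
    · rw [← dig_mod _ hk, Nat.add_mul_mod_self_right, Nat.mod_eq_of_lt h1]
      exact ih (fun k hk => h k (by omega)) hk
    · rw [dig, Nat.add_mul_div_right _ _ (pow_pos bit_W_pos _), Nat.div_eq_of_lt h1, zero_add,
        Nat.mod_eq_of_lt (h k hk)]

theorem dig_of_dvd {e : ℕ → ℤ} (he : ∀ k < n, 0 ≤ e k ∧ e k < W)
    (h : (W : ℤ) ^ n ∣ ∑ k ∈ range n, e k * W ^ k - y) {k : ℕ} (hk : k < n) :
    (dig y k : ℤ) = e k := by
  have h1 : ∀ k < n, (e k).toNat < W := fun k hk => by have := he k hk; omega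
  have h2 : (pk (fun k => (e k).toNat) n : ℤ) = ∑ k ∈ range n, e k * W ^ k := by
    rw [pk, Nat.cast_sum]
    exact sum_congr rfl fun k hk => by
      rw [Nat.cast_mul, Nat.cast_pow, Int.toNat_of_nonneg (he k (mem_range.1 hk)).1]
  rw [← h2, ← Nat.cast_pow, ← Nat.modEq_iff_dvd] at h
  rw [← dig_mod y hk, h, dig_mod _ hk, dig_pk h1 hk, Int.toNat_of_nonneg (he k hk).1]

theorem eval_dvd (P : ℤ[X]) (n : ℕ) :
    (W : ℤ) ^ n ∣ ∑ k ∈ range n, P.coeff k * W ^ k - P.eval (W : ℤ) := by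
  rw [eval_eq_sum_range' (n := n + (P.natDegree + 1)) (by omega), sum_range_add, sub_add_cancel_left,
    dvd_neg]
  exact dvd_sum fun k _ => by rw [pow_add]; exact (dvd_mul_right _ _).mul_left _

theorem dig_U {P : ℤ[X]} {L k : ℕ} (h : U N a P) (h1 : n ≤ N) (h2 : n ≤ L)
    (h3 : ∀ k < n, 0 ≤ P.coeff k + c ∧ P.coeff k + c < W) (hk : k < n) :
    (dig (a + rep c L) k : ℤ) = P.coeff k + c := by
  refine dig_of_dvd h3 ?_ hk
  obtain ⟨j, rfl⟩ := Nat.exists_eq_add_of_le h2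
  have h4 : (W : ℤ) ^ n ∣ ∑ k ∈ range j, (c : ℤ) * W ^ (n + k) :=
    dvd_sum fun k _ => by rw [pow_add]; exact (dvd_mul_right _ _).mul_left _
  refine (dvd_sub (dvd_add (eval_dvd P n) ((pow_dvd_pow _ h1).trans h)) h4).trans (dvd_of_eq ?_)
  simp only [rep_eq, pk, sum_range_add, add_mul, sum_add_distrib, Nat.cast_add, Nat.cast_sum,
    Nat.cast_mul, Nat.cast_pow]
  ring

theorem dig_land (x y k : ℕ) : dig (x &&& y) k = dig x k &&& dig y k := by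
  rw [dig, dig, dig, bit_W_pow, bit_W, Nat.and_div_two_pow, Nat.and_mod_two_pow]

theorem land_pk {f : ℕ → ℕ} (x : ℕ) (h : ∀ k < n, f k < W) :
    x &&& pk f n = pk (fun k => dig x k &&& f k) n := by
  rw [← pk_dig' (Nat.and_le_right.trans_lt (pk_lt h) : x &&& pk f n < W ^ n)]
  exact pk_congr fun k hk => by rw [dig_land, dig_pk h hk]

theorem dig_shift {s t : ℕ} (z k : ℕ) (h : s + t ≤ 160) :
    dig (z >>> s) k % 2 ^ t = dig z k / 2 ^ s % 2 ^ t := by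
  rw [dig, dig, Nat.shiftRight_eq_div_pow, Nat.div_div_eq_div_mul, mul_comm,
    ← Nat.div_div_eq_div_mul, bit_W]
  generalize z / (2 ^ 160) ^ k = x
  refine Nat.eq_of_testBit_eq fun j => ?_
  simp only [Nat.testBit_mod_two_pow, Nat.testBit_div_two_pow]
  by_cases hj : j < t
  · simp [hj, show j < 160 by omega, show j + s < 160 by omega]
  · simp [hj]

theorem mask {s t : ℕ} (z n : ℕ) (h : s + t ≤ 160) :
    (z >>> s) &&& rep (2 ^ t - 1) n = pk (fun k => dig z k / 2 ^ s % 2 ^ t) n := by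
  have h1 : 2 ^ t - 1 < W := by
    have := Nat.pow_le_pow_right (n := 2) (by omega) (show t ≤ 160 by omega)
    have := Nat.two_pow_pos t
    rw [bit_W]
    omega
  rw [rep_eq, land_pk _ fun _ _ => h1]
  exact pk_congr fun k _ => by rw [Nat.and_two_pow_sub_one_eq_mod, dig_shift z k h]

theorem dig_div_lt (z k : ℕ) : dig z k / 2 ^ 64 < 2 ^ 96 := by
  rw [Nat.div_lt_iff_lt_mul (Nat.two_pow_pos _), ← pow_add]
  exact (dig_lt z k).trans_eq bit_W

theorem lo_eq (z : ℕ) : lo z = pk (fun k => dig z k / 2 ^ 64) 8 :=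
  (mask (s := 64) (t := 96) z 8 le_rfl).trans
    (pk_congr fun k _ => Nat.mod_eq_of_lt (dig_div_lt z k))

theorem hi_eq (z : ℕ) : hi z = lo (z / W ^ 8) := by
  rw [hi, lo, Nat.shiftRight_eq, Nat.shiftRight_eq, bit_W_pow, ← Nat.shiftRight_eq_div_pow,
    ← Nat.shiftRight_add]

theorem dig_div (z k : ℕ) : dig (z / W ^ n) k = dig z (k + n) := by
  rw [dig, dig, Nat.div_div_eq_div_mul, ← pow_add, add_comm]

theorem lt_W {t : ℕ} (h : x < 2 ^ t) (ht : t ≤ 160) : x < W :=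
  bit_W ▸ h.trans_le (Nat.pow_le_pow_right (by omega) ht)

theorem good_pk {f : ℕ → ℕ} (h : ∀ k < 8, f k < 2 ^ 96) : Good (pk f 8) :=
  ⟨pk_lt fun k hk => lt_W (h k hk) (by omega), fun k hk => by
    rw [dig_pk (fun k hk => lt_W (h k hk) (by omega)) hk]; exact h k hk⟩

theorem dig_lo (z : ℕ) {k : ℕ} (hk : k < 8) : dig (lo z) k = dig z k / 2 ^ 64 := by
  rw [lo_eq, dig_pk (fun k _ => lt_W (dig_div_lt z k) (by omega)) hk]

theorem coeff_pk (f : ℕ → ℤ) (n k : ℕ) :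
    (∑ j ∈ range n, monomial j (f j) : ℤ[X]).coeff k = if k < n then f k else 0 := by
  simp [coeff_monomial]

theorem eval_pk (f : ℕ → ℤ) (n : ℕ) :
    (∑ j ∈ range n, monomial j (f j) : ℤ[X]).eval (W : ℤ) = ∑ j ∈ range n, f j * W ^ j := by
  simp only [eval_finsetSum, eval_monomial]

theorem coeff_cd (r i : ℕ) {k : ℕ} (hk : k < 8) :
    (cd r i).coeff k = ⟨(dig r k : ℝ) - 2 ^ 95, (dig i k : ℝ) - 2 ^ 95⟩ := by
  rw [cd, coeff_cx, dec, dec, coeff_pk, coeff_pk, if_pos hk, if_pos hk, mk_eq_add_mul_I]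
  push_cast
  ring

theorem eval_dec (hr : Good r) : (dec r).eval (W : ℤ) = r - cB := by
  have h1 := congrArg (Nat.cast : ℕ → ℤ) (pk_dig' hr.1)
  rw [dec, eval_pk, ← h1, cB, rep_eq]
  simp only [pk, sub_mul, sum_sub_distrib, Nat.cast_sum, Nat.cast_mul, Nat.cast_pow,
    Nat.cast_ofNat]

theorem pow8_le : W ^ 8 ≤ W ^ 16 := Nat.pow_le_pow_right bit_W_pos (by omega)

theorem div_near (D : ℕ) (hq : 0 < q) : |((D / q : ℕ) : ℝ) - D / q| ≤ 1 := by
  have h1 : ((D / q : ℕ) : ℝ) ≤ D / q := Nat.cast_div_le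
  have h2 : (D : ℝ) / q < (D / q : ℕ) + 1 := by
    rw [div_lt_iff₀' (Nat.cast_pos.2 hq)]
    exact_mod_cast Nat.lt_mul_div_succ D hq
  rw [abs_le]
  constructor <;> linarith

theorem coeff_cx_lt {pr pi : ℤ[X]} {t k : ℕ} (h : ‖(cx pr pi).coeff k‖ < 2 ^ t) :
    |pr.coeff k| < 2 ^ t ∧ |pi.coeff k| < 2 ^ t := by
  have h1 := (abs_re_le_norm _).trans_lt h
  have h2 := (abs_im_le_norm _).trans_lt h
  rw [coeff_cx] at h1 h2
  simp only [add_re, add_im, mul_re, mul_im, intCast_re, intCast_im, I_re, I_im, mul_zero, mul_one,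
    sub_zero, add_zero, zero_add] at h1 h2
  exact ⟨by exact_mod_cast h1, by exact_mod_cast h2⟩

theorem round_spec {k j : ℕ} (hn : n ≤ N) (hn' : n ≤ 16) (h1 : RU N a b p)
    (h2 : ∀ k, ‖p.coeff k‖ < 2 ^ 159) (hk : k < 8) (hj : j < n)
    (hr : dig r k = dig (a + cH) j / 2 ^ 64) (hi : dig i k = dig (b + cH) j / 2 ^ 64) :
    ‖(cd r i).coeff k - p.coeff j / 2 ^ 64‖ ≤ 2 := by
  obtain ⟨pr, pi, rfl, ha, hb⟩ := h1
  have key : ∀ {P : ℤ[X]} {a : ℕ}, U N a P → (∀ k, |P.coeff k| < 2 ^ 159) →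
      |((dig (a + cH) j / 2 ^ 64 : ℕ) : ℝ) - 2 ^ 95 - (P.coeff j : ℝ) / 2 ^ 64| ≤ 1 := by
    intro P a hP hc
    have h3 := dig_U (c := 2 ^ 159) hP hn hn' (fun k _ => by
      have := abs_lt.1 (hc k)
      rw [bit_W]
      push_cast
      constructor <;> linarith [this.1, this.2]) hj
    have h4 : (dig (a + cH) j : ℝ) = (P.coeff j : ℝ) + 2 ^ 159 := by exact_mod_cast h3
    have h5 := div_near (dig (a + cH) j) (Nat.two_pow_pos 64)
    rw [h4] at h5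
    refine le_of_eq_of_le (congrArg _ ?_) h5
    push_cast
    ring
  have e : (cd r i).coeff k - (cx pr pi).coeff j / 2 ^ 64 =
      ⟨(dig r k : ℝ) - 2 ^ 95 - (pr.coeff j : ℝ) / 2 ^ 64,
        (dig i k : ℝ) - 2 ^ 95 - (pi.coeff j : ℝ) / 2 ^ 64⟩ := by
    rw [coeff_cd r i hk, coeff_cx, mk_eq_add_mul_I, mk_eq_add_mul_I]
    push_cast
    ring
  have k1 := key ha fun k => (coeff_cx_lt (h2 k)).1
  have k2 := key hb fun k => (coeff_cx_lt (h2 k)).2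
  rw [← hr] at k1
  rw [← hi] at k2
  rw [e]
  exact (norm_le_abs_re_add_abs_im _).trans (by linarith)

theorem av_eq {v : ℕ} {f : ℕ → ℕ} (hv : v < 160) (h : ∀ k < 8, f k < 2 ^ (v + 1)) :
    av v (2 ^ v - 1) (rep (2 ^ v) 8) (pk f 8) = pk (fun k => dst (f k) (2 ^ v)) 8 := by
  have hW : ∀ k < 8, f k < W := fun k hk => lt_W (h k hk) hv
  have h0 := Nat.two_pow_pos v
  have h1 : (pk f 8 >>> v) &&& cO = pk (fun k => f k / 2 ^ v % 2) 8 :=
    (mask (s := v) (t := 1) (pk f 8) 8 hv).trans (pk_congr fun k hk => by rw [dig_pk hW hk, pow_one])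
  have h2 : ∀ k < 8, (2 * (f k &&& (2 ^ v - 1) * (f k / 2 ^ v % 2)) + 2 ^ v) =
      f k + dst (f k) (2 ^ v) := by
    intro k hk
    have h3 := h k hk
    rw [pow_succ] at h3
    change _ = f k + (f k - 2 ^ v + (2 ^ v - f k))
    rcases lt_or_ge (f k) (2 ^ v) with h4 | h4
    · rw [Nat.div_eq_of_lt h4, Nat.zero_mod, mul_zero, Nat.and_zero]
      omega
    · have h5 : f k / 2 ^ v = 1 := Nat.div_eq_of_lt_le (by omega) (by omega)
      have h6 := Nat.mod_add_div (f k) (2 ^ v)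
      rw [h5] at h6 ⊢
      rw [Nat.one_mod, mul_one, Nat.and_two_pow_sub_one_eq_mod]
      omega
  change 2 * (pk f 8 &&& ((pk f 8 >>> v) &&& cO) * (2 ^ v - 1)) + rep (2 ^ v) 8 - pk f 8 = _
  rw [h1, mul_comm _ (2 ^ v - 1), pk_mul, land_pk, pk_mul, rep_eq, pk_add, Nat.sub_eq_of_eq_add]
  · rw [add_comm, pk_add]
    exact pk_congr fun k hk => by rw [dig_pk hW hk, h2 k hk]
  · intro k _
    have := Nat.mul_le_mul_left (2 ^ v - 1) (show f k / 2 ^ v % 2 ≤ 1 by omega)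
    exact lt_W (t := v) (by omega) hv.le

theorem cabs_eq (hr : Good r) (hi : Good i) : ∃ f : ℕ → ℕ, cabs r i = pk f 8 ∧
    ∀ k < 8, f k ≤ 2 ^ 104 ∧ 256 * ‖(cd r i).coeff k‖ ≤ f k := by
  have h1 : ∀ {r : ℕ}, Good r → av 95 39614081257132168796771975167 cB r =
      pk (fun k => dst (dig r k) (2 ^ 95)) 8 := fun {r} hr => by
    have := av_eq (v := 95) (by omega) hr.2
    rwa [pk_dig' hr.1] at this
  have h2 : ∀ {r : ℕ}, Good r → ∀ k < 8, dst (dig r k) (2 ^ 95) ≤ 2 ^ 95 := fun {r} hr k hk => by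
    have := hr.2 k hk
    change dig r k - 2 ^ 95 + (2 ^ 95 - dig r k) ≤ _
    omega
  have h3 : ∀ k < 8, ‖(cd r i).coeff k‖ ^ 2 =
      (dst (dig r k) (2 ^ 95) : ℝ) ^ 2 + (dst (dig i k) (2 ^ 95) : ℝ) ^ 2 := fun k hk => by
    rw [coeff_cd r i hk, dst_cast, dst_cast, sq_abs, sq_abs, Complex.sq_norm, normSq_mk]
    push_cast
    ring
  rw [cabs, h1 hr, h1 hi]
  obtain ⟨u, hu⟩ : ∃ u : ℕ → ℕ, ∀ k, dst (dig r k) (2 ^ 95) = u k := ⟨_, fun _ => rfl⟩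
  obtain ⟨v, hv⟩ : ∃ v : ℕ → ℕ, ∀ k, dst (dig i k) (2 ^ 95) = v k := ⟨_, fun _ => rfl⟩
  have h4 := h2 hr
  have h5 := h2 hi
  simp only [hu, hv] at h3 h4 h5 ⊢
  have h6 : pk u 8 + cC - pk v 8 = pk (fun k => u k + 2 ^ 96 - v k) 8 := by
    rw [cC, rep_eq, pk_add, pk_sub fun k hk => by have := h5 k hk; omega]
  have h7 : av 96 79228162514264337593543950335 cC (pk (fun k => u k + 2 ^ 96 - v k) 8) =
      pk (fun k => dst (u k + 2 ^ 96 - v k) (2 ^ 96)) 8 :=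
    av_eq (v := 96) (by omega) fun k hk => by have := h4 k hk; omega
  refine ⟨fun k => 182 * (u k + v k) + 75 * dst (u k + 2 ^ 96 - v k) (2 ^ 96), ?_, fun k hk => ?_⟩
  · change 182 * (pk u 8 + pk v 8) + 75 * av 96 _ cC (pk u 8 + cC - pk v 8) = _
    rw [h6, h7, pk_add, pk_mul, pk_mul, pk_add]
  · have h8 := h4 k hk
    have h9 := h5 k hk
    have e : dst (u k + 2 ^ 96 - v k) (2 ^ 96) = u k - v k + (v k - u k) := by
      change u k + 2 ^ 96 - v k - 2 ^ 96 + (2 ^ 96 - (u k + 2 ^ 96 - v k)) = _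
      omega
    beta_reduce
    rw [e]
    refine ⟨by omega, (abs_le_of_sq_le_sq' ?_ (Nat.cast_nonneg _)).2⟩
    rw [mul_pow, h3 k hk]
    have p1 : (0 : ℝ) ≤ u k := Nat.cast_nonneg _
    have p2 : (0 : ℝ) ≤ v k := Nat.cast_nonneg _
    rcases le_total (u k) (v k) with h | h
    · rw [Nat.sub_eq_zero_of_le h, zero_add]
      push_cast [h]
      have : (u k : ℝ) ≤ v k := Nat.cast_le.2 h
      nlinarith [mul_nonneg p1 (sub_nonneg.2 this), sq_nonneg (v k : ℝ), sq_nonneg (u k : ℝ)]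
    · rw [Nat.sub_eq_zero_of_le h, add_zero]
      push_cast [h]
      have : (v k : ℝ) ≤ u k := Nat.cast_le.2 h
      nlinarith [mul_nonneg p2 (sub_nonneg.2 this), sq_nonneg (v k : ℝ), sq_nonneg (u k : ℝ)]

theorem bits_eq (z : ℕ) : bits z 1120 W = dig z 7 := by
  rw [dig, bit_W_pow, ← Nat.shiftRight_eq_div_pow]
  rfl

theorem wts_eq (b n : ℕ) : wts b n = pk (fun j => 23 ^ (7 - j) * b ^ j) n := by
  induction n with
  | zero => rfl
  | succ n ih => rw [wts, ih, pk_succ]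

theorem dig_mul {f g : ℕ → ℕ} (hn : n ≤ 8) (hf : ∀ k < 8, f k ≤ 2 ^ 104)
    (hg : ∀ k < 8, g k ≤ 2 ^ 35) : dig (pk f 8 * pk g n) 7 =
      ∑ k ∈ range 8, f k * if 7 - k < n then g (7 - k) else 0 := by
  let P : ℤ[X] := ∑ j ∈ range 8, monomial j (f j : ℤ)
  let Q : ℤ[X] := ∑ j ∈ range n, monomial j (g j : ℤ)
  have h1 : U 8 (pk f 8 * pk g n) (P * Q) := by
    refine (dvd_zero _).trans (dvd_of_eq ?_)
    rw [eval_mul, eval_pk, eval_pk]
    simp only [pk, Nat.cast_sum, Nat.cast_mul, Nat.cast_pow, sub_self]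
  have h2 : ∀ m < 8, (P * Q).coeff m =
      (∑ k ∈ range (m + 1), f k * if m - k < n then g (m - k) else 0 : ℕ) := fun m hm => by
    rw [coeff_mul, Finset.Nat.sum_antidiagonal_eq_sum_range_succ fun i j => P.coeff i * Q.coeff j,
      Nat.cast_sum]
    refine sum_congr rfl fun k hk => ?_
    rw [coeff_pk, coeff_pk, if_pos (by have := mem_range.1 hk; omega)]
    split_ifs <;> simp
  have h3 := dig_U (c := 0) (L := 8) h1 le_rfl le_rfl (fun m hm => by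
    have h4 : (∑ k ∈ range (m + 1), f k * if m - k < n then g (m - k) else 0) ≤
        (range (m + 1)).card • (2 ^ 104 * 2 ^ 35) := sum_le_card_nsmul _ _ _ fun k hk =>
      Nat.mul_le_mul (hf k (by have := mem_range.1 hk; omega)) (by
        split_ifs
        · exact hg _ (by omega)
        · exact Nat.zero_le _)
    rw [card_range, smul_eq_mul] at h4
    rw [h2 m hm, bit_W]
    omega) (show 7 < 8 by omega)
  have h5 : rep 0 8 = 0 := by simp [rep_eq, pk]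
  rw [h5, add_zero, h2 7 (by omega), Nat.cast_zero, add_zero] at h3
  exact_mod_cast h3

theorem dot_gen {s : ℕ} (hr : Good r) (hi : Good i) (hb : 0 < b) (hb' : b ≤ 32)
    (hs : 2 ^ s = 256 * b ^ 7) (hn : n ≤ 8) (hp : p.natDegree < 8)
    (h : ∀ k < 8, ‖p.coeff k‖ ≤ if 7 - k < n then ‖(cd r i).coeff k‖ else 0) :
    nrm (23 / b) p ≤ dot (cabs r i) (wts b n) s := by
  obtain ⟨f, h1, h2⟩ := cabs_eq hr hi
  have h0 : ∀ k < 8, 23 ^ (7 - k) * b ^ k ≤ 2 ^ 35 := fun k hk =>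
      calc 23 ^ (7 - k) * b ^ k ≤ 32 ^ (7 - k) * 32 ^ k := by gcongr; omega
        _ = 2 ^ 35 := by rw [← pow_add, Nat.sub_add_cancel (by omega)]; norm_num
  have h3 := dig_mul (g := fun j => 23 ^ (7 - j) * b ^ j) hn (fun k hk => (h2 k hk).1) h0
  have h4 : dot (cabs r i) (wts b n) s =
      dig (pk f 8 * pk (fun j => 23 ^ (7 - j) * b ^ j) n) 7 / 2 ^ s + 1 := by
    rw [← wts_eq, ← h1, ← bits_eq, ← Nat.shiftRight_eq_div_pow]
    rfl
  have h5 := (abs_le.1 (div_near (dig (pk f 8 * pk (fun j => 23 ^ (7 - j) * b ^ j) n) 7)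
    (Nat.two_pow_pos s))).1
  have hb0 : (0 : ℝ) < b := Nat.cast_pos.2 hb
  rw [h4, Nat.cast_add, Nat.cast_one, nrm_eq_sum hp]
  refine le_trans ?_ (show ((dig (pk f 8 * pk (fun j => 23 ^ (7 - j) * b ^ j) n) 7 : ℕ) : ℝ) /
    (2 ^ s : ℕ) ≤ _ by linarith)
  rw [h3, hs, Nat.cast_sum, sum_div]
  refine sum_le_sum fun k hk => ?_
  have hk := mem_range.1 hk
  have h6 := h k hk
  have h7 := (h2 k hk).2
  split_ifs at h6 ⊢
  · obtain ⟨j, hj⟩ : ∃ j, 7 = k + j := ⟨7 - k, by omega⟩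
    have e1 : 7 - k = j := by omega
    have e2 : 7 - j = k := by omega
    rw [e1, e2, hj, div_pow]
    push_cast
    calc ‖p.coeff k‖ * (23 ^ k / (b : ℝ) ^ k) ≤ f k / 256 * (23 ^ k / (b : ℝ) ^ k) := by
          gcongr
          linarith
      _ = _ := by
          field_simp
          ring
  · rw [le_antisymm h6 (norm_nonneg _)]
    simp

theorem inc_gen {P : ℤ[X]} (h1 : U 8 (a * b + c * d) P) (h2 : ∀ k, |P.coeff k| < 2 ^ 158)
    (hq : 0 < q) : |(inc a b c d q : ℝ) - ((P.coeff 7 : ℝ) + 1680 * 2 ^ 148) / q| ≤ 1 := by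
  have h3 := dig_U (c := 1680 * 2 ^ 148) (L := 8) h1 le_rfl le_rfl (fun k _ => by
    have := abs_lt.1 (h2 k)
    rw [bit_W]
    push_cast
    constructor <;> linarith [this.1, this.2]) (show 7 < 8 by omega)
  have h4 : (dig (a * b + c * d + cD) 7 : ℝ) = (P.coeff 7 : ℝ) + 1680 * 2 ^ 148 := by
    exact_mod_cast h3
  have h5 : inc a b c d q = dig (a * b + c * d + cD) 7 / q := by
    rw [← bits_eq]
    rfl
  rw [h5, ← h4]
  exact div_near _ hq

end Bit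

open Bit

theorem natDegree_cd (r i : ℕ) : (cd r i).natDegree < 8 :=
  Nat.lt_succ_of_le (natDegree_le_iff_coeff_eq_zero.2 fun k hk => by
    rw [cd, coeff_cx, dec, dec, coeff_pk, coeff_pk, if_neg (by omega), if_neg (by omega)]
    simp)

theorem good_lo (z : ℕ) : Good (lo z) := lo_eq z ▸ good_pk fun k _ => dig_div_lt z k

theorem good_hi (z : ℕ) : Good (hi z) := hi_eq z ▸ good_lo _

theorem good_cB : Good cB := by
  rw [cB, rep_eq]
  exact good_pk fun _ _ => by omega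

theorem cd_cB : cd cB cB = 0 := by
  have h : dec cB = 0 := sum_eq_zero fun k hk => by
    rw [cB, rep_eq, dig_pk (fun _ _ => lt_W (t := 96) (by omega) (by omega)) (mem_range.1 hk)]
    simp
  simp [cd, cx, h]

theorem Good.bit_u (hr : Good r) (hN : 8 ≤ N) : U N (r + (W ^ N - cB)) (dec r) := by
  have h : cB ≤ W ^ N := good_cB.1.le.trans (Nat.pow_le_pow_right bit_W_pos hN)
  refine (dvd_neg.2 dvd_rfl).trans (dvd_of_eq ?_)
  rw [eval_dec hr, Nat.cast_add, Nat.cast_sub h, Nat.cast_pow]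
  ring

theorem Good.bit_ng (hi : Good i) (hN : 8 ≤ N) : Ng N (i + (W ^ N - cB)) (W ^ N + cB - i) := by
  have h0 := Nat.pow_le_pow_right bit_W_pos hN
  have h : cB ≤ W ^ N := good_cB.1.le.trans h0
  have h' : i ≤ W ^ N + cB := (hi.1.le.trans h0).trans (Nat.le_add_right _ _)
  refine (dvd_mul_left _ 2).trans (dvd_of_eq ?_)
  rw [Nat.cast_add, Nat.cast_sub h, Nat.cast_sub h', Nat.cast_add, Nat.cast_pow]
  ring

theorem Good.ru8 (hr : Good r) (hi : Good i) : RU 8 (r + U8) (i + U8) (cd r i) :=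
  ⟨_, _, rfl, hr.bit_u le_rfl, hi.bit_u le_rfl⟩

theorem Good.ru16 (hr : Good r) (hi : Good i) : RU 16 (r + U16) (i + U16) (cd r i) :=
  ⟨_, _, rfl, hr.bit_u (by omega), hi.bit_u (by omega)⟩

theorem Good.ng8 (hi : Good i) : Ng 8 (i + U8) (V8 - i) := hi.bit_ng le_rfl

theorem Good.ng16 (hi : Good i) : Ng 16 (i + U16) (V16 - i) := hi.bit_ng (by omega)

theorem Bit.dig_zero (y : ℕ) : dig y 0 = d0 y := by
  rw [dig, pow_zero, Nat.div_one]
  rfl

theorem Good.bit_seven (hr : Good r) : dig r 7 = r >>> 1120 := by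
  rw [dig, Nat.mod_eq_of_lt (Nat.div_lt_of_lt_mul (pow_succ W 7 ▸ hr.1)), bit_W_pow,
    Nat.shiftRight_eq_div_pow]

theorem coeff_cd_zero (r i : ℕ) :
    (cd r i).coeff 0 = ⟨(d0 r : ℝ) - 2 ^ 95, (d0 i : ℝ) - 2 ^ 95⟩ := by
  rw [coeff_cd r i (by omega), dig_zero, dig_zero]

theorem Good.d0_lt (hr : Good r) : d0 r < 2 ^ 96 := dig_zero r ▸ hr.2 0 (by omega)

theorem coeff_cd_seven (hr : Good r) (hi : Good i) :
    (cd r i).coeff 7 = ⟨((r >>> 1120 : ℕ) : ℝ) - 2 ^ 95, ((i >>> 1120 : ℕ) : ℝ) - 2 ^ 95⟩ := by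
  rw [coeff_cd r i (by omega), hr.bit_seven, hi.bit_seven]

/-- Rounding of the eight low digits. -/
theorem lo_spec (hN : 8 ≤ N) (h1 : RU N a b p) (h2 : ∀ k, ‖p.coeff k‖ < 2 ^ 159) (k : ℕ)
    (hk : k < 8) : ‖(cd (lo (a + cH)) (lo (b + cH))).coeff k - p.coeff k / 2 ^ 64‖ ≤ 2 :=
  round_spec hN (by omega) h1 h2 hk hk (dig_lo _ hk) (dig_lo _ hk)

/-- Rounding of the eight high digits. -/
theorem hi_spec (h1 : RU 16 a b p) (h2 : ∀ k, ‖p.coeff k‖ < 2 ^ 159) (k : ℕ) (hk : k < 8) :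
    ‖(cd (hi (a + cH)) (hi (b + cH))).coeff k - p.coeff (k + 8) / 2 ^ 64‖ ≤ 2 :=
  round_spec le_rfl le_rfl h1 h2 hk (by omega) (by rw [hi_eq, dig_lo _ hk, dig_div])
    (by rw [hi_eq, dig_lo _ hk, dig_div])

theorem lo_nrm {ρ : ℝ} (h0 : 0 ≤ ρ) (hρ : ρ ≤ 23 / 16) (hN : 8 ≤ N) (h1 : RU N a b p)
    (h2 : ∀ k, ‖p.coeff k‖ < 2 ^ 159) :
    nrm ρ (cd (lo (a + cH)) (lo (b + cH)) - C (1 / 2 ^ 64) * tr p) ≤ 83 := by
  refine nrm_le_83 h0 hρ ((natDegree_sub_le _ _).trans_lt (max_lt (natDegree_cd _ _)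
    ((natDegree_C_mul_le _ _).trans_lt (natDegree_tr p)))) fun k hk => ?_
  rw [coeff_sub, coeff_C_mul, coeff_tr, if_pos hk, one_div_mul_eq_div]
  exact lo_spec hN h1 h2 k hk

theorem Bit.dot_full {s : ℕ} (hr : Good r) (hi : Good i) (hb : 0 < b) (hb' : b ≤ 32)
    (hs : 2 ^ s = 256 * b ^ 7) : nrm (23 / b) (cd r i) ≤ dot (cabs r i) (wts b 8) s :=
  dot_gen hr hi hb hb' hs le_rfl (natDegree_cd r i) fun k _ => by rw [if_pos (by omega)]

theorem Bit.dot_tail {s : ℕ} (hr : Good r) (hi : Good i) (hb : 0 < b) (hb' : b ≤ 32)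
    (hs : 2 ^ s = 256 * b ^ 7) :
    nrm (23 / b) (cd r i - C ((cd r i).coeff 0)) ≤ dot (cabs r i) (wts b 7) s :=
  dot_gen hr hi hb hb' hs (by omega) (by rw [natDegree_sub_C]; exact natDegree_cd r i)
    fun k _ => by
      rw [coeff_sub, coeff_C]
      rcases Nat.eq_zero_or_pos k with rfl | hk
      · simp
      · rw [if_neg hk.ne', if_pos (by omega), sub_zero]

theorem nrm_le_dot1 (hr : Good r) (hi : Good i) :
    nrm (23 / 16) (cd r i) ≤ dot (cabs r i) w1 36 :=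
  dot_full (b := 16) hr hi (by omega) (by omega) (by norm_num)

theorem nrm_le_dot2 (hr : Good r) (hi : Good i) :
    nrm (23 / 32) (cd r i) ≤ dot (cabs r i) w2 43 :=
  dot_full (b := 32) hr hi (by omega) (by omega) (by norm_num)

theorem nrm_le_dot1t (hr : Good r) (hi : Good i) :
    nrm (23 / 16) (cd r i - C ((cd r i).coeff 0)) ≤ dot (cabs r i) w1t 36 :=
  dot_tail (b := 16) hr hi (by omega) (by omega) (by norm_num)

theorem nrm_le_dot2t (hr : Good r) (hi : Good i) :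
    nrm (23 / 32) (cd r i - C ((cd r i).coeff 0)) ≤ dot (cabs r i) w2t 43 :=
  dot_tail (b := 32) hr hi (by omega) (by omega) (by norm_num)

theorem inc_re (h1 : RU 8 (a * b + c * d) y p) (h2 : ∀ k, ‖p.coeff k‖ < 2 ^ 158) (hq : 0 < q) :
    |(inc a b c d q : ℝ) - ((p.coeff 7).re + 1680 * 2 ^ 148) / q| ≤ 1 := by
  obtain ⟨pr, pi, rfl, ha, -⟩ := h1
  have e : ((cx pr pi).coeff 7).re = (pr.coeff 7 : ℝ) := by simp [coeff_cx]
  rw [e]
  exact inc_gen ha (fun k => (coeff_cx_lt (h2 k)).1) hq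

theorem inc_im (h1 : RU 8 x (a * b + c * d) p) (h2 : ∀ k, ‖p.coeff k‖ < 2 ^ 158) (hq : 0 < q) :
    |(inc a b c d q : ℝ) - ((p.coeff 7).im + 1680 * 2 ^ 148) / q| ≤ 1 := by
  obtain ⟨pr, pi, rfl, -, ha⟩ := h1
  have e : ((cx pr pi).coeff 7).im = (pi.coeff 7 : ℝ) := by simp [coeff_cx]
  rw [e]
  exact inc_gen ha (fun k => (coeff_cx_lt (h2 k)).2) hq

end Pool.Agent.MP_c434f6_gt.H30.Emb

end

section

/-! Approximation of polynomials, the exponential, and products of Taylor models. -/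

open Polynomial Complex Finset

namespace Pool.Agent.MP_c434f6_gt.H30.Emb

/-- `a, b` represent `2 ^ 64 q` up to `e`. -/
def Ap (a b : ℕ) (q : ℂ[X]) (e : ℝ) : Prop :=
  ∃ p, RU 8 a b p ∧ nrm (23 / 16) (p - C (2 ^ 64) * q) ≤ e

/-- The same for shifted digits. -/
def Bp (y : C2) (q : ℂ[X]) (e : ℝ) : Prop :=
  Good y.r ∧ Good y.i ∧ nrm (23 / 16) (cd y.r y.i - C (2 ^ 64) * q) ≤ e

theorem ap_pos : (0 : ℝ) ≤ 23 / 16 := by norm_num

theorem ap_norm : ‖(2 ^ 64 : ℂ)‖ = 2 ^ 64 := by simp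

theorem ap_inv : (C (1 / 2 ^ 64) : ℂ[X]) * C (2 ^ 64) = 1 := by
  rw [← C_mul, one_div_mul_cancel (pow_ne_zero _ two_ne_zero), C_1]

theorem ap_size {p q : ℂ[X]} {e N : ℝ} (h : nrm (23 / 16) (p - C (2 ^ 64) * q) ≤ e)
    (hN : nrm (23 / 16) q ≤ N) : nrm (23 / 16) p ≤ e + 2 ^ 64 * N := by
  have h1 := nrm_add_le ap_pos (p - C (2 ^ 64) * q) (C (2 ^ 64) * q)
  rw [sub_add_cancel, nrm_C_mul, ap_norm] at h1
  linarith

theorem ap_prod {p p' q q' : ℂ[X]} {e e' N N' : ℝ} (h : nrm (23 / 16) (p - C (2 ^ 64) * q) ≤ e)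
    (h' : nrm (23 / 16) (p' - C (2 ^ 64) * q') ≤ e') (hN : nrm (23 / 16) q ≤ N)
    (hN' : nrm (23 / 16) q' ≤ N') :
    nrm (23 / 16) (C (1 / 2 ^ 64) * (p * p') - C (2 ^ 64) * (q * q')) ≤
      N * e' + N' * e + e * e' / 2 ^ 64 := by
  have e0 : C (1 / 2 ^ 64) * (p * p') - C (2 ^ 64) * (q * q') =
      q * (p' - C (2 ^ 64) * q') + q' * (p - C (2 ^ 64) * q) +
        C (1 / 2 ^ 64) * ((p - C (2 ^ 64) * q) * (p' - C (2 ^ 64) * q')) := by
    linear_combination (q * p' + q' * p - C (2 ^ 64) * q * q') * ap_inv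
  have m : ∀ {u v : ℂ[X]} {x y : ℝ}, nrm (23 / 16) u ≤ x → nrm (23 / 16) v ≤ y →
      nrm (23 / 16) (u * v) ≤ x * y := fun hu hv => (nrm_mul_le ap_pos _ _).trans
    (mul_le_mul hu hv (nrm_nonneg ap_pos _) ((nrm_nonneg ap_pos _).trans hu))
  rw [e0]
  refine (nrm_add_le ap_pos _ _).trans (add_le_add ((nrm_add_le ap_pos _ _).trans
    (add_le_add (m hN h') (m hN' h))) ?_)
  rw [nrm_C_mul, norm_div, norm_one, ap_norm, one_div, inv_mul_eq_div]
  exact div_le_div_of_nonneg_right (m h h') (by positivity)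

theorem ap_shift (x s : ℕ) : (x : ℝ) / 2 ^ s ≤ (Nat.shiftRight x s : ℕ) + 1 := by
  rw [Nat.shiftRight_eq, Nat.shiftRight_eq_div_pow, div_le_iff₀ (by positivity)]
  have h := (Nat.lt_div_mul_add (a := x) (Nat.two_pow_pos s)).le
  rw [add_mul, one_mul]
  exact_mod_cast h

theorem ap_exp (z : ℂ) (h : ‖z‖ ≤ 1) :
    ‖exp z - (1 + ∑ k ∈ Ico 1 8, 1 / (k.factorial : ℂ) * z ^ k)‖ ≤ ‖z‖ ^ 8 * (9 / 322560) := by
  have h1 := Complex.exp_bound h (n := 8) (by norm_num)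
  rw [range_eq_Ico, sum_eq_sum_Ico_succ_bot (by norm_num)] at h1
  convert h1 using 3
  · simp only [pow_zero, Nat.factorial_zero, Nat.cast_one, div_one, zero_add, add_right_inj]
    exact sum_congr rfl fun k _ => by ring
  · norm_num [Nat.factorial]

theorem ap_exp4 {z : ℂ} (h : |z.re| ≤ 4) : ‖exp z‖ ≤ 55 ∧ 1 ≤ 55 * ‖exp z‖ := by
  have h4 : Real.exp 4 ≤ 55 := by
    have := pow_le_pow_left₀ (Real.exp_pos 1).le Real.exp_one_lt_d9.le 4
    rw [← Real.exp_nat_mul] at this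
    norm_num at this
    linarith
  rw [Complex.norm_exp]
  obtain ⟨h1, h2⟩ := abs_le.1 h
  refine ⟨(Real.exp_le_exp.2 h2).trans h4, ?_⟩
  calc (1 : ℝ) = Real.exp 4 * Real.exp (-4) := by rw [← Real.exp_add]; simp
    _ ≤ _ := mul_le_mul h4 (Real.exp_le_exp.2 h1) (Real.exp_pos _).le (by norm_num)

section Ap

variable {a b g h n : ℕ} {q q' : ℂ[X]} {e e' N N' : ℝ} {x y : C2}

theorem Ap.mono (h1 : Ap a b q e) (h2 : e ≤ e') : Ap a b q e' :=
  h1.imp fun _ h => ⟨h.1, h.2.trans h2⟩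

theorem Bp.mono (h1 : Bp y q e) (h2 : e ≤ e') : Bp y q e' := ⟨h1.1, h1.2.1, h1.2.2.trans h2⟩

theorem Bp.ap (h1 : Bp y q e) : Ap (y.r + U8) (y.i + U8) q e :=
  ⟨_, h1.1.ru8 h1.2.1, h1.2.2⟩

theorem Bp.ng (h1 : Bp y q e) : Ng 8 (y.i + U8) (V8 - y.i) := h1.2.1.ng8

theorem Ap.add (h1 : Ap a b q e) (h2 : Ap g h q' e') : Ap (a + g) (b + h) (q + q') (e + e') := by
  obtain ⟨p, r, k⟩ := h1
  obtain ⟨p', r', k'⟩ := h2
  refine ⟨p + p', r.add r', ?_⟩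
  rw [show p + p' - C (2 ^ 64) * (q + q') = p - C (2 ^ 64) * q + (p' - C (2 ^ 64) * q') by ring]
  exact (nrm_add_le ap_pos _ _).trans (add_le_add k k')

theorem Ap.one : Ap 18446744073709551616 0 1 0 :=
  ⟨_, RU.nat 8 _, by
    rw [mul_one, show ((18446744073709551616 : ℕ) : ℂ) = 2 ^ 64 by norm_num, sub_self, nrm_zero]⟩

theorem Ap.mulW (h1 : Ap a b q e) (k : ℕ) :
    Ap (a * W ^ k) (b * W ^ k) (q * X ^ k) (e * (23 / 16) ^ k) := by
  obtain ⟨p, r, h⟩ := h1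
  refine ⟨_, r.mulW k, ?_⟩
  rw [← mul_assoc, ← sub_mul, nrm_mul_X_pow]
  exact mul_le_mul_of_nonneg_right h (by positivity)

theorem Ap.cm (h1 : Ap a b q e) (h2 : Ap g h q' e') (h3 : Ng 8 h n) (hN : nrm (23 / 16) q ≤ N)
    (hN' : nrm (23 / 16) q' ≤ N') (b1 : N ≤ 2 ^ 14) (b2 : N' ≤ 2 ^ 14) (b3 : e ≤ 2 ^ 64)
    (b4 : e' ≤ 2 ^ 64) :
    Bp (cm a b g h n) (tr (q * q')) (N * e' + N' * e + e * e' / 2 ^ 64 + 83) := by
  obtain ⟨p, r, k⟩ := h1
  obtain ⟨p', r', k'⟩ := h2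
  have s1 : nrm (23 / 16) p ≤ 2 ^ 79 := (ap_size k hN).trans (by linarith)
  have s2 : nrm (23 / 16) p' ≤ 2 ^ 79 := (ap_size k' hN').trans (by linarith)
  have c : ∀ k, ‖(p * p').coeff k‖ < 2 ^ 159 := fun k =>
    ((norm_coeff_le (by norm_num) _ k).trans ((nrm_mul_le ap_pos _ _).trans
      (mul_le_mul s1 s2 (nrm_nonneg ap_pos _) (by positivity)))).trans_lt (by norm_num)
  have l := lo_nrm ap_pos le_rfl le_rfl (r.mul r' h3) c
  have m := (nrm_tr_le ap_pos _).trans (ap_prod k k' hN hN')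
  rw [tr_sub, tr_C_mul, tr_C_mul] at m
  refine ⟨good_lo _, good_lo _, ?_⟩
  change nrm _ (cd (lo (a * g + b * n + cH)) (lo (a * h + b * g + cH)) - _) ≤ _
  rw [← sub_add_sub_cancel _ (C (1 / 2 ^ 64) * tr (p * p'))]
  exact (nrm_add_le ap_pos _ _).trans ((add_le_add l m).trans_eq (add_comm _ _))

theorem ap_csq (y : C2) : csq y = cm (y.r + U8) (y.i + U8) (y.r + U8) (y.i + U8) (V8 - y.i) := rfl

theorem ap_cm1 (y x : C2) (k : ℕ) : cm1 y x k = cm (y.r + U8) (y.i + U8)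
    (18446744073709551616 + (x.r + U8) * k) ((x.i + U8) * k) ((V8 - x.i) * k) := rfl

theorem ap_hex (a b n c : ℕ) (l : List ℕ) : hex a b n (c :: l) =
    cm ((hex a b n l).r + U8 + c) ((hex a b n l).i + U8) a b n := rfl

theorem ap_xpo (a b n : ℕ) : xpo a b n = csq (csq (csq (csq (csq
    (cm ((hex a b n facs).r + U8 + 18446744073709551616) ((hex a b n facs).i + U8)
      ((hex a b n facs).r + U8 + 18446744073709551616) ((hex a b n facs).i + U8)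
      (V8 - (hex a b n facs).i)))))) := rfl

theorem Bp.csq (h1 : Bp y q e) (hN : nrm (23 / 16) q ≤ N) (b1 : N ≤ 2 ^ 14) (b3 : e ≤ 2 ^ 64) :
    Bp (csq y) (tr (q * q)) (2 * N * e + e * e / 2 ^ 64 + 83) := by
  rw [ap_csq]
  exact (h1.ap.cm h1.ap h1.ng hN hN b1 b1 b3 b3).mono (le_of_eq (by ring))

theorem Bp.cm1 (h1 : Bp y q e) (h2 : Bp x q' e') (k : ℕ) (hN : nrm (23 / 16) q ≤ N)
    (hN' : nrm (23 / 16) (1 + q' * X ^ k) ≤ N') (b1 : N ≤ 2 ^ 14) (b2 : N' ≤ 2 ^ 14)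
    (b3 : e ≤ 2 ^ 64) (b4 : e' * (23 / 16) ^ k ≤ 2 ^ 64) :
    Bp (cm1 y x (W ^ k)) (tr (q * (1 + q' * X ^ k)))
      (N * (e' * (23 / 16) ^ k) + N' * e + e * (e' * (23 / 16) ^ k) / 2 ^ 64 + 83) := by
  have h3 := Ap.one.add (h2.ap.mulW k)
  rw [zero_add, zero_add] at h3
  rw [ap_cm1]
  exact h1.ap.cm h3 (h2.ng.mul _) hN hN' b1 b2 b3 b4

theorem ap_nat (f : ℕ) (hf : 0 < f) : Ap (2 ^ 64 / f) 0 (C (1 / (f : ℂ))) 1 := by
  refine ⟨_, RU.nat 8 _, ?_⟩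
  have h0 : (0 : ℝ) < f := by exact_mod_cast hf
  have h1 : ((2 ^ 64 / f : ℕ) : ℝ) ≤ 2 ^ 64 / f := by exact_mod_cast Nat.cast_div_le (α := ℝ)
  have h2 : (2 ^ 64 : ℝ) / f ≤ (2 ^ 64 / f : ℕ) + 1 := by
    rw [div_le_iff₀ h0, add_mul, one_mul]
    exact_mod_cast (Nat.lt_div_mul_add (a := 2 ^ 64) hf).le
  rw [← C_mul, ← C_sub, nrm_C, show ((2 ^ 64 / f : ℕ) : ℂ) - 2 ^ 64 * (1 / (f : ℂ)) =
    ((((2 ^ 64 / f : ℕ) : ℝ) - 2 ^ 64 / f : ℝ) : ℂ) by
      rw [ofReal_sub, ofReal_natCast, ofReal_div, ofReal_natCast, ofReal_pow, ofReal_ofNat,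
        mul_one_div], norm_real, Real.norm_eq_abs, abs_le]
  constructor <;> linarith

theorem ap_step (h1 : Ap a b q 0) (h3 : Ng 8 b n) (hq : nrm (23 / 16) q ≤ 1 / 2)
    (hd : q.natDegree ≤ 1) (k : ℕ) {l : List ℕ} {s : ℂ[X]} {m : ℕ} (hm : m < 7)
    (H : Bp (hex a b n l) s 200 ∧ nrm (23 / 16) s ≤ 1 ∧ s.natDegree ≤ m) :
    Bp (hex a b n (2 ^ 64 / k.factorial :: l)) ((s + C (1 / (k.factorial : ℂ))) * q) 200 ∧
      nrm (23 / 16) ((s + C (1 / (k.factorial : ℂ))) * q) ≤ 1 ∧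
      ((s + C (1 / (k.factorial : ℂ))) * q).natDegree ≤ m + 1 := by
  obtain ⟨H1, H2, H3⟩ := H
  have n1 : nrm (23 / 16) (s + C (1 / (k.factorial : ℂ))) ≤ 2 := by
    refine (nrm_add_le ap_pos _ _).trans ?_
    have : (1 : ℝ) ≤ k.factorial := by exact_mod_cast k.factorial_pos
    have := (div_le_one (by linarith)).2 this
    rw [nrm_C, norm_div, norm_one, norm_natCast]
    linarith
  have d : ((s + C (1 / (k.factorial : ℂ))) * q).natDegree ≤ m + 1 :=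
    natDegree_mul_le.trans (add_le_add (by rwa [natDegree_add_C]) hd)
  have A := (H1.ap.add (ap_nat _ k.factorial_pos)).cm h1 h3 n1 hq (by norm_num) (by norm_num)
    (by norm_num) (by norm_num)
  rw [tr_eq_self (by omega), add_zero] at A
  refine ⟨ap_hex .. ▸ A.mono (by norm_num), (nrm_mul_le ap_pos _ _).trans ?_, d⟩
  exact (mul_le_mul n1 hq (nrm_nonneg ap_pos _) (by norm_num)).trans (by norm_num)

/-- The exponential series without its constant term. -/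
theorem hex_spec (h1 : Ap a b q 0) (h3 : Ng 8 b n) (hq : nrm (23 / 16) q ≤ 1 / 2)
    (hd : q.natDegree ≤ 1) :
    Bp (hex a b n facs) (∑ k ∈ Ico 1 8, C (1 / (k.factorial : ℂ)) * q ^ k) 200 ∧
      nrm (23 / 16) (∑ k ∈ Ico 1 8, C (1 / (k.factorial : ℂ)) * q ^ k) ≤ 1 := by
  have h0 : Bp (hex a b n []) 0 200 ∧ nrm (23 / 16) (0 : ℂ[X]) ≤ 1 ∧ (0 : ℂ[X]).natDegree ≤ 0 := by
    refine ⟨⟨good_cB, good_cB, ?_⟩, by simp, by simp⟩
    change nrm _ (cd cB cB - _) ≤ _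
    rw [cd_cB, mul_zero, sub_zero, nrm_zero]
    norm_num
  have s := @ap_step a b n q h1 h3 hq hd
  have h7 := s 1 (by norm_num) (s 2 (by norm_num) (s 3 (by norm_num) (s 4 (by norm_num)
    (s 5 (by norm_num) (s 6 (by norm_num) (s 7 (by norm_num) h0))))))
  have e1 : facs = [2 ^ 64 / Nat.factorial 1, 2 ^ 64 / Nat.factorial 2, 2 ^ 64 / Nat.factorial 3,
    2 ^ 64 / Nat.factorial 4, 2 ^ 64 / Nat.factorial 5, 2 ^ 64 / Nat.factorial 6,
    2 ^ 64 / Nat.factorial 7] := by decide +kernel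
  rw [e1, show Ico 1 8 = ({1, 2, 3, 4, 5, 6, 7} : Finset ℕ) by decide]
  repeat rw [sum_insert (by decide)]
  rw [sum_singleton]
  refine ⟨?_, ?_⟩
  · convert h7.1 using 1
    ring
  · convert h7.2.1 using 2
    ring

theorem ap_sq {z : ℂ} {ε : ℝ} (h1 : Ap a b (C (exp z)) (ε * ‖exp z‖)) (h3 : Ng 8 b n)
    (hz : |z.re| ≤ 2) (h0 : 0 ≤ ε) (hε : ε ≤ 2 ^ 28) :
    Bp (cm a b a b n) (C (exp (2 * z))) ((2 * ε + 4600) * ‖exp (2 * z)‖) := by
  have k1 := (ap_exp4 (z := z) (by linarith)).1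
  have k2 := (ap_exp4 (z := 2 * z) (by
    rw [show (2 * z).re = 2 * z.re by simp, abs_mul, abs_two]
    linarith)).2
  have k3 : ε * ‖exp z‖ ≤ 2 ^ 64 :=
    (mul_le_mul hε k1 (norm_nonneg _) (by positivity)).trans (by norm_num)
  have A := h1.cm h1 h3 (nrm_C _).le (nrm_C _).le (by linarith) (by linarith) k3 k3
  have e : exp (2 * z) = exp z * exp z := by rw [two_mul, exp_add]
  rw [← C_mul, tr_eq_self (by rw [natDegree_C]; norm_num), ← e] at A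
  refine A.mono ?_
  rw [e, norm_mul] at k2 ⊢
  have k4 : ε * ε ≤ 2 ^ 28 * 2 ^ 28 := mul_le_mul hε hε h0 (by positivity)
  have k5 := mul_le_mul_of_nonneg_right k4 (mul_self_nonneg ‖exp z‖)
  linarith

theorem xpo_spec {ζ : ℂ} (h1 : Ap a b (C ζ) 0) (h3 : Ng 8 b n) (hζ : ‖ζ‖ ≤ 9 / 100)
    (hre : |ζ.re| ≤ 1 / 16) :
    Bp (xpo a b n) (C (exp (64 * ζ))) (2 ^ 28 * ‖exp (64 * ζ)‖) := by
  have H := (hex_spec h1 h3 (by rw [nrm_C]; linarith) (by simp)).1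
  obtain ⟨p, r, k⟩ := H.ap.add Ap.one
  rw [add_zero] at r
  have h0 : Ap _ _ (C (exp ζ)) (2400000 * ‖exp ζ‖) := ⟨p, r, by
    have b1 := ap_exp ζ (by linarith)
    have b2 : ‖ζ‖ ^ 8 ≤ (9 / 100) ^ 8 := pow_le_pow_left₀ (norm_nonneg _) hζ 8
    have b3 : 15 / 16 ≤ ‖exp ζ‖ := by
      rw [Complex.norm_exp]
      linarith [Real.add_one_le_exp ζ.re, (abs_le.1 hre).1]
    rw [← sub_add_sub_cancel p (C (2 ^ 64) * (∑ k ∈ Ico 1 8,
      C (1 / (k.factorial : ℂ)) * C ζ ^ k + 1))]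
    refine (nrm_add_le ap_pos _ _).trans ((add_le_add k (le_of_eq (b := 2 ^ 64 *
      ‖exp ζ - (1 + ∑ k ∈ Ico 1 8, 1 / (k.factorial : ℂ) * ζ ^ k)‖) ?_)).trans (by linarith))
    rw [← mul_sub, nrm_C_mul, ap_norm, norm_sub_rev, ← nrm_C (ρ := 23 / 16), C_sub, C_add, map_sum,
      add_comm]
    simp only [C_mul, C_pow, C_1]⟩
  have re : ∀ {z : ℂ} {c : ℝ}, |z.re| ≤ c → |(2 * z).re| ≤ 2 * c := fun {z c} h => by
    rw [show (2 * z).re = 2 * z.re by simp, abs_mul, abs_two]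
    linarith
  have r1 := re hre
  have r2 := re r1
  have r3 := re r2
  have r4 := re r3
  have r5 := re r4
  have s1 := ap_sq h0 H.ng (by linarith) (by norm_num) (by norm_num)
  have s2 := ap_sq s1.ap s1.ng (by linarith) (by norm_num) (by norm_num)
  have s3 := ap_sq s2.ap s2.ng (by linarith) (by norm_num) (by norm_num)
  have s4 := ap_sq s3.ap s3.ng (by linarith) (by norm_num) (by norm_num)
  have s5 := ap_sq s4.ap s4.ng (by linarith) (by norm_num) (by norm_num)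
  have s6 := ap_sq s5.ap s5.ng (by linarith) (by norm_num) (by norm_num)
  rw [show 2 * (2 * (2 * (2 * (2 * (2 * ζ))))) = 64 * ζ by ring, ← ap_csq, ← ap_csq, ← ap_csq,
    ← ap_csq, ← ap_csq, ← ap_xpo] at s6
  exact s6.mono (mul_le_mul_of_nonneg_right (by norm_num) (norm_nonneg _))

end Ap

/-- `t` is a Taylor model of `f` on the discs of radii `23 / 16` and `23 / 32`. -/
structure TM.OK (t : TM) (f : ℂ → ℂ) : Prop where
  gr : Good t.r
  gi : Good t.i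
  n1 : nrm (23 / 16) (cd t.r t.i) ≤ t.n1
  n2 : nrm (23 / 32) (cd t.r t.i) ≤ t.n2
  t2 : nrm (23 / 32) (cd t.r t.i - C ((cd t.r t.i).coeff 0)) ≤ t.t2
  e1 : ∀ w : ℂ, ‖w‖ ≤ 23 / 16 → ‖2 ^ 64 * f w - (cd t.r t.i).eval w‖ ≤ t.e1
  e2 : ∀ w : ℂ, ‖w‖ ≤ 23 / 32 → ‖2 ^ 64 * f w - (cd t.r t.i).eval w‖ ≤ t.e2

theorem mkT_ok {r i e1 e2 : ℕ} {f : ℂ → ℂ} (gr : Good r) (gi : Good i)
    (h1 : ∀ w : ℂ, ‖w‖ ≤ 23 / 16 → ‖2 ^ 64 * f w - (cd r i).eval w‖ ≤ e1)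
    (h2 : ∀ w : ℂ, ‖w‖ ≤ 23 / 32 → ‖2 ^ 64 * f w - (cd r i).eval w‖ ≤ e2) :
    (mkT r i e1 e2).OK f :=
  ⟨gr, gi, nrm_le_dot1 gr gi, nrm_le_dot2 gr gi, nrm_le_dot2t gr gi, h1, h2⟩

theorem ap_perr (h s na nb ea eb : ℕ) : ((h : ℝ) + 83) * (23 ^ 8 / 2 ^ s) +
    (na * eb + nb * ea + ea * eb) / 2 ^ 64 + 83 ≤ perr h s na nb ea eb := by
  have h1 := ap_shift ((h + 83) * 78310985281) s
  have h2 := ap_shift (na * eb + nb * ea + ea * eb) 64
  have e : perr h s na nb ea eb = Nat.shiftRight ((h + 83) * 78310985281) s +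
      Nat.shiftRight (na * eb + nb * ea + ea * eb) 64 + 85 := rfl
  rw [e, ← mul_div_assoc, show (23 : ℝ) ^ 8 = 78310985281 by norm_num]
  simp only [Nat.cast_add, Nat.cast_mul, Nat.cast_ofNat] at h1 h2 ⊢
  linarith

theorem ap_tmul {ρ : ℝ} (h0 : 0 ≤ ρ) (hρ : ρ ≤ 23 / 16) {x y : ℕ} {p q : ℂ[X]} {w u v : ℂ}
    (r : RU 16 x y (p * q)) (dp : p.natDegree < 8) (dq : q.natDegree < 8)
    (c : ∀ k, ‖(p * q).coeff k‖ < 2 ^ 159) (hw : ‖w‖ ≤ ρ) {h na nb ea eb : ℝ}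
    (hh : nrm ρ (cd (hi (x + cH)) (hi (y + cH))) ≤ h) (n1 : nrm ρ p ≤ na) (n2 : nrm ρ q ≤ nb)
    (e1 : ‖2 ^ 64 * u - p.eval w‖ ≤ ea) (e2 : ‖2 ^ 64 * v - q.eval w‖ ≤ eb) :
    ‖2 ^ 64 * (u * v) - (cd (lo (x + cH)) (lo (y + cH))).eval w‖ ≤
      (h + 83) * ρ ^ 8 + (na * eb + nb * ea + ea * eb) / 2 ^ 64 + 83 := by
  have l := (norm_eval_le hw _).trans (lo_nrm h0 hρ (by norm_num) r c)
  have sp := congrArg (eval w) (eq_tr_add (p := p * q) (natDegree_mul_le.trans_lt (by omega)))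
  set Q : ℂ[X] := ∑ k ∈ range 8, monomial k ((p * q).coeff (k + 8)) with hQ
  have dQ : Q.natDegree < 8 := (natDegree_sum_le_of_forall_le _ _ (n := 7) fun k hk =>
    (natDegree_monomial_le _).trans (by have := mem_range.1 hk; omega)).trans_lt (by norm_num)
  have m := (norm_eval_le hw _).trans (nrm_le_83
    (p := cd (hi (x + cH)) (hi (y + cH)) - C (1 / 2 ^ 64) * Q) h0 hρ
    ((natDegree_sub_le _ _).trans_lt (max_lt (natDegree_cd _ _)
      ((natDegree_C_mul_le _ _).trans_lt dQ))) fun k hk => by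
    have := hi_spec r c k hk
    rwa [coeff_sub, coeff_C_mul, hQ, finsetSum_coeff, sum_eq_single k
      (fun j _ hj => by rw [coeff_monomial, if_neg hj]) (fun h => absurd (mem_range.2 hk) h),
      coeff_monomial, if_pos rfl, one_div, inv_mul_eq_div])
  have m1 := (norm_eval_le hw _).trans hh
  have p1 := (norm_eval_le hw _).trans n1
  have q1 := (norm_eval_le hw _).trans n2
  simp only [eval_sub, eval_mul, eval_C, eval_add, eval_pow, eval_X] at l m sp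
  generalize (cd (lo (x + cH)) (lo (y + cH))).eval w = L at *
  generalize (cd (hi (x + cH)) (hi (y + cH))).eval w = H at *
  have e : 2 ^ 64 * (u * v) - L = (H - (H - 1 / 2 ^ 64 * Q.eval w)) * w ^ 8 +
      (p.eval w * (2 ^ 64 * v - q.eval w) + q.eval w * (2 ^ 64 * u - p.eval w) +
        (2 ^ 64 * u - p.eval w) * (2 ^ 64 * v - q.eval w)) / 2 ^ 64 -
      (L - 1 / 2 ^ 64 * (tr (p * q)).eval w) := by
    linear_combination (1 / 2 ^ 64) * sp
  have mm : ∀ {s t : ℂ} {a b : ℝ}, ‖s‖ ≤ a → ‖t‖ ≤ b → ‖s * t‖ ≤ a * b := fun hs ht =>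
    (norm_mul_le _ _).trans (mul_le_mul hs ht (norm_nonneg _) ((norm_nonneg _).trans hs))
  rw [e]
  refine (norm_sub_le _ _).trans (add_le_add ((norm_add_le _ _).trans (add_le_add
    (mm ((norm_sub_le _ _).trans (add_le_add m1 m))
      ((norm_pow _ _).trans_le (pow_le_pow_left₀ (norm_nonneg _) hw 8))) ?_)) l)
  rw [norm_div, ap_norm]
  exact div_le_div_of_nonneg_right (norm_add₃_le.trans
    (add_le_add (add_le_add (mm p1 e2) (mm q1 e1)) (mm e1 e2))) (by positivity)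

theorem tmul_ok {a b : TM} {f g : ℂ → ℂ} (ha : a.OK f) (hb : b.OK g) (h1 : a.n1 ≤ 2 ^ 77)
    (h2 : b.n1 ≤ 2 ^ 77) : (tmul a b).OK fun w => f w * g w := by
  have r := (ha.gr.ru16 ha.gi).mul (hb.gr.ru16 hb.gi) hb.gi.ng16
  have s1 : nrm (23 / 16) (cd a.r a.i) ≤ 2 ^ 77 := ha.n1.trans (by exact_mod_cast h1)
  have s2 : nrm (23 / 16) (cd b.r b.i) ≤ 2 ^ 77 := hb.n1.trans (by exact_mod_cast h2)
  have c : ∀ k, ‖(cd a.r a.i * cd b.r b.i).coeff k‖ < 2 ^ 159 := fun k =>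
    ((norm_coeff_le (by norm_num) _ k).trans ((nrm_mul_le ap_pos _ _).trans
      (mul_le_mul s1 s2 (nrm_nonneg ap_pos _) (by positivity)))).trans_lt (by norm_num)
  refine mkT_ok (good_lo _) (good_lo _) (fun w hw => ?_) fun w hw => ?_
  · refine (ap_tmul ap_pos le_rfl r (natDegree_cd _ _) (natDegree_cd _ _) c hw
      (nrm_le_dot1 (good_hi _) (good_hi _)) ha.n1 hb.n1 (ha.e1 w hw) (hb.e1 w hw)).trans ?_
    rw [show (23 / 16 : ℝ) ^ 8 = 23 ^ 8 / 2 ^ 32 by norm_num]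
    exact ap_perr ..
  · refine (ap_tmul (by norm_num) (by norm_num) r (natDegree_cd _ _) (natDegree_cd _ _) c hw
      (nrm_le_dot2 (good_hi _) (good_hi _)) ha.n2 hb.n2 (ha.e2 w hw) (hb.e2 w hw)).trans ?_
    rw [show (23 / 32 : ℝ) ^ 8 = 23 ^ 8 / 2 ^ 40 by norm_num]
    exact ap_perr ..

theorem ap_eF {E x : C2} {E₀ u : ℂ} {j : ℕ} (hE : Bp E (C E₀) (2 ^ 28 * ‖E₀‖)) (h55 : ‖E₀‖ ≤ 55)
    (hu : ‖u‖ ≤ 1 / 2 ^ j / 2)
    (hx : Bp x (∑ k ∈ Ico 1 8, C (1 / (k.factorial : ℂ)) * (C u * X) ^ k) 200 ∧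
      nrm (23 / 16) (∑ k ∈ Ico 1 8, C (1 / (k.factorial : ℂ)) * (C u * X) ^ k) ≤ 1) :
    (eF E x j).OK fun w => E₀ * exp (u * w) := by
  obtain ⟨hx, nx⟩ := hx
  set S : ℂ[X] := ∑ k ∈ Ico 1 8, C (1 / (k.factorial : ℂ)) * (C u * X) ^ k with hS
  have dS : S.natDegree ≤ 7 := natDegree_sum_le_of_forall_le _ _ fun k hk =>
    (natDegree_C_mul_le _ _).trans ((natDegree_pow_le_of_le k
      ((natDegree_C_mul_le _ _).trans natDegree_X_le)).trans (by have := (mem_Ico.1 hk).2; omega))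
  have A := hE.cm1 (N' := 2) hx 0 (nrm_C _).le (by
    rw [pow_zero, mul_one, ← C_1]
    refine (nrm_add_le ap_pos _ _).trans ?_
    rw [nrm_C, norm_one]
    linarith) (by linarith) (by norm_num) (by linarith) (by norm_num)
  rw [pow_zero, pow_zero, pow_zero, mul_one, mul_one, tr_eq_self ((natDegree_C_mul_le _ _).trans_lt
    (by rw [← C_1, natDegree_C_add]; omega))] at A
  have hn : (2 ^ 64 - 2 ^ 28) * ‖E₀‖ ≤ ((dst (d0 E.r) 39614081257132168796771975168 +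
      dst (d0 E.i) 39614081257132168796771975168 : ℕ) : ℝ) := by
    have k1 := (norm_coeff_le (by norm_num) _ 0).trans hE.2.2
    rw [coeff_sub, ← C_mul, coeff_C_zero, norm_sub_rev] at k1
    have k2 := norm_sub_norm_le (2 ^ 64 * E₀) ((cd E.r E.i).coeff 0)
    have k3 := norm_le_abs_re_add_abs_im ((cd E.r E.i).coeff 0)
    rw [norm_mul, ap_norm] at k2
    rw [Nat.cast_add, dst_cast, dst_cast,
      show ((39614081257132168796771975168 : ℕ) : ℝ) = 2 ^ 95 by norm_num]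
    conv_rhs at k3 => rw [coeff_cd_zero]
    linarith
  generalize hm : dst (d0 E.r) 39614081257132168796771975168 +
      dst (d0 E.i) 39614081257132168796771975168 = m at hn
  have key : ∀ (ρ : ℝ) (s : ℕ), ρ ≤ 23 / 16 →
      2 ^ 64 * ((ρ / 2) ^ 8 * (9 / 322560)) ≤ (2 ^ 64 - 2 ^ 28) / 2 ^ s → ∀ w : ℂ, ‖w‖ ≤ ρ →
      ‖2 ^ 64 * (E₀ * exp (u * w)) - (cd (cm1 E x 1).r (cm1 E x 1).i).eval w‖ ≤
        ((Nat.shiftRight m (s + 8 * j) + Nat.shiftRight m 30 + 100000 : ℕ) : ℝ) := by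
    intro ρ s hρ hs w hw
    have t0 : (0 : ℝ) < 2 ^ j := by positivity
    have t1 : (1 : ℝ) / 2 ^ j ≤ 1 := (div_le_one t0).2 (one_le_pow₀ one_le_two)
    have b1 : ‖u * w‖ ≤ 1 / 2 ^ j * (ρ / 2) := by
      rw [norm_mul]
      exact (mul_le_mul hu hw (norm_nonneg _) (by positivity)).trans_eq (by ring)
    have r0 : 0 ≤ ρ := (norm_nonneg _).trans hw
    have b2 := (ap_exp (u * w) (b1.trans (mul_le_one₀ t1 (by positivity) (by linarith)))).trans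
      (mul_le_mul_of_nonneg_right (pow_le_pow_left₀ (norm_nonneg _) b1 8) (by norm_num))
    have b3 := (norm_eval_le (hw.trans hρ) _).trans A.2.2
    have ev : S.eval w = ∑ k ∈ Ico 1 8, 1 / (k.factorial : ℂ) * (u * w) ^ k := by
      simp only [hS, eval_finsetSum, eval_mul, eval_C, eval_pow, eval_X]
    rw [eval_sub, eval_mul, eval_mul, eval_add, eval_C, eval_C, eval_one, ev, norm_sub_rev] at b3
    have b4 : ‖2 ^ 64 * (E₀ * exp (u * w)) -
        2 ^ 64 * (E₀ * (1 + ∑ k ∈ Ico 1 8, 1 / (k.factorial : ℂ) * (u * w) ^ k))‖ ≤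
        m / 2 ^ (s + 8 * j) := by
      rw [← mul_sub, ← mul_sub, norm_mul, norm_mul, ap_norm]
      calc _ ≤ 2 ^ 64 * (‖E₀‖ * ((1 / 2 ^ j * (ρ / 2)) ^ 8 * (9 / 322560))) := by gcongr
        _ = 2 ^ 64 * ((ρ / 2) ^ 8 * (9 / 322560)) * (‖E₀‖ / 2 ^ (8 * j)) := by
          rw [mul_pow, pow_mul']
          field_simp
        _ ≤ (2 ^ 64 - 2 ^ 28) / 2 ^ s * (‖E₀‖ / 2 ^ (8 * j)) := by gcongr
        _ = (2 ^ 64 - 2 ^ 28) * ‖E₀‖ / 2 ^ (s + 8 * j) := by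
          rw [pow_add]
          field_simp
        _ ≤ _ := by gcongr
    have b5 := ap_shift m (s + 8 * j)
    have b6 := ap_shift m 30
    have b7 := norm_nonneg E₀
    refine (norm_sub_le_norm_sub_add_norm_sub _ _ _).trans ((add_le_add b4 b3).trans ?_)
    simp only [Nat.cast_add, Nat.cast_ofNat]
    linarith
  subst hm
  exact mkT_ok A.1 A.2.1 (key _ 17 le_rfl (by norm_num)) (key _ 25 (by norm_num) (by norm_num))

theorem ap_W8 : 2 ^ 63 ≤ W8 := by decide +kernel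

theorem ap_W8' : (W8 : ℤ) = (W : ℤ) ^ 8 := Nat.cast_pow W 8

theorem ap_p {Y : ℕ} (hY : Y < 2 ^ 28) :
    ((K60p - Y * 8589934592 : ℕ) : ℤ) = (W : ℤ) ^ 8 + (2 ^ 60 - Y * 2 ^ 33) := by
  have g : ∀ V : ℕ, 2 ^ 63 ≤ V →
      ((V + 2 ^ 60 - Y * 8589934592 : ℕ) : ℤ) = (V : ℤ) + (2 ^ 60 - Y * 2 ^ 33) := by
    intro V hV
    rw [Nat.cast_sub (by omega)]
    push_cast
    ring
  exact (g W8 ap_W8).trans (congrArg (fun t : ℤ => t + (2 ^ 60 - Y * 2 ^ 33)) ap_W8')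

theorem ap_m (Y : ℕ) : ((Y * 8589934592 + K60m : ℕ) : ℤ) = (W : ℤ) ^ 8 + (Y * 2 ^ 33 - 2 ^ 60) := by
  have g : ∀ V : ℕ, 2 ^ 63 ≤ V →
      ((Y * 8589934592 + (V - 2 ^ 60) : ℕ) : ℤ) = (V : ℤ) + (Y * 2 ^ 33 - 2 ^ 60) := by
    intro V hV
    rw [Nat.cast_add, Nat.cast_sub (by omega)]
    push_cast
    ring
  exact (g W8 ap_W8).trans (congrArg (fun t : ℤ => t + (Y * 2 ^ 33 - 2 ^ 60)) ap_W8')

theorem ap_xpo_ok {a b n : ℕ} {x y : ℤ} {z : ℂ} (ha : (a : ℤ) = (W : ℤ) ^ 8 + x)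
    (hb : (b : ℤ) = (W : ℤ) ^ 8 + y) (hn : (n : ℤ) = (W : ℤ) ^ 8 - y) (hx : |x| ≤ 2 ^ 60)
    (hy : |y| ≤ 2 ^ 60) (hz : z = (x + y * I) / 2 ^ 58) :
    Bp (xpo a b n) (C (exp z)) (2 ^ 28 * ‖exp z‖) ∧ ‖exp z‖ ≤ 55 := by
  have hx' : |(x : ℝ)| ≤ 2 ^ 60 := by exact_mod_cast hx
  have hy' : |(y : ℝ)| ≤ 2 ^ 60 := by exact_mod_cast hy
  have e : (x + y * I : ℂ) / 2 ^ 64 = (⟨x / 2 ^ 64, y / 2 ^ 64⟩ : ℂ) := by
    rw [mk_eq_add_mul_I]
    push_cast
    ring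
  have r1 : |((x + y * I : ℂ) / 2 ^ 64).re| ≤ 1 / 16 := by
    rw [e, abs_div, abs_of_pos (a := (2 : ℝ) ^ 64) (by positivity)]
    linarith
  have r2 : |((x + y * I : ℂ) / 2 ^ 64).im| ≤ 1 / 16 := by
    rw [e, abs_div, abs_of_pos (a := (2 : ℝ) ^ 64) (by positivity)]
    linarith
  have e2 : z = 64 * ((x + y * I : ℂ) / 2 ^ 64) := by
    rw [hz]
    ring
  have A : Ap a b (C ((x + y * I : ℂ) / 2 ^ 64)) 0 :=
    ⟨_, RU.const (x := x) (y := y) ⟨-1, by rw [ha]; ring⟩ ⟨-1, by rw [hb]; ring⟩, by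
      rw [← C_mul, mul_div_cancel₀ _ (pow_ne_zero _ two_ne_zero), sub_self, nrm_zero]⟩
  have B : Ng 8 b n := ⟨2, by rw [hb, hn]; ring⟩
  generalize (x + y * I : ℂ) / 2 ^ 64 = ζ at *
  subst e2
  refine ⟨xpo_spec A B (abs_le_of_sq_le_sq' ?_ (by norm_num)).2 r1, (ap_exp4 ?_).1⟩
  · rw [Complex.sq_norm, normSq_apply]
    nlinarith [abs_le.1 r1, abs_le.1 r2]
  · rw [show (64 * ζ).re = 64 * ζ.re by simp, abs_mul, abs_of_pos (by norm_num)]
    linarith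

theorem ap_lp {j : ℕ} (h2 : j < 16) :
    RU 8 0 (lp j) (C (2 ^ 64) * (C (I * ((1 / 2 ^ j : ℝ) : ℂ) / 2) * X)) ∧ Ng 8 (lp j) (lm j) := by
  have e : Nat.shiftRight 9223372036854775808 j = 2 ^ (63 - j) := by
    rw [Nat.shiftRight_eq, Nat.shiftRight_eq_div_pow]
    exact Nat.pow_div (x := 2) (m := 63) (by omega) (by norm_num)
  have e1 : lp j = 2 ^ (63 - j) * W := congrArg (· * W) e
  constructor
  · have r := (RU.const (N := 8) (a := 0) (b := 2 ^ (63 - j)) (x := 0) (y := 2 ^ (63 - j))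
      (by simp) (by simp)).mulW 1
    rw [zero_mul, pow_one, pow_one, ← e1] at r
    convert r using 1
    rw [← mul_assoc, ← C_mul]
    congr 2
    have : (2 : ℂ) ^ 64 = 2 ^ (63 - j) * 2 ^ j * 2 := by
      rw [← pow_add, ← pow_succ]
      congr 1
      omega
    rw [this]
    push_cast
    field_simp
    ring
  · have l : lp j ≤ W8 * W := e1.trans_le (Nat.mul_le_mul_right _
      ((Nat.pow_le_pow_right (by norm_num) (by omega)).trans ap_W8))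
    refine ⟨W, ?_⟩
    rw [← ap_W8', ← Nat.cast_add, ← Nat.cast_mul]
    exact congrArg _ (Nat.add_sub_cancel' l)

theorem ap_u {j : ℕ} (h1 : 1 ≤ j) {u : ℂ} (hu : ‖u‖ = ‖I * ((1 / 2 ^ j : ℝ) : ℂ) / 2‖) :
    ‖u‖ ≤ 1 / 2 ^ j / 2 ∧ nrm (23 / 16) (C u * X) ≤ 1 / 2 ∧ (C u * X).natDegree ≤ 1 := by
  have e : ‖u‖ = 1 / 2 ^ j / 2 := by
    rw [hu]
    simp
  have t : (1 : ℝ) / 2 ^ j ≤ 1 / 2 ^ 1 :=
    one_div_le_one_div_of_le (by positivity) (pow_le_pow_right₀ one_le_two h1)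
  refine ⟨e.le, ?_, (natDegree_C_mul_le _ _).trans natDegree_X_le⟩
  rw [← pow_one X, nrm_mul_X_pow, nrm_C, e]
  linarith

/-- The exponential factor of the first spinor on the cell with centre `pt X Y`, side `2 ^ (-j)`. -/
theorem eF_okP {X Y j : ℕ} (hX : X < 2 ^ 28) (hY : Y < 2 ^ 28) (h1 : 1 ≤ j) (h2 : j < 16) :
    (eF (xpo (K60p - Y * 8589934592) (X * 8589934592 + K60m) (K60p - X * 8589934592)) (exP j)
      j).OK fun w => exp (I * (pt X Y + ((1 / 2 ^ j : ℝ) : ℂ) * w) / 2) := by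
  obtain ⟨a1, a2⟩ := ap_xpo_ok (z := I * pt X Y / 2) (ap_p hY) (ap_m X)
    ((ap_p hX).trans (by ring)) (abs_le.2 ⟨by omega, by omega⟩) (abs_le.2 ⟨by omega, by omega⟩) (by
      rw [pt, mk_eq_add_mul_I]
      push_cast
      linear_combination ((Y : ℂ) / 2 ^ 25 - 4) * I_mul_I)
  obtain ⟨l1, l2⟩ := ap_lp h2
  obtain ⟨u1, u2, u3⟩ := ap_u h1 rfl
  refine Eq.subst (funext fun w => ?_)
    (ap_eF a1 a2 u1 (hex_spec ⟨_, l1, by rw [sub_self, nrm_zero]⟩ l2 u2 u3))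
  rw [← exp_add]
  congr 1
  ring

theorem eF_okM {X Y j : ℕ} (hX : X < 2 ^ 28) (hY : Y < 2 ^ 28) (h1 : 1 ≤ j) (h2 : j < 16) :
    (eF (xpo (Y * 8589934592 + K60m) (K60p - X * 8589934592) (X * 8589934592 + K60m)) (exM j)
      j).OK fun w => exp (-(I * (pt X Y + ((1 / 2 ^ j : ℝ) : ℂ) * w) / 2)) := by
  obtain ⟨a1, a2⟩ := ap_xpo_ok (z := -(I * pt X Y / 2)) (ap_m Y) (ap_p hX)
    ((ap_m X).trans (by ring)) (abs_le.2 ⟨by omega, by omega⟩) (abs_le.2 ⟨by omega, by omega⟩) (by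
      rw [pt, mk_eq_add_mul_I]
      push_cast
      linear_combination (4 - (Y : ℂ) / 2 ^ 25) * I_mul_I)
  obtain ⟨l1, l2⟩ := ap_lp h2
  obtain ⟨u1, u2, u3⟩ := ap_u h1 (norm_neg (I * ((1 / 2 ^ j : ℝ) : ℂ) / 2))
  refine Eq.subst (funext fun w => ?_) (ap_eF a1 a2 u1 (hex_spec ⟨_, l1.neg (a' := 0) ⟨0, by simp⟩
    l2, by rw [C_neg, neg_mul, mul_neg, sub_self, nrm_zero]⟩ l2.symm u2 u3))
  rw [← exp_add]
  congr 1
  ring

end Pool.Agent.MP_c434f6_gt.H30.Emb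

end
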