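import Pool.Agent.MP_c434f6_gt.G4.Walk
import Pool.Agent.MP_c434f6_gt.G4.Prim

section

/-! The paths for the first surface. -/

namespace Pool.Agent.MP_c434f6_gt.H30.W

open H16

def u6 (n : ℕ) : ℕ := n.mul 4398046511104
def pN : Par := ⟨u6 272, u6 176, u6 320, u6 243, u6 73, u6 246, u6 640, u6 4, u6 4⟩
def zN : Bl := ⟨cB, sg false (u6 85), 0⟩
def v16 (n : ℕ) : ℕ := n.mul 4294967296

theorem runN1 : go tabN oN 3 10 zN tr pN.U = true := by decide +kernel
theorem runN2 : go tabN oN 3 10 zN tr pN.V = true := by decide +kernel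
theorem runN3 : go tabN oN 3 10 zN tr (pN.X true) = true := by decide +kernel
theorem runN4 : go tabN oN 3 10 zN tr (pN.X false) = true := by decide +kernel
theorem runN5 : go tabN oN 5 16 zN
    (fun d => zchk d (sg true (v16 159594)) (sg true (v16 77396)) (v16 256) (u6 61))
    [⟨false, sg true (v16 159794), u6 3, f0⟩, ⟨true, sg true (v16 77396), u6 2, f0⟩] = true := by
  decide +kernel

end Pool.Agent.MP_c434f6_gt.H30.W

end

section

/-! The paths for the second surface. -/

namespace Pool.Agent.MP_c434f6_gt.H30.W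

open H16

def u8 (n : ℕ) : ℕ := n.mul 1099511627776
def pH : Par := ⟨u8 640, u8 1152, u8 832, u8 1228, u8 180, u8 600, u8 11584, u8 20, u8 7⟩
def sH : Stair := ⟨u8 320, u8 356, u8 404, u8 320, u8 1024, u8 1124, u8 244, u8 12⟩

theorem runH1 : go tabH oH 3 10 .zero tr pH.U = true := by decide +kernel
theorem runH2 : go tabH oH 3 10 .zero tr pH.V = true := by decide +kernel
theorem runH3 : go tabH oH 3 10 .zero tr (pH.X true) = true := by decide +kernel
theorem runH4 : go tabH oH 3 10 .zero tr (pH.X false) = true := by decide +kernel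
theorem runH5 : go tabH oH 3 10 .zero tr (sH.C true) = true := by decide +kernel
theorem runH6 : go tabH oH 3 10 .zero tr (sH.C false) = true := by decide +kernel

end Pool.Agent.MP_c434f6_gt.H30.W

end

section

/-! The ends and the critical heights of the two surfaces. -/

open Complex Set

namespace Pool.Agent.MP_c434f6_gt.H30.W

open H16 Sch

theorem final_num {S S' : Sch (Fin 8)} (e : Fin 4 × Bool ≃ Fin 8)
    (he : ∀ j, pr8 (e (j, false)) = e (j, true)) (H : Hyp S tabN oN (-(85 / 64) * I))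
    (H' : Hyp S' tabH oH 0) (E : S.Emb (box 5 3.8)) (E' : S'.Emb (box 3.25 4.8)) :
    ∃ M₁ M₂, OneEnded 4 M₁ ∧ OneEnded 4 M₂ ∧ ¬ Similar M₁ M₂ := by
  have c : pos' tabN := by unfold pos'; decide +kernel
  have c' : pos' tabH := by unfold pos'; decide +kernel
  have z : zN.mem (-(85 / 64) * I) := (Bl.mem_pt _ _).cg (by
    apply Complex.ext <;> simp [pt, val_B, val_sub (show u6 85 ≤ cB by decide +kernel)]
    norm_num [re', u6, cU])
  have z' : Bl.zero.mem 0 := pt_B ▸ Bl.mem_pt cB cB
  have m {S : Sch (Fin 8)} {a b a' b' : ℝ} (E : S.Emb (box a b)) (h1 : a' ≤ a) (h2 : b' ≤ b) :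
      S.Emb (box a' b') := fun z hz =>
    have s : S.F ∩ box a' b' ⊆ S.F ∩ box a b := fun w h => ⟨h.1, h.2.1.trans h1, h.2.2.trans h2⟩
    ⟨(E z (s hz)).1, fun w hw => (E z (s hz)).2 w (s hw)⟩
  obtain ⟨t₁, h₁, t₂, h₂, h⟩ := crit_of H c z (by decide +kernel) (by decide +kernel) runN5
  exact final e (H.O.pr ▸ he) (H'.O.pr ▸ he) H.A H'.A
    (far_of H c z (by unfold Par.ok; decide +kernel) runN1 runN2 (Bool.forall_bool.2 ⟨runN4, runN3⟩))
    (far_of H' c' z' (by unfold Par.ok; decide +kernel) runH1 runH2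
      (Bool.forall_bool.2 ⟨runH4, runH3⟩))
    (m E (by norm_num [re', pN, u6, cU]) (by norm_num [re', pN, u6, cU]))
    (m E' (by norm_num [re', pH, u8, cU]) (by norm_num [re', pH, u8, cU])) h₁ h₂ h
    fun w hw h0 => stair_of H' c' z' (by unfold Stair.ok; decide +kernel)
      (Bool.forall_bool.2 ⟨runH6, runH5⟩) hw.1 h0

end Pool.Agent.MP_c434f6_gt.H30.W

end
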