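import Pool.Agent.MP_c434f6_gt.G4.Ana
import Pool.Agent.MP_c434f6_gt.G4.Geom
import Pool.Agent.MP_c434f6_gt.G4.Asm
import Pool.Agent.MP_c434f6_gt.G4.Prim
import Pool.Agent.MP_c434f6_gt.G4.Cert
import Pool.Agent.MP_c434f6_gt.G4.ChkNa
import Pool.Agent.MP_c434f6_gt.G4.ChkNb
import Pool.Agent.MP_c434f6_gt.G4.ChkNe
import Pool.Agent.MP_c434f6_gt.G4.ChkNf
import Pool.Agent.MP_c434f6_gt.G4.ChkHa
import Pool.Agent.MP_c434f6_gt.G4.ChkHb
import Pool.Agent.MP_c434f6_gt.G4.ChkHe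
import Pool.Agent.MP_c434f6_gt.G4.ChkHf
import Pool.Agent.MP_c434f6_gt.G4.Run

section

/-! The reflection symmetry of the surface. -/

open Complex
open scoped ComplexConjugate

namespace Pool.Agent.MP_c434f6_gt.H30.Dat2

theorem Closed.tau {ι : Type} [Fintype ι] [DecidableEq ι] {d : Dat2 ι} {τ : ι ≃ ι} {N : Set ι}
    (H : d.Closed τ N) {z₀ : ℂ} (h0 : -conj z₀ = z₀) (h : ∀ l, d.ρ l < ‖d.c l‖) :
    (d.sch z₀).Tau := by
  have V {z} (hz : z ∈ (d.sch z₀).F) : z ∈ d.V2 := (H.ana z₀).sub hz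
  have s (j) {z} (hz : z ∈ (d.sch z₀).F) : d.s (aa j) (-conj z) = conj (d.s (aa j) z) :=
    let ⟨_, _, _, C⟩ := H.ok.con j
    H.sym.toSym.s (conj_aa j) C (H.ok.V2_V (V hz))
  refine ⟨fun z hz k => ?_, fun z => s true, fun z => s false, fun z hz => H.ok.h3_sym H.sym (V hz),
    fun z hz => ?_⟩
  · obtain ⟨k, rfl⟩ := τ.surjective k
    simpa only [sch, H.sym.toSym.norm, H.sym.κ, norm_neg, norm_conj] using hz k
  · have e := H.ok.Z0_sym H.sym (z := 0) fun l => by simpa using h l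
    simp only [map_zero, neg_zero] at e
    simp only [sch, H.ok.Z0_sym H.sym (V hz), map_add, map_sub]
    linear_combination -e - h0

end Pool.Agent.MP_c434f6_gt.H30.Dat2

end

section

/-! The oracle of a solution of the period problem. -/

open Set Complex
open scoped ComplexConjugate

namespace Pool.Agent.MP_c434f6_gt.H30.Tab

theorem orc (T : Tab) {ℓ : Fin 8 → Fin 8 → ℂ} {c κ : Fin 8 → ℂ} {N : Set (Fin 8)}
    (H : (T.dat ℓ c κ).Closed tau8 N) (near : T.Near (1 / 2 ^ 40) c κ)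
    {q : Bool → Fin 8 → List (ℤ × ℤ)} {ε : ℝ}
    (hf : ∀ j z, (∀ l, (T.ρ l : ℝ) / 2 ^ 16 < ‖z - c l‖) → ‖(T.dat ℓ c κ).f (aa j) z -
      (1 + ∑ l, hq (q j l) ((T.r l : ℂ) / 2 ^ 16 / (z - c l)))‖ ≤ ε) (z₀ : ℂ) :
    Orc ((T.dat ℓ c κ).sch z₀) T q ε := by
  refine ⟨rfl, near, fun z hz => hz, fun z hz => ?_, fun z hz => ?_, fun k z h1 h2 => ?_⟩
  · have e : ((T.dat ℓ c κ).sch z₀).σ1 z = (T.dat ℓ c κ).f (aa true) z := by
      rw [Sch.σ1, (Dat2.sch_s z₀ z).1, mul_right_comm, ← exp_add,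
        show I / 2 * z + -(I * z / 2) = 0 by ring, exp_zero, one_mul]
    rw [e]; exact hf true z hz
  · have e : ((T.dat ℓ c κ).sch z₀).σ2 z = (T.dat ℓ c κ).f (aa false) z := by
      rw [Sch.σ2, (Dat2.sch_s z₀ z).2, mul_right_comm, ← exp_add,
        show -(I / 2) * z + I * z / 2 = 0 by ring, exp_zero, one_mul]
    rw [e]; exact hf false z hz
  · refine H.glue z₀ k h1 ?_
    rw [lt_div_iff₀ (H.ok.ρ0 _), mul_comm]
    exact h2

theorem _root_.Pool.Agent.MP_c434f6_gt.H30.OrcH.mono {S : Sch (Fin 8)} {T : Tab}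
    {q : Bool → Fin 8 → List (ℤ × ℤ)} {ε ε' : ℝ} (O : OrcH S T q ε) (h : ε ≤ ε') : OrcH S T q ε' :=
  ⟨O.pr, O.near, O.hV, fun z hz => (O.f1 z hz).trans h, fun z hz => (O.f2 z hz).trans h, O.glue⟩

/-- A solution of the period problem gives a surface with its oracle. -/
theorem surf (T : Tab) {ℓ : Fin 8 → Fin 8 → ℂ} {q : Bool → Fin 8 → List (ℤ × ℤ)} {ε : ℝ} {n : ℕ}
    (h : ∃ c κ, (T.dat ℓ c κ).Closed tau8 (range nk) ∧ T.Near (1 / 2 ^ 40) c κ ∧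
      ∀ j z, (∀ l, (T.ρ l : ℝ) / 2 ^ 16 < ‖z - c l‖) → ‖(T.dat ℓ c κ).f (aa j) z -
        (1 + ∑ l, hq (q j l) ((T.r l : ℂ) / 2 ^ 16 / (z - c l)))‖ ≤ ε)
    (hh : hatOK T q n = true)
    (h0 : ∀ l, (T.ρ l + 1) ^ 2 * 2 ^ 64 ≤ (T.c l).1.natAbs ^ 2 + (T.c l).2.natAbs ^ 2) {z₀ : ℂ}
    (hz : -conj z₀ = z₀) : ∃ S : Sch (Fin 8),
      S.Ana ∧ OrcH S T q (ε + n / 2 ^ 64) ∧ S.Tau ∧ S.h3 0 = 0 ∧ S.Z 0 = z₀ := by
  obtain ⟨c, κ, H, N, hf⟩ := h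
  suffices h : ∀ l, (T.dat ℓ c κ).ρ l < ‖(T.dat ℓ c κ).c l‖ from ⟨_, H.ana z₀,
    (T.orc H N hf z₀).hat hh, H.tau hz h, H.h3_zero z₀ h, Dat2.sch_Z_zero z₀⟩
  intro l
  have h1 : (0 : ℂ) ∈ T.Vh := fun l => by
    rw [zero_sub, norm_neg]
    refine le_of_sq_le_sq ?_ (norm_nonneg _)
    rw [norm_gz_sq, div_pow, div_le_div_iff₀ (by positivity) (by positivity)]
    have h2 : (((T.ρ l + 1) ^ 2 * 2 ^ 64 : ℕ) : ℝ) ≤
        (((T.c l).1.natAbs ^ 2 + (T.c l).2.natAbs ^ 2 : ℕ) : ℝ) := by exact_mod_cast h0 l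
    calc _ = (((T.ρ l + 1) ^ 2 * 2 ^ 64 : ℕ) : ℝ) * (2 ^ 16) ^ 2 := by push_cast; ring
      _ ≤ _ := by gcongr
  have h3 := Vh_lt N h1 l
  rwa [zero_sub, norm_neg] at h3

/-- The four handles. -/
def e8 : Fin 4 × Bool ≃ Fin 8 where
  toFun p := ⟨2 * p.1 + p.2.toNat, by rcases p with ⟨j, _ | _⟩ <;> simp <;> omega⟩
  invFun k := (⟨k / 2, by omega⟩, decide (k.1 % 2 = 1))
  left_inv := by decide
  right_inv := by decide

lemma pr8_e8 (j : Fin 4) : pr8 (e8 (j, false)) = e8 (j, true) := by revert j; decide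

end Pool.Agent.MP_c434f6_gt.H30.Tab

end

section

/-! The period problem has a solution near the table. -/

open Complex Set

namespace Pool.Agent.MP_c434f6_gt.H16

open H30

theorem exN : ∃ ℓ c κ, (tabN.dat ℓ c κ).Closed tau8 (range Tab.nk) ∧ tabN.Near (1 / 2 ^ 40) c κ ∧
    ∀ j z, (∀ l, (tabN.ρ l : ℝ) / 2 ^ 16 < ‖z - c l‖) → ‖(tabN.dat ℓ c κ).f (aa j) z -
      (1 + ∑ l, hq (oN j l) ((tabN.r l : ℂ) / 2 ^ 16 / (z - c l)))‖ ≤ 1 / 2 ^ 29 := by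
  have hT : ∀ k, tabN.κ (pr8 k) = (-(tabN.κ k).1, -(tabN.κ k).2) := by decide
  obtain ⟨c, κ, h1, h2, h3⟩ := certN.main (roughN _)
    (fun k => by
      show gz 48 (tabN.κ (pr8 k)) = -gz 48 (tabN.κ k)
      rw [hT k, gz, gz]; push_cast; ring)
    chkN_s
    (fun l => by
      fin_cases l
      exacts [chkN_r0, chkN_r1, chkN_r2, chkN_r3, chkN_r4, chkN_r5, chkN_r6, chkN_r7])
    (fun l => by
      fin_cases l
      exacts [chkN_g0, chkN_g1, chkN_g2, chkN_g3, chkN_g4, chkN_g5, chkN_g6, chkN_g7])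
    chkN_e0 chkN_e2
  refine ⟨_, c, κ, h1, h2, fun j z hz => (h3 j z hz).trans_eq ?_⟩
  show ((633825300114114700748351602688 : ℕ) : ℝ) / 2 ^ 128 = _
  norm_num

end Pool.Agent.MP_c434f6_gt.H16

end

section

/-! The period problem has a solution near the table. -/

open Complex Set

namespace Pool.Agent.MP_c434f6_gt.H16

open H30

theorem exH : ∃ ℓ c κ, (tabH.dat ℓ c κ).Closed tau8 (range Tab.nk) ∧ tabH.Near (1 / 2 ^ 40) c κ ∧
    ∀ j z, (∀ l, (tabH.ρ l : ℝ) / 2 ^ 16 < ‖z - c l‖) → ‖(tabH.dat ℓ c κ).f (aa j) z -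
      (1 + ∑ l, hq (oH j l) ((tabH.r l : ℂ) / 2 ^ 16 / (z - c l)))‖ ≤ 1 / 2 ^ 29 := by
  have hT : ∀ k, tabH.κ (pr8 k) = (-(tabH.κ k).1, -(tabH.κ k).2) := by decide
  obtain ⟨c, κ, h1, h2, h3⟩ := certH.main (roughH _)
    (fun k => by
      show gz 48 (tabH.κ (pr8 k)) = -gz 48 (tabH.κ k)
      rw [hT k, gz, gz]; push_cast; ring)
    chkH_s
    (fun l => by
      fin_cases l
      exacts [chkH_r0, chkH_r1, chkH_r2, chkH_r3, chkH_r4, chkH_r5, chkH_r6, chkH_r7])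
    (fun l => by
      fin_cases l
      exacts [chkH_g0, chkH_g1, chkH_g2, chkH_g3, chkH_g4, chkH_g5, chkH_g6, chkH_g7])
    chkH_e0 chkH_e2
  refine ⟨_, c, κ, h1, h2, fun j z hz => (h3 j z hz).trans_eq ?_⟩
  show ((633825300114114700748351602688 : ℕ) : ℝ) / 2 ^ 128 = _
  norm_num

end Pool.Agent.MP_c434f6_gt.H16

end

section

/-! The two surfaces with their oracles. -/

open Complex

namespace Pool.Agent.MP_c434f6_gt.H16

open H30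

theorem surfN : ∃ S : Sch (Fin 8),
    W.Hyp S tabN oN (-(85 / 64) * I) ∧ OrcH S tabN oN (1 / 2 ^ 28) := by
  obtain ⟨ℓ, h⟩ := exN
  obtain ⟨S, A, O, h⟩ := tabN.surf h (n := 2 ^ 35) (by decide +kernel) (by decide +kernel)
    (z₀ := -(85 / 64) * I) (by simp [map_ofNat])
  exact ⟨S, ⟨A, O.mono (by norm_num), h.1, h.2.1, h.2.2⟩, O.mono (by norm_num)⟩

theorem surfH : ∃ S : Sch (Fin 8), W.Hyp S tabH oH 0 ∧ OrcH S tabH oH (1 / 2 ^ 23) := by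
  obtain ⟨ℓ, h⟩ := exH
  obtain ⟨S, A, O, h⟩ := tabH.surf h (n := 2 ^ 41 - 2 ^ 35) (by decide +kernel)
    (by decide +kernel) (z₀ := 0) (by simp)
  exact ⟨S, ⟨A, O.mono (by norm_num), h.1, h.2.1, h.2.2⟩, O.mono (by norm_num)⟩

theorem final_of_emb
    (embN : ∀ S : Sch (Fin 8), S.Ana → OrcH S tabN oN (1 / 2 ^ 28) → S.Emb (Sch.box 5 3.8))
    (embH : ∀ S : Sch (Fin 8), S.Ana → OrcH S tabH oH (1 / 2 ^ 23) → S.Emb (Sch.box 3.25 4.8)) :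
    ∃ M₁ M₂, OneEnded 4 M₁ ∧ OneEnded 4 M₂ ∧ ¬ Similar M₁ M₂ := by
  obtain ⟨S, H, O⟩ := surfN
  obtain ⟨S', H', O'⟩ := surfH
  exact W.final_num Tab.e8 Tab.pr8_e8 H H' (embN S H.A O) (embH S' H'.A O')

end Pool.Agent.MP_c434f6_gt.H16

end
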