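import Pool.Agent.MP_c434f6_gt.G4.Ana
import Pool.Agent.MP_c434f6_gt.G4.Geom
import Pool.Agent.MP_c434f6_gt.G4.Prim

section

/-! Analytic lemmas for the injectivity certificate. -/

open Complex Metric Set
open scoped ComplexConjugate

namespace Pool.Agent.MP_c434f6_gt.H30.Sch

variable {ι : Type} [Fintype ι] {S : Sch ι}

lemma Ana.rdh (A : S.Ana) {z : ℂ} (hz : z ∈ S.V) :
    RD S.h3 z fun v => (S.s1 z * S.s2 z * v).re :=
  ⟨_, (A.dh z hz).1.hasFDerivAt, (A.dh z hz).2⟩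

lemma Ana.rdZ (A : S.Ana) {z : ℂ} (hz : z ∈ S.V) :
    RD S.Z z fun v => (conj (S.s2 z ^ 2 * v) - S.s1 z ^ 2 * v) / 2 :=
  ⟨_, (A.dZ z hz).1.hasFDerivAt, (A.dZ z hz).2⟩

section seg

variable {F : Type} [NormedAddCommGroup F] [NormedSpace ℝ F] {f : ℂ → F} {Df : ℂ → ℂ → F}
  {D : Set ℂ} {z₀ z₁ : ℂ}

lemma seg_deriv {s : ℝ} {E : ℂ → F} (h : RD f (z₀ + s * (z₁ - z₀)) E) :
    HasDerivAt (fun s : ℝ => f (z₀ + s * (z₁ - z₀))) (E (z₁ - z₀)) s := by
  obtain ⟨L, h1, h2⟩ := h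
  have h3 : HasDerivAt (fun s : ℝ => z₀ + s * (z₁ - z₀)) (z₁ - z₀) s := by
    simpa using (((hasDerivAt_id (s : ℂ)).mul_const (z₁ - z₀)).const_add z₀).comp_ofReal
  rw [← h2]
  exact h1.comp_hasDerivAt s h3

lemma seg_mem (hD : Convex ℝ D) (h₀ : z₀ ∈ D) (h₁ : z₁ ∈ D) {s : ℝ} (hs : s ∈ Icc (0 : ℝ) 1) :
    z₀ + s * (z₁ - z₀) ∈ D := hD.add_smul_sub_mem h₀ h₁ hs

lemma seg_le (hD : Convex ℝ D) (h₀ : z₀ ∈ D) (h₁ : z₁ ∈ D) (h : ∀ z ∈ D, RD f z (Df z)) {C : ℝ}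
    (hC : ∀ z ∈ D, ‖Df z (z₁ - z₀)‖ ≤ C) : ‖f z₁ - f z₀‖ ≤ C := by
  have := norm_image_sub_le_of_norm_deriv_le_segment_01'
    (fun s hs => (seg_deriv (h _ (seg_mem hD h₀ h₁ hs))).hasDerivWithinAt)
    fun s hs => hC _ (seg_mem hD h₀ h₁ (Ico_subset_Icc_self hs))
  simpa using this

end seg

lemma rd_mul {f D : ℂ → ℂ} {z : ℂ} (a : ℂ) (h : RD f z D) :
    RD (fun y => a * f y) z fun v => a * D v := h.clm (ContinuousLinearMap.mul ℝ ℂ a)

lemma rd_conj {f D : ℂ → ℂ} {z : ℂ} (h : RD f z D) :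
    RD (fun y => conj (f y)) z fun v => conj (D v) := h.clm conjCLE.toContinuousLinearMap

lemma rd_re {f D : ℂ → ℂ} {z : ℂ} (h : RD f z D) :
    RD (fun y => (f y).re) z fun v => (D v).re := h.clm reCLM

lemma rd_ofReal {f D : ℂ → ℝ} {z : ℂ} (h : RD f z D) :
    RD (fun y => (f y : ℂ)) z fun v => (D v : ℂ) := h.clm ofRealCLM

lemma norm_half {x y v : ℂ} {p q : ℝ} (hx : ‖x‖ ≤ p) (hy : ‖y‖ ≤ q) :
    ‖(conj (y * v) - x * v) / 2‖ ≤ ‖v‖ * ((p + q) / 2) := by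
  rw [norm_div, Complex.norm_ofNat, ← mul_div_assoc]
  gcongr
  refine (norm_sub_le _ _).trans ?_
  rw [norm_conj, norm_mul, norm_mul]
  nlinarith [norm_nonneg v]

/-- Noshiro-Warschawski: the linear map `-2 α² Z + 4 α β h3 + 2 β² conj Z` has the derivative
`v ↦ u² v - conj (w² v)` with `u = α s1 + β s2`, `w = conj α s2 - conj β s1`. -/
theorem Ana.nw (A : S.Ana) {D : Set ℂ} (hD : Convex ℝ D) (hV : D ⊆ S.V) (α β : ℂ) {σ d₁ d₂ : ℝ}
    (h1 : ∀ z ∈ D, ‖α * S.s1 z + β * S.s2 z - σ‖ ≤ d₁)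
    (h2 : ∀ z ∈ D, ‖conj α * S.s2 z - conj β * S.s1 z‖ ≤ d₂)
    (h3 : d₁ + d₂ < σ) (h4 : 2 * d₁ ≤ σ) :
    InjOn S.X D ∧ ∀ z ∈ D, S.s1 z ≠ 0 ∨ S.s2 z ≠ 0 := by
  refine ⟨fun z₀ h₀ z₁ h₁ hX => by_contra fun hne => ?_, fun z hz => ?_⟩
  · have e0 : (S.Z z₀).re = (S.Z z₁).re := congr($hX 0)
    have e1 : (S.Z z₀).im = (S.Z z₁).im := congr($hX 1)
    have e2 : S.h3 z₀ = S.h3 z₁ := congr($hX 2)
    have e3 : S.Z z₀ = S.Z z₁ := Complex.ext e0 e1
    have hv : 0 < normSq (z₁ - z₀) := normSq_pos.2 (sub_ne_zero.2 (Ne.symm hne))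
    have rd : ∀ z ∈ D, RD (fun y => (conj (z₁ - z₀) * (-2 * α ^ 2 * S.Z y + 4 * α * β * S.h3 y +
        2 * β ^ 2 * conj (S.Z y))).re) z fun v => (conj (z₁ - z₀) *
          ((α * S.s1 z + β * S.s2 z) ^ 2 * v -
            conj ((conj α * S.s2 z - conj β * S.s1 z) ^ 2 * v))).re := fun z hz =>
      (rd_re (rd_mul _ (((rd_mul _ (A.rdZ (hV hz))).add (rd_mul _ (rd_ofReal (A.rdh (hV hz))))).add
        (rd_mul _ (rd_conj (A.rdZ (hV hz))))))).congr fun v => by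
        congr 2
        simp only [re_eq_add_conj, map_div₀, map_sub, map_mul, map_pow, conj_conj, map_ofNat]
        ring
    obtain ⟨s, hs, h5⟩ := exists_hasDerivAt_eq_slope _ _ zero_lt_one
      (fun s hs => (seg_deriv (rd _ (seg_mem hD h₀ h₁ hs))).continuousAt.continuousWithinAt)
      fun s hs => seg_deriv (rd _ (seg_mem hD h₀ h₁ (Ioo_subset_Icc_self hs)))
    have hm := seg_mem hD h₀ h₁ (Ioo_subset_Icc_self hs)
    have b1 := h1 _ hm
    have b2 := h2 _ hm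
    simp only [ofReal_one, one_mul, add_sub_cancel, ofReal_zero, zero_mul, add_zero, e2, e3,
      sub_self, zero_div] at h5
    generalize α * S.s1 (z₀ + s * (z₁ - z₀)) + β * S.s2 (z₀ + s * (z₁ - z₀)) = u at b1 h5
    generalize conj α * S.s2 (z₀ + s * (z₁ - z₀)) - conj β * S.s1 (z₀ + s * (z₁ - z₀)) = w at b2 h5
    generalize z₁ - z₀ = v at hv h5
    have d1 := (norm_nonneg _).trans b1
    have d2 := (norm_nonneg _).trans b2
    have k1 : (σ - d₁) ^ 2 ≤ (u ^ 2).re := by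
      have k2 : (u.re - σ) ^ 2 + u.im ^ 2 ≤ d₁ ^ 2 := by
        have := pow_le_pow_left₀ (norm_nonneg _) b1 2
        rw [Complex.sq_norm, normSq_apply] at this
        simpa [sq] using this
      have k3 : -d₁ ≤ u.re - σ := by
        have := (abs_le.1 ((abs_re_le_norm _).trans b1)).1
        simpa using this
      have k4 : (u ^ 2).re = u.re ^ 2 - u.im ^ 2 := by simp [sq]
      nlinarith [mul_nonneg (by linarith : 0 ≤ u.re - σ + d₁) (by linarith : 0 ≤ u.re - d₁)]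
    have k5 : (conj v * conj (w ^ 2 * v)).re ≤ d₂ ^ 2 * normSq v := by
      refine (re_le_norm _).trans ?_
      rw [norm_mul, norm_conj, norm_conj, norm_mul, norm_pow, ← Complex.sq_norm]
      have := pow_le_pow_left₀ (norm_nonneg _) b2 2
      nlinarith [sq_nonneg ‖v‖]
    have k6 : (conj v * (u ^ 2 * v)).re = (u ^ 2).re * normSq v := by
      rw [mul_left_comm, ← normSq_eq_conj_mul_self, re_mul_ofReal]
    rw [mul_sub, sub_re, k6] at h5
    have k7 : d₂ ^ 2 < (σ - d₁) ^ 2 := by nlinarith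
    nlinarith
  · by_contra h
    push Not at h
    have b1 := h1 z hz
    have b2 := (norm_nonneg _).trans (h2 z hz)
    simp only [h.1, h.2, mul_zero, add_zero, zero_sub, norm_neg, norm_real] at b1
    linarith [le_abs_self σ, Real.norm_eq_abs σ]

/-- Increments from models of `s1², s2², s1 s2` on a disc, in the variable `w = (z - a) / h`. -/
theorem Ana.incr (A : S.Ana) {a : ℂ} {h ρ eA eB eC : ℝ} (hh : 0 < h)
    (hV : closedBall a (h * ρ) ⊆ S.V) {pA pB pC PA PB PC : ℂ → ℂ}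
    (dA : ∀ w, HasDerivAt PA (pA w) w) (dB : ∀ w, HasDerivAt PB (pB w) w)
    (dC : ∀ w, HasDerivAt PC (pC w) w) (zA : PA 0 = 0) (zB : PB 0 = 0) (zC : PC 0 = 0)
    (bA : ∀ w, ‖w‖ ≤ ρ → ‖S.s1 (a + h * w) * S.s1 (a + h * w) - pA w‖ ≤ eA)
    (bB : ∀ w, ‖w‖ ≤ ρ → ‖S.s2 (a + h * w) * S.s2 (a + h * w) - pB w‖ ≤ eB)
    (bC : ∀ w, ‖w‖ ≤ ρ → ‖S.s1 (a + h * w) * S.s2 (a + h * w) - pC w‖ ≤ eC)
    {w : ℂ} (hw : ‖w‖ ≤ ρ) :
    ‖S.Z (a + h * w) - S.Z a - h * (conj (PB w) - PA w) / 2‖ ≤ h * ρ * ((eA + eB) / 2) ∧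
      |S.h3 (a + h * w) - S.h3 a - h * (PC w).re| ≤ h * ρ * eC := by
  have hm : ∀ y ∈ closedBall (0 : ℂ) ρ, a + h * y ∈ S.V := fun y hy => hV <| by
    rw [mem_closedBall, dist_eq_norm, add_sub_cancel_left, norm_mul, norm_real,
      Real.norm_of_nonneg hh.le]
    exact mul_le_mul_of_nonneg_left (mem_closedBall_zero_iff.1 hy) hh.le
  have hd : ∀ y : ℂ, HasDerivAt (fun y : ℂ => a + h * y) h y := fun y => by
    simpa using ((hasDerivAt_id y).const_mul (h : ℂ)).const_add a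
  have h0 : (0 : ℂ) ∈ closedBall (0 : ℂ) ρ := mem_closedBall_self ((norm_nonneg _).trans hw)
  have h1 : w ∈ closedBall (0 : ℂ) ρ := mem_closedBall_zero_iff.2 hw
  have hn : ‖(h : ℂ) * (w - 0)‖ ≤ h * ρ := by
    rw [sub_zero, norm_mul, norm_real, Real.norm_of_nonneg hh.le]; gcongr
  constructor
  · have := seg_le (f := fun y => S.Z (a + h * y) - h / 2 * (conj (PB y) - PA y))
      (Df := fun y v => (conj ((S.s2 (a + h * y) * S.s2 (a + h * y) - pB y) * (h * v)) -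
        (S.s1 (a + h * y) * S.s1 (a + h * y) - pA y) * (h * v)) / 2) (convex_closedBall _ _) h0 h1
      (fun y hy => ((RD.comp (u := fun y => a + h * y) (A.rdZ (hm y hy)) (hd y)).sub (rd_mul _ ((rd_conj (RD.of_deriv (dB y))).sub
        (RD.of_deriv (dA y))))).congr fun v => by
          simp only [map_mul, map_sub, map_pow, conj_ofReal]; ring)
      (C := h * ρ * ((eA + eB) / 2)) fun y hy => by
        have b1 := bA y (mem_closedBall_zero_iff.1 hy)
        have b2 := bB y (mem_closedBall_zero_iff.1 hy)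
        refine (norm_half b1 b2).trans (mul_le_mul_of_nonneg_right hn ?_)
        linarith [norm_nonneg _ |>.trans b1, norm_nonneg _ |>.trans b2]
    simp only [mul_zero, add_zero, zA, zB, map_zero, sub_self, sub_zero] at this
    exact le_of_eq_of_le (congrArg _ (by ring)) this
  · have := seg_le (f := fun y => S.h3 (a + h * y) - (h * PC y).re)
      (Df := fun y v => ((S.s1 (a + h * y) * S.s2 (a + h * y) - pC y) * (h * v)).re)
      (convex_closedBall _ _) h0 h1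
      (fun y hy => ((RD.comp (u := fun y => a + h * y) (A.rdh (hm y hy)) (hd y)).sub (rd_re (rd_mul _ (RD.of_deriv (dC y))))).congr
        fun v => by rw [← sub_re]; congr 1; ring)
      (C := h * ρ * eC) fun y hy => by
        have b1 := bC y (mem_closedBall_zero_iff.1 hy)
        refine (abs_re_le_norm _).trans ?_
        rw [norm_mul, mul_comm]
        exact mul_le_mul hn b1 (norm_nonneg _) ((norm_nonneg _).trans hn)
    simp only [mul_zero, add_zero, zC, zero_re, sub_zero, re_ofReal_mul] at this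
    exact le_of_eq_of_le (congrArg _ (by ring)) this

/-- Variation on a square of half side `s` from constant models on a convex set. -/
theorem Ana.vary (A : S.Ana) {D : Set ℂ} (hD : Convex ℝ D) (hV : D ⊆ S.V) {a b c : ℂ}
    {dA dB dC s : ℝ}
    (bA : ∀ z ∈ D, ‖S.s1 z * S.s1 z - a‖ ≤ dA) (bB : ∀ z ∈ D, ‖S.s2 z * S.s2 z - b‖ ≤ dB)
    (bC : ∀ z ∈ D, ‖S.s1 z * S.s2 z - c‖ ≤ dC) {z z₀ : ℂ} (hz : z ∈ D) (hz₀ : z₀ ∈ D)
    (hre : |z.re - z₀.re| ≤ s) (him : |z.im - z₀.im| ≤ s) :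
    |(S.Z z).re - (S.Z z₀).re| ≤ s * ((|b.re - a.re| + |b.im - a.im|) / 2 + 23 / 32 * (dA + dB)) ∧
    |(S.Z z).im - (S.Z z₀).im| ≤ s * ((|b.re + a.re| + |b.im + a.im|) / 2 + 23 / 32 * (dA + dB)) ∧
    |S.h3 z - S.h3 z₀| ≤ s * (|c.re| + |c.im| + 23 / 16 * dC) := by
  have hs : 0 ≤ s := (abs_nonneg _).trans hre
  have hn : ‖z - z₀‖ ≤ 23 / 16 * s := by
    refine abs_le_of_sq_le_sq' ?_ (by positivity) |>.2
    rw [Complex.sq_norm, normSq_apply, sub_re, sub_im]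
    nlinarith [sq_abs (z.re - z₀.re), sq_abs (z.im - z₀.im), abs_nonneg (z.re - z₀.re),
      abs_nonneg (z.im - z₀.im)]
  have id' : ∀ y : ℂ, RD (fun y : ℂ => y) y fun v => 1 * v := fun y =>
    RD.of_deriv (hasDerivAt_id' y)
  have lin : ∀ p q : ℝ, |p * (z.re - z₀.re) + q * (z.im - z₀.im)| ≤ s * (|p| + |q|) := fun p q => by
    refine (abs_add_le _ _).trans ?_
    rw [abs_mul, abs_mul]
    nlinarith [abs_nonneg p, abs_nonneg q]
  have k1 := seg_le (f := fun y => S.Z y - 1 / 2 * (conj (b * y) - a * y))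
    (Df := fun y v => (conj ((S.s2 y * S.s2 y - b) * v) - (S.s1 y * S.s1 y - a) * v) / 2) hD hz₀ hz
    (fun y hy => ((A.rdZ (hV hy)).sub (rd_mul _ ((rd_conj (rd_mul b (id' y))).sub
      (rd_mul a (id' y))))).congr fun v => by
        simp only [map_mul, map_sub, map_pow, one_mul]; ring)
    (C := 23 / 16 * s * ((dA + dB) / 2)) fun y hy => by
      refine (norm_half (bA y hy) (bB y hy)).trans (mul_le_mul_of_nonneg_right hn ?_)
      linarith [norm_nonneg _ |>.trans (bA y hy), norm_nonneg _ |>.trans (bB y hy)]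
  have k2 := seg_le (f := fun y => S.h3 y - (c * y).re)
    (Df := fun y v => ((S.s1 y * S.s2 y - c) * v).re) hD hz₀ hz
    (fun y hy => ((A.rdh (hV hy)).sub (rd_re (rd_mul c (id' y)))).congr
      fun v => by rw [← sub_re]; congr 1; ring)
    (C := 23 / 16 * s * dC) fun y hy => by
      refine (abs_re_le_norm _).trans ?_
      rw [norm_mul, mul_comm]
      exact mul_le_mul hn (bC y hy) (norm_nonneg _) (by positivity)
  have r1 := abs_le.1 ((abs_re_le_norm _).trans k1)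
  have r2 := abs_le.1 ((abs_im_le_norm _).trans k1)
  have r3 := abs_le.1 k2
  have l1 := abs_le.1 (lin (b.re - a.re) (-(b.im - a.im)))
  have l2 := abs_le.1 (lin (b.im + a.im) (b.re + a.re))
  have l3 := abs_le.1 (lin c.re (-c.im))
  rw [abs_neg] at l1 l3
  simp only [one_div, sub_re, sub_im, mul_re, mul_im, conj_re, conj_im, inv_re, inv_im, re_ofNat,
    im_ofNat, normSq_ofNat] at r1 r2 r3
  refine ⟨abs_le.2 ⟨?_, ?_⟩, abs_le.2 ⟨?_, ?_⟩, abs_le.2 ⟨?_, ?_⟩⟩ <;>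
    linarith [r1.1, r1.2, r2.1, r2.2, r3.1, r3.2, l1.1, l1.2, l2.1, l2.2, l3.1, l3.2]

/-- The relation of `Emb` is symmetric on `F`. -/
theorem Ana.rel_symm (A : S.Ana) {z w : ℂ} (hz : z ∈ S.F) (h : w = z ∨ ∃ k, w = S.γ k z) :
    z = w ∨ ∃ k, z = S.γ k w := by
  rcases h with rfl | ⟨k, rfl⟩
  exacts [.inl rfl, .inr ⟨_, (A.γγ k z).symm⟩]

/-- The image of a small disc under `γ k` lies in the disc about `m` of radius `R`; `c, c', K`
approximate the two centres and `κ k ^ 2` within `η`. -/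
theorem Ana.gamma_mem (A : S.Ana) {k : ι} {c c' K a m z : ℂ} {η r R n e t : ℝ}
    (hc : ‖S.c k - c‖ ≤ η) (hc' : ‖S.c (S.pr k) - c'‖ ≤ η) (hK : ‖S.κ k ^ 2 - K‖ ≤ η)
    (hz : z ∈ S.F) (ha : ‖z - a‖ ≤ r) (hn : ‖(c' - m) * (a - c) - K‖ ≤ n) (he : ‖c' - m‖ ≤ e)
    (ht : t ≤ ‖a - c‖) (hR : η ≤ R)
    (h : n + e * (r + η) + η + (R - η) * (r + η) ≤ (R - η) * t) :
    S.γ k z ∈ closedBall m R := by
  have h0 : z - S.c k ≠ 0 := sub_ne_zero.2 (A.ne_c hz k)
  have h1 : ‖(z - S.c k) - (a - c)‖ ≤ r + η := by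
    rw [show z - S.c k - (a - c) = (z - a) - (S.c k - c) by ring]
    exact (norm_sub_le _ _).trans (add_le_add ha hc)
  have h2 : t - (r + η) ≤ ‖z - S.c k‖ := by
    have := norm_sub_norm_le (a - c) (z - S.c k)
    rw [norm_sub_rev] at h1
    linarith
  have h3 : ‖(c' - m) * (z - S.c k) - S.κ k ^ 2‖ ≤ n + e * (r + η) + η := by
    rw [show (c' - m) * (z - S.c k) - S.κ k ^ 2 = ((c' - m) * (a - c) - K) +
      (c' - m) * ((z - S.c k) - (a - c)) - (S.κ k ^ 2 - K) by ring]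
    refine (norm_sub_le _ _).trans (add_le_add ((norm_add_le _ _).trans (add_le_add hn ?_)) hK)
    rw [norm_mul]
    exact mul_le_mul he h1 (norm_nonneg _) ((norm_nonneg _).trans he)
  have e1 : S.γ k z - m = (S.c (S.pr k) - c') + ((c' - m) * (z - S.c k) - S.κ k ^ 2) / (z - S.c k) := by
    rw [γ]; field_simp; ring
  rw [mem_closedBall, dist_eq_norm, e1]
  have h4 : ‖((c' - m) * (z - S.c k) - S.κ k ^ 2) / (z - S.c k)‖ ≤ R - η := by
    rw [norm_div, div_le_iff₀ (norm_pos_iff.2 h0)]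
    nlinarith [mul_le_mul_of_nonneg_left h2 (sub_nonneg.2 hR)]
  linarith [norm_add_le_of_le hc' h4]

end Pool.Agent.MP_c434f6_gt.H30.Sch

end

section

/-! The quadtree of cells and the check of pairs of cells.  The definitions use recursors and
`Nat.add`, `Nat.mul`, … directly, for the speed of the kernel. -/

open Complex Metric Set

namespace Pool.Agent.MP_c434f6_gt.H30.Emb

/-- `|a - b|`. -/
def dst (a b : ℕ) : ℕ := Nat.add (Nat.sub a b) (Nat.sub b a)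

/-- One step of Heron's method, rounded up. -/
def her (N u : ℕ) : ℕ := Nat.succ (Nat.shiftRight (Nat.add u (Nat.div N u)) 1)

/-- `a² + b²`. -/
def ssq (a b : ℕ) : ℕ := Nat.add (Nat.mul a a) (Nat.mul b b)

/-- An upper bound of `√N`, from a first guess `u`. -/
def sqU (N u : ℕ) : ℕ := her N (her N u)

/-- A lower bound of `√N`. -/
def sqL (N u : ℕ) : ℕ := Nat.div N (sqU N u)

theorem dst_cast (a b : ℕ) : (dst a b : ℝ) = |(a : ℝ) - b| := by
  change ((a - b + (b - a) : ℕ) : ℝ) = _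
  rcases le_total a b with h | h
  · rw [Nat.sub_eq_zero_of_le h, zero_add, Nat.cast_sub h, abs_sub_comm,
      abs_of_nonneg (sub_nonneg.2 (Nat.cast_le.2 h))]
  · rw [Nat.sub_eq_zero_of_le h, add_zero, Nat.cast_sub h,
      abs_of_nonneg (sub_nonneg.2 (Nat.cast_le.2 h))]

lemma her_eq (N u : ℕ) : her N u = (u + N / u) / 2 + 1 := by
  change (u + N / u) >>> 1 + 1 = _
  rw [Nat.shiftRight_eq_div_pow, pow_one]

theorem le_sqU (N u : ℕ) : N ≤ sqU N u * sqU N u := by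
  have h0 : 0 < her N u := Nat.succ_pos _
  rw [sqU]
  generalize her N u = v at h0
  have h1 : N < v * (N / v + 1) := Nat.lt_mul_div_succ N h0
  have h2 : v + N / v + 1 ≤ 2 * her N v := by rw [her_eq]; omega
  generalize her N v = h at h2
  generalize N / v = p at h1 h2
  have h3 : (v + p + 1) * (v + p + 1) ≤ (2 * h) * (2 * h) := Nat.mul_le_mul h2 h2
  zify at h1 h3 ⊢
  nlinarith [sq_nonneg ((v : ℤ) - p - 1)]

theorem sqL_le (N u : ℕ) : sqL N u * sqL N u ≤ N := by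
  have h1 := le_sqU N u
  change N / sqU N u * (N / sqU N u) ≤ N
  generalize sqU N u = U at h1
  exact (Nat.mul_le_mul_left _ (Nat.div_le_of_le_mul h1)).trans (Nat.div_mul_le_self N U)

noncomputable def and4 (a b c d : Bool) : Bool :=
  Bool.rec false (Bool.rec false (Bool.rec false d c) b) a

/-- Bits `s, …, s + n - 1`, for `m = 2 ^ n`. -/
def bits (x s m : ℕ) : ℕ := Nat.mod (Nat.shiftRight x s) m

/-- The point with coordinates in units `2⁻²⁴`, shifted by `8`. -/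
noncomputable def pt (x y : ℕ) : ℂ := ⟨x / 2 ^ 24 - 8, y / 2 ^ 24 - 8⟩

/-- The closed square of half side `s`. -/
def sq (x y s : ℕ) : Set ℂ :=
  {z | |z.re - (pt x y).re| ≤ s / 2 ^ 24 ∧ |z.im - (pt x y).im| ≤ s / 2 ^ 24}

/-- A value in units `2⁻²⁰`, shifted by `128`. -/
noncomputable def vl (n : ℕ) : ℝ := n / 2 ^ 20 - 128

/-- A disc: centre and centre of the partner in units `2⁻⁴⁸` shifted by `8`; the parts of `κ²` in
units `2⁻⁹⁶` shifted by `1`; a radius `ri` in units `2⁻⁴⁸` of a disc that misses `F`. -/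
structure Dk where
  cx : ℕ
  cy : ℕ
  ex : ℕ
  ey : ℕ
  kr : ℕ
  ki : ℕ
  ri : ℕ

noncomputable def pt48 (x y : ℕ) : ℂ := ⟨x / 2 ^ 48 - 8, y / 2 ^ 48 - 8⟩

def Dk.OK (S : Sch (Fin 8)) (d : Dk) : Prop :=
  ∃ k, ‖S.c k - pt48 d.cx d.cy‖ ≤ 1 / 2 ^ 40 ∧ ‖S.c (S.pr k) - pt48 d.ex d.ey‖ ≤ 1 / 2 ^ 40 ∧
    ‖S.κ k ^ 2 - ⟨d.kr / 2 ^ 96 - 1, d.ki / 2 ^ 96 - 1⟩‖ ≤ 1 / 2 ^ 40 ∧
    (d.ri : ℝ) / 2 ^ 48 + 1 / 2 ^ 40 ≤ ‖S.κ k‖

/-- Square, box of values, patch (`pr = 0`: none) and a disc. -/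
structure G where
  x : ℕ
  y : ℕ
  s : ℕ
  l0 : ℕ
  u0 : ℕ
  l1 : ℕ
  u1 : ℕ
  l2 : ℕ
  u2 : ℕ
  px : ℕ
  py : ℕ
  pr : ℕ
  d : Dk

inductive BT where
  | emp : BT
  | leaf (g : G) : BT
  | node (g : G) (a b c d : BT) : BT

/-- The boxes are disjoint, or `k`. -/
noncomputable def sep (a b : G) (k : Bool) : Bool :=
  Bool.rec true (Bool.rec true (Bool.rec true (Bool.rec true (Bool.rec true (Bool.rec true k
    (Nat.ble a.l1 b.u1)) (Nat.ble b.l1 a.u1)) (Nat.ble a.l0 b.u0)) (Nat.ble b.l0 a.u0))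
    (Nat.ble a.l2 b.u2)) (Nat.ble b.l2 a.u2)

/-- The square `x y s` lies in the open disc `px py r`, or `k`. -/
noncomputable def inD (x y s px py r : ℕ) (k : Bool) : Bool :=
  Bool.rec true k (Nat.ble (Nat.mul r r) (ssq (Nat.add (dst x px) s) (Nat.add (dst y py) s)))

noncomputable def tst (a b : G) (k : Bool) : Bool :=
  sep a b (inD b.x b.y b.s a.px a.py a.pr (inD a.x a.y a.s b.px b.py b.pr k))

/-- The inequality of `Ana.gamma_mem` in units `2⁻⁹⁶`; `r` stands for `r + η`, `R` for `R - η`. -/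
noncomputable def glue2 (d : Dk) (ax ay mx my r R e1 e2 d1 d2 : ℕ) (k : Bool) : Bool :=
  (fun t => Bool.rec true k (Nat.ble (Nat.mul t t) (ssq
    (dst (Nat.add (Nat.add (Nat.add (Nat.mul d.ex ax) (Nat.mul mx d.cx))
        (Nat.add (Nat.mul d.ey d.cy) (Nat.mul my ay))) 79228162514264337593543950336)
      (Nat.add (Nat.add (Nat.add (Nat.mul d.ex d.cx) (Nat.mul mx ax))
        (Nat.add (Nat.mul d.ey ay) (Nat.mul my d.cy))) d.kr))
    (dst (Nat.add (Nat.add (Nat.add (Nat.mul d.ex ay) (Nat.mul mx d.cy))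
        (Nat.add (Nat.mul d.ey ax) (Nat.mul my d.cx))) 79228162514264337593543950336)
      (Nat.add (Nat.add (Nat.add (Nat.mul d.ex d.cy) (Nat.mul mx ay))
        (Nat.add (Nat.mul d.ey d.cx) (Nat.mul my ax))) d.ki)))))
  (Nat.sub (Nat.mul R (sqL (ssq d1 d2) (Nat.add d1 d2)))
    (Nat.add (Nat.mul (Nat.add (sqU (ssq e1 e2) (Nat.add e1 e2)) R) r) 72057594037927936))

noncomputable def glue1 (d : Dk) (ax ay mx my r R : ℕ) (k : Bool) : Bool :=
  glue2 d ax ay mx my r R (dst d.ex mx) (dst d.ey my) (dst ax d.cx) (dst ay d.cy) k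

/-- The image of the square of `a` under `γ` lies in the patch of `b`, or `k`. -/
noncomputable def glue (a b : G) (k : Bool) : Bool :=
  glue1 a.d (Nat.mul a.x 16777216) (Nat.mul a.y 16777216) (Nat.mul b.px 16777216)
    (Nat.mul b.py 16777216) (Nat.add (Nat.mul a.s 24117248) 256)
    (Nat.sub (Nat.mul b.pr 16777216) 256) k

noncomputable def pair (f : ℕ) : BT → BT → Bool :=
  Nat.rec (fun _ _ => false) (fun _ ih a b =>
    BT.rec true
      (fun ga => BT.rec true (fun gb => tst ga gb (glue ga gb (glue gb ga false)))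
        (fun gb b0 b1 b2 b3 _ _ _ _ => tst ga gb (and4 (ih a b0) (ih a b1) (ih a b2) (ih a b3))) b)
      (fun ga a0 a1 a2 a3 _ _ _ _ => BT.rec true
        (fun gb => tst ga gb (and4 (ih a0 b) (ih a1 b) (ih a2 b) (ih a3 b)))
        (fun gb b0 b1 b2 b3 _ _ _ _ => tst ga gb
          (Bool.rec (and4 (ih a b0) (ih a b1) (ih a b2) (ih a b3))
            (and4 (ih a0 b) (ih a1 b) (ih a2 b) (ih a3 b)) (Nat.ble gb.s ga.s))) b) a) f

noncomputable def self (t : BT) : Bool :=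
  BT.rec true (fun _ => true) (fun g a b c d ia ib ic id =>
    Bool.rec true (and4 (and4 ia ib ic id) (and4 (pair 64 a b) (pair 64 a c) (pair 64 a d) true)
      (and4 (pair 64 b c) (pair 64 b d) (pair 64 c d) true) true) (Nat.ble g.pr 0)) t

def mn (a b : ℕ) : ℕ := Nat.sub a (Nat.sub a b)

def mx (a b : ℕ) : ℕ := Nat.add a (Nat.sub b a)

noncomputable def geo (d : Dk) (t : BT) : G :=
  BT.rec ⟨0, 0, 0, 1099511627776, 0, 1099511627776, 0, 1099511627776, 0, 0, 0, 0, d⟩ (fun g => g)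
    (fun g _ _ _ _ _ _ _ _ => g) t

def hull (x y s px py pr : ℕ) (d : Dk) (p q r t : G) : G :=
  ⟨x, y, s, mn (mn p.l0 q.l0) (mn r.l0 t.l0), mx (mx p.u0 q.u0) (mx r.u0 t.u0),
    mn (mn p.l1 q.l1) (mn r.l1 t.l1), mx (mx p.u1 q.u1) (mx r.u1 t.u1),
    mn (mn p.l2 q.l2) (mn r.l2 t.l2), mx (mx p.u2 q.u2) (mx r.u2 t.u2), px, py, pr, d⟩

noncomputable def mkNode (x y s px py pr : ℕ) (d : Dk) (a b c e : BT) : BT :=
  BT.node (hull x y s px py pr d (geo d a) (geo d b) (geo d c) (geo d e)) a b c e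

def mkLeaf (x y s px py pr : ℕ) (d : Dk) (r0 r1 r2 c0 c1 c2 : ℕ) : BT :=
  BT.leaf ⟨x, y, s, Nat.sub c0 r0, Nat.add c0 r0, Nat.sub c1 r1, Nat.add c1 r1, Nat.sub c2 r2,
    Nat.add c2 r2, px, py, pr, d⟩

/-- The square lies in the disc `d`, or `k`. -/
noncomputable def inK (d : Dk) (x y s : ℕ) (k : Bool) : Bool :=
  inD (Nat.mul x 16777216) (Nat.mul y 16777216) (Nat.mul s 16777216) d.cx d.cy d.ri k

/-- The number of bits taken by the leaves of a cell of depth `n`: `84 * 4 ^ n`. -/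
def wid (n : ℕ) : ℕ := Nat.shiftLeft 84 (Nat.mul 2 n)

/-- The subdivision of depth `n` of a cell; `v` holds the values at the centres of the leaves. -/
noncomputable def sub (px py pr : ℕ) (d : Dk) (r0 r1 r2 n : ℕ) : ℕ → ℕ → ℕ → ℕ → BT :=
  Nat.rec (fun x y s v => Bool.rec
      (mkLeaf x y s px py pr d r0 r1 r2 (bits v 0 268435456) (bits v 28 268435456)
        (bits v 56 268435456)) BT.emp (inK d x y s false))
    (fun n ih x y s v => (fun t w => mkNode x y s px py pr d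
      (ih (Nat.sub x t) (Nat.sub y t) t v)
      (ih (Nat.add x t) (Nat.sub y t) t (Nat.shiftRight v w))
      (ih (Nat.sub x t) (Nat.add y t) t (Nat.shiftRight v (Nat.mul 2 w)))
      (ih (Nat.add x t) (Nat.add y t) t (Nat.shiftRight v (Nat.mul 3 w))))
      (Nat.shiftRight s 1) (wid n)) n

/-- The fields of a cell `m`: centre, level (side `2 ^ (-j)`), depth, disc, radii, values. -/
def mX (m : ℕ) : ℕ := bits m 0 268435456
def mY (m : ℕ) : ℕ := bits m 28 268435456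
def mJ (m : ℕ) : ℕ := bits m 56 16
def mN (m : ℕ) : ℕ := bits m 60 4
def mK (m : ℕ) : ℕ := bits m 62 8
def mR0 (m : ℕ) : ℕ := bits m 65 268435456
def mR1 (m : ℕ) : ℕ := bits m 93 268435456
def mR2 (m : ℕ) : ℕ := bits m 121 268435456
def mV (m : ℕ) : ℕ := Nat.shiftRight m 149
/-- Half the side, `2 ^ (23 - j)`. -/
def mS (m : ℕ) : ℕ := Nat.shiftRight 8388608 (mJ m)
/-- The radius of the patch, `23 / 16` of the side. -/
def mP (m : ℕ) : ℕ := Nat.shiftRight 24117248 (mJ m)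

noncomputable def nth (d0 : Dk) (l : List Dk) : ℕ → Dk :=
  List.rec (fun _ => d0) (fun d _ ih n => Nat.rec d (fun n _ => ih n) n) l

noncomputable def mkMac (d0 : Dk) (ds : List Dk) (m : ℕ) : BT :=
  sub (mX m) (mY m) (mP m) (nth d0 ds (mK m)) (mR0 m) (mR1 m) (mR2 m) (mN m) (mX m) (mY m) (mS m)
    (mV m)

/-- What is known about the leaves of a cell. -/
def SubOK (S : Sch (Fin 8)) (r0 r1 r2 : ℕ) : ℕ → ℕ → ℕ → ℕ → ℕ → Prop
  | 0, x, y, s, v => ∀ z ∈ sq x y s,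
      |(S.Z z - S.Z 0).re - vl (bits v 0 268435456)| ≤ r0 / 2 ^ 20 ∧
      |(S.Z z - S.Z 0).im - vl (bits v 28 268435456)| ≤ r1 / 2 ^ 20 ∧
      |S.h3 z - S.h3 0 - vl (bits v 56 268435456)| ≤ r2 / 2 ^ 20
  | n + 1, x, y, s, v =>
      SubOK S r0 r1 r2 n (x - s / 2) (y - s / 2) (s / 2) v ∧
      SubOK S r0 r1 r2 n (x + s / 2) (y - s / 2) (s / 2) (v >>> wid n) ∧
      SubOK S r0 r1 r2 n (x - s / 2) (y + s / 2) (s / 2) (v >>> (2 * wid n)) ∧
      SubOK S r0 r1 r2 n (x + s / 2) (y + s / 2) (s / 2) (v >>> (3 * wid n))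

/-- What is known about a cell. -/
structure MacOK (S : Sch (Fin 8)) (T : Tab) (m : ℕ) : Prop where
  inV : closedBall (pt (mX m) (mY m)) ((mP m : ℝ) / 2 ^ 24) ⊆ T.Vh
  inj : InjOn S.X (closedBall (pt (mX m) (mY m)) ((mP m : ℝ) / 2 ^ 24))
  imm : ∀ z ∈ closedBall (pt (mX m) (mY m)) ((mP m : ℝ) / 2 ^ 24), S.s1 z ≠ 0 ∨ S.s2 z ≠ 0
  val : SubOK S (mR0 m) (mR1 m) (mR2 m) (mN m) (mX m) (mY m) (mS m) (mV m)

/-- The skeleton of the tree. -/
inductive SK where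
  | emp : SK
  | mac (m : ℕ) : SK
  | node (a b c d : SK) : SK

noncomputable def ins4 (ih : ℕ → SK → (SK → Bool) → Bool) (x y i : ℕ) (a b c d : SK)
    (k : SK → Bool) : Bool :=
  Bool.rec
    (Bool.rec (ih (Nat.pred i) d fun t => k (SK.node a b c t))
      (ih (Nat.pred i) c fun t => k (SK.node a b t d)) (Nat.ble (bits x i 2) 0))
    (Bool.rec (ih (Nat.pred i) b fun t => k (SK.node a t c d))
      (ih (Nat.pred i) a fun t => k (SK.node t b c d)) (Nat.ble (bits x i 2) 0))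
    (Nat.ble (bits y i 2) 0)

/-- Insert `m` at depth `n` and go on with `k`; `i` is the bit that chooses the child. -/
noncomputable def ins (m x y n : ℕ) : ℕ → SK → (SK → Bool) → Bool :=
  Nat.rec (fun _ _ k => k (SK.mac m)) (fun _ ih i t k =>
    SK.rec (ins4 ih x y i SK.emp SK.emp SK.emp SK.emp k)
      (fun _ => ins4 ih x y i SK.emp SK.emp SK.emp SK.emp k)
      (fun a b c d _ _ _ _ => ins4 ih x y i a b c d k) t) n

noncomputable def ins1 (m : ℕ) (t : SK) (k : SK → Bool) : Bool :=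
  ins m (mX m) (mY m) (Nat.add (mJ m) 4) 27 t k

noncomputable def insL (l : List ℕ) (k : SK → Bool) : SK → Bool :=
  List.rec k (fun m _ ih t => ins1 m t ih) l

noncomputable def insLL (l : List (List ℕ)) (k : SK → Bool) : SK → Bool :=
  List.rec k (fun m _ ih t => insL m ih t) l

noncomputable def fin (d0 : Dk) (ds : List Dk) (t : SK) : ℕ → ℕ → ℕ → BT :=
  SK.rec (fun _ _ _ => BT.emp) (fun m _ _ _ => mkMac d0 ds m)
    (fun _ _ _ _ ia ib ic id x y s => (fun t => mkNode x y s 0 0 0 d0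
      (ia (Nat.sub x t) (Nat.sub y t) t) (ib (Nat.add x t) (Nat.sub y t) t)
      (ic (Nat.sub x t) (Nat.add y t) t) (id (Nat.add x t) (Nat.add y t) t))
      (Nat.shiftRight s 1)) t

/-- The square misses the rectangle of half sides `A, B`, or lies in one of the discs. -/
noncomputable def out (ds : List Dk) (A B x y s : ℕ) : Bool :=
  Bool.rec true (Bool.rec true (List.rec false (fun d _ ih => inK d x y s ih) ds)
    (Nat.ble (dst y 134217728) (Nat.add B s))) (Nat.ble (dst x 134217728) (Nat.add A s))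

noncomputable def cov (ds : List Dk) (A B : ℕ) (t : SK) : ℕ → ℕ → ℕ → Bool :=
  SK.rec (fun x y s => out ds A B x y s)
    (fun m x y s => and4 (Nat.beq (mX m) x) (Nat.beq (mY m) y) (Nat.beq (mS m) s) true)
    (fun _ _ _ _ ia ib ic id x y s => (fun t => Bool.rec false (and4
      (ia (Nat.sub x t) (Nat.sub y t) t) (ib (Nat.add x t) (Nat.sub y t) t)
      (ic (Nat.sub x t) (Nat.add y t) t) (id (Nat.add x t) (Nat.add y t) t))
      (Nat.beq (Nat.add t t) s)) (Nat.shiftRight s 1)) t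

/-- The whole check of pairs. -/
noncomputable def chkB (d0 : Dk) (ds : List Dk) (A B : ℕ) (l : List (List ℕ)) : Bool :=
  insLL l (fun t => Bool.rec false (self (fin d0 ds t 134217728 134217728 134217728))
    (cov ds A B t 134217728 134217728 134217728)) SK.emp

section proofs

variable {S : Sch (Fin 8)} {T : Tab} {q : Bool → Fin 8 → List (ℤ × ℤ)} {ε : ℝ}

lemma recT {k c : Bool} (h : (Bool.rec true k c : Bool) = true) : c = false ∨ k = true := by
  cases c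
  exacts [.inl rfl, .inr h]

lemma recF {k c : Bool} (h : (Bool.rec false k c : Bool) = true) : c = true ∧ k = true := by
  cases c
  exacts [absurd h Bool.false_ne_true, ⟨rfl, h⟩]

lemma lt_of_ble {a b : ℕ} (h : Nat.ble a b = false) : b < a :=
  not_le.1 fun h' => by rw [Nat.ble_eq_true_of_le h'] at h; exact absurd h (by decide)

lemma and4_ok {a b c d : Bool} (h : and4 a b c d = true) :
    a = true ∧ b = true ∧ c = true ∧ d = true := by
  obtain ⟨h1, h⟩ := recF h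
  obtain ⟨h2, h⟩ := recF h
  obtain ⟨h3, h⟩ := recF h
  exact ⟨h1, h2, h3, h⟩

lemma ssq_cast (a b : ℕ) : (ssq a b : ℝ) = (a : ℝ) ^ 2 + (b : ℝ) ^ 2 := by
  change ((a * a + b * b : ℕ) : ℝ) = _
  push_cast
  ring

lemma norm_lt_of {z : ℂ} {u v r D : ℝ} (hD : 0 < D) (h1 : |z.re| ≤ u / D) (h2 : |z.im| ≤ v / D)
    (hr : 0 ≤ r) (h : u ^ 2 + v ^ 2 < r ^ 2) : ‖z‖ < r / D := by
  refine lt_of_pow_lt_pow_left₀ 2 (by positivity) ?_
  have k1 := pow_le_pow_left₀ (abs_nonneg _) h1 2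
  have k2 := pow_le_pow_left₀ (abs_nonneg _) h2 2
  have k3 : (u / D) ^ 2 + (v / D) ^ 2 < (r / D) ^ 2 := by
    rw [div_pow, div_pow, div_pow, ← add_div]
    exact div_lt_div_of_pos_right h (by positivity)
  rw [Complex.sq_norm, normSq_apply, ← pow_two, ← pow_two, ← sq_abs z.re, ← sq_abs z.im]
  linarith

lemma norm_sq_eq {z : ℂ} {u v : ℕ} {D : ℝ} (h1 : |z.re| = u / D) (h2 : |z.im| = v / D) :
    ‖z‖ ^ 2 = (ssq u v : ℝ) / D ^ 2 := by
  rw [Complex.sq_norm, normSq_apply, ← pow_two, ← pow_two, ← sq_abs z.re, ← sq_abs z.im, h1, h2,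
    ssq_cast, div_pow, div_pow, add_div]

lemma abs_dst (a b : ℕ) {D : ℝ} (hD : 0 < D) (c : ℝ) :
    |((a : ℝ) / D - c) - (b / D - c)| = dst a b / D := by
  rw [dst_cast, sub_sub_sub_cancel_right, ← sub_div, abs_div, abs_of_pos hD]

/-- `inD` in any unit `1 / D`. -/
lemma inD_ok {x y s px py r : ℕ} {k : Bool} (h : inD x y s px py r k = true) {D : ℝ} (hD : 0 < D) :
    k = true ∨ r ≠ 0 ∧ ∀ z : ℂ, |z.re - (x / D - 8)| ≤ s / D → |z.im - (y / D - 8)| ≤ s / D →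
      ‖z - ⟨px / D - 8, py / D - 8⟩‖ < r / D := by
  rcases recT h with h | h
  swap
  · exact .inl h
  have h1 : ssq (dst x px + s) (dst y py + s) < r * r := lt_of_ble h
  refine .inr ⟨by rintro rfl; simp at h1, fun z h2 h3 => ?_⟩
  have h4 : ((dst x px : ℝ) + s) ^ 2 + ((dst y py : ℝ) + s) ^ 2 < (r : ℝ) ^ 2 := by
    have := (Nat.cast_lt (α := ℝ)).2 h1
    rw [ssq_cast] at this
    push_cast at this
    linarith
  refine norm_lt_of hD ?_ ?_ (Nat.cast_nonneg _) h4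
  · rw [add_div, ← abs_dst x px hD 8]
    exact (abs_sub_le _ _ _).trans ((add_le_add h2 le_rfl).trans_eq (add_comm _ _))
  · rw [add_div, ← abs_dst y py hD 8]
    exact (abs_sub_le _ _ _).trans ((add_le_add h3 le_rfl).trans_eq (add_comm _ _))

lemma pt_eq (x y : ℕ) : pt48 (x * 16777216) (y * 16777216) = pt x y := by
  apply Complex.ext <;> simp only [pt48, pt] <;> push_cast <;> ring

lemma inK_ok {d : Dk} (hd : d.OK S) {x y s : ℕ} {k : Bool} (h : inK d x y s k = true) :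
    k = true ∨ ∀ z ∈ sq x y s, z ∉ S.F := by
  refine (inD_ok h (D := 2 ^ 48) (by positivity)).imp_right fun h z hz hF => ?_
  obtain ⟨k, h1, -, -, h2⟩ := hd
  have e : ∀ n : ℕ, ((Nat.mul n 16777216 : ℕ) : ℝ) / 2 ^ 48 = n / 2 ^ 24 := fun n => by
    change ((n * 16777216 : ℕ) : ℝ) / _ = _
    push_cast
    ring
  have h3 : ‖z - pt48 d.cx d.cy‖ < d.ri / 2 ^ 48 :=
    h.2 z (by rw [e, e]; exact hz.1) (by rw [e, e]; exact hz.2)
  have h4 := norm_sub_le_norm_sub_add_norm_sub z (pt48 d.cx d.cy) (S.c k)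
  rw [norm_sub_rev (pt48 _ _)] at h4
  linarith [hF k]

/-- The points of a tree. -/
def pts : BT → Set ℂ
  | .emp => ∅
  | .leaf g => sq g.x g.y g.s
  | .node _ a b c d => pts a ∪ pts b ∪ pts c ∪ pts d

def rng (l u : ℕ) (v : ℝ) : Prop := (l = 0 ∨ vl l ≤ v) ∧ v ≤ vl u

def Box (S : Sch (Fin 8)) (g : G) (A : Set ℂ) : Prop :=
  ∀ z ∈ A, rng g.l0 g.u0 (S.Z z - S.Z 0).re ∧ rng g.l1 g.u1 (S.Z z - S.Z 0).im ∧
    rng g.l2 g.u2 (S.h3 z - S.h3 0)

def patch (px py pr : ℕ) : Set ℂ := closedBall (pt px py) ((pr : ℝ) / 2 ^ 24)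

structure POK (S : Sch (Fin 8)) (T : Tab) (P : Set ℂ) : Prop where
  inV : P ⊆ T.Vh
  inj : InjOn S.X P
  imm : ∀ z ∈ P, S.s1 z ≠ 0 ∨ S.s2 z ≠ 0

structure GOK (S : Sch (Fin 8)) (T : Tab) (g : G) (A : Set ℂ) : Prop where
  sub : A ⊆ sq g.x g.y g.s
  box : Box S g A
  pat : g.pr ≠ 0 → A ⊆ patch g.px g.py g.pr ∧ POK S T (patch g.px g.py g.pr)
  dk : g.d.OK S

def Val (S : Sch (Fin 8)) (T : Tab) : BT → Prop
  | .emp => True
  | .leaf g => GOK S T g (sq g.x g.y g.s) ∧ g.pr ≠ 0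
  | .node g a b c d => GOK S T g (pts a ∪ pts b ∪ pts c ∪ pts d) ∧
      Val S T a ∧ Val S T b ∧ Val S T c ∧ Val S T d

def Rel (S : Sch (Fin 8)) (A B : Set ℂ) : Prop :=
  ∀ z ∈ A, z ∈ S.F → ∀ w ∈ B, w ∈ S.F → S.X z = S.X w → w = z ∨ ∃ k, w = S.γ k z

lemma Rel.symm (An : S.Ana) {A B : Set ℂ} (h : Rel S A B) : Rel S B A :=
  fun z hz hF w hw hF' e => An.rel_symm hF' (h w hw hF' z hz hF e.symm)

lemma Rel.left {A B C : Set ℂ} (h : Rel S A C) (h' : Rel S B C) : Rel S (A ∪ B) C :=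
  fun z hz => hz.elim (h z) (h' z)

lemma Rel.right {A B C : Set ℂ} (h : Rel S A B) (h' : Rel S A C) : Rel S A (B ∪ C) :=
  fun z hz hF w hw => hw.elim (h z hz hF w) (h' z hz hF w)

lemma vl_mono {a b : ℕ} (h : a ≤ b) : vl a ≤ vl b := by
  unfold vl
  gcongr

lemma rng.ne {l u l' u' : ℕ} {v : ℝ} (h : rng l u v) (h' : rng l' u' v)
    (e : Nat.ble l' u = false) : False := by
  have h1 := lt_of_ble e
  have h2 : vl u < vl l' := by
    unfold vl
    gcongr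
  rcases h'.1 with h3 | h3
  · omega
  · linarith [h.2]

lemma sep_ok {a b : G} {A B : Set ℂ} {k : Bool} (ha : Box S a A) (hb : Box S b B)
    (h : sep a b k = true) : k = true ∨ Rel S A B := by
  by_cases hk : k = true
  · exact .inl hk
  refine .inr fun z hz _ w hw _ e => absurd ?_ hk
  have e0 : (S.Z z).re = (S.Z w).re := congr($e 0)
  have e1 : (S.Z z).im = (S.Z w).im := congr($e 1)
  have e2 : S.h3 z = S.h3 w := congr($e 2)
  obtain ⟨a0, a1, a2⟩ := ha z hz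
  obtain ⟨b0, b1, b2⟩ := hb w hw
  rw [Complex.ext e0 e1] at a0 a1
  rw [e2] at a2
  rcases recT h with h | h
  · exact (a2.ne b2 h).elim
  rcases recT h with h | h
  · exact (b2.ne a2 h).elim
  rcases recT h with h | h
  · exact (a0.ne b0 h).elim
  rcases recT h with h | h
  · exact (b0.ne a0 h).elim
  rcases recT h with h | h
  · exact (a1.ne b1 h).elim
  rcases recT h with h | h
  · exact (b1.ne a1 h).elim
  exact h

lemma in_ok {a b : G} {A B : Set ℂ} {k : Bool} (ha : GOK S T a A) (hb : GOK S T b B)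
    (h : inD b.x b.y b.s a.px a.py a.pr k = true) :
    k = true ∨ ∀ z ∈ A, ∀ w ∈ B, S.X z = S.X w → z = w := by
  refine (inD_ok h (D := 2 ^ 24) (by positivity)).imp_right fun h z hz w hw e => ?_
  obtain ⟨h1, h2⟩ := ha.pat h.1
  refine h2.inj (h1 hz) ?_ e
  rw [patch, mem_closedBall, dist_eq_norm]
  exact (h.2 w (hb.sub hw).1 (hb.sub hw).2).le

lemma tst_ok {a b : G} {A B : Set ℂ} {k : Bool} (ha : GOK S T a A) (hb : GOK S T b B)
    (h : tst a b k = true) : k = true ∨ Rel S A B := by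
  rcases sep_ok ha.box hb.box h with h | h
  swap
  · exact .inr h
  rcases in_ok ha hb h with h | h
  swap
  · exact .inr fun z hz _ w hw _ e => .inl (h z hz w hw e).symm
  rcases in_ok hb ha h with h | h
  · exact .inl h
  · exact .inr fun z hz _ w hw _ e => .inl (h w hw z hz e.symm)

lemma norm_sq_le {x y s : ℕ} {z : ℂ} (hz : z ∈ sq x y s) : ‖z - pt x y‖ ≤ 23 / 16 * (s / 2 ^ 24) := by
  have h0 : (0 : ℝ) ≤ s / 2 ^ 24 := by positivity
  obtain ⟨h1, h2⟩ := hz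
  generalize (s : ℝ) / 2 ^ 24 = t at h0 h1 h2
  refine abs_le_of_sq_le_sq' ?_ (by positivity) |>.2
  rw [Complex.sq_norm, normSq_apply, sub_re, sub_im]
  nlinarith [sq_abs (z.re - (pt x y).re), sq_abs (z.im - (pt x y).im),
    abs_nonneg (z.re - (pt x y).re), abs_nonneg (z.im - (pt x y).im)]

/-- `glue2` with the two constants as parameters. -/
noncomputable def glueG (c₁ c₂ : ℕ) (d : Dk) (ax ay mx my r R e1 e2 d1 d2 : ℕ) (k : Bool) : Bool :=
  (fun t => Bool.rec true k (Nat.ble (Nat.mul t t) (ssq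
    (dst (Nat.add (Nat.add (Nat.add (Nat.mul d.ex ax) (Nat.mul mx d.cx))
        (Nat.add (Nat.mul d.ey d.cy) (Nat.mul my ay))) c₁)
      (Nat.add (Nat.add (Nat.add (Nat.mul d.ex d.cx) (Nat.mul mx ax))
        (Nat.add (Nat.mul d.ey ay) (Nat.mul my d.cy))) d.kr))
    (dst (Nat.add (Nat.add (Nat.add (Nat.mul d.ex ay) (Nat.mul mx d.cy))
        (Nat.add (Nat.mul d.ey ax) (Nat.mul my d.cx))) c₁)
      (Nat.add (Nat.add (Nat.add (Nat.mul d.ex d.cy) (Nat.mul mx ay))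
        (Nat.add (Nat.mul d.ey d.cx) (Nat.mul my ax))) d.ki)))))
  (Nat.sub (Nat.mul R (sqL (ssq d1 d2) (Nat.add d1 d2)))
    (Nat.add (Nat.mul (Nat.add (sqU (ssq e1 e2) (Nat.add e1 e2)) R) r) c₂))

lemma glue2_eq :
    glue2 = glueG (79228162514264337593543950336 : @& ℕ) (72057594037927936 : @& ℕ) := by
  eq_refl

lemma glueG_ok (An : S.Ana) {d : Dk} (hd : d.OK S) {c₁ c₂ ax ay mx my r R : ℕ} {k : Bool}
    (e₁ : (c₁ : ℝ) = 2 ^ 96) (e₂ : (c₂ : ℝ) = 2 ^ 56) (h : glueG c₁ c₂ d ax ay mx my r R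
      (dst d.ex mx) (dst d.ey my) (dst ax d.cx) (dst ay d.cy) k = true) :
    k = true ∨ R ≠ 0 ∧ ∃ j, ∀ z ∈ S.F, ‖z - pt48 ax ay‖ ≤ r / 2 ^ 48 - 1 / 2 ^ 40 →
      S.γ j z ∈ closedBall (pt48 mx my) (R / 2 ^ 48 + 1 / 2 ^ 40) := by
  rcases recT h with h | h
  swap
  · exact .inl h
  obtain ⟨j, c1, c2, c3, -⟩ := hd
  replace h := lt_of_ble h
  have hU := le_sqU (ssq (dst d.ex mx) (dst d.ey my)) (Nat.add (dst d.ex mx) (dst d.ey my))
  have hL := sqL_le (ssq (dst ax d.cx) (dst ay d.cy)) (Nat.add (dst ax d.cx) (dst ay d.cy))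
  generalize sqU (ssq (dst d.ex mx) (dst d.ey my)) _ = U at h hU
  generalize sqL (ssq (dst ax d.cx) (dst ay d.cy)) _ = L at h hL
  simp only [Nat.add_eq, Nat.mul_eq, Nat.sub_eq] at h
  obtain ⟨t, ht⟩ : ∃ t, t = R * L - ((U + R) * r + c₂) := ⟨_, rfl⟩
  rw [← ht] at h
  have t0 : t ≠ 0 := by rintro rfl; simp at h
  have t1 : t + ((U + R) * r + c₂) = R * L := by omega
  refine .inr ⟨by rintro rfl; omega, j, fun z hz ha => ?_⟩
  have p48 : (0 : ℝ) < 2 ^ 48 := by positivity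
  refine An.gamma_mem c1 c2 c3 hz ha (n := t / 2 ^ 96) (e := U / 2 ^ 48) (t := L / 2 ^ 48)
    ?_ ?_ ?_ (le_add_of_nonneg_left (by positivity)) ?_
  · have h1 := (Nat.cast_lt (α := ℝ)).2 h
    rw [ssq_cast, Nat.cast_mul, ← pow_two] at h1
    refine (norm_lt_of (by positivity) (le_of_eq ?_) (le_of_eq ?_) (Nat.cast_nonneg _) h1).le
    · rw [dst_cast, ← abs_of_pos (show (0 : ℝ) < 2 ^ 96 by positivity), ← abs_div]
      congr 1
      simp only [pt48, sub_re, mul_re, sub_im]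
      push_cast
      rw [abs_of_pos (show (0 : ℝ) < 2 ^ 96 by positivity), e₁]
      ring
    · rw [dst_cast, ← abs_of_pos (show (0 : ℝ) < 2 ^ 96 by positivity), ← abs_div]
      congr 1
      simp only [pt48, sub_re, mul_im, sub_im]
      push_cast
      rw [abs_of_pos (show (0 : ℝ) < 2 ^ 96 by positivity), e₁]
      ring
  · refine abs_le_of_sq_le_sq' ?_ (by positivity) |>.2
    rw [norm_sq_eq (abs_dst d.ex mx p48 8) (abs_dst d.ey my p48 8), div_pow]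
    gcongr
    exact_mod_cast hU.trans_eq (pow_two U).symm
  · refine abs_le_of_sq_le_sq' ?_ (norm_nonneg _) |>.2
    rw [norm_sq_eq (abs_dst ax d.cx p48 8) (abs_dst ay d.cy p48 8), div_pow]
    gcongr
    exact_mod_cast (pow_two L).trans_le hL
  · have t2 : (t : ℝ) = R * L - ((U + R) * r + c₂) := by
      rw [eq_sub_iff_add_eq]
      exact_mod_cast t1
    rw [t2, e₂]
    apply le_of_eq
    ring

lemma glue_ok (An : S.Ana) (O : OrcH S T q ε) {a b : G} {A B : Set ℂ} {k : Bool}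
    (ha : GOK S T a A) (hb : GOK S T b B) (h : glue a b k = true) : k = true ∨ Rel S A B := by
  unfold glue glue1 at h
  rw [glue2_eq] at h
  refine (glueG_ok An ha.dk (by norm_num) (by norm_num) h).imp_right ?_
  rintro ⟨h0, j, h⟩ z hz hF w hw _ e
  simp only [Nat.add_eq, Nat.mul_eq, Nat.sub_eq, pt_eq] at h h0
  obtain ⟨h1, h2⟩ := hb.pat (by omega)
  have h3 : S.γ j z ∈ patch b.px b.py b.pr := by
    have := h z hF ((norm_sq_le (ha.sub hz)).trans_eq (by push_cast; ring))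
    rwa [Nat.cast_sub (by omega), show (((b.pr * 16777216 : ℕ) : ℝ) - (256 : ℕ)) / 2 ^ 48 +
      1 / 2 ^ 40 = b.pr / 2 ^ 24 by push_cast; ring] at this
  exact .inr ⟨j, h2.inj (h1 hw) h3 (e.symm.trans (O.glue j z hF (h2.inV h3)).symm)⟩

lemma pair_ok (An : S.Ana) (O : OrcH S T q ε) (f : ℕ) : ∀ a b : BT, Val S T a → Val S T b →
    pair f a b = true → Rel S (pts a) (pts b) := by
  induction f with
  | zero => exact fun a b _ _ h => absurd h Bool.false_ne_true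
  | succ f ih =>
    have L : ∀ {g a0 a1 a2 a3 b}, Val S T (.node g a0 a1 a2 a3) → Val S T b →
        and4 (pair f a0 b) (pair f a1 b) (pair f a2 b) (pair f a3 b) = true →
        Rel S (pts (.node g a0 a1 a2 a3)) (pts b) := fun va vb h => by
      obtain ⟨h0, h1, h2, h3⟩ := and4_ok h
      exact (((ih _ _ va.2.1 vb h0).left (ih _ _ va.2.2.1 vb h1)).left
        (ih _ _ va.2.2.2.1 vb h2)).left (ih _ _ va.2.2.2.2 vb h3)
    have R : ∀ {g b0 b1 b2 b3 a}, Val S T a → Val S T (.node g b0 b1 b2 b3) →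
        and4 (pair f a b0) (pair f a b1) (pair f a b2) (pair f a b3) = true →
        Rel S (pts a) (pts (.node g b0 b1 b2 b3)) := fun va vb h => by
      obtain ⟨h0, h1, h2, h3⟩ := and4_ok h
      exact (((ih _ _ va vb.2.1 h0).right (ih _ _ va vb.2.2.1 h1)).right
        (ih _ _ va vb.2.2.2.1 h2)).right (ih _ _ va vb.2.2.2.2 h3)
    intro a b va vb h
    rcases a with _ | ga | ⟨ga, a0, a1, a2, a3⟩
    · exact fun z hz => hz.elim
    · rcases b with _ | gb | ⟨gb, b0, b1, b2, b3⟩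
      · exact fun z _ _ w hw => hw.elim
      · rcases tst_ok va.1 vb.1 h with h | h
        swap
        · exact h
        rcases glue_ok An O va.1 vb.1 h with h | h
        swap
        · exact h
        rcases glue_ok An O vb.1 va.1 h with h | h
        · exact absurd h Bool.false_ne_true
        · exact h.symm An
      · exact (tst_ok va.1 vb.1 h).elim (R va vb) id
    · rcases b with _ | gb | ⟨gb, b0, b1, b2, b3⟩
      · exact fun z _ _ w hw => hw.elim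
      · exact (tst_ok va.1 vb.1 h).elim (L va vb) id
      · refine (tst_ok va.1 vb.1 h).elim (fun h => ?_) id
        cases e : Nat.ble gb.s ga.s <;> rw [e] at h
        exacts [R va vb h, L va vb h]

lemma self_ok (An : S.Ana) (O : OrcH S T q ε) (t : BT) : Val S T t → self t = true →
    Rel S (pts t) (pts t) := by
  induction t with
  | emp => exact fun _ _ z hz => hz.elim
  | leaf g =>
    intro v _ z hz _ w hw _ e
    obtain ⟨h1, h2⟩ := v.1.pat v.2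
    exact .inl (h2.inj (h1 hz) (h1 hw) e).symm
  | node g a b c d ia ib ic id =>
    intro v h
    rcases recT h with h | h
    · intro z hz _ w hw _ e
      obtain ⟨h1, h2⟩ := v.1.pat (lt_of_ble h).ne'
      exact .inl (h2.inj (h1 hz) (h1 hw) e).symm
    obtain ⟨-, va, vb, vc, vd⟩ := v
    obtain ⟨h1, h2, h3, -⟩ := and4_ok h
    obtain ⟨aa, bb, cc, dd⟩ := and4_ok h1
    obtain ⟨ab, ac, ad, -⟩ := and4_ok h2
    obtain ⟨bc, bd, cd, -⟩ := and4_ok h3
    replace ab := pair_ok An O _ _ _ va vb ab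
    replace ac := pair_ok An O _ _ _ va vc ac
    replace ad := pair_ok An O _ _ _ va vd ad
    replace bc := pair_ok An O _ _ _ vb vc bc
    replace bd := pair_ok An O _ _ _ vb vd bd
    replace cd := pair_ok An O _ _ _ vc vd cd
    exact ((((((ia va aa).right ab).right ac).right ad).left
      ((((ab.symm An).right (ib vb bb)).right bc).right bd)).left
      ((((ac.symm An).right (bc.symm An)).right (ic vc cc)).right cd)).left
      ((((ad.symm An).right (bd.symm An)).right (cd.symm An)).right (id vd dd))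

lemma imm_ok (t : BT) : Val S T t → ∀ z ∈ pts t, S.s1 z ≠ 0 ∨ S.s2 z ≠ 0 := by
  induction t with
  | emp => exact fun _ z hz => hz.elim
  | leaf g => exact fun v z hz => (v.1.pat v.2).2.imm z ((v.1.pat v.2).1 hz)
  | node g a b c d ia ib ic id =>
    rintro ⟨-, va, vb, vc, vd⟩ z (((hz | hz) | hz) | hz)
    exacts [ia va z hz, ib vb z hz, ic vc z hz, id vd z hz]

lemma geo_box (d : Dk) (t : BT) (v : Val S T t) : Box S (geo d t) (pts t) := by
  cases t
  exacts [fun z hz => hz.elim, v.1.box, v.1.box]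

lemma rng.mono {l u l' u' : ℕ} {v : ℝ} (h : rng l u v) (hl : l' ≤ l) (hu : u ≤ u') :
    rng l' u' v :=
  ⟨h.1.imp (fun e => by omega) (vl_mono hl).trans, h.2.trans (vl_mono hu)⟩

lemma mn_eq (a b : ℕ) : mn a b = min a b := by
  change a - (a - b) = _
  omega

lemma mx_eq (a b : ℕ) : mx a b = max a b := by
  change a + (b - a) = _
  omega

lemma node_val {x y s px py pr : ℕ} {d : Dk} {a b c e : BT} (hd : d.OK S) (va : Val S T a)
    (vb : Val S T b) (vc : Val S T c) (ve : Val S T e)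
    (hs : pts a ∪ pts b ∪ pts c ∪ pts e ⊆ sq x y s)
    (hp : pr ≠ 0 → sq x y s ⊆ patch px py pr ∧ POK S T (patch px py pr)) :
    Val S T (mkNode x y s px py pr d a b c e) := by
  refine ⟨⟨hs, ?_, fun h => ⟨hs.trans (hp h).1, (hp h).2⟩, hd⟩, va, vb, vc, ve⟩
  rintro z (((hz | hz) | hz) | hz)
  on_goal 1 => obtain ⟨h0, h1, h2⟩ := geo_box d _ va z hz
  on_goal 2 => obtain ⟨h0, h1, h2⟩ := geo_box d _ vb z hz
  on_goal 3 => obtain ⟨h0, h1, h2⟩ := geo_box d _ vc z hz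
  on_goal 4 => obtain ⟨h0, h1, h2⟩ := geo_box d _ ve z hz
  all_goals
    refine ⟨h0.mono ?_ ?_, h1.mono ?_ ?_, h2.mono ?_ ?_⟩ <;> simp only [hull, mn_eq, mx_eq] <;> omega

lemma abs_quad {u : ℝ} {x t : ℕ} (hx : t ≤ x) :
    |u - (x / 2 ^ 24 - 8)| ≤ ((t + t : ℕ) : ℝ) / 2 ^ 24 ↔
      |u - ((x - t : ℕ) / 2 ^ 24 - 8)| ≤ (t : ℝ) / 2 ^ 24 ∨
        |u - ((x + t : ℕ) / 2 ^ 24 - 8)| ≤ (t : ℝ) / 2 ^ 24 := by
  have h0 : (0 : ℝ) ≤ t / 2 ^ 24 := by positivity
  rw [Nat.cast_sub hx, Nat.cast_add, Nat.cast_add, sub_div, add_div, add_div]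
  simp only [abs_le]
  constructor
  · intro h
    rcases le_total u (x / 2 ^ 24 - 8) with h' | h'
    · exact .inl ⟨by linarith [h.1], by linarith⟩
    · exact .inr ⟨by linarith, by linarith [h.2]⟩
  · rintro (h | h) <;> exact ⟨by linarith [h.1], by linarith [h.2]⟩

lemma quad {x y t : ℕ} (hx : t ≤ x) (hy : t ≤ y) : sq x y (t + t) =
    sq (x - t) (y - t) t ∪ sq (x + t) (y - t) t ∪ sq (x - t) (y + t) t ∪ sq (x + t) (y + t) t := by
  ext z
  simp only [sq, pt, mem_union, mem_ofPred_eq, abs_quad hx, abs_quad hy]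
  tauto

/-- The tree is valid and covers the part of the square in `K`. -/
def Cv (S : Sch (Fin 8)) (T : Tab) (K : Set ℂ) (t : BT) (x y s : ℕ) : Prop :=
  Val S T t ∧ pts t ⊆ sq x y s ∧ ∀ z ∈ sq x y s, z ∈ K → z ∈ pts t

lemma node_cv {K : Set ℂ} {x y t px py pr : ℕ} {d : Dk} {a b c e : BT} (hd : d.OK S) (hx : t ≤ x)
    (hy : t ≤ y) (va : Cv S T K a (x - t) (y - t) t) (vb : Cv S T K b (x + t) (y - t) t)
    (vc : Cv S T K c (x - t) (y + t) t) (ve : Cv S T K e (x + t) (y + t) t)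
    (hp : pr ≠ 0 → sq x y (t + t) ⊆ patch px py pr ∧ POK S T (patch px py pr)) :
    Cv S T K (mkNode x y (t + t) px py pr d a b c e) x y (t + t) := by
  have hs : pts a ∪ pts b ∪ pts c ∪ pts e ⊆ sq x y (t + t) := by
    rw [quad hx hy]
    exact union_subset_union (union_subset_union (union_subset_union va.2.1 vb.2.1) vc.2.1) ve.2.1
  refine ⟨node_val hd va.1 vb.1 vc.1 ve.1 hs hp, hs, fun z hz hK => ?_⟩
  rw [quad hx hy] at hz
  exact hz.imp (Or.imp (Or.imp (va.2.2 z · hK) (vb.2.2 z · hK)) (vc.2.2 z · hK)) (ve.2.2 z · hK)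

lemma rng_of {c r : ℕ} {v : ℝ} (h : |v - vl c| ≤ r / 2 ^ 20) : rng (Nat.sub c r) (Nat.add c r) v := by
  change rng (c - r) (c + r) v
  rw [abs_le, vl] at h
  refine ⟨?_, by rw [vl, Nat.cast_add, add_div]; linarith [h.2]⟩
  rcases le_total c r with h' | h'
  · exact .inl (Nat.sub_eq_zero_of_le h')
  · exact .inr (by rw [vl, Nat.cast_sub h', sub_div]; linarith [h.1])

lemma sub_ok {px py pr r0 r1 r2 : ℕ} {d : Dk} (hd : d.OK S) (h0 : pr ≠ 0)
    (hP : POK S T (patch px py pr)) (n : ℕ) : ∀ x y s v, 2 ^ n ∣ s → s ≤ x → s ≤ y →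
    sq x y s ⊆ patch px py pr → SubOK S r0 r1 r2 n x y s v →
    Cv S T S.F (sub px py pr d r0 r1 r2 n x y s v) x y s := by
  induction n with
  | zero =>
    intro x y s v _ _ _ hs h
    change Cv S T S.F (Bool.rec (mkLeaf x y s px py pr d r0 r1 r2 _ _ _) BT.emp
      (inK d x y s false)) x y s
    cases e : inK d x y s false
    · exact ⟨⟨⟨Subset.rfl, fun z hz => ⟨rng_of (h z hz).1, rng_of (h z hz).2.1, rng_of (h z hz).2.2⟩,
        fun _ => ⟨hs, hP⟩, hd⟩, h0⟩, Subset.rfl, fun z hz _ => hz⟩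
    · exact ⟨trivial, empty_subset _, fun z hz hF =>
        (inK_ok hd e).elim (fun h => absurd h Bool.false_ne_true) fun h => h z hz hF⟩
  | succ n ih =>
    rintro x y s v ⟨u, hu⟩ hx hy hs ⟨h1, h2, h3, h4⟩
    obtain ⟨t, rfl, ht⟩ : ∃ t, s = t + t ∧ 2 ^ n ∣ t := ⟨2 ^ n * u, by rw [hu]; ring, u, rfl⟩
    have e1 : (t + t) / 2 = t := by omega
    have e2 : Nat.shiftRight (t + t) 1 = t := by
      change (t + t) >>> 1 = t
      rw [Nat.shiftRight_eq_div_pow, pow_one, e1]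
    rw [e1] at h1 h2 h3 h4
    change Cv S T S.F ((fun t' w => mkNode x y (t + t) px py pr d
      (sub px py pr d r0 r1 r2 n (x - t') (y - t') t' v)
      (sub px py pr d r0 r1 r2 n (x + t') (y - t') t' (v >>> w))
      (sub px py pr d r0 r1 r2 n (x - t') (y + t') t' (v >>> (2 * w)))
      (sub px py pr d r0 r1 r2 n (x + t') (y + t') t' (v >>> (3 * w))))
      (Nat.shiftRight (t + t) 1) (wid n)) x y (t + t)
    rw [e2]
    have hs' := hs
    rw [quad (by omega) (by omega)] at hs'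
    simp only [union_subset_iff] at hs'
    exact node_cv hd (by omega) (by omega)
      (ih _ _ _ _ ht (by omega) (by omega) hs'.1.1.1 h1)
      (ih _ _ _ _ ht (by omega) (by omega) hs'.1.1.2 h2)
      (ih _ _ _ _ ht (by omega) (by omega) hs'.1.2 h3)
      (ih _ _ _ _ ht (by omega) (by omega) hs'.2 h4) fun _ => ⟨hs, hP⟩

lemma nth_ok {d0 : Dk} {ds : List Dk} (h0 : d0.OK S) (hd : ∀ d ∈ ds, d.OK S) (n : ℕ) :
    (nth d0 ds n).OK S := by
  induction ds generalizing n with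
  | nil => exact h0
  | cons d l ih =>
    cases n
    exacts [hd d List.mem_cons_self, ih (fun d h => hd d (List.mem_cons_of_mem _ h)) _]

lemma mac_ok {d0 : Dk} {ds : List Dk} (h0 : d0.OK S) (hd : ∀ d ∈ ds, d.OK S) {m : ℕ}
    (h : MacOK S T m) (hx : mS m ≤ mX m) (hy : mS m ≤ mY m) :
    Cv S T S.F (mkMac d0 ds m) (mX m) (mY m) (mS m) := by
  have k1 : ∀ j < 16, 8 ∣ Nat.shiftRight 8388608 j ∧ Nat.shiftRight 24117248 j ≠ 0 ∧
      2 * Nat.shiftRight 8388608 j ≤ Nat.shiftRight 24117248 j := by decide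
  obtain ⟨k2, k3, k4⟩ := k1 (mJ m) (Nat.mod_lt _ (by decide))
  have k5 : mN m < 4 := Nat.mod_lt _ (by decide)
  refine sub_ok (nth_ok h0 hd _) k3 ⟨h.inV, h.inj, h.imm⟩ _ _ _ _ _
    ((pow_dvd_pow 2 (Nat.lt_succ_iff.1 k5)).trans k2) hx hy (fun z hz => ?_) h.val
  change z ∈ closedBall _ ((mP m : ℝ) / 2 ^ 24)
  rw [mem_closedBall, dist_eq_norm]
  have k6 : (2 : ℝ) * mS m ≤ mP m := by exact_mod_cast k4
  refine (norm_sq_le hz).trans ?_
  rw [← mul_div_assoc]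
  gcongr
  linarith [(mS m).cast_nonneg (α := ℝ)]

def SK.All (P : ℕ → Prop) : SK → Prop
  | .emp => True
  | .mac m => P m
  | .node a b c d => a.All P ∧ b.All P ∧ c.All P ∧ d.All P

lemma ins_ok {P : ℕ → Prop} {m x y : ℕ} (hm : P m) (n : ℕ) : ∀ i t k, SK.All P t →
    ins m x y n i t k = true → ∃ t, SK.All P t ∧ k t = true := by
  induction n with
  | zero => exact fun _ _ _ _ h => ⟨.mac m, hm, h⟩
  | succ n ih =>
    have H : ∀ i a b c d k, SK.All P (.node a b c d) → ins4 (ins m x y n) x y i a b c d k = true →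
        ∃ t, SK.All P t ∧ k t = true := by
      rintro i a b c d k ⟨ha, hb, hc, hd⟩ h
      unfold ins4 at h
      generalize Nat.ble (bits x i 2) 0 = u at h
      generalize Nat.ble (bits y i 2) 0 = v at h
      cases u <;> cases v
      · obtain ⟨t, ht, e⟩ := ih _ _ _ hd h
        exact ⟨.node a b c t, ⟨ha, hb, hc, ht⟩, e⟩
      · obtain ⟨t, ht, e⟩ := ih _ _ _ hb h
        exact ⟨.node a t c d, ⟨ha, ht, hc, hd⟩, e⟩
      · obtain ⟨t, ht, e⟩ := ih _ _ _ hc h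
        exact ⟨.node a b t d, ⟨ha, hb, ht, hd⟩, e⟩
      · obtain ⟨t, ht, e⟩ := ih _ _ _ ha h
        exact ⟨.node t b c d, ⟨ht, hb, hc, hd⟩, e⟩
    intro i t k ht h
    cases t
    exacts [H _ .emp .emp .emp .emp _ ⟨trivial, trivial, trivial, trivial⟩ h,
      H _ .emp .emp .emp .emp _ ⟨trivial, trivial, trivial, trivial⟩ h, H _ _ _ _ _ _ ht h]

lemma insL_ok {P : ℕ → Prop} {k : SK → Bool} (l : List ℕ) (hl : ∀ n ∈ l, P n) : ∀ t, SK.All P t →
    insL l k t = true → ∃ t, SK.All P t ∧ k t = true := by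
  induction l with
  | nil => exact fun t ht h => ⟨t, ht, h⟩
  | cons m l ih =>
    intro t ht h
    change ins m (mX m) (mY m) (Nat.add (mJ m) 4) 27 t (insL l k) = true at h
    obtain ⟨t', ht', e⟩ := ins_ok (hl m List.mem_cons_self) _ _ _ _ ht h
    exact ih (fun n h => hl n (List.mem_cons_of_mem _ h)) t' ht' e

lemma insLL_ok {P : ℕ → Prop} {k : SK → Bool} (l : List (List ℕ)) (hl : ∀ m ∈ l, ∀ n ∈ m, P n) :
    ∀ t, SK.All P t → insLL l k t = true → ∃ t, SK.All P t ∧ k t = true := by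
  induction l with
  | nil => exact fun t ht h => ⟨t, ht, h⟩
  | cons m l ih =>
    intro t ht h
    obtain ⟨t', ht', e⟩ := insL_ok m (hl m List.mem_cons_self) _ ht h
    exact ih (fun n h => hl n (List.mem_cons_of_mem _ h)) t' ht' e

lemma far_ok {c x s A : ℕ} {u a : ℝ} (e : (c : ℝ) = 2 ^ 27)
    (h : Nat.ble (dst x c) (Nat.add A s) = false)
    (h1 : |u - (x / 2 ^ 24 - 8)| ≤ (s : ℝ) / 2 ^ 24) (h2 : |u| ≤ a) (ha : a ≤ A / 2 ^ 24) : False := by
  have h3 : (A : ℝ) + s < |(x : ℝ) - c| := by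
    rw [← dst_cast]
    exact_mod_cast lt_of_ble h
  rw [abs_le] at h1 h2
  rw [e] at h3
  rcases lt_abs.1 h3 with h3 | h3 <;> linarith [h1.1, h1.2, h2.1, h2.2]

/-- `out` with the constant as a parameter. -/
noncomputable def outG (c : ℕ) (ds : List Dk) (A B x y s : ℕ) : Bool :=
  Bool.rec true (Bool.rec true (List.rec false (fun d _ ih => inK d x y s ih) ds)
    (Nat.ble (dst y c) (Nat.add B s))) (Nat.ble (dst x c) (Nat.add A s))

lemma out_eq : out = outG 134217728 := rfl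

lemma outG_ok {ds : List Dk} (hd : ∀ d ∈ ds, d.OK S) {c A B x y s : ℕ} {a b : ℝ}
    (e : (c : ℝ) = 2 ^ 27) (ha : a ≤ A / 2 ^ 24) (hb : b ≤ B / 2 ^ 24)
    (h : outG c ds A B x y s = true) :
    ∀ z ∈ sq x y s, z ∉ S.F ∩ Sch.box a b := by
  rintro z hz ⟨hF, hK⟩
  rcases recT h with h1 | h1
  · exact far_ok e h1 hz.1 hK.1 ha
  rcases recT h1 with h2 | h2
  · exact far_ok e h2 hz.2 hK.2 hb
  clear h h1
  induction ds with
  | nil => exact absurd h2 Bool.false_ne_true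
  | cons d l ih =>
    rcases inK_ok (hd d List.mem_cons_self) h2 with h | h
    exacts [ih (fun d h => hd d (List.mem_cons_of_mem _ h)) h, h z hz hF]

lemma fin_ok {d0 : Dk} {ds : List Dk} (h0 : d0.OK S) (hd : ∀ d ∈ ds, d.OK S) {A B : ℕ} {a b : ℝ}
    (ha : a ≤ A / 2 ^ 24) (hb : b ≤ B / 2 ^ 24) (t : SK) : ∀ x y s, t.All (MacOK S T) → s ≤ x →
    s ≤ y → cov ds A B t x y s = true → Cv S T (S.F ∩ Sch.box a b) (fin d0 ds t x y s) x y s := by
  induction t with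
  | emp =>
    intro x y s _ _ _ h
    change out ds A B x y s = true at h
    rw [out_eq] at h
    exact ⟨trivial, empty_subset _, fun z hz hK => (outG_ok hd (by norm_num) ha hb h z hz hK).elim⟩
  | mac m =>
    intro x y s hm hx hy h
    obtain ⟨h1, h2, h3, -⟩ := and4_ok h
    obtain rfl := Nat.eq_of_beq_eq_true h1
    obtain rfl := Nat.eq_of_beq_eq_true h2
    obtain rfl := Nat.eq_of_beq_eq_true h3
    obtain ⟨k1, k2, k3⟩ := mac_ok h0 hd hm hx hy
    exact ⟨k1, k2, fun z hz hK => k3 z hz hK.1⟩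
  | node p q r u ip iq ir iu =>
    rintro x y s ⟨hp, hq, hr, hu⟩ hx hy h
    change Cv S T _ ((fun t => mkNode x y s 0 0 0 d0 (fin d0 ds p (x - t) (y - t) t)
      (fin d0 ds q (x + t) (y - t) t) (fin d0 ds r (x - t) (y + t) t)
      (fin d0 ds u (x + t) (y + t) t)) (Nat.shiftRight s 1)) x y s
    obtain ⟨h1, h2⟩ := recF h
    generalize Nat.shiftRight s 1 = t at h1 h2 ⊢
    obtain rfl : t + t = s := Nat.eq_of_beq_eq_true h1
    obtain ⟨k1, k2, k3, k4⟩ := and4_ok h2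
    exact node_cv h0 (by omega) (by omega) (ip _ _ _ hp (by omega) (by omega) k1)
      (iq _ _ _ hq (by omega) (by omega) k2) (ir _ _ _ hr (by omega) (by omega) k3)
      (iu _ _ _ hu (by omega) (by omega) k4) fun h => (h rfl).elim

end proofs

theorem chkB_sound {S : Sch (Fin 8)} {T : Tab} {q : Bool → Fin 8 → List (ℤ × ℤ)} {ε : ℝ}
    (An : S.Ana) (O : OrcH S T q ε) {d0 : Dk} {ds : List Dk} (h0 : d0.OK S)
    (hd : ∀ d ∈ ds, d.OK S) {A B : ℕ} {l : List (List ℕ)} (hm : ∀ m ∈ l, ∀ n ∈ m, MacOK S T n)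
    (h : chkB d0 ds A B l = true) {a b : ℝ} (ha : a ≤ A / 2 ^ 24) (hb : b ≤ B / 2 ^ 24)
    (hA : A ≤ 2 ^ 27) (hB : B ≤ 2 ^ 27) : S.Emb (Sch.box a b) := by
  obtain ⟨t, ht, e⟩ := insLL_ok l hm SK.emp trivial h
  obtain ⟨e1, e2⟩ := recF e
  obtain ⟨v, -, c⟩ := fin_ok h0 hd ha hb t _ _ _ ht le_rfl le_rfl e1
  have hA' : (A : ℝ) ≤ 2 ^ 27 := by exact_mod_cast hA
  have hB' : (B : ℝ) ≤ 2 ^ 27 := by exact_mod_cast hB
  have c' : ∀ z ∈ S.F ∩ Sch.box a b, z ∈ pts _ := fun z hz => c z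
    ⟨by have := hz.2.1; simp only [pt]; norm_num; linarith,
      by have := hz.2.2; simp only [pt]; norm_num; linarith⟩ hz
  exact fun z hz => ⟨imm_ok _ v z (c' z hz), fun w hw =>
    self_ok An O _ v e2 z (c' z hz) hz.1 w (c' w hw) hw.1⟩

/-- The discs read off the table (`ri` is given separately). -/
def dkOf (T : Tab) (ri : Fin 8 → ℕ) (k : Fin 8) : Dk :=
  ⟨((T.c k).1 + 2 ^ 51).toNat, ((T.c k).2 + 2 ^ 51).toNat, ((T.c (pr8 k)).1 + 2 ^ 51).toNat,
    ((T.c (pr8 k)).2 + 2 ^ 51).toNat, ((T.κ k).1 ^ 2 - (T.κ k).2 ^ 2 + 2 ^ 96).toNat,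
    (2 * (T.κ k).1 * (T.κ k).2 + 2 ^ 96).toNat, ri k⟩

def dkChk (T : Tab) (ri : Fin 8 → ℕ) : Prop :=
  ∀ k, 0 ≤ (T.c k).1 + 2 ^ 51 ∧ 0 ≤ (T.c k).2 + 2 ^ 51 ∧ (T.κ k).1 ^ 2 + (T.κ k).2 ^ 2 ≤ 2 ^ 92 ∧
    ((ri k : ℤ) + 512) ^ 2 ≤ (T.κ k).1 ^ 2 + (T.κ k).2 ^ 2

instance (T : Tab) (ri : Fin 8 → ℕ) : Decidable (dkChk T ri) := by
  unfold dkChk; infer_instance

theorem dkOf_ok {S : Sch (Fin 8)} {T : Tab} {q : Bool → Fin 8 → List (ℤ × ℤ)} {ε : ℝ}
    (O : OrcH S T q ε) {ri : Fin 8 → ℕ} (h : dkChk T ri) (k : Fin 8) : (dkOf T ri k).OK S := by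
  have cast : ∀ {n : ℤ}, 0 ≤ n → ((n.toNat : ℕ) : ℝ) = n := fun hn => by
    exact_mod_cast Int.toNat_of_nonneg hn
  have e1 : ∀ l, pt48 ((T.c l).1 + 2 ^ 51).toNat ((T.c l).2 + 2 ^ 51).toNat = gz 48 (T.c l) :=
    fun l => by
      rw [pt48, cast (h l).1, cast (h l).2.1, gz, eq_div_iff (by norm_num)]
      apply Complex.ext <;> simp [show (2 : ℂ) ^ 48 = ((2 ^ 48 : ℝ) : ℂ) by push_cast; rfl,
        -ofReal_pow] <;> ring
  obtain ⟨-, -, h1, h2⟩ := h k
  have n1 : ‖gz 48 (T.κ k)‖ ^ 2 = (((T.κ k).1 : ℝ) ^ 2 + ((T.κ k).2 : ℝ) ^ 2) / (2 ^ 48) ^ 2 := by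
    rw [norm_gz_sq]
    push_cast
    simp only [Nat.cast_natAbs, Int.cast_abs, sq_abs]
  have h3 : ((T.κ k).1 : ℝ) ^ 2 + ((T.κ k).2 : ℝ) ^ 2 ≤ 2 ^ 92 := by exact_mod_cast h1
  have h4 : ((ri k : ℝ) + 512) ^ 2 ≤ ((T.κ k).1 : ℝ) ^ 2 + ((T.κ k).2 : ℝ) ^ 2 := by
    exact_mod_cast h2
  have n2 : ‖gz 48 (T.κ k)‖ ≤ 1 / 4 := by
    refine abs_le_of_sq_le_sq' ?_ (by positivity) |>.2
    rw [n1, div_le_iff₀ (by positivity)]
    linarith
  have n3 : ((ri k : ℝ) + 512) / 2 ^ 48 ≤ ‖gz 48 (T.κ k)‖ := by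
    refine abs_le_of_sq_le_sq' ?_ (norm_nonneg _) |>.2
    rw [n1, div_pow]
    gcongr
  have n4 := (O.near k).2
  refine ⟨k, ?_, ?_, ?_, ?_⟩
  · exact (congrArg (‖S.c k - ·‖) (e1 k)).trans_le (O.near k).1
  · rw [O.pr]
    exact (congrArg (‖S.c (pr8 k) - ·‖) (e1 _)).trans_le (O.near _).1
  · have e2 : (⟨((dkOf T ri k).kr : ℝ) / 2 ^ 96 - 1, ((dkOf T ri k).ki : ℝ) / 2 ^ 96 - 1⟩ : ℂ) =
        gz 48 (T.κ k) ^ 2 := by
      simp only [dkOf]
      rw [cast (by nlinarith [sq_nonneg (T.κ k).1]),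
        cast (by nlinarith [sq_nonneg ((T.κ k).1 + (T.κ k).2)]), gz, div_pow,
        eq_div_iff (by norm_num)]
      apply Complex.ext <;> simp [show ((2 : ℂ) ^ 48) ^ 2 = ((2 ^ 96 : ℝ) : ℂ) by push_cast; ring,
        -ofReal_pow, pow_two] <;> ring
    rw [e2, sq_sub_sq, norm_mul]
    have n5 : ‖S.κ k + gz 48 (T.κ k)‖ ≤ 1 := by
      rw [show S.κ k + gz 48 (T.κ k) = (S.κ k - gz 48 (T.κ k)) + gz 48 (T.κ k) + gz 48 (T.κ k) by
        ring]
      have : (1 : ℝ) / 2 ^ 40 ≤ 1 / 2 := by norm_num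
      linarith [norm_add₃_le (a := S.κ k - gz 48 (T.κ k)) (b := gz 48 (T.κ k)) (c := gz 48 (T.κ k))]
    exact (mul_le_mul n5 n4 (norm_nonneg _) zero_le_one).trans_eq (one_mul _)
  · have n5 : ‖gz 48 (T.κ k)‖ ≤ ‖S.κ k‖ + ‖S.κ k - gz 48 (T.κ k)‖ := by
      simpa using norm_sub_le (S.κ k) (S.κ k - gz 48 (T.κ k))
    change (ri k : ℝ) / 2 ^ 48 + 1 / 2 ^ 40 ≤ _
    linarith

end Pool.Agent.MP_c434f6_gt.H30.Emb

end

section

/-! Taylor models of degree seven packed into natural numbers (eight digits of 160 bits), and the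
check of one cell.  Fixed point numbers are in units `2⁻⁶⁴`. -/

namespace Pool.Agent.MP_c434f6_gt.H30.Emb

def W : ℕ := 1461501637330902918203684832716283019655932542976

def rep (d : ℕ) : ℕ → ℕ
  | 0 => 0
  | n + 1 => d + W * rep d n

def W8 : ℕ := W ^ 8
def cH : ℕ := rep (2 ^ 159) 16
def cM : ℕ := rep (2 ^ 96 - 1) 8
def cB : ℕ := rep (2 ^ 95) 8
def cC : ℕ := rep (2 ^ 96) 8
def cO : ℕ := rep 1 8
def cD : ℕ := rep (1680 * 2 ^ 148) 8
def U8 : ℕ := W ^ 8 - cB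
def V8 : ℕ := W ^ 8 + cB
def U16 : ℕ := W ^ 16 - cB
def V16 : ℕ := W ^ 16 + cB

def lo (z : ℕ) : ℕ := Nat.land (Nat.shiftRight z 64) cM
def hi (z : ℕ) : ℕ := Nat.land (Nat.shiftRight z 1344) cM
def mac (a b c d : ℕ) : ℕ := Nat.add (Nat.add (Nat.mul a b) (Nat.mul c d)) cH
def mac4 (a b c d e f g h : ℕ) : ℕ :=
  Nat.add (Nat.add (Nat.add (Nat.mul a b) (Nat.mul c d)) (Nat.add (Nat.mul e f) (Nat.mul g h))) cH

/-- Digitwise absolute value, for digits shifted by `2 ^ v`; `m = 2 ^ v - 1`. -/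
def av (v m B y : ℕ) : ℕ :=
  Nat.sub (Nat.add (Nat.mul 2 (Nat.land y (Nat.mul (Nat.land (Nat.shiftRight y v) cO) m))) B) y

def cabs2 (x y : ℕ) : ℕ :=
  Nat.add (Nat.mul 182 (Nat.add x y))
    (Nat.mul 75 (av 96 79228162514264337593543950335 cC (Nat.sub (Nat.add x cC) y)))

/-- Digitwise bound of `256` times the modulus. -/
def cabs (r i : ℕ) : ℕ :=
  cabs2 (av 95 39614081257132168796771975167 cB r) (av 95 39614081257132168796771975167 cB i)

/-- Weights `23 ^ k b ^ (7 - k)` in reverse order, from `k = 8 - n` on. -/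
def wts (b : ℕ) : ℕ → ℕ
  | 0 => 0
  | n + 1 => wts b n + 23 ^ (7 - n) * b ^ n * W ^ n

def w1 : ℕ := wts 16 8
def w2 : ℕ := wts 32 8
def w1t : ℕ := wts 16 7
def w2t : ℕ := wts 32 7

def dot (c w s : ℕ) : ℕ := Nat.succ (Nat.shiftRight (bits (Nat.mul c w) 1120 W) s)

structure C2 where
  r : ℕ
  i : ℕ

def cm (a b g h n : ℕ) : C2 := ⟨lo (mac a g b n), lo (mac a h b g)⟩

/-- Product of a shifted pair with an unshifted one. -/
noncomputable def cmb (p : C2) (g h n : ℕ) : C2 :=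
  C2.rec (fun r i => cm (Nat.add r U8) (Nat.add i U8) g h n) p

def csq3 (a b n : ℕ) : C2 := cm a b a b n

noncomputable def csq (p : C2) : C2 :=
  C2.rec (fun r i => csq3 (Nat.add r U8) (Nat.add i U8) (Nat.sub V8 i)) p

/-- Product of `p` with `1 + x X ^ k`, for `k' = W ^ k`. -/
noncomputable def cm1 (p x : C2) (k : ℕ) : C2 :=
  C2.rec (fun r i => cmb p (Nat.add 18446744073709551616 (Nat.mul (Nat.add r U8) k))
    (Nat.mul (Nat.add i U8) k) (Nat.mul (Nat.sub V8 i) k)) x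

/-! ### The exponential -/

noncomputable def hex (a b n : ℕ) (l : List ℕ) : C2 :=
  List.rec ⟨cB, cB⟩ (fun c _ ih => C2.rec
    (fun r i => cm (Nat.add (Nat.add r U8) c) (Nat.add i U8) a b n) ih) l

def facs : List ℕ := [18446744073709551616, 9223372036854775808, 3074457345618258602,
  768614336404564650, 153722867280912930, 25620477880152155, 3660068268593165]

noncomputable def xpo (a b n : ℕ) : C2 :=
  csq (csq (csq (csq (csq (C2.rec (fun r i => csq3 (Nat.add (Nat.add r U8) 18446744073709551616)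
    (Nat.add i U8) (Nat.sub V8 i)) (hex a b n facs))))))

def K60p : ℕ := W8 + 2 ^ 60
def K60m : ℕ := W8 - 2 ^ 60
def K65p : ℕ := W8 + 2 ^ 65
def K65m : ℕ := W8 - 2 ^ 65
def K95p : ℕ := W8 + 2 ^ 95
def K95m : ℕ := W8 - 2 ^ 95
def K80 : ℕ := U8 - 2 ^ 80

/-- `2 ^ 64 (h / 2) X` for `h = 2 ^ (-j)`, and its negative. -/
def lp (j : ℕ) : ℕ := Nat.mul (Nat.shiftRight 9223372036854775808 j) W
def lm (j : ℕ) : ℕ := Nat.sub (Nat.mul W8 W) (lp j)

noncomputable def exP (j : ℕ) : C2 := hex 0 (lp j) (lm j) facs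
noncomputable def exM (j : ℕ) : C2 := hex 0 (lm j) (lp j) facs

/-! ### Taylor models -/

structure TM where
  r : ℕ
  i : ℕ
  e1 : ℕ
  e2 : ℕ
  n1 : ℕ
  n2 : ℕ
  t2 : ℕ

def mkT2 (r i e1 e2 c : ℕ) : TM := ⟨r, i, e1, e2, dot c w1 36, dot c w2 43, dot c w2t 43⟩

def mkT (r i e1 e2 : ℕ) : TM := mkT2 r i e1 e2 (cabs r i)

def perr (h s na nb ea eb : ℕ) : ℕ :=
  Nat.add (Nat.add (Nat.shiftRight (Nat.mul (Nat.add h 83) 78310985281) s)
    (Nat.shiftRight (Nat.add (Nat.add (Nat.mul na eb) (Nat.mul nb ea)) (Nat.mul ea eb)) 64)) 85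

def tmul3 (a b : TM) (zr zi c : ℕ) : TM :=
  mkT (lo zr) (lo zi) (perr (dot c w1 36) 32 a.n1 b.n1 a.e1 b.e1)
    (perr (dot c w2 43) 40 a.n2 b.n2 a.e2 b.e2)

def tmul2 (a b : TM) (zr zi : ℕ) : TM := tmul3 a b zr zi (cabs (hi zr) (hi zi))

def tmul1 (a b : TM) (ar ai br bi bn : ℕ) : TM := tmul2 a b (mac ar br ai bn) (mac ar bi ai br)

def tmul (a b : TM) : TM :=
  tmul1 a b (Nat.add a.r U16) (Nat.add a.i U16) (Nat.add b.r U16) (Nat.add b.i U16)
    (Nat.sub V16 b.i)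

/-- The lowest digit. -/
def d0 (y : ℕ) : ℕ := Nat.mod y W

def eF2 (p : C2) (j n : ℕ) : TM :=
  mkT p.r p.i
    (Nat.add (Nat.add (Nat.shiftRight n (Nat.add 17 (Nat.mul 8 j))) (Nat.shiftRight n 30)) 100000)
    (Nat.add (Nat.add (Nat.shiftRight n (Nat.add 25 (Nat.mul 8 j))) (Nat.shiftRight n 30)) 100000)

/-- The model of `exp (± i (a + h w) / 2)` from `E ≈ exp (± i a / 2)`, `x ≈ exp (± i h w / 2) - 1`. -/
noncomputable def eF (E x : C2) (j : ℕ) : TM :=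
  eF2 (cm1 E x 1) j (Nat.add (dst (d0 E.r) 39614081257132168796771975168)
    (dst (d0 E.i) 39614081257132168796771975168))

/-! ### The Laurent series -/

/-- Coefficients shifted by `2 ^ 80`, each with a bound of the rest of the list. -/
inductive QL where
  | nil : QL
  | cons (r i A : ℕ) (l : QL) : QL

structure HT where
  r : ℕ
  i : ℕ
  e1 : ℕ
  e2 : ℕ

def herr (a b e t : ℕ) : ℕ :=
  Nat.add (Nat.shiftRight (Nat.add (Nat.mul a e) (Nat.mul b t)) 64) 16777217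

def hst3 (a1 b1 a2 b2 e1 e2 r i t : ℕ) : HT := ⟨r, i, herr a1 b1 e1 t, herr a2 b2 e2 t⟩

def hst2 (a1 b1 a2 b2 e1 e2 r i : ℕ) : HT :=
  hst3 a1 b1 a2 b2 e1 e2 r i
    (Nat.add (Nat.add (dst (Nat.shiftRight r 1120) 39614081257132168796771975168)
      (dst (Nat.shiftRight i 1120) 39614081257132168796771975168)) 16777216)

def hst1 (g h n a1 b1 a2 b2 e1 e2 r i : ℕ) : HT :=
  hst2 a1 b1 a2 b2 e1 e2 (lo (mac r g i n)) (lo (mac r h i g))

noncomputable def hor (g h n a1 b1 a2 b2 ia : ℕ) (l : QL) : ℕ → HT :=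
  QL.rec (fun _ => ⟨cB, cB, 0, 0⟩) (fun qr qi A _ ih t => Bool.rec
    (HT.rec (fun r i e1 e2 => hst1 g h n a1 b1 a2 b2 e1 e2 (Nat.add (Nat.add r K80) qr)
      (Nat.add (Nat.add i K80) qi)) (ih (Nat.shiftRight (Nat.mul t ia) 64)))
    ⟨cB, cB, Nat.succ (Nat.shiftRight (Nat.mul A a1) 64), Nat.succ (Nat.shiftRight (Nat.mul A a2) 64)⟩
    (Nat.ble A t)) l

/-- `c (a - b) / N + 2 ^ 65`, for `N' = 2 ^ 65 N`. -/
def qd (c a b N N' : ℕ) : ℕ := Nat.div (Nat.sub (Nat.add (Nat.mul c a) N') (Nat.mul c b)) N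

noncomputable def ser3 (p x : C2) : C2 := cm1 (cm1 p x (Nat.mul W W)) (csq x) (Nat.pow W 4)

noncomputable def ser2 (dr di xr xi xn : ℕ) : C2 :=
  ser3 (cm dr di (Nat.add 18446744073709551616 (Nat.mul xr W)) (Nat.mul xi W) (Nat.mul xn W))
    (csq3 xr xi xn)

/-- The series of `R / (d + h w)`. -/
noncomputable def ser (dr di xr xi : ℕ) : C2 :=
  ser2 (Nat.add dr K65m) (Nat.add di K65m) (Nat.add xr K65m) (Nat.add xi K65m) (Nat.sub K65p xi)

/-- A disc: centre shifted by `8`, the radii `r` and `ρ + 2⁻¹⁶`, in units `2⁻⁴⁸`; coefficients. -/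
structure Dq where
  cx : ℕ
  cy : ℕ
  R : ℕ
  rh : ℕ
  q1 : QL
  q2 : QL

structure Acc where
  ok : Bool
  f : HT
  g : HT

def hadd (a b : HT) : HT :=
  ⟨Nat.add (Nat.add a.r b.r) U8, Nat.add (Nat.add a.i b.i) U8, Nat.add a.e1 b.e1, Nat.add a.e2 b.e2⟩

noncomputable def disc4 (q1 q2 : QL) (tol : ℕ) (A : Acc) (ok : Bool) (g h n a1 b1 a2 b2 ia : ℕ) :
    Acc :=
  ⟨Bool.rec false A.ok ok, hadd A.f (hor g h n a1 b1 a2 b2 ia q1 (Nat.shiftRight (Nat.mul tol ia) 64)),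
    hadd A.g (hor g h n a1 b1 a2 b2 ia q2 (Nat.shiftRight (Nat.mul tol ia) 64))⟩

noncomputable def disc3 (q1 q2 : QL) (tol : ℕ) (A : Acc) (ok : Bool) (G : C2)
    (R R' t1 t2 k1 k2 : ℕ) : Acc :=
  disc4 q1 q2 tol A ok (Nat.add G.r U8) (Nat.add G.i U8) (Nat.sub V8 G.i)
    (Nat.succ (Nat.div R' t1)) (Nat.succ (Nat.div k1 t1)) (Nat.succ (Nat.div R' t2))
    (Nat.succ (Nat.div k2 t2)) (Nat.div (Nat.shiftLeft t2 64) R)

noncomputable def disc2 (d : Dq) (tol : ℕ) (A : Acc) (ax ay p1 p2 h' k1 k2 R' N N' s : ℕ) : Acc :=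
  disc3 d.q1 d.q2 tol A (Nat.ble (Nat.add d.rh p1) s)
    (ser (qd R' ax d.cx N N') (qd R' d.cy ay N N') (qd h' d.cx ax N N') (qd h' ay d.cy N N'))
    d.R R' (Nat.sub s p1) (Nat.sub s p2) k1 k2

noncomputable def disc1 (d : Dq) (tol : ℕ) (A : Acc) (ax ay p1 p2 h' k1 k2 u v N : ℕ) : Acc :=
  disc2 d tol A ax ay p1 p2 h' k1 k2 (Nat.shiftLeft d.R 64) N (Nat.shiftLeft N 65)
    (sqL N (Nat.add u v))

noncomputable def disc0 (d : Dq) (tol : ℕ) (A : Acc) (ax ay p1 p2 h' k1 k2 u v : ℕ) : Acc :=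
  disc1 d tol A ax ay p1 p2 h' k1 k2 u v (ssq u v)

noncomputable def discs (ds : List Dq) (tol eps ax ay p1 p2 h' k1 k2 : ℕ) : Acc :=
  List.rec ⟨true, ⟨18446744073709551616, 0, eps, eps⟩, ⟨18446744073709551616, 0, eps, eps⟩⟩
    (fun d _ ih => disc0 d tol ih ax ay p1 p2 h' k1 k2 (dst ax d.cx) (dst ay d.cy)) ds

def fT (a : HT) : TM :=
  mkT (lo (Nat.add (Nat.shiftLeft a.r 64) cH)) (lo (Nat.add (Nat.shiftLeft a.i 64) cH))
    (Nat.add a.e1 83) (Nat.add a.e2 83)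

/-! ### The patch -/

noncomputable def nw3 (u0 d1 d2 : ℕ) : Bool :=
  Bool.rec false (Nat.ble (Nat.add (Nat.add d1 d1) 39614081257132168796771975168) u0)
    (Nat.ble (Nat.add (Nat.add d1 d2) 39614081257132168796771975169) u0)

noncomputable def nw2 (ur ui vr vi e : ℕ) : Bool :=
  nw3 (d0 ur)
    (Nat.add (Nat.add (dot (cabs ur ui) w1t 36) (dst (d0 ui) 39614081257132168796771975168)) e)
    (Nat.add (dot (cabs vr vi) w1 36) e)

noncomputable def nw1 (ar ai br bi pr pi qi gr gn gi hi' e : ℕ) : Bool :=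
  nw2 (lo (mac4 ar pr ai pi br gr bi gi)) (lo (mac4 ar qi ai pr br hi' bi gr))
    (lo (mac4 br pr bi qi ar gn ai gi)) (lo (mac4 br pi bi pr ar hi' ai gn)) e

noncomputable def nw0 (a b : TM) (ar ai br bi : ℕ) : Bool :=
  nw1 (Nat.add a.r U8) (Nat.add a.i U8) (Nat.add b.r U8) (Nat.add b.i U8)
    (Nat.add ar K95m) (Nat.add ai K95m) (Nat.sub K95p ai)
    (Nat.add br K95m) (Nat.sub K95p br) (Nat.add bi K95m) (Nat.sub K95p bi)
    (Nat.add (Nat.shiftRight (Nat.mul (Nat.add a.n2 b.n2) (Nat.add a.e1 b.e1)) 64) 84)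

noncomputable def nw (a b : TM) : Bool := nw0 a b (d0 a.r) (d0 a.i) (d0 b.r) (d0 b.i)

/-! ### Increments -/

structure C3 where
  r : ℕ
  i : ℕ
  n : ℕ

def pv2 (a b n r i : ℕ) : C2 :=
  ⟨Nat.mod (Nat.add (Nat.mul r a) (Nat.mul i n)) W8, Nat.mod (Nat.add (Nat.mul r b) (Nat.mul i a)) W8⟩

noncomputable def pv1 (a b n : ℕ) (l : List (ℕ × ℕ)) : C2 :=
  List.rec ⟨0, 0⟩ (fun c _ ih => C2.rec
    (fun r i => pv2 a b n (Nat.add r (Nat.mul c.1 (Nat.pow W c.2))) i) ih) l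

def gs : List (ℕ × ℕ) := [(840 * 256 ^ 7, 7), (420 * 256 ^ 6, 6), (280 * 256 ^ 5, 5),
  (210 * 256 ^ 4, 4), (168 * 256 ^ 3, 3), (140 * 256 ^ 2, 2), (120 * 256, 1), (105, 0)]

/-- The powers of `w = ((x - 256) + (y - 256) i) / 256`, in reverse order. -/
noncomputable def pv (x y : ℕ) : C3 :=
  C2.rec (fun r i => ⟨r, i, Nat.sub W8 i⟩)
    (pv1 (Nat.sub (Nat.add x W8) 256) (Nat.sub (Nat.add y W8) 256) (Nat.sub (Nat.add W8 256) y) gs)

def pvOK (x y : ℕ) : Bool := Nat.ble (ssq (dst x 256) (dst y 256)) 33856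

def inc (a b c d q : ℕ) : ℕ :=
  Nat.div (bits (Nat.add (Nat.add (Nat.mul a b) (Nat.mul c d)) cD) 1120 W) q

/-- The data for increments: `B - A`, `-(A + B)`, `2 C`, the divisor and the shift. -/
structure ID where
  dr : ℕ
  di : ℕ
  sr : ℕ
  si : ℕ
  cr : ℕ
  ci : ℕ
  q : ℕ
  b : ℕ

def inc0 (D : ID) (v : C3) : ℕ := inc D.dr v.r D.di v.n D.q
def inc1 (D : ID) (v : C3) : ℕ := inc D.sr v.i D.si v.r D.q
def inc2 (D : ID) (v : C3) : ℕ := inc D.cr v.r D.ci v.n D.q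

/-- A claim: the point, the three values shifted by `2 ^ 90`, the error. -/
structure Cl where
  x : ℕ
  y : ℕ
  z0 : ℕ
  z1 : ℕ
  z2 : ℕ
  e : ℕ

def near (c z : ℕ) : ℕ :=
  dst (Nat.add (Nat.shiftLeft c 44) 1237937678102138840076517376) z

def leaf1 (D : ID) (z0 z1 z2 v : ℕ) (p : C3) : Bool :=
  Nat.ble (Nat.add (Nat.add (near (bits v 0 268435456) (Nat.add z0 (inc0 D p)))
    (near (bits v 28 268435456) (Nat.add z1 (inc1 D p))))
    (near (bits v 56 268435456) (Nat.add z2 (inc2 D p)))) 35184372088832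

/-- The values at the centres of the leaves; `z0, z1, z2` are those at the centre of the cell
minus `D.b`. -/
noncomputable def leaves (D : ID) (z0 z1 z2 n : ℕ) : ℕ → ℕ → ℕ → ℕ → Bool :=
  Nat.rec (fun x y _ v => leaf1 D z0 z1 z2 v (pv x y))
    (fun n ih x y s v => (fun t w => and4
      (ih (Nat.sub x t) (Nat.sub y t) t v)
      (ih (Nat.add x t) (Nat.sub y t) t (Nat.shiftRight v w))
      (ih (Nat.sub x t) (Nat.add y t) t (Nat.shiftRight v (Nat.mul 2 w)))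
      (ih (Nat.add x t) (Nat.add y t) t (Nat.shiftRight v (Nat.mul 3 w))))
      (Nat.shiftRight s 1) (wid n)) n

/-- Evaluate `x` before going on. -/
noncomputable def frc {α : Type} (x : ℕ) (k : ℕ → α) : α :=
  Nat.rec (k 0) (fun n _ => k (Nat.succ n)) x

def mkCl (D : ID) (x y z0 z1 z2 e : ℕ) (p : C3) : Cl :=
  ⟨x, y, Nat.add z0 (inc0 D p), Nat.add z1 (inc1 D p), Nat.add z2 (inc2 D p), e⟩

/-- Push `n` claims; `x, y` is the point with `w = -1 - i`, `u` the unit. -/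
noncomputable def push (D : ID) (x y u z0 z1 z2 e : ℕ) (k : List Cl → Bool) (n : ℕ) :
    ℕ → List Cl → Bool :=
  Nat.rec (fun _ st => k st) (fun _ ih r st =>
    frc (bits r 0 512) fun a => frc (bits r 9 512) fun b => Bool.rec false
      (ih (Nat.shiftRight r 18) (mkCl D (Nat.add x (Nat.mul a u)) (Nat.add y (Nat.mul b u))
        z0 z1 z2 e (pv a b) :: st)) (pvOK a b)) n

def rad (r x d s e : ℕ) : Bool :=
  Nat.ble (Nat.add (Nat.shiftRight (Nat.add (Nat.mul 16 x) (Nat.mul 23 d)) s) e)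
    (Nat.shiftLeft r 44)

noncomputable def rads (m : ℕ) (ar ai br bi cr ci d dC s e : ℕ) : Bool :=
  and4 (rad (mR0 m) (Nat.add (dst br ar) (dst bi ai)) d s e)
    (rad (mR1 m) (Nat.add (dst (Nat.add br ar) 79228162514264337593543950336)
      (dst (Nat.add bi ai) 79228162514264337593543950336)) d s e)
    (rad (mR2 m) (Nat.mul 2 (Nat.add (dst cr 39614081257132168796771975168)
      (dst ci 39614081257132168796771975168))) (Nat.mul 2 dC) s e) true

noncomputable def cell6 (m r : ℕ) (st : List Cl) (k : List Cl → Bool) (D : ID)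
    (x y u z0 z1 z2 e : ℕ) : Bool :=
  and4 (and4 (Nat.ble 618970019642690137449562112 z0) (Nat.ble 618970019642690137449562112 z1)
      (Nat.ble 618970019642690137449562112 z2) true)
    (leaves D (Nat.sub z0 D.b) (Nat.sub z1 D.b) (Nat.sub z2 D.b) (mN m) 256 256 128 (mV m)) true
    (push D x y u (Nat.sub z0 D.b) (Nat.sub z1 D.b) (Nat.sub z2 D.b) e k (bits r 18 8)
      (Nat.shiftRight r 21) st)

noncomputable def cell5 (m r : ℕ) (c : Cl) (st : List Cl) (k : List Cl → Bool) (D : ID)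
    (x y u e a b : ℕ) (p : C3) : Bool :=
  and4 (pvOK a b) (Nat.beq c.x (Nat.add x (Nat.mul a u))) (Nat.beq c.y (Nat.add y (Nat.mul b u)))
    (cell6 m r st k D x y u (Nat.sub (Nat.add c.z0 D.b) (inc0 D p))
      (Nat.sub (Nat.add c.z1 D.b) (inc1 D p)) (Nat.sub (Nat.add c.z2 D.b) (inc2 D p)) e)

noncomputable def cell4 (m r j : ℕ) (c : Cl) (st : List Cl) (k : List Cl → Bool) (A B C : TM)
    (D : ID) (u e : ℕ) : Bool :=
  and4 (Nat.ble (Nat.mul 256 u) (mX m)) (Nat.ble (Nat.mul 256 u) (mY m))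
    (rads m (d0 A.r) (d0 A.i) (d0 B.r) (d0 B.i) (d0 C.r) (d0 C.i)
      (Nat.add (Nat.add A.t2 A.e2) (Nat.add B.t2 B.e2)) (Nat.add C.t2 C.e2)
      (Nat.add (Nat.add j (mN m)) 6) (Nat.add e 35184372088833))
    (frc (bits r 0 512) fun a => frc (bits r 9 512) fun b =>
      cell5 m r c st k D (Nat.sub (mX m) (Nat.mul 256 u)) (Nat.sub (mY m) (Nat.mul 256 u)) u e a b
        (pv a b))

noncomputable def cell3 (m r j : ℕ) (c : Cl) (st : List Cl) (k : List Cl → Bool) (n : ℕ)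
    (A B C : TM) : Bool :=
  Bool.rec false (cell4 m r j c st k A B C
    ⟨Nat.add (Nat.add B.r U8) (Nat.sub V8 A.r), Nat.add (Nat.add B.i U8) (Nat.sub V8 A.i),
      Nat.add (Nat.sub V8 B.r) (Nat.sub V8 A.r), Nat.add (Nat.sub V8 B.i) (Nat.sub V8 A.i),
      Nat.mul 2 (Nat.add C.r U8), Nat.mul 2 (Nat.add C.i U8),
      Nat.shiftLeft 1680 (Nat.add 64 j), Nat.shiftRight 19342813113834066795298816 j⟩
    (Nat.shiftRight 65536 j)
    (Nat.add c.e (Nat.mul 2 (Nat.add (Nat.shiftRight (Nat.mul 23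
      (Nat.add (Nat.add A.e2 B.e2) (Nat.mul 2 C.e2))) (Nat.add j 6)) 2))))
    (Nat.ble (Nat.add (Nat.add n (Nat.add A.n1 B.n1)) (Nat.mul 2 C.n1)) 151115727451828646838272)

noncomputable def cell2 (m r j : ℕ) (c : Cl) (st : List Cl) (k : List Cl → Bool) (n : ℕ)
    (a b : TM) : Bool :=
  Bool.rec false (cell3 m r j c st k (Nat.add n (Nat.add a.n1 b.n1)) (tmul a a) (tmul b b)
    (tmul a b)) (nw a b)

noncomputable def cell1 (m r j : ℕ) (c : Cl) (st : List Cl) (k : List Cl → Bool)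
    (f g E F : TM) : Bool :=
  cell2 m r j c st k (Nat.add (Nat.add f.n1 g.n1) (Nat.add E.n1 F.n1)) (tmul E f) (tmul F g)

noncomputable def cell0 (m r j : ℕ) (c : Cl) (st : List Cl) (k : List Cl → Bool) (A : Acc)
    (xp xm yp ym : ℕ) : Bool :=
  and4 A.ok (Nat.ble 1 j) true (cell1 m r j c st k (fT A.f) (fT A.g)
    (eF (xpo ym xp xm) (exP j) j) (eF (xpo yp xm xp) (exM j) j))

noncomputable def cell (ds : List Dq) (tol eps m r : ℕ) (c : Cl) (st : List Cl)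
    (k : List Cl → Bool) : Bool :=
  frc (mJ m) fun j => cell0 m r j c st k
    (discs ds tol eps (Nat.mul (mX m) 16777216) (Nat.mul (mY m) 16777216)
      (Nat.shiftRight 404620279021568 j) (Nat.shiftRight 202310139510784 j)
      (Nat.shiftRight 5192296858534827628530496329220096 j)
      (Nat.shiftRight 94672172065662086392688526235795456 j)
      (Nat.shiftRight 369813172131492524971439555608576 j))
    (Nat.add (Nat.mul (mX m) 8589934592) K60m) (Nat.sub K60p (Nat.mul (mX m) 8589934592))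
    (Nat.add (Nat.mul (mY m) 8589934592) K60m) (Nat.sub K60p (Nat.mul (mY m) 8589934592))

noncomputable def clEq (a b : Cl) (k : Bool) : Bool :=
  and4 (and4 (Nat.beq a.x b.x) (Nat.beq a.y b.y) (Nat.beq a.z0 b.z0) (Nat.beq a.z1 b.z1))
    (Nat.beq a.z2 b.z2) (Nat.beq a.e b.e) k

noncomputable def stEq (a : List Cl) : List Cl → Bool :=
  List.rec (fun b => List.rec true (fun _ _ _ => false) b)
    (fun x _ ih b => List.rec false (fun y b _ => clEq x y (ih b)) b) a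

/-- Check the cells `ms` with the records `rs`; the stack of claims goes from `st` to `out`. -/
noncomputable def chkA (ds : List Dq) (tol eps : ℕ) (out : List Cl) (ms : List ℕ) :
    List ℕ → List Cl → Bool :=
  List.rec (fun _ st => stEq st out) (fun m _ ih rs st =>
    List.rec false (fun r rs _ => List.rec false
      (fun c st _ => cell ds tol eps m r c st (ih rs)) st) rs) ms

end Pool.Agent.MP_c434f6_gt.H30.Emb

end
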