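import Mathlib
import Pool.Agent.MP_c434f6_gt.G4.Prim
import Pool.Agent.MP_c434f6_gt.G4.Geom

section

/-! Complex balls on natural numbers: unit `2 ^ 48`, centres shifted by `2 ^ 64`. -/

open Complex
open scoped ComplexConjugate

namespace Pool.Agent.MP_c434f6_gt.H30.W

def cU : ℕ := nat_lit 281474976710656
def cB : ℕ := nat_lit 18446744073709551616

noncomputable def fN {β : Type} (n : ℕ) (k : ℕ → β) : β :=
  Nat.rec (k 0) (fun j _ => k (Nat.succ j)) n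

@[simp] lemma fN_eq {β : Type} (n : ℕ) (k : ℕ → β) : fN n k = k n := by cases n <;> rfl

noncomputable def re' (n : ℕ) : ℝ := n / cU
noncomputable def val (x : ℕ) : ℝ := (x - cB) / cU
noncomputable def pt (x y : ℕ) : ℂ := ⟨val x, val y⟩

lemma U0 : (0 : ℝ) < cU := by norm_num [cU]
lemma re'_nn (n : ℕ) : 0 ≤ re' n := div_nonneg n.cast_nonneg U0.le
@[simp] lemma re'_add' (a b : ℕ) : re' (a + b) = re' a + re' b := by simp [re', add_div]
lemma re'_add (a b : ℕ) : re' (a.add b) = re' a + re' b := re'_add' a b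
lemma re'_le {a b : ℕ} : a.ble b = true ↔ re' a ≤ re' b := by
  simp [re', div_le_div_iff_of_pos_right U0]
lemma re'_lt {a b : ℕ} : a.blt b = true ↔ re' a < re' b := by
  simp [re', div_lt_div_iff_of_pos_right U0]
lemma re'_U : re' cU = 1 := div_self U0.ne'

lemma div_gt (a : ℕ) {b : ℕ} (h : 0 < b) : (a : ℝ) / b < (a.div b : ℕ) + 1 := by
  rw [div_lt_iff₀ (by exact_mod_cast h)]
  exact_mod_cast (Nat.lt_mul_div_succ a h).trans_eq (mul_comm _ _)

/-- product, rounded up -/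
def mu (a b : ℕ) : ℕ := ((a.mul b).div cU).succ

lemma le_mu {a b : ℕ} {x y : ℝ} (hx : x ≤ re' a) (hy : y ≤ re' b) (h0 : 0 ≤ y) :
    x * y ≤ re' (mu a b) := by
  refine (mul_le_mul hx hy h0 (re'_nn a)).trans ?_
  have := div_gt (a.mul b) (b := cU) (by norm_num [cU])
  simp only [re', mu, Nat.mul_eq, Nat.cast_mul, Nat.cast_succ] at *
  rw [div_mul_div_comm, ← div_div]
  exact div_le_div_of_nonneg_right this.le U0.le

def ad (a b : ℕ) : ℕ := (a.sub b).add (b.sub a)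

lemma ad_eq (a b : ℕ) : (ad a b : ℝ) = |(a : ℝ) - b| := by
  simp only [ad, Nat.add_eq, Nat.sub_eq]
  rcases le_total a b with h | h
  · rw [Nat.sub_eq_zero_of_le h, zero_add, Nat.cast_sub h, abs_sub_comm,
      abs_of_nonneg (sub_nonneg.2 (by exact_mod_cast h))]
  · rw [Nat.sub_eq_zero_of_le h, add_zero, Nat.cast_sub h,
      abs_of_nonneg (sub_nonneg.2 (by exact_mod_cast h))]

lemma re'_ad (a b : ℕ) : re' (ad a b) = |val a - val b| := by
  rw [re', ad_eq, val, val, ← sub_div, abs_div, abs_of_pos U0, sub_sub_sub_cancel_right]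

lemma val_B : val cB = 0 := by simp [val]
lemma pt_B : pt cB cB = 0 := by simp [pt, val_B, Complex.ext_iff]

def nw (s m : ℕ) : ℕ := ((m.add (s.div m)).div 2).succ
/-- an upper bound for the square root of `s = u ^ 2 + v ^ 2` -/
def sq' (s u v : ℕ) : ℕ := nw s (nw s (u.add ((v.add (v.sub u)).div 2)).succ)

lemma nw_ge (s : ℕ) {m : ℕ} (h : 0 < m) : (s : ℝ) ≤ (nw s m : ℝ) ^ 2 := by
  have a := div_gt s h
  have b : m + s.div m + 1 ≤ 2 * nw s m := by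
    simp only [nw, Nat.add_eq]; generalize s.div m = t
    show _ ≤ 2 * ((m + t) / 2 + 1); omega
  have b' : (m : ℝ) + (s.div m : ℕ) + 1 ≤ 2 * nw s m := by exact_mod_cast b
  have m0 : (0 : ℝ) < m := by exact_mod_cast h
  have c : (s : ℝ) = m * (s / m) := by field_simp
  have d : (0 : ℝ) ≤ s / m := by positivity
  nlinarith [sq_nonneg (m - (s : ℝ) / m)]

lemma trunc (p n : ℕ) {d : ℕ} (hd : 0 < d) :
    |((p : ℝ) - n) / d - ((p.sub n).div d : ℕ)| ≤ (n.sub p : ℕ) / d + 1 := by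
  have d0 : (0 : ℝ) < d := by exact_mod_cast hd
  have a := div_gt (p.sub n) hd
  have b : (((p.sub n).div d : ℕ) : ℝ) ≤ (p.sub n : ℕ) / d := Nat.cast_div_le
  have c : ((p : ℝ) - n) / d = (p.sub n : ℕ) / d - (n.sub p : ℕ) / d := by
    rw [← sub_div]; congr 1
    rcases le_total p n with h | h <;> simp [Nat.sub_eq_zero_of_le h, Nat.cast_sub h]
  have e : (0 : ℝ) ≤ (n.sub p : ℕ) / d := by positivity
  rw [c, abs_le]; constructor <;> linarith

structure Bl where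
  x : ℕ
  y : ℕ
  r : ℕ

namespace Bl

def mem (a : Bl) (z : ℂ) : Prop := ‖z - pt a.x a.y‖ ≤ re' a.r

noncomputable def frc {β : Type} (a : Bl) (k : Bl → β) : β :=
  fN a.x fun x => fN a.y fun y => fN a.r fun r => k ⟨x, y, r⟩

@[simp] lemma frc_eq {β : Type} (a : Bl) (k : Bl → β) : a.frc k = k a := by simp only [frc, fN_eq]

def mkb (d p₁ n₁ p₂ n₂ r t : ℕ) : Bl :=
  ⟨(p₁.sub n₁).div d, (p₂.sub n₂).div d, (((r.add (n₁.sub p₁)).add (n₂.sub p₂)).div d).add t⟩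
def n1 (a : Bl) : ℕ := (ad a.x cB).add (ad a.y cB)
/-- `a * b + c` -/
def fma (a b c : Bl) : Bl :=
  mkb cU (((a.x.mul b.x).add (cB.mul (a.y.add b.y))).add (c.x.mul cU))
    ((a.y.mul b.y).add (cB.mul (a.x.add b.x)))
    ((((a.x.mul b.y).add (a.y.mul b.x)).add (cB.mul (cB.add cB))).add (c.y.mul cU))
    (cB.mul ((a.y.add b.y).add (a.x.add b.x)))
    ((a.n1.mul b.r).add ((b.n1.add b.r).mul a.r)) (c.r.add 3)
def zero : Bl := ⟨cB, cB, 0⟩
def mul (a b : Bl) : Bl := a.fma b zero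
def add (a b : Bl) : Bl := mkb 1 (a.x.add b.x) cB (a.y.add b.y) cB (a.r.add b.r) 3
def sub (a b : Bl) : Bl := mkb 1 (a.x.add cB) b.x (a.y.add cB) b.y (a.r.add b.r) 3
def cnj (a : Bl) : Bl := mkb 1 a.x 0 (cB.add cB) a.y a.r 3
def mI (a : Bl) : Bl := mkb 1 (cB.add cB) a.y a.x 0 a.r 3
def re (a : Bl) : Bl := ⟨a.x, cB, a.r⟩
def fat (a : Bl) (e : ℕ) : Bl := ⟨a.x, a.y, a.r.add e⟩
def ub (a : Bl) : ℕ := (sq' (((ad a.x cB).mul (ad a.x cB)).add ((ad a.y cB).mul (ad a.y cB)))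
  (ad a.x cB) (ad a.y cB)).add a.r
def pos (a : Bl) (t : ℕ) : Bool := ((cB.add a.r).add t).blt a.x
def neg (a : Bl) (t : ℕ) : Bool := ((a.x.add a.r).add t).blt cB
def cst (n : ℕ) : Bl := ⟨cB.add (cU.div n), cB, 1⟩
noncomputable def ex0 {β : Type} (v : Bl) (k : Bl → β) : β :=
  (v.fma (cst 120) (cst 24)).frc fun a => (v.fma a (cst 6)).frc fun a =>
  (v.fma a (cst 2)).frc fun a => (v.fma a (cst 1)).frc fun a =>
  ((v.fma a (cst 1)).fat (nat_lit 134217728)).frc k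
noncomputable def sq6 {β : Type} (a : Bl) (k : Bl → β) : β :=
  (a.mul a).frc fun a => (a.mul a).frc fun a => (a.mul a).frc fun a => (a.mul a).frc fun a =>
  (a.mul a).frc fun a => (a.mul a).frc k
noncomputable def ex {β : Type} (w : Bl) (k : Bl → β) : β :=
  (w.mul (cst 64)).frc fun v => v.ex0 fun a => a.sq6 k

variable {a b c : Bl} {x y z : ℂ}

lemma mem.cg (h : a.mem x) (e : x = y) : a.mem y := e ▸ h

lemma mem_pt (x y : ℕ) : mem ⟨x, y, 0⟩ (pt x y) := by simp [mem, re']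

lemma mem_mkb {d p₁ n₁ p₂ n₂ r t : ℕ} (hd : 0 < d) {e : ℝ} (he : e + 3 / cU ≤ re' t)
    (h : ‖z - ⟨((p₁ - n₁) / d - cB) / cU, ((p₂ - n₂) / d - cB) / cU⟩‖ ≤ re' r / d + e) :
    (mkb d p₁ n₁ p₂ n₂ r t).mem z := by
  have h1 := div_le_div_of_nonneg_right (trunc p₁ n₁ hd) U0.le
  have h2 := div_le_div_of_nonneg_right (trunc p₂ n₂ hd) U0.le
  have h3 := div_le_div_of_nonneg_right (div_gt ((r.add (n₁.sub p₁)).add (n₂.sub p₂)) hd).le U0.le
  refine (norm_sub_le_norm_sub_add_norm_sub _ _ _).trans ((add_le_add h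
    (norm_le_abs_re_add_abs_im _)).trans ?_)
  simp only [mkb, pt, val, sub_re, sub_im, ← sub_div, sub_sub_sub_cancel_right, abs_div,
    abs_of_pos U0, re'_add]
  simp only [re', Nat.add_eq, Nat.cast_add, add_div] at *
  rw [div_right_comm]
  linarith [show (3 : ℝ) / cU = 1 / cU + 1 / cU + 1 / cU by ring]

lemma n1_ge (a : Bl) : ‖pt a.x a.y‖ ≤ re' a.n1 := by
  simpa [n1, re'_ad, val_B, pt] using norm_le_abs_re_add_abs_im (pt a.x a.y)

lemma re'_3 (n : ℕ) : re' n + 3 / cU ≤ re' (n.add 3) := by simp [re', add_div]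

lemma mem.fma (ha : a.mem x) (hb : b.mem y) (hc : c.mem z) : (a.fma b c).mem (x * y + z) := by
  refine mem_mkb (by norm_num [cU]) (re'_3 _) ?_
  have e : (⟨(((((a.x.mul b.x).add (cB.mul (a.y.add b.y))).add (c.x.mul cU) : ℕ) -
      ((a.y.mul b.y).add (cB.mul (a.x.add b.x)) : ℕ)) / cU - cB) / cU,
      ((((((a.x.mul b.y).add (a.y.mul b.x)).add (cB.mul (cB.add cB))).add (c.y.mul cU) : ℕ) -
      (cB.mul ((a.y.add b.y).add (a.x.add b.x)) : ℕ)) / cU - cB) / cU⟩ : ℂ) =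
      pt a.x a.y * pt b.x b.y + pt c.x c.y := by
    have := U0.ne'
    apply Complex.ext <;> simp [pt, val] <;> field_simp <;> ring
  rw [e, show x * y + z - (pt a.x a.y * pt b.x b.y + pt c.x c.y) = pt a.x a.y * (y - pt b.x b.y) +
    (pt b.x b.y + (y - pt b.x b.y)) * (x - pt a.x a.y) + (z - pt c.x c.y) by ring]
  refine (norm_add_le_of_le (norm_add_le_of_le (norm_mul_le_of_le a.n1_ge hb)
    (norm_mul_le_of_le (norm_add_le_of_le b.n1_ge hb) ha)) hc).trans_eq ?_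
  simp [re']; ring

lemma mem.mul (ha : a.mem x) (hb : b.mem y) : (a.mul b).mem (x * y) :=
  (ha.fma hb (mem_pt _ _)).cg (by simp [pt, val_B, Complex.ext_iff])

lemma re'_3' : 0 + 3 / cU ≤ re' 3 := by simp [re']

lemma mem.add (ha : a.mem x) (hb : b.mem y) : (a.add b).mem (x + y) :=
  mem_mkb one_pos re'_3' (by
    refine (le_of_eq (congrArg _ ?_)).trans ((norm_add_le_of_le ha hb).trans_eq (by simp))
    apply Complex.ext <;> simp [pt, val] <;> ring)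

lemma mem.sub (ha : a.mem x) (hb : b.mem y) : (a.sub b).mem (x - y) :=
  mem_mkb one_pos re'_3' (by
    refine (le_of_eq (congrArg _ ?_)).trans ((norm_sub_le_of_le ha hb).trans_eq (by simp))
    apply Complex.ext <;> simp [pt, val] <;> ring)

lemma mem.cnj (ha : a.mem x) : a.cnj.mem (conj x) :=
  mem_mkb one_pos re'_3' (by
    convert (norm_conj _).trans_le ha using 2
    · apply Complex.ext <;> simp [pt, val]; ring
    · simp)

lemma mem.mI (ha : a.mem x) : a.mI.mem (I * x) :=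
  mem_mkb one_pos re'_3' (by
    refine (le_of_eq (congrArg _ ?_)).trans ((norm_mul_le_of_le norm_I.le ha).trans_eq (by simp))
    apply Complex.ext <;> simp [pt, val]; ring)

lemma mem.re (ha : a.mem x) : a.re.mem x.re := by
  refine le_trans (le_of_eq ?_) ((abs_re_le_norm _).trans ha)
  rw [← Real.norm_eq_abs, ← norm_real]; congr 1
  apply Complex.ext <;> simp [pt, Bl.re, val_B]

lemma mem.fat (ha : a.mem x) {e : ℕ} (h : ‖y - x‖ ≤ re' e) : (a.fat e).mem y := by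
  refine (norm_sub_le_norm_sub_add_norm_sub y x _).trans ((add_le_add h ha).trans_eq ?_)
  simp [Bl.fat, add_comm]

lemma sq'_ge {u v : ℕ} {w : ℂ} (h1 : |w.re| = re' u) (h2 : |w.im| = re' v) :
    ‖w‖ ≤ re' (sq' ((u.mul u).add (v.mul v)) u v) := by
  refine abs_le_of_sq_le_sq' ?_ (re'_nn _) |>.2
  rw [Complex.sq_norm, normSq_apply, ← abs_mul_abs_self w.re, ← abs_mul_abs_self w.im, h1, h2]
  simp only [re', div_pow]
  refine le_trans (le_of_eq ?_) (div_le_div_of_nonneg_right (nw_ge _ (Nat.succ_pos _)) (by positivity))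
  simp; ring

lemma mem.ub (ha : a.mem x) : ‖x‖ ≤ re' a.ub := by
  have := sq'_ge (w := pt a.x a.y) (u := ad a.x cB) (v := ad a.y cB) (by simp [re'_ad, val_B, pt])
    (by simp [re'_ad, val_B, pt])
  rw [Bl.ub, re'_add]
  linarith [norm_sub_norm_le x (pt a.x a.y), show ‖x - _‖ ≤ _ from ha]

lemma mem.pos (ha : a.mem x) {t : ℕ} (h : a.pos t = true) : re' t < x.re := by
  have := (abs_le.1 ((abs_re_le_norm _).trans ha)).1
  rw [Bl.pos, re'_lt] at h
  simp only [re'_add, sub_re, pt, val, sub_div] at h this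
  simp only [re'] at *; linarith

lemma mem.neg (ha : a.mem x) {t : ℕ} (h : a.neg t = true) : x.re < -re' t := by
  have := (abs_le.1 ((abs_re_le_norm _).trans ha)).2
  rw [Bl.neg, re'_lt] at h
  simp only [re'_add, sub_re, pt, val, sub_div] at h this
  simp only [re'] at *; linarith

lemma mem_cst (n : ℕ) (hn : 0 < n) : (cst n).mem (1 / n) := by
  have := trunc cU 0 hn
  have U := U0
  rw [mem, show (1 / n : ℂ) - pt (cst n).x (cst n).y = ((cU / n - cU.div n) / cU : ℝ) by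
    apply Complex.ext <;> simp [pt, val, cst, -ofReal_div, -ofReal_sub]; field_simp, norm_real,
    norm_div, Real.norm_of_nonneg U.le]
  exact div_le_div_of_nonneg_right (by simpa [cst] using this) U.le

lemma mem.ex {β : Type} (ha : a.mem x) (h : ‖x‖ ≤ 16) (k : Bl → β) :
    ∃ b : Bl, b.mem (exp x) ∧ a.ex k = k b := by
  simp only [Bl.ex, ex0, sq6, frc_eq]
  refine ⟨_, ?_, rfl⟩
  have hv := ha.mul (mem_cst 64 (by norm_num))
  have n : ‖x * (1 / (64 : ℕ))‖ ≤ 1 / 4 := by simp; linarith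
  have e : exp x = exp (x * (1 / (64 : ℕ))) ^ 64 := by rw [← exp_nat_mul]; congr 1; simp; ring
  generalize x * _ = v at *
  have := exp_bound (n.trans (by norm_num)) (n := 6) (by norm_num)
  have h1 := (hv.fma (hv.fma (hv.fma (hv.fma (hv.fma (mem_cst 120 (by norm_num))
    (mem_cst 24 (by norm_num))) (mem_cst 6 (by norm_num))) (mem_cst 2 (by norm_num)))
    (mem_cst 1 (by norm_num))) (mem_cst 1 (by norm_num))).fat (e := nat_lit 134217728) (y := exp v) (by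
      refine le_trans (le_of_eq ?_) (this.trans ((mul_le_mul_of_nonneg_right
        (pow_le_pow_left₀ (norm_nonneg _) n 6) (by positivity)).trans
        (by norm_num [re', cU, Nat.factorial])))
      simp [Finset.sum_range_succ, Nat.factorial]; ring_nf)
  have h2 := h1.mul h1
  have h3 := h2.mul h2
  have h4 := h3.mul h3
  have h5 := h4.mul h4
  have h6 := h5.mul h5
  exact (h6.mul h6).cg (by rw [e]; ring)

end Bl

end Pool.Agent.MP_c434f6_gt.H30.W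

end

section

/-! Second order bounds on small discs and the midpoint rule. -/

open Set Filter Topology Metric Complex Asymptotics

namespace Pool.Agent.MP_c434f6_gt.H30

/-- On the disc of radius `δ` about `m`: size `A`, Lipschitz bound `L`, second order bound `M`. -/
def Jet (g : ℂ → ℂ) (m : ℂ) (δ A L M : ℝ) : Prop :=
  0 ≤ M ∧ ∃ g₁ : ℂ, ‖g₁‖ ≤ L ∧ ∀ e : ℂ, ‖e‖ ≤ δ → ‖g (m + e)‖ ≤ A ∧ ‖g (m + e) - g m‖ ≤ L * ‖e‖ ∧
    ‖g (m + e) - g m - g₁ * e‖ ≤ M * ‖e‖ ^ 2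

namespace Jet

variable {g h : ℂ → ℂ} {m : ℂ} {δ A L M A' L' M' : ℝ}

lemma mono (H : Jet g m δ A L M) (h1 : A ≤ A') (h2 : L ≤ L') (h3 : M ≤ M') : Jet g m δ A' L' M' := by
  obtain ⟨m0, g₁, a, b⟩ := H
  refine ⟨m0.trans h3, g₁, a.trans h2, fun e he => ⟨(b e he).1.trans h1, (b e he).2.1.trans ?_,
    (b e he).2.2.trans ?_⟩⟩ <;> gcongr

lemma resup (H : Jet g m δ A L M) (h : ‖g m‖ + L * δ ≤ A') : Jet g m δ A' L M := by
  obtain ⟨m0, g₁, a, b⟩ := H
  refine ⟨m0, g₁, a, fun e he => ⟨?_, (b e he).2⟩⟩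
  have := (norm_nonneg _).trans a
  nlinarith [norm_sub_norm_le (g (m + e)) (g m), (b e he).2.1]

lemma const (c m : ℂ) (δ : ℝ) : Jet (fun _ => c) m δ ‖c‖ 0 0 := ⟨le_rfl, 0, by simp, by simp⟩

lemma add (H : Jet g m δ A L M) (H' : Jet h m δ A' L' M') :
    Jet (fun z => g z + h z) m δ (A + A') (L + L') (M + M') := by
  obtain ⟨m0, g₁, a, b⟩ := H
  obtain ⟨m1, h₁, a', b'⟩ := H'
  refine ⟨by positivity, g₁ + h₁, norm_add_le_of_le a a', fun e he => ⟨norm_add_le_of_le (b e he).1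
    (b' e he).1, ?_, ?_⟩⟩
  · refine (le_of_eq ?_).trans ((norm_add_le_of_le (b e he).2.1 (b' e he).2.1).trans_eq (by ring))
    ring_nf
  · refine (le_of_eq ?_).trans ((norm_add_le_of_le (b e he).2.2 (b' e he).2.2).trans_eq (by ring))
    ring_nf

lemma mul (hδ : 0 ≤ δ) (H : Jet g m δ A L M) (H' : Jet h m δ A' L' M') :
    Jet (fun z => g z * h z) m δ (A * A') (L * A' + A * L') (M * A' + A * M' + L * L') := by
  obtain ⟨m0, g₁, a, b⟩ := H
  obtain ⟨m1, h₁, a', b'⟩ := H'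
  have z := (b 0 (by simpa)).1
  have z' := (b' 0 (by simpa)).1
  rw [add_zero] at z z'
  have := (norm_nonneg _).trans a
  have := (norm_nonneg _).trans a'
  have := (norm_nonneg _).trans z
  have := (norm_nonneg _).trans z'
  refine ⟨by positivity, g₁ * h m + g m * h₁, norm_add_le_of_le (norm_mul_le_of_le a z')
    (norm_mul_le_of_le z a'), fun e he => ?_⟩
  obtain ⟨b1, b2, b3⟩ := b e he
  obtain ⟨c1, c2, c3⟩ := b' e he
  refine ⟨norm_mul_le_of_le b1 c1, ?_, ?_⟩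
  · refine (le_of_eq ?_).trans ((norm_add_le_of_le (norm_mul_le_of_le b2 c1)
      (norm_mul_le_of_le z c2)).trans_eq (by ring))
    ring_nf
  · refine (le_of_eq ?_).trans ((norm_add_le_of_le (norm_add_le_of_le (norm_mul_le_of_le b3 c1)
      (norm_mul_le_of_le z c3)) (norm_mul_le_of_le (norm_mul_le_of_le a (le_refl ‖e‖))
      c2)).trans_eq (by ring))
    ring_nf

lemma ker {c : ℂ} {r D : ℝ} (hr : 0 ≤ r) (hδ : 0 ≤ δ) (hD : 0 < D) (h : D + δ ≤ ‖m - c‖) :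
    Jet (fun z => r / (z - c)) m δ (r / D) (r / D ^ 2) (r / D ^ 3) := by
  have n0 : D ≤ ‖m - c‖ := by linarith
  have w0 : m - c ≠ 0 := norm_pos_iff.1 (hD.trans_le n0)
  refine ⟨by positivity, -(r / (m - c) ^ 2), ?_, fun e he => ?_⟩
  · rw [norm_neg, norm_div, norm_pow, norm_real, Real.norm_of_nonneg hr]; gcongr
  have n1 : D ≤ ‖m + e - c‖ := by
    have := norm_sub_le (m + e - c) e
    rw [show m + e - c - e = m - c by ring] at this; linarith
  have w1 : m + e - c ≠ 0 := norm_pos_iff.1 (hD.trans_le n1)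
  refine ⟨?_, ?_, ?_⟩
  · rw [norm_div, norm_real, Real.norm_of_nonneg hr]; gcongr
  · rw [show r / (m + e - c) - r / (m - c) = -(r / ((m + e - c) * (m - c)) * e) by field_simp; ring,
      norm_neg, norm_mul, norm_div, norm_mul, norm_real, Real.norm_of_nonneg hr, sq]
    gcongr
  · rw [show r / (m + e - c) - r / (m - c) - -(r / (m - c) ^ 2) * e =
      r / ((m - c) ^ 2 * (m + e - c)) * e ^ 2 by field_simp; ring, norm_mul, norm_div, norm_mul,
      norm_pow, norm_pow, norm_real, Real.norm_of_nonneg hr, pow_succ D 2]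
    gcongr

lemma poly {c : ℂ} {r D a : ℝ} (hr : 0 ≤ r) (hδ : 0 ≤ δ) (hD : r < D) (h : D + δ ≤ ‖m - c‖)
    (ha : 0 ≤ a) : ∀ l : List (ℤ × ℤ), (∀ x ∈ l, ‖gz 64 x‖ ≤ a) → Jet (fun z => hq l (r / (z - c)))
      m δ (a * r / (D - r)) (a * r / (D - r) ^ 2) (a * r / (D - r) ^ 3) := by
  have : 0 < D - r := sub_pos.2 hD
  have : 0 < D := hr.trans_lt hD
  intro l hl
  induction l with
  | nil => exact (const 0 m δ).mono (by simp; positivity) (by positivity) (by positivity)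
  | cons x l ih =>
    refine ((ker hr hδ this h).mul hδ (((const (gz 64 x) m δ).mono (hl x (by simp)) le_rfl
      le_rfl).add (ih fun y hy => hl y (by simp [hy])))).mono ?_ ?_ ?_ <;> apply le_of_eq <;>
      field_simp <;> ring

lemma ex {b : ℂ} (hb : ‖b‖ = 1) (h0 : 0 ≤ δ) (hδ : δ ≤ 1)
    (h : ‖exp (b * m)‖ * (1 + 2 * δ) ≤ A) :
    Jet (fun z => exp (b * z)) m δ A A A := by
  have k (e : ℂ) (he : ‖e‖ ≤ δ) : ‖exp (b * e) - 1 - b * e‖ ≤ ‖e‖ ^ 2 := by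
    simpa [hb] using norm_exp_sub_one_sub_id_le (x := b * e) (by simpa [hb] using he.trans hδ)
  have p := norm_nonneg (exp (b * m))
  have q : ‖exp (b * m)‖ ≤ A := by nlinarith
  refine ⟨p.trans q, exp (b * m) * b, by simpa [hb], fun e he => ?_⟩
  have k1 := k e he
  have n := norm_nonneg e
  have k2 : ‖exp (b * e) - 1‖ ≤ (1 + δ) * ‖e‖ := by
    have := norm_sub_norm_le (exp (b * e) - 1) (b * e)
    rw [norm_mul, hb] at this; nlinarith
  have k3 : ‖exp (b * e)‖ ≤ 1 + 2 * δ := by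
    have := norm_sub_norm_le (exp (b * e)) 1
    rw [norm_one] at this; nlinarith
  simp only [mul_add, exp_add]
  refine ⟨(norm_mul_le_of_le le_rfl k3).trans h, ?_, ?_⟩
  · rw [← mul_sub_one]
    exact (norm_mul_le_of_le le_rfl k2).trans (by nlinarith [mul_nonneg p n])
  · rw [← mul_sub_one, mul_assoc, ← mul_sub]
    exact norm_mul_le_of_le q k1

lemma small {R ε : ℝ} (hR : δ < R) (h0 : 0 < R) (hg : DifferentiableOn ℂ g (ball m R))
    (hε : ∀ z ∈ ball m R, ‖g z‖ ≤ ε) : Jet g m δ ε (2 * ε / R) (4 * ε / R ^ 2) := by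
  have c := mem_ball_self (x := m) h0
  have e0 := (norm_nonneg _).trans (hε m c)
  have h2 : MapsTo g (ball m R) (closedBall (g m) (2 * ε)) := fun y hy =>
    mem_closedBall_iff_norm.2 ((norm_sub_le_of_le (hε y hy) (hε m c)).trans_eq (by ring))
  have hD := norm_deriv_le_div_of_mapsTo_ball hg h2 h0
  refine ⟨by positivity, deriv g m, hD, fun e he => ?_⟩
  have b : m + e ∈ ball m R := by simpa using he.trans_lt hR
  refine ⟨hε _ b, by simpa [dist_eq_norm] using dist_le_div_mul_dist_of_mapsTo_ball hg h2 b, ?_⟩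
  have := dist_le_mul_div_pow_of_mapsTo_ball_of_isLittleO (n := 1) (R₂ := 4 * ε)
    (f := fun y => g y - g m - deriv g m * (y - m)) (by fun_prop) (fun y hy => by
      simp only [mem_closedBall_iff_norm, sub_self, mul_zero, sub_zero]
      refine (norm_sub_le_of_le (mem_closedBall_iff_norm.1 (h2 hy)) (norm_mul_le_of_le hD
        (mem_ball_iff_norm.1 hy).le)).trans_eq (by field_simp; ring)) (by
      simpa [mul_comm] using (hasDerivAt_iff_isLittleO.1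
        (hg.differentiableAt (ball_mem_nhds m h0)).hasDerivAt).norm_right) b
  simp only [sub_self, mul_zero, dist_eq_norm, add_sub_cancel_left, sub_zero] at this
  exact this.trans_eq (by ring)

end Jet

/-- The midpoint rule. -/
lemma midp {E : Type} [NormedAddCommGroup E] [NormedSpace ℝ E] {ψ φ : ℝ → E} {φ₀ φ₁ : E} {K₁ K₂ : ℝ}
    (hd : ∀ θ ∈ Icc (-1 : ℝ) 1, HasDerivAt ψ (φ θ) θ) (h1 : ‖φ₁‖ ≤ K₁) (h0 : 0 ≤ K₂)
    (h2 : ∀ θ ∈ Icc (-1 : ℝ) 1, ‖φ θ - φ₀ - θ • φ₁‖ ≤ K₂ * θ ^ 2) :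
    ‖ψ 1 - (ψ (-1) + φ₀ + φ₀)‖ ≤ K₂ * (2 / 3) ∧
      ∀ θ ∈ Icc (-1 : ℝ) 1, ‖ψ θ - (ψ (-1) + φ₀) - θ • φ₀‖ ≤ K₁ / 2 + K₂ := by
  have d (θ) (hθ : θ ∈ Icc (-1 : ℝ) 1) : HasDerivAt
      (fun θ => ψ θ - (ψ (-1) + φ₀) - θ • φ₀ - ((θ ^ 2 - 1) / 2) • φ₁) (φ θ - φ₀ - θ • φ₁) θ := by
    refine ((((hd θ hθ).sub_const _).sub ((hasDerivAt_id θ).smul_const φ₀)).sub
      ((((hasDerivAt_pow 2 θ).sub_const 1).div_const 2).smul_const φ₁)).congr_deriv ?_
    simp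
  have k := image_norm_le_of_norm_deriv_right_le_deriv_boundary
    (fun θ hθ => (d θ hθ).continuousAt.continuousWithinAt)
    (fun θ hθ => (d θ (Ico_subset_Icc_self hθ)).hasDerivWithinAt)
    (B := fun θ => K₂ * ((θ ^ 3 + 1) / 3)) (B' := fun θ => K₂ * θ ^ 2) (by norm_num)
    (fun θ => ((((hasDerivAt_pow 3 θ).add_const 1).div_const 3).const_mul K₂).congr_deriv (by
      simp)) fun θ hθ => h2 θ (Ico_subset_Icc_self hθ)
  refine ⟨?_, fun θ hθ => ?_⟩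
  · have := k (right_mem_Icc.2 (by norm_num))
    norm_num at this
    rwa [← sub_sub]
  · have a := k hθ
    have b := norm_sub_norm_le (ψ θ - (ψ (-1) + φ₀) - θ • φ₀) (((θ ^ 2 - 1) / 2) • φ₁)
    have c : θ ^ 2 ≤ 1 := by nlinarith [hθ.1, hθ.2]
    rw [norm_smul, Real.norm_of_nonpos (by linarith)] at b
    have : θ ^ 3 ≤ 1 := by nlinarith [hθ.1, hθ.2, sq_nonneg θ]
    nlinarith [norm_nonneg φ₁, sq_nonneg θ]

end Pool.Agent.MP_c434f6_gt.H30

end

section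

/-! Enclosures of the two spinors on a small disc. -/

open Complex Metric Set

namespace Pool.Agent.MP_c434f6_gt.H30.W

open Bl

noncomputable def wq : List (ℤ × ℤ) → ℂ → ℂ
  | [], _ => 0
  | a :: l, x => x * wq l x + gz 64 a

lemma hq_eq (x : ℂ) : ∀ l, hq l x = x * wq l x
  | [] => by simp [hq, wq]
  | a :: l => by rw [hq, wq, hq_eq x l, add_comm]

lemma wq_le {x : ℂ} (hx : ‖x‖ ≤ 1 / 2) {a : ℝ} (ha : 0 ≤ a) :
    ∀ l : List (ℤ × ℤ), (∀ y ∈ l, ‖gz 64 y‖ ≤ a) → ‖wq l x‖ ≤ a + a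
  | [], _ => by simp [wq]; positivity
  | y :: l, h => (norm_add_le_of_le (norm_mul_le_of_le hx (wq_le hx ha l fun z hz =>
      h z (by simp [hz]))) (h y (by simp))).trans_eq (by ring)

def toB (a : ℤ × ℤ) : Bl :=
  mkb 65536 (a.1.toNat.add (cB.mul 65536)) (-a.1).toNat (a.2.toNat.add (cB.mul 65536)) (-a.2).toNat 0 3

lemma toNat_sub (a : ℤ) : (a.toNat : ℝ) = a + (-a).toNat := by
  exact_mod_cast congr(($(sub_eq_iff_eq_add.1 (Int.toNat_sub_toNat_neg a)) : ℝ))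

lemma mem_toB (a : ℤ × ℤ) : (toB a).mem (gz 64 a) :=
  mem_mkb (by norm_num) re'_3' (le_of_eq (by
    simp only [re', Nat.cast_zero, zero_div, add_zero, norm_eq_zero, sub_eq_zero]
    apply Complex.ext <;> simp [gz, toNat_sub a.1, toNat_sub a.2, cU, ← ofReal_ofNat, ← ofReal_pow] <;>
      ring))

def mx : List (ℤ × ℤ) → ℕ
  | [] => 0
  | a :: l => max (toB a).ub (mx l)

lemma le_mx : ∀ l : List (ℤ × ℤ), ∀ y ∈ l, ‖gz 64 y‖ ≤ re' (mx l)
  | a :: l, y, h => by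
    rcases List.mem_cons.1 h with rfl | h
    · exact (mem_toB _).ub.trans (re'_le.1 (by simp [mx]))
    · exact (le_mx l y h).trans (re'_le.1 (by simp [mx]))

noncomputable def hB (u : Bl) (t : ℕ) (l : List Bl) : (Bl → Bool) → Bool :=
  List.rec (fun k => k ⟨cB, cB, t⟩) (fun a _ ih k => ih fun v => (u.fma v a).frc k) l

lemma hB_nil (u t k) : hB u t [] k = k ⟨cB, cB, t⟩ := rfl

lemma hB_cons (u t a l k) : hB u t (a :: l) k = hB u t l fun v => k (u.fma v a) :=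
  (show _ = hB u t l fun v => (u.fma v a).frc k by unfold hB; rfl).trans
    (congrArg _ (funext fun _ => frc_eq _ _))

lemma hB_ok {u : Bl} {x : ℂ} (hu : u.mem x) (hx : ‖x‖ ≤ 1 / 2) (n : ℕ) : ∀ (l : List (ℤ × ℤ)) {k},
    hB u ((mx (l.drop n)).add (mx (l.drop n))) ((l.take n).map toB) k = true →
      ∃ v : Bl, v.mem (wq l x) ∧ k v = true := by
  have z (l : List (ℤ × ℤ)) : mem ⟨cB, cB, (mx l).add (mx l)⟩ (wq l x) := by
    simpa [mem, pt_B] using wq_le hx (re'_nn _) l (le_mx l)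
  induction n with
  | zero =>
    intro l k h
    rw [List.take_zero, List.map_nil, hB_nil, List.drop_zero] at h
    exact ⟨_, z l, h⟩
  | succ n ih =>
    rintro (_ | ⟨a, l⟩) k h
    · rw [List.take_nil, List.map_nil, hB_nil, List.drop_nil] at h
      exact ⟨_, z [], h⟩
    · rw [List.take_succ_cons, List.map_cons, hB_cons, List.drop_succ_cons] at h
      obtain ⟨v, h1, h2⟩ := ih l h
      exact ⟨_, hu.fma h1 (mem_toB a), h2⟩

structure Dc where
  x : ℕ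
  y : ℕ
  r : ℕ
  ρ : ℕ
  a1 : ℕ
  a2 : ℕ
  t1 : ℕ
  t2 : ℕ
  p1 : List Bl
  p2 : List Bl

structure Ac where
  f1 : Bl
  f2 : Bl
  l1 : ℕ
  m1 : ℕ
  l2 : ℕ
  m2 : ℕ
  D : ℕ

def mn (a b : ℕ) : ℕ := a.sub (a.sub b)

lemma mn_le (a b : ℕ) : mn a b ≤ a ∧ mn a b ≤ b := by simp only [mn, Nat.sub_eq]; omega

noncomputable def ev1 (x y δ : ℕ) (d : Dc) (a : Ac) (k : Ac → Bool) : Bool :=
  fN (ad x d.x) fun u => fN (ad y d.y) fun v => fN ((u.mul u).add (v.mul v)) fun N =>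
  fN (N.div (sq' N u v)) fun D =>
  ((((d.ρ.add δ).add (cU.div 64)).ble D).and (((d.r.add d.r).add δ).blt D)).and
  ((mkb N ((cB.mul N).add ((d.r.mul cU).mul x)) ((d.r.mul cU).mul d.x)
    ((cB.mul N).add ((d.r.mul cU).mul d.y)) ((d.r.mul cU).mul y) 0 3).frc fun w =>
  fN ((cU.mul cU).div ((D.sub δ).sub d.r)).succ fun Y => fN (mu Y Y) fun Y2 => fN (mu Y2 Y) fun Y3 =>
  hB w d.t1 d.p1 fun w1 => hB w d.t2 d.p2 fun w2 =>
  (w.fma w1 a.f1).frc fun f1 => (w.fma w2 a.f2).frc fun f2 =>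
  fN (a.l1.add (mu d.a1 Y2)) fun l1 => fN (a.m1.add (mu d.a1 Y3)) fun m1 =>
  fN (a.l2.add (mu d.a2 Y2)) fun l2 => fN (a.m2.add (mu d.a2 Y3)) fun m2 =>
  fN (mn a.D D) fun D' => k ⟨f1, f2, l1, m1, l2, m2, D'⟩)

variable (T : Tab) (q : Bool → Fin 8 → List (ℤ × ℤ)) (n : Fin 8 → ℕ)

def dc (l : Fin 8) : Dc where
  x := ((T.c l).1 + cB).toNat
  y := ((T.c l).2 + cB).toNat
  r := (T.r l).mul 4294967296
  ρ := (T.ρ l).succ.mul 4294967296
  a1 := mu (mx (q true l)) ((T.r l).mul 4294967296)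
  a2 := mu (mx (q false l)) ((T.r l).mul 4294967296)
  t1 := (mx ((q true l).drop (n l))).add (mx ((q true l).drop (n l)))
  t2 := (mx ((q false l).drop (n l))).add (mx ((q false l).drop (n l)))
  p1 := ((q true l).take (n l)).map toB
  p2 := ((q false l).take (n l)).map toB

noncomputable def tm (j : Bool) (l : Fin 8) (z : ℂ) : ℂ :=
  hq (q j l) ((T.r l : ℂ) / 2 ^ 16 / (z - gz 48 (T.c l)))

def Ac.ok (a : Ac) (g1 g2 : ℂ → ℂ) (m : ℂ) (δ : ℝ) : Prop :=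
  a.f1.mem (g1 m) ∧ a.f2.mem (g2 m) ∧ (∃ A, Jet g1 m δ A (re' a.l1) (re' a.m1)) ∧
    ∃ A, Jet g2 m δ A (re' a.l2) (re' a.m2)

variable {T q n}

lemma lo_le {u v : ℕ} {w : ℂ} (h1 : |w.re| = re' u) (h2 : |w.im| = re' v) :
    re' (((u.mul u).add (v.mul v)).div (sq' ((u.mul u).add (v.mul v)) u v)) ≤ ‖w‖ := by
  have a := sq'_ge h1 h2
  have b : ‖w‖ ^ 2 = re' ((u.mul u).add (v.mul v)) / cU := by
    rw [Complex.sq_norm, normSq_apply, ← abs_mul_abs_self w.re, ← abs_mul_abs_self w.im, h1, h2]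
    simp [re']; ring
  have c : 0 < sq' ((u.mul u).add (v.mul v)) u v := Nat.succ_pos _
  generalize sq' _ u v = s at *
  generalize (u.mul u).add (v.mul v) = N at *
  have d : ((N.div s : ℕ) : ℝ) ≤ N / s := Nat.cast_div_le
  have s0 : (0 : ℝ) < s := by exact_mod_cast c
  have U := U0
  rw [re', le_div_iff₀ U] at a
  rw [re', div_div, eq_div_iff (by positivity)] at b
  rw [le_div_iff₀ s0, ← b] at d
  rw [re', div_le_iff₀ U]
  nlinarith [mul_nonneg (norm_nonneg w) U.le]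

lemma ev1_ok {x y δ : ℕ} {l : Fin 8} {a : Ac} {k : Ac → Bool} {g1 g2 : ℂ → ℂ}
    (hc : 0 ≤ (T.c l).1 + cB ∧ 0 ≤ (T.c l).2 + cB) (ha : a.ok g1 g2 (pt x y) (re' δ))
    (h : ev1 x y δ (dc T q n l) a k = true) : ∃ b : Ac, k b = true ∧
      b.ok (fun z => g1 z + tm T q true l z) (fun z => g2 z + tm T q false l z) (pt x y) (re' δ) ∧
      b.D ≤ a.D ∧ re' b.D ≤ ‖pt x y - gz 48 (T.c l)‖ ∧
      ((T.ρ l : ℝ) + 1) / 2 ^ 16 + re' δ + 1 / 64 ≤ ‖pt x y - gz 48 (T.c l)‖ := by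
  have e1 : gz 48 (T.c l) = pt (dc T q n l).x (dc T q n l).y := by
    have a1 := congr(($(Int.toNat_of_nonneg hc.1) : ℝ))
    have a2 := congr(($(Int.toNat_of_nonneg hc.2) : ℝ))
    push_cast at a1 a2
    apply Complex.ext <;> simp [gz, pt, val, dc, a1, a2, cU, ← ofReal_ofNat, ← ofReal_pow] <;> norm_num
  have e2 : ((T.r l : ℂ) / 2 ^ 16) = re' (dc T q n l).r := by simp [re', dc, cU]; ring
  have e3 : ((T.ρ l : ℝ) + 1) / 2 ^ 16 = re' (dc T q n l).ρ := by simp [re', dc, cU]; ring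
  have e4 : re' (cU.div 64) = 1 / 64 := by
    rw [show cU.div 64 = 4398046511104 by decide +kernel]; norm_num [re', cU]
  have b1 (j) := le_mx (q j l)
  have b2 : re' (mx (q true l)) * re' (dc T q n l).r ≤ re' (dc T q n l).a1 ∧
      re' (mx (q false l)) * re' (dc T q n l).r ≤ re' (dc T q n l).a2 :=
    ⟨le_mu le_rfl le_rfl (re'_nn _), le_mu le_rfl le_rfl (re'_nn _)⟩
  have b3 {w x k} hw hx (h : hB w (dc T q n l).t1 (dc T q n l).p1 k = true) :=
    hB_ok (u := w) (x := x) hw hx (n l) (q true l) h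
  have b4 {w x k} hw hx (h : hB w (dc T q n l).t2 (dc T q n l).p2 k = true) :=
    hB_ok (u := w) (x := x) hw hx (n l) (q false l) h
  simp only [tm, e1, e2, e3]
  generalize dc T q n l = d at *
  simp only [ev1, fN_eq, frc_eq, Bool.and_eq_true, re'_le, re'_lt, re'_add, e4] at h
  obtain ⟨⟨h1, h2⟩, h3⟩ := h
  have lo := lo_le (w := pt x y - pt d.x d.y) (u := ad x d.x) (v := ad y d.y) (by simp [re'_ad, pt])
    (by simp [re'_ad, pt])
  have eN : (((ad x d.x).mul (ad x d.x)).add ((ad y d.y).mul (ad y d.y)) : ℕ) =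
      ((x : ℝ) - d.x) ^ 2 + ((y : ℝ) - d.y) ^ 2 := by simp [ad_eq, sq]
  generalize ((ad x d.x).mul (ad x d.x)).add ((ad y d.y).mul (ad y d.y)) = N at *
  generalize hD : N.div _ = D at *
  have r0 := re'_nn d.r
  have d0 := re'_nn δ
  have N0 : 0 < N := Nat.pos_of_ne_zero fun e => by
    have : D = 0 := by rw [← hD, e]; exact Nat.zero_div _
    simp only [this, re', Nat.cast_zero, zero_div] at h2 r0 d0; linarith
  have hw : (mkb N ((cB.mul N).add ((d.r.mul cU).mul x)) ((d.r.mul cU).mul d.x) ((cB.mul N).add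
      ((d.r.mul cU).mul d.y)) ((d.r.mul cU).mul y) 0 3).mem (re' d.r / (pt x y - pt d.x d.y)) := by
    refine mem_mkb N0 re'_3' (le_of_eq ?_)
    have : (N : ℝ) ≠ 0 := by positivity
    have U := U0.ne'
    have e : normSq (pt x y - pt d.x d.y) = N / cU ^ 2 := by
      simp [normSq_apply, pt, val, eN]; field_simp; ring
    simp only [re', Nat.cast_zero, zero_div, add_zero, norm_eq_zero, sub_eq_zero]
    apply Complex.ext <;> simp [div_re, div_im, e, -ofReal_div] <;> simp [pt, val] <;> field_simp <;>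
      ring
  have hx : ‖re' d.r / (pt x y - pt d.x d.y)‖ ≤ 1 / 2 := by
    rw [norm_div, norm_real, Real.norm_of_nonneg r0, div_le_iff₀ (by linarith)]; linarith
  obtain ⟨w1, c1, h3⟩ := b3 hw hx h3
  obtain ⟨w2, c2, h3⟩ := b4 hw hx h3
  have hY : 1 / (re' D - re' δ - re' d.r) ≤ re' ((cU.mul cU).div ((D.sub δ).sub d.r)).succ := by
    have lt : d.r + δ < D := by
      have : (d.r.add δ).blt D = true := re'_lt.2 (by rw [re'_add]; linarith)
      simpa using this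
    have := div_gt (cU.mul cU) (b := (D.sub δ).sub d.r) (by simp; omega)
    have U := U0
    rw [show (((D.sub δ).sub d.r : ℕ) : ℝ) = (re' D - re' δ - re' d.r) * cU by
      simp only [Nat.sub_eq, re']; rw [Nat.cast_sub (by omega), Nat.cast_sub (by omega)]
      field_simp] at this
    refine (le_div_iff₀ U).2 ((le_of_eq ?_).trans (this.le.trans_eq (Nat.cast_succ _).symm))
    simp; field_simp
  generalize Nat.succ _ = Y at *
  have p : 0 < re' D - re' δ - re' d.r := by linarith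
  have hY2 := le_mu hY hY (by positivity)
  have hY3 := le_mu hY2 hY (by positivity)
  have J (j) := Jet.poly (m := pt x y) (c := pt d.x d.y) (D := re' D - re' δ) r0 d0 (by linarith)
    (by linarith) (re'_nn _) _ (b1 j)
  obtain ⟨a1, a2, ⟨A1, a3⟩, A2, a4⟩ := ha
  refine ⟨_, h3, ⟨(hw.fma c1 a1).cg (by simp only [hq_eq, add_comm]), (hw.fma c2 a2).cg (by
    simp only [hq_eq, add_comm]), ⟨_, (a3.add (J true)).mono le_rfl ?_ ?_⟩, _,
    (a4.add (J false)).mono le_rfl ?_ ?_⟩, (mn_le _ _).1,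
    (re'_le.1 (Nat.ble_eq ▸ (mn_le _ _).2)).trans lo, h1.trans lo⟩ <;> rw [re'_add] <;> gcongr
  · exact le_trans (le_of_eq (by field_simp)) (le_mu b2.1 hY2 (by positivity))
  · exact le_trans (le_of_eq (by field_simp)) (le_mu b2.1 hY3 (by positivity))
  · exact le_trans (le_of_eq (by field_simp)) (le_mu b2.2 hY2 (by positivity))
  · exact le_trans (le_of_eq (by field_simp)) (le_mu b2.2 hY3 (by positivity))

noncomputable def evL (x y δ : ℕ) (ds : List Dc) : Ac → (Ac → Bool) → Bool :=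
  List.rec (fun a k => k a) (fun d _ ih a k => ev1 x y δ d a fun b => ih b k) ds

def pos' (T : Tab) : Prop := ∀ l, 0 ≤ (T.c l).1 + cB ∧ 0 ≤ (T.c l).2 + cB

lemma evL_ok {x y δ : ℕ} (hc : pos' T) {k : Ac → Bool} (ls : List (Fin 8)) :
    ∀ {a : Ac} {g1 g2 : ℂ → ℂ}, a.ok g1 g2 (pt x y) (re' δ) →
      evL x y δ (ls.map (dc T q n)) a k = true → ∃ b : Ac, k b = true ∧
      b.ok (fun z => g1 z + (ls.map fun l => tm T q true l z).sum)
        (fun z => g2 z + (ls.map fun l => tm T q false l z).sum) (pt x y) (re' δ) ∧ b.D ≤ a.D ∧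
      ∀ l ∈ ls, re' b.D ≤ ‖pt x y - gz 48 (T.c l)‖ ∧
        ((T.ρ l : ℝ) + 1) / 2 ^ 16 + re' δ + 1 / 64 ≤ ‖pt x y - gz 48 (T.c l)‖ := by
  induction ls with
  | nil => exact fun ha h => ⟨_, h, by simpa using ha, le_rfl, by simp⟩
  | cons l ls ih =>
    intro a g1 g2 ha h
    have e (d ds) : evL x y δ (d :: ds) a k = ev1 x y δ d a fun b => evL x y δ ds b k := by
      unfold evL; rfl
    rw [List.map_cons, e] at h
    obtain ⟨b, h1, h2, h3, h4⟩ := ev1_ok (hc l) ha h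
    obtain ⟨c, h5, h6, h7, h8⟩ := ih h2 h1
    refine ⟨c, h5, by simpa [add_assoc] using h6, h7.trans h3, List.forall_mem_cons.2 ⟨⟨?_, h4.2⟩, h8⟩⟩
    exact (re'_le.1 (Nat.ble_eq ▸ h7)).trans h4.1

structure Ev extends Ac where
  s1 : ℕ
  s2 : ℕ

def one : Bl := ⟨cB.add cU, cB, 0⟩

lemma mem_one : one.mem 1 := (mem_pt _ _).cg (by
  apply Complex.ext <;> simp [pt, val, div_self U0.ne'])

noncomputable def evA (ds : List Dc) (x y δ : ℕ) (k : Ev → Bool) : Bool :=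
  evL x y δ ds ⟨one, one, 0, 0, 0, 0, cB⟩ fun a =>
  (a.f1.fat 67108864).frc fun f1 => (a.f2.fat 67108864).frc fun f2 =>
  fN (a.l1.add 8589934592) fun l1 => fN (a.l2.add 8589934592) fun l2 =>
  fN (f1.ub.add (mu l1 δ)) fun s1 => fN (f2.ub.add (mu l2 δ)) fun s2 =>
  k ⟨⟨f1, f2, l1, a.m1.add 1099511627776, l2, a.m2.add 1099511627776, a.D⟩, s1, s2⟩

structure Ev.ok (e : Ev) (S : Sch (Fin 8)) (T : Tab) (m : ℂ) (δ : ℝ) : Prop where
  f1 : e.f1.mem (S.σ1 m)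
  f2 : e.f2.mem (S.σ2 m)
  j1 : Jet S.σ1 m δ (re' e.s1) (re' e.l1) (re' e.m1)
  j2 : Jet S.σ2 m δ (re' e.s2) (re' e.l2) (re' e.m2)
  V : closedBall m δ ⊆ S.V
  D : ∀ l, re' e.D ≤ ‖m - gz 48 (T.c l)‖

variable (T q n) in
def ds : List Dc := (List.finRange 8).map (dc T q n)

variable {S : Sch (Fin 8)} {ε : ℝ}

lemma diff_hq {u : ℂ → ℂ} {s : Set ℂ} (hu : DifferentiableOn ℂ u s) :
    ∀ l, DifferentiableOn ℂ (fun z => hq l (u z)) s
  | [] => differentiableOn_const _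
  | _ :: l => hu.mul ((diff_hq hu l).const_add _)

lemma evA_ok (A : S.Ana) (O : OrcH S T q ε) (hε : ε ≤ 1 / 2 ^ 22) (hc : pos' T) {x y δ : ℕ}
    {k : Ev → Bool} (h : evA (ds T q n) x y δ k = true) :
    ∃ e : Ev, k e = true ∧ e.ok S T (pt x y) (re' δ) := by
  have j0 : ∃ A, Jet (fun _ => 1) (pt x y) (re' δ) A (re' 0) (re' 0) :=
    ⟨_, (Jet.const 1 _ _).mono le_rfl (re'_nn _) (re'_nn _)⟩
  have j1 : Ac.ok ⟨one, one, 0, 0, 0, 0, cB⟩ (fun _ => 1) (fun _ => 1) (pt x y) (re' δ) :=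
    ⟨mem_one, mem_one, j0, j0⟩
  rw [evA, ds] at h
  obtain ⟨b, h1, ⟨a1, a2, a3, a4⟩, -, h2⟩ := evL_ok hc _ j1 h
  simp only [← Fin.sum_univ_def, frc_eq, fN_eq] at h1 a1 a2 a3 a4
  have d0 := re'_nn δ
  have hV : ball (pt x y) (re' δ + 1 / 64) ⊆ T.Vh := fun z hz l => by
    linarith [(h2 l (List.mem_finRange l)).2, mem_ball_iff_norm'.1 hz,
      norm_sub_le_norm_sub_add_norm_sub (pt x y) z (gz 48 (T.c l))]
  have K {σ : ℂ → ℂ} {j f l m} (dσ : DifferentiableOn ℂ σ S.V)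
      (hσ : ∀ z ∈ T.Vh, ‖σ z - (1 + ∑ l, tm T q j l z)‖ ≤ ε)
      (hf : Bl.mem f (1 + ∑ l, tm T q j l (pt x y)))
      (hj : ∃ A, Jet (fun z => 1 + ∑ l, tm T q j l z) (pt x y) (re' δ) A (re' l) (re' m)) :
      (f.fat 67108864).mem (σ (pt x y)) ∧ Jet σ (pt x y) (re' δ) (re' ((f.fat 67108864).ub.add
        (mu (l.add 8589934592) δ))) (re' (l.add 8589934592)) (re' (m.add 1099511627776)) := by
    have m1 := hf.fat (e := 67108864) ((hσ _ (hV (mem_ball_self (by linarith)))).trans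
      (hε.trans (by norm_num [re', cU])))
    obtain ⟨A', hj⟩ := hj
    have e0 := (norm_nonneg _).trans (hσ _ (hV (mem_ball_self (by linarith))))
    have := hj.add (Jet.small (g := fun z => σ z - (1 + ∑ l, tm T q j l z)) (by linarith)
      (by linarith) ((dσ.mono (hV.trans O.hV)).sub (.const_add _ (.fun_sum fun l _ => diff_hq
      (.div (differentiableOn_const _) (by fun_prop) fun z hz => norm_pos_iff.1
      (lt_of_lt_of_le (by positivity) (hV hz l))) _))) fun z hz => hσ z (hV hz))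
    simp only [add_sub_cancel] at this
    refine ⟨m1, (this.mono le_rfl ?_ ?_).resup ((add_le_add m1.ub (le_mu le_rfl le_rfl d0)).trans_eq
      (re'_add _ _).symm)⟩ <;> rw [re'_add] <;> gcongr
    · rw [div_le_iff₀ (by linarith)]; norm_num [re', cU] at *; nlinarith
    · rw [div_le_iff₀ (by positivity)]; norm_num [re', cU] at *; nlinarith
  have k1 := K (σ := S.σ1) (by have := A.d1; unfold Sch.σ1; fun_prop) O.f1 a1 a3
  have k2 := K (σ := S.σ2) (by have := A.d2; unfold Sch.σ2; fun_prop) O.f2 a2 a4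
  exact ⟨_, h1, k1.1, k2.1, k1.2, k2.2, (closedBall_subset_ball (by linarith)).trans (hV.trans O.hV),
    fun l => (h2 l (List.mem_finRange l)).1⟩

end Pool.Agent.MP_c434f6_gt.H30.W

end

section

/-! Validated integration of the height and the horizontal coordinate along segments. -/

open Complex Metric Set
open scoped ComplexConjugate

namespace Pool.Agent.MP_c434f6_gt.H30.W

open Bl

structure J where
  A : ℕ
  L : ℕ
  M : ℕ

def J.ok (a : J) (g : ℂ → ℂ) (m : ℂ) (δ : ℝ) : Prop := Jet g m δ (re' a.A) (re' a.L) (re' a.M)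

def J.mul (a b : J) : J :=
  ⟨mu a.A b.A, (mu a.L b.A).add (mu a.A b.L), ((mu a.M b.A).add (mu a.A b.M)).add (mu a.L b.L)⟩

noncomputable def J.frc (a : J) (k : J → Bool) : Bool :=
  fN a.A fun A => fN a.L fun L => fN a.M fun M => k ⟨A, L, M⟩

lemma J.frc_eq (a : J) (k : J → Bool) : a.frc k = k a := by simp only [J.frc, fN_eq]

lemma mu_ge (a b : ℕ) : re' a * re' b ≤ re' (mu a b) := le_mu le_rfl le_rfl (re'_nn _)

lemma J.ok.mul {a b : J} {g h : ℂ → ℂ} {m : ℂ} {δ : ℝ} (h0 : 0 ≤ δ) (ha : a.ok g m δ)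
    (hb : b.ok h m δ) : (a.mul b).ok (fun z => g z * h z) m δ :=
  (Jet.mul h0 ha hb).mono (mu_ge _ _) (by
    simp only [J.mul, re'_add]; gcongr <;> apply mu_ge) (by
    simp only [J.mul, re'_add]; gcongr <;> apply mu_ge)

def jE (E : Bl) (δ : ℕ) : J :=
  ⟨mu E.ub (cU.add (δ.add δ)), mu E.ub (cU.add (δ.add δ)), mu E.ub (cU.add (δ.add δ))⟩

lemma jE_ok {E : Bl} {δ : ℕ} {b m : ℂ} (hb : ‖b‖ = 1) (h : re' δ ≤ 1) (hE : E.mem (exp (b * m))) :
    (jE E δ).ok (fun z => exp (b * z)) m (re' δ) :=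
  Jet.ex hb (re'_nn _) h (le_mu hE.ub (by simp [re'_U, two_mul]) (by have := re'_nn δ; positivity))

lemma J.ok.seg {a : J} {g : ℂ → ℂ} {m d : ℂ} {δ : ℕ} (h : a.ok g m (re' δ)) (hd : ‖d‖ ≤ re' δ) :
    ∃ g₁ : ℂ, ‖g₁‖ ≤ re' (mu a.L (mu δ δ)) ∧ ∀ θ ∈ Icc (-1 : ℝ) 1,
      ‖g (m + θ * d) * d - g m * d - θ * g₁‖ ≤ re' (mu a.M (mu (mu δ δ) δ)) * θ ^ 2 := by
  obtain ⟨m0, g₁, h1, h2⟩ := h
  have n := norm_nonneg d
  have d2 : ‖d‖ * ‖d‖ ≤ re' (mu δ δ) := le_mu hd hd n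
  refine ⟨g₁ * (d * d), by simpa using le_mu h1 d2 (by positivity), fun θ hθ => ?_⟩
  have e : ‖θ * d‖ = |θ| * ‖d‖ := by simp
  have := (h2 (θ * d) (e ▸ (mul_le_of_le_one_left n (abs_le.2 hθ)).trans hd)).2.2
  rw [show _ - θ * _ = (g (m + θ * d) - g m - g₁ * (θ * d)) * d by ring, norm_mul]
  refine (mul_le_mul_of_nonneg_right this n).trans (le_trans (le_of_eq ?_)
    (mul_le_mul_of_nonneg_right (le_mu le_rfl (le_mu d2 hd n) (by positivity)) (sq_nonneg θ)))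
  rw [e, mul_pow, sq_abs]; ring

def fr (n : ℕ) : ℕ := (cU.div n).succ

lemma fr_ge {n : ℕ} (h : 0 < n) : 1 / (n : ℝ) ≤ re' (fr n) := by
  rw [re', le_div_iff₀ U0, one_div_mul_eq_div]
  exact (div_gt cU h).le.trans_eq (Nat.cast_succ _).symm

lemma mid_ball {ψ φ : ℝ → ℂ} {φ₀ φ₁ : ℂ} {B Φ : Bl} {a b : ℕ}
    (hd : ∀ θ ∈ Icc (-1 : ℝ) 1, HasDerivAt ψ (φ θ) θ) (h1 : ‖φ₁‖ ≤ re' a)
    (h2 : ∀ θ ∈ Icc (-1 : ℝ) 1, ‖φ θ - φ₀ - θ * φ₁‖ ≤ re' b * θ ^ 2) (hB : B.mem (ψ (-1) + φ₀))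
    (hΦ : Φ.mem φ₀) : ((B.add Φ).fat (mu (b.add b) (fr 3))).mem (ψ 1) ∧ ∀ θ ∈ Icc (-1 : ℝ) 1,
      ∀ {C Ψ : Bl} {u v : ℂ}, C.mem (ψ (-1) + φ₀ - u) → Ψ.mem (φ₀ - v) →
        (C.fat (Ψ.ub.add ((mu a (fr 2)).add b))).mem (ψ θ - (u + θ * v)) := by
  obtain ⟨k1, k2⟩ := midp hd h1 (re'_nn b) h2
  refine ⟨(hB.add hΦ).fat (k1.trans (le_trans (le_of_eq ?_) (le_mu (re'_add b b).ge (fr_ge (by
    norm_num)) (by positivity)))), fun θ hθ C Ψ u v hC hΨ => hC.fat ?_⟩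
  · push_cast; ring
  rw [show _ - _ = θ * (φ₀ - v) + (ψ θ - (ψ (-1) + φ₀) - θ • φ₀) by simp; ring, re'_add, re'_add]
  refine norm_add_le_of_le ((norm_mul_le_of_le (show ‖(θ : ℂ)‖ ≤ 1 by simpa using abs_le.2 hθ)
    hΨ.ub).trans_eq (one_mul _)) ((k2 θ hθ).trans ?_)
  gcongr
  exact le_trans (le_of_eq (by push_cast; ring)) (le_mu le_rfl (fr_ge two_pos) (by positivity))

structure Fl where
  p : Bool
  c : Bool
  s : Bool
  u : Bool
  T : ℕ
  δ : ℕ
  B : ℕ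
  Bt : ℕ

structure Good (f : Fl) (S : Sch (Fin 8)) (w : ℂ) : Prop where
  p : f.p = true → 0 < (S.s1 w * S.s2 w).re
  c : f.c = true → 0 < (S.s1 w * conj (S.s2 w) * exp (-(I * S.h3 w))).re
  s : f.s = true → cond f.u (re' f.Bt < S.ξ w) (S.ξ w < -re' f.Bt)
  T : |S.h3 w| < re' f.T
  δ : |S.h3 w - w.re| ≤ re' f.δ
  B : ‖S.Z w‖ ≤ re' f.B

def c15 : ℕ := nat_lit 4222124650659840

noncomputable def eI (a : Bl) (k : Bl → Bool) : Bool :=
  ((ad a.x cB).ble c15).and ((Bl.mI ⟨a.x, cB, 0⟩).cnj.frc fun w => w.ex fun E => (E.fat a.r).frc k)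

lemma ex_ok {a : Bl} {x : ℂ} {k : Bl → Bool} (ha : a.mem x) (hx : ‖x‖ ≤ 16) (h : a.ex k = true) :
    ∃ b : Bl, b.mem (exp x) ∧ k b = true :=
  (ha.ex hx k).imp fun _ ⟨h1, h2⟩ => ⟨h1, h2 ▸ h⟩

lemma eI_ok {a : Bl} {x : ℝ} {k : Bl → Bool} (ha : a.mem x) (h : eI a k = true) :
    ∃ E : Bl, E.mem (exp (-(I * x))) ∧ k E = true := by
  simp only [eI, frc_eq, Bool.and_eq_true, re'_le, re'_ad, val_B, sub_zero] at h
  have e : conj (I * pt a.x cB) = -(I * val a.x) := by apply Complex.ext <;> simp [pt, val_B]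
  obtain ⟨E, h1, h2⟩ := ex_ok (e ▸ (mem_pt a.x cB).mI.cnj) (by
    simpa using h.1.trans (by norm_num [re', c15, cU])) h.2
  refine ⟨_, h1.fat ?_, h2⟩
  rw [show exp (-(I * x)) - exp (-(I * val a.x)) = exp (-(I * x)) * -(exp (I * (x - val a.x : ℝ)) - 1)
    by rw [mul_neg, mul_sub, ← exp_add]; push_cast; ring_nf, norm_mul, norm_neg]
  simp only [norm_exp, neg_re, I_mul_re, ofReal_im, neg_zero, Real.exp_zero, one_mul]
  exact Real.norm_exp_I_mul_ofReal_sub_one_le.trans (le_trans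
    (by simpa [pt] using abs_re_le_norm (x - pt a.x a.y)) ha)

noncomputable def chk (f : Fl) (G1 G2 H D Z : Bl) : Bool :=
  ((H.ub.blt f.T).and ((D.ub.ble f.δ).and (Z.ub.ble f.B))).and
  ((cond f.p ((G1.mul G2).pos 0) true).and
  ((cond f.c (eI D fun E => G2.cnj.frc fun b => (G1.mul b).frc fun a => (a.mul E).pos 0) true).and
  (cond f.s (eI H fun E => (Z.mul E).mI.frc fun W => cond f.u (W.pos f.Bt) (W.neg f.Bt)) true)))

variable {S : Sch (Fin 8)}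

lemma s1_eq (w : ℂ) : S.s1 w = exp (I * w / 2) * S.σ1 w := by
  rw [Sch.σ1, mul_left_comm, ← exp_add]; simp

lemma s2_eq (w : ℂ) : S.s2 w = exp (-(I * w / 2)) * S.σ2 w := by
  rw [Sch.σ2, mul_left_comm, ← exp_add]; simp

lemma s12_eq (w : ℂ) : S.s1 w * S.s2 w = S.σ1 w * S.σ2 w := by
  rw [s1_eq, s2_eq, mul_mul_mul_comm, ← exp_add]; simp

lemma chk_ok {f : Fl} {G1 G2 H D Z : Bl} {w : ℂ} (h1 : G1.mem (S.σ1 w)) (h2 : G2.mem (S.σ2 w))
    (hH : H.mem (S.h3 w)) (hD : D.mem (S.h3 w - w.re)) (hZ : Z.mem (S.Z w))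
    (h : chk f G1 G2 H D Z = true) : Good f S w := by
  simp only [chk, frc_eq, Bool.and_eq_true, re'_le, re'_lt] at h
  obtain ⟨⟨a1, a2, a3⟩, a4, a5, a6⟩ := h
  rw [← ofReal_sub] at hD
  have c {a b : Bool} (h : cond a b true = true) (e : a = true) : b = true := by subst e; exact h
  refine ⟨fun e => ?_, fun e => ?_, fun e => ?_, lt_of_le_of_lt (by simpa using hH.ub) a1,
    le_trans (by simpa [-ofReal_sub] using hD.ub) a2, hZ.ub.trans a3⟩
  · rw [s12_eq]; exact (re'_nn _).trans_lt ((h1.mul h2).pos (c a4 e))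
  · obtain ⟨E, b1, b2⟩ := eI_ok hD (c a5 e)
    refine ((re'_nn _).trans_lt (((h1.mul h2.cnj).mul b1).pos b2)).trans_eq (congrArg _ ?_)
    rw [s1_eq, s2_eq, map_mul, ← exp_conj, mul_mul_mul_comm, ← exp_add, mul_comm (exp _) (_ * _),
      mul_assoc _ (exp _), ← exp_add]
    congr 2
    apply Complex.ext <;> simp [map_ofNat]; ring
  · obtain ⟨E, b1, b2⟩ := eI_ok hH (c a6 e)
    have := (hZ.mul b1).mI
    rw [mul_left_comm] at this
    have d {u a b : Bool} {P Q : Prop} (h : cond u a b = true) (h1 : a = true → P)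
      (h2 : b = true → Q) : cond u P Q := by cases u; exacts [h2 h, h1 h]
    exact d b2 this.pos this.neg

structure St where
  H : Bl
  Z : Bl
  D : ℕ

def St.ok (s : St) (S : Sch (Fin 8)) (z : ℂ) : Prop := s.H.mem (S.h3 z) ∧ s.Z.mem (S.Z z)

noncomputable def step (ds : List Dc) (f : Fl) (x y xm ym δ : ℕ) (s : St) (k : St → Bool) : Bool :=
  evA ds xm ym δ fun e => ((δ.ble cU).and ((Bl.ub ⟨xm, ym, 0⟩).ble c15)).and
  ((Bl.mI ⟨xm, ym, 0⟩).frc fun i1 => (zero.sub i1).frc fun i2 => i1.ex fun E1 => i2.ex fun E2 =>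
  (Bl.sub ⟨xm, ym, 0⟩ ⟨x, y, 0⟩).frc fun d =>
  (e.f1.mul e.f2).frc fun P => (P.mul d).re.frc fun φ =>
  (e.f1.mul e.f1).frc fun a => (E1.mul a).frc fun a => (a.mul d).frc fun a =>
  (e.f2.mul e.f2).frc fun b => (E2.mul b).frc fun b => (b.mul d).frc fun b =>
  (b.cnj.sub a).frc fun c => (c.mul (cst 2)).frc fun Φ =>
  (J.mul ⟨e.s1, e.l1, e.m1⟩ ⟨e.s2, e.l2, e.m2⟩).frc fun jP =>
  (J.mul ⟨e.s1, e.l1, e.m1⟩ ⟨e.s1, e.l1, e.m1⟩).frc fun j1 => (jE E1 δ).frc fun u1 =>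
  (J.mul ⟨e.s2, e.l2, e.m2⟩ ⟨e.s2, e.l2, e.m2⟩).frc fun j2 => (jE E2 δ).frc fun u2 =>
  (u1.mul j1).frc fun j1 => (u2.mul j2).frc fun j2 =>
  fN (mu δ δ) fun δ2 => fN (mu δ2 δ) fun δ3 => fN (mu jP.M δ3) fun K =>
  fN (mu ((mu j2.M δ3).add (mu j1.M δ3)) (fr 2)) fun K' =>
  fN ((mu (mu jP.L δ2) (fr 2)).add K) fun eh =>
  (s.H.add φ).frc fun Hm => (s.Z.add Φ).frc fun Zm =>
  (e.f1.fat (mu e.l1 δ)).frc fun G1 => (e.f2.fat (mu e.l2 δ)).frc fun G2 =>
  (Hm.fat (φ.ub.add eh)).frc fun HH => (φ.sub d.re).frc fun φ' =>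
  ((Hm.sub ⟨xm, cB, 0⟩).fat (φ'.ub.add eh)).frc fun HD =>
  (Zm.fat (Φ.ub.add ((mu (mu ((mu j2.L δ2).add (mu j1.L δ2)) (fr 2)) (fr 2)).add K'))).frc fun ZZ =>
  (chk f G1 G2 HH HD ZZ).and (((Hm.add φ).fat (mu (K.add K) (fr 3))).frc fun H' =>
  ((Zm.add Φ).fat (mu (K'.add K') (fr 3))).frc fun Z' => k ⟨H', Z', e.D⟩))

variable {T : Tab} {q : Bool → Fin 8 → List (ℤ × ℤ)} {n : Fin 8 → ℕ} {ε : ℝ}

lemma half_le {u v : ℂ} {a b : ℕ} {t : ℝ} (ht : 0 ≤ t) (hu : ‖u‖ ≤ re' a * t) (hv : ‖v‖ ≤ re' b * t) :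
    ‖(conj u - v) * (1 / (2 : ℕ))‖ ≤ re' (mu (a.add b) (fr 2)) * t := by
  refine (norm_mul_le_of_le (norm_sub_le_of_le ((norm_conj u).trans_le hu) hv) le_rfl).trans
    (le_trans (le_of_eq ?_) (mul_le_mul_of_nonneg_right (le_mu (re'_add a b).ge (fr_ge two_pos)
    (by positivity)) ht))
  simp; ring

lemma step_ok (A : S.Ana) (O : OrcH S T q ε) (hε : ε ≤ 1 / 2 ^ 22) (hc : pos' T) {f : Fl}
    {x y xm ym δ : ℕ} {s : St} {k : St → Bool} (hd : ‖pt xm ym - pt x y‖ ≤ re' δ)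
    (hs : s.ok S (pt x y)) (h : step (ds T q n) f x y xm ym δ s k = true) :
    (∀ θ ∈ Icc (-1 : ℝ) 1, Good f S (pt xm ym + θ * (pt xm ym - pt x y))) ∧
      ∃ s' : St, s'.ok S (pt xm ym + (pt xm ym - pt x y)) ∧ k s' = true := by
  rw [step] at h
  obtain ⟨e, h, E⟩ := evA_ok A O hε hc h
  simp only [frc_eq, J.frc_eq, fN_eq, Bool.and_eq_true, re'_le, re'_U] at h
  obtain ⟨⟨h1, h2⟩, h⟩ := h
  have bm := mem_pt xm ym
  have bd := bm.sub (mem_pt x y)
  have br : mem ⟨xm, cB, 0⟩ (pt xm ym).re := bm.re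
  have ez : pt x y = pt xm ym + (-1 : ℝ) * (pt xm ym - pt x y) := by simp
  rw [ez] at hs
  generalize pt xm ym - pt x y = d at *
  have hm : ‖pt xm ym‖ ≤ 16 := (bm.ub.trans h2).trans (by norm_num [re', c15, cU])
  generalize pt xm ym = m at *
  obtain ⟨E1, e1, h⟩ := ex_ok bm.mI (by simpa) h
  obtain ⟨E2, e2, h⟩ := ex_ok (((mem_pt cB cB).sub bm.mI).cg (y := -I * m) (by simp [pt_B]))
    (by simpa) h
  rw [Bool.and_eq_true] at h
  have d0 := re'_nn δ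
  have j1 : J.ok ⟨e.s1, e.l1, e.m1⟩ S.σ1 m (re' δ) := E.j1
  have j2 : J.ok ⟨e.s2, e.l2, e.m2⟩ S.σ2 m (re' δ) := E.j2
  obtain ⟨p, p1, p2⟩ := (j1.mul d0 j2).seg hd
  obtain ⟨a, a1, a2⟩ := ((jE_ok norm_I h1 e1).mul d0 (j1.mul d0 j1)).seg hd
  obtain ⟨b, b1, b2⟩ := ((jE_ok (by simp) h1 e2).mul d0 (j2.mul d0 j2)).seg hd
  have n (θ) (hθ : θ ∈ Icc (-1 : ℝ) 1) : ‖θ * d‖ ≤ re' δ := by
    simpa using (mul_le_of_le_one_left (norm_nonneg d) (abs_le.2 hθ)).trans hd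
  have V (θ) (hθ : θ ∈ Icc (-1 : ℝ) 1) : m + θ * d ∈ S.V := E.V (by simpa using n θ hθ)
  have l (θ : ℝ) : HasDerivAt (fun θ : ℝ => m + θ * d) d θ := by
    simpa using ((hasDerivAt_id θ).ofReal_comp.mul_const d).const_add m
  have bφ := ((E.f1.mul E.f2).mul bd).re
  have bΦ := ((((e2.mul (E.f2.mul E.f2)).mul bd).cnj.sub ((e1.mul (E.f1.mul E.f1)).mul bd)).mul
    (mem_cst 2 two_pos))
  obtain ⟨H1, H2⟩ := mid_ball (ψ := fun θ => S.h3 (m + θ * d))
    (φ := fun θ => (S.σ1 (m + θ * d) * S.σ2 (m + θ * d) * d).re) (φ₁ := p.re) (fun θ hθ => by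
      have := ((A.dh _ (V θ hθ)).1.hasFDerivAt.comp_hasDerivAt θ (l θ)).ofReal_comp
      rw [(A.dh _ (V θ hθ)).2, s12_eq] at this
      exact this)
    (le_trans (by simpa using abs_re_le_norm p) p1) (fun θ hθ => le_trans (by
      refine le_trans (le_of_eq ?_) (abs_re_le_norm _)
      rw [← Real.norm_eq_abs, ← norm_real]; simp) (p2 θ hθ)) (hs.1.add bφ) bφ
  obtain ⟨Z1, Z2⟩ := mid_ball (ψ := fun θ => S.Z (m + θ * d))
    (φ := fun θ => (conj (exp (-I * (m + θ * d)) * (S.σ2 (m + θ * d) * S.σ2 (m + θ * d)) * d) -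
      exp (I * (m + θ * d)) * (S.σ1 (m + θ * d) * S.σ1 (m + θ * d)) * d) * (1 / (2 : ℕ)))
    (fun θ hθ => by
      refine ((A.dZ _ (V θ hθ)).1.hasFDerivAt.comp_hasDerivAt θ (l θ)).congr_deriv ?_
      rw [(A.dZ _ (V θ hθ)).2, s1_eq, s2_eq, mul_pow, mul_pow, ← exp_nat_mul, ← exp_nat_mul]
      push_cast; ring_nf)
    ((half_le zero_le_one (b1.trans_eq (mul_one _).symm) (a1.trans_eq (mul_one _).symm)).trans_eq
      (mul_one _))
    (fun θ hθ => le_trans (le_of_eq (congrArg _ (by simp; ring)))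
      (half_le (sq_nonneg θ) (b2 θ hθ) (a2 θ hθ))) (hs.2.add bΦ) bΦ
  refine ⟨fun θ hθ => chk_ok (E.f1.fat ?_) (E.f2.fat ?_) ?_ ?_ ?_ h.1, _, ⟨by simpa using H1,
    by simpa using Z1⟩, h.2⟩
  · exact ((E.j1.2.choose_spec.2 _ (n θ hθ)).2.1).trans (le_mu le_rfl (n θ hθ) (norm_nonneg _))
  · exact ((E.j2.2.choose_spec.2 _ (n θ hθ)).2.1).trans (le_mu le_rfl (n θ hθ) (norm_nonneg _))
  · simpa using H2 θ hθ (u := 0) (v := 0) (by simpa using hs.1.add bφ) (by simpa using bφ)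
  · simpa using H2 θ hθ ((hs.1.add bφ).sub br) (bφ.sub bd.re)
  · simpa using Z2 θ hθ (u := 0) (v := 0) (by simpa using hs.2.add bΦ) (by simpa using bΦ)

noncomputable def walk (ds : List Dc) (f : Fl) (v : Bool) (c tg hm dv : ℕ) (k : St → Bool)
    (fuel : ℕ) : ℕ → St → Bool :=
  Nat.rec (fun _ _ => false) (fun _ ih t s =>
    fN (mn (mn hm (s.D.div dv).succ) ((ad t tg).div 2)) fun h =>
    fN (cond (t.ble tg) (t.add h) (t.sub h)) fun tm =>
    fN (cond (t.ble tg) (tm.add h) (tm.sub h)) fun t2 =>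
    fN (cond v c t) fun x => fN (cond v t c) fun y => fN (cond v c tm) fun xm =>
    fN (cond v tm c) fun ym => fN (ad t tm) fun δ => ((t.add t2).beq (tm.add tm)).and
    (step ds f x y xm ym δ s fun s' => cond (t2.beq tg) (k s') (ih t2 s'))) fuel

noncomputable def pv (v : Bool) (c t : ℝ) : ℂ := cond v ⟨c, t⟩ ⟨t, c⟩

lemma pt_pv (v : Bool) (c t : ℕ) : pt (cond v c t) (cond v t c) = pv v (val c) (val t) := by
  cases v <;> rfl

lemma walk_ok (A : S.Ana) (O : OrcH S T q ε) (hε : ε ≤ 1 / 2 ^ 22) (hc : pos' T) {f : Fl} {v : Bool}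
    {c tg hm dv : ℕ} {k : St → Bool} (fuel : ℕ) : ∀ {t : ℕ} {s : St}, s.ok S (pv v (val c) (val t)) →
      walk (ds T q n) f v c tg hm dv k fuel t s = true →
      (∀ τ ∈ uIcc (val t) (val tg), Good f S (pv v (val c) τ)) ∧
        ∃ s' : St, s'.ok S (pv v (val c) (val tg)) ∧ k s' = true := by
  induction fuel with
  | zero => intro t s _ h; unfold walk at h; exact absurd h Bool.false_ne_true
  | succ fuel ih =>
    intro t s hs h
    have e : walk (ds T q n) f v c tg hm dv k (fuel + 1) t s =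
      fN (mn (mn hm (s.D.div dv).succ) ((ad t tg).div 2)) fun h =>
      fN (cond (t.ble tg) (t.add h) (t.sub h)) fun tm =>
      fN (cond (t.ble tg) (tm.add h) (tm.sub h)) fun t2 =>
      fN (cond v c t) fun x => fN (cond v t c) fun y => fN (cond v c tm) fun xm =>
      fN (cond v tm c) fun ym => fN (ad t tm) fun δ => ((t.add t2).beq (tm.add tm)).and
      (step (ds T q n) f x y xm ym δ s fun s' => cond (t2.beq tg) (k s')
        (walk (ds T q n) f v c tg hm dv k fuel t2 s')) := by unfold walk; rfl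
    simp only [e, fN_eq, Bool.and_eq_true, Nat.beq_eq] at h
    generalize mn _ _ = h₀ at h
    generalize cond (t.ble tg) (t.add h₀) _ = tm at h
    generalize cond (t.ble tg) (tm.add h₀) _ = t2 at h
    have e1 : val t2 = val tm + 1 * (val tm - val t) := by
      have := congr(($(h.1) : ℝ))
      simp only [Nat.add_eq, Nat.cast_add] at this
      simp only [val]; rw [eq_sub_of_add_eq' this]; ring
    have e2 (θ : ℝ) : pv v (val c) (val tm) + θ * (pv v (val c) (val tm) - pv v (val c) (val t)) =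
        pv v (val c) (val tm + θ * (val tm - val t)) := by
      cases v <;> apply Complex.ext <;> simp [pv]
    obtain ⟨g, s', h1, h2⟩ := step_ok A O hε hc (by
      rw [pt_pv, pt_pv, re'_ad, abs_sub_comm]
      cases v <;> refine (norm_le_abs_re_add_abs_im _).trans_eq ?_ <;> simp [pv])
      (pt_pv v c t ▸ hs) h.2
    simp only [pt_pv, e2] at g
    rw [pt_pv, pt_pv, ← one_mul (_ - _), ← ofReal_one, e2, ← e1] at h1
    have G (τ) (hτ : τ ∈ uIcc (val t) (val t2)) : Good f S (pv v (val c) τ) := by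
      have : |τ - val tm| ≤ |val tm - val t| := by
        rw [e1, mem_uIcc] at hτ
        rcases hτ with hτ | hτ <;> refine abs_le.2 ⟨?_, ?_⟩ <;>
          linarith [le_abs_self (val tm - val t), neg_abs_le (val tm - val t)]
      by_cases e : val tm - val t = 0
      · rw [e, abs_zero, abs_nonpos_iff, sub_eq_zero] at this
        simpa [this] using g 0 (by simp)
      · simpa [e] using g ((τ - val tm) / (val tm - val t))
          (abs_le.1 (by rw [abs_div]; exact div_le_one_of_le₀ this (abs_nonneg _)))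
    cases e3 : t2.beq tg <;> rw [e3] at h2
    · obtain ⟨g', r⟩ := ih h1 h2
      exact ⟨fun τ hτ => (uIcc_subset_uIcc_union_uIcc hτ).elim (G τ) (g' τ), r⟩
    · rw [Nat.beq_eq] at e3
      exact e3 ▸ ⟨G, s', h1, h2⟩

structure Leg where
  v : Bool
  tg : ℕ
  hm : ℕ
  f : Fl

noncomputable def run (ds : List Dc) (dv : ℕ) (k : ℕ → ℕ → St → Bool) (l : List Leg) :
    ℕ → ℕ → St → Bool :=
  List.rec k (fun g _ ih x y s => fN g.tg fun tg => fN g.hm fun hm =>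
    walk ds g.f g.v (cond g.v x y) tg hm dv (ih (cond g.v x tg) (cond g.v tg y)) 2000
      (cond g.v y x) s) l

def Cov (S : Sch (Fin 8)) (R : ℂ → Prop) : List Leg → ℝ → ℝ → Prop
  | [], x, y => R ⟨x, y⟩
  | g :: l, x, y => (∀ τ ∈ uIcc (cond g.v y x) (val g.tg), Good g.f S (pv g.v (cond g.v x y) τ)) ∧
      Cov S R l (cond g.v x (val g.tg)) (cond g.v (val g.tg) y)

lemma run_ok (A : S.Ana) (O : OrcH S T q ε) (hε : ε ≤ 1 / 2 ^ 22) (hc : pos' T) {dv : ℕ}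
    {k : ℕ → ℕ → St → Bool} {R : ℂ → Prop}
    (hk : ∀ x y s, s.ok S (pt x y) → k x y s = true → R (pt x y)) (l : List Leg) :
    ∀ {x y : ℕ} {s : St}, s.ok S (pt x y) → run (ds T q n) dv k l x y s = true →
      Cov S R l (val x) (val y) := by
  induction l with
  | nil => exact fun hs h => hk _ _ _ hs h
  | cons g l ih =>
    intro x y s hs h
    have e : run (ds T q n) dv k (g :: l) x y s = fN g.tg fun tg => fN g.hm fun hm =>
      walk (ds T q n) g.f g.v (cond g.v x y) tg hm dv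
        (run (ds T q n) dv k l (cond g.v x tg) (cond g.v tg y)) 2000 (cond g.v y x) s := by
      unfold run; rfl
    rw [e, fN_eq, fN_eq] at h
    rw [Cov]
    generalize g.v = v at *
    obtain ⟨h1, s', h2, h3⟩ := walk_ok A O hε hc _ (by cases v <;> exact hs) h
    have := ih (by cases v <;> exact h2) h3
    cases v <;> exact ⟨h1, this⟩

noncomputable def zchk (ds : List Dc) (x' y' ϱ t x y : ℕ) (s : St) : Bool :=
  evA ds x y ϱ fun e => evA ds x' y' 0 fun e' =>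
  (((Bl.sub ⟨x', y', 0⟩ ⟨x, y, 0⟩).ub.ble ϱ).and ((ϱ.add (fr 4)).ble e.D)).and
  ((e'.f1.pos ((mu (e.m1.add e.m1) (mu ϱ ϱ)).add (e.f1.ub.mul 3))).and
  ((s.H.fat (mu (mu e.s1 e.s2) ϱ)).pos t))

lemma zchk_ok (A : S.Ana) (O : OrcH S T q ε) (hε : ε ≤ 1 / 2 ^ 22) (hc : pos' T)
    (hκ : ∀ k, ‖gz 48 (T.κ k)‖ ≤ 1 / 5) {x' y' ϱ t : ℕ} (h0 : 0 < ϱ) (x y : ℕ) (s : St)
    (hs : s.ok S (pt x y)) (h : zchk (ds T q n) x' y' ϱ t x y s = true) :
    ∃ w ∈ S.F, S.s1 w * S.s2 w = 0 ∧ re' t < S.h3 w := by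
  rw [zchk] at h
  obtain ⟨e, h, E⟩ := evA_ok A O hε hc h
  obtain ⟨e', h, E'⟩ := evA_ok A O hε hc h
  simp only [Bool.and_eq_true, re'_le, re'_add] at h
  obtain ⟨⟨h1, h2⟩, h3, h4⟩ := h
  have n1 := ((mem_pt x' y').sub (mem_pt x y)).ub.trans h1
  have n2 := (E'.f1.pos h3).trans_le (re_le_norm _)
  have r0 : 0 < re' ϱ := div_pos (by exact_mod_cast h0) U0
  generalize pt x y = m at *
  obtain ⟨m0, g, -, j⟩ := E.j1
  have n3 := (j _ n1).2.2
  have n4 : re' (e.f1.ub.mul 3) = 3 * re' e.f1.ub := by simp [re']; ring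
  have n5 := le_mu (re'_add e.m1 e.m1).ge (mu_ge ϱ ϱ) (by positivity)
  rw [re'_add, n4] at n2
  rw [add_sub_cancel] at n3
  obtain ⟨w, hw, z⟩ := Sch.exists_zero (f := S.σ1) r0 (DifferentiableOn.diffContOnCl (by
    rw [closure_ball m r0.ne']
    have := A.d1.mono E.V
    unfold Sch.σ1; fun_prop)) fun w hw => by
      rw [mem_sphere_iff_norm] at hw
      have a := (j _ hw.le).2.2
      rw [add_sub_cancel, hw] at a
      have b := norm_add₃_le (a := S.σ1 (pt x' y') - S.σ1 m - g * (pt x' y' - m)) (b := S.σ1 m)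
        (c := g * (pt x' y' - m))
      have c := norm_add₃_le (a := -(S.σ1 w - S.σ1 m - g * (w - m))) (b := S.σ1 w) (c := -S.σ1 m)
      rw [show _ + _ + _ = S.σ1 (pt x' y') by ring, norm_mul] at b
      rw [show _ + _ + _ = g * (w - m) by ring, norm_mul, hw, norm_neg, norm_neg] at c
      nlinarith [E.f1.ub, mul_le_mul_of_nonneg_left n1 (norm_nonneg g), mul_le_mul_of_nonneg_left
        (pow_le_pow_left₀ (norm_nonneg _) n1 2) m0]
  have hw' := mem_ball_iff_norm.1 hw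
  refine ⟨w, fun k => ?_, by rw [s12_eq, z, zero_mul], (hs.1.fat (y := S.h3 w) ?_).pos h4⟩
  · have a := norm_sub_le_norm_sub_add_norm_sub m w (gz 48 (T.c k))
    have b := norm_sub_le_norm_sub_add_norm_sub w (S.c k) (gz 48 (T.c k))
    have c := fr_ge (n := 4) (by norm_num)
    rw [norm_sub_rev m w] at a
    linarith [E.D k, (O.near k).1, (O.near k).2, hκ k, norm_sub_norm_le (S.κ k) (gz 48 (T.κ k)),
      show (1 : ℝ) / 2 ^ 40 ≤ 1 / 40 by norm_num, show (1 : ℝ) / (4 : ℕ) = 1 / 4 by norm_num]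
  · rw [← ofReal_sub, norm_real]
    refine ((convex_closedBall m (re' ϱ)).norm_image_sub_le_of_norm_fderiv_le
      (fun z hz => (A.dh z (E.V hz)).1) (C := re' (mu e.s1 e.s2)) (fun z hz => ?_)
      (mem_closedBall_self r0.le) (ball_subset_closedBall hw)).trans (le_mu le_rfl hw'.le
        (norm_nonneg _))
    refine ContinuousLinearMap.opNorm_le_bound _ (re'_nn _) fun v => ?_
    rw [(A.dh z (E.V hz)).2, s12_eq]
    refine (abs_re_le_norm _).trans (norm_mul_le_of_le ((norm_mul _ _).trans_le ?_) le_rfl)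
    rw [mem_closedBall_iff_norm] at hz
    exact le_mu (by simpa using (j _ hz).1) (by simpa using (E.j2.2.choose_spec.2 _ hz).1)
      (norm_nonneg _)

end Pool.Agent.MP_c434f6_gt.H30.W

end

section

/-! From paths of segments to the hypotheses of the geometric part. -/

open Complex Metric Set
open scoped ComplexConjugate

namespace Pool.Agent.MP_c434f6_gt.H30.W

open Bl Sch

noncomputable def fL {α : Type} (f : α → (α → Bool) → Bool) (l : List α) : (List α → Bool) → Bool :=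
  List.rec (fun k => k []) (fun a _ ih k => f a fun a' => ih fun l' => k (a' :: l')) l

lemma fL_eq {α : Type} {f : α → (α → Bool) → Bool} (hf : ∀ a k, f a k = k a) (l : List α) :
    ∀ k, fL f l k = k l := by
  induction l with
  | nil => intro k; unfold fL; rfl
  | cons a l ih =>
    intro k
    rw [show fL f (a :: l) k = f a fun a' => fL f l fun l' => k (a' :: l') by unfold fL; rfl, hf, ih]

noncomputable def Dc.frc (d : Dc) (k : Dc → Bool) : Bool :=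
  fN d.x fun x => fN d.y fun y => fN d.r fun r => fN d.ρ fun ρ => fN d.a1 fun a1 => fN d.a2 fun a2 =>
  fN d.t1 fun t1 => fN d.t2 fun t2 => fL Bl.frc d.p1 fun p1 => fL Bl.frc d.p2 fun p2 =>
  k ⟨x, y, r, ρ, a1, a2, t1, t2, p1, p2⟩

/-- Run a path from the origin. -/
noncomputable def go (T : Tab) (q : Bool → Fin 8 → List (ℤ × ℤ)) (n dv : ℕ) (Z : Bl)
    (k : List Dc → ℕ → ℕ → St → Bool) (l : List Leg) : Bool :=
  fL Dc.frc (ds T q fun _ => n) fun d => run d dv (k d) l cB cB ⟨zero, Z, cU⟩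

def rad (T : Tab) (k : Fin 8) : ℕ := (T.κ k).1.natAbs + (T.κ k).2.natAbs + 512

/-- What is known about the surface. -/
structure Hyp (S : Sch (Fin 8)) (T : Tab) (q : Bool → Fin 8 → List (ℤ × ℤ)) (z₀ : ℂ) : Prop where
  A : S.Ana
  O : OrcH S T q (1 / 2 ^ 22)
  τ : S.Tau
  h0 : S.h3 0 = 0
  Z0 : S.Z 0 = z₀

variable {S : Sch (Fin 8)} {T : Tab} {q : Bool → Fin 8 → List (ℤ × ℤ)} {z₀ : ℂ} {n dv : ℕ} {Z : Bl}

lemma go_ok (H : Hyp S T q z₀) (hc : pos' T) (hZ : Z.mem z₀) {k : List Dc → ℕ → ℕ → St → Bool}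
    {R : ℂ → Prop}
    (hk : ∀ x y s, s.ok S (pt x y) → k (ds T q fun _ => n) x y s = true → R (pt x y)) {l : List Leg}
    (h : go T q n dv Z k l = true) : Cov S R l 0 0 := by
  rw [go, fL_eq fun a k => by simp only [Dc.frc, fN_eq, fL_eq frc_eq]] at h
  exact val_B ▸ run_ok H.A H.O le_rfl hc hk l ⟨by simpa [pt_B, H.h0, zero] using mem_pt cB cB,
    by simpa [pt_B, H.Z0] using hZ⟩ h

lemma Good.abs {f : Fl} (τ : S.Tau) {z : ℂ} (hz : z ∈ S.F) (h : Good f S ⟨|z.re|, z.im⟩) :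
    Good f S z := by
  rcases le_total 0 z.re with e | e
  · rwa [abs_of_nonneg e] at h
  rw [show (⟨|z.re|, z.im⟩ : ℂ) = -conj z by apply Complex.ext <;> simp [abs_of_nonpos e]] at h
  have x : S.ξ (-conj z) = S.ξ z := by
    rw [ξ, ξ, τ.Z z hz, τ.h3 z hz, ← conj_re]; simp [← exp_conj]
  refine ⟨fun e => (h.p e).trans_eq ?_, fun e => (h.c e).trans_eq ?_, fun e => x ▸ h.s e,
    by simpa [τ.h3 z hz] using h.T, le_trans (le_of_eq ?_) h.δ, by simpa [τ.Z z hz] using h.B⟩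
  · rw [τ.s1 z hz, τ.s2 z hz, ← map_mul, conj_re]
  · rw [τ.s1 z hz, τ.s2 z hz, τ.h3 z hz, ← conj_re]; simp [← exp_conj]
  · rw [τ.h3 z hz, ← abs_neg]; simp [sub_eq_add_neg, add_comm]

lemma near_ab (h : T.Near (1 / 2 ^ 40) S.c S.κ) (k : Fin 8) :
    |(|(S.c k).re| - re' (T.c k).1.natAbs)| + ‖S.κ k‖ ≤ re' (rad T k) ∧
      |(|(S.c k).im| - re' (T.c k).2.natAbs)| + ‖S.κ k‖ ≤ re' (rad T k) := by
  have e1 : re' (T.c k).1.natAbs = |(gz 48 (T.c k)).re| := by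
    simp [re', gz, cU, ← ofReal_ofNat, ← ofReal_pow, abs_div]; norm_num
  have e2 : re' (T.c k).2.natAbs = |(gz 48 (T.c k)).im| := by
    simp [re', gz, cU, ← ofReal_ofNat, ← ofReal_pow, abs_div]; norm_num
  have e3 : re' (rad T k) = ((T.κ k).1.natAbs + (T.κ k).2.natAbs : ℕ) / 2 ^ 48 + 2 / 2 ^ 40 := by
    simp [re', rad, cU]; ring
  have a := (abs_abs_sub_abs_le_abs_sub _ _).trans ((abs_re_le_norm _).trans (h k).1)
  have b := (abs_abs_sub_abs_le_abs_sub _ _).trans ((abs_im_le_norm _).trans (h k).1)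
  rw [e1, e2, e3]
  constructor <;>
    linarith [(h k).2, norm_gz_le 48 (T.κ k), norm_sub_norm_le (S.κ k) (gz 48 (T.κ k))]

def sg (u : Bool) (a : ℕ) : ℕ := cond u (cB.add a) (cB.sub a)

lemma val_add (a : ℕ) : val (sg true a) = re' a := by simp [sg, val, re']

lemma val_sub {a : ℕ} (h : a ≤ cB) : val (sg false a) = -re' a := by
  simp [sg, val, re', Nat.cast_sub h, neg_div]

lemma re'_mono {a b : ℕ} (h : a ≤ b) : re' a ≤ re' b := re'_le.1 (by simpa)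

lemma re'_smono {a b : ℕ} (h : a < b) : re' a < re' b := re'_lt.1 (by simpa)

def f0 : Fl := ⟨false, false, false, false, cB, cB, cB, 0⟩
def tr : List Dc → ℕ → ℕ → St → Bool := fun _ _ _ _ => true

structure Par where
  a1 : ℕ
  b1 : ℕ
  a2 : ℕ
  b2 : ℕ
  δ : ℕ
  T : ℕ
  B : ℕ
  h : ℕ
  h' : ℕ

namespace Par

variable (P : Par)

def fF : Fl := ⟨true, true, false, false, P.T, P.δ, P.B, 0⟩
def fB : Fl := ⟨false, false, false, false, cB, cB, P.B, 0⟩
def U : List Leg := [⟨true, sg true P.b1, P.h, f0⟩, ⟨false, sg true P.a1, P.h', P.fF⟩,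
  ⟨false, sg true P.a2, P.h', P.fB⟩, ⟨true, sg false P.b1, P.h, P.fB⟩,
  ⟨false, sg true P.a1, P.h', P.fB⟩]
def V : List Leg := [⟨true, sg false P.b1, P.h, f0⟩, ⟨false, sg true P.a1, P.h', P.fF⟩,
  ⟨true, sg true P.b1, P.h, P.fF⟩]
def X (u : Bool) : List Leg := [⟨true, sg u P.b2, P.h, f0⟩,
  ⟨false, sg true P.a2, P.h', ⟨false, false, true, u, cB, cB, cB, P.B⟩⟩]
def ok (T : Tab) : Prop := P.b1 ≤ P.b2 ∧ P.b2 ≤ cB ∧ P.T + P.δ ≤ P.a2 ∧ P.a1 ≤ P.a2 ∧ 0 < P.δ ∧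
  ∀ k, (T.c k).1.natAbs + rad T k < P.a1 ∧ (T.c k).2.natAbs + rad T k < P.b1

end Par

theorem far_of (H : Hyp S T q z₀) (hc : pos' T) (hZ : Z.mem z₀) {P : Par} (hP : P.ok T)
    (hU : go T q n dv Z tr P.U = true) (hV : go T q n dv Z tr P.V = true)
    (hX : ∀ u, go T q n dv Z tr (P.X u) = true) :
    S.Far (re' P.a1) (re' P.b1) (re' P.a2) (re' P.b2) (re' P.δ) (re' P.T) (re' P.B) (re' P.B) := by
  obtain ⟨p1, p2, p3, p4, p5, p6⟩ := hP
  have c {l} (h : go T q n dv Z tr l = true) := go_ok H hc hZ (R := fun _ => True) (by simp) h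
  have U := c hU
  have V := c hV
  have X1 := c (hX true)
  have X2 := c (hX false)
  simp only [Par.U, Par.V, Par.X, Cov, pv, cond_true, cond_false, val_add, val_sub p2,
    val_sub (p1.trans p2), mem_uIcc] at U V X1 X2
  obtain ⟨-, u2, u3, u4, u5, -⟩ := U
  obtain ⟨-, v2, v3, -⟩ := V
  have q1 := re'_mono p1
  have q4 := re'_mono p4
  have ins (k) : |(S.c k).re| + ‖S.κ k‖ < re' P.a1 ∧ |(S.c k).im| + ‖S.κ k‖ < re' P.b1 := by
    have a := re'_smono (p6 k).1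
    have b := re'_smono (p6 k).2
    rw [re'_add'] at a b
    obtain ⟨c, d⟩ := near_ab H.O.near k
    constructor <;> linarith [le_abs_self (|(S.c k).re| - re' (T.c k).1.natAbs),
      le_abs_self (|(S.c k).im| - re' (T.c k).2.natAbs)]
  have ins' (k) : |(S.c k).re| + ‖S.κ k‖ < re' P.a2 ∧ _ := ⟨(ins k).1.trans_le q4, (ins k).2⟩
  have a0 : 0 < re' P.a1 := lt_of_le_of_lt (by positivity) (ins 0).1
  have b0 : 0 < re' P.b1 := lt_of_le_of_lt (by positivity) (ins 0).2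
  have im {z : ℂ} {b : ℝ} (h1 : |z.im| ≤ b) (h2 : b ≤ |z.im|) : z.im = b ∨ z.im = -b :=
    eq_or_eq_neg_of_abs_eq (h1.antisymm h2)
  refine H.A.far q1 (by simpa using re'_mono p3) q4 ins ⟨a0, b0, by simpa [re'] using re'_smono p5⟩
    (fun z ⟨⟨h1, h2⟩, h3⟩ => ?_) (fun z ⟨⟨h1, h2⟩, h3⟩ => ?_) fun x hx => ⟨?_, ?_⟩
  · have G : Good P.fF S z := by
      refine Good.abs H.τ (fun k => (out_lt ins z h3 k).le) ?_
      rcases h3 with h3 | h3
      · exact h1.antisymm h3 ▸ v3 _ (.inl (abs_le.1 h2))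
      · rcases im h2 h3 with e | e <;> rw [e]
        exacts [u2 _ (.inl ⟨abs_nonneg _, h1⟩), v2 _ (.inl ⟨abs_nonneg _, h1⟩)]
    exact ⟨⟨G.p rfl, G.c rfl, G.δ⟩, G.T⟩
  · have F : z ∈ S.F := fun k => (out_lt ins' z h3 k).le
    rcases h3 with h3 | h3
    · exact (Good.abs H.τ F (h1.antisymm h3 ▸ u4 _ (.inr (abs_le.1 h2)))).B
    · rcases im h2 h3 with e | e <;> rcases le_total |z.re| (re' P.a1) with h | h
      exacts [(Good.abs H.τ F (e ▸ u2 _ (.inl ⟨abs_nonneg _, h⟩))).B,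
        (Good.abs H.τ F (e ▸ u3 _ (.inl ⟨h, h1⟩))).B,
        (Good.abs H.τ F (e ▸ v2 _ (.inl ⟨abs_nonneg _, h⟩))).B,
        (Good.abs H.τ F (e ▸ u5 _ (.inr ⟨h, h1⟩))).B]
  · have := X1.2.1 _ (.inl ⟨abs_nonneg _, hx⟩)
    exact le_of_lt ((Good.abs (f := ⟨false, false, true, true, cB, cB, cB, P.B⟩) H.τ (fun k =>
      (out_lt ins _ (.inr (by simpa using q1.trans (le_abs_self _))) k).le) (by simpa)).s rfl)
  · have := X2.2.1 _ (.inl ⟨abs_nonneg _, hx⟩)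
    exact le_of_lt ((Good.abs (f := ⟨false, false, true, false, cB, cB, cB, P.B⟩) H.τ (fun k =>
      (out_lt ins _ (.inr (by simpa using q1.trans (le_abs_self _))) k).le) (by simpa)).s rfl)

theorem crit_of (H : Hyp S T q z₀) (hc : pos' T) (hZ : Z.mem z₀)
    (hκ : ∀ k, 5 * ((T.κ k).1.natAbs + (T.κ k).2.natAbs) ≤ 2 ^ 48) {x' y' ϱ t : ℕ} (h0 : 0 < ϱ)
    {a b : Leg} (h : go T q n dv Z (fun d => zchk d x' y' ϱ t) [a, b] = true) :
    ∃ t₁ ∈ S.Crit, ∃ t₂ ∈ S.Crit, 2 * re' t < t₁ - t₂ := by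
  obtain ⟨-, -, w, h1, h2, h3⟩ := go_ok H hc hZ (R := fun _ => _) (zchk_ok H.A H.O le_rfl hc
    (fun k => (norm_gz_le _ _).trans (by
      rw [div_le_div_iff₀ (by positivity) (by positivity), mul_comm, one_mul]
      exact_mod_cast hκ k)) h0) h
  refine ⟨_, ⟨w, ⟨h1, h2⟩, rfl⟩, _, ⟨_, ⟨H.τ.F w h1, ?_⟩, rfl⟩, by rw [H.τ.h3 w h1]; linarith⟩
  rw [H.τ.s1 w h1, H.τ.s2 w h1, ← map_mul, h2, map_zero]

structure Stair where
  w1 : ℕ
  w2 : ℕ
  w3 : ℕ
  y1 : ℕ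
  y2 : ℕ
  y3 : ℕ
  r : ℕ
  h : ℕ

def Stair.f (P : Stair) : Fl := ⟨true, false, false, false, P.r, cB, cB, 0⟩
def Stair.C (P : Stair) (u : Bool) : List Leg := [⟨false, sg true P.w1, P.h, f0⟩,
  ⟨true, sg u P.y1, P.h, P.f⟩, ⟨false, sg true P.w2, P.h, P.f⟩, ⟨true, sg u P.y2, P.h, P.f⟩,
  ⟨false, sg true P.w3, P.h, P.f⟩, ⟨true, sg u P.y3, P.h, P.f⟩, ⟨false, cB, P.h, P.f⟩]
def Stair.ok (P : Stair) (T : Tab) : Prop := P.w1 < P.w2 ∧ P.w2 < P.w3 ∧ P.y1 < P.y2 ∧ P.y2 < P.y3 ∧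
  P.y3 ≤ cB ∧ ∀ k, (T.c k).1.natAbs + rad T k < P.w3 ∧ (T.c k).2.natAbs + rad T k < P.y3 ∧
    ((T.c k).1.natAbs + rad T k < P.w2 ∨ P.y2 + rad T k < (T.c k).2.natAbs) ∧
    P.y1 + rad T k < (T.c k).2.natAbs

theorem stair_of (H : Hyp S T q z₀) (hc : pos' T) (hZ : Z.mem z₀) {P : Stair} (hP : P.ok T)
    (hC : ∀ u, go T q n dv Z tr (P.C u) = true) {z : ℂ} (hz : z ∈ S.F) (h0 : S.s1 z * S.s2 z = 0) :
    |S.h3 z| ≤ re' P.r := by
  obtain ⟨p1, p2, p3, p4, p5, p6⟩ := hP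
  have c (u) := go_ok H hc hZ (R := fun _ => True) (by simp) (hC u)
  have C1 := c true
  have C2 := c false
  simp only [Stair.C, Cov, pv, cond_true, cond_false, val_add, val_sub p5, val_sub (p4.le.trans p5),
    val_sub (p3.le.trans (p4.le.trans p5)), val_B, mem_uIcc] at C1 C2
  have q1 := re'_smono p1
  have q2 := re'_smono p2
  have q3 := re'_smono p3
  have q4 := re'_smono p4
  have cx : Continuous fun z : ℂ => |z.re| := by fun_prop
  have cy : Continuous fun z : ℂ => |z.im| := by fun_prop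
  have c0 {a : ℝ} : Continuous fun _ : ℂ => a := continuous_const
  have ho (z : ℂ) (hz : re' P.y3 ≤ |z.im| ∨ re' P.w3 ≤ |z.re| ∨ |z.im| ≤ re' P.y2 ∧ re' P.w2 ≤ |z.re|
      ∨ |z.im| ≤ re' P.y1 ∧ re' P.w1 ≤ |z.re|) (k) : ‖S.κ k‖ < ‖z - S.c k‖ := by
    obtain ⟨a1, a2, a3, a4⟩ := p6 k
    replace a1 := re'_smono a1
    replace a2 := re'_smono a2
    replace a3 := a3.imp re'_smono re'_smono
    replace a4 := re'_smono a4
    simp only [re'_add'] at a1 a2 a3 a4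
    obtain ⟨b1, b2⟩ := near_ab H.O.near k
    obtain ⟨d1, d2⟩ := abs_le.1 ((abs_abs_sub_abs_le_abs_sub _ _).trans (abs_re_le_norm (z - S.c k)))
    obtain ⟨d3, d4⟩ := abs_le.1 ((abs_abs_sub_abs_le_abs_sub _ _).trans (abs_im_le_norm (z - S.c k)))
    obtain ⟨d5, d6⟩ := abs_le.1 (le_sub_iff_add_le.2 b1)
    obtain ⟨d7, d8⟩ := abs_le.1 (le_sub_iff_add_le.2 b2)
    rcases hz with h | h | ⟨h, h'⟩ | ⟨h, h'⟩ <;> rcases a3 with a3 | a3 <;> linarith
  refine H.A.crit_le (K := box (re' P.w3) (re' P.y3) ∩ {z | |z.re| ≤ re' P.w1 ∨ re' P.y1 ≤ |z.im| ∧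
    |z.re| ≤ re' P.w2 ∨ re' P.y2 ≤ |z.im|}) (compact_box.inter_right ((isClosed_le cx c0).union
    (((isClosed_le c0 cy).inter (isClosed_le cx c0)).union (isClosed_le c0 cy))))
    ((isClosed_le c0 cy).union ((isClosed_le c0 cx).union (((isClosed_le cy c0).inter
    (isClosed_le c0 cx)).union ((isClosed_le cy c0).inter (isClosed_le c0 cx)))))
    (fun z hz => ?_) ho (fun z ⟨⟨⟨k1, k2⟩, k3⟩, o⟩ => ?_) hz h0
  · by_contra h
    simp only [mem_union, mem_inter_iff, mem_ofPred_eq, not_or, not_and, not_le] at h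
    obtain ⟨a, b, c, d⟩ := h
    refine hz ⟨⟨b.le, a.le⟩, (le_total |z.im| (re' P.y1)).elim (fun h => .inl (d h).le) fun h =>
      .inr ((le_total |z.im| (re' P.y2)).imp (fun h' => ⟨h, (c h').le⟩) id)⟩
  suffices G : Good P.f S z from ⟨G.p rfl, G.T.le⟩
  refine Good.abs H.τ (fun k => (ho z o k).le) ?_
  have x0 := abs_nonneg z.re
  obtain ⟨-, a1, a2, a3, a4, a5, a6, -⟩ := C1
  obtain ⟨-, b1, b2, b3, b4, b5, b6, -⟩ := C2
  have V {w a b a' : ℝ} (g1 : ∀ τ, a ≤ τ ∧ τ ≤ b ∨ b ≤ τ ∧ τ ≤ a → Good P.f S ⟨w, τ⟩)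
      (g2 : ∀ τ, a' ≤ τ ∧ τ ≤ -b ∨ -b ≤ τ ∧ τ ≤ a' → Good P.f S ⟨w, τ⟩) (e : a' = -a)
      (e1 : |z.re| = w) (h1 : a ≤ |z.im|) (h2 : |z.im| ≤ b) : Good P.f S ⟨|z.re|, z.im⟩ := by
    rcases abs_cases z.im with ⟨h, -⟩ | ⟨h, -⟩ <;> rw [h] at h1 h2 <;> rw [e1]
    exacts [g1 _ (.inl ⟨h1, h2⟩), g2 _ (.inr ⟨by linarith, by linarith⟩)]
  have W {y : ℝ} {p : ℝ → Prop} (g1 : ∀ τ, p τ → Good P.f S ⟨τ, y⟩) (g2 : ∀ τ, p τ → Good P.f S ⟨τ, -y⟩)
      (e1 : |z.im| = y) (h : p |z.re|) : Good P.f S ⟨|z.re|, z.im⟩ := by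
    rcases eq_or_eq_neg_of_abs_eq e1 with e | e <;> rw [e]
    exacts [g1 _ h, g2 _ h]
  rcases o with o | o | ⟨o, o'⟩ | ⟨o, o'⟩
  · exact W a6 b6 (k2.antisymm o) (.inr ⟨x0, k1⟩)
  · rcases k3 with k3 | ⟨-, k3⟩ | k3
    exacts [absurd (o.trans k3) (by linarith), absurd (o.trans k3) q2.not_ge,
      V a5 b5 rfl (k1.antisymm o) k3 k2]
  · rcases k3 with k3 | ⟨k3, k4⟩ | k3
    exacts [absurd (o'.trans k3) q1.not_ge, V a3 b3 rfl (k4.antisymm o') k3 o,
      W a4 b4 (le_antisymm o k3) (.inl ⟨o', k1⟩)]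
  · rcases k3 with k3 | ⟨k3, k4⟩ | k3
    exacts [V a1 b1 neg_zero.symm (le_antisymm k3 o') (abs_nonneg _) o,
      W a2 b2 (le_antisymm o k3) (.inl ⟨o', k4⟩), absurd (le_trans k3 o) q3.not_ge]

end Pool.Agent.MP_c434f6_gt.H30.W

end
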